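import Pool.Agent.Lib.MP_35cce7_an.DuMk

namespace Pool.Agent.Lib.MP_35cce7_an

open Equiv

noncomputable section

abbrev E6 := Fin 6 → ℝ

def bf : E6 →ₗ[ℝ] E6 →ₗ[ℝ] ℝ := LinearMap.mk₂ ℝ
  (fun u v => u 0 * v 3 + u 1 * v 4 + u 2 * v 5 + u 3 * v 0 + u 4 * v 1 + u 5 * v 2)
  (fun _ _ _ => by simp only [Pi.add_apply]; ring)
  (fun _ _ _ => by simp only [Pi.smul_apply, smul_eq_mul]; ring)
  (fun _ _ _ => by simp only [Pi.add_apply]; ring)
  (fun _ _ _ => by simp only [Pi.smul_apply, smul_eq_mul]; ring)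

lemma bf_sy (u v : E6) : bf u v = bf v u := by
  simp only [bf, LinearMap.mk₂_apply]; ring

def Ind (α β γ : E6) : Prop := ∀ a b c : ℝ, ∃ z, bf α z = a ∧ bf β z = b ∧ bf γ z = c

lemma ex_roots (P Q : ℝ) : ∃ α γ β : E6, bf α α = 2 ∧ bf γ γ = 2 ∧ bf β β = 2 ∧ bf α γ = 0 ∧
    bf γ β = Q ∧ bf α β = -P ∧ Ind α γ β := by
  refine ⟨![1, 0, 0, 1, 0, -P], ![0, 1, 0, 0, 1, Q], ![0, 0, 1, 0, 0, 1], ?_, ?_, ?_, ?_, ?_, ?_,
    fun a b c => ⟨![0, 0, 0, a, b, c], ?_, ?_, ?_⟩⟩ <;> simp [bf] <;> norm_num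

abbrev GE := E6 ≃ₗ[ℝ] E6

open Classical in
def rf (α : E6) : GE := if h : bf α α = 2 then Module.reflection h else 1

variable {α β γ : E6}

lemma rf_apply (h : bf α α = 2) (v : E6) : rf α v = v - bf α v • α := by
  rw [rf, dif_pos h, Module.reflection_apply]

lemma rf_sq (h : bf α α = 2) : rf α * rf α = 1 := by
  refine LinearEquiv.ext fun v => ?_
  simp only [LinearEquiv.mul_apply, rf_apply h, map_sub, map_smul, h, smul_eq_mul,
    LinearEquiv.coe_one, id]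
  module

lemma rf_inv (h : bf α α = 2) : (rf α)⁻¹ = rf α := inv_eq_of_mul_eq_one_right (rf_sq h)

def Iso (g : GE) : Prop := ∀ u v, bf (g u) (g v) = bf u v

lemma Iso.mul {g g' : GE} (h : Iso g) (h' : Iso g') : Iso (g * g') := fun _ _ =>
  (h _ _).trans (h' _ _)

lemma Iso.pow {g : GE} (h : Iso g) (n : ℕ) : Iso (g ^ n) := by
  induction n with
  | zero => exact fun _ _ => rfl
  | succ n ih => rw [pow_succ]; exact ih.mul h

lemma rf_iso (h : bf α α = 2) : Iso (rf α) := fun u v => by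
  simp only [rf_apply h, map_sub, map_smul, LinearMap.sub_apply, LinearMap.smul_apply, h,
    smul_eq_mul, bf_sy u α]
  ring

lemma rf_conj {g : GE} (hg : Iso g) (h : bf α α = 2) : rf (g α) = g * rf α * g⁻¹ := by
  rw [eq_mul_inv_iff_mul_eq]
  refine LinearEquiv.ext fun v => ?_
  simp only [LinearEquiv.mul_apply, rf_apply h, rf_apply ((hg _ _).trans h), hg _ _, map_sub,
    map_smul]

lemma rt_neg (h : bf α α = 2) : bf (-α) (-α) = 2 := by simpa using h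

lemma rf_neg (h : bf α α = 2) : rf (-α) = rf α := by
  refine LinearEquiv.ext fun v => ?_
  simp [rf_apply h, rf_apply (rt_neg h)]

lemma pm_of_smul (h : bf α α = 2) (h' : bf β β = 2) {c : ℝ} (e : α = c • β) : α = β ∨ α = -β := by
  subst e
  simp only [map_smul, LinearMap.smul_apply, h', smul_eq_mul] at h
  rcases mul_self_eq_one_iff.1 (show c * c = 1 by linarith) with rfl | rfl <;> simp

lemma rf_smul (h : bf α α = 2) (h' : bf β β = 2) {c : ℝ} (e : α = c • β) : rf α = rf β := by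
  rcases pm_of_smul h h' e with rfl | rfl
  exacts [rfl, rf_neg h']

lemma pm_of_rf (h : bf α α = 2) (h' : bf β β = 2) (e : rf α = rf β) : α = β ∨ α = -β := by
  have := congrArg (· α) e
  simp only [rf_apply h, rf_apply h', h, sub_right_inj] at this
  exact pm_of_smul h h' (c := 2⁻¹ * bf β α) (by rw [mul_smul, ← this]; simp)

def St (τ : GE × GE × GE) (α β γ : E6) : Prop :=
  bf α α = 2 ∧ bf β β = 2 ∧ bf γ γ = 2 ∧ τ = (rf α, rf β, rf γ)

variable {τ : GE × GE × GE}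

lemma St.r (h : St τ α β γ) : St (hr τ) β γ (rf γ (rf β α)) := by
  obtain ⟨h1, h2, h3, rfl⟩ := h
  refine ⟨h2, h3, by rw [rf_iso h3, rf_iso h2, h1], ?_⟩
  rw [rf_conj (rf_iso h3) ((rf_iso h2 _ _).trans h1), rf_conj (rf_iso h2) h1, hr_apply]
  simp only [mul_inv_rev, rf_inv h2, rf_inv h3, mul_assoc]

lemma St.r' (h : St τ α β γ) : St (hr⁻¹ τ) (rf α (rf β γ)) α β := by
  obtain ⟨h1, h2, h3, rfl⟩ := h
  refine ⟨by rw [rf_iso h1, rf_iso h2, h3], h1, h2, ?_⟩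
  rw [rf_conj (rf_iso h1) ((rf_iso h2 _ _).trans h3), rf_conj (rf_iso h2) h3, hr_inv]
  simp only [mul_inv_rev, mul_assoc]

lemma St.s (h : St τ α β γ) : St (hs τ) α γ (-rf γ β) := by
  obtain ⟨h1, h2, h3, rfl⟩ := h
  have := (rf_iso h3 _ _).trans h2
  refine ⟨h1, h3, rt_neg this, ?_⟩
  rw [rf_neg this, rf_conj (rf_iso h3) h2, hs_apply]
  simp only [rf_inv h3]

def Vl (τ : GE × GE × GE) (x y z : ℝ) : Prop := ∃ α β γ, St τ α β γ ∧ bf α β = x ∧ bf β γ = y ∧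
  x * y - bf α γ = z

lemma mk_rep {G : Type} [Group G] (ψ : G →* GE) : Mk hr hs fun ω => Vl (mp ψ ω) where
  rel := hs_rel
  r := by
    rintro ω _ _ _ ⟨α, β, γ, h, rfl, rfl, rfl⟩
    refine ⟨_, _, _, mp_hr ψ ω ▸ h.r, rfl, ?_, ?_⟩ <;>
      simp only [rf_apply h.2.1, rf_apply h.2.2.1, map_sub, map_smul, smul_eq_mul, h.2.1, h.2.2.1,
        bf_sy β α, bf_sy γ α, bf_sy γ β] <;> ring
  r' := by
    rintro ω _ _ _ ⟨α, β, γ, h, rfl, rfl, rfl⟩
    refine ⟨_, _, _, mp_hr' ψ ω ▸ h.r', ?_, rfl, ?_⟩ <;>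
      simp only [rf_apply h.2.1, rf_apply h.1, map_sub, map_smul, smul_eq_mul, h.2.1, h.1,
        LinearMap.sub_apply, LinearMap.smul_apply, bf_sy β α, bf_sy γ α, bf_sy γ β] <;> ring
  s := by
    rintro ω _ _ _ ⟨α, β, γ, h, rfl, rfl, rfl⟩
    refine ⟨_, _, _, mp_hs ψ ω ▸ h.s, ?_, ?_, ?_⟩ <;>
      (try simp only [rf_apply h.2.2.1, map_sub, map_neg, map_smul, smul_eq_mul, h.2.2.1,
        bf_sy γ β]) <;> ring
  u := by
    rintro ω _ _ _ _ _ ⟨α, β, γ, ⟨h1, h2, h3, e⟩, rfl, rfl, rfl⟩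
      ⟨α', β', γ', ⟨h1', h2', h3', e'⟩, rfl, rfl, h⟩
    rw [e, Prod.mk.injEq, Prod.mk.injEq] at e'
    rcases pm_of_rf h1 h1' e'.1 with rfl | rfl <;> rcases pm_of_rf h2 h2' e'.2.1 with rfl | rfl <;>
      rcases pm_of_rf h3 h3' e'.2.2 with rfl | rfl <;>
      (try simp only [map_neg, LinearMap.neg_apply]) <;> linarith

def Inn (τ : GE × GE × GE) : Prop := ∃ α β γ, St τ α β γ ∧ Ind α β γ

lemma inn_orb {G : Type} [Group G] (ψ : G →* GE) {ω₀ ω : G × G × G} (h0 : Inn (mp ψ ω₀))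
    (o : Orb hr hs ω₀ ω) : Inn (mp ψ ω) := by
  induction o with
  | base => exact h0
  | r _ ih =>
    obtain ⟨α, β, γ, h, i⟩ := ih
    refine ⟨_, _, _, mp_hr ψ _ ▸ h.r, fun a b c => ?_⟩
    obtain ⟨z, h1, h2, h3⟩ := i (c + bf β α * a + bf γ (rf β α) * b) a b
    refine ⟨z, h2, h3, ?_⟩
    rw [rf_apply h.2.2.1, map_sub, LinearMap.sub_apply, rf_apply h.2.1]
    simp only [map_sub, map_smul, LinearMap.sub_apply, LinearMap.smul_apply, h1, h2, h3,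
      rf_apply h.2.1, smul_eq_mul]
    ring
  | r' _ ih =>
    obtain ⟨α, β, γ, h, i⟩ := ih
    refine ⟨_, _, _, mp_hr' ψ _ ▸ h.r', fun a b c => ?_⟩
    obtain ⟨z, h1, h2, h3⟩ := i b c (a + bf β γ * c + bf α (rf β γ) * b)
    refine ⟨z, ?_, h1, h2⟩
    rw [rf_apply h.1, map_sub, LinearMap.sub_apply, rf_apply h.2.1]
    simp only [map_sub, map_smul, LinearMap.sub_apply, LinearMap.smul_apply, h1, h2, h3,
      rf_apply h.2.1, smul_eq_mul]
    ring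
  | s _ ih =>
    obtain ⟨α, β, γ, h, i⟩ := ih
    refine ⟨_, _, _, mp_hs ψ _ ▸ h.s, fun a b c => ?_⟩
    obtain ⟨z, h1, h2, h3⟩ := i a (bf γ β * b - c) b
    refine ⟨z, h1, h3, ?_⟩
    simp only [map_sub, map_neg, map_smul, LinearMap.sub_apply, LinearMap.smul_apply,
      LinearMap.neg_apply, h2, h3, rf_apply h.2.2.1, smul_eq_mul]
    ring

lemma Inn.mov (h : Inn τ) : ∃ α β v, bf α α = 2 ∧ bf β β = 2 ∧ τ.1 = rf α ∧ τ.2.1 = rf β ∧
    (τ.1 * τ.2.1) v = v + α := by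
  obtain ⟨α, β, γ, ⟨h1, h2, -, rfl⟩, i⟩ := h
  obtain ⟨v, a1, a2, -⟩ := i (-1) 0 0
  exact ⟨α, β, v, h1, h2, rfl, rfl, by simp [rf_apply h1, rf_apply h2, a1, a2]⟩

lemma lin_girth {τ₁ τ₂ τ₃ τ₄ : GE × GE × GE} (h1 : Inn τ₁) (h2 : Inn τ₂) (h3 : Inn τ₃)
    (h4 : Inn τ₄) (p2 : pr τ₁ = pr τ₂) (p3 : pr τ₃ = pr τ₄) (p4 : pr τ₁ = pr τ₄)
    (e1 : τ₁.1 = τ₄.1) (e2 : τ₁.2.2 = τ₂.2.2) (e3 : τ₂.1 = τ₃.1) (e4 : τ₃.2.2 = τ₄.2.2) :
    τ₁.1 = τ₂.1 ∨ τ₁.2.2 = τ₃.2.2 := by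
  rw [pr, pr, e2, mul_left_inj] at p2
  rw [pr, pr, e4, mul_left_inj] at p3
  obtain ⟨α', β', v, a1, -, a2, -, a3⟩ := h2.mov
  obtain ⟨α'', β'', v', b1, -, b2, -, b3⟩ := h3.mov
  obtain ⟨α, β, γ, ⟨c1, c2, c3, rfl⟩, i⟩ := h1
  obtain ⟨α₄, β₄, γ₄, ⟨d1, d2, d3, rfl⟩, -⟩ := h4
  obtain ⟨z, z1, z2, z3⟩ := i 0 0 1
  dsimp only [pr] at *
  have u1 : (rf α * rf β) z = z := by simp [rf_apply c1, rf_apply c2, z1, z2]
  have u2 : bf α' z = 0 := by
    have := ((rf_iso c1).mul (rf_iso c2)) v z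
    rw [u1, p2, a3, map_add, LinearMap.add_apply] at this
    linarith
  have u3 : bf α'' z = 0 := by
    rcases pm_of_rf b1 a1 (b2.symm.trans (e3.symm.trans a2)) with rfl | rfl <;> simp [u2]
  have u4 : bf α₄ z = 0 := by
    rcases pm_of_rf d1 c1 e1.symm with rfl | rfl <;> simp [z1]
  rw [p3, LinearEquiv.mul_apply, rf_apply d1, rf_apply d2] at b3
  generalize bf α₄ (v' - bf β₄ v' • β₄) = t at b3
  have u5 : α'' = -bf β₄ v' • β₄ - t • α₄ := by
    rw [← add_right_inj v', ← b3]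
    module
  have u6 : bf β₄ v' * bf β₄ z = 0 := by
    rw [u5] at u3
    simpa [u4] using u3
  rcases mul_eq_zero.1 u6 with h | h
  · left
    rw [e1, e3, b2]
    exact (rf_smul b1 d1 (c := -t) (by rw [u5, h]; simp)).symm
  · right
    have u7 : (rf α₄ * rf β₄) z = z := by simp [rf_apply d1, rf_apply d2, u4, h]
    have u8 : rf γ₄ (rf γ z) = z := by
      apply (rf α₄ * rf β₄).injective
      rw [u7, ← LinearEquiv.mul_apply, ← p4, ← LinearEquiv.mul_apply, mul_assoc, rf_sq c3,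
        mul_one, u1]
    have u9 : rf γ z = rf γ₄ z := by
      nth_rw 2 [← u8]
      rw [← LinearEquiv.mul_apply, ← LinearEquiv.mul_apply, rf_sq d3, one_mul]
    rw [rf_apply c3, rf_apply d3, z3, one_smul, sub_right_inj] at u9
    rw [e4]
    exact rf_smul c3 d3 u9

lemma hs_pow (h1 : bf α α = 2) (h2 : bf β β = 2) {m : ℕ} (hm : 2 ≤ m) (h : bf α β = cc m) :
    ((hs : Perm (GE × GE × GE)) ^ m) (rf α, rf α, rf β) = (rf α, rf α, rf β) := by
  have key : ∀ n : ℕ, ∃ u v, St (((hs : Perm (GE × GE × GE)) ^ (n + 1)) (rf α, rf α, rf β)) α u v ∧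
      bf u v = cc m ∧ u = ch (cc m) (n + 1) • β - ch (cc m) n • α ∧
      v = ch (cc m) (n + 2) • β - ch (cc m) (n + 1) • α := fun n => by
    induction n with
    | zero =>
      refine ⟨_, _, St.s ⟨h1, h1, h2, rfl⟩, ?_, by simp [ch], ?_⟩
      · simp [rf_apply h2, h2, bf_sy β α, h]; ring
      · simp [rf_apply h2, ch, bf_sy β α, h]
    | succ n ih =>
      obtain ⟨u, v, a1, a2, a3, a4⟩ := ih
      refine ⟨_, _, by rw [pow_succ']; exact a1.s, ?_, a4, ?_⟩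
      · simp [rf_apply a1.2.2.1, a1.2.2.1, bf_sy v u, a2]; ring
      · rw [rf_apply a1.2.2.1, bf_sy v u, a2, a3, a4, ch.eq_3 _ (n + 1), ch.eq_3 _ n]
        module
  obtain ⟨n, rfl⟩ : ∃ n, m = n + 1 := ⟨m - 1, by omega⟩
  obtain ⟨u, v, a1, -, a3, -⟩ := key n
  rw [(ch_zero hm _).2 dvd_rfl, ch_last (by omega), zero_smul, one_smul, zero_sub] at a3
  refine tr_ext (by rw [a1.2.2.2]) (by rw [a1.2.2.2, a3, rf_neg h1]) ?_
  generalize n + 1 = k
  induction k with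
  | zero => rfl
  | succ k ih => rw [pow_succ', Perm.mul_apply, pr_hs, ih]

lemma cox {P Q : ℝ} (h1 : bf α α = 2) (h2 : bf γ γ = 2) (h3 : bf β β = 2) (h4 : bf α γ = 0)
    (h5 : bf γ β = Q) (h6 : bf α β = -P) (i : Ind α γ β) (hP : P ≠ 0) {j : ℤ}
    (hj : Commute ((rf α * rf γ * rf β) ^ j) (rf β)) : ch (P ^ 2 + Q ^ 2 - 2) j.natAbs = 0 := by
  have hD := ((rf_iso h1).mul (rf_iso h2)).mul (rf_iso h3)
  have e1 : (rf α * rf γ * rf β) β = -β - P • α + Q • γ := by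
    simp only [LinearEquiv.mul_apply, rf_apply h1, rf_apply h2, rf_apply h3, map_sub, map_smul,
      h3, h4, h5, h6, smul_eq_mul]
    module
  have e2 : (rf α * rf γ * rf β) ((rf α * rf γ * rf β) β) =
      (P ^ 2 + Q ^ 2 - 2) • (rf α * rf γ * rf β) β - β := by
    rw [e1]
    simp only [LinearEquiv.mul_apply, rf_apply h1, rf_apply h2, rf_apply h3, map_sub, map_smul,
      map_add, map_neg, h1, h2, h3, h4, h5, h6, smul_eq_mul, bf_sy β α, bf_sy β γ, bf_sy γ α]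
    module
  generalize rf α * rf γ * rf β = D at *
  have key : ∀ n : ℕ, (D ^ (n + 1)) β =
      ch (P ^ 2 + Q ^ 2 - 2) (n + 1) • D β - ch (P ^ 2 + Q ^ 2 - 2) n • β := fun n => by
    induction n with
    | zero => simp [ch]
    | succ n ih =>
      rw [pow_succ', LinearEquiv.mul_apply, ih, map_sub, map_smul, map_smul, e2, ch.eq_3 _ n]
      module
  have hn : Commute (D ^ j.natAbs) (rf β) := by
    rcases Int.natAbs_eq j with e | e
    · rwa [e, zpow_natCast] at hj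
    · rw [e, zpow_neg, zpow_natCast] at hj
      exact Commute.inv_left_iff.1 hj
  generalize j.natAbs = n at hn
  cases n with
  | zero => rfl
  | succ n =>
    obtain ⟨z, z1, z2, z3⟩ := i 1 0 0
    have := pm_of_rf ((hD.pow (n + 1) _ _).trans h3) h3 (by
      rw [rf_conj (hD.pow _) h3, hn.eq, mul_inv_cancel_right])
    have h : bf ((D ^ (n + 1)) β) z = 0 := by
      rcases this with h | h <;> simp [h, z3]
    rw [key, e1] at h
    simpa [z1, z2, z3, hP] using h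

end

end Pool.Agent.Lib.MP_35cce7_an
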