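import Pool.Agent.Lib.MP_35cce7_an.DuGrp
import Pool.Agent.Lib.MP_35cce7_an.DuRep

namespace Pool.Agent.Lib.MP_35cce7_an

open Equiv

noncomputable section

section
variable {G H : Type} [Group G] [Group H]

lemma hur (t x y : G) {m : ℕ} (hm : m ≠ 0) :
    ((hs : Perm (G × G × G)) ^ m) (t, x, y) = (t, x, y) ↔ alt m x y = alt m y x := by
  have key : ∀ n : ℕ, ((hs : Perm (G × G × G)) ^ (n + 1)) (t, x, y) =
      (t, (ra n y x)⁻¹ * ra (n + 1) y x, (ra (n + 1) y x)⁻¹ * ra (n + 2) y x) := fun n => by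
    induction n with
    | zero => simp [hs_apply, ra, mul_assoc]
    | succ n ih =>
      rw [pow_succ', Perm.mul_apply, ih, hs_apply]
      refine Prod.ext rfl (Prod.ext rfl ?_)
      rw [show ra (n + 1 + 2) y x = ra (n + 1) y x * x * y from rfl,
        show ra (n + 2) y x = ra n y x * x * y from rfl]
      group
  obtain ⟨n, rfl⟩ := Nat.exists_eq_succ_of_ne_zero hm
  rw [alt_iff, show ra (n + 1) x y = ra n y x * x from rfl]
  refine ⟨fun h => ?_, fun h => tr_ext (by rw [key]) (by rw [key, ← h]; simp) ?_⟩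
  · rw [key] at h
    exact (inv_mul_eq_iff_eq_mul.1 (congrArg (·.2.1) h)).symm
  · generalize n.succ = k
    induction k with
    | zero => rfl
    | succ k ih => rw [pow_succ', Perm.mul_apply, pr_hs, ih]

def Rel (p q : ℕ) (x y z : G) : Prop :=
  alt 2 x y = alt 2 y x ∧ alt p x z = alt p z x ∧ alt q y z = alt q z y

def Fix (p q : ℕ) (ω : G × G × G) : Prop := hr (hs ω) = hs (hr (hr ω)) ∧
  ((hs : Perm (G × G × G)) ^ p) (hr ω) = hr ω ∧ ((hs : Perm (G × G × G)) ^ q) ω = ω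

lemma rel_iff {p q : ℕ} (hp : p ≠ 0) (hq : q ≠ 0) (x y z : G) :
    Rel p q x y z ↔ Fix p q (x, y, z) := by
  have e0 : alt 2 x y = alt 2 y x ↔ x * y = y * x := by simp [alt, List.range_succ]
  have e1 : hr (hs (x, y, z)) = hs (hr (hr (x, y, z))) ↔ x * y = y * x := by
    refine ⟨fun h => ?_, fun h => tr_ext rfl ?_ (by simp only [pr_hr, pr_hs])⟩
    · have := congrArg (fun ω => x * y * z * ω.2.1 * z⁻¹ * y⁻¹) h
      simp only [hr_apply, hs_apply] at this
      refine Eq.trans (by group) (this.trans ?_)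
      group
    · simp only [hr_apply, hs_apply]
      calc _ = (x * y * z)⁻¹ * (x * y) * y * z := by group
        _ = _ := by nth_rw 2 [h]; group
  rw [Rel, Fix, e0, e1, hur _ _ _ hq]
  refine and_congr_right fun h => and_congr_left' ?_
  have e2 : hr (x, y, z) = (y, MulAut.conj z⁻¹ z, MulAut.conj z⁻¹ x) := by
    simp only [hr_apply, MulAut.conj_apply, Prod.mk.injEq, true_and]
    refine ⟨by group, ?_⟩
    calc _ = z⁻¹ * y⁻¹ * (x * y) * z := by group
      _ = _ := by rw [h]; group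
  rw [e2, hur _ _ _ hp, ← map_alt, ← map_alt, (MulAut.conj z⁻¹).injective.eq_iff, eq_comm]

lemma Fix.map {p q : ℕ} {ω₀ : G × G × G} (f : Fix p q ω₀) {h : G → H} {η : H}
    (hh : ∀ ω, Orb hr hs ω₀ ω → pr (mp h ω) = η) : Fix p q (mp h ω₀) := by
  have pw : ∀ ω, Orb hr hs ω₀ ω → ∀ n : ℕ, Orb hr hs ω₀ (((hs : Perm (G × G × G)) ^ n) ω) ∧
      mp h (((hs : Perm (G × G × G)) ^ n) ω) = ((hs : Perm (H × H × H)) ^ n) (mp h ω) :=
    fun ω o n => by
      induction n with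
      | zero => exact ⟨o, rfl⟩
      | succ n ih =>
        rw [pow_succ', pow_succ', Perm.mul_apply, Perm.mul_apply, (eqv hh ih.1).2, ih.2]
        exact ⟨ih.1.s, rfl⟩
  have b : Orb hr hs ω₀ ω₀ := .base
  refine ⟨?_, ?_, ?_⟩
  · rw [← (eqv hh b).2, ← (eqv hh b.s).1, f.1, (eqv hh b.r.r).2, (eqv hh b.r).1, (eqv hh b).1]
  · rw [← (eqv hh b).1, ← (pw _ b.r p).2, f.2.1]
  · rw [← (pw _ b q).2, f.2.2]

end

lemma Vl.neg {τ x y z} (h : Vl τ x y z) : Vl τ (-x) y (-z) := by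
  obtain ⟨α, β, γ, ⟨h1, h2, h3, rfl⟩, rfl, rfl, rfl⟩ := h
  exact ⟨-α, β, γ, ⟨rt_neg h1, h2, h3, by rw [rf_neg h1]⟩, by simp, rfl, by simp; ring⟩

variable {B : Type} {M : CoxeterMatrix B} {a b c : B}

lemma lift_three {K : Type} [Group K] (hB : ∀ i, i = a ∨ i = c ∨ i = b) (hac : a ≠ c)
    (hab : a ≠ b) (hcb : c ≠ b) (h2 : M a c = 2) {x y z : K} (h : Rel (M a b) (M c b) x y z) :
    ∃ π : Ar M →* K, mp π (gn M a, gn M c, gn M b) = (x, y, z) := by
  obtain ⟨h1, h3, h4⟩ := h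
  refine ⟨alift (fun i => open Classical in if i = a then x else if i = c then y else z)
    fun i j hij _ => ?_, by simp [mp, hac.symm, hab.symm, hcb.symm]⟩
  have h2' := M.symmetric c a ▸ h2
  have h5 := M.symmetric b a
  have h6 := M.symmetric b c
  rcases hB i with rfl | rfl | rfl <;> rcases hB j with rfl | rfl | rfl <;>
    first
    | exact (hij rfl).elim
    | simp only [hac.symm, hab.symm, hcb.symm, if_true, if_false, h2, h2', h1, h3, h4, h5, h6]

theorem rd_path (hB : ∀ i, i = a ∨ i = c ∨ i = b) (hac : a ≠ c) (hab : a ≠ b) (hcb : c ≠ b)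
    (h2 : M a c = 2) (hq : 3 ≤ M c b) (hle : M c b ≤ M a b) : RDb (Ball (gn M)) := by
  have hp := hq.trans hle
  have f0 : Fix (M a b) (M c b) (gn M a, gn M c, gn M b) := (rel_iff (by omega) (by omega) _ _ _).1
    ⟨h2 ▸ braid (by omega), braid (by omega), braid (by omega)⟩
  obtain ⟨α, γ, β, r1, r2, r3, r4, r5, r6, r7⟩ := ex_roots (cc (M a b)) (cc (M c b))
  obtain ⟨ψ, hψ⟩ := lift_three hB hac hab hcb h2 (x := rf α) (y := rf γ) (z := rf β)
    ⟨(hur _ _ _ two_ne_zero).1 (hs_pow r1 r2 le_rfl (r4.trans cc_two.symm)), by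
      rw [← rf_neg r1]
      exact (hur _ _ _ (by omega)).1 (hs_pow (rt_neg r1) r3 (by omega) (by simp [r6])),
      (hur _ _ _ (by omega)).1 (hs_pow r2 r3 (by omega) r5)⟩
  generalize e0 : (gn M a, gn M c, gn M b) = ω₀ at f0 hψ
  have K := mk_rep ψ
  have v0 : Vl (mp ψ ω₀) 0 (cc (M c b)) (cc (M a b)) :=
    ⟨α, γ, β, ⟨r1, r2, r3, hψ⟩, r4, r5, by simp [r6]⟩
  have H : Half hr hs (fun ω => Vl (mp ψ ω)) (M a b) (M c b) (hr ω₀) (hs ω₀) :=
    ⟨(congrArg (· ω₀) hs_rel).symm, f0.2.1, K.r v0, hp⟩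
  have H' : Half hr hs (fun ω => Vl (mp ψ ω)) (M c b) (M a b) (hs ω₀) (hr ω₀) :=
    ⟨f0.1, by rw [← Perm.mul_apply, ← pow_succ, pow_succ', Perm.mul_apply, f0.2.2],
      by simpa using (K.s v0).neg, hq⟩
  have e1 := hψ
  simp only [mp, Prod.mk.injEq] at e1
  have inj0 : ∀ ω, Orb hr hs (hr ω₀) ω → mp ψ ω = mp ψ (hr ω₀) → ω = hr ω₀ := fun ω o e => by
    obtain ⟨j, hj⟩ := K.zero H H' o (e ▸ H.val)
    have c1 : ψ ω.2.1 = rf β := (congrArg (·.2.1) e).trans e1.2.2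
    have c2 : ω.2.1 = (pr ω₀ ^ j)⁻¹ * ω₀.2.2 * pr ω₀ ^ j := by
      rcases hj with rfl | rfl <;> rw [hr_three]
      · rw [pr_hr]; rfl
      · rw [pr_hs]; rfl
    have c3 := cox r1 r2 r3 r4 r5 r6 r7 (by linarith [cc_one hp]) (j := j) (by
      rw [c2] at c1
      simp only [pr, map_mul, map_inv, map_zpow, e1.1, e1.2.1, e1.2.2] at c1
      rw [mul_assoc _ (rf β), inv_mul_eq_iff_eq_mul] at c1
      exact c1.symm)
    have c4 : ω = hr ω₀ ∨ ω = hs ω₀ := by
      rcases hj with rfl | rfl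
      exacts [K.fin H H' hle c3 (Or.inl rfl), K.fin H H' hle c3 (Or.inr rfl)]
    refine c4.resolve_right ?_
    rintro rfl
    have : rf α = rf γ := e1.1.symm.trans ((congrArg (·.1) e).trans e1.2.1)
    rcases pm_of_rf r1 r2 this with rfl | rfl
    · linarith
    · simp [r2] at r4
  have inj : ∀ ω, Orb hr hs (hr ω₀) ω → ∀ ω', Orb hr hs (hr ω₀) ω' → mp ψ ω' = mp ψ ω →
      ω' = ω := fun ω o => by
    induction o with
    | base => exact inj0
    | r _ ih =>
      exact fun ω' o' e => (Perm.inv_eq_iff_eq.1 (ih _ o'.r' (by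
        rw [mp_hr', e, mp_hr]; exact hr.symm_apply_apply _)))
    | r' _ ih =>
      exact fun ω' o' e => (Perm.eq_inv_iff_eq.2 (ih _ o'.r (by
        rw [mp_hr, e, mp_hr']; exact hr.apply_symm_apply _)))
    | s _ ih =>
      exact fun ω' o' e => (Perm.inv_eq_iff_eq.1 (ih _ (o'.s' hs_rel) (hs.injective (by
        rw [← mp_hs, ← mp_hs, ← e]; exact congrArg _ (hs.apply_symm_apply _)))))
  have ob : ∀ {ω}, Orb hr hs ω₀ ω → Orb hr hs (hr ω₀) ω := fun o =>
    Orb.trans (by simpa using (Orb.base (ρ := hr) (σ := hs) (ω₀ := hr ω₀)).r') o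
  have pm : ∀ {ω}, Orb hr hs ω₀ ω → pr (mp ψ ω) = ψ (pr ω₀) := fun o => by
    rw [← o.pr]
    simp [pr, mp]
  refine rd_dual (ℓ := deg M) (ω₀ := ω₀) (by rw [← e0]; simp [mp, deg])
    (fun ω₁ ω₂ ω₃ ω₄ o1 o2 o3 o4 a1 a2 a3 a4 => ?_) (fun i => ?_) gen fun H _ h η hh => ?_
  · have i0 : Inn (mp ψ ω₀) := ⟨α, γ, β, ⟨r1, r2, r3, hψ⟩, r7⟩
    rcases lin_girth (inn_orb ψ i0 o1) (inn_orb ψ i0 o2) (inn_orb ψ i0 o3) (inn_orb ψ i0 o4)
      ((pm o1).trans (pm o2).symm) ((pm o3).trans (pm o4).symm) ((pm o1).trans (pm o4).symm)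
      (congrArg ψ a1) (congrArg ψ a2) (congrArg ψ a3) (congrArg ψ a4) with h | h
    · refine Or.inl (congrArg (·.1) (inj _ (ob o2) _ (ob o1) (tr_ext h ?_
        ((pm o1).trans (pm o2).symm))))
      have := (pm o1).trans (pm o2).symm
      rwa [pr, pr, h, show (mp ψ ω₁).2.2 = (mp ψ ω₂).2.2 from congrArg ψ a2, mul_left_inj,
        mul_right_inj] at this
    · refine Or.inr (a2.trans (congrArg (·.2.2) (inj _ (ob o3) _ (ob o2)
        (tr_ext (congrArg ψ a3) ?_ ((pm o2).trans (pm o3).symm)))))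
      have := (pm o2).trans (pm o3).symm
      rwa [pr, pr, ← h, show (mp ψ ω₁).2.2 = (mp ψ ω₂).2.2 from congrArg ψ a2, mul_left_inj,
        show (mp ψ ω₂).1 = (mp ψ ω₃).1 from congrArg ψ a3, mul_right_inj] at this
  · rcases hB i with rfl | rfl | rfl
    · exact ⟨_, .base, by rw [← e0]⟩
    · exact ⟨_, Orb.base.r, by rw [← e0]; rfl⟩
    · exact ⟨_, Orb.base.r.r, by rw [← e0]; rfl⟩
  · subst e0
    exact lift_three hB hac hab hcb h2 ((rel_iff (by omega) (by omega) _ _ _).2 (f0.map hh))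

end

theorem rd_rank3 {B : Type} [Fintype B] (M : CoxeterMatrix B) (h : Fintype.card B = 3) :
    RDb (Ball (gn M)) := by
  classical
  refine rd_of_hyp _ _ M rfl fun B' _ M' E h1 h2 h3 => ?_
  have hc : Fintype.card B' = 3 := le_antisymm (h ▸ Fintype.card_le_of_injective _ E.inj) h1
  have ge : ∀ i j, i ≠ j → M' i j ≠ 2 → 3 ≤ M' i j := fun i j hij e => by
    have := h2 i j
    have := M'.off_diagonal i j hij
    omega
  by_cases h4 : ∀ i j, i ≠ j → M' i j ≠ 2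
  · let _ : LinearOrder B' := LinearOrder.lift' _ (Fintype.equivFin B').injective
    have := Fintype.one_lt_card_iff_nontrivial.1 (by omega : 1 < Fintype.card B')
    exact rd_large fun i j hij => ge i j hij (h4 i j hij)
  push Not at h4
  obtain ⟨a, c, hac, h4⟩ := h4
  obtain ⟨b, hb⟩ : ∃ b, b ∉ ({a, c} : Finset B') := by
    by_contra hn
    push Not at hn
    have := Finset.card_le_card (show Finset.univ ⊆ {a, c} from fun i _ => hn i)
    have := Finset.card_le_two (a := a) (b := c)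
    rw [Finset.card_univ] at *
    omega
  simp only [Finset.mem_insert, Finset.mem_singleton, not_or] at hb
  have hB : ∀ i, i = a ∨ i = c ∨ i = b := fun i => by
    have : ({a, c, b} : Finset B') = Finset.univ := Finset.eq_univ_of_card _ (by
      rw [hc, Finset.card_eq_three]
      exact ⟨a, c, b, hac, Ne.symm hb.1, Ne.symm hb.2, rfl⟩)
    simpa using this.ge (Finset.mem_univ i)
  have h4' := M'.symmetric c a ▸ h4
  have k1 : M' a b ≠ 2 := by
    obtain ⟨_, j, rfl, h5, h6⟩ := h3 (· = a) ⟨a, rfl⟩ ⟨c, hac.symm⟩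
    rcases hB j with rfl | rfl | rfl <;> tauto
  have k2 : M' c b ≠ 2 := by
    obtain ⟨_, j, rfl, h5, h6⟩ := h3 (· = c) ⟨c, rfl⟩ ⟨a, hac⟩
    rcases hB j with rfl | rfl | rfl <;> tauto
  rcases le_total (M' c b) (M' a b) with h5 | h5
  · exact rd_path hB hac (Ne.symm hb.1) (Ne.symm hb.2) h4 (ge _ _ (Ne.symm hb.2) k2) h5
  · exact rd_path (fun i => by have := hB i; tauto) hac.symm (Ne.symm hb.2) (Ne.symm hb.1) h4'
      (ge _ _ (Ne.symm hb.1) k1) h5

end Pool.Agent.Lib.MP_35cce7_an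

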