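import Pool.Agent.Lib.MP_35cce7_an.BlkNrv
import Pool.Agent.Lib.MP_35cce7_an.DuArt

namespace Pool.Agent.Lib.MP_35cce7_an

noncomputable section

open Classical

variable {B : Type}

/-- the diagrams that the block reduction leaves -/
def Core (M : CoxeterMatrix B) : Prop :=
  (∃ i j k, M i j = 2 ∧ M j k = 2 ∧ 3 ≤ M i k) ∨
    ∃ p : B → Prop, ∀ i j, i ≠ j → (p i ↔ p j) → M i j = 2

def Hyp2 (M : CoxeterMatrix B) : Prop :=
  ∀ (B' : Type) [Fintype B'] (M' : CoxeterMatrix B'), Emb M' M → 4 ≤ Fintype.card B' →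
    (∀ i j, M' i j ≠ 0) → (∀ p : B' → Prop, (∃ i, p i) → (∃ j, ¬ p j) →
      ∃ i j, p i ∧ ¬ p j ∧ M' i j ≠ 2) → Core M' → RDb (Ball (gn M'))

theorem rd_of_hyp2 [Fintype B] (M : CoxeterMatrix B) (H : Hyp2 M) : RDb (Ball (gn M)) := by
  refine rd_of_hyp _ _ M rfl fun B' _ M' E h1 h2 h3 => ?_
  by_cases h4 : Fintype.card B' = 3
  · exact rd_rank3 M' h4
  by_cases h5 : Core M'
  · exact H B' M' E (by omega) h2 h3 h5
  have le : ∀ i j, M' i j ≤ 2 ↔ (i ≠ j → M' i j = 2) := fun i j => by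
    by_cases e : i = j
    · simp [e]
    · have := h2 i j
      have := M'.off_diagonal i j e
      simp only [ne_eq, e, not_false_eq_true, forall_const]
      omega
  let σ : Setoid B' := ⟨fun i j => M' i j ≤ 2, fun i => by simp, fun h => M'.symmetric _ _ ▸ h,
    fun {i j k} h h' => by
      by_cases e : i = j
      · exact e ▸ h'
      by_cases e' : j = k
      · exact e' ▸ h
      by_contra hn
      exact h5 (Or.inl ⟨i, j, k, (le _ _).1 h e, (le _ _).1 h' e', by omega⟩)⟩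
  let β : B' → Quotient σ := Quotient.mk σ
  have hβ : ∀ i j, β i = β j ↔ M' i j ≤ 2 := fun i j => Quotient.eq
  let _ : LinearOrder (Quotient σ) := LinearOrder.lift' _ (Fintype.equivFin _).injective
  let _ : LinearOrder B' := LinearOrder.lift' _ (Fintype.equivFin _).injective
  have : Nontrivial (Quotient σ) := by
    by_contra hn
    have := not_nontrivial_iff_subsingleton.1 hn
    exact h5 (Or.inr ⟨fun _ => True, fun i j hij _ =>
      (le _ _).1 ((hβ _ _).1 (Subsingleton.elim _ _)) hij⟩)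
  have bl : ∀ k, ∀ i ∈ β ⁻¹' {k}, ∀ j ∈ β ⁻¹' {k}, i ≠ j → M' i j = 2 := fun k i hi j hj =>
    (le _ _).1 ((hβ _ _).1 (Eq.trans hi (Eq.symm hj)))
  refine Blk.rd_blk (β := β) (fun k l hkl x hx y hy x' hx' y' hy' =>
    no_four_blk (bl k) (bl l) (fun i hi j hj => ?_) hx hy hx' hy') fun e => ?_
  · by_contra hn
    exact hkl ((Eq.symm hi).trans (((hβ _ _).2 (by omega)).trans hj))
  refine rd_of_hyp _ _ _ rfl fun B'' _ M'' E' g1 g2 g3 => ?_
  by_cases g4 : Fintype.card B'' = 3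
  · exact rd_rank3 M'' g4
  refine H B'' M'' ⟨fun i => E.e (E'.e i).1, E.inj.comp (Subtype.val_injective.comp E'.inj),
    fun i j => (E'.eq i j).trans (E.eq _ _)⟩ (by omega) g2 g3
    (Or.inr ⟨fun i => β (E'.e i).1 = e.1.1, fun i j hij h => ?_⟩)
  rw [E'.eq]
  refine (le _ _).1 ((hβ _ _).1 ?_) (Subtype.val_injective.ne (E'.inj.ne hij))
  by_cases a : β (E'.e i).1 = e.1.1
  · exact a.trans (h.1 a).symm
  · exact (Or.resolve_left (E'.e i).2 a).trans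
      (Or.resolve_left (E'.e j).2 fun b => a (h.2 b)).symm

theorem main2 (n : ℕ) (M : CoxeterMatrix (Fin n)) : HasRD M ↔
    ∀ T : Finset (Fin n), 4 ≤ T.card → (∀ i ∈ T, ∀ j ∈ T, M i j ≠ 0) →
      (∀ U ⊆ T, U.Nonempty → U ≠ T → ∃ i ∈ U, ∃ j ∈ T \ U, M i j ≠ 2) →
      ((∃ i ∈ T, ∃ j ∈ T, ∃ k ∈ T, M i j = 2 ∧ M j k = 2 ∧ 3 ≤ M i k) ∨
        ∃ U ⊆ T, ∀ i ∈ T, ∀ j ∈ T, i ≠ j → (i ∈ U ↔ j ∈ U) → M i j = 2) →
      HasRD (res M T) := by
  have e : ∀ {B : Type} (M : CoxeterMatrix B), HasRD M ↔ RDb (Ball (gn M)) := fun M => rd_iff _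
  simp only [e]
  refine ⟨fun h T _ _ _ _ => Emb.down ⟨Subtype.val, Subtype.val_injective, fun _ _ => rfl⟩ h,
    fun h => rd_of_hyp2 M fun B' _ M' E h1 h2 h3 h4 => ?_⟩
  refine Emb.down (M := res M (Finset.univ.image E.e)) ⟨fun i => ⟨E.e i, by simp⟩,
    fun i j e => E.inj (congrArg Subtype.val e), E.eq⟩ (h _ ?_ ?_ (fun U hU ⟨u, hu⟩ hne => ?_) ?_)
  · rwa [Finset.card_image_of_injective _ E.inj]
  · simp only [Finset.mem_image, Finset.mem_univ, true_and]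
    rintro _ ⟨i, rfl⟩ _ ⟨j, rfl⟩
    exact E.eq i j ▸ h2 i j
  · obtain ⟨i, -, rfl⟩ := Finset.mem_image.1 (hU hu)
    obtain ⟨w, h4, h5⟩ := Finset.exists_of_ssubset (hU.ssubset_of_ne hne)
    obtain ⟨j, -, rfl⟩ := Finset.mem_image.1 h4
    obtain ⟨a, b, c1, c2, c3⟩ := h3 (fun i => E.e i ∈ U) ⟨i, hu⟩ ⟨j, h5⟩
    exact ⟨_, c1, E.e b, by simp [c2], E.eq a b ▸ c3⟩
  · rcases h4 with ⟨i, j, k, a1, a2, a3⟩ | ⟨p, hp⟩
    · exact Or.inl ⟨E.e i, by simp, E.e j, by simp, E.e k, by simp, E.eq _ _ ▸ a1, E.eq _ _ ▸ a2,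
        E.eq _ _ ▸ a3⟩
    · refine Or.inr ⟨(Finset.univ.filter p).image E.e,
        Finset.image_subset_image (Finset.filter_subset _ _), ?_⟩
      simp only [Finset.mem_image, Finset.mem_univ, true_and, Finset.mem_filter]
      rintro _ ⟨i, rfl⟩ _ ⟨j, rfl⟩ hij h
      rw [← E.eq]
      exact hp i j (fun e => hij (congrArg _ e)) (by simpa [E.inj.eq_iff] using h)

theorem one_pair (n : ℕ) (M : CoxeterMatrix (Fin n))
    (h : ∀ T : Finset (Fin n), 4 ≤ T.card → (∀ i ∈ T, ∀ j ∈ T, M i j ≠ 0) →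
      (∀ U ⊆ T, U.Nonempty → U ≠ T → ∃ i ∈ U, ∃ j ∈ T \ U, M i j ≠ 2) →
      ∀ i ∈ T, ∀ j ∈ T, ∀ k ∈ T, ∀ l ∈ T, M i j = 2 → M k l = 2 →
        (i = k ∧ j = l) ∨ (i = l ∧ j = k)) : HasRD M := by
  refine (main2 n M).2 fun T h1 h2 h3 h4 => False.elim ?_
  have h := h T h1 h2 h3
  rcases h4 with ⟨i, hi, j, hj, k, hk, a1, a2, a3⟩ | ⟨U, hU, a⟩
  · rcases h i hi j hj j hj k hk a1 a2 with ⟨rfl, -⟩ | ⟨rfl, -⟩
    · simp at a1
    · simp at a3
  have three : ∀ W ⊆ T, (∀ i ∈ W, ∀ j ∈ W, (i ∈ U ↔ j ∈ U)) → W.card ≤ 2 := fun W hW e => by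
    by_contra hn
    obtain ⟨x, y, z, hx, hy, hz, xy, xz, yz⟩ := Finset.two_lt_card_iff.1 (not_le.1 hn)
    have := h x (hW hx) y (hW hy) x (hW hx) z (hW hz) (a _ (hW hx) _ (hW hy) xy (e _ hx _ hy))
      (a _ (hW hx) _ (hW hz) xz (e _ hx _ hz))
    tauto
  have b1 := three U hU fun i hi j hj => by simp [hi, hj]
  have b2 := three (T \ U) Finset.sdiff_subset fun i hi j hj => by
    simp [(Finset.mem_sdiff.1 hi).2, (Finset.mem_sdiff.1 hj).2]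
  have b3 := Finset.card_sdiff_add_card_eq_card hU
  obtain ⟨x, hx, y, hy, xy⟩ := Finset.one_lt_card.1 (by omega : 1 < U.card)
  obtain ⟨z, hz, w, hw, zw⟩ := Finset.one_lt_card.1 (by omega : 1 < (T \ U).card)
  rw [Finset.mem_sdiff] at hz hw
  rcases h x (hU hx) y (hU hy) z hz.1 w hw.1 (a _ (hU hx) _ (hU hy) xy (by simp [hx, hy]))
    (a _ hz.1 _ hw.1 zw (by simp [hz.2, hw.2])) with ⟨rfl, -⟩ | ⟨rfl, -⟩
  exacts [hz.2 hx, hw.2 hx]

end

end Pool.Agent.Lib.MP_35cce7_an
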