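import Pool.Agent.Lib.MP_35cce7_an.SysPar

namespace Pool.Agent.Lib.MP_35cce7_an

noncomputable section

open Classical

/-- the two elementary transvections of the plane -/
def sh1 (c : ℂ) : Equiv.Perm (ℂ × ℂ) :=
  ⟨fun p => (p.1 + c * p.2, p.2), fun p => (p.1 - c * p.2, p.2), fun p => by simp, fun p => by simp⟩

def sh2 (c : ℂ) : Equiv.Perm (ℂ × ℂ) :=
  ⟨fun p => (p.1, p.2 - c * p.1), fun p => (p.1, p.2 + c * p.1), fun p => by simp, fun p => by simp⟩

lemma sh_braid {z : ℂ} {m : ℕ} (hz : z ≠ 0) (z1 : z ^ 2 - 1 ≠ 0) (z3 : z ^ m = -1) :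
    alt m (sh1 (z + z⁻¹)) (sh2 (z + z⁻¹)) = alt m (sh2 (z + z⁻¹)) (sh1 (z + z⁻¹)) := by
  let R : Equiv.Perm (ℂ × ℂ) := ⟨fun p => ((z + z⁻¹) * p.1 - p.2, p.1),
    fun p => (p.2, (z + z⁻¹) * p.2 - p.1), fun p => by simp, fun p => by simp⟩
  let S : Equiv.Perm (ℂ × ℂ) := ⟨fun p => (-p.2, p.1), fun p => (p.2, -p.1), fun p => by simp,
    fun p => by simp⟩
  have r1 : ∀ (u v : ℂ) (k : ℕ), (R ^ k) (u * z + v * z⁻¹, u + v) =
      (u * z ^ k * z + v * z⁻¹ ^ k * z⁻¹, u * z ^ k + v * z⁻¹ ^ k) := fun u v k => by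
    induction k with
    | zero => simp
    | succ k ih =>
      rw [pow_succ', Equiv.Perm.mul_apply, ih, pow_succ, pow_succ]
      refine Prod.ext ?_ ?_ <;> simp only [R, Equiv.coe_fn_mk]
      · field_simp
        ring
      · ring
  have r2 : R ^ m = S * S := Equiv.ext fun p => by
    have := r1 ((p.1 * z - p.2) / (z ^ 2 - 1)) (p.2 - (p.1 * z - p.2) / (z ^ 2 - 1)) m
    rw [show (_, _) = p from Prod.ext (by field_simp; ring) (by simp)] at this
    rw [this, inv_pow, z3]
    refine Prod.ext ?_ ?_ <;> simp only [S, Equiv.Perm.mul_apply, Equiv.coe_fn_mk] <;> field_simp <;>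
      ring
  have r3 : Commute (S * S) R := Equiv.ext fun p => by
    refine Prod.ext ?_ ?_ <;> simp only [S, R, Equiv.Perm.mul_apply, Equiv.coe_fn_mk]
    ring
  have e1 : R * S⁻¹ = sh1 (z + z⁻¹) := Equiv.ext fun p =>
    Prod.ext (by simp [R, S, sh1, Equiv.Perm.inv_def]; ring) (by simp [R, S, sh1, Equiv.Perm.inv_def])
  have e2 : S * sh1 (z + z⁻¹) * S⁻¹ = sh2 (z + z⁻¹) := Equiv.ext fun p =>
    Prod.ext (by simp [S, sh1, sh2, Equiv.Perm.inv_def])
      (by simp [S, sh1, sh2, Equiv.Perm.inv_def]; ring)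
  have := alt_rot r3 r2
  rwa [e1, e2] at this

lemma alt_semi {X Y : Type} {f : X → Y} {a b : Equiv.Perm X} {a' b' : Equiv.Perm Y}
    (ha : ∀ p, a' (f p) = f (a p)) (hb : ∀ p, b' (f p) = f (b p)) (n : ℕ) (p : X) :
    alt n a' b' (f p) = f (alt n a b p) := by
  induction n generalizing p with
  | zero => simp [alt]
  | succ n ih =>
    rw [alt_succ, alt_succ, Equiv.Perm.mul_apply, Equiv.Perm.mul_apply, ← ih]
    split_ifs
    exacts [congrArg _ (ha p), congrArg _ (hb p)]

variable {B : Type} [LinearOrder B] (M : CoxeterMatrix B)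

/-- skew Cartan numbers -/
def sk (i j : B) : ℂ := if i < j then cf M i j else if j < i then -cf M j i else 0

/-- roots, with independent coroots -/
def rt (j : B) : B ⊕ B → ℂ := Sum.elim (fun i => sk M i j) (Pi.single j 1)

lemma rt_self (j : B) : rt M j (.inl j) = 0 := by simp [rt, sk]

/-- the transvections -/
def tv (j : B) : Equiv.Perm (B ⊕ B → ℂ) :=
  ⟨fun v => v + v (.inl j) • rt M j, fun v => v - v (.inl j) • rt M j,
    fun v => by simp [rt_self], fun v => by simp [rt_self]⟩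

variable {M}

lemma tv_apply (j : B) (v) : tv M j v = v + v (.inl j) • rt M j := rfl

lemma tv_inv (j : B) (v) : (tv M j)⁻¹ v = v - v (.inl j) • rt M j := rfl

lemma tv_symm (j : B) (v) : Equiv.symm (tv M j) v = v - v (.inl j) • rt M j := rfl

omit [LinearOrder B] in
lemma cf_two {i j : B} (h : M i j = 2) : cf M i j = 0 := by
  have : zt M i j = Complex.I := by
    rw [zt, h]
    refine Eq.trans (congrArg _ ?_) Complex.exp_pi_div_two_mul_I
    push_cast
    ring
  simp [cf, this]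

omit [LinearOrder B] in
lemma cf_ne {i j : B} (h : 3 ≤ M i j) : cf M i j ≠ 0 := fun e => by
  have hz : zt M i j ≠ 0 := Complex.exp_ne_zero _
  have hp : IsPrimitiveRoot (zt M i j ^ 2) (M i j) := zt_prim (by omega)
  have : zt M i j ^ 2 = -1 := by
    rw [cf] at e
    field_simp at e
    linear_combination e
  have := Nat.le_of_dvd two_pos ((hp.pow_eq_one_iff_dvd 2).1 (by rw [this]; norm_num))
  omega

lemma sk_two {i j : B} (h : i ≠ j → M i j = 2) : sk M i j = 0 := by
  unfold sk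
  split_ifs with h1 h2
  · exact cf_two (h h1.ne)
  · rw [cf_two (M.symmetric i j ▸ h h2.ne'), neg_zero]
  · rfl

lemma sk_ne {i j : B} (h : 3 ≤ M i j) : sk M i j ≠ 0 := by
  unfold sk
  split_ifs with h1 h2
  · exact cf_ne h
  · exact neg_ne_zero.2 (cf_ne (M.symmetric i j ▸ h))
  · obtain rfl := le_antisymm (not_lt.1 h2) (not_lt.1 h1)
    simp at h

lemma tv_lt {i j : B} (hij : i < j) (h0 : M i j ≠ 0) :
    alt (M i j) (tv M i) (tv M j) = alt (M i j) (tv M j) (tv M i) := by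
  have a1 : rt M j (.inl i) = cf M i j := by simp [rt, sk, hij]
  have a2 : rt M i (.inl j) = -cf M i j := by simp [rt, sk, hij, hij.not_gt]
  by_cases h2 : M i j = 2
  · rw [cf_two h2] at a1 a2
    rw [h2, alt_two_mul 1, alt_two_mul 1, pow_one, pow_one]
    refine Equiv.ext fun v => ?_
    simp only [Equiv.Perm.mul_apply, tv_apply, Pi.add_apply, Pi.smul_apply, a1, a2, neg_zero,
      smul_zero, add_zero]
    abel
  have h3 : 3 ≤ M i j := by
    have := M.off_diagonal i j hij.ne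
    omega
  have hc := cf_ne h3
  have hp : IsPrimitiveRoot (zt M i j ^ 2) (M i j) := zt_prim h0
  have z3 : zt M i j ^ M i j = -1 := by
    rw [zt, ← Complex.exp_nat_mul, mul_div_cancel₀, Complex.exp_pi_mul_I]
    exact Nat.cast_ne_zero.2 h0
  have br := sh_braid (Complex.exp_ne_zero _) (sub_ne_zero.2 (hp.ne_one (by omega))) z3
  refine Equiv.ext fun v => ?_
  let k := v - (-(v (.inl j)) / cf M i j) • rt M i - (v (.inl i) / cf M i j) • rt M j
  have k1 : k (.inl i) = 0 := by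
    simp only [k, Pi.sub_apply, Pi.smul_apply, rt_self, a1, smul_eq_mul]
    field_simp
    ring
  have k2 : k (.inl j) = 0 := by
    simp only [k, Pi.sub_apply, Pi.smul_apply, rt_self, a2, smul_eq_mul]
    field_simp
    ring
  let f : ℂ × ℂ → B ⊕ B → ℂ := fun p => p.1 • rt M i + p.2 • rt M j + k
  have f1 : ∀ p, tv M i (f p) = f (sh1 (cf M i j) p) := fun p => by
    simp only [f, tv_apply, sh1, Equiv.coe_fn_mk, Pi.add_apply, Pi.smul_apply, rt_self, a1, k1,
      smul_eq_mul]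
    module
  have f2 : ∀ p, tv M j (f p) = f (sh2 (cf M i j) p) := fun p => by
    simp only [f, tv_apply, sh2, Equiv.coe_fn_mk, Pi.add_apply, Pi.smul_apply, rt_self, a2, k2,
      smul_eq_mul]
    module
  have e : v = f (-(v (.inl j)) / cf M i j, v (.inl i) / cf M i j) := by
    simp only [f, k]
    module
  rw [e, alt_semi f1 f2, alt_semi f2 f1]
  exact congrArg (fun T : Equiv.Perm (ℂ × ℂ) => f (T _)) br

variable (M) in
/-- the transvection representation -/
def tvr : Ar M →* Equiv.Perm (B ⊕ B → ℂ) := alift (tv M) fun i j hij h0 => by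
  rcases lt_or_gt_of_ne hij with h | h
  · exact tv_lt h h0
  · rw [M.symmetric] at h0 ⊢
    exact (tv_lt h h0).symm

lemma tvr_gn (i : B) : tvr M (gn M i) = tv M i := alift_gn _ _ _

lemma tvr_fix {S : Set B} {x : Ar M} (hx : x ∈ par M S) {v : B ⊕ B → ℂ}
    (h : ∀ i ∈ S, v (.inl i) = 0) : tvr M x v = v :=
  par_ind (Q := fun x => tvr M x v = v) (by simp) (fun i hi x hx => by
    simp [tvr_gn, tv_apply, tv_symm, hx, h i hi]) hx

lemma tvr_inr {S : Set B} {x : Ar M} (hx : x ∈ par M S) (v : B ⊕ B → ℂ) {j : B} (h : j ∉ S) :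
    tvr M x v (.inr j) = v (.inr j) :=
  par_ind (Q := fun x => tvr M x v (.inr j) = v (.inr j)) (by simp) (fun i hi x hx => by
    have : j ≠ i := fun e => h (e ▸ hi)
    simp [tvr_gn, tv_apply, tv_symm, hx, rt, this]) hx

lemma tvr_comm [Fintype B] {S : Set B} (hS : ∀ i ∈ S, ∀ j ∈ S, i ≠ j → M i j = 2) {x : Ar M}
    (hx : x ∈ par M S) : ∃ n : S → ℤ, (n = 0 → x = 1) ∧
      ∀ v, tvr M x v = v + ∑ i : S, (n i * v (.inl i)) • rt M i := by
  let Φ : (S → Multiplicative ℤ) →* Ar M := MonoidHom.noncommPiCoprod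
    (fun i : S => zpowersHom _ (gn M i)) fun i j hij a b => by
      have h := hS _ i.2 _ j.2 (Subtype.val_injective.ne hij)
      have := braid (M := M) (i := i) (j := j) (by omega)
      rw [h, alt_two_mul 1, alt_two_mul 1, pow_one, pow_one] at this
      exact Commute.zpow_zpow this _ _
  have z : ∀ i j : S, rt M j (.inl i) = 0 := fun i j => sk_two (hS _ i.2 _ j.2)
  obtain ⟨n, h1, h2⟩ := par_ind (Q := fun x => ∃ n : S → ℤ, Φ (fun i => .ofAdd (n i)) = x ∧
      ∀ v, tvr M x v = v + ∑ i : S, (n i * v (.inl i)) • rt M i)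
    ⟨0, map_one Φ, by simp⟩ (fun i hi x ⟨n, h1, h2⟩ => by
      have key : ∀ e : ℤ, Φ (fun j => .ofAdd ((Pi.single ⟨i, hi⟩ e + n : S → ℤ) j)) =
          gn M i ^ e * x := fun e => by
        rw [← h1, show gn M i ^ e = Φ (Pi.mulSingle ⟨i, hi⟩ (.ofAdd e)) from
          (MonoidHom.noncommPiCoprod_mulSingle (fun i : S => zpowersHom _ (gn M i)) ⟨i, hi⟩
            (.ofAdd e)).symm, ← map_mul]
        refine congrArg _ (funext fun j => ?_)
        by_cases e : j = ⟨i, hi⟩
        · subst e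
          simp
        · simp [e]
      have k2 : ∀ (e : ℤ) (v : B ⊕ B → ℂ), ∑ j : S,
          ((Pi.single ⟨i, hi⟩ e + n : S → ℤ) j * v (.inl j)) • rt M j =
          (e * v (.inl i)) • rt M i + ∑ j : S, (n j * v (.inl j)) • rt M j := fun e v => by
        simp only [Pi.add_apply, Int.cast_add, add_mul, add_smul, Finset.sum_add_distrib]
        rw [Finset.sum_eq_single ⟨i, hi⟩ (fun j _ hj => by simp [hj]) (by simp)]
        simp
      have k3 : ∀ v, tvr M x v (.inl i) = v (.inl i) := fun v => by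
        simp [h2, Finset.sum_apply, z ⟨i, hi⟩]
      refine ⟨⟨_, (key 1).trans (by rw [zpow_one]), fun v => ?_⟩,
        ⟨_, (key (-1)).trans (by rw [zpow_neg_one]), fun v => ?_⟩⟩
      · rw [k2, map_mul, Equiv.Perm.mul_apply, tvr_gn, tv_apply, k3, h2]
        push_cast
        module
      · rw [k2, map_mul, Equiv.Perm.mul_apply, map_inv, tvr_gn, tv_inv, k3, h2]
        push_cast
        module) hx
  exact ⟨n, fun e => by rw [← h1, e]; exact map_one Φ, h2⟩

theorem no_four_blk [Fintype B] {S T : Set B} (hS : ∀ i ∈ S, ∀ j ∈ S, i ≠ j → M i j = 2)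
    (hT : ∀ i ∈ T, ∀ j ∈ T, i ≠ j → M i j = 2) (h : ∀ i ∈ S, ∀ j ∈ T, 3 ≤ M i j)
    {x y x' y' : Ar M} (hx : x ∈ par M S) (hy : y ∈ par M T) (hx' : x' ∈ par M S)
    (hy' : y' ∈ par M T) (e : x * y = y' * x') : x = 1 ∨ y = 1 := by
  obtain ⟨n, n1, n2⟩ := tvr_comm hS hx
  obtain ⟨m, m1, m2⟩ := tvr_comm hT hy
  have d : ∀ i ∈ S, i ∉ T := fun i hi hj => by simpa using h i hi i hj
  by_contra hn
  obtain ⟨i, hi⟩ := Function.ne_iff.1 fun e => hn (Or.inl (n1 e))
  obtain ⟨j, hj⟩ := Function.ne_iff.1 fun e => hn (Or.inr (m1 e))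
  have ij : (i : B) ≠ j := fun e => d _ i.2 (e ▸ j.2)
  have h1 := congrArg (fun g => tvr M g (Pi.single (.inl j) 1) (.inr i)) e
  simp only [map_mul, Equiv.Perm.mul_apply] at h1
  rw [tvr_inr hy' _ (d _ i.2), tvr_fix hx' fun k hk => Pi.single_eq_of_ne
    (fun e => d _ hk (by obtain rfl := Sum.inl.inj e; exact j.2)) _, n2, m2,
    Finset.sum_eq_single j (fun k _ hk => by simp [Subtype.val_injective.ne hk]) (by simp)] at h1
  simp only [Pi.add_apply, Finset.sum_apply, Pi.smul_apply] at h1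
  rw [Finset.sum_eq_single i (fun k _ hk => by simp [rt, Subtype.val_injective.ne hk.symm])
    (by simp)] at h1
  have := sk_ne (h _ i.2 _ j.2)
  simp_all [rt]

end

end Pool.Agent.Lib.MP_35cce7_an
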