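import Pool.Agent.Lib.MP_35cce7_an.SysArt
import Pool.Agent.Lib.MP_35cce7_an.BlkRep

namespace Pool.Agent.Lib.MP_35cce7_an.Blk

noncomputable section

open Classical

variable {B K : Type} [LinearOrder K] (M : CoxeterMatrix B) (β : B → K)

def H (e : Pr K) : Subgroup (Ar M) := (subE M (β · ∈ e.s)).hom.range

abbrev Vx := Σ e : Pr K, Ar M ⧸ H M β e

variable {M β}

lemma H_eq (e : Pr K) : H M β e = par M (β ⁻¹' e.s) :=
  (Emb.range_hom _).trans (congrArg _ Subtype.range_coe)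

lemma ex1 [Nontrivial K] (i j : K) : ∃ e : Pr K, i ∈ e.s ∧ j ∈ e.s := by
  by_cases h : i = j
  · obtain ⟨k, hk⟩ := exists_ne i
    exact (Pr.ex hk).imp fun _ e => ⟨e.2, h ▸ e.2⟩
  · exact Pr.ex h

def In (g : Ar M) (v : Vx M β) : Prop := (g : Ar M ⧸ H M β v.1) = v.2

def Nr (a b : Vx M β) : Prop := ∃ g, In g a ∧ In g b

lemma In.iff {g g' : Ar M} {v : Vx M β} (h : In g v) : In g' v ↔ g⁻¹ * g' ∈ par M (β ⁻¹' v.1.s) := by
  rw [In, ← h, eq_comm, QuotientGroup.eq, H_eq]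

lemma In.mk (g : Ar M) (e : Pr K) : In (β := β) g ⟨e, g⟩ := rfl

lemma In.ex (v : Vx M β) : ∃ g, In g v := ⟨v.2.out, v.2.out_eq⟩

lemma In.eq {g : Ar M} {a b : Vx M β} (h : In g a) (h' : In g b) (e : a.1 = b.1) : a = b := by
  obtain ⟨e1, a⟩ := a
  obtain ⟨e2, b⟩ := b
  obtain rfl : e1 = e2 := e
  exact congrArg _ (Eq.trans (Eq.symm h) h')

lemma In.smul {g : Ar M} {a : Vx M β} (h : In g a) (x : Ar M) : In (x * g) (x • a) := by
  obtain ⟨e, a⟩ := a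
  obtain rfl : (g : Ar M ⧸ H M β e) = a := h
  rfl

lemma Nr.symm {a b : Vx M β} (h : Nr a b) : Nr b a := h.imp fun _ h => h.symm

lemma Nr.tri {w a b : Vx M β} (h1 : Nr w a) (h2 : Nr w b) (h3 : Nr a b) :
    ∃ g, In g w ∧ In g a ∧ In g b := by
  obtain ⟨x, x1, x2⟩ := h1
  obtain ⟨y, y1, y2⟩ := h2
  obtain ⟨z, z1, z2⟩ := h3
  obtain ⟨u, u1, u2⟩ := par_tri (S := β ⁻¹' w.1.s) (x2.iff.1 z1) (z2.iff.1 y2)
    (by simpa [mul_assoc] using x1.iff.1 y1)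
  refine ⟨x * u, x1.iff.2 ?_, x2.iff.2 ?_, y2.iff.2 ?_⟩
  · simpa using par_mono Set.inter_subset_left u1
  · simpa using par_mono Set.inter_subset_right u1
  · simpa [mul_assoc] using Subgroup.inv_mem _ (par_mono Set.inter_subset_right u2)

variable (M β) in
def nerve : SimpleGraph (Vx M β) where
  Adj a b := a ≠ b ∧ Nr a b
  symm := ⟨fun _ _ h => ⟨h.1.symm, h.2.symm⟩⟩
  loopless := ⟨fun _ h => h.1 rfl⟩

def kd (w a : Vx M β) : Option Bool :=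
  if w.1.1.1 ∈ a.1.s then some true else if w.1.1.2 ∈ a.1.s then some false else none

lemma Nr.reach {a b : Vx M β} (h : Nr a b) : (nerve M β).Reachable a b := by
  by_cases e : a = b
  exacts [e ▸ .refl _, SimpleGraph.Adj.reachable ⟨e, h⟩]

lemma nerve_conn [Nontrivial K] : (nerve M β).Connected := by
  obtain ⟨i, j, h⟩ := exists_pair_ne K
  obtain ⟨e, -⟩ := Pr.ex h
  have key : ∀ g : Ar M, (nerve M β).Reachable ⟨e, (1 : Ar M)⟩ ⟨e, g⟩ := fun g => by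
    have : ∀ (x y : Ar M) i, (y = gn M i ∨ y = (gn M i)⁻¹) →
        (nerve M β).Reachable ⟨e, x⟩ ⟨e, (x * y : Ar M)⟩ := fun x y i hy => by
      obtain ⟨e', h1, -⟩ := ex1 (β i) (β i)
      refine (Nr.reach ⟨x, In.mk x e, In.mk x e'⟩).trans
        (Nr.reach ⟨x * y, (In.mk x e').iff.2 ?_, rfl⟩)
      rcases hy with rfl | rfl <;> simpa using gn_mem (S := β ⁻¹' e'.s) h1
    refine Subgroup.closure_induction_right
      (p := fun (g : Ar M) _ => (nerve M β).Reachable ⟨e, (1 : Ar M)⟩ ⟨e, g⟩) (.refl _) ?_ ?_ (par_univ g)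
    · rintro x - _ ⟨i, -, rfl⟩ h
      exact h.trans (this _ _ i (Or.inl rfl))
    · rintro x - _ ⟨i, -, rfl⟩ h
      exact h.trans (this _ _ i (Or.inr rfl))
  refine (SimpleGraph.connected_iff_exists_forall_reachable _).2 ⟨⟨e, (1 : Ar M)⟩, fun v => ?_⟩
  obtain ⟨g, hg⟩ := In.ex v
  exact (key g).trans (Nr.reach ⟨g, rfl, hg⟩)

variable [Nontrivial K]

omit [Nontrivial K] in
lemma d_one {a b : Vx M β} : (nerve M β).dist a b = 1 ↔ a ≠ b ∧ Nr a b :=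
  SimpleGraph.dist_eq_one_iff_adj

lemma d_le {a b : Vx M β} : (nerve M β).dist a b ≤ 1 ↔ Nr a b := by
  refine ⟨fun h => ?_, fun h => ?_⟩
  · by_cases e : (nerve M β).dist a b = 0
    · obtain rfl := nerve_conn.dist_eq_zero_iff.1 e
      exact (In.ex a).imp fun _ h => ⟨h, h⟩
    · exact (d_one.1 (by omega)).2
  · by_cases e : a = b
    · simp [e]
    · exact (d_one.2 ⟨e, h⟩).le

lemma d_ty (a b : Vx M β) (h : (nerve M β).dist a b ≤ 1) (e : a.1 = b.1) : a = b :=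
  (d_le.1 h).elim fun _ h => h.1.eq h.2 e

lemma d_ne {a b : Vx M β} (h : (nerve M β).dist a b = 1) : ¬ a.1.s ⊆ b.1.s := fun e =>
  (d_one.1 h).1 (d_ty a b h.le (Pr.ext' e))

lemma d_smul (g : Ar M) (a b : Vx M β) : (nerve M β).dist (g • a) (g • b) = (nerve M β).dist a b := by
  have S := met_of_graph _ (nerve_conn (M := M) (β := β))
  have key : ∀ (g : Ar M) n a b, (nerve M β).dist a b = n → (nerve M β).dist (g • a) (g • b) ≤ n := by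
    intro g n
    induction n with
    | zero => intro a b h; simp [S.eq0 h]
    | succ n ih =>
      intro a b h
      obtain ⟨c, h1, h2⟩ := S.step h
      obtain ⟨x, h3, h4⟩ := d_le.1 h1.le
      have a1 := d_le.2 ⟨_, h3.smul g, h4.smul g⟩
      have a2 := ih _ _ h2
      have a3 := S.tri (g • a) (g • c) (g • b)
      omega
  refine le_antisymm (key g _ _ _ rfl) ?_
  simpa using key g⁻¹ _ _ _ (rfl : (nerve M β).dist (g • a) (g • b) = _)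

lemma share {w a b c : Vx M β} (ha : (nerve M β).dist w a = 1) (hb : (nerve M β).dist w b = 1)
    (hc : (nerve M β).dist w c = 1) (ab : (nerve M β).dist a b ≤ 1) (ac : (nerve M β).dist a c ≤ 1)
    (h : w.1.s ∩ a.1.s ⊆ b.1.s) : (nerve M β).dist b c ≤ 1 := by
  obtain ⟨x, x1, x2, x3⟩ := (d_le.1 ha.le).tri (d_le.1 hb.le) (d_le.1 ab)
  obtain ⟨y, y1, y2, y3⟩ := (d_le.1 ha.le).tri (d_le.1 hc.le) (d_le.1 ac)
  exact d_le.2 ⟨y, x3.iff.2 (par_mono (Set.preimage_mono (f := β) h)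
    (par_inf (x1.iff.1 y1) (x2.iff.1 y2))), y3⟩

lemma pw_of {w a : Vx M β} (ha : (nerve M β).dist w a = 1) {x y : Ar M} (x1 : In x w) (x2 : In x a)
    (y1 : In y w) (y2 : In y a) :
    x = y ∨ ∃ i, i ∈ w.1.s ∧ i ∈ a.1.s ∧ x⁻¹ * y ≠ 1 ∧ x⁻¹ * y ∈ par M (β ⁻¹' {i}) := by
  have h := par_inf (x1.iff.1 y1) (x2.iff.1 y2)
  by_cases e : x = y
  · exact Or.inl e
  right
  by_cases e1 : ∃ i, i ∈ w.1.s ∧ i ∈ a.1.s
  · obtain ⟨i, h1, h2⟩ := e1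
    have : w.1.s ∩ a.1.s ⊆ {i} := fun j hj => by
      by_contra hn
      refine d_ne ha fun k hk => ?_
      have h3 := hj.1
      have h4 := hj.2
      simp only [Pr.s, Set.mem_ofPred_eq, Set.mem_singleton_iff] at *
      grind
    exact ⟨i, h1, h2, fun h => e (inv_mul_eq_one.1 h), par_mono (Set.preimage_mono (f := β) this) h⟩
  · have h3 := par_mono (T := ∅) (fun j hj => e1 ⟨β j, hj⟩) h
    exact (e (inv_mul_eq_one.1 (by simpa [par] using h3))).elim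

lemma blk_le {i : K} {S : Set K} (h : i ∈ S) : par M (β ⁻¹' {i}) ≤ par M (β ⁻¹' S) :=
  par_mono (Set.preimage_mono (Set.singleton_subset_iff.2 h))

variable (M β) in
/-- no cycle of length four between two blocks -/
def NF : Prop := ∀ k l, k ≠ l → ∀ x ∈ par M (β ⁻¹' {k}), ∀ y ∈ par M (β ⁻¹' {l}),
  ∀ x' ∈ par M (β ⁻¹' {k}), ∀ y' ∈ par M (β ⁻¹' {l}), x * y = y' * x' → x = 1 ∨ y = 1

theorem nerve_loc (hM : NF M β) : Loc (nerve M β).dist kd where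
  toMet := met_of_graph _ nerve_conn
  k0 {w a b c} k ha hb hc ab ac := share ha hb hc ab ac fun i hi => by
    have h1 := hi.1
    have h2 := hi.2
    simp only [kd, Pr.s, Set.mem_ofPred_eq] at *
    grind
  k1 {w a b c i} ka kb ha hb hc ab ac := share ha hb hc ab ac fun i hi => by
    have h1 := hi.1
    have h2 := hi.2
    have h3 := d_ne ha
    simp only [kd, Pr.s, Set.mem_ofPred_eq, Set.ofPred_subset_ofPred] at *
    grind
  k2 {b a a' i} ka kb ha hb hc := by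
    have h1 := d_ne (SimpleGraph.dist_comm.trans ha)
    have h2 := d_ne hc
    simp only [kd, Pr.s, Set.mem_ofPred_eq, Set.ofPred_subset_ofPred] at *
    by_cases h : a.1.1.1 = a'.1.1.1 ∨ a.1.1.1 = a'.1.1.2
    · exact ⟨true, by grind⟩
    · exact ⟨false, by grind⟩
  l4 {w a b c e} ha hb hc he ab bc ce ea := by
    obtain ⟨x, x1, x2, x3⟩ := (d_le.1 ha.le).tri (d_le.1 hb.le) (d_le.1 ab)
    obtain ⟨y, y1, y2, y3⟩ := (d_le.1 hb.le).tri (d_le.1 hc.le) (d_le.1 bc)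
    obtain ⟨z, z1, z2, z3⟩ := (d_le.1 hc.le).tri (d_le.1 he.le) (d_le.1 ce)
    obtain ⟨u, u1, u2, u3⟩ := (d_le.1 he.le).tri (d_le.1 ha.le) (d_le.1 ea)
    rw [d_le, d_le]
    rcases pw_of hb x1 x3 y1 y2 with rfl | ⟨i, i1, i2, i3, i4⟩
    · exact Or.inl ⟨_, x2, y3⟩
    rcases pw_of hc y1 y3 z1 z2 with rfl | ⟨j, j1, j2, j3, j4⟩
    · exact Or.inr ⟨_, y2, z3⟩
    rcases pw_of he z1 z3 u1 u2 with rfl | ⟨k, k1, k2, k3, k4⟩
    · exact Or.inl ⟨_, u3, z2⟩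
    rcases pw_of ha u1 u3 x1 x2 with rfl | ⟨l, l1, l2, l3, l4⟩
    · exact Or.inr ⟨_, x3, u2⟩
    by_cases e1 : l = i
    · exact Or.inl ⟨y, x2.iff.2 (blk_le (e1 ▸ l2) i4), y3⟩
    by_cases e2 : i = j
    · exact Or.inr ⟨z, y2.iff.2 (blk_le (e2 ▸ i2) j4), z3⟩
    by_cases e3 : j = k
    · exact Or.inl ⟨u, u3, z2.iff.2 (blk_le (e3 ▸ j2) k4)⟩
    have e4 : k = i ∧ l = j := by
      simp only [Pr.s, Set.mem_ofPred_eq] at i1 j1 k1 l1
      grind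
    obtain ⟨rfl, rfl⟩ := e4
    have := hM _ _ e2 _ i4 _ j4 _ (Subgroup.inv_mem _ k4) _ (Subgroup.inv_mem _ l4) (by group)
    tauto

theorem nerve_sc : SC (nerve M β).dist := by
  intro U f N C p₀ q₀ hpq hf
  let A : Ar M → U → Set U := fun g p => {u | In g (f u) ∧ N p u}
  have hA : ∀ g p q, In g (f p) → q ∈ A g p → A g q = A g p := fun g p q h1 h2 =>
    Set.ext fun u => and_congr_right fun hu => ⟨fun h => C.loc (C.symm h2.2) h (d_le.2 ⟨g, h1, hu⟩),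
      fun h => C.loc h2.2 h (d_le.2 ⟨g, h2.1, hu⟩)⟩
  let Ch := {c : Ar M × Set U // ∃ p, In c.1 (f p) ∧ c.2 = A c.1 p}
  have c1 : ∀ (c : Ch) q, q ∈ c.1.2 → In c.1.1 (f q) ∧ c.1.2 = A c.1.1 q := by
    intro c q hq
    obtain ⟨p, h1, h2⟩ := c.2
    rw [h2] at hq ⊢
    exact ⟨hq.1, (hA _ _ _ h1 hq).symm⟩
  have c2 : ∀ (c : Ch) e, ∃ q ∈ c.1.2, (f q).1 = e := by
    intro c e
    obtain ⟨p, h1, h4⟩ := c.2
    obtain ⟨q, h2, h3⟩ := C.lift (d_le.2 ⟨_, h1, In.mk c.1.1 e⟩)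
    exact ⟨q, h4 ▸ ⟨h3 ▸ In.mk c.1.1 e, h2⟩, by rw [h3]⟩
  have c3 : ∀ (c c' : Ch) q, c.1.1 = c'.1.1 → q ∈ c.1.2 → q ∈ c'.1.2 → c = c' :=
    fun c c' q e h h' => Subtype.ext (Prod.ext e (by rw [(c1 _ _ h).2, (c1 _ _ h').2, e]))
  have ex : ∀ (h : Ar M) (c : Ch), ∃ c' : Ch, ∀ q ∈ c.1.2, h⁻¹ ∈ par M (β ⁻¹' (f q).1.s) →
      c'.1.1 = c.1.1 * h⁻¹ ∧ q ∈ c'.1.2 := fun h c => by
    by_cases e : ∃ q ∈ c.1.2, h⁻¹ ∈ par M (β ⁻¹' (f q).1.s)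
    · obtain ⟨q, h1, h2⟩ := e
      refine ⟨⟨(c.1.1 * h⁻¹, A (c.1.1 * h⁻¹) q), q, (c1 _ _ h1).1.iff.2 (by simpa using h2), rfl⟩,
        fun u h3 h4 => ⟨rfl, (c1 _ _ h3).1.iff.2 (by simpa using h4), ?_⟩⟩
      rw [(c1 _ _ h1).2] at h3
      exact h3.2
    · exact ⟨c, fun q h1 h2 => (e ⟨q, h1, h2⟩).elim⟩
  choose T hT using ex
  let τ : ∀ e : Pr K, par M (β ⁻¹' e.s) →* Equiv.Perm Ch := fun e => MonoidHom.toHomPerm
    { toFun := fun h => T h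
      map_one' := funext fun c => by
        obtain ⟨q, h1, -⟩ := c2 c e
        obtain ⟨h2, h3⟩ := hT 1 c q h1 (by simp)
        exact c3 _ c q (by simpa using h2) h3 h1
      map_mul' := fun x y => funext fun c => by
        obtain ⟨q, h1, rfl⟩ := c2 c e
        obtain ⟨h2, h3⟩ := hT (x * y) c q h1 (Subgroup.inv_mem _ (x * y).2)
        obtain ⟨h4, h5⟩ := hT y c q h1 (Subgroup.inv_mem _ y.2)
        obtain ⟨h6, h7⟩ := hT x _ q h5 (Subgroup.inv_mem _ x.2)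
        exact c3 _ _ q (h2.trans (by rw [mul_inv_rev, ← mul_assoc, ← h4]; exact h6.symm)) h3 h7 }
  have ee : ∀ i : B, ∃ e : Pr K, i ∈ β ⁻¹' e.s := fun i => (ex1 (β i) (β i)).imp fun _ h => h.2
  choose ε hε using ee
  have t1 : ∀ i (e : Pr K) (hi : i ∈ β ⁻¹' e.s), τ (ε i) ⟨_, gn_mem (hε i)⟩ = τ e ⟨_, gn_mem hi⟩ :=
    fun i e hi => Equiv.ext fun c => rfl
  let Φ : Ar M →* Equiv.Perm Ch := alift (fun i => τ (ε i) ⟨_, gn_mem (hε i)⟩) fun i j hij h0 => by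
    obtain ⟨e, h1, h2⟩ := ex1 (β i) (β j)
    rw [t1 i e h1, t1 j e h2, ← map_alt, ← map_alt]
    refine congrArg _ ((par M (β ⁻¹' e.s)).subtype_injective ?_)
    rw [map_alt, map_alt]
    exact braid h0
  have f1 : ∀ (e : Pr K) (x : par M (β ⁻¹' e.s)) c, Φ x c = T x c := fun e x c => by
    rw [ext_cl Φ (τ e) (by rintro _ ⟨i, hi, rfl⟩; exact (alift_gn _ _ i).trans (t1 i e hi)) x]
    rfl
  have f2 : ∀ g (c : Ch), (Φ g c).1.1 = c.1.1 * g⁻¹ := fun g => by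
    refine par_ind (Q := fun g => ∀ c : Ch, (Φ g c).1.1 = c.1.1 * g⁻¹) (by simp)
      (fun i _ x hx => ?_) (par_univ g)
    have : ∀ y ∈ par M (β ⁻¹' (ε i).s), ∀ c : Ch, (Φ (y * x) c).1.1 = c.1.1 * (y * x)⁻¹ := fun y hy c => by
      obtain ⟨q, h1, h2⟩ := c2 (Φ x c) (ε i)
      rw [map_mul, Equiv.Perm.mul_apply, f1 _ ⟨y, hy⟩,
        (hT y _ q h1 (h2 ▸ Subgroup.inv_mem _ hy)).1, hx, mul_inv_rev, mul_assoc]
    exact ⟨this _ (gn_mem (hε i)), this _ (Subgroup.inv_mem _ (gn_mem (hε i)))⟩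
  have f3 : ∀ g (c : Ch) q, q ∈ c.1.2 → In (c.1.1 * g⁻¹) (f q) → q ∈ (Φ g c).1.2 :=
    fun g c q h1 h2 => by
      have h3 : g⁻¹ ∈ par M (β ⁻¹' (f q).1.s) := by simpa using (c1 _ _ h1).1.iff.1 h2
      rw [f1 _ ⟨g, (Subgroup.inv_mem_iff _).1 h3⟩]
      exact (hT g c q h1 h3).2
  obtain ⟨g₀, hg⟩ := In.ex (f p₀)
  let c₀ : Ch := ⟨(g₀, A g₀ p₀), p₀, hg, rfl⟩
  have f4 : ∀ q, Relation.ReflTransGen N p₀ q → ∃ g, q ∈ (Φ g c₀).1.2 := fun q h => by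
    induction h with
    | refl => exact ⟨1, by simpa using ⟨hg, C.refl _⟩⟩
    | @tail p q _ h ih =>
      obtain ⟨g, h1⟩ := ih
      obtain ⟨x, x1, x2⟩ := d_le.1 (C.hom h)
      have h2 := f3 (x⁻¹ * (Φ g c₀).1.1) _ p h1 (by simpa using x1)
      refine ⟨x⁻¹ * (Φ g c₀).1.1 * g, ?_⟩
      rw [map_mul, Equiv.Perm.mul_apply, (c1 _ _ h2).2, f2]
      exact ⟨by simpa using x2, h⟩
  obtain ⟨g, h1⟩ := f4 q₀ hpq
  have h2 := f3 g c₀ p₀ ⟨hg, C.refl _⟩ (by rw [hf, ← f2]; exact (c1 _ _ h1).1)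
  rw [(c1 _ _ h2).2] at h1
  exact h1.2

theorem rd_blk [Fintype K] (hM : NF M β)
    (h0 : ∀ e : Pr K, RDb (Ball (gn (sub M (β · ∈ e.s))))) : RDb (Ball (gn M)) := by
  have S := (nerve_loc hM).sys nerve_sc
  obtain ⟨i, j, h⟩ := exists_pair_ne K
  obtain ⟨e, -⟩ := Pr.ex h
  refine rd_of_sys S (ty := fun v => v.1) d_ty d_smul (Ball.isBall _) (Ball.one _)
    ⟨e, (1 : Ar M)⟩ (fun r x hx => ?_) (grd_sigma fun e => ?_)
  · refine hx.map (B' := fun r x => (nerve M β).dist ⟨e, (1 : Ar M)⟩ (x • ⟨e, (1 : Ar M)⟩) ≤ r)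
      ⟨fun r x h => ?_, fun r s x y h h' => ?_⟩ (by simp) (MonoidHom.id _) fun i => ?_
    · rwa [← d_smul x, smul_inv_smul, S.symm]
    · rw [← d_smul x, ← mul_smul] at h'
      exact (S.tri _ _ _).trans (add_le_add h h')
    · obtain ⟨e', -, h1⟩ := ex1 (β i) (β i)
      refine (S.tri _ ⟨e', (1 : Ar M)⟩ _).trans (add_le_add (d_le.2 ⟨1, In.mk 1 e, In.mk 1 e'⟩)
        (d_le.2 ⟨gn M i * 1, (In.mk 1 e').iff.2 ?_, (In.mk 1 e).smul _⟩))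
      simpa using gn_mem (S := β ⁻¹' e'.s) h1
  · obtain ⟨ρ, h1, h2⟩ := (subE M (β · ∈ e.s)).retr2
    exact grd_orbit _ ρ h1 h2 (h0 e)

end

end Pool.Agent.Lib.MP_35cce7_an.Blk
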