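import Mathlib

/-!
Exchange condition and minimal coset representatives (adapted from the team library for
MP_8cdcda_al), and the exact order of a product of two simple reflections.
-/

namespace Pool.Agent.Lib.MP_35cce7_an

open CoxeterSystem List

variable {B W : Type} [Group W] {M : CoxeterMatrix B} (cs : CoxeterSystem M W)

open Classical in
/-- indicator in `ZMod 2` -/
noncomputable def ind (a b : W) : ZMod 2 := if a = b then 1 else 0

/-- the generator of the reflection action -/
noncomputable def phiGen (i : B) : Function.End (W × ZMod 2) :=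
  fun p => (cs.simple i * p.1 * cs.simple i, p.2 + ind p.1 (cs.simple i))

lemma end_mul_apply {X : Type} (f g : Function.End X) (x : X) : (f * g) x = f (g x) := rfl

omit [Group W] in
lemma ind_congr {a b c d : W} (h : a = b ↔ c = d) : ind a b = ind c d := by
  unfold ind
  by_cases h1 : a = b
  · rw [if_pos h1, if_pos (h.1 h1)]
  · rw [if_neg h1, if_neg (fun h2 => h1 (h.2 h2))]

lemma conj_iff (g t x : W) : g * t * g⁻¹ = x ↔ t = g⁻¹ * x * g := by
  constructor
  · intro h; rw [← h]; group
  · intro h; rw [h]; group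

lemma phiGen_pow (i j : B) (n : ℕ) (t : W) (e : ZMod 2) :
    ((phiGen cs i * phiGen cs j) ^ n) (t, e) =
      ((cs.simple i * cs.simple j) ^ n * t * ((cs.simple i * cs.simple j) ^ n)⁻¹,
        e + ∑ k ∈ Finset.range (2 * n), ind t ((cs.simple j * cs.simple i) ^ k * cs.simple j)) := by
  induction n with
  | zero => simp; rfl
  | succ n ih =>
    rw [pow_succ', end_mul_apply, ih]
    have hp : ((cs.simple i * cs.simple j) ^ n)⁻¹ = (cs.simple j * cs.simple i) ^ n := by
      rw [← inv_pow, mul_inv_rev, inv_simple, inv_simple]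
    have hcomm : ∀ m : ℕ, cs.simple j * (cs.simple i * cs.simple j) ^ m
        = (cs.simple j * cs.simple i) ^ m * cs.simple j := by
      intro m
      induction m with
      | zero => simp
      | succ m ihm => rw [pow_succ, ← mul_assoc, ihm, pow_succ]; group
    have h2 : 2 * (n + 1) = 2 * n + 1 + 1 := by ring
    rw [h2, Finset.sum_range_succ, Finset.sum_range_succ]
    simp only [end_mul_apply, phiGen]
    refine Prod.ext ?_ ?_
    · simp only [pow_succ', mul_inv_rev, inv_simple, mul_assoc]
    · simp only
      have e1 : ind ((cs.simple i * cs.simple j) ^ n * t * ((cs.simple i * cs.simple j) ^ n)⁻¹)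
          (cs.simple j) = ind t ((cs.simple j * cs.simple i) ^ (2 * n) * cs.simple j) := by
        apply ind_congr
        have : (cs.simple j * cs.simple i) ^ (2 * n) * cs.simple j =
            ((cs.simple i * cs.simple j) ^ n)⁻¹ * cs.simple j * (cs.simple i * cs.simple j) ^ n := by
          rw [hp, mul_assoc, hcomm, two_mul, pow_add, mul_assoc]
        rw [this]
        exact conj_iff _ _ _
      have e2 : ind (cs.simple j * ((cs.simple i * cs.simple j) ^ n * t *
          ((cs.simple i * cs.simple j) ^ n)⁻¹) * cs.simple j) (cs.simple i)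
          = ind t ((cs.simple j * cs.simple i) ^ (2 * n + 1) * cs.simple j) := by
        apply ind_congr
        have : (cs.simple j * cs.simple i) ^ (2 * n + 1) * cs.simple j =
            (cs.simple j * (cs.simple i * cs.simple j) ^ n)⁻¹ * cs.simple i *
              (cs.simple j * (cs.simple i * cs.simple j) ^ n) := by
          rw [mul_inv_rev, hp, inv_simple, hcomm,
            show 2 * n + 1 = n + 1 + n by ring, pow_add, pow_succ]
          group
        rw [this, ← conj_iff, mul_inv_rev, inv_simple]
        simp only [mul_assoc]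
      rw [e1, e2]
      ring

lemma phiGen_liftable : M.IsLiftable (phiGen cs) := by
  intro i j
  funext ⟨t, e⟩
  rw [phiGen_pow, simple_mul_simple_pow]
  have h1 : (cs.simple j * cs.simple i) ^ M i j = 1 := by
    rw [M.symmetric i j]; exact simple_mul_simple_pow cs j i
  rw [two_mul, Finset.sum_range_add]
  simp only [pow_add, h1, one_mul, inv_one, mul_one]
  refine Prod.ext rfl ?_
  simp only
  rw [← two_mul]
  have : (2 : ZMod 2) = 0 := rfl
  rw [this, zero_mul, add_zero]
  rfl

/-- the reflection action -/
noncomputable def phi : W →* Function.End (W × ZMod 2) := cs.lift ⟨phiGen cs, phiGen_liftable cs⟩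

lemma phi_simple (i : B) : phi cs (cs.simple i) = phiGen cs i := lift_apply_simple cs _ i

/-- the reflection cocycle -/
noncomputable def eta (w t : W) : ZMod 2 := (phi cs w (t, 0)).2

lemma phi_wordProd (ω : List B) (t : W) (e : ZMod 2) :
    phi cs (cs.wordProd ω) (t, e) = (cs.wordProd ω * t * (cs.wordProd ω)⁻¹,
      e + ((cs.rightInvSeq ω).map (ind t)).sum) := by
  induction ω with
  | nil => simp; rfl
  | cons i ω ih =>
    rw [wordProd_cons, map_mul, end_mul_apply, ih, phi_simple]
    simp only [phiGen, rightInvSeq, map_cons, sum_cons]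
    refine Prod.ext ?_ ?_
    · simp only [mul_inv_rev, inv_simple, mul_assoc]
    · simp only
      have : ind (cs.wordProd ω * t * (cs.wordProd ω)⁻¹) (cs.simple i)
          = ind t ((cs.wordProd ω)⁻¹ * cs.simple i * cs.wordProd ω) := by
        apply ind_congr
        exact conj_iff _ _ _
      rw [this]; ring

lemma phi_apply (w t : W) (e : ZMod 2) : phi cs w (t, e) = (w * t * w⁻¹, e + eta cs w t) := by
  obtain ⟨ω, rfl⟩ := cs.wordProd_surjective w
  unfold eta
  rw [phi_wordProd, phi_wordProd]
  simp

lemma eta_mul (x y t : W) : eta cs (x * y) t = eta cs y t + eta cs x (y * t * y⁻¹) := by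
  conv_lhs => unfold eta
  rw [map_mul, end_mul_apply, phi_apply, phi_apply]
  simp

lemma eta_one (t : W) : eta cs 1 t = 0 := by
  unfold eta; rw [map_one]; rfl

lemma eta_simple (i : B) : eta cs (cs.simple i) (cs.simple i) = 1 := by
  unfold eta; rw [phi_simple]; simp [phiGen, ind]

lemma eta_refl {t : W} (ht : cs.IsReflection t) : eta cs t t = 1 := by
  obtain ⟨w, i, rfl⟩ := ht
  have h0 : eta cs (w * w⁻¹) (w * cs.simple i * w⁻¹) = 0 := by rw [mul_inv_cancel, eta_one]
  rw [eta_mul] at h0
  have e1 : w⁻¹ * (w * cs.simple i * w⁻¹) * w⁻¹⁻¹ = cs.simple i := by group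
  rw [e1] at h0
  conv_lhs => rw [eta_mul, e1, eta_mul, eta_simple]
  have e2 : cs.simple i * cs.simple i * (cs.simple i)⁻¹ = cs.simple i := by group
  rw [e2]
  linear_combination h0

lemma mem_of_eta {ω : List B} {t : W} (h : eta cs (cs.wordProd ω) t = 1) :
    t ∈ cs.rightInvSeq ω := by
  by_contra hn
  unfold eta at h
  rw [phi_wordProd] at h
  simp only [zero_add] at h
  have : ((cs.rightInvSeq ω).map (ind t)).sum = 0 := by
    apply List.sum_eq_zero
    intro x hx
    obtain ⟨a, ha, rfl⟩ := List.mem_map.1 hx
    unfold ind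
    rw [if_neg]
    rintro rfl
    exact hn ha
  rw [this] at h
  exact zero_ne_one h

lemma lt_of_eta {w t : W} (h : eta cs w t = 1) : cs.length (w * t) < cs.length w := by
  obtain ⟨ω, hω, rfl⟩ := cs.exists_isReduced w
  exact (cs.isRightInversion_of_mem_rightInvSeq hω (mem_of_eta cs h)).2

lemma eta_of_lt {w t : W} (ht : cs.IsReflection t) (h : cs.length (w * t) < cs.length w) :
    eta cs w t = 1 := by
  by_contra hn
  have h0 : eta cs w t = 0 := by
    generalize eta cs w t = a at hn
    revert a; decide
  have h1 : eta cs (w * t) t = 1 := by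
    rw [eta_mul, eta_refl cs ht, mul_inv_cancel_right, h0, add_zero]
  have h2 := lt_of_eta cs h1
  rw [mul_assoc, ht.mul_self, mul_one] at h2
  omega

/-- strong exchange, right version -/
theorem strong_exchange (ω : List B) {t : W} (ht : cs.IsReflection t)
    (h : cs.length (cs.wordProd ω * t) < cs.length (cs.wordProd ω)) :
    ∃ j < ω.length, cs.wordProd ω * t = cs.wordProd (ω.eraseIdx j) := by
  have hm := mem_of_eta cs (eta_of_lt cs ht h)
  obtain ⟨j, hj, rfl⟩ := List.mem_iff_getElem.mp hm
  refine ⟨j, by simpa using hj, ?_⟩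
  rw [← List.getD_eq_getElem _ 1 hj, wordProd_mul_getD_rightInvSeq]

/-- strong exchange, left version -/
theorem strong_exchange_left (ω : List B) {t : W} (ht : cs.IsReflection t)
    (h : cs.length (t * cs.wordProd ω) < cs.length (cs.wordProd ω)) :
    ∃ j < ω.length, t * cs.wordProd ω = cs.wordProd (ω.eraseIdx j) := by
  have e : t * cs.wordProd ω = cs.wordProd ω * ((cs.wordProd ω)⁻¹ * t * (cs.wordProd ω)⁻¹⁻¹) := by
    group
  rw [e] at h ⊢
  exact strong_exchange cs ω (ht.conj _) h

lemma length_erase_lt (ω : List B) {j : ℕ} (hj : j < ω.length) :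
    cs.length (cs.wordProd (ω.eraseIdx j)) < ω.length := by
  have := cs.length_wordProd_le (ω.eraseIdx j)
  rw [← List.length_eraseIdx_add_one hj]
  omega

/-- the lemma behind the commutation of left and right multiplications -/
lemma swt_lemma (i j : B) (w : W) (h1 : cs.length w < cs.length (cs.simple i * w))
    (h2 : cs.length w < cs.length (w * cs.simple j))
    (h3 : cs.length (cs.simple i * w * cs.simple j) < cs.length (w * cs.simple j)) :
    cs.simple i * w = w * cs.simple j := by
  obtain ⟨ω, hω, rfl⟩ := cs.exists_isReduced w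
  have e : cs.wordProd ω * cs.simple j = cs.wordProd (ω ++ [j]) := by
    simp [wordProd_append]
  rw [mul_assoc, e] at h3
  obtain ⟨k, hk, hk2⟩ := strong_exchange_left cs (ω ++ [j]) (cs.isReflection_simple i) h3
  rw [← e] at hk2
  by_cases hlt : k < ω.length
  · rw [List.eraseIdx_append_of_lt_length hlt, wordProd_append] at hk2
    have : cs.simple i * cs.wordProd ω = cs.wordProd (ω.eraseIdx k) := by
      have h4 : cs.wordProd [j] = cs.simple j := by simp
      rw [h4, ← mul_assoc] at hk2
      exact mul_right_cancel hk2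
    have h5 := length_erase_lt cs ω hlt
    rw [← this, ← hω.eq] at h5
    omega
  · have hk' : k = ω.length := by simp at hk; omega
    subst hk'
    rw [List.eraseIdx_append_of_length_le (le_refl _)] at hk2
    simp only [Nat.sub_self, List.eraseIdx_zero, List.tail_cons, List.append_nil] at hk2
    calc cs.simple i * cs.wordProd ω
        = cs.simple i * (cs.wordProd ω * cs.simple j) * cs.simple j := by
          simp [mul_assoc]
      _ = _ := by rw [hk2]

/-- membership in the standard parabolic subgroup generated by `J` -/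
def InP (J : Set B) (w : W) : Prop := ∃ ω : List B, (∀ i ∈ ω, i ∈ J) ∧ w = cs.wordProd ω

/-- minimal length in the coset `a W_J` -/
def IsMinC (J : Set B) (a : W) : Prop := ∀ u, InP cs J u → cs.length a ≤ cs.length (a * u)

variable {cs}

lemma InP.one (J : Set B) : InP cs J 1 := ⟨[], by simp, by simp⟩

lemma InP.simple {J : Set B} {i : B} (hi : i ∈ J) : InP cs J (cs.simple i) :=
  ⟨[i], by simpa using hi, by simp⟩

lemma InP.mul {J : Set B} {x y : W} (hx : InP cs J x) (hy : InP cs J y) : InP cs J (x * y) := by
  obtain ⟨ω, h1, rfl⟩ := hx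
  obtain ⟨ω', h2, rfl⟩ := hy
  refine ⟨ω ++ ω', ?_, by rw [wordProd_append]⟩
  intro i hi
  rcases List.mem_append.1 hi with h | h
  · exact h1 i h
  · exact h2 i h

lemma InP.inv {J : Set B} {x : W} (hx : InP cs J x) : InP cs J x⁻¹ := by
  obtain ⟨ω, h1, rfl⟩ := hx
  exact ⟨ω.reverse, fun i hi => h1 i (List.mem_reverse.1 hi), by rw [wordProd_reverse]⟩

lemma InP.exists_reduced {J : Set B} {x : W} (hx : InP cs J x) :
    ∃ ω : List B, (∀ i ∈ ω, i ∈ J) ∧ cs.IsReduced ω ∧ x = cs.wordProd ω := by
  obtain ⟨ω, h1, rfl⟩ := hx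
  induction ω with
  | nil => exact ⟨[], by simp, by simp [CoxeterSystem.IsReduced], rfl⟩
  | cons i ω ih =>
    obtain ⟨ω', h2, h3, h4⟩ := ih (fun j hj => h1 j (List.mem_cons_of_mem _ hj))
    rw [wordProd_cons, h4]
    rcases cs.length_simple_mul (cs.wordProd ω') i with h5 | h5
    · refine ⟨i :: ω', ?_, ?_, by rw [wordProd_cons]⟩
      · intro j hj
        rcases List.mem_cons.1 hj with rfl | hj
        · exact h1 _ List.mem_cons_self
        · exact h2 j hj
      · unfold CoxeterSystem.IsReduced
        rw [wordProd_cons, h5, h3.eq, List.length_cons]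
    · obtain ⟨j, hj, hj2⟩ := strong_exchange_left cs ω' (cs.isReflection_simple i) (by omega)
      refine ⟨ω'.eraseIdx j, fun k hk => h2 k (List.mem_of_mem_eraseIdx hk), ?_, hj2⟩
      unfold CoxeterSystem.IsReduced
      have := List.length_eraseIdx_add_one hj
      rw [← hj2]
      rw [h3.eq] at h5
      omega

lemma IsMinC.one (J : Set B) : IsMinC cs J 1 := by
  intro u _; simp

lemma IsMinC.length_mul_word {J : Set B} {a : W} (ha : IsMinC cs J a) (ω : List B)
    (h1 : ∀ i ∈ ω, i ∈ J) (h2 : cs.IsReduced ω) :
    cs.length (a * cs.wordProd ω) = cs.length a + ω.length := by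
  induction ω using List.reverseRecOn with
  | nil => simp
  | append_singleton ω i ih =>
    have hr : cs.IsReduced ω := by
      have := h2.take ω.length
      simpa using this
    have ih' := ih (fun j hj => h1 j (List.mem_append_left _ hj)) hr
    have e : cs.wordProd (ω ++ [i]) = cs.wordProd ω * cs.simple i := by simp [wordProd_append]
    rw [e, ← mul_assoc]
    rcases cs.length_mul_simple (a * cs.wordProd ω) i with h5 | h5
    · rw [h5, ih']; simp; ring
    · exfalso
      obtain ⟨α, hα, rfl⟩ := cs.exists_isReduced a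
      rw [← wordProd_append] at h5
      obtain ⟨j, hj, hj2⟩ := strong_exchange cs (α ++ ω) (cs.isReflection_simple i) (by omega)
      by_cases hlt : j < α.length
      · rw [List.eraseIdx_append_of_lt_length hlt, wordProd_append, wordProd_append] at hj2
        have h6 : cs.wordProd (α.eraseIdx j) =
            cs.wordProd α * (cs.wordProd ω * cs.simple i * (cs.wordProd ω)⁻¹) := by
          rw [← mul_assoc, ← mul_assoc, hj2]; group
        have hω : InP cs J (cs.wordProd ω) := ⟨ω, fun j hj => h1 j (List.mem_append_left _ hj), rfl⟩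
        have h7 := ha _ ((hω.mul (InP.simple (h1 i (by simp)))).mul hω.inv)
        rw [← h6, hα.eq] at h7
        have h8 := length_erase_lt cs α hlt
        omega
      · rw [List.eraseIdx_append_of_length_le (by omega), wordProd_append, wordProd_append,
          mul_assoc] at hj2
        have h6 := mul_left_cancel hj2
        have h7 := length_erase_lt cs ω (j := j - α.length) (by simp at hj; omega)
        rw [← h6, ← e, h2.eq] at h7
        simp at h7

lemma IsMinC.length_mul {J : Set B} {a u : W} (ha : IsMinC cs J a) (hu : InP cs J u) :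
    cs.length (a * u) = cs.length a + cs.length u := by
  obtain ⟨ω, h1, h2, rfl⟩ := hu.exists_reduced
  rw [ha.length_mul_word ω h1 h2, h2.eq]

lemma IsMinC.down {J : Set B} {a : W} {i : B} (ha : IsMinC cs J a)
    (h : cs.length (cs.simple i * a) < cs.length a) : IsMinC cs J (cs.simple i * a) := by
  intro u hu
  have h1 := ha.length_mul hu
  have h2 := cs.length_simple_mul (a * u) i
  rw [mul_assoc]
  by_cases hu1 : u = 1
  · subst hu1; simp
  · have : cs.length u ≠ 0 := fun h => hu1 (cs.length_eq_zero_iff.1 h)
    omega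

lemma IsMinC.up {J : Set B} {a : W} {i : B} (ha : IsMinC cs J a)
    (h : cs.length a < cs.length (cs.simple i * a)) :
    IsMinC cs J (cs.simple i * a) ∨ ∃ j ∈ J, cs.simple i * a = a * cs.simple j := by
  by_cases hm : IsMinC cs J (cs.simple i * a)
  · exact Or.inl hm
  · right
    unfold IsMinC at hm
    push Not at hm
    obtain ⟨u, hu, hlt⟩ := hm
    have h1 := ha.length_mul hu
    have h2 := cs.length_simple_mul (a * u) i
    have h3 := cs.length_simple_mul a i
    rw [mul_assoc] at hlt
    obtain ⟨ω, h4, h5, rfl⟩ := hu.exists_reduced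
    rw [h5.eq] at h1
    match ω, h4, h5, h1, h2, hlt with
    | [], _, _, _, _, hlt => simp at hlt
    | [j], h4, _, h1, h2, hlt =>
      have e : cs.wordProd [j] = cs.simple j := by simp
      rw [e] at h1 h2 hlt
      simp only [List.length_singleton] at h1
      refine ⟨j, h4 j (by simp), swt_lemma cs i j a h (by omega) (by rw [mul_assoc]; omega)⟩
    | _ :: _ :: _, _, _, h1, h2, hlt =>
      simp only [List.length_cons] at h1
      omega


/-! The exact order of a product of two simple reflections -/

noncomputable def zt (M : CoxeterMatrix B) (i j : B) : ℂ :=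
  Complex.exp (Real.pi * Complex.I / M i j)

noncomputable def cf (M : CoxeterMatrix B) (i j : B) : ℂ := zt M i j + (zt M i j)⁻¹

noncomputable def geo (M : CoxeterMatrix B) (i : B) : Function.End (B → ℂ) :=
  fun φ k => φ k + cf M i k * φ i

lemma cf_self (i : B) : cf M i i = -2 := by
  simp [cf, zt, M.diagonal, Complex.exp_pi_mul_I]
  norm_num

lemma cf_symm (i j : B) : cf M j i = zt M i j + (zt M i j)⁻¹ := by
  rw [cf, zt, zt, M.symmetric]

lemma zt_prim {i j : B} (h : M i j ≠ 0) : IsPrimitiveRoot (zt M i j ^ 2) (M i j) := by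
  have := Complex.isPrimitiveRoot_exp _ h
  rwa [zt, ← Complex.exp_nat_mul, show ((2 : ℕ) : ℂ) * (Real.pi * Complex.I / M i j) =
    2 * Real.pi * Complex.I / M i j by push_cast; ring]

lemma geo_step (i j : B) (n : ℕ) (φ : B → ℂ) (l : B) : ((geo M i * geo M j) ^ (n + 1)) φ l =
    ((geo M i * geo M j) ^ n) φ l + cf M j l * ((geo M i * geo M j) ^ n) φ j +
      cf M i l * (((geo M i * geo M j) ^ n) φ i + cf M j i * ((geo M i * geo M j) ^ n) φ j) := by
  rw [pow_succ']
  rfl

lemma geo_pow (i j : B) (φ : B → ℂ) (a b : ℂ) (h1 : φ j = a + b)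
    (h2 : φ i = -(a * (zt M i j)⁻¹ + b * zt M i j)) (n : ℕ) :
    ((geo M i * geo M j) ^ n) φ j = a * (zt M i j ^ 2) ^ n + b * ((zt M i j ^ 2)⁻¹) ^ n ∧
    ((geo M i * geo M j) ^ n) φ i = -(a * (zt M i j ^ 2) ^ n * (zt M i j)⁻¹ +
      b * ((zt M i j ^ 2)⁻¹) ^ n * zt M i j) ∧
    ∀ l, ((geo M i * geo M j) ^ n) φ l = φ l +
      (cf M j l + cf M i l * zt M i j) * a * ∑ k ∈ Finset.range n, (zt M i j ^ 2) ^ k +
      (cf M j l + cf M i l * (zt M i j)⁻¹) * b * ∑ k ∈ Finset.range n, ((zt M i j ^ 2)⁻¹) ^ k := by
  have hz : zt M i j ≠ 0 := Complex.exp_ne_zero _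
  induction n with
  | zero => exact ⟨h1.trans (by simp), h2.trans (by simp), fun l => by simp; rfl⟩
  | succ n ih =>
    obtain ⟨i1, i2, i3⟩ := ih
    refine ⟨?_, ?_, fun l => ?_⟩
    · rw [geo_step, i1, i2, cf_self, cf_symm i j, cf, pow_succ _ n, pow_succ _ n]
      field_simp
      ring
    · rw [geo_step, i1, i2, cf_self, cf_symm i j, pow_succ _ n, pow_succ _ n]
      field_simp
      ring
    · rw [geo_step, i1, i2, i3 l, cf_symm i j, Finset.sum_range_succ, Finset.sum_range_succ]
      field_simp
      ring

lemma geo_liftable : M.IsLiftable (geo M) := by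
  intro i j
  by_cases h0 : M i j = 0
  · rw [h0, pow_zero]
  by_cases hij : i = j
  · subst hij
    rw [M.diagonal, pow_one]
    funext φ l
    change φ l + cf M i l * φ i + cf M i l * (φ i + cf M i i * φ i) = φ l
    rw [cf_self]
    ring
  have h1 : 1 < M i j := by have := M.off_diagonal i j hij; omega
  have hp := zt_prim h0
  have hz : zt M i j ≠ 0 := Complex.exp_ne_zero _
  have h2 : zt M i j ^ 2 - 1 ≠ 0 := sub_ne_zero.2 (hp.ne_one h1)
  funext φ l
  rw [(geo_pow i j φ ((φ j * zt M i j ^ 2 + φ i * zt M i j) / (zt M i j ^ 2 - 1))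
    (-(φ j + φ i * zt M i j) / (zt M i j ^ 2 - 1)) (by field_simp; ring) (by field_simp; ring)
    _).2.2 l, hp.geom_sum_eq_zero h1, hp.inv.geom_sum_eq_zero h1]
  simp
  rfl

variable (cs) in
theorem order {i j : B} (hij : i ≠ j) (k : ℕ) :
    (cs.simple i * cs.simple j) ^ k = 1 ↔ M i j ∣ k := by
  classical
  refine ⟨fun h => ?_, fun ⟨l, hl⟩ => by rw [hl, pow_mul, simple_mul_simple_pow, one_pow]⟩
  have e := congrArg (cs.lift ⟨geo M, geo_liftable⟩) h
  rw [map_pow, map_mul, lift_apply_simple, lift_apply_simple, map_one] at e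
  by_cases h0 : M i j = 0
  · have c1 : cf M j i = 2 := by simp [cf_symm i j, zt, h0]; norm_num
    have c2 : cf M i j = 2 := by simp [cf, zt, h0]; norm_num
    have : ∀ n : ℕ, ((geo M i * geo M j) ^ n) (Pi.single i 1) j = 2 * n ∧
        ((geo M i * geo M j) ^ n) (Pi.single i 1) i = 1 - 2 * n := by
      intro n
      induction n with
      | zero => simp [Function.End.one_def, hij.symm]
      | succ n ih =>
        rw [geo_step, geo_step, ih.1, ih.2, c1, c2, cf_self, cf_self]
        push_cast
        constructor <;> ring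
    have h1 := (this k).1
    rw [e] at h1
    have h2 : (0 : ℂ) = 2 * k := (Pi.single_eq_of_ne hij.symm _).symm.trans h1
    have : k = 0 := by simpa using h2
    simp [this]
  · have := (geo_pow (M := M) i j (fun l => if l = j then 1 else -(zt M i j)⁻¹) 1 0 (by simp)
      (by simp [hij]) k).1
    rw [e] at this
    exact ((zt_prim h0).pow_eq_one_iff_dvd k).1 (by simpa [Function.End.one_def] using this.symm)

end Pool.Agent.Lib.MP_35cce7_an
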