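import Mathlib

namespace Pool.Agent.Lib.MP_35cce7_an

/-- The braid relators of the Artin group of a Coxeter matrix (the entry `0` means infinity). -/
def rels {B : Type} (M : CoxeterMatrix B) : Set (FreeGroup B) :=
  {w | ∃ i j : B, M i j ≠ 0 ∧
    w = ((List.range (M i j)).map (fun k => if Even k then FreeGroup.of i else FreeGroup.of j)).prod *
      (((List.range (M i j)).map (fun k => if Even k then FreeGroup.of j else FreeGroup.of i)).prod)⁻¹}

/-- Property RD for the Artin group of `M`, in the form of the frozen statement. -/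
def HasRD {B : Type} (M : CoxeterMatrix B) : Prop :=
  ∃ (C : ℝ) (s : ℕ), ∀ (r : ℕ) (f g : PresentedGroup (rels M) →₀ ℂ),
    (∀ x ∈ f.support, ∃ L : List (PresentedGroup (rels M)), L.prod = x ∧ L.length ≤ r ∧
      ∀ y ∈ L, ∃ i : B, y = PresentedGroup.of i ∨ y = (PresentedGroup.of i)⁻¹) →
    (∑' x, ‖∑ y ∈ f.support, f y * g (y⁻¹ * x)‖ ^ 2) ≤
      C * (1 + (r : ℝ)) ^ s * (∑ x ∈ f.support, ‖f x‖ ^ 2) * (∑ x ∈ g.support, ‖g x‖ ^ 2)

/-- The Coxeter matrix restricted to a subset of the generators. -/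
def res {B : Type} (M : CoxeterMatrix B) (T : Finset B) : CoxeterMatrix T where
  M := Matrix.of fun i j => M i j
  isSymm := Matrix.IsSymm.ext fun i j => M.symmetric j i
  diagonal i := M.diagonal i
  off_diagonal i j h := M.off_diagonal i j fun e => h (Subtype.ext e)

end Pool.Agent.Lib.MP_35cce7_an
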