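import Pool.Agent.Lib.MP_35cce7_an.DuSub

namespace Pool.Agent.Lib.MP_35cce7_an

noncomputable section

open Classical

namespace TC

variable {G V : Type} [Group G] [MulAction G V] {T : TC G V}

/-- coverings of the triangle complex split -/
def SC0 (T : TC G V) : Prop := ∀ (U : Type) (π : U → V) (E : U → U → Prop),
  (∀ p q, E p q → T.Ed (π p) (π q)) →
  (∀ p y, T.Ed (π p) y → ∃! q, E p q ∧ π q = y) →
  (∀ q x, T.Ed x (π q) → ∃! p, E p q ∧ π p = x) →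
  (∀ p q r p', T.t (π p) (π q) (π r) → E p q → E q r → E r p' → π p' = π p → p' = p) →
  ∀ p₀, ∃ S : Set U, p₀ ∈ S ∧ (∀ p q, E p q → (p ∈ S ↔ q ∈ S)) ∧ Set.InjOn π S

lemma anc {z : T.Sv} {x y : V} (h : kd z ≠ 0) (h1 : z = .v x ∨ T.gr.Adj z (.v x))
    (h2 : z = .v y ∨ T.gr.Adj z (.v y)) : x = y := by
  rcases h1 with rfl | h1 | h1
  · exact (h rfl).elim
  · cases h1
    rcases h2 with ⟨⟨⟩⟩ | h2 | h2 <;> cases h2
    rfl
  · cases h1
    rcases h2 with ⟨⟨⟩⟩ | h2 | h2 <;> cases h2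
    rfl

lemma near (w : T.Sv) (hw : ∀ x, ∃ y, T.Ed x y) : ∃ z, kd z ≠ 0 ∧ (w = z ∨ T.gr.Adj w z) := by
  cases w with
  | v x =>
    obtain ⟨y, h⟩ := hw x
    exact ⟨.o x y h, one_ne_zero, Or.inr (Or.inl (R.vo h))⟩
  | c s h =>
    obtain ⟨x, y, z, h1, h2⟩ := id h
    exact ⟨.o x y ⟨z, h1⟩, one_ne_zero, Or.inr (Or.inl (R.co _ (by simp [h2]) (by simp [h2])))⟩
  | o x y h => exact ⟨.o x y h, one_ne_zero, Or.inl rfl⟩
  | i x y h => exact ⟨.i x y h, (by decide : (2 : ZMod 3) ≠ 0), Or.inl rfl⟩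

theorem sc (hc : T.gr.Connected) (hw : ∀ x, ∃ y, T.Ed x y) (h0 : T.SC0) : SC T.gr.dist := by
  refine sc_of_strict fun U f N C st p₀ q₀ hpq hf => ?_
  have dl := @dist_le_one _ _ hc
  have lf : ∀ p z, T.gr.Adj (f p) z → ∃ q, N p q ∧ f q = z := fun p z h => C.lift (dl.2 (Or.inr h))
  have un : ∀ p q q', N p q → N p q' → f q = f q' → q = q' := fun p q q' h h' e =>
    st _ _ (C.loc h h' (dl.2 (Or.inl e))) e
  have lc : ∀ {p q r w w'}, N p q → N p r → f q = w → f r = w' → R w w' → N q r :=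
    fun h h' e e' r => C.loc h h' (dl.2 (Or.inr (Or.inl (e ▸ e' ▸ r))))
  have sy := @C.symm
  let U0 := {p : U × V // f p.1 = .v p.2}
  let E : U0 → U0 → Prop := fun p q => ∃ h : T.Ed p.1.2 q.1.2, ∃ a b, f a = .o _ _ h ∧
    f b = .i _ _ h ∧ N p.1.1 a ∧ N a b ∧ N b q.1.1
  have ex : ∀ p q : U0, p.1.1 = q.1.1 → p = q := fun p q e =>
    Subtype.ext (Prod.ext e (Sv.v.inj (p.2.symm.trans (e ▸ q.2))))
  obtain ⟨P, hP⟩ : ∃ P : U0, Relation.ReflTransGen N P.1.1 p₀ := by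
    have a1 : ∀ p, kd (f p) ≠ 0 → ∃ P : U0, N P.1.1 p := fun p hp => by
      cases e : f p with
      | v x => simp [e, kd] at hp
      | c x => simp [e, kd] at hp
      | o x y h =>
        obtain ⟨q, h1, h2⟩ := lf p (.v x) (e ▸ Or.inr (R.vo h))
        exact ⟨⟨(q, x), h2⟩, sy h1⟩
      | i x y h =>
        obtain ⟨q, h1, h2⟩ := lf p (.v y) (e ▸ Or.inl (R.iv h))
        exact ⟨⟨(q, y), h2⟩, sy h1⟩
    cases e : f p₀ with
    | v x => exact ⟨⟨(p₀, x), e⟩, .refl⟩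
    | c s h =>
      obtain ⟨x, y, z, h1, h2⟩ := id h
      obtain ⟨q, h3, h4⟩ := lf p₀ (.o x y ⟨z, h1⟩)
        (e ▸ Or.inl (R.co _ (by simp [h2]) (by simp [h2])))
      obtain ⟨P, hP⟩ := a1 q (by rw [h4]; exact one_ne_zero)
      exact ⟨P, .tail (.single hP) (sy h3)⟩
    | o x y h => exact (a1 p₀ (by rw [e]; exact one_ne_zero)).imp fun _ h => .single h
    | i x y h => exact (a1 p₀ (by rw [e]; exact (by decide : (2 : ZMod 3) ≠ 0))).imp fun _ h => .single h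
  obtain ⟨S, s0, s1, s2⟩ := h0 U0 (fun p => p.1.2) E (fun p q h => h.1) (fun p y h => by
      obtain ⟨a, a1, a2⟩ := lf p.1.1 (.o _ _ h) (p.2 ▸ Or.inl (R.vo h))
      obtain ⟨b, b1, b2⟩ := lf a (.i _ _ h) (a2 ▸ Or.inl (R.oe h h))
      obtain ⟨c, c1, c2⟩ := lf b (.v y) (b2 ▸ Or.inl (R.iv h))
      refine ⟨⟨(c, y), c2⟩, ⟨⟨h, a, b, a2, b2, a1, b1, c1⟩, rfl⟩, ?_⟩
      rintro q ⟨⟨h', a', b', e1, e2, e3, e4, e5⟩, rfl⟩
      obtain rfl := un _ _ _ a1 e3 (a2.trans e1.symm)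
      obtain rfl := un _ _ _ b1 e4 (b2.trans e2.symm)
      exact ex _ _ (un _ _ _ e5 c1 (q.2.trans c2.symm))) (fun q x h => by
      obtain ⟨b, b1, b2⟩ := lf q.1.1 (.i _ _ h) (q.2 ▸ Or.inr (R.iv h))
      obtain ⟨a, a1, a2⟩ := lf b (.o _ _ h) (b2 ▸ Or.inr (R.oe h h))
      obtain ⟨c, c1, c2⟩ := lf a (.v x) (a2 ▸ Or.inr (R.vo h))
      refine ⟨⟨(c, x), c2⟩, ⟨⟨h, a, b, a2, b2, sy c1, sy a1, sy b1⟩, rfl⟩, ?_⟩
      rintro p ⟨⟨h', a', b', e1, e2, e3, e4, e5⟩, rfl⟩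
      obtain rfl := un _ _ _ b1 (sy e5) (b2.trans e2.symm)
      obtain rfl := un _ _ _ a1 (sy e4) (a2.trans e1.symm)
      exact ex _ _ (un _ _ _ (sy e3) c1 (p.2.trans c2.symm))) (by
      rintro p q r p' t ⟨h1, a1, b1, e1, e2, e3, e4, e5⟩ ⟨h2, a2, b2, f1, f2, f3, f4, f5⟩
        ⟨h3, a3, b3, g1, g2, g3, g4, g5⟩ e
      have hs : T.Tr {p.1.2, q.1.2, r.1.2} := ⟨_, _, _, t, rfl⟩
      have h3' : T.Ed r.1.2 p.1.2 := ⟨_, T.rot (T.rot t)⟩
      have g1' : f a3 = .o _ _ h3' := by rw [g1]; congr 1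
      have g2' : f b3 = .i _ _ h3' := by rw [g2]; congr 1
      obtain ⟨u, u1, u2⟩ := lf a1 (.c _ hs) (e1 ▸ Or.inr (R.co _ (by simp) (by simp)))
      have n1 := lc e4 u1 e2 u2 (R.ic _ (by simp) (by simp))
      have n2 := lc f3 (sy e5) f1 e2 (R.oi _ _ (T.rot t))
      have n3 := lc n1 (sy n2) u2 f1 (R.co _ (by simp) (by simp))
      have n4 := lc f4 (sy n3) f2 u2 (R.ic _ (by simp) (by simp))
      have n5 := lc g3 (sy f5) g1' f2 (R.oi _ _ (T.rot (T.rot t)))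
      have n6 := lc n4 (sy n5) u2 g1' (R.co _ (by simp) (by simp))
      have n7 := lc g4 (sy n6) g2' u2 (R.ic _ (by simp) (by simp))
      have n8 := lc (sy u1) (sy n7) e1 g2' (R.oi _ _ t)
      have n9 := lc n8 (sy e3) g2' p.2 (R.iv _)
      exact ex _ _ (un _ _ _ g5 n9 (by rw [p'.2, p.2]; exact congrArg _ e))) P
  let Q1 : U → Prop := fun a => ∃ p ∈ S, N a p.1.1
  have q1 : ∀ a (p : U0), kd (f a) ≠ 0 → N a p.1.1 → Q1 a → p ∈ S := by
    rintro a p h1 h2 ⟨p', h3, h4⟩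
    have : p.1.2 = p'.1.2 := anc h1 (dl.1 (p.2 ▸ C.hom h2)) (dl.1 (p'.2 ▸ C.hom h4))
    rwa [ex p p' (un _ _ _ h2 h4 (by rw [p.2, p'.2, this]))]
  have k1 : ∀ {a : U} {x y h}, f a = .o x y h → kd (f a) ≠ 0 := fun e => by
    rw [e]; exact one_ne_zero
  have k2 : ∀ {a : U} {x y h}, f a = .i x y h → kd (f a) ≠ 0 := fun e => by
    rw [e]; exact (by decide : (2 : ZMod 3) ≠ 0)
  have l0 : ∀ a b x y h u v h', N a b → f a = .o x y h → f b = .i u v h' →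
      R (.o x y h) (.i u v h') → (Q1 a ↔ Q1 b) := fun a b x y h u v h' n e1 e2 r => by
    obtain ⟨p, p1, p2⟩ := lf a (.v x) (e1 ▸ Or.inr (R.vo h))
    obtain ⟨q, q1', q2⟩ := lf b (.v v) (e2 ▸ Or.inl (R.iv h'))
    have : (⟨(p, x), p2⟩ : U0) ∈ S ↔ (⟨(q, v), q2⟩ : U0) ∈ S := by
      cases r with
      | oi => rw [ex ⟨(p, x), p2⟩ ⟨(q, x), q2⟩
          (un _ _ _ (lc n p1 e2 p2 (R.iv _)) q1' (p2.trans q2.symm))]
      | oe => exact s1 _ _ ⟨h, a, b, e1, e2, sy p1, n, q1'⟩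
    exact ⟨fun h => ⟨_, this.1 (q1 a _ (k1 e1) p1 h), q1'⟩,
      fun h => ⟨_, this.2 (q1 b _ (k2 e2) q1' h), p1⟩⟩
  have l1 : ∀ a b, N a b → kd (f a) ≠ 0 → kd (f b) ≠ 0 → Q1 a → Q1 b := fun a b n h1 h2 h => by
    rcases dl.1 (C.hom n) with e | e
    · exact st _ _ n e ▸ h
    · cases ea : f a with
      | v x => simp [ea, kd] at h1
      | c x => simp [ea, kd] at h1
      | o x y h' =>
        cases eb : f b with
        | v x => simp [eb, kd] at h2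
        | c x => simp [eb, kd] at h2
        | o x y h' => rw [ea, eb] at e; rcases e with e | e <;> cases e
        | i u v h'' =>
          rw [ea, eb] at e
          exact (l0 a b _ _ _ _ _ _ n ea eb (e.resolve_right (by rintro ⟨⟩))).1 h
      | i x y h' =>
        cases eb : f b with
        | v x => simp [eb, kd] at h2
        | c x => simp [eb, kd] at h2
        | i x y h' => rw [ea, eb] at e; rcases e with e | e <;> cases e
        | o u v h'' =>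
          rw [ea, eb] at e
          exact (l0 b a _ _ _ _ _ _ (sy n) eb ea (e.resolve_left (by rintro ⟨⟩))).2 h
  have l2 : ∀ u s hs a b, f u = .c s hs → N u a → N u b → kd (f a) ≠ 0 → kd (f b) ≠ 0 →
      Q1 a → Q1 b := fun u s hs a b e n1 n2 h1 h2 h => by
    have sd : ∀ a, N u a → kd (f a) ≠ 0 → ∃ x y h, x ∈ s ∧ y ∈ s ∧
        (f a = .o x y h ∨ f a = .i x y h) := fun a n k => by
      rcases dl.1 (C.hom n) with g | g
      · rw [← g, e] at k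
        exact (k rfl).elim
      · rw [e] at g
        generalize f a = w at g
        rcases g with g | g <;> cases g
        exacts [⟨_, _, _, ‹_›, ‹_›, Or.inl rfl⟩, ⟨_, _, _, ‹_›, ‹_›, Or.inr rfl⟩]
    let P : V → V → Prop := fun x y => ∀ h a, N u a → (f a = .o x y h ∨ f a = .i x y h) → Q1 a
    have p1 : ∀ x y h a, N u a → (f a = .o x y h ∨ f a = .i x y h) → Q1 a → P x y := by
      intro x y h a n g q h' b n' g'
      refine l1 a b (C.loc n n' (dl.2 ?_)) (g.elim k1 k2) (g'.elim k1 k2) q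
      rcases g with g | g <;> rcases g' with g' | g' <;> rw [g, g']
      exacts [Or.inl rfl, Or.inr (Or.inl (R.oe _ _)), Or.inr (Or.inr (R.oe _ _)), Or.inl rfl]
    have p2 : ∀ x y z, T.t x y z → x ∈ s → y ∈ s → z ∈ s → P x y → P y z := by
      intro x y z t m1 m2 m3 q
      obtain ⟨a, a1, a2⟩ := lf u (.i x y ⟨z, t⟩) (e ▸ Or.inr (R.ic _ m1 m2))
      obtain ⟨b, b1, b2⟩ := lf u (.o y z ⟨x, T.rot t⟩) (e ▸ Or.inl (R.co _ m2 m3))
      exact p1 _ _ _ b b1 (Or.inl b2) (l1 a b (sy (lc b1 a1 b2 a2 (R.oi _ _ (T.rot t)))) (k2 a2)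
        (k1 b2) (q _ a a1 (Or.inr a2)))
    obtain ⟨x, y, g, m1, m2, g1⟩ := sd a n1 h1
    obtain ⟨x', y', g', m1', m2', g1'⟩ := sd b n2 h2
    obtain ⟨z, t, es⟩ := hs.side m1 m2 g
    have m3 : z ∈ s := by simp [es]
    have c1 := p1 _ _ _ a n1 g1 h
    have c2 := p2 _ _ _ t m1 m2 m3 c1
    have c3 := p2 _ _ _ (T.rot t) m2 m3 m1 c2
    have m4 := m1'
    rw [es] at m4
    rcases m4 with rfl | rfl | rfl
    · obtain rfl := hs.hd m2 m2' g g'
      exact c1 _ b n2 g1'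
    · obtain rfl := hs.hd m3 m2' ⟨_, T.rot t⟩ g'
      exact c2 _ b n2 g1'
    · obtain rfl := hs.hd m1 m2' ⟨_, T.rot (T.rot t)⟩ g'
      exact c3 _ b n2 g1'
  let Q : U → Prop := fun u => ∀ a, N u a → kd (f a) ≠ 0 → Q1 a
  have cl : ∀ u u', N u u' → Q u → Q u' := fun u u' n q a n' k => by
    by_cases k' : kd (f u') = 0
    · rcases dl.1 (C.hom n) with e | e
      · exact q a (st _ _ n e ▸ n') k
      have k'' : kd (f u) ≠ 0 := fun k'' => by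
        rcases e with e | e <;> have := e.kd <;> rw [k', k''] at this <;> revert this <;> decide
      have q' := q u (C.refl u) k''
      cases eb : f u' with
      | v x => exact ⟨_, q1 u ⟨(u', x), eb⟩ k'' n q', sy n'⟩
      | c s hs => exact l2 u' s hs u a eb (sy n) n' k'' k q'
      | o => exact (k1 eb k').elim
      | i => exact (k2 eb k').elim
    · exact l1 u' a n' k' k (q u' n k')
  have cl' : ∀ u u', Relation.ReflTransGen N u u' → Q u → Q u' := fun u u' h q => by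
    induction h with
    | refl => exact q
    | tail _ h ih => exact cl _ _ h ih
  have g1 := cl' _ _ hP fun a n _ => ⟨P, s0, sy n⟩
  have g2 := cl' _ _ hpq g1
  obtain ⟨z, z1, z2⟩ : ∃ z, kd z ≠ 0 ∧ T.gr.dist (f p₀) z ≤ 1 :=
    (near (f p₀) hw).imp fun _ h => ⟨h.1, dl.2 h.2⟩
  obtain ⟨a, a1, a2⟩ := C.lift z2
  obtain ⟨b, b1, b2⟩ := C.lift (hf ▸ z2)
  obtain ⟨p, p1, p2⟩ := g1 a a1 (a2 ▸ z1)
  obtain ⟨q, q1', q2⟩ := g2 b b1 (b2 ▸ z1)
  obtain rfl : p = q := s2 p1 q1' (anc z1 (dl.1 (p.2 ▸ a2 ▸ C.hom p2)) (dl.1 (q.2 ▸ b2 ▸ C.hom q2)))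
  obtain rfl := un _ _ _ (sy p2) (sy q2) (a2.trans b2.symm)
  exact un _ _ _ (sy a1) (sy b1) hf

end TC

end

end Pool.Agent.Lib.MP_35cce7_an
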