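import Pool.Agent.Lib.MP_35cce7_an.DuArt

namespace Pool.Agent.Lib.MP_35cce7_an

theorem rd_three_large (n : ℕ) (M : CoxeterMatrix (Fin n))
    (h : ∀ T : Finset (Fin n), 4 ≤ T.card → (∀ i ∈ T, ∀ j ∈ T, M i j ≠ 0) →
      (∀ U ⊆ T, U.Nonempty → U ≠ T → ∃ i ∈ U, ∃ j ∈ T \ U, M i j ≠ 2) →
      ∀ i ∈ T, ∀ j ∈ T, M i j ≠ 2) : HasRD M := by
  refine (main n M).2 fun T h1 h2 h3 => (rd_iff _).2 ?_
  rcases h1.eq_or_lt with e | e
  · exact rd_rank3 _ (by rw [Fintype.card_coe, e])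
  · have := Fintype.one_lt_card_iff_nontrivial.1
      (show 1 < Fintype.card T by rw [Fintype.card_coe]; omega)
    refine rd_large fun i j hij => ?_
    have a1 : res M T i j ≠ 2 := h T e h2 h3 i i.2 j j.2
    have a2 : res M T i j ≠ 0 := h2 i i.2 j j.2
    have a3 := (res M T).off_diagonal i j hij
    omega

end Pool.Agent.Lib.MP_35cce7_an
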