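import Mathlib

namespace Pool.Agent.Lib.MP_35cce7_an

open Equiv

section
variable {Ω : Type} (ρ σ : Perm Ω) (ω₀ : Ω)

inductive Orb : Ω → Prop
  | base : Orb ω₀
  | r {ω} : Orb ω → Orb (ρ ω)
  | r' {ω} : Orb ω → Orb (ρ⁻¹ ω)
  | s {ω} : Orb ω → Orb (σ ω)

variable {ρ σ ω₀}

lemma Orb.s' (h : σ * ρ * σ = ρ * ρ) {ω} (o : Orb ρ σ ω₀ ω) : Orb ρ σ ω₀ (σ⁻¹ ω) := by
  have : σ⁻¹ = ρ⁻¹ * ρ⁻¹ * σ * ρ := by
    rw [← mul_inv_rev, ← h]
    group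
  rw [this]
  exact o.r.s.r'.r'

lemma Orb.zr {ω} (o : Orb ρ σ ω₀ ω) (k : ℤ) : Orb ρ σ ω₀ ((ρ ^ k) ω) := by
  induction k using Int.induction_on with
  | zero => exact o
  | succ k ih => rw [add_comm, zpow_one_add]; exact ih.r
  | pred k ih => rw [sub_eq_add_neg, add_comm, zpow_add, zpow_neg_one]; exact ih.r'

lemma Orb.trans {ω₁ ω} (o : Orb ρ σ ω₀ ω₁) (o' : Orb ρ σ ω₁ ω) : Orb ρ σ ω₀ ω := by
  induction o' with
  | base => exact o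
  | r _ ih => exact ih.r
  | r' _ ih => exact ih.r'
  | s _ ih => exact ih.s

end

variable {G H : Type} [Group G] [Group H]

def hr : Perm (G × G × G) where
  toFun ω := (ω.2.1, ω.2.2, (ω.2.1 * ω.2.2)⁻¹ * ω.1 * (ω.2.1 * ω.2.2))
  invFun ω := (ω.1 * ω.2.1 * ω.2.2 * (ω.1 * ω.2.1)⁻¹, ω.1, ω.2.1)
  left_inv ω := Prod.ext (by group) rfl
  right_inv ω := Prod.ext rfl (Prod.ext rfl (by group))

def hs : Perm (G × G × G) where
  toFun ω := (ω.1, ω.2.2, ω.2.2⁻¹ * ω.2.1 * ω.2.2)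
  invFun ω := (ω.1, ω.2.1 * ω.2.2 * ω.2.1⁻¹, ω.2.1)
  left_inv ω := Prod.ext rfl (Prod.ext (by group) rfl)
  right_inv ω := Prod.ext rfl (Prod.ext rfl (by group))

lemma hr_apply (ω : G × G × G) :
    hr ω = (ω.2.1, ω.2.2, (ω.2.1 * ω.2.2)⁻¹ * ω.1 * (ω.2.1 * ω.2.2)) := rfl

lemma hr_inv (ω : G × G × G) :
    hr⁻¹ ω = (ω.1 * ω.2.1 * ω.2.2 * (ω.1 * ω.2.1)⁻¹, ω.1, ω.2.1) := rfl

lemma hs_apply (ω : G × G × G) : hs ω = (ω.1, ω.2.2, ω.2.2⁻¹ * ω.2.1 * ω.2.2) := rfl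

lemma hs_rel : (hs * hr * hs : Perm (G × G × G)) = hr * hr := by
  ext ω <;> simp only [Perm.mul_apply, hr_apply, hs_apply] <;> group

def pr (ω : G × G × G) : G := ω.1 * ω.2.1 * ω.2.2

def mp (h : G → H) (ω : G × G × G) : H × H × H := (h ω.1, h ω.2.1, h ω.2.2)

lemma pr_hr (ω : G × G × G) : pr (hr ω) = pr ω := by
  simp only [pr, hr_apply]; group

lemma pr_hr' (ω : G × G × G) : pr (hr⁻¹ ω) = pr ω := by
  simp only [pr, hr_inv]; group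

lemma pr_hs (ω : G × G × G) : pr (hs ω) = pr ω := by
  simp only [pr, hs_apply]; group

lemma tr_ext {ω ω' : G × G × G} (h1 : ω.1 = ω'.1) (h2 : ω.2.1 = ω'.2.1) (h : pr ω = pr ω') :
    ω = ω' := by
  refine Prod.ext h1 (Prod.ext h2 ?_)
  rwa [pr, pr, h1, h2, mul_right_inj] at h

lemma mp_hr (φ : G →* H) (ω : G × G × G) : mp φ (hr ω) = hr (mp φ ω) := by
  simp [mp, hr_apply]

lemma mp_hr' (φ : G →* H) (ω : G × G × G) : mp φ (hr⁻¹ ω) = hr⁻¹ (mp φ ω) := by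
  simp [mp, hr_inv]

lemma mp_hs (φ : G →* H) (ω : G × G × G) : mp φ (hs ω) = hs (mp φ ω) := by
  simp [mp, hs_apply]

variable {ω₀ ω : G × G × G}

lemma Orb.pr (o : Orb hr hs ω₀ ω) : pr ω = pr ω₀ := by
  induction o with
  | base => rfl
  | r _ ih => rw [pr_hr, ih]
  | r' _ ih => rw [pr_hr', ih]
  | s _ ih => rw [pr_hs, ih]

lemma hr_three (ω : G × G × G) (k : ℤ) :
    ((hr : Perm (G × G × G)) ^ (3 * k)) ω = mp (fun x => (pr ω ^ k)⁻¹ * x * pr ω ^ k) ω := by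
  have h1 : ∀ ω : G × G × G, ((hr : Perm (G × G × G)) ^ (3 : ℤ)) ω =
      mp (fun x => (pr ω)⁻¹ * x * pr ω) ω := fun ω => by
    change hr (hr (hr ω)) = _
    ext <;> simp only [mp, pr, hr_apply] <;> group
  have h2 : ∀ ω : G × G × G, ((hr : Perm (G × G × G)) ^ (-3 : ℤ)) ω =
      mp (fun x => pr ω * x * (pr ω)⁻¹) ω := fun ω => by
    change hr⁻¹ (hr⁻¹ (hr⁻¹ ω)) = _
    ext <;> simp only [mp, pr, hr_inv] <;> group
  have h3 : ∀ k : ℤ, pr (mp (fun x => (pr ω ^ k)⁻¹ * x * pr ω ^ k) ω) = pr ω := fun k => by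
    have : pr (mp (fun x => (pr ω ^ k)⁻¹ * x * pr ω ^ k) ω) = (pr ω ^ k)⁻¹ * pr ω * pr ω ^ k := by
      generalize pr ω ^ k = y
      simp only [pr, mp]; group
    rw [this]; group
  induction k using Int.induction_on with
  | zero => simp [mp]
  | succ k ih =>
    rw [mul_add, add_comm, zpow_add, Perm.mul_apply, ih, mul_one, h1, h3]
    ext <;> simp only [mp] <;> group
  | pred k ih =>
    rw [mul_sub, sub_eq_add_neg, add_comm, zpow_add, Perm.mul_apply, ih, mul_one, h2, h3]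
    ext <;> simp only [mp] <;> group

lemma Orb.cj (o : Orb hr hs ω₀ ω) (k : ℤ) :
    Orb hr hs ω₀ (mp (fun x => (MP_35cce7_an.pr ω₀ ^ k)⁻¹ * x * MP_35cce7_an.pr ω₀ ^ k) ω) := by
  rw [← o.pr, ← hr_three]
  exact o.zr _

lemma Orb.deg {K : Type} [CommGroup K] (ℓ : G →* K) {u : K} (h : mp ℓ ω₀ = (u, u, u))
    (o : Orb hr hs ω₀ ω) : mp ℓ ω = (u, u, u) := by
  induction o with
  | base => exact h
  | r _ ih => rw [mp_hr, ih, hr_apply]; simp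
  | r' _ ih => rw [mp_hr', ih, hr_inv]; simp
  | s _ ih => rw [mp_hs, ih, hs_apply]; simp

/-- a function respecting the triangle relations commutes with the moves -/
lemma eqv {h : G → H} {η : H} (hh : ∀ ω, Orb hr hs ω₀ ω → pr (mp h ω) = η)
    (o : Orb hr hs ω₀ ω) : mp h (hr ω) = hr (mp h ω) ∧ mp h (hs ω) = hs (mp h ω) :=
  ⟨tr_ext rfl rfl (by rw [pr_hr, hh _ o, hh _ o.r]), tr_ext rfl rfl (by rw [pr_hs, hh _ o, hh _ o.s])⟩

lemma eqv_hom {h : G → H} {η : H} (hh : ∀ ω, Orb hr hs ω₀ ω → pr (mp h ω) = η) (Φ : G →* H)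
    (h0 : mp Φ ω₀ = mp h ω₀) (o : Orb hr hs ω₀ ω) : mp Φ ω = mp h ω := by
  induction o with
  | base => exact h0
  | r o ih => rw [mp_hr, ih, (eqv hh o).1]
  | @r' ω o ih =>
    have := (eqv hh o.r').1
    rw [show hr (hr⁻¹ ω) = ω from hr.apply_symm_apply ω] at this
    rw [mp_hr', ih, this]
    exact hr.symm_apply_apply _
  | s o ih => rw [mp_hs, ih, (eqv hh o).2]

end Pool.Agent.Lib.MP_35cce7_an
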