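import Pool.Agent.Lib.MP_35cce7_an.DuCov
import Pool.Agent.Lib.MP_35cce7_an.DuOrb

namespace Pool.Agent.Lib.MP_35cce7_an

noncomputable section

open Classical Equiv

lemma perm_of_rel {α : Type} (r : α → α → Prop) (h1 : ∀ a, ∃! b, r a b) (h2 : ∀ b, ∃! a, r a b) :
    ∃ e : Perm α, ∀ a b, r a b ↔ a = e b := by
  choose f f1 f2 using h1
  choose g g1 g2 using h2
  exact ⟨⟨g, f, fun b => (f2 _ _ (g1 b)).symm, fun a => (g2 _ _ (f1 a)).symm⟩,
    fun a b => ⟨g2 b a, fun e => e ▸ g1 b⟩⟩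

lemma ball_ind {G ι : Type} [Group G] {σ : ι → G} (gen : ∀ x, ∃ r, Ball σ r x) {Q : G → Prop}
    (h1 : Q 1) (h2 : ∀ i x, Q x → Q (σ i * x) ∧ Q ((σ i)⁻¹ * x)) (x : G) : Q x := by
  obtain ⟨_, L, rfl, -, h⟩ := gen x
  induction L with
  | nil => exact h1
  | cons y L ih =>
    have := ih fun z hz => h z (by simp [hz])
    obtain ⟨i, rfl | rfl⟩ := h y (by simp)
    exacts [(h2 i _ this).1, (h2 i _ this).2]

lemma TC.d_smul {G V : Type} [Group G] [MulAction G V] {T : TC G V} (hc : T.gr.Connected) (g : G)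
    (a b : T.Sv) : T.gr.dist (g • a) (g • b) = T.gr.dist a b := by
  have S := met_of_graph _ hc
  have key : ∀ (g : G) n a b, T.gr.dist a b = n → T.gr.dist (g • a) (g • b) ≤ n := by
    intro g n
    induction n with
    | zero => intro a b h; simp [S.eq0 h]
    | succ n ih =>
      intro a b h
      obtain ⟨c, h1, h2⟩ := S.step h
      have a1 : T.gr.dist (g • a) (g • c) ≤ 1 := (dist_le_one hc).2 (Or.inr
        ((SimpleGraph.dist_eq_one_iff_adj.1 h1).imp (·.smul g) (·.smul g)))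
      have a2 := ih _ _ h2
      have a3 := S.tri (g • a) (g • c) (g • b)
      omega
  refine le_antisymm (key g _ _ _ rfl) ?_
  simpa using key g⁻¹ _ _ _ (rfl : T.gr.dist (g • a) (g • b) = _)

variable {G : Type} [Group G] {ω₀ : G × G × G} {ℓ : G →* Multiplicative ℤ}

abbrev Qd (ω₀ : G × G × G) := G ⧸ (zpowersHom G (pr ω₀)).range

lemma qd_eq {g g' : G} : (g : Qd ω₀) = g' ↔ ∃ k : ℤ, g' = g * pr ω₀ ^ k := by
  rw [QuotientGroup.eq]
  exact ⟨fun ⟨k, h⟩ => ⟨k.toAdd, by rw [← inv_mul_eq_iff_eq_mul, ← h]; rfl⟩,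
    fun ⟨k, h⟩ => ⟨Multiplicative.ofAdd k, by rw [h, inv_mul_cancel_left]; rfl⟩⟩

def tt3 (ω₀ : G × G × G) (x y z : Qd ω₀) : Prop := ∃ (g : G) (ω : G × G × G), Orb hr hs ω₀ ω ∧
  x = g ∧ y = (g * ω.1 : G) ∧ z = (g * ω.1 * ω.2.1 : G)

lemma tt3.norm {g : G} {y z : Qd ω₀} (h : tt3 ω₀ g y z) :
    ∃ ω, Orb hr hs ω₀ ω ∧ y = (g * ω.1 : G) ∧ z = (g * ω.1 * ω.2.1 : G) := by
  obtain ⟨g', ω, o, h1, rfl, rfl⟩ := h
  obtain ⟨k, rfl⟩ := qd_eq.1 h1
  refine ⟨_, o.cj (-k), (qd_eq.2 ⟨k, ?_⟩).symm, (qd_eq.2 ⟨k, ?_⟩).symm⟩ <;>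
    simp only [mp] <;> group

section
variable (hl : mp ℓ ω₀ = (.ofAdd 1, .ofAdd 1, .ofAdd 1))
include hl

lemma deg_pr (k : ℤ) : (ℓ (pr ω₀ ^ k)).toAdd = 3 * k := by
  simp only [mp, Prod.mk.injEq] at hl
  simp only [pr, map_zpow, map_mul, hl.1, hl.2.1, hl.2.2, toAdd_zpow, toAdd_mul, toAdd_ofAdd]
  simp [mul_comm]

lemma qd_cancel {g a b : G} (h : ((g * a : G) : Qd ω₀) = (g * b : G)) (e : ℓ a = ℓ b) : a = b := by
  obtain ⟨k, h⟩ := qd_eq.1 h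
  rw [mul_assoc, mul_right_inj] at h
  have := deg_pr hl k
  rw [h, map_mul, left_eq_mul] at e
  rw [e, toAdd_one] at this
  obtain rfl : k = 0 := by omega
  simp [h]

lemma Orb.d1 {ω} (o : Orb hr hs ω₀ ω) : ℓ ω.1 = .ofAdd 1 := congrArg (·.1) (o.deg ℓ hl)

lemma Orb.d2 {ω} (o : Orb hr hs ω₀ ω) : ℓ ω.2.1 = .ofAdd 1 := congrArg (·.2.1) (o.deg ℓ hl)

end

def Girth (ω₀ : G × G × G) : Prop := ∀ ω₁ ω₂ ω₃ ω₄, Orb hr hs ω₀ ω₁ → Orb hr hs ω₀ ω₂ →
  Orb hr hs ω₀ ω₃ → Orb hr hs ω₀ ω₄ → ω₁.1 = ω₄.1 → ω₁.2.2 = ω₂.2.2 → ω₂.1 = ω₃.1 →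
  ω₃.2.2 = ω₄.2.2 → ω₁.1 = ω₂.1 ∨ ω₁.2.2 = ω₃.2.2

def Pres (ω₀ : G × G × G) : Prop := ∀ (H : Type) [Group H] (h : G → H) (η : H),
  (∀ ω, Orb hr hs ω₀ ω → pr (mp h ω) = η) → ∃ Φ : G →* H, mp Φ ω₀ = mp h ω₀

def dualTC (hl : mp ℓ ω₀ = (.ofAdd 1, .ofAdd 1, .ofAdd 1)) (hG : Girth ω₀) : TC G (Qd ω₀) where
  t := tt3 ω₀
  col := Quotient.lift (fun g => ((ℓ g).toAdd : ZMod 3)) fun a b h => by
    obtain ⟨k, rfl⟩ := qd_eq.1 (Quotient.sound h)
    rw [map_mul, toAdd_mul, deg_pr hl]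
    push_cast
    rw [show (3 : ZMod 3) = 0 from rfl]
    simp
  rot := by
    rintro _ _ _ ⟨g, ω, o, rfl, rfl, rfl⟩
    exact ⟨_, _, o.r, rfl, rfl, qd_eq.2 ⟨1, by rw [← o.pr]; simp [pr, hr_apply, mul_assoc]⟩⟩
  hc := by
    rintro _ _ _ ⟨g, ω, o, rfl, rfl, rfl⟩
    change (((ℓ (g * ω.1)).toAdd : ℤ) : ZMod 3) = ((ℓ g).toAdd : ℤ) + 1
    simp [o.d1 hl]
  l4 := by
    rintro ⟨g⟩ a b c e h1 h2 h3 h4
    obtain ⟨ω₁, o1, rfl, rfl⟩ := tt3.norm h1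
    obtain ⟨ω₂, o2, rfl, b2⟩ := tt3.norm h2
    obtain ⟨ω₃, o3, c3, rfl⟩ := tt3.norm h3
    obtain ⟨ω₄, o4, a4, e4⟩ := tt3.norm h4
    have k : ∀ ω ω', Orb hr hs ω₀ ω → Orb hr hs ω₀ ω' →
        (((g * ω.1 * ω.2.1 : G) : Qd ω₀) = (g * ω'.1 * ω'.2.1 : G) ↔ ω.2.2 = ω'.2.2) :=
      fun ω ω' o o' => by
        have := o.pr.trans o'.pr.symm
        rw [mul_assoc, mul_assoc]
        refine ⟨fun h => ?_, fun h => ?_⟩
        · rwa [pr, pr, qd_cancel hl h (by simp [o.d1 hl, o.d2 hl, o'.d1 hl, o'.d2 hl]),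
            mul_right_inj] at this
        · rw [pr, pr, h, mul_left_inj] at this
          rw [this]
    exact (hG _ _ _ _ o1 o2 o3 o4 (qd_cancel hl a4 (by rw [o1.d1 hl, o4.d1 hl]))
      ((k _ _ o1 o2).1 b2) (qd_cancel hl c3 (by rw [o2.d1 hl, o3.d1 hl]))
      ((k _ _ o3 o4).1 e4)).imp (fun h => by rw [h]) (k _ _ o1 o3).2
  inv := by
    rintro x _ _ _ ⟨g, ω, o, rfl, rfl, rfl⟩
    exact ⟨x * g, ω, o, rfl, by rw [mul_assoc]; rfl, by rw [mul_assoc x, mul_assoc x]; rfl⟩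

variable (hl : mp ℓ ω₀ = (.ofAdd 1, .ofAdd 1, .ofAdd 1)) (hG : Girth ω₀)

lemma dual_ed {ω} (o : Orb hr hs ω₀ ω) (g : G) : (dualTC hl hG).Ed g (g * ω.1 : G) :=
  ⟨_, g, ω, o, rfl, rfl, rfl⟩

lemma dual_sc {ι : Type} {σ : ι → G} (hσ : ∀ i, ∃ ω, Orb hr hs ω₀ ω ∧ ω.1 = σ i)
    (gen : ∀ x, ∃ r, Ball σ r x) (hP : Pres ω₀) : (dualTC hl hG).SC0 := by
  intro U π E e1 e2 e3 e4 p₀
  let C := {c : G × U // π c.2 = (c.1 : Qd ω₀)}
  let Mv : G → C → C → Prop := fun s c c' => c'.1.1 = c.1.1 * s ∧ E c.1.2 c'.1.2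
  have ex : ∀ s, ∃ e : Perm C, (∃ ω, Orb hr hs ω₀ ω ∧ ω.1 = s) → ∀ c c', Mv s c c' ↔ c = e c' :=
    fun s => by
      by_cases h : ∃ ω, Orb hr hs ω₀ ω ∧ ω.1 = s
      · obtain ⟨ω, o, rfl⟩ := h
        refine (perm_of_rel (Mv ω.1) (fun c => ?_) fun c => ?_).imp fun _ h _ => h
        · obtain ⟨q, ⟨h1, h2⟩, h3⟩ := e2 c.1.2 _ (c.2 ▸ dual_ed hl hG o c.1.1)
          exact ⟨⟨(_, q), h2⟩, ⟨rfl, h1⟩, fun c' h =>
            Subtype.ext (Prod.ext h.1 (h3 _ ⟨h.2, h.1 ▸ c'.2⟩))⟩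
        · have := dual_ed hl hG o (c.1.1 * ω.1⁻¹)
          rw [inv_mul_cancel_right, ← c.2] at this
          obtain ⟨q, ⟨h1, h2⟩, h3⟩ := e3 c.1.2 _ this
          refine ⟨⟨(_, q), h2⟩, ⟨by simp, h1⟩, fun c' h => ?_⟩
          have e : c'.1.1 = c.1.1 * ω.1⁻¹ := by rw [h.1, mul_inv_cancel_right]
          exact Subtype.ext (Prod.ext e (h3 _ ⟨h.2, e ▸ c'.2⟩))
      · exact ⟨1, fun h' => (h h').elim⟩
  choose h hh using ex
  let sh : ℤ → C → C := fun k c => ⟨(c.1.1 * pr ω₀ ^ k, c.1.2), c.2.trans (qd_eq.2 ⟨k, rfl⟩)⟩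
  let η : Perm C := ⟨sh (-1), sh 1, fun c => by simp [sh], fun c => by simp [sh]⟩
  have tri : ∀ ω, Orb hr hs ω₀ ω → pr (mp h ω) = η := fun ω o => by
    refine Equiv.ext fun c => ?_
    have m3 := (hh _ ⟨_, o.r.r, rfl⟩ _ c).2 rfl
    have m2 := (hh _ ⟨_, o.r, rfl⟩ _ (h ω.2.2 c)).2 rfl
    have m1 := (hh _ ⟨_, o, rfl⟩ _ (h ω.2.1 (h ω.2.2 c))).2 rfl
    change h ω.1 (h ω.2.1 (h ω.2.2 c)) = _
    change Mv ω.2.2 (h ω.2.2 c) c at m3
    change Mv ω.2.1 (h ω.2.1 (h ω.2.2 c)) _ at m2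
    generalize h ω.2.2 c = c2 at *
    generalize h ω.2.1 c2 = c1 at *
    generalize h ω.1 c1 = c0 at *
    have e : c.1.1 = c0.1.1 * pr ω₀ := by
      rw [m3.1, m2.1, m1.1]
      exact Eq.trans (by simp only [pr, mul_assoc]) (congrArg (c0.1.1 * ·) o.pr)
    refine Subtype.ext (Prod.ext (by simp [η, sh, e]) (e4 _ _ _ _ ?_ m1.2 m2.2 m3.2 ?_).symm)
    · exact ⟨_, ω, o, c0.2, m1.1 ▸ c1.2, m1.1 ▸ m2.1 ▸ c2.2⟩
    · rw [c.2, c0.2]
      exact (qd_eq.2 ⟨1, by simp [e]⟩).symm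
  obtain ⟨Φ, hΦ⟩ := hP _ h η tri
  have f0 : ∀ ω, Orb hr hs ω₀ ω → ∀ c c', Mv ω.1 c c' ↔ c = Φ ω.1 c' := fun ω o c c' => by
    rw [hh _ ⟨_, o, rfl⟩, show Φ ω.1 = h ω.1 from congrArg (·.1) (eqv_hom tri Φ hΦ o)]
  have f1 : Φ (pr ω₀) = η := by
    rw [← tri _ .base, ← hΦ]
    simp [pr, mp]
  have f2 : ∀ g c, (Φ g c).1.1 = c.1.1 * g⁻¹ := by
    refine ball_ind gen (by simp) fun i x hx => ?_
    obtain ⟨ω, o, e⟩ := hσ i
    rw [← e]
    refine ⟨fun c => ?_, fun c => ?_⟩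
    · have := ((f0 ω o _ (Φ x c)).2 rfl).1
      rw [map_mul, Perm.mul_apply, mul_inv_rev, ← mul_assoc, ← hx, this, mul_inv_cancel_right]
    · have := ((f0 ω o (Φ x c) (Φ (ω.1⁻¹ * x) c)).2 (by
        rw [← Perm.mul_apply, ← map_mul, mul_inv_cancel_left])).1
      rw [this, hx, mul_inv_rev, inv_inv, mul_assoc]
  have f3 : ∀ (k : ℤ) c, (Φ (pr ω₀ ^ k) c).1.2 = c.1.2 := fun k => by
    rw [map_zpow, f1]
    induction k using Int.induction_on with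
    | zero => intro c; rfl
    | succ k ih => intro c; rw [zpow_add_one, Perm.mul_apply, ih]; rfl
    | pred k ih => intro c; rw [zpow_sub_one, Perm.mul_apply, ih]; rfl
  have f4 : ∀ c c' : C, c.1.2 = c'.1.2 → ∃ g, c = Φ g c' := fun c c' e => by
    obtain ⟨k, hk⟩ := qd_eq.1 (c.2.symm.trans (e ▸ c'.2))
    exact ⟨pr ω₀ ^ k, Subtype.ext (Prod.ext (by rw [f2, hk, mul_inv_cancel_right])
      (by rw [f3, e]))⟩
  let c₀ : C := ⟨((π p₀).out, p₀), (π p₀).out_eq.symm⟩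
  refine ⟨{p | ∃ g, (Φ g c₀).1.2 = p}, ⟨1, by simp [c₀]⟩, fun p q h => ?_, ?_⟩
  · obtain ⟨z, t⟩ := e1 p q h
    rw [← (π p).out_eq] at t
    obtain ⟨ω, o, t1, -⟩ := tt3.norm t
    have := (f0 ω o ⟨((π p).out, p), (π p).out_eq.symm⟩ ⟨(_, q), t1⟩).1 ⟨rfl, h⟩
    constructor
    · rintro ⟨g, hg⟩
      obtain ⟨x, hx⟩ := f4 ⟨((π p).out, p), (π p).out_eq.symm⟩ _ hg.symm
      refine ⟨ω.1⁻¹ * x * g, ?_⟩
      rw [map_mul, map_mul, Perm.mul_apply, Perm.mul_apply, ← hx, this, ← Perm.mul_apply,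
        ← map_mul, inv_mul_cancel, map_one, Perm.one_apply]
    · rintro ⟨g, hg⟩
      obtain ⟨x, hx⟩ := f4 ⟨(_, q), t1⟩ _ hg.symm
      refine ⟨ω.1 * x * g, ?_⟩
      rw [map_mul, map_mul, Perm.mul_apply, Perm.mul_apply, ← hx, ← this]
  · rintro _ ⟨g, rfl⟩ _ ⟨g', rfl⟩ e
    rw [(Φ g c₀).2, (Φ g' c₀).2, f2, f2] at e
    obtain ⟨k, hk⟩ := qd_eq.1 e
    rw [mul_assoc, mul_right_inj] at hk
    have : g = pr ω₀ ^ k * g' := by rw [← inv_inv g', hk]; group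
    rw [this, map_mul, Perm.mul_apply, f3]

include hl hG in
theorem rd_dual {ι : Type} {σ : ι → G} (hσ : ∀ i, ∃ ω, Orb hr hs ω₀ ω ∧ ω.1 = σ i)
    (gen : ∀ x, ∃ r, Ball σ r x) (hP : Pres ω₀) : RDb (Ball σ) := by
  let T := dualTC hl hG
  let o : T.Sv := .v ((1 : G) : Qd ω₀)
  have wk : ∀ {x y} (h : T.Ed x y), ∃ p : T.gr.Walk (.v x) (.v y), p.length = 3 := fun h =>
    ⟨.cons (Or.inl (TC.R.vo h)) (.cons (Or.inl (TC.R.oe h h)) (.cons (Or.inl (TC.R.iv h)) .nil)),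
      rfl⟩
  have c1 : ∀ x g : G, T.gr.Reachable (.v (g : Qd ω₀)) (.v (g * x : G)) := by
    refine ball_ind gen (fun g => by rw [mul_one]) fun i x hx => ?_
    obtain ⟨ω, h, e⟩ := hσ i
    rw [← e]
    refine ⟨fun g => ?_, fun g => ?_⟩
    · rw [← mul_assoc]
      exact (wk (dual_ed hl hG h g)).choose.reachable.trans (hx _)
    · have := (wk (dual_ed hl hG h (g * ω.1⁻¹))).choose.reachable.symm
      rw [inv_mul_cancel_right] at this
      rw [← mul_assoc]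
      exact this.trans (hx _)
  have c2 : ∀ x, T.gr.Reachable o (.v x) := by
    rintro ⟨g⟩
    have := c1 g 1
    rwa [one_mul] at this
  have hw : ∀ x, ∃ y, T.Ed x y := by
    rintro ⟨g⟩
    exact ⟨_, dual_ed hl hG .base g⟩
  have c3 : ∀ w, T.gr.Reachable o w := fun w => by
    cases w with
    | v x => exact c2 x
    | o x y h => exact (c2 x).trans (SimpleGraph.Adj.reachable (Or.inl (TC.R.vo h)))
    | i x y h => exact (c2 y).trans (SimpleGraph.Adj.reachable (Or.inr (TC.R.iv h)))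
    | c s h =>
      obtain ⟨x, y, z, h1, h2⟩ := id h
      exact ((c2 x).trans (SimpleGraph.Adj.reachable (Or.inl (TC.R.vo ⟨z, h1⟩)))).trans
        (SimpleGraph.Adj.reachable (Or.inr (TC.R.co _ (by simp [h2]) (by simp [h2]))))
  have hc : T.gr.Connected := (SimpleGraph.connected_iff_exists_forall_reachable _).2 ⟨o, c3⟩
  have S := (loc_of_col hc (fun _ _ => Iff.rfl) (fun _ _ => TC.R.kd) TC.r4).sys
    (TC.sc hc hw (dual_sc hl hG hσ gen hP))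
  have g0 : GRD (Qd ω₀) (Ball σ) := by
    refine grd_orbit (B' := fun r n => n.toAdd.natAbs ≤ r) _
      (fun g => .ofAdd ((ℓ g).toAdd / 3)) (fun g a => ?_) (fun r x g hx h => ?_)
      (RDb.of_growth 2 1 fun r => ?_)
    · have := deg_pr hl a.toAdd
      rw [zpowersHom_apply, map_mul, toAdd_mul, this, Int.add_mul_ediv_left _ _ (by norm_num)]
      rfl
    · have := hx.map (B' := fun r (z : Multiplicative ℤ) => z.toAdd.natAbs ≤ r)
        ⟨fun r x h => by simpa using h, fun r s x y h h' => by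
          rw [toAdd_mul]; exact (Int.natAbs_add_le _ _).trans (add_le_add h h')⟩
        (by simp) ℓ (k := 1) fun i => by
          obtain ⟨ω, h, e⟩ := hσ i
          rw [← e, h.d1 hl]
          rfl
      have h := congrArg Multiplicative.toAdd h
      simp only [toAdd_ofAdd, toAdd_one, map_mul, toAdd_mul] at h ⊢
      omega
    · refine (Set.encard_le_encard_of_injOn (f := Multiplicative.toAdd)
        (t := (Finset.Icc (-(r : ℤ)) r : Finset ℤ)) (fun x hx => ?_)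
        Multiplicative.toAdd.injective.injOn).trans ?_
      · change x.toAdd.natAbs ≤ r at hx
        rw [Finset.mem_coe, Finset.mem_Icc]
        omega
      · rw [Set.encard_coe_eq_coe_finsetCard, Nat.cast_le, Int.card_Icc, pow_one]
        omega
  let an : T.Sv → Set (Qd ω₀) := fun w => match w with
    | .v x => {x}
    | .o x _ _ => {x}
    | .i x _ _ => {x}
    | .c s _ => s
  have g1 : GRD T.Sv (Ball σ) := by
    refine grd_rel (fun w v => v ∈ an w) (fun g w v h => ?_) (fun w => ?_) (n := 3)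
      (fun w => ?_) g0
    · cases w with
      | c s _ => exact Set.smul_mem_smul_set h
      | _ => exact congrArg (g • ·) h
    · cases w with
      | c s h =>
        obtain ⟨x, y, z, -, rfl⟩ := h
        exact ⟨x, Set.mem_insert _ _⟩
      | _ => exact ⟨_, rfl⟩
    · cases w with
      | c s h =>
        obtain ⟨x, y, z, -, rfl⟩ := h
        refine (Set.encard_insert_le _ _).trans ((add_le_add_left (Set.encard_insert_le _ _) _).trans ?_)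
        rw [Set.encard_singleton]
        norm_num
      | _ => exact (Set.encard_singleton _).le.trans (by norm_num)
  have := rd_of_sys S (ty := TC.kd) (fun a b h e => ?_) (TC.d_smul hc)
    (B := fun r x => Ball σ (r / 2) x) ⟨fun r x h => (Ball.isBall σ).inv _ _ h,
      fun r s x y h h' => ((Ball.isBall σ).mul _ _ _ _ h h').mono (by omega)⟩
    (fun r => Ball.one _ _) o (fun r x hx => ?_) (g1.mono fun r x h => h.mono (by omega))
  · exact this.comap (MonoidHom.id _) Function.injective_id 2 fun r x h => h.mono (by omega)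
  · refine ((dist_le_one hc).1 h).resolve_right fun h => ?_
    rcases h with h | h <;> have := h.kd <;> rw [e] at this <;> revert this <;>
      generalize TC.kd b = x <;> revert x <;> decide
  · refine le_trans (hx.map (B' := fun r x => T.gr.dist o (x • o) ≤ r)
      ⟨fun r x h => ?_, fun r s x y h h' => ?_⟩ (by simp) (MonoidHom.id _) (k := 3) fun i => ?_)
      (by omega)
    · rwa [← TC.d_smul hc x, smul_inv_smul, S.symm]
    · rw [← TC.d_smul hc x, ← mul_smul] at h'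
      exact (S.tri _ _ _).trans (add_le_add h h')
    · obtain ⟨ω, h, e⟩ := hσ i
      obtain ⟨p, hp⟩ := wk (dual_ed hl hG h 1)
      have := SimpleGraph.dist_le p
      rw [hp, one_mul, e, ← mul_one (σ i)] at this
      exact this

end

end Pool.Agent.Lib.MP_35cce7_an
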