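import Pool.Agent.Lib.MP_35cce7_an.DuOrb

namespace Pool.Agent.Lib.MP_35cce7_an

open Equiv Real

noncomputable section

def ch (y : ℝ) : ℕ → ℝ
  | 0 => 0
  | 1 => 1
  | n + 2 => y * ch y (n + 1) - ch y n

def cc (p : ℕ) : ℝ := 2 * cos (π / p)

lemma ch_sin (θ : ℝ) : ∀ n : ℕ, ch (2 * cos θ) n * sin θ = sin (n * θ)
  | 0 => by simp [ch]
  | 1 => by simp [ch]
  | n + 2 => by
    have h1 := ch_sin θ n
    have h2 := ch_sin θ (n + 1)
    have h3 := sin_add ((n + 1 : ℕ) * θ) θ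
    have h4 := sin_sub ((n + 1 : ℕ) * θ) θ
    rw [show ((n + 1 : ℕ) : ℝ) * θ + θ = (n + 2 : ℕ) * θ by push_cast; ring] at h3
    rw [show ((n + 1 : ℕ) : ℝ) * θ - θ = n * θ by push_cast; ring] at h4
    rw [ch]
    linear_combination 2 * cos θ * h2 - h1 - h3 - h4

lemma ch_big {y : ℝ} (hy : 2 ≤ y) (n : ℕ) : 0 ≤ ch y n ∧ ch y n + 1 ≤ ch y (n + 1) := by
  induction n with
  | zero => simp [ch]
  | succ n ih => exact ⟨by linarith [ih.1, ih.2], by rw [ch]; nlinarith [ih.1, ih.2]⟩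

lemma ch_big' {y : ℝ} (hy : 2 ≤ y) {n : ℕ} (h : ch y n = 0) : n = 0 := by
  cases n with
  | zero => rfl
  | succ n => linarith [(ch_big hy n).1, (ch_big hy n).2]

lemma sin_pos' {p : ℕ} (hp : 2 ≤ p) : 0 < sin (π / p) := by
  have : (2 : ℝ) ≤ p := by exact_mod_cast hp
  exact sin_pos_of_pos_of_lt_pi (by positivity) (div_lt_self pi_pos (by linarith))

lemma ch_zero {p : ℕ} (hp : 2 ≤ p) (n : ℕ) : ch (cc p) n = 0 ↔ p ∣ n := by
  have h0 : (p : ℝ) ≠ 0 := by positivity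
  rw [← mul_left_inj' (sin_pos' hp).ne', cc, ch_sin, zero_mul, sin_eq_zero_iff]
  constructor
  · rintro ⟨k, hk⟩
    have : (n : ℝ) = p * k := by
      field_simp at hk
      linarith
    exact Int.natCast_dvd_natCast.1 ⟨k, by exact_mod_cast this⟩
  · rintro ⟨k, rfl⟩
    exact ⟨k, by push_cast; field_simp⟩

lemma ch_le {p k n : ℕ} (hp : 2 ≤ p) (h1 : k ≤ n) (h2 : n + k ≤ p) :
    ch (cc p) k ≤ ch (cc p) n := by
  have h0 : (0 : ℝ) < p := by positivity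
  refine le_of_mul_le_mul_right ?_ (sin_pos' hp)
  rw [cc, ch_sin, ch_sin]
  have a0 : 0 < π / p := by positivity
  have a1 : (k : ℝ) ≤ n := by exact_mod_cast h1
  have a2 : (n : ℝ) + k ≤ p := by exact_mod_cast h2
  have a3 : p * (π / p) = π := by field_simp
  have a4 : (0 : ℝ) ≤ k := by positivity
  have := pi_pos
  by_cases h : n * (π / p) ≤ π / 2
  · exact sin_le_sin_of_le_of_le_pi_div_two (by nlinarith) h (by nlinarith)
  · rw [← sin_pi_sub (n * _)]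
    exact sin_le_sin_of_le_of_le_pi_div_two (by nlinarith) (by linarith) (by nlinarith)

lemma ch_last {p : ℕ} (hp : 1 ≤ p) : ch (cc (p + 1)) p = 1 := by
  refine mul_right_cancel₀ (sin_pos' (p := p + 1) (by omega)).ne' ?_
  rw [cc, ch_sin, one_mul, ← sin_pi_sub]
  congr 1
  push_cast
  field_simp
  ring

lemma cc_mono {p q : ℕ} (hp : 2 ≤ p) (h : p ≤ q) : cc p ≤ cc q := by
  have a1 : (2 : ℝ) ≤ p := by exact_mod_cast hp
  have a2 : (p : ℝ) ≤ q := by exact_mod_cast h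
  have := pi_pos
  refine mul_le_mul_of_nonneg_left (cos_le_cos_of_nonneg_of_le_pi (by positivity)
    (div_le_self this.le (by linarith)) (by gcongr)) (by norm_num)

lemma cc_two : cc 2 = 0 := by simp [cc]

lemma cc_three : cc 3 = 1 := by simp [cc]

lemma cc_four : cc 4 ^ 2 = 2 := by
  simp only [cc, Nat.cast_ofNat, cos_pi_div_four]
  nlinarith [sq_sqrt (show (0 : ℝ) ≤ 2 by norm_num)]

lemma cc_five : cc 5 ^ 2 = cc 5 + 1 := by
  simp only [cc, Nat.cast_ofNat, cos_pi_div_five]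
  nlinarith [sq_sqrt (show (0 : ℝ) ≤ 5 by norm_num)]

lemma cc_six : cc 6 ^ 2 = 3 := by
  simp only [cc, Nat.cast_ofNat, cos_pi_div_six]
  nlinarith [sq_sqrt (show (0 : ℝ) ≤ 3 by norm_num)]

lemma cc_le (p : ℕ) : cc p ≤ 2 := by
  have := cos_le_one (π / p)
  rw [cc]
  linarith

lemma cc_one {p : ℕ} (h : 3 ≤ p) : 1 ≤ cc p := cc_three ▸ cc_mono (by norm_num) h

lemma cc_sq {k p : ℕ} (hk : 3 ≤ k) (h : k ≤ p) : cc k ^ 2 ≤ cc p ^ 2 := by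
  have := cc_one hk
  have := cc_mono (by omega) h
  gcongr

variable {Ω : Type} {ρ σ : Perm Ω} {Val : Ω → ℝ → ℝ → ℝ → Prop}

structure Mk (ρ σ : Perm Ω) (Val : Ω → ℝ → ℝ → ℝ → Prop) : Prop where
  rel : σ * ρ * σ = ρ * ρ
  r : ∀ {ω x y z}, Val ω x y z → Val (ρ ω) y z x
  r' : ∀ {ω x y z}, Val ω x y z → Val (ρ⁻¹ ω) z x y
  s : ∀ {ω x y z}, Val ω x y z → Val (σ ω) (x * y - z) y x
  u : ∀ {ω x y z x' y'}, Val ω x y z → Val ω x' y' 0 → z = 0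

structure Half (ρ σ : Perm Ω) (Val : Ω → ℝ → ℝ → ℝ → Prop) (p q : ℕ) (a b : Ω) : Prop where
  h : ρ a = σ (ρ b)
  per : (σ ^ p) a = a
  val : Val a (cc q) (cc p) 0
  le : 3 ≤ p

inductive Out (ρ σ : Perm Ω) (Val : Ω → ℝ → ℝ → ℝ → Prop) (F : Ω → Prop) : Ω → Prop
  | base {ω x y z} : F ω → Val ω x y z → 2 ≤ x → y ≤ 2 → 2 ≤ z → Out ρ σ Val F (ρ (σ (ρ (ρ ω))))
  | c1 {ω} : Out ρ σ Val F ω → Out ρ σ Val F (ρ (σ (ρ ω)))
  | c2 {ω} : Out ρ σ Val F ω → Out ρ σ Val F (ρ (σ (ρ (ρ ω))))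

def All (ρ σ : Perm Ω) (Val : Ω → ℝ → ℝ → ℝ → Prop) (F : Ω → Prop) (ω : Ω) : Prop :=
  ∃ (k : ℤ) (ω' : Ω), ω = (ρ ^ k) ω' ∧ (F ω' ∨ Out ρ σ Val F ω')

namespace Mk

variable (K : Mk ρ σ Val)
include K

lemma z0 (j : ℤ) : σ * ρ ^ (3 * j) = ρ ^ (3 * j) * σ := by
  have : Commute σ (ρ ^ (3 : ℤ)) := by
    have h := K.rel
    change σ * (ρ * (ρ * ρ)) = ρ * ρ * ρ * σ
    nth_rw 1 [← h]
    rw [← h]
    simp only [mul_assoc]
  rw [zpow_mul]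
  exact this.zpow_right j

lemma z1 (j : ℤ) : σ * ρ ^ (3 * j + 1) = ρ ^ (3 * j + 2) * σ⁻¹ := by
  rw [zpow_add_one, ← mul_assoc, K.z0, zpow_add, zpow_two, ← K.rel]
  group

lemma a0 (j : ℤ) (ω) : σ ((ρ ^ (3 * j)) ω) = (ρ ^ (3 * j)) (σ ω) := congrArg (· ω) (K.z0 j)

lemma a1 (j : ℤ) (ω) : σ ((ρ ^ (3 * j + 1)) ω) = (ρ ^ (3 * j + 2)) (σ⁻¹ ω) :=
  congrArg (· ω) (K.z1 j)

lemma v3 {ω x y z} (h : Val ω x y z) (j : ℤ) : Val ((ρ ^ (3 * j)) ω) x y z := by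
  induction j using Int.induction_on with
  | zero => exact h
  | succ k ih => rw [mul_add, add_comm, zpow_add]; exact K.r (K.r (K.r ih))
  | pred k ih => rw [mul_sub, sub_eq_add_neg, add_comm, zpow_add]; exact K.r' (K.r' (K.r' ih))

lemma out_val {F ω} (h : Out ρ σ Val F ω) :
    ∃ x y z, Val ω x y z ∧ 2 ≤ x ∧ 2 ≤ y ∧ x ≤ z ∧ y ≤ z := by
  induction h with
  | base _ v h1 h2 h3 =>
    exact ⟨_, _, _, K.r (K.s (K.r (K.r v))), h1, h3, by nlinarith, by nlinarith⟩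
  | c1 _ ih =>
    obtain ⟨x, y, z, v, h1, h2, h3, h4⟩ := ih
    exact ⟨_, _, _, K.r (K.s (K.r v)), by linarith, h2, by nlinarith, by nlinarith⟩
  | c2 _ ih =>
    obtain ⟨x, y, z, v, h1, h2, h3, h4⟩ := ih
    exact ⟨_, _, _, K.r (K.s (K.r (K.r v))), h1, by linarith, by nlinarith, by nlinarith⟩

omit K in
lemma all_z {F ω} (h : All ρ σ Val F ω) (k : ℤ) : All ρ σ Val F ((ρ ^ k) ω) := by
  obtain ⟨j, ω', rfl, h⟩ := h
  exact ⟨k + j, ω', by rw [zpow_add]; rfl, h⟩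

lemma all_orb {F : Ω → Prop} {ω₀} (h0 : F ω₀) (h1 : ∀ ω, F ω → F (σ ω) ∧ F (σ⁻¹ ω))
    (h2 : ∀ ω, F ω → (∃ x y z, Val ω x y z ∧ 2 ≤ x ∧ y ≤ 2 ∧ 2 ≤ z) ∨
      ∃ (k : ℤ) (ω' : Ω), ω = (ρ ^ k) ω' ∧ F ω' ∧ k % 3 ≠ 0) {ω} (o : Orb ρ σ ω₀ ω) :
    All ρ σ Val F ω := by
  have b : ∀ ω, F ω ∨ Out ρ σ Val F ω → All ρ σ Val F ω := fun ω h => ⟨0, ω, rfl, h⟩
  have f : ∀ ω (k : ℤ), F ω → k % 3 ≠ 2 → All ρ σ Val F (σ ((ρ ^ k) ω)) := fun ω k h hk => by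
    obtain ⟨j, rfl | rfl⟩ : ∃ j, k = 3 * j ∨ k = 3 * j + 1 := ⟨k / 3, by omega⟩
    · rw [K.a0]
      exact all_z (b _ (Or.inl (h1 _ h).1)) _
    · rw [K.a1]
      exact all_z (b _ (Or.inl (h1 _ h).2)) _
  have g : ∀ ω, All ρ σ Val F (ρ ω) → All ρ σ Val F ω := fun ω h => by
    simpa using all_z h (-1)
  have e : ∀ ω, σ (ρ (σ ω)) = (ρ ^ (2 : ℤ)) ω := fun ω => congrArg (· ω) K.rel
  induction o with
  | base => exact b _ (Or.inl h0)
  | r _ ih => simpa using all_z ih 1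
  | r' _ ih => simpa using all_z ih (-1)
  | s _ ih =>
    obtain ⟨k, ω, rfl, h⟩ := ih
    obtain ⟨j, i, rfl, hi⟩ : ∃ j i, k = 3 * j + i ∧ (i = 0 ∨ i = 1 ∨ i = 2) :=
      ⟨k / 3, k % 3, by omega, by omega⟩
    rw [zpow_add, Perm.mul_apply, K.a0]
    refine all_z ?_ _
    rcases h with h | h
    · rcases hi with rfl | rfl | rfl
      · exact f _ _ h (by norm_num)
      · exact f _ _ h (by norm_num)
      · rcases h2 ω h with ⟨x, y, z, v, a1, a2, a3⟩ | ⟨k, ω, rfl, h, hk⟩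
        · exact g _ (b _ (Or.inr (Out.base h v a1 a2 a3)))
        · rw [← Perm.mul_apply (ρ ^ _), ← zpow_add]
          exact f _ _ h (by omega)
    · rcases hi with rfl | rfl | rfl
      · change All ρ σ Val F (σ ω)
        cases h with
        | base h => rw [e]; exact all_z (all_z (b _ (Or.inl h)) 2) 2
        | c1 h => rw [e]; exact all_z (all_z (b _ (Or.inr h)) 1) 2
        | c2 h => rw [e]; exact all_z (all_z (b _ (Or.inr h)) 2) 2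
      · exact g _ (b _ (Or.inr h.c1))
      · exact g _ (b _ (Or.inr h.c2))

variable {p q : ℕ} {a b : Ω}

omit K in
lemma per (H : Half ρ σ Val p q a b) (n j : ℤ) : (σ ^ (n + p * j)) a = (σ ^ n) a := by
  rw [zpow_add, Perm.mul_apply, zpow_mul, zpow_natCast,
    Function.IsFixedPt.perm_zpow (e := σ ^ p) H.per]

lemma i0 (H : Half ρ σ Val p q a b) : a = (ρ ^ (1 : ℤ)) ((σ ^ (-1 : ℤ)) b) := by
  apply ρ.injective
  rw [H.h]
  exact K.a1 0 b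

lemma i1 (H : Half ρ σ Val p q a b) : (σ ^ (1 : ℤ)) a = (ρ ^ (2 : ℤ)) ((σ ^ (-2 : ℤ)) b) := by
  rw [K.i0 H]
  exact K.a1 0 _

lemma i2 (H : Half ρ σ Val p q a b) : (σ ^ (-1 : ℤ)) b = (ρ ^ (-1 : ℤ)) a := by
  rw [K.i0 H]
  exact (ρ.symm_apply_apply _).symm

lemma i3 (H : Half ρ σ Val p q a b) : (σ ^ (-2 : ℤ)) b = (ρ ^ (-2 : ℤ)) ((σ ^ (1 : ℤ)) a) := by
  rw [K.i1 H, ← Perm.mul_apply, ← zpow_add]
  rfl

lemma i4 (H : Half ρ σ Val p 3 a b) (H' : Half ρ σ Val 3 p b a) :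
    (σ ^ (1 : ℤ)) a = (ρ ^ (4 : ℤ)) ((σ ^ (-2 : ℤ)) a) := by
  rw [K.i1 H, ← per H' (-2) 1, show (-2 + (3 : ℕ) * 1 : ℤ) = 1 from rfl, K.i1 H',
    ← Perm.mul_apply, ← zpow_add]
  rfl

lemma i5 (H : Half ρ σ Val p 3 a b) (H' : Half ρ σ Val 3 p b a) :
    (σ ^ (2 : ℤ)) a = (ρ ^ (5 : ℤ)) ((σ ^ (-3 : ℤ)) a) :=
  (congrArg σ (K.i4 H H')).trans (K.a1 1 _)

lemma fan_val (H : Half ρ σ Val p q a b) (n : ℕ) :
    Val ((σ ^ n) a) (cc q * ch (cc p) (n + 1)) (cc p) (cc q * ch (cc p) n) := by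
  induction n with
  | zero => simpa [ch] using H.val
  | succ n ih =>
    have := K.s ih
    rwa [show cc q * ch (cc p) (n + 1) * cc p - cc q * ch (cc p) n = cc q * ch (cc p) (n + 1 + 1) by
      rw [ch]; ring, ← Perm.mul_apply, ← pow_succ'] at this

omit K in
lemma fan_nat (H : Half ρ σ Val p q a b) (n : ℤ) : ∃ m : ℕ, m < p ∧ (σ ^ n) a = (σ ^ m) a := by
  have := H.le
  refine ⟨(n % p).toNat, ?_, ?_⟩
  · have := Int.emod_lt_of_pos n (show (0 : ℤ) < p by omega)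
    omega
  · rw [← zpow_natCast, Int.toNat_of_nonneg (Int.emod_nonneg _ (by omega)), ← per H (n % p) (n / p),
      Int.emod_add_mul_ediv]

lemma fan (H : Half ρ σ Val p q a b) (H' : Half ρ σ Val q p b a) (n : ℤ) :
    (∃ x y z, Val ((σ ^ n) a) x y z ∧ 2 ≤ x ∧ y ≤ 2 ∧ 2 ≤ z) ∨ ∃ (k : ℤ) (ω' : Ω),
      (σ ^ n) a = (ρ ^ k) ω' ∧ (∃ n : ℤ, ω' = (σ ^ n) a ∨ ω' = (σ ^ n) b) ∧ k % 3 ≠ 0 := by
  obtain ⟨m, hm, e⟩ := fan_nat H n
  have hp := H.le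
  have hq := H'.le
  rw [e]
  have neg : ∀ i : ℕ, m + i = p → (σ ^ m) a = (σ ^ (-i : ℤ)) a := fun i h => by
    rw [← per H (-i) 1, ← zpow_natCast]
    congr 2
    omega
  by_cases h0 : m = 0
  · exact Or.inr ⟨1, _, by subst h0; exact K.i0 H, ⟨_, Or.inr rfl⟩, by norm_num⟩
  by_cases h1 : m = 1
  · exact Or.inr ⟨2, _, by subst h1; exact K.i1 H, ⟨_, Or.inr rfl⟩, by norm_num⟩
  by_cases h2 : m + 1 = p
  · exact Or.inr ⟨-1, _, (neg 1 h2).trans (K.i2 H'), ⟨0, Or.inr rfl⟩, by norm_num⟩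
  by_cases h3 : m + 2 = p
  · exact Or.inr ⟨-2, _, (neg 2 h3).trans (K.i3 H'), ⟨_, Or.inr rfl⟩, by norm_num⟩
  rcases hq.eq_or_lt with rfl | hq
  · by_cases h4 : m = 2
    · exact Or.inr ⟨5, _, by subst h4; exact K.i5 H H', ⟨_, Or.inl rfl⟩, by norm_num⟩
    by_cases h5 : m + 3 = p
    · refine Or.inr ⟨-5, _, (neg 3 h5).trans ?_, ⟨2, Or.inl rfl⟩, by norm_num⟩
      rw [K.i5 H H', ← Perm.mul_apply, ← zpow_add]
      rfl
    have a1 : ∀ n, 3 ≤ n → n + 3 ≤ p → 2 ≤ cc 3 * ch (cc p) n := fun n b1 b2 => by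
      have c1 := ch_le (by omega) b1 b2
      have c2 := cc_sq (k := 6) (p := p) (by norm_num) (by omega)
      rw [cc_six] at c2
      simp only [ch] at c1
      rw [cc_three]
      nlinarith
    exact Or.inl ⟨_, _, _, K.fan_val H m, a1 _ (by omega) (by omega), cc_le _,
      a1 _ (by omega) (by omega)⟩
  · have a1 : ∀ n, 2 ≤ n → n + 2 ≤ p → 2 ≤ cc q * ch (cc p) n := fun n b1 b2 => by
      have c1 := ch_le (by omega) b1 b2
      have c2 := cc_mono (p := 4) (q := p) (by norm_num) (by omega)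
      have c3 := cc_mono (p := 4) (q := q) (by norm_num) (by omega)
      have c4 := cc_one (p := 4) (by norm_num)
      simp only [ch] at c1
      calc (2 : ℝ) = cc 4 * cc 4 := by rw [← sq, cc_four]
        _ ≤ _ := mul_le_mul c3 (by linarith) (by linarith) (by linarith)
    exact Or.inl ⟨_, _, _, K.fan_val H m, a1 _ (by omega) (by omega), cc_le _,
      a1 _ (by omega) (by omega)⟩

lemma fan_zero (H : Half ρ σ Val p q a b) (H' : Half ρ σ Val q p b a) {n k : ℤ} {x y}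
    (v : Val ((ρ ^ k) ((σ ^ n) a)) x y 0) :
    ∃ j : ℤ, (ρ ^ k) ((σ ^ n) a) = (ρ ^ (3 * j)) a ∨ (ρ ^ k) ((σ ^ n) a) = (ρ ^ (3 * j)) b := by
  obtain ⟨m, hm, e⟩ := fan_nat H n
  have hp := H.le
  have c1 := cc_one hp
  have c2 := cc_one H'.le
  have w := K.fan_val H m
  rw [e] at v ⊢
  obtain ⟨j, rfl | rfl | rfl⟩ : ∃ j, k = 3 * j ∨ k = 3 * j + 1 ∨ k = 3 * j + 2 :=
    ⟨k / 3, by omega⟩
  · have := (ch_zero (by omega) _).1
      ((mul_eq_zero.1 (K.u (K.v3 w j) v)).resolve_left (by linarith))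
    obtain rfl := Nat.eq_zero_of_dvd_of_lt this hm
    exact ⟨j, Or.inl rfl⟩
  · rw [zpow_add_one, Perm.mul_apply] at v ⊢
    have := (ch_zero (by omega) _).1
      ((mul_eq_zero.1 (K.u (K.v3 (K.r w) j) v)).resolve_left (by linarith))
    have := Nat.le_of_dvd (by omega) this
    refine ⟨j, Or.inr (congrArg _ ?_)⟩
    rw [← zpow_natCast, show (m : ℤ) = -1 + p * 1 by omega, per H, K.i2 H']
    exact ρ.apply_symm_apply b
  · rw [zpow_add, Perm.mul_apply] at v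
    have := K.u (K.v3 (K.r (K.r w)) j) v
    linarith

theorem zero (H : Half ρ σ Val p q a b) (H' : Half ρ σ Val q p b a) {ω x y} (o : Orb ρ σ a ω)
    (v : Val ω x y 0) : ∃ j : ℤ, ω = (ρ ^ (3 * j)) a ∨ ω = (ρ ^ (3 * j)) b := by
  obtain ⟨k, ω, rfl, h⟩ := K.all_orb (F := fun ω => ∃ n : ℤ, ω = (σ ^ n) a ∨ ω = (σ ^ n) b)
    ⟨0, Or.inl rfl⟩ (fun ω ⟨n, h⟩ => ⟨⟨1 + n, by
      rw [zpow_one_add]; exact h.imp (congrArg σ) (congrArg σ)⟩, ⟨-1 + n, by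
      rw [zpow_add, zpow_neg_one]; exact h.imp (congrArg _) (congrArg _)⟩⟩) (by
      rintro _ ⟨n, rfl | rfl⟩
      · exact K.fan H H' n
      · exact (K.fan H' H n).imp id fun ⟨k, ω, h1, h2, h3⟩ =>
          ⟨k, ω, h1, h2.imp fun _ h => h.symm, h3⟩) o
  rcases h with ⟨n, rfl | rfl⟩ | h
  · exact K.fan_zero H H' v
  · exact (K.fan_zero H' H v).imp fun _ h => h.symm
  · obtain ⟨x, y, z, w, h1, h2, h3, h4⟩ := K.out_val h
    obtain ⟨j, rfl | rfl | rfl⟩ : ∃ j, k = 3 * j ∨ k = 3 * j + 1 ∨ k = 3 * j + 2 :=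
      ⟨k / 3, by omega⟩
    · linarith [K.u (K.v3 w j) v]
    · rw [zpow_add_one, Perm.mul_apply] at v
      linarith [K.u (K.v3 (K.r w) j) v]
    · rw [zpow_add, Perm.mul_apply] at v
      linarith [K.u (K.v3 (K.r (K.r w)) j) v]

lemma cen (j n : ℤ) (ω) : (ρ ^ (3 * j)) ((σ ^ n) ω) = (σ ^ n) ((ρ ^ (3 * j)) ω) :=
  congrArg (· ω) ((Commute.zpow_left (K.z0 j) n).symm)

theorem fin (H : Half ρ σ Val p q a b) (H' : Half ρ σ Val q p b a) (hq : q ≤ p) {j : ℤ}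
    (hj : ch (cc p ^ 2 + cc q ^ 2 - 2) j.natAbs = 0) {ω} (h : ω = a ∨ ω = b) :
    (ρ ^ (3 * j)) ω = a ∨ (ρ ^ (3 * j)) ω = b := by
  have key : ∀ m : ℕ, 2 ≤ m → cc p ^ 2 + cc q ^ 2 - 2 = cc m →
      ((ρ ^ (3 * m : ℤ)) a = a ∧ (ρ ^ (3 * m : ℤ)) b = b ∨
        (ρ ^ (3 * m : ℤ)) a = b ∧ (ρ ^ (3 * m : ℤ)) b = a) →
      (ρ ^ (3 * j)) ω = a ∨ (ρ ^ (3 * j)) ω = b := fun m h1 h2 h3 => by
    rw [h2, ch_zero h1, ← Int.natCast_dvd] at hj
    obtain ⟨i, rfl⟩ := hj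
    rw [← mul_assoc, zpow_mul]
    generalize ρ ^ (3 * m : ℤ) = e at h3
    induction i using Int.induction_on with
    | zero => exact h
    | succ k ih =>
      rw [add_comm, zpow_one_add, Perm.mul_apply]
      rcases ih with ih | ih <;> rw [ih] <;> tauto
    | pred k ih =>
      rw [sub_eq_add_neg, add_comm, zpow_add, zpow_neg_one, Perm.mul_apply, Perm.inv_eq_iff_eq,
        Perm.inv_eq_iff_eq]
      rcases ih with ih | ih <;> rw [ih] <;> tauto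
  have big : 4 ≤ cc p ^ 2 + cc q ^ 2 → (ρ ^ (3 * j)) ω = a ∨ (ρ ^ (3 * j)) ω = b := fun h4 => by
    obtain rfl := Int.natAbs_eq_zero.1 (ch_big' (by linarith) hj)
    exact h
  have fx : ∀ m n : ℤ, (ρ ^ (3 * m)) ((σ ^ n) a) = (σ ^ n) a →
      (ρ ^ (3 * m)) a = a ∧ (ρ ^ (3 * m)) b = b := fun m n e => by
    rw [K.cen, (σ ^ n).injective.eq_iff] at e
    refine ⟨e, ?_⟩
    rw [K.i0 H', ← Perm.mul_apply, zpow_mul_comm, Perm.mul_apply, K.cen, e]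
  rcases H'.le.eq_or_lt with rfl | h4
  · by_cases h6 : 6 ≤ p
    · have := cc_sq (by norm_num) h6
      rw [cc_six] at this
      exact big (by rw [cc_three]; linarith)
    have i4 := K.i4 H H'
    have i5 := K.i5 H H'
    obtain rfl | rfl | rfl : p = 3 ∨ p = 4 ∨ p = 5 := by omega
    · have j4 := K.i4 H' H
      have k1 := K.i1 H
      have k2 := K.i1 H'
      rw [← per H (-2) 1, show (-2 + (3 : ℕ) * 1 : ℤ) = 1 from rfl] at i4 k2
      rw [← per H' (-2) 1, show (-2 + (3 : ℕ) * 1 : ℤ) = 1 from rfl] at j4 k1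
      refine key 2 le_rfl (by rw [cc_three, cc_two]; norm_num) (Or.inr ⟨?_, ?_⟩)
      · apply (σ ^ (1 : ℤ)).injective
        rw [← K.cen, k1, ← Perm.mul_apply, ← zpow_add]
        exact (congrArg (ρ ^ (4 : ℤ) : Perm Ω) j4.symm).trans j4.symm
      · apply (σ ^ (1 : ℤ)).injective
        rw [← K.cen, k2, ← Perm.mul_apply, ← zpow_add]
        exact (congrArg (ρ ^ (4 : ℤ) : Perm Ω) i4.symm).trans i4.symm
    · rw [← per H (-2) 1, show (-2 + (4 : ℕ) * 1 : ℤ) = 2 from rfl] at i4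
      rw [← per H (-3) 1, show (-3 + (4 : ℕ) * 1 : ℤ) = 1 from rfl] at i5
      refine key 3 (by norm_num) (by rw [cc_three, cc_four]; norm_num) (Or.inl (fx _ 1 ?_))
      exact (congrArg (ρ ^ (4 : ℤ) : Perm Ω) i5.symm).trans i4.symm
    · rw [← per H (-3) 1, show (-3 + (5 : ℕ) * 1 : ℤ) = 2 from rfl] at i5
      refine key 5 (by norm_num) (by rw [cc_three, cc_five]; ring) (Or.inl (fx _ 2 ?_))
      exact (congrArg (ρ ^ (5 : ℤ) : Perm Ω) ((congrArg (ρ ^ (5 : ℤ) : Perm Ω) i5.symm).trans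
        i5.symm)).trans i5.symm
  · have c1 := cc_sq (k := 4) (by norm_num) h4
    have c2 := cc_sq (k := 4) (p := p) (by norm_num) (by omega)
    rw [cc_four] at c1 c2
    exact big (by linarith)

end Mk

end

end Pool.Agent.Lib.MP_35cce7_an
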