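import Pool.Agent.Lib.MP_35cce7_an.SysArt

namespace Pool.Agent.Lib.MP_35cce7_an

lemma z3_four (a b c d : ZMod 3) (h1 : c = a ∨ c = a + 1) (h2 : c = b ∨ c = b + 1)
    (h3 : d = b ∨ d = b + 1) (h4 : d = a ∨ d = a + 1) : a = b ∨ c = d := by
  rcases h1 with rfl | rfl <;> rcases h4 with rfl | rfl <;> first
    | exact Or.inr rfl
    | (revert h2 h3; revert b; first | (revert a; decide) | (revert c; decide) | (revert d; decide))

noncomputable section

open Classical ENNReal Pointwise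

lemma grd_rel {G V W : Type} [Group G] [MulAction G V] [MulAction G W] {B : ℕ → G → Prop}
    (ρ : W → V → Prop) (h1 : ∀ (g : G) w v, ρ w v → ρ (g • w) (g • v)) (h2 : ∀ w, ∃ v, ρ w v)
    {n : ℕ} (h3 : ∀ w, {v | ρ w v}.encard ≤ n) (h : GRD V B) : GRD W B := by
  obtain ⟨C, s, h⟩ := h
  refine ⟨C * n ^ 3, s, fun r F E H hF => ?_⟩
  let cut : (W × G → ℝ≥0∞) → V × G → W → ℝ≥0∞ := fun F p w => if ρ w p.1 then F (w, p.2) else 0
  let N : (W × G → ℝ≥0∞) → V × G → ℝ≥0∞ := fun F p => nrm (cut F p)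
  have nc : ∀ F, nrm (N F) ≤ n * nrm F := fun F => by
    rw [nrm_prod fun p : (V × G) × W => cut F p.1 p.2]
    refine le_trans (nrm_inj (fun p => ((p.2, p.1.2), p.1.1)) ?_ fun _ => le_rfl)
      (nrm_cut' (p := fun (q : W × G) v => ρ q.1 v) (fun _ => h3 _) F)
    rintro ⟨⟨a, b⟩, c⟩ ⟨⟨a', b'⟩, c'⟩ e
    simp only [Prod.mk.injEq] at e ⊢
    tauto
  choose μ hμ using h2
  calc _ ≤ ∑' p : (V × G × G) × W, cut F (p.1.1, p.1.2.1) p.2 *
        cut E (p.1.2.1⁻¹ • p.1.1, p.1.2.2) (p.1.2.1⁻¹ • p.2) *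
          cut H (p.1.1, p.1.2.1 * p.1.2.2) p.2 := by
        refine tsum_inj (fun p => ((μ p.1, p.2), p.1))
          (fun p q e => Prod.ext (congrArg (·.2) e) (congrArg (·.1.2) e)) ?_
        rintro ⟨w, x, y⟩
        simp only [cut, hμ, h1 _ _ _ (hμ w), if_true, le_refl]
    _ ≤ ∑' p : V × G × G, N F (p.1, p.2.1) * N E (p.2.1⁻¹ • p.1, p.2.2) *
        N H (p.1, p.2.1 * p.2.2) := by
        rw [ENNReal.tsum_prod']
        refine ENNReal.tsum_le_tsum fun p => ?_
        have a1 : ∀ w, cut H (p.1, p.2.1 * p.2.2) w ≤ N H (p.1, p.2.1 * p.2.2) := fun w =>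
          le_of_sq (by rw [nrm_sq]; exact ENNReal.le_tsum w)
        refine (ENNReal.tsum_le_tsum fun w => mul_le_mul_right (a1 w) _).trans ?_
        rw [ENNReal.tsum_mul_right]
        refine mul_le_mul_left ((cs _ _).trans (mul_le_mul_right ?_ _)) _
        exact nrm_inj (fun w => p.2.1⁻¹ • w) (MulAction.injective _) fun _ => le_rfl
    _ ≤ C * (1 + r) ^ s * (n * nrm F * (n * nrm E) * (n * nrm H)) := by
        refine (h r _ _ _ fun p hp => by_contra fun e => hp ?_).trans (mul_le_mul_right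
          (mul_le_mul' (mul_le_mul' (nc F) (nc E)) (nc H)) _)
        refine le_antisymm (nrm_le (le_of_eq ?_)) zero_le
        have : ∀ a, F (a, p.2) = 0 := fun a => by_contra fun e' => e (hF _ e')
        simp [cut, this]
    _ = _ := by push_cast; ring

lemma GRD.mono {G V : Type} [Group G] [MulAction G V] {B B' : ℕ → G → Prop} (h : GRD V B)
    (hB : ∀ r x, B' r x → B r x) : GRD V B' :=
  h.imp fun _ h => h.imp fun _ h r F E H hF => h r F E H fun p hp => hB _ _ (hF p hp)

lemma dist_le_one {W : Type} {X : SimpleGraph W} (h : X.Connected) {a b : W} :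
    X.dist a b ≤ 1 ↔ a = b ∨ X.Adj a b := by
  rw [← h.dist_eq_zero_iff, ← SimpleGraph.dist_eq_one_iff_adj]
  omega

lemma loc_of_col {W : Type} {X : SimpleGraph W} (hX : X.Connected) {R : W → W → Prop}
    {k : W → ZMod 3} (ha : ∀ a b, X.Adj a b ↔ R a b ∨ R b a) (hk : ∀ a b, R a b → k b = k a + 1)
    (h4 : ∀ w a b c e, R w a → R a b → R b w → R w c → R c b → R c e → R e w → R a e →
      a = c ∨ b = e) : Loc X.dist fun w a => some (decide (k a = k w + 1)) := by
  have d1 := @SimpleGraph.dist_eq_one_iff_adj W X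
  have dl := @dist_le_one W X hX
  have z1 : ∀ a : ZMod 3, a + 1 + 1 ≠ a := by decide
  have z2 : ∀ a : ZMod 3, a + 1 ≠ a := by decide
  have z3 : ∀ a b : ZMod 3, a + 1 = b + 1 + 1 + 1 + 1 → a = b := by decide
  have z4 : ∀ a : ZMod 3, a + 1 + 1 + 1 = a := by decide
  have same : ∀ w a b, X.Adj w a → X.Adj w b → X.Adj a b →
      decide (k a = k w + 1) = decide (k b = k w + 1) → False := fun w a b h1 h2 h3 e => by
    rw [decide_eq_decide] at e
    rcases (ha _ _).1 h1 with h1 | h1 <;> rcases (ha _ _).1 h2 with h2 | h2 <;>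
      rcases (ha _ _).1 h3 with h3 | h3 <;> have h1 := hk _ _ h1 <;> have h2 := hk _ _ h2 <;>
      have h3 := hk _ _ h3 <;> revert e h1 h2 h3 <;> generalize k w = x <;> generalize k a = y <;>
      generalize k b = z <;> revert x y z <;> decide
  have tri : ∀ w a b, R w a → X.Adj w b → X.Adj a b → R a b ∧ R b w := fun w a b h1 h2 h3 => by
    have h1 := hk _ _ h1
    rcases (ha _ _).1 h2 with h2 | h2 <;> rcases (ha _ _).1 h3 with h3 | h3 <;>
      first
      | exact ⟨h3, h2⟩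
      | (have h2 := hk _ _ h2
         have h3 := hk _ _ h3
         exfalso
         revert h1 h2 h3
         generalize k w = x
         generalize k a = y
         generalize k b = z
         revert x y z
         decide)
  have tri' : ∀ w a b, R a w → X.Adj w b → X.Adj a b → R w b := fun w a b h1 h2 h3 =>
    (tri a w b h1 h3 h2).1
  have key : ∀ w a b c e, R w a → X.Adj w b → X.Adj w c → X.Adj w e → X.Adj a b → X.Adj b c →
      X.Adj c e → X.Adj e a → a = c ∨ b = e := fun w a b c e h1 h2 h3 h5 h6 h7 h8 h9 => by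
    obtain ⟨a1, a2⟩ := tri w a b h1 h2 h6
    obtain ⟨a3, a4⟩ := tri w a e h1 h5 h9.symm
    have a5 := tri' w b c a2 h3 h7
    exact h4 w a b c e h1 a1 a2 a5 (tri w c b a5 h2 h7.symm).1 (tri w c e a5 h5 h8).1 a4 a3
  refine { met_of_graph X hX with k0 := fun h => by simp at h, k1 := ?_, k2 := ?_, l4 := ?_ }
  · intro w a b c i e1 e2 h1 h2 _ h4 h5
    rcases dl.1 h4 with rfl | h4
    · exact h5
    · exact (same w a b (d1.1 h1) (d1.1 h2) h4 (Option.some.inj (e1.trans e2.symm))).elim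
  · intro b a a' i e1 e2 h1 h2 h3
    exact (same b a a' (d1.1 h1) (d1.1 h2) (d1.1 h3) (Option.some.inj (e1.trans e2.symm))).elim
  · intro w a b c e h1 h2 h3 h5 h6 h7 h8 h9
    have sy := @SimpleGraph.dist_comm W X
    rcases dl.1 h6 with rfl | h6
    · exact Or.inl h7
    rcases dl.1 h7 with rfl | h7
    · exact Or.inr h8
    rcases dl.1 h8 with rfl | h8
    · exact Or.inl (sy ▸ h9)
    rcases dl.1 h9 with rfl | h9
    · exact Or.inr (dl.2 (Or.inr h6.symm))
    rw [d1] at h1 h2 h3 h5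
    rcases (ha _ _).1 h1 with g | g
    · exact (key w a b c e g h2 h3 h5 h6 h7 h8 h9).imp (fun h => dl.2 (Or.inl h))
        fun h => dl.2 (Or.inl h)
    · exact (key w b c e a (tri' w a b g h2 h6) h3 h5 h1 h7 h8 h9 h6).symm.imp
        (fun h => dl.2 (Or.inl h.symm)) fun h => dl.2 (Or.inl h)

lemma sc_of_strict {V : Type} {d : V → V → ℕ}
    (h : ∀ (U : Type) (f : U → V) (N : U → U → Prop), Cov d f N →
      (∀ p q, N p q → f p = f q → p = q) →
      ∀ p q, Relation.ReflTransGen N p q → f p = f q → p = q) : SC d := by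
  intro U f N C p q hpq hf
  have tr : ∀ {p p' u}, N p p' → f p = f p' → N p u → N p' u := fun h e h' =>
    C.loc h h' (e ▸ C.hom h')
  let s : Setoid U := ⟨fun p q => N p q ∧ f p = f q, fun p => ⟨C.refl p, rfl⟩,
    fun h => ⟨C.symm h.1, h.2.symm⟩,
    fun h h' => ⟨tr (C.symm h.1) h.2.symm h'.1, h.2.trans h'.2⟩⟩
  let f' : Quotient s → V := Quotient.lift f fun _ _ h => h.2
  let N' : Quotient s → Quotient s → Prop := Quotient.lift₂ N fun a b a' b' h h' => propext
    ⟨fun e => C.symm (tr h'.1 h'.2 (C.symm (tr h.1 h.2 e))), fun e =>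
      C.symm (tr (C.symm h'.1) h'.2.symm (C.symm (tr (C.symm h.1) h.2.symm e)))⟩
  have C' : Cov d f' N' := by
    constructor
    · rintro ⟨p⟩
      exact C.refl p
    · rintro ⟨p⟩ ⟨q⟩
      exact C.symm
    · rintro ⟨p⟩ ⟨q⟩
      exact C.hom
    · rintro ⟨p⟩ ⟨q⟩ ⟨r⟩
      exact C.loc
    · rintro ⟨p⟩ z hz
      obtain ⟨q, h1, h2⟩ := C.lift (p := p) hz
      exact ⟨⟦q⟧, h1, h2⟩
  have := h _ f' N' C' (by
    rintro ⟨p⟩ ⟨q⟩ h1 h2
    exact Quotient.sound ⟨h1, h2⟩) ⟦p⟧ ⟦q⟧ (hpq.lift (Quotient.mk s) fun _ _ h => h) hf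
  exact (Quotient.exact this).1

/-- a coloured triangle complex with links of girth at least six -/
structure TC (G V : Type) [Group G] [MulAction G V] where
  t : V → V → V → Prop
  col : V → ZMod 3
  rot : ∀ {x y z}, t x y z → t y z x
  hc : ∀ {x y z}, t x y z → col y = col x + 1
  l4 : ∀ {w a b c e}, t w a b → t w c b → t w c e → t w a e → a = c ∨ b = e
  inv : ∀ (g : G) {x y z}, t x y z → t (g • x) (g • y) (g • z)

namespace TC

variable {G V : Type} [Group G] [MulAction G V] (T : TC G V)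

def Ed (x y : V) : Prop := ∃ z, T.t x y z

def Tr (s : Set V) : Prop := ∃ x y z, T.t x y z ∧ s = {x, y, z}

/-- vertices of the subdivision of side three -/
inductive Sv
  | v (x : V)
  | o (x y : V) (h : T.Ed x y)
  | i (x y : V) (h : T.Ed x y)
  | c (s : Set V) (h : T.Tr s)

variable {T}

lemma Ed.smul {x y} (h : T.Ed x y) (g : G) : T.Ed (g • x) (g • y) := h.elim fun _ h => ⟨_, T.inv g h⟩

lemma Tr.smul {s} (h : T.Tr s) (g : G) : T.Tr (g • s) := by
  obtain ⟨x, y, z, h, rfl⟩ := h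
  exact ⟨_, _, _, T.inv g h, by simp only [Set.smul_set_insert, Set.smul_set_singleton]⟩

def Sv.sm (g : G) : T.Sv → T.Sv
  | .v x => .v (g • x)
  | .o x y h => .o (g • x) (g • y) (h.smul g)
  | .i x y h => .i (g • x) (g • y) (h.smul g)
  | .c s h => .c (g • s) (h.smul g)

instance : MulAction G T.Sv where
  smul := Sv.sm
  one_smul w := by
    change Sv.sm 1 w = w
    cases w <;> simp [Sv.sm]
  mul_smul g h w := by
    change Sv.sm (g * h) w = Sv.sm g (Sv.sm h w)
    cases w <;> simp [Sv.sm, mul_smul]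

inductive R : T.Sv → T.Sv → Prop
  | vo {x y} (h) : R (.v x) (.o x y h)
  | co {s hs x y} (h) : x ∈ s → y ∈ s → R (.c s hs) (.o x y h)
  | oi {x y z} (h h') : T.t x y z → R (.o x y h) (.i z x h')
  | oe {x y} (h h') : R (.o x y h) (.i x y h')
  | iv {x y} (h) : R (.i x y h) (.v y)
  | ic {s hs x y} (h) : x ∈ s → y ∈ s → R (.i x y h) (.c s hs)

def kd : T.Sv → ZMod 3
  | .v _ => 0
  | .o _ _ _ => 1
  | .i _ _ _ => 2
  | .c _ _ => 0

lemma R.kd {a b : T.Sv} (h : R a b) : kd b = kd a + 1 := by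
  cases h <;> rfl

lemma R.smul {a b : T.Sv} (h : R a b) (g : G) : R (g • a) (g • b) := by
  cases h with
  | vo h => exact R.vo _
  | co h h1 h2 => exact R.co _ (Set.smul_mem_smul_set h1) (Set.smul_mem_smul_set h2)
  | oi h h' ht => exact R.oi _ _ (T.inv g ht)
  | oe h h' => exact R.oe _ _
  | iv h => exact R.iv _
  | ic h h1 h2 => exact R.ic _ (Set.smul_mem_smul_set h1) (Set.smul_mem_smul_set h2)

variable (T) in
def gr : SimpleGraph T.Sv where
  Adj a b := R a b ∨ R b a
  symm := ⟨fun _ _ h => h.symm⟩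
  loopless := ⟨fun a h => by
    have := (h.elim id id).kd
    revert this
    generalize kd a = x
    revert x
    decide⟩

lemma Ed.hc {x y} (h : T.Ed x y) : T.col y = T.col x + 1 := h.elim fun _ h => T.hc h

lemma Tr.inj {s x y} (h : T.Tr s) (hx : x ∈ s) (hy : y ∈ s) (e : T.col x = T.col y) : x = y := by
  obtain ⟨a, b, c, h, rfl⟩ := h
  have h1 := T.hc h
  have h2 := T.hc (T.rot h)
  have h3 := T.hc (T.rot (T.rot h))
  simp only [Set.mem_insert_iff, Set.mem_singleton_iff] at hx hy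
  rcases hx with rfl | rfl | rfl <;> rcases hy with rfl | rfl | rfl <;>
    first
    | rfl
    | (exfalso
       revert h1 h2 h3 e
       generalize T.col _ = a
       generalize T.col _ = b
       generalize T.col _ = c
       revert a b c
       decide)

lemma Tr.side {s x y} (h : T.Tr s) (hx : x ∈ s) (hy : y ∈ s) (e : T.Ed x y) :
    ∃ z, T.t x y z ∧ s = {x, y, z} := by
  have i := @Tr.inj _ _ _ _ T s
  obtain ⟨a, b, c, h1, e1⟩ := id h
  have e := e.hc
  have ma : a ∈ s := by simp [e1]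
  have mb : b ∈ s := by simp [e1]
  have mc : c ∈ s := by simp [e1]
  have hx' := hx
  rw [e1] at hx'
  rcases hx' with rfl | rfl | rfl
  · obtain rfl := i h hy mb (e.trans (T.hc h1).symm)
    exact ⟨c, h1, e1⟩
  · obtain rfl := i h hy mc (e.trans (T.hc (T.rot h1)).symm)
    exact ⟨a, T.rot h1, by rw [e1]; ext; simp; tauto⟩
  · obtain rfl := i h hy ma (e.trans (T.hc (T.rot (T.rot h1))).symm)
    exact ⟨b, T.rot (T.rot h1), by rw [e1]; ext; simp; tauto⟩

lemma Ed.ne {x} (h : T.Ed x x) : False := by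
  have := h.hc
  revert this
  generalize T.col x = a
  revert a
  decide

lemma Tr.ext {s s' x y z} (h : T.Tr s) (h' : T.Tr s') (ht : T.t x y z) (a1 : x ∈ s) (a2 : y ∈ s)
    (a3 : z ∈ s) (b1 : x ∈ s') (b2 : y ∈ s') (b3 : z ∈ s') : s = s' := by
  have : ∀ s, T.Tr s → x ∈ s → y ∈ s → z ∈ s → s = {x, y, z} := fun s h a1 a2 a3 => by
    obtain ⟨u, h1, h2⟩ := h.side a1 a2 ⟨z, ht⟩
    rw [h2, h.inj a3 (y := u) (by simp [h2]) ((T.hc (T.rot ht)).trans (T.hc (T.rot h1)).symm)]
  rw [this s h a1 a2 a3, this s' h' b1 b2 b3]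

lemma Tr.hd {s x y z} (h : T.Tr s) (a2 : y ∈ s) (a3 : z ∈ s) (e : T.Ed x y) (e' : T.Ed x z) :
    y = z := h.inj a2 a3 (e.hc.trans e'.hc.symm)

lemma Tr.tl {s x y z} (h : T.Tr s) (a2 : y ∈ s) (a3 : z ∈ s) (e : T.Ed y x) (e' : T.Ed z x) :
    y = z := h.inj a2 a3 (add_right_cancel (e.hc.symm.trans e'.hc))

lemma R.oi_col {x y u v h h'} (r : R (.o x y h : T.Sv) (.i u v h')) :
    T.col v = T.col x ∨ T.col v = T.col x + 1 := by
  cases r with
  | oi => exact Or.inl rfl
  | oe => exact Or.inr h.hc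

lemma r4 (w a b c e : T.Sv) (h1 : R w a) (h2 : R a b) (h3 : R b w) (h4 : R w c) (h5 : R c b)
    (h6 : R c e) (h7 : R e w) (h8 : R a e) : a = c ∨ b = e := by
  cases w with
  | v x =>
    cases h1; cases h3; cases h4; cases h7
    cases h2 with
    | oe h => exact h.ne.elim
    | oi _ _ t2 =>
    cases h5 with
    | oe h => exact h.ne.elim
    | oi _ _ t5 =>
    cases h6 with
    | oe h => exact h.ne.elim
    | oi _ _ t6 =>
    cases h8 with
    | oe h => exact h.ne.elim
    | oi _ _ t8 =>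
    rcases T.l4 t2 t5 t6 t8 with rfl | rfl
    exacts [Or.inl rfl, Or.inr rfl]
  | c s hs =>
    cases h1 with | @co _ _ x y a1 a2 a3 =>
    cases h3 with | @ic _ _ u v b1 b2 b3 =>
    cases h4 with | @co _ _ x' y' c1 c2 c3 =>
    cases h7 with | @ic _ _ u' v' e1 e2 e3 =>
    have := z3_four _ _ _ _ h2.oi_col h5.oi_col h6.oi_col h8.oi_col
    rcases this with h | h
    · obtain rfl := hs.inj a2 c2 h
      obtain rfl := hs.hd a3 c3 a1 c1
      exact Or.inl rfl
    · obtain rfl := hs.inj b3 e3 h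
      obtain rfl := hs.tl b2 e2 b1 e1
      exact Or.inr rfl
  | o x y h =>
    have key : ∀ a c b e : T.Sv, R (.o x y h) a → c = .i x y h → R b (.o x y h) →
        R e (.o x y h) → R a b → R c b → R c e → R a e → a = c ∨ b = e := by
      rintro a _ b e h1 rfl h3 h7 h2 h5 h6 h8
      cases h1 with
      | oe => exact Or.inl rfl
      | oi _ _ t =>
      cases h3 with
      | vo => cases h5; exact h.ne.elim
      | co _ b1 b2 =>
      cases h7 with
      | vo => cases h6; exact h.ne.elim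
      | co _ e1 e2 =>
      cases h2 with | @ic _ hs _ _ _ b3 =>
      cases h8 with | @ic _ hs' _ _ _ e3 =>
      obtain rfl := hs.ext hs' t b1 b2 b3 e1 e2 e3
      exact Or.inr rfl
    cases h4 with
    | oe => exact key _ _ _ _ h1 rfl h3 h7 h2 h5 h6 h8
    | oi _ c1 tc =>
    cases h1 with
    | oe => exact (key _ _ _ _ (R.oi _ c1 tc) rfl h3 h7 h5 h2 h8 h6).imp Eq.symm id
    | oi _ a1 ta =>
    cases h3 with
    | co _ b1 b2 =>
      cases h2 with | @ic _ hs _ _ _ b3 =>
      cases h5 with | ic _ b4 =>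
      obtain rfl := hs.tl b3 b4 a1 c1
      exact Or.inl rfl
    | vo =>
    cases h7 with
    | vo => exact Or.inr rfl
    | co _ b1 b2 =>
      cases h8 with | @ic _ hs _ _ _ b3 =>
      cases h6 with | ic _ b4 =>
      obtain rfl := hs.tl b3 b4 a1 c1
      exact Or.inl rfl
  | i x y h =>
    have key : ∀ a c b e : T.Sv, R (.i x y h) a → R (.i x y h) c → R b (.i x y h) →
        e = .o x y h → R a b → R c b → R c e → R a e → a = c ∨ b = e := by
      rintro a c b _ h1 h4 h3 rfl h2 h5 h6 h8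
      cases h3 with
      | oe => exact Or.inr rfl
      | oi _ _ t =>
      cases h1 with
      | iv => cases h8; exact h.ne.elim
      | ic _ b1 b2 =>
      cases h4 with
      | iv => cases h6; exact h.ne.elim
      | ic _ e1 e2 =>
      cases h2 with | @co _ hs _ _ _ _ b3 =>
      cases h5 with | @co _ hs' _ _ _ _ e3 =>
      obtain rfl := hs.ext hs' t b2 b3 b1 e2 e3 e1
      exact Or.inl rfl
    cases h7 with
    | oe => exact key _ _ _ _ h1 h4 h3 rfl h2 h5 h6 h8
    | oi e1 _ te =>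
    cases h3 with
    | oe => exact (key _ _ _ _ h1 h4 (R.oi e1 _ te) rfl h8 h6 h5 h2).imp id Eq.symm
    | oi b1 _ tb =>
    cases h1 with
    | ic _ a1 a2 =>
      cases h2 with | @co _ hs _ _ _ _ b3 =>
      cases h8 with | co _ _ b4 =>
      obtain rfl := hs.hd b3 b4 b1 e1
      exact Or.inr rfl
    | iv =>
    cases h4 with
    | iv => exact Or.inl rfl
    | ic _ a1 a2 =>
      cases h5 with | @co _ hs _ _ _ _ b3 =>
      cases h6 with | co _ _ b4 =>
      obtain rfl := hs.hd b3 b4 b1 e1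
      exact Or.inr rfl

end TC

end

end Pool.Agent.Lib.MP_35cce7_an
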