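import Pool.Agent.Lib.MP_35cce7_an.Main

namespace Pool.Agent.Lib.MP_35cce7_an

noncomputable section

open Classical CoxeterSystem

variable {B B' : Type} {M : CoxeterMatrix B} {M' : CoxeterMatrix B'}

/-- the standard parabolic subgroup on a set of generators -/
def par (M : CoxeterMatrix B) (S : Set B) : Subgroup (Ar M) := Subgroup.closure (gn M '' S)

lemma gn_mem {S : Set B} {i} (h : i ∈ S) : gn M i ∈ par M S := Subgroup.subset_closure ⟨i, h, rfl⟩

lemma par_mono {S T : Set B} (h : S ⊆ T) : par M S ≤ par M T :=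
  Subgroup.closure_mono (Set.image_mono h)

lemma par_univ (x : Ar M) : x ∈ par M Set.univ :=
  PresentedGroup.generated_by _ _ (fun _ => gn_mem trivial) x

lemma par_ind {S : Set B} {Q : Ar M → Prop} (h1 : Q 1)
    (hs : ∀ i ∈ S, ∀ x, Q x → Q (gn M i * x) ∧ Q ((gn M i)⁻¹ * x)) {x} (hx : x ∈ par M S) : Q x :=
  Subgroup.closure_induction_left (p := fun x _ => Q x) h1
    (by rintro _ ⟨i, hi, rfl⟩ y _ h; exact (hs i hi y h).1)
    (by rintro _ ⟨i, hi, rfl⟩ y _ h; exact (hs i hi y h).2) hx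

namespace Emb

variable (E : Emb M' M)

lemma range_hom : E.hom.range = par M (Set.range E.e) := by
  refine le_antisymm ?_ ((Subgroup.closure_le _).2 ?_)
  · rintro _ ⟨a, rfl⟩
    exact PresentedGroup.generated_by _ ((par M (Set.range E.e)).comap E.hom)
      (fun j => by simpa using gn_mem (Set.mem_range_self j)) a
  · rintro _ ⟨_, ⟨j, rfl⟩, rfl⟩
    exact ⟨gn M' j, E.hom_gn j⟩

def act : Ar M →* Equiv.Perm (E.St M.toCoxeterSystem) :=
  alift (E.step M.toCoxeterSystem) fun _ _ => step_braid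

def o : {w // IsMinC M.toCoxeterSystem (Set.range E.e) w} := ⟨1, IsMinC.one _⟩

lemma act_one (b : B) (y : Ar M) (hy : y = gn M b ∨ y = (gn M b)⁻¹) (w) :
    (∃ i z, (z = gn M' i ∨ z = (gn M' i)⁻¹) ∧
      M.toCoxeterSystem.simple b * w.1 = w.1 * M.toCoxeterSystem.simple (E.e i) ∧
      ∀ α, E.act y (w, α) = (w, z * α)) ∨
    ∃ w', w'.1 = M.toCoxeterSystem.simple b * w.1 ∧ ∀ α, E.act y (w, α) = (w', α) := by
  have key : ∃ f : Ar M' → Ar M', (∀ x, f x = x ∨ f x = x⁻¹) ∧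
      ∀ p, E.act y p = E.stp _ b f p := by
    rcases hy with rfl | rfl
    · exact ⟨id, fun _ => Or.inl rfl, fun p => by rw [act, alift_gn]; rfl⟩
    · exact ⟨(·⁻¹), fun _ => Or.inr rfl, fun p => by rw [map_inv, act, alift_gn]; rfl⟩
  obtain ⟨f, h1, h2⟩ := key
  by_cases h : E.Bo M.toCoxeterSystem (M.toCoxeterSystem.simple b) w
  · obtain ⟨i, h⟩ := h
    exact Or.inl ⟨i, _, h1 _, h, fun α => (h2 _).trans (stp_pos (p := (w, α)) h)⟩
  · exact Or.inr ⟨⟨_, min_step w.2 h⟩, rfl, fun α => (h2 _).trans (stp_neg (p := (w, α)) h)⟩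

lemma act_right (g : Ar M) (w) : ∃ w' β, ∀ α, E.act g (w, α) = (w', β * α) := by
  refine par_ind (Q := fun g => ∃ w' β, ∀ α, E.act g (w, α) = (w', β * α)) ⟨w, 1, by simp⟩
    (fun i _ x ⟨w', β, h⟩ => ?_) (par_univ g)
  have : ∀ y, (y = gn M i ∨ y = (gn M i)⁻¹) →
      ∃ w' β, ∀ α, E.act (y * x) (w, α) = (w', β * α) := fun y hy => by
    rcases E.act_one i y hy w' with ⟨_, z, -, -, h'⟩ | ⟨u, -, h'⟩
    · exact ⟨w', z * β, fun α => by simp [h, h', mul_assoc]⟩
    · exact ⟨u, β, fun α => by simp [h, h']⟩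
  exact ⟨this _ (Or.inl rfl), this _ (Or.inr rfl)⟩

lemma act_hom (a α : Ar M') : E.act (E.hom a) (E.o, α) = (E.o, a * α) :=
  (PresentedGroup.generated_by _
    { carrier := {a | ∀ α, E.act (E.hom a) (E.o, α) = (E.o, a * α)}
      one_mem' := by simp
      mul_mem' := fun {a b} h h' α => by simp [h' α, h (b * α), mul_assoc]
      inv_mem' := fun {a} h α => by
        rw [map_inv, map_inv, Equiv.Perm.inv_eq_iff_eq, h, mul_inv_cancel_left] }
    (fun j α => by
      rw [hom_gn, act, alift_gn]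
      exact stp_pos (by simp [o])) a) α

theorem retr2 : ∃ ρ : Ar M → Ar M', (∀ g a, ρ (g * E.hom a) = ρ g * a) ∧
    ∀ r x g, Ball (gn M) r x → ρ g = 1 → Ball (gn M') r (ρ (x * g)) := by
  refine ⟨fun g => (E.act g (E.o, 1)).2, fun g a => ?_, ?_⟩
  · obtain ⟨w, β, h⟩ := E.act_right g E.o
    simp [act_hom, h]
  · rintro r _ g ⟨L, rfl, h1, h2⟩ hg
    dsimp only at hg ⊢
    induction L generalizing r with
    | nil => simpa [hg] using Ball.one _ _
    | cons y L ih =>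
      have a1 := ih L.length le_rfl fun z hz => h2 z (by simp [hz])
      obtain ⟨b, hb⟩ := h2 y (by simp)
      rw [List.length_cons] at h1
      rw [List.prod_cons, mul_assoc, map_mul, Equiv.Perm.mul_apply]
      generalize E.act (L.prod * g) (E.o, 1) = p at a1
      obtain ⟨w, α⟩ := p
      rcases E.act_one b y hb w with ⟨i, z, hz, -, h'⟩ | ⟨u, -, h'⟩
      · rw [h']
        refine ((Ball.isBall _).mul 1 _ _ _ ?_ a1).mono (by omega)
        rcases hz with rfl | rfl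
        exacts [Ball.gen _ _, (Ball.isBall _).inv _ _ (Ball.gen _ _)]
      · rw [h']
        exact a1.mono (by omega)

lemma act_par {T : Set B} {g} (hg : g ∈ par M T) :
    InP M.toCoxeterSystem T (E.act g (E.o, 1)).1.1 ∧
      E.hom (E.act g (E.o, 1)).2 ∈ par M (Set.range E.e ∩ T) := by
  refine par_ind (Q := fun g => InP M.toCoxeterSystem T (E.act g (E.o, 1)).1.1 ∧
    E.hom (E.act g (E.o, 1)).2 ∈ par M (Set.range E.e ∩ T)) ?_ (fun i hi x hx => ?_) hg
  · simpa [o] using InP.one _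
  have : ∀ y, (y = gn M i ∨ y = (gn M i)⁻¹) →
      InP M.toCoxeterSystem T (E.act (y * x) (E.o, 1)).1.1 ∧
      E.hom (E.act (y * x) (E.o, 1)).2 ∈ par M (Set.range E.e ∩ T) := fun y hy => by
    rw [map_mul, Equiv.Perm.mul_apply]
    generalize E.act x (E.o, 1) = p at hx
    obtain ⟨w, α⟩ := p
    rcases E.act_one i y hy w with ⟨j, z, hz, h, h'⟩ | ⟨u, h, h'⟩
    · rw [h']
      refine ⟨hx.1, ?_⟩
      have a1 := (hx.1.inv.mul (InP.simple hi)).mul hx.1
      rw [mul_assoc, h, inv_mul_cancel_left] at a1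
      obtain ⟨ω, a2, a3, a4⟩ := a1.exists_reduced
      have a5 := a3.eq
      rw [← a4, length_simple] at a5
      obtain ⟨l, rfl⟩ := List.length_eq_one_iff.1 a5.symm
      have a6 : gn M (E.e j) ∈ par M (Set.range E.e ∩ T) := gn_mem ⟨⟨j, rfl⟩, by
        rw [simple_inj (a4.trans (wordProd_singleton _ _))]
        exact a2 l (by simp)⟩
      rw [map_mul]
      refine Subgroup.mul_mem _ ?_ hx.2
      rcases hz with rfl | rfl <;> simpa using a6
    · rw [h']
      exact ⟨h ▸ (InP.simple hi).mul hx.1, hx.2⟩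
  exact ⟨this _ (Or.inl rfl), this _ (Or.inr rfl)⟩

end Emb

theorem par_tri {S T U : Set B} {b c : Ar M} (hb : b ∈ par M T) (hc : c ∈ par M U)
    (h : b * c ∈ par M S) : ∃ b' ∈ par M (S ∩ T), b'⁻¹ * (b * c) ∈ par M (S ∩ U) := by
  let E := subE M (· ∈ S)
  have e : Set.range E.e = S := Subtype.range_coe
  rw [← e] at h ⊢
  obtain ⟨a, ha⟩ := E.range_hom ▸ h
  obtain ⟨w, β, h1⟩ := E.act_right b⁻¹ E.o
  have h2 := (E.act_par (Subgroup.inv_mem _ hb)).2
  have h3 := (E.act_par hc).2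
  rw [h1, mul_one] at h2
  have h4 : E.act c (E.o, 1) = (w, β * a) := by
    rw [← h1, ← mul_one a, ← E.act_hom, ha, ← Equiv.Perm.mul_apply, ← map_mul, inv_mul_cancel_left]
  rw [h4, map_mul, ha] at h3
  exact ⟨_, Subgroup.inv_mem _ h2, by rwa [inv_inv]⟩

lemma par_inf {S T : Set B} {x : Ar M} (h : x ∈ par M S) (h' : x ∈ par M T) :
    x ∈ par M (S ∩ T) := by
  obtain ⟨b, h1, h2⟩ := par_tri (U := ∅) h' (Subgroup.one_mem _) (by simpa using h)
  have : b⁻¹ * x = 1 := by simpa [par] using h2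
  rwa [← inv_mul_eq_one.1 this]

lemma alt_rot {K : Type} [Group K] {R S : K} {m : ℕ} (h1 : Commute (S * S) R)
    (h2 : R ^ m = S * S) :
    alt m (R * S⁻¹) (S * (R * S⁻¹) * S⁻¹) = alt m (S * (R * S⁻¹) * S⁻¹) (R * S⁻¹) := by
  have c : Commute S (S * S) := (Commute.refl S).mul_right (Commute.refl S)
  have e1 : S * (S * (R * S⁻¹) * S⁻¹) * S⁻¹ = R * S⁻¹ := by
    calc _ = (S * S * R) * (S * S)⁻¹ * S⁻¹ := by group
      _ = _ := by rw [h1.eq]; group
  have e2 := map_alt (MulAut.conj S) m (R * S⁻¹) (S * (R * S⁻¹) * S⁻¹)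
  simp only [MulAut.conj_apply, e1] at e2
  rw [← e2, eq_mul_inv_iff_mul_eq]
  have e3 : ∀ k, (R * S⁻¹ * (S * (R * S⁻¹) * S⁻¹)) ^ k = R ^ (2 * k) * (S * S)⁻¹ ^ k := fun k => by
    rw [pow_mul, ← (h1.symm.pow_left 2).inv_right.mul_pow]
    congr 1
    simp only [sq, mul_inv_rev, mul_assoc, inv_mul_cancel_left]
  refine Commute.eq (Commute.symm ?_)
  obtain ⟨k, rfl | rfl⟩ := Nat.even_or_odd' m
  · rw [alt_two_mul, e3, h2]
    exact c.mul_right (c.inv_right.pow_right k)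
  · rw [alt_odd, e3, mul_assoc, ← mul_assoc _ R, (h1.inv_left.pow_left k).eq, ← mul_assoc,
      ← mul_assoc, ← pow_succ, h2]
    exact (c.mul_right (c.inv_right.pow_right k)).mul_right (Commute.refl S).inv_right

theorem no_four {s t : B} (h : 3 ≤ M s t) {a b c e : ℤ}
    (h1 : gn M s ^ a * gn M t ^ b = gn M t ^ c * gn M s ^ e) : a = 0 ∨ b = 0 := by
  have hst : s ≠ t := by
    rintro rfl
    simp at h
  set z := zt M s t
  have hz : z ≠ 0 := Complex.exp_ne_zero _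
  have hp : IsPrimitiveRoot (z ^ 2) (M s t) := zt_prim (by omega)
  have z1 : z ^ 2 - 1 ≠ 0 := sub_ne_zero.2 (hp.ne_one (by omega))
  have z2 : z + z⁻¹ ≠ 0 := fun e => by
    have : z ^ 2 = -1 := by
      field_simp at e
      linear_combination e
    have := Nat.le_of_dvd two_pos ((hp.pow_eq_one_iff_dvd 2).1 (by rw [this]; norm_num))
    omega
  have z3 : z ^ M s t = -1 := by
    rw [show z = Complex.exp _ from rfl, ← Complex.exp_nat_mul, mul_div_cancel₀, Complex.exp_pi_mul_I]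
    exact Nat.cast_ne_zero.2 (by omega)
  let R : Equiv.Perm (ℂ × ℂ) := ⟨fun p => ((z + z⁻¹) * p.1 - p.2, p.1),
    fun p => (p.2, (z + z⁻¹) * p.2 - p.1), fun p => by simp, fun p => by simp⟩
  let S : Equiv.Perm (ℂ × ℂ) := ⟨fun p => (-p.2, p.1), fun p => (p.2, -p.1), fun p => by simp,
    fun p => by simp⟩
  have r1 : ∀ (u v : ℂ) (k : ℕ), (R ^ k) (u * z + v * z⁻¹, u + v) =
      (u * z ^ k * z + v * z⁻¹ ^ k * z⁻¹, u * z ^ k + v * z⁻¹ ^ k) := fun u v k => by
    induction k with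
    | zero => simp
    | succ k ih =>
      rw [pow_succ', Equiv.Perm.mul_apply, ih, pow_succ, pow_succ]
      refine Prod.ext ?_ ?_ <;> simp only [R, Equiv.coe_fn_mk]
      · field_simp
        ring
      · ring
  have r2 : R ^ M s t = S * S := Equiv.ext fun p => by
    have := r1 ((p.1 * z - p.2) / (z ^ 2 - 1)) (p.2 - (p.1 * z - p.2) / (z ^ 2 - 1)) (M s t)
    rw [show (_, _) = p from Prod.ext (by field_simp; ring) (by simp)] at this
    rw [this, inv_pow, z3]
    refine Prod.ext ?_ ?_ <;> simp only [S, Equiv.Perm.mul_apply, Equiv.coe_fn_mk] <;> field_simp <;>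
      ring
  have r3 : Commute (S * S) R := Equiv.ext fun p => by
    refine Prod.ext ?_ ?_ <;> simp only [S, R, Equiv.Perm.mul_apply, Equiv.coe_fn_mk]
    ring
  let E := subE M fun i => i = s ∨ i = t
  obtain ⟨π, p1, p2⟩ := lift_two (M := sub M fun i => i = s ∨ i = t) (a := ⟨s, Or.inl rfl⟩)
    (b := ⟨t, Or.inr rfl⟩) (fun i => i.2.imp Subtype.ext Subtype.ext)
    (fun e => hst (congrArg Subtype.val e)) _ _ (alt_rot r3 r2)
  have h2 : gn _ ⟨s, Or.inl rfl⟩ ^ a * gn _ ⟨t, Or.inr rfl⟩ ^ b =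
      gn (sub M fun i => i = s ∨ i = t) ⟨t, Or.inr rfl⟩ ^ c * gn _ ⟨s, Or.inl rfl⟩ ^ e :=
    E.hom_inj (by simpa [E, subE] using h1)
  have h3 := congrArg π h2
  simp only [map_mul, map_zpow, p1, p2] at h3
  have pw : ∀ (T : Equiv.Perm (ℂ × ℂ)) (φ : ℂ → ℂ × ℂ → ℂ × ℂ), (∀ p, φ 0 p = p) →
      (∀ x p, T (φ x p) = φ (x + 1) p) → ∀ (n : ℤ) p, (T ^ n) p = φ n p := by
    intro T φ h0 h1 n p
    induction n using Int.induction_on with
    | zero => simp [h0]
    | succ n ih => rw [add_comm, zpow_one_add, Equiv.Perm.mul_apply, ih, h1]; simp [add_comm]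
    | pred n ih =>
      rw [sub_eq_neg_add, zpow_add, zpow_neg_one, Equiv.Perm.mul_apply, ih,
        Equiv.Perm.inv_eq_iff_eq, h1]
      congr 1
      push_cast
      ring
  have q1 := pw (R * S⁻¹) (fun x p => (p.1 + x * (z + z⁻¹) * p.2, p.2)) (by simp) fun x p =>
    Prod.ext (by simp [R, S, Equiv.Perm.inv_def]; ring) (by simp [R, S, Equiv.Perm.inv_def])
  have q2 := pw (S * (R * S⁻¹) * S⁻¹) (fun x p => (p.1, p.2 - x * (z + z⁻¹) * p.1)) (by simp)
    fun x p => Prod.ext (by simp [R, S, Equiv.Perm.inv_def])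
      (by simp [R, S, Equiv.Perm.inv_def]; ring)
  have h4 := congrArg (fun T : Equiv.Perm (ℂ × ℂ) => (T (1, 0)).1) h3
  simp only [Equiv.Perm.mul_apply, q1, q2] at h4
  simpa [z2] using h4

end

end Pool.Agent.Lib.MP_35cce7_an
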