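import Pool.Agent.Lib.MP_5d3e93_al.At.EvL
import Pool.Agent.Lib.MP_5d3e93_al.At.EvN
import Pool.Agent.Lib.MP_5d3e93_al.At.EvM
import Pool.Agent.Lib.MP_5d3e93_al.At.OnA
import Pool.Agent.Lib.MP_35cce7_an.DuGrp

/-! Rapid decay for even Artin groups. -/

namespace Pool.Agent.Lib.MP_35cce7_an

open Pool.Agent.Lib.MP_5d3e93_al.At

theorem tc_rd {G V ι : Type} [Group G] [MulAction G V] [Finite ι] (T : TC G V) {σ : ι → G}
    (hw : ∀ x, ∃ y, T.Ed x y) (he : ∀ x y, Relation.EqvGen T.Ed x y) (h0 : T.SC0) (x₀ : V)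
    (g0 : GRD V (Ball σ)) : RDb (Ball σ) := by
  let o : T.Sv := .v x₀
  have c1 : ∀ x y, T.gr.Reachable (.v x) (.v y) := fun x y => by
    induction he x y with
    | rel x y h =>
      exact ⟨.cons (Or.inl (TC.R.vo h)) (.cons (Or.inl (TC.R.oe h h))
        (.cons (Or.inl (TC.R.iv h)) .nil))⟩
    | refl => rfl
    | symm _ _ _ h => exact h.symm
    | trans _ _ _ _ _ h h' => exact h.trans h'
  have c2 := c1 x₀
  have c3 : ∀ w, T.gr.Reachable o w := fun w => by
    cases w with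
    | v x => exact c2 x
    | o x y h => exact (c2 x).trans (SimpleGraph.Adj.reachable (Or.inl (TC.R.vo h)))
    | i x y h => exact (c2 y).trans (SimpleGraph.Adj.reachable (Or.inr (TC.R.iv h)))
    | c s h =>
      obtain ⟨x, y, z, h1, h2⟩ := id h
      exact ((c2 x).trans (SimpleGraph.Adj.reachable (Or.inl (TC.R.vo ⟨z, h1⟩)))).trans
        (SimpleGraph.Adj.reachable (Or.inr (TC.R.co _ (by simp [h2]) (by simp [h2]))))
  have hc : T.gr.Connected := (SimpleGraph.connected_iff_exists_forall_reachable _).2 ⟨o, c3⟩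
  have S := (loc_of_col hc (fun _ _ => Iff.rfl) (fun _ _ => TC.R.kd) TC.r4).sys (TC.sc hc hw h0)
  let an : T.Sv → Set V := fun w => match w with
    | .v x => {x}
    | .o x _ _ => {x}
    | .i x _ _ => {x}
    | .c s _ => s
  have g1 : GRD T.Sv (Ball σ) := by
    refine grd_rel (fun w v => v ∈ an w) (fun g w v h => ?_) (fun w => ?_) (n := 3)
      (fun w => ?_) g0
    · cases w with
      | c s _ => exact Set.smul_mem_smul_set h
      | _ => exact congrArg (g • ·) h
    · cases w with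
      | c s h =>
        obtain ⟨x, y, z, -, rfl⟩ := h
        exact ⟨x, Set.mem_insert _ _⟩
      | _ => exact ⟨_, rfl⟩
    · cases w with
      | c s h =>
        obtain ⟨x, y, z, -, rfl⟩ := h
        refine (Set.encard_insert_le _ _).trans
          ((add_le_add_left (Set.encard_insert_le _ _) _).trans ?_)
        rw [Set.encard_singleton]
        norm_num
      | _ => exact (Set.encard_singleton _).le.trans (by norm_num)
  obtain ⟨k, hk⟩ := Finite.exists_le fun i => T.gr.dist o (σ i • o)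
  have := rd_of_sys S (ty := TC.kd) (fun a b h e => ?_) (TC.d_smul hc)
    (B := fun r x => Ball σ (r / (k + 1)) x) ⟨fun r x h => (Ball.isBall σ).inv _ _ h,
      fun r s x y h h' => ((Ball.isBall σ).mul _ _ _ _ h h').mono Nat.div_add_div_le_add_div⟩
    (fun r => Ball.one _ _) o (fun r x hx => ?_)
    (g1.mono fun r x h => h.mono (Nat.div_le_self ..))
  · exact this.comap (MonoidHom.id _) Function.injective_id (k + 1) fun r x h =>
      h.mono (Nat.mul_div_cancel_left r k.succ_pos).ge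
  · refine ((dist_le_one hc).1 h).resolve_right fun h => ?_
    rcases h with h | h <;> have := h.kd <;> rw [e] at this <;> revert this <;>
      generalize TC.kd b = x <;> revert x <;> decide
  · refine le_trans (hx.map (B' := fun r x => T.gr.dist o (x • o) ≤ r)
      ⟨fun r x h => ?_, fun r s x y h h' => ?_⟩ (by simp) (MonoidHom.id _) hk) ?_
    · rwa [← TC.d_smul hc x, smul_inv_smul, S.symm]
    · rw [← TC.d_smul hc x, ← mul_smul] at h'
      exact (S.tri _ _ _).trans (add_le_add h h')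
    · exact ((Nat.mul_le_mul_right _ k.le_succ).trans (Nat.mul_div_le r (k + 1))).trans (by omega)

/-- rapid decay passes from the elliptic subgroup to the group -/
theorem ev_rd {G κ ι : Type} [Group G] [Finite ι] {D : Ev G κ} (h : D.L4) {σ : ι → G}
    (g0 : GRD (G ⧸ D.H) (Ball σ)) : RDb (Ball σ) := by
  refine tc_rd (Ev.tc h) (Ev.tc_hw h) (Ev.tc_hc h) (Ev.tc_sc h) (D.vx .h 1) (grd_rel
    (fun w (v : G ⧸ D.H) => ∃ τ, ∃ g : G, w = D.vx τ g ∧ v = g) ?_ (fun w => ?_) (n := 1)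
    (fun w => ?_) g0)
  · rintro x _ _ ⟨τ, g, rfl, rfl⟩
    exact ⟨τ, x * g, rfl, rfl⟩
  · obtain ⟨τ, g, e⟩ := Ev.vx_surj w
    exact ⟨_, τ, g, e, rfl⟩
  · refine Set.encard_le_one_iff.2 ?_
    rintro _ _ ⟨τ, g, rfl, rfl⟩ ⟨τ', g', e, rfl⟩
    exact QuotientGroup.eq.2 (Ev.sb_le _ (Ev.vx_eq.1 e).2)

theorem ev_l4 {B : Type} [Finite B] {M : CoxeterMatrix B} (hM : ∀ s t, s ≠ t → Even (M s t))
    (a : B) : ∃ D : Ev (Ar M) {b // 4 ≤ M a b}, D.H = par M {a}ᶜ ∧
      D.O = par M {c | M a c = 2} ∧ D.a = gn M a ∧ D.L4 := by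
  induction hn : Nat.card B using Nat.strong_induction_on generalizing B with | _ n ih => ?_
  obtain ⟨D, h1, h2, h3, h4⟩ := ev_ex hM a
  refine ⟨D, h1, h2, h3, Ev.l4 fun ⟨b, hb⟩ => ?_⟩
  let T : Set B := insert b {c | M a c = 2}
  have p : a ∉ T := by
    rintro (rfl | e)
    · simp at hb
    · simp at e
  obtain ⟨E, l1, l2, l3, l⟩ := ih _ (hn ▸ Finite.card_subtype_lt p) (M := sub M (· ∈ T))
    (fun s t e => hM _ _ (Subtype.val_injective.ne e)) ⟨b, .inl rfl⟩ rfl
  have k1 := Ev.out_N l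
  have k2 := Ev.out_A l
  rw [l1, l3] at k1 k2
  rw [l2] at k1
  have e : Subtype.val ⁻¹' {c | M a c = 2} = ({⟨b, .inl rfl⟩}ᶜ : Set {x // x ∈ T}) := by
    ext ⟨c, k⟩
    refine ⟨fun (q : M a c = 2) r => ?_, fun q => k.resolve_left fun r => q (Subtype.ext r)⟩
    obtain rfl : c = b := congrArg Subtype.val r
    omega
  have f {g} := on_mem (M := M) (T := T) (U := {c | M a c = 2}) (g := g)
  have s {g} (q : g ∈ par M {c | M a c = 2}) : ∃ x, (subE M (· ∈ T)).hom x = g :=
    on_rng.ge (par_mono (Set.subset_insert ..) q)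
  have t : gn M b = _ := ((subE M (· ∈ T)).hom_gn ⟨b, .inl rfl⟩).symm
  rw [e] at f
  rw [h2, (h4 _).1, (h4 _).2, t]
  refine ⟨fun m m0 c c1 c2 => ?_, fun p p1 q q1 r r1 w w1 z => ?_⟩
  · obtain ⟨c, rfl⟩ := s c1
    refine on_mem.2 (par_mono ?_ (k1 m m0 c (f.1 c1) (f.1 (by simpa using c2))))
    exact fun x k => x.2.imp_right fun y => ⟨y, k⟩
  obtain ⟨p, rfl⟩ := s p1
  obtain ⟨q, rfl⟩ := s q1
  obtain ⟨r, rfl⟩ := s r1
  obtain ⟨w, rfl⟩ := s w1
  exact (k2 p (f.1 p1) q (f.1 q1) r (f.1 r1) w (f.1 w1) ((subE M (· ∈ T)).hom_inj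
    (by simpa using z))).imp (fun y => by simpa using f.2 y) fun y => by simpa using f.2 y

/-- every even Artin group has rapid decay -/
theorem rd_even {B : Type} [Finite B] {M : CoxeterMatrix B} (hM : ∀ s t, s ≠ t → Even (M s t)) :
    RDb (Ball (gn M)) := by
  induction hn : Nat.card B using Nat.strong_induction_on generalizing B with | _ n ih => ?_
  obtain e | ⟨⟨a⟩⟩ := isEmpty_or_nonempty B
  · refine RDb.of_growth 1 0 fun r => ?_
    simpa using Set.encard_le_one_iff.2 fun x y _ _ => by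
      have : ∀ x : Ar M, x = 1 := fun x => by
        simpa [par, Set.eq_empty_of_isEmpty] using par_univ x
      rw [this x, this y]
  obtain ⟨D, h1, -, -, l⟩ := ev_l4 hM a
  obtain ⟨ρ, r1, r2⟩ := (subE M (· ∈ ({a}ᶜ : Set B))).retr2
  have := grd_orbit _ ρ r1 r2 (ih _ (hn ▸ Finite.card_subtype_lt (x := a) (by simp))
    (fun s t e => hM _ _ (Subtype.val_injective.ne e)) rfl)
  rw [on_rng, ← h1] at this
  exact ev_rd l this

end Pool.Agent.Lib.MP_35cce7_an
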