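import Pool.Agent.Lib.MP_35cce7_an.QMain
import Pool.Agent.Lib.MP_35cce7_an.EvRD

/-! The reduction of rapid decay to cliques with an odd label. -/

namespace Pool.Agent.Lib.MP_35cce7_an

theorem main4 (n : ℕ) (M : CoxeterMatrix (Fin n)) : HasRD M ↔
    ∀ T : Finset (Fin n), 4 ≤ T.card → (∀ i ∈ T, ∀ j ∈ T, M i j ≠ 0) →
      (∀ U ⊆ T, U.Nonempty → U ≠ T → ∃ i ∈ U, ∃ j ∈ T \ U, M i j ≠ 2) →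
      ((∃ i ∈ T, ∃ j ∈ T, ∃ k ∈ T, M i j = 2 ∧ M j k = 2 ∧ 3 ≤ M i k) ∨
        ∃ U ⊆ T, ∀ i ∈ T, ∀ j ∈ T, i ≠ j → (i ∈ U ↔ j ∈ U) → M i j = 2) →
      (∃ i ∈ T, ∃ j ∈ T, ∃ k ∈ T, i ≠ j ∧ j ≠ k ∧ i ≠ k ∧
        (1 : ℚ) < 1 / M i j + 1 / M j k + 1 / M i k) →
      (∃ i ∈ T, ∃ j ∈ T, i ≠ j ∧ Odd (M i j)) →
      HasRD (res M T) := by
  rw [Q.main3]
  refine ⟨fun h T h1 h2 h3 h4 h5 _ => h T h1 h2 h3 h4 h5, fun h T h1 h2 h3 h4 h5 => ?_⟩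
  by_cases h6 : ∃ i ∈ T, ∃ j ∈ T, i ≠ j ∧ Odd (M i j)
  · exact h T h1 h2 h3 h4 h5 h6
  exact (rd_iff _).2 (rd_even (M := res M T) fun s t e => Nat.not_odd_iff_even.1 fun o =>
    h6 ⟨s, s.2, t, t.2, Subtype.val_injective.ne e, o⟩)

end Pool.Agent.Lib.MP_35cce7_an
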