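import Pool.Agent.Lib.MP_35cce7_an.QDefs

/-! The level by level cover of a graph with designated squares. -/

namespace Pool.Agent.Lib.MP_35cce7_an.Q

variable {V : Type}

section
variable (d : V → V → ℕ) (Sq : V → V → V → V → Prop) (o : V)

/-- equality of vertices at level `i`, and parenthood from level `i - 1` to level `i` -/
def qlev : ℕ → (List V → List V → Prop) × (List V → List V → Prop)
  | 0 => (fun p q => p = [] ∧ q = [], fun _ _ => False)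
  | i + 1 =>
    let Nw : List V → V → Prop := fun q z => (qlev i).1 q q ∧ d (hd o q) z = 1 ∧
      ¬ ∃ t, (qlev i).2 t q ∧ hd o t = z
    let E : List V → List V → Prop := fun p p' => ∃ z q q', p = z :: q ∧ p' = z :: q' ∧ Nw q z ∧
      Nw q' z ∧ ((qlev i).1 q q' ∨ ∃ u, (qlev i).2 u q ∧ (qlev i).2 u q' ∧
        Sq (hd o u) (hd o q) z (hd o q'))
    (E, fun r p => E (hd o p :: r) p)

def qE (i : ℕ) := (qlev d Sq o i).1

def qD (i : ℕ) := (qlev d Sq o i).2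

def qN (i : ℕ) (q : List V) (z : V) : Prop :=
  qE d Sq o i q q ∧ d (hd o q) z = 1 ∧ ¬ ∃ t, qD d Sq o i t q ∧ hd o t = z

def qT (i : ℕ) : Prop := ∀ ⦃p q r⦄, qE d Sq o i p q → qE d Sq o i q r → qE d Sq o i p r

def qA (i : ℕ) : Prop := ∀ ⦃c a b z⦄, qD d Sq o i c a → qD d Sq o i c b →
  Sq (hd o c) (hd o a) z (hd o b) → ∃ t, hd o t = z ∧
    ((qD d Sq o (i + 1) a t ∧ qD d Sq o (i + 1) b t) ∨ (qD d Sq o i t a ∧ qD d Sq o i t b))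

def qB (i : ℕ) : Prop := ∀ ⦃u w v z⦄, qD d Sq o (i + 1) u w → qD d Sq o i v u →
  Sq (hd o u) (hd o v) z (hd o w) → ∃ s, qD d Sq o i v s ∧ qD d Sq o (i + 1) s w ∧ hd o s = z

def qC (i : ℕ) : Prop := ∀ ⦃a b s z⦄, qD d Sq o (i + 1) a s → qD d Sq o (i + 1) b s →
  Sq (hd o s) (hd o a) z (hd o b) → ∃ t, hd o t = z ∧
    ((qD d Sq o (i + 1) a t ∧ qD d Sq o (i + 1) b t) ∨ (qD d Sq o i t a ∧ qD d Sq o i t b))

variable {d Sq o} {i : ℕ}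

lemma qE_zero {p q} : qE d Sq o 0 p q ↔ p = [] ∧ q = [] := Iff.rfl

lemma qD_zero {p q} : ¬ qD d Sq o 0 p q := id

lemma qE_succ {p p'} : qE d Sq o (i + 1) p p' ↔ ∃ z q q', p = z :: q ∧ p' = z :: q' ∧
    qN d Sq o i q z ∧ qN d Sq o i q' z ∧ (qE d Sq o i q q' ∨ ∃ u, qD d Sq o i u q ∧
      qD d Sq o i u q' ∧ Sq (hd o u) (hd o q) z (hd o q')) := Iff.rfl

lemma qD_succ {r p} : qD d Sq o (i + 1) r p ↔ qE d Sq o (i + 1) (hd o p :: r) p := Iff.rfl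

lemma qE_hd {p q} (h : qE d Sq o i p q) : hd o p = hd o q := by
  cases i with
  | zero => rw [h.1, h.2]
  | succ i =>
    obtain ⟨z, q, q', rfl, rfl, -⟩ := h
    rfl

lemma qE_left {p q} (h : qE d Sq o i p q) : qE d Sq o i p p := by
  cases i with
  | zero => exact ⟨h.1, h.1⟩
  | succ i =>
    obtain ⟨z, q, q', rfl, rfl, h1, -⟩ := h
    exact ⟨z, q, q, rfl, rfl, h1, h1, Or.inl h1.1⟩

lemma qD_new {r p} (h : qD d Sq o (i + 1) r p) : qN d Sq o i r (hd o p) := by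
  obtain ⟨z, q, q', e, rfl, h1, -⟩ := h
  obtain ⟨-, rfl⟩ := List.cons.inj e
  exact h1

lemma qN.child {q z} (h : qN d Sq o i q z) : qD d Sq o (i + 1) q (z :: q) :=
  ⟨z, q, q, rfl, rfl, h, h, Or.inl h.1⟩

lemma qE_par {p} (h : qE d Sq o (i + 1) p p) : ∃ q, qD d Sq o (i + 1) q p := by
  obtain ⟨z, q, q', rfl, -, h1, -⟩ := h
  exact ⟨q, qN.child h1⟩

lemma qD_ne {w p t} (h : qD d Sq o (i + 1) w p) (h' : qD d Sq o i t w) : hd o t ≠ hd o p :=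
  fun e => (qD_new h).2.2 ⟨t, h', e⟩

lemma q_lift {p z} (h : qE d Sq o i p p) (hz : d (hd o p) z = 1) :
    ∃ t, (qD d Sq o i t p ∨ qD d Sq o (i + 1) p t) ∧ hd o t = z := by
  by_cases e : ∃ t, qD d Sq o i t p ∧ hd o t = z
  · exact e.imp fun t h => ⟨Or.inl h.1, h.2⟩
  · exact ⟨z :: p, Or.inr (qN.child ⟨h, hz, e⟩), rfl⟩

lemma qT.right (T : qT d Sq o i) {r p p'} (h : qD d Sq o i r p) (e : qE d Sq o i p p') :
    qD d Sq o i r p' := by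
  cases i with
  | zero => exact h.elim
  | succ i =>
    rw [qD_succ, ← qE_hd e]
    exact T h e

end

namespace QL

variable {d : V → V → ℕ} {Sq : V → V → V → V → Prop} (L : QL d Sq) {o : V} {i : ℕ}
include L

lemma flip {a b c e} (h : Sq a b c e) : Sq c b a e := L.rev (L.rot (L.rot h))

lemma e_symm {p q} (h : qE d Sq o i p q) : qE d Sq o i q p := by
  induction i generalizing p q with
  | zero => exact h.symm
  | succ i ih =>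
    obtain ⟨z, q, q', rfl, rfl, h1, h2, h3⟩ := h
    exact ⟨z, q', q, rfl, rfl, h2, h1, h3.imp ih fun ⟨u, a, b, c⟩ => ⟨u, b, a, L.rev c⟩⟩

lemma d_val {r p} (h : qD d Sq o i r p) : qE d Sq o i p p := by
  cases i with
  | zero => exact h.elim
  | succ i => exact qE_left (L.e_symm h)

lemma child_inj (T : qT d Sq o i) {w p p'} (h : qD d Sq o i w p) (h' : qD d Sq o i w p')
    (e : hd o p = hd o p') : qE d Sq o i p p' := by
  cases i with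
  | zero => exact h.elim
  | succ i =>
    rw [qD_succ, ← e] at h'
    exact T (L.e_symm h) h'

lemma quad (T : qT d Sq o (i + 1)) {a b z} (h : qD d Sq o (i + 1) a z) (h' : qD d Sq o (i + 1) b z) :
    qE d Sq o i a b ∨ ∃ c, qD d Sq o i c a ∧ qD d Sq o i c b ∧
      Sq (hd o c) (hd o a) (hd o z) (hd o b) := by
  obtain ⟨y, q, q', e, e', -, -, h3⟩ := T h (L.e_symm h')
  obtain ⟨rfl, rfl⟩ := List.cons.inj e
  obtain ⟨-, rfl⟩ := List.cons.inj e'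
  exact h3

lemma d_left (T : qT d Sq o i) (T' : qT d Sq o (i + 1)) {r r' p} (h : qD d Sq o (i + 1) r p)
    (e : qE d Sq o i r r') : qD d Sq o (i + 1) r' p := by
  obtain ⟨h1, h2, h3⟩ := qD_new h
  have e' := L.e_symm e
  refine T' ⟨_, r', r, rfl, rfl, ⟨qE_left e', qE_hd e ▸ h2, ?_⟩, ⟨h1, h2, h3⟩, Or.inl e'⟩ h
  exact fun ⟨t, a, b⟩ => h3 ⟨t, T.right a e', b⟩

omit L in
lemma t_one (o : V) : qT d Sq o 1 := by
  rintro _ _ _ ⟨z, q, q', rfl, rfl, h1, -, -⟩ ⟨z', r, r', e, rfl, -, h2, -⟩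
  obtain ⟨rfl, rfl⟩ := List.cons.inj e
  exact ⟨z, q, r', rfl, rfl, h1, h2, Or.inl ⟨h1.1.1, h2.1.1⟩⟩

lemma t_step (T0 : qT d Sq o i) (T : qT d Sq o (i + 1)) (B : qB d Sq o i) : qT d Sq o (i + 2) := by
  rintro _ _ _ ⟨z, w₁, w₂, rfl, rfl, h1, h2, h3⟩ ⟨z', r, w₃, e, rfl, -, h4, h5⟩
  obtain ⟨rfl, rfl⟩ := List.cons.inj e
  refine ⟨z, w₁, w₃, rfl, rfl, h1, h4, ?_⟩
  rcases h3 with h3 | ⟨u, a1, a2, a3⟩
  · rcases h5 with h5 | ⟨u, b1, b2, b3⟩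
    · exact Or.inl (T h3 h5)
    · exact Or.inr ⟨u, T.right b1 (L.e_symm h3), b2, qE_hd h3 ▸ b3⟩
  rcases h5 with h5 | ⟨u', b1, b2, b3⟩
  · exact Or.inr ⟨u, a1, T.right a2 h5, qE_hd h5 ▸ a3⟩
  have fin : ∀ y, qD d Sq o (i + 1) y w₁ → qD d Sq o (i + 1) y w₃ →
      (hd o w₁ = hd o w₃ ∨ Sq (hd o y) (hd o w₁) z (hd o w₃)) → qE d Sq o (i + 1) w₁ w₃ ∨
        ∃ u, qD d Sq o (i + 1) u w₁ ∧ qD d Sq o (i + 1) u w₃ ∧
          Sq (hd o u) (hd o w₁) z (hd o w₃) := fun y c1 c2 c3 =>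
    c3.imp (L.child_inj T c1 c2) fun c3 => ⟨y, c1, c2, c3⟩
  rcases L.quad T a2 b1 with e | ⟨v, c1, c2, c3⟩
  · rw [← qE_hd e] at b3
    exact fin u a1 (L.d_left T0 T b2 (L.e_symm e)) (L.cc0 a3 b3)
  rcases L.cc c3 (L.rev a3) b3 with c | c | ⟨y, c4, c5, c6⟩
  · obtain ⟨s, -, s2, s3⟩ := B a2 c1 (L.rev (L.rot c))
    exact (h2.2.2 ⟨s, s2, s3⟩).elim
  · obtain ⟨s, -, s2, s3⟩ := B b1 c2 (L.rev (L.rot c))
    exact (h2.2.2 ⟨s, s2, s3⟩).elim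
  have up : ∀ u w, qD d Sq o i v u → qD d Sq o (i + 1) u w →
      (y = hd o u ∨ Sq (hd o v) (hd o u) (hd o w) y) →
      ∃ s, qD d Sq o i v s ∧ qD d Sq o (i + 1) s w ∧ hd o s = y := fun u w e1 e2 e3 =>
    e3.elim (fun e => ⟨u, e1, e2, e.symm⟩) fun e => B e2 e1 (L.rev (L.rot e))
  obtain ⟨s, s1, s2, s3⟩ := up u w₁ c1 a1 c4
  obtain ⟨s', t1, t2, t3⟩ := up u' w₃ c2 b2 c5
  exact fin s s2 (L.d_left T0 T t2 (L.child_inj T0 t1 s1 (t3.trans s3.symm))) (s3 ▸ c6)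

lemma a_step (T : qT d Sq o (i + 1)) (C : qC d Sq o i) : qA d Sq o (i + 1) := by
  have old : ∀ {c a b t}, qD d Sq o (i + 1) c a → qD d Sq o (i + 1) c b →
      Sq (hd o c) (hd o a) (hd o t) (hd o b) → qD d Sq o (i + 1) t a → qD d Sq o (i + 1) t b := by
    intro c a b t h1 h2 h3 h4
    obtain ⟨t', e, h | h⟩ := C h1 h4 (L.rev (L.rot h3))
    · exact T.right h.2 (L.child_inj T h.1 h2 e)
    · exact (qD_ne h2 h.1 e).elim
  intro c a b z h1 h2 h3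
  by_cases ea : ∃ t, qD d Sq o (i + 1) t a ∧ hd o t = z
  · obtain ⟨t, t1, rfl⟩ := ea
    exact ⟨t, rfl, Or.inr ⟨t1, old h1 h2 h3 t1⟩⟩
  by_cases eb : ∃ t, qD d Sq o (i + 1) t b ∧ hd o t = z
  · obtain ⟨t, t1, rfl⟩ := eb
    exact ⟨t, rfl, Or.inr ⟨old h2 h1 (L.rev h3) t1, t1⟩⟩
  have na : qN d Sq o (i + 1) a z := ⟨L.d_val h1, L.adj (L.rot h3), ea⟩
  have nb : qN d Sq o (i + 1) b z := ⟨L.d_val h2, L.adj (L.rot (L.rev h3)), eb⟩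
  exact ⟨z :: a, rfl, Or.inl ⟨na.child, z, b, a, rfl, rfl, nb, na, Or.inr ⟨c, h2, h1, L.rev h3⟩⟩⟩

lemma c_step (T : qT d Sq o (i + 1)) (A : qA d Sq o i) : qC d Sq o i := by
  intro a b s z h1 h2 h3
  rcases L.quad T h1 h2 with e | ⟨c, c1, c2, c3⟩
  · exact (L.ne (L.rot h3) (qE_hd e)).elim
  rcases L.cc0 (L.rev (L.rot c3)) (L.rev (L.rot h3)) with e | e
  · exact ⟨c, e, Or.inr ⟨c1, c2⟩⟩
  · exact A c1 c2 (L.rev (L.rot e))

lemma b_step (T : qT d Sq o (i + 1)) (T' : qT d Sq o (i + 2)) (B : qB d Sq o i)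
    (C : qC d Sq o i) : qB d Sq o (i + 1) := by
  intro u w v z h1 h2 h3
  obtain ⟨s, s1 | s1, rfl⟩ := q_lift (qD_new h2).1 (L.adj (L.rot h3))
  · obtain ⟨s', -, e1, e2⟩ := B h2 s1 (L.rot h3)
    exact (qD_ne h1 e1 e2).elim
  refine ⟨s, s1, ?_, rfl⟩
  by_cases e : ∃ t, qD d Sq o (i + 1) t s ∧ hd o t = hd o w
  · obtain ⟨t, t1, t2⟩ := e
    obtain ⟨t', e, h | h⟩ := C s1 t1 (t2 ▸ L.flip h3)
    · exact (qD_ne h1 (T.right h.2 (L.child_inj T h.1 h2 e)) t2).elim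
    · exact (qD_ne h2 h.1 e).elim
  · exact T' ⟨_, s, u, rfl, rfl, ⟨L.d_val s1, L.adj (L.rot (L.rot h3)), e⟩, qD_new h1,
      Or.inr ⟨v, s1, h2, L.rot h3⟩⟩ h1

lemma inv (o : V) (i : ℕ) :
    qT d Sq o i ∧ qT d Sq o (i + 1) ∧ qA d Sq o i ∧ qB d Sq o i ∧ qC d Sq o i := by
  induction i with
  | zero =>
    have A : qA d Sq o 0 := fun _ _ _ _ h => h.elim
    exact ⟨fun _ _ _ h h' => ⟨h.1, h'.2⟩, t_one o, A, fun _ _ _ _ _ h => h.elim,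
      L.c_step (t_one o) A⟩
  | succ i ih =>
    obtain ⟨T0, T, -, B, C⟩ := ih
    have T' := L.t_step T0 T B
    have A := L.a_step T C
    exact ⟨T, T', A, L.b_step T T' B C, L.c_step T' A⟩

/-- a simply connected square complex with the local cube conditions is modular -/
theorem qm (sc : QSC d Sq) : QM d Sq := by
  suffices h : ∀ o, (∀ {a b}, d a b = 1 → d o a ≠ d o b) ∧ ∀ {a b z}, d z a = 1 → d z b = 1 →
      d o a + 1 = d o z → d o b + 1 = d o z → a = b ∨ ∃ c, d o c + 2 = d o z ∧ Sq c a z b from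
    { L with bip := fun o => (h o).1, qc := fun o => (h o).2 }
  intro o
  have T := fun i => (L.inv o i).1
  let W := {x : ℕ × List V // qE d Sq o x.1 x.2 x.2}
  let S : Setoid W := ⟨fun x y => x.1.1 = y.1.1 ∧ qE d Sq o x.1.1 x.1.2 y.1.2,
    fun x => ⟨rfl, x.2⟩, fun h => ⟨h.1.symm, h.1 ▸ L.e_symm h.2⟩,
    fun h h' => ⟨h.1.trans h'.1, T _ h.2 (h.1 ▸ h'.2)⟩⟩
  let f : Quotient S → V := Quotient.lift (fun x => hd o x.1.2) fun _ _ h => qE_hd h.2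
  let N : W → W → Prop := fun x y => (y.1.1 = x.1.1 + 1 ∧ qD d Sq o y.1.1 x.1.2 y.1.2) ∨
    (x.1.1 = y.1.1 + 1 ∧ qD d Sq o x.1.1 y.1.2 x.1.2)
  have Ns : ∀ {x y}, N x y → N y x := fun h => h.symm
  have Nr : ∀ {x x' y}, N x y → S.r x x' → N x' y := by
    rintro ⟨⟨i, p⟩, hp⟩ ⟨⟨_, p'⟩, hp'⟩ ⟨⟨j, q⟩, hq⟩ (⟨rfl, h⟩ | ⟨rfl, h⟩) ⟨rfl, e⟩
    · exact Or.inl ⟨rfl, L.d_left (T _) (T _) h e⟩
    · exact Or.inr ⟨rfl, (T _).right h e⟩
  let A : Quotient S → Quotient S → Prop := fun x y => ∃ a b, ⟦a⟧ = x ∧ ⟦b⟧ = y ∧ N a b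
  have Am : ∀ {a b : W}, A ⟦a⟧ ⟦b⟧ ↔ N a b := fun {a b} =>
    ⟨fun ⟨_, _, h1, h2, h⟩ => Ns (Nr (Ns (Nr h (Quotient.exact h1))) (Quotient.exact h2)),
      fun h => ⟨a, b, rfl, rfl, h⟩⟩
  have lift : ∀ (p : W) z, d (hd o p.1.2) z = 1 → ∃ q, N p q ∧ hd o q.1.2 = z := by
    rintro ⟨⟨i, p⟩, hp⟩ z hz
    obtain ⟨t, ht | ht, e⟩ := q_lift hp hz
    · cases i with
      | zero => exact ht.elim
      | succ i => exact ⟨⟨(i, t), (qD_new ht).1⟩, Or.inr ⟨rfl, ht⟩, e⟩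
    · exact ⟨⟨(i + 1, t), L.d_val ht⟩, Or.inl ⟨rfl, ht⟩, e⟩
  have C : QCv d Sq f A := by
    refine ⟨fun ⟨a, b, h1, h2, h⟩ => ⟨b, a, h2, h1, Ns h⟩, ?_, ?_, ?_, ?_⟩
    · rintro _ _ ⟨⟨⟨i, p⟩, hp⟩, ⟨⟨j, q⟩, hq⟩, rfl, rfl, ⟨rfl, h⟩ | ⟨rfl, h⟩⟩
      · exact (qD_new h).2.1
      · exact (L.symm _ _).trans (qD_new h).2.1
    · rintro ⟨⟨i, p⟩, hp⟩ ⟨⟨j, q⟩, hq⟩ ⟨⟨k, r⟩, hr⟩ h h' e
      change hd o q = hd o r at e
      replace h := Am.1 h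
      replace h' := Am.1 h'
      rcases h with ⟨rfl, h⟩ | ⟨rfl, h⟩ <;> rcases h' with ⟨e', h'⟩ | ⟨e', h'⟩ <;>
        dsimp only at e' h h'
      · subst e'
        exact Quotient.sound ⟨rfl, L.child_inj (T _) h h' e⟩
      · exact (qD_ne h h' e.symm).elim
      · subst e'
        exact (qD_ne h' h e).elim
      · obtain rfl : j = k := by omega
        rcases L.quad (T _) h h' with c | ⟨c, -, -, c3⟩
        · exact Quotient.sound ⟨rfl, c⟩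
        · exact (L.ne (L.rot c3) e).elim
    · rintro ⟨p⟩ z hz
      obtain ⟨q, h1, h2⟩ := lift p z hz
      exact ⟨⟦q⟧, Am.2 h1, h2⟩
    · rintro ⟨⟨i, p⟩, hp⟩ ⟨⟨j, q⟩, hq⟩ ⟨⟨k, r⟩, hr⟩ z h h' e
      change Sq (hd o p) (hd o q) z (hd o r) at e
      have fin : ∀ j q r hq hr, (∃ t, hd o t = z ∧ ((qD d Sq o (j + 1) q t ∧ qD d Sq o (j + 1) r t) ∨
          (qD d Sq o j t q ∧ qD d Sq o j t r))) →
          ∃ s, A ⟦⟨(j, q), hq⟩⟧ s ∧ A ⟦⟨(j, r), hr⟩⟧ s ∧ f s = z := by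
        rintro j q r hq hr ⟨t, e, h | h⟩
        · exact ⟨⟦⟨(j + 1, t), L.d_val h.1⟩⟧, Am.2 (Or.inl ⟨rfl, h.1⟩), Am.2 (Or.inl ⟨rfl, h.2⟩), e⟩
        · cases j with
          | zero => exact h.1.elim
          | succ j => exact ⟨⟦⟨(j, t), (qD_new h.1).1⟩⟧, Am.2 (Or.inr ⟨rfl, h.1⟩),
              Am.2 (Or.inr ⟨rfl, h.2⟩), e⟩
      replace h := Am.1 h
      replace h' := Am.1 h'
      rcases h with ⟨rfl, h⟩ | ⟨rfl, h⟩ <;> rcases h' with ⟨e', h'⟩ | ⟨e', h'⟩ <;>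
        dsimp only at e' h h'
      · subst e'
        exact fin _ _ _ _ _ ((L.inv o _).2.2.1 h h' e)
      · subst e'
        obtain ⟨s, s1, s2, s3⟩ := (L.inv o _).2.2.2.1 h h' (L.rev e)
        exact ⟨⟦⟨(_, s), L.d_val s1⟩⟧, Am.2 (Or.inr ⟨rfl, s2⟩), Am.2 (Or.inl ⟨rfl, s1⟩), s3⟩
      · subst e'
        obtain ⟨s, s1, s2, s3⟩ := (L.inv o _).2.2.2.1 h' h e
        exact ⟨⟦⟨(_, s), L.d_val s1⟩⟧, Am.2 (Or.inl ⟨rfl, s1⟩), Am.2 (Or.inr ⟨rfl, s2⟩), s3⟩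
      · obtain rfl : j = k := by omega
        exact fin _ _ _ _ _ ((L.inv o _).2.2.2.2 h h' e)
  let u : W := ⟨(0, []), rfl, rfl⟩
  have cn : ∀ i p h, Relation.ReflTransGen A ⟦u⟧ ⟦⟨(i, p), h⟩⟧ ∧ d o (hd o p) ≤ i := by
    intro i
    induction i with
    | zero =>
      intro p hp
      obtain rfl := hp.1
      exact ⟨.refl, (L.refl o).le⟩
    | succ i ih =>
      intro p hp
      obtain ⟨r, h⟩ := qE_par hp
      obtain ⟨a1, a2⟩ := ih r (qD_new h).1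
      have := L.tri o (hd o r) (hd o p)
      have : d (hd o r) (hd o p) = 1 := (qD_new h).2.1
      exact ⟨a1.tail (Am.2 (Or.inl ⟨rfl, h⟩)), by omega⟩
  have inj : ∀ p q : W, hd o p.1.2 = hd o q.1.2 → S.r p q := fun p q h =>
    Quotient.exact (sc _ f A C ⟦p⟧ ⟦q⟧ (.trans (Relation.ReflTransGen.mono (fun _ _ h => C.symm h)
      _ _ (Relation.reflTransGen_swap.2 (cn _ _ p.2).1)) (cn _ _ q.2).1) h)
  have lv : ∀ n v, d o v = n → ∃ p : W, hd o p.1.2 = v ∧ p.1.1 = n := by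
    intro n
    induction n with
    | zero => exact fun v h => ⟨u, L.eq0 h, rfl⟩
    | succ n ih =>
      intro v h
      obtain ⟨c, c1, c2⟩ := L.step (a := v) (b := o) (n := n) (by rwa [L.symm])
      obtain ⟨q, rfl, q2⟩ := ih c (by rwa [L.symm])
      obtain ⟨p, p1, rfl⟩ := lift q v (by rwa [L.symm])
      have : d o (hd o p.1.2) ≤ p.1.1 := (cn _ _ p.2).2
      refine ⟨p, rfl, ?_⟩
      rcases p1 with p1 | p1 <;> omega
  have lev : ∀ p : W, d o (hd o p.1.2) = p.1.1 := fun p => by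
    obtain ⟨q, q1, q2⟩ := lv _ (hd o p.1.2) rfl
    rw [← q2, (inj q p q1).1]
  refine ⟨fun {a b} h => ?_, fun {a b z} h1 h2 ha hb => ?_⟩
  · obtain ⟨p, rfl, -⟩ := lv _ a rfl
    obtain ⟨q, q1, rfl⟩ := lift p b h
    rw [lev, lev]
    rcases q1 with q1 | q1 <;> omega
  · obtain ⟨p, rfl, -⟩ := lv _ z rfl
    obtain ⟨q, q1, rfl⟩ := lift p a h1
    obtain ⟨r, r1, rfl⟩ := lift p b h2
    rw [lev, lev] at ha hb
    rw [lev]
    obtain ⟨⟨i, p⟩, hp⟩ := p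
    obtain ⟨⟨j, q⟩, hq⟩ := q
    obtain ⟨⟨k, r⟩, hr⟩ := r
    dsimp only [N] at *
    subst ha
    obtain rfl : k = j := by omega
    rcases q1 with q1 | q1
    · omega
    rcases r1 with r1 | r1
    · omega
    rcases L.quad (T _) q1.2 r1.2 with e | ⟨c, c1, -, c3⟩
    · exact Or.inl (qE_hd e)
    · cases k with
      | zero => exact c1.elim
      | succ k => exact Or.inr ⟨_, by rw [lev ⟨(k, c), (qD_new c1).1⟩], c3⟩

end QL

end Pool.Agent.Lib.MP_35cce7_an.Q
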