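import Pool.Agent.Lib.MP_35cce7_an.KDefs
import Pool.Agent.Lib.MP_35cce7_an.QCov

namespace Pool.Agent.Lib.MP_35cce7_an.K

open Q

variable {V : Type} {d : V → V → ℕ} {ty : V → Option Bool} {Ch : V → V → V → Prop}

theorem Fan.nl (F : Fan d ty Ch) {p l w} (h : Ch p l w) : ty p ≠ none := by
  obtain ⟨b, h, -⟩ := F.tn h
  simp [h]

theorem Fan.tne (F : Fan d ty Ch) {p l w} (h : Ch p l w) : ty p ≠ ty w := by
  obtain ⟨b, h, h'⟩ := F.tn h
  simp [h, h']

theorem Fan.opp (F : Fan d ty Ch) {p l w l' w'} (h : Ch p l w) (h' : Ch p l' w') :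
    ty w = ty w' := by
  obtain ⟨b, h1, h2⟩ := F.tn h
  obtain ⟨b', h3, h4⟩ := F.tn h'
  obtain rfl : b = b' := Option.some.inj (h1.symm.trans h3)
  rw [h2, h4]

theorem Fan.ql (F : Fan d ty Ch) : QL d (Sq Ch) where
  toMet := F.toMet
  rot h := h.elim (fun h => .inr ⟨F.sy h.1, F.sy h.2.1, h.2.2⟩) fun h => .inl ⟨h.2.1, h.1, h.2.2.symm⟩
  rev h := h.imp (fun h => ⟨h.2.1, h.1, h.2.2.symm⟩) fun h => ⟨F.sy h.1, F.sy h.2.1, h.2.2⟩
  adj h := h.elim (fun h => F.ad h.1) fun h => (F.symm _ _).trans (F.ad h.1)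
  ne h := h.elim (fun h e => F.tne h.1 (e ▸ rfl)) fun h => h.2.2
  cc0 := by
    rintro w p z q r (⟨a1, a2, a3⟩ | ⟨a1, a2, a3⟩) (⟨b1, b2, b3⟩ | ⟨b1, b2, b3⟩)
    · exact (eq_or_ne p r).imp_right fun e => .inl ⟨a1, b2, e⟩
    · exact (F.nl a1 (F.tl b1)).elim
    · exact (F.nl b1 (F.tl a1)).elim
    · exact .inl ((F.c4 (F.sy a1) (F.sy a2) b2 b1).resolve_left a3)
  cc := by
    rintro v w w' q z p r (⟨a1, a2, a3⟩ | ⟨a1, a2, a3⟩) (⟨b1, b2, b3⟩ | ⟨b1, b2, b3⟩)
      (⟨c1, c2, c3⟩ | ⟨c1, c2, c3⟩)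
    · exact (F.nl b1 (F.tl a1)).elim
    · exact (F.nl b1 (F.tl a1)).elim
    · exact (F.nl c1 (F.tl a2)).elim
    · rcases F.c6 (F.sy a1) (F.sy a2) c1 c2 b2 b1 with e | e | e | e | e | e
      · exact (a3 e).elim
      · exact (c3 e).elim
      · exact (b3 e.symm).elim
      · exact .inr (.inl (.inl ⟨a2, e ▸ F.sy c2, c3⟩))
      · subst e
        have e := (F.c4 (F.sy a1) (F.sy a2) c1 b1).resolve_left a3
        exact .inl (.inl ⟨a1, e ▸ F.sy b2, b3⟩)
      · exact .inl (.inl ⟨a1, e ▸ F.sy b2, b3⟩)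
    · exact (F.tne c1 (F.opp a2 b1)).elim
    · exact (F.nl c1 (F.tl a2)).elim
    · exact (F.nl b1 (F.tl a2)).elim
    · exact (F.nl b1 (F.tl a2)).elim

theorem Fan.fm (F : Fan d ty Ch) (sc : QSC d (Sq Ch)) : FM d ty Ch :=
  ⟨F, (F.ql.qm sc).bip, (F.ql.qm sc).qc⟩

namespace FM

variable (F : FM d ty Ch)
include F

/-- two closer neighbours of an L-vertex span a chamber -/
theorem inC {o l a b} (hl : ty l = none) (ha : d l a = 1) (hb : d l b = 1)
    (h1 : d o a + 1 = d o l) (h2 : d o b + 1 = d o l) :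
    a = b ∨ ∃ c, d o c + 2 = d o l ∧ Ch a l b ∧ Ch a c b := by
  rcases F.qc o ha hb h1 h2 with e | ⟨c, e, ⟨c1, -⟩ | ⟨c1, c2, -⟩⟩
  · exact .inl e
  · exact (F.nl (F.sy c1) hl).elim
  · exact .inr ⟨c, e, c2, c1⟩

/-- two closer neighbours of an L-vertex of one type are equal -/
theorem inL {o l a b} (hl : ty l = none) (ha : d l a = 1) (hb : d l b = 1)
    (h1 : d o a + 1 = d o l) (h2 : d o b + 1 = d o l) (e : ty a = ty b) : a = b :=
  (F.inC hl ha hb h1 h2).resolve_right fun ⟨_, _, h, _⟩ => F.tne h e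

/-- two closer neighbours of a vertex of type H or D -/
theorem inP {o p a b} (hp : ty p ≠ none) (ha : d p a = 1) (hb : d p b = 1)
    (h1 : d o a + 1 = d o p) (h2 : d o b + 1 = d o p) :
    a = b ∨ ∃ w, d o w + 2 = d o p ∧ Ch p a w ∧ Ch p b w := by
  rcases F.qc o ha hb h1 h2 with e | ⟨c, e, ⟨c1, c2, -⟩ | ⟨-, c2, -⟩⟩
  · exact .inl e
  · exact .inr ⟨c, e, F.sy c1, F.sy c2⟩
  · exact (hp (F.tl c2)).elim

/-- two common neighbours of two vertices of type H or D span a book -/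
theorem book {p q a b} (hp : ty p ≠ none) (hpq : p ≠ q) (h1 : d p a = 1) (h2 : d q a = 1)
    (h3 : d p b = 1) (h4 : d q b = 1) : a = b ∨ (Ch p a q ∧ Ch p b q) := by
  have e1 := F.bip p h2
  have e2 := F.tri p a q
  have e3 := F.symm a q
  have e4 : d p q ≠ 0 := fun e => hpq (F.eq0 e)
  have hq : ty q ≠ none := fun e => (F.bi h2).1 e (by_contra fun e' => hp ((F.bi h1).2 e'))
  refine (F.inP (o := p) hq h2 h4 (by omega) (by omega)).imp_right fun ⟨w, e, c1, c2⟩ => ?_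
  obtain rfl : p = w := F.eq0 (by omega)
  exact ⟨F.sy c1, F.sy c2⟩

theorem page {o p l v} (h1 : Ch p l v) (h3 : d o v + 2 = d o p) : d o l + 1 = d o p := by
  have := F.tri o v l
  have := F.tri o l p
  have := F.ad h1
  have := F.ad (F.sy h1)
  have := F.symm l p
  omega

/-- the diagonal parent is unique -/
theorem par {o p l l' v v'} (h1 : Ch p l v) (h2 : Ch p l' v') (h3 : d o v + 2 = d o p)
    (h4 : d o v' + 2 = d o p) : v = v' := by
  have k : ∀ {l v v'}, Ch p l v → Ch p l v' → d o v + 2 = d o p → d o v' + 2 = d o p → v = v' :=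
    fun h1 h2 h3 h4 => by
      have := F.page h1 h3
      exact F.inL (o := o) (F.tl h1) ((F.symm _ _).trans (F.ad (F.sy h1)))
        ((F.symm _ _).trans (F.ad (F.sy h2))) (by omega) (by omega) (F.opp h1 h2)
  rcases F.inP (F.nl h1) (F.ad h1) (F.ad h2) (F.page h1 h3) (F.page h2 h4) with rfl | ⟨w, e, c1, c2⟩
  · exact k h1 h2 h3 h4
  · exact (k h1 c1 h3 e).trans (k c2 h2 e h4)

theorem med (x y z : V) : ∃ m, d x m + d m y = d x y ∧ d y m + d m z = d y z ∧
    d x m + d m z = d x z := by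
  have s := F.symm
  have t := F.tri
  induction hn : d y x generalizing y with
  | zero =>
    obtain rfl := F.eq0 hn
    exact ⟨y, by simp [F.refl], by simp [F.refl], by simp [F.refl]⟩
  | succ n ih =>
    have k : ∀ w, d y w = 1 → d w x = n → d z w + 1 = d z y → ∃ m, d x m + d m y = d x y ∧
        d y m + d m z = d y z ∧ d x m + d m z = d x z := fun w h1 h2 h3 => by
      obtain ⟨m, m1, m2, m3⟩ := ih w h2
      have := t x m y
      have := t m w y
      exact ⟨m, by grind, by grind, m3⟩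
    obtain ⟨w, h1, h2⟩ := F.step hn
    have b := F.bip z h1
    have t1 := t z y w
    have t2 := t z w y
    by_cases h3 : d z w + 1 = d z y
    · exact k w h1 h2 h3
    obtain ⟨m, m1, m2, m3⟩ := ih w h2
    rcases e : d w m with _ | j
    · obtain rfl := F.eq0 e
      exact ⟨y, by simp [F.refl], by simp [F.refl], by grind⟩
    obtain ⟨u, u1, u2⟩ := F.step e
    have t3 := t z m u
    have t4 := t z u w
    have t5 := t x m u
    rcases F.qc z u1 ((s _ _).trans h1) (by grind) (by grind) with rfl | ⟨c, c1, c2⟩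
    · grind
    · have a1 := F.toFan.ql.adj c2
      have a2 := F.toFan.ql.adj (F.toFan.ql.rev c2)
      have t6 := t x u c
      have t7 := t x c y
      exact k c ((s _ _).trans a2) (by grind) (by grind)

end FM

end Pool.Agent.Lib.MP_35cce7_an.K
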