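import Pool.Agent.Lib.MP_35cce7_an.QDefs

/-! Definitions for fans of groups with angles (π/4, π/2, π/4 or π/5). -/

namespace Pool.Agent.Lib.MP_35cce7_an.K

open Q

section
variable {V : Type}

/-- squares: two chambers on one diagonal -/
def Sq (Ch : V → V → V → Prop) (a b c e : V) : Prop :=
  (Ch a b c ∧ Ch a e c ∧ b ≠ e) ∨ (Ch b a e ∧ Ch b c e ∧ a ≠ c)

/-- types `none` = L, `some true` = H, `some false` = D; `Ch p l w` is a chamber with L-vertex `l`;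
`d` is the metric of the graph of legs L-H, L-D; links of H and D have girth at least eight -/
structure Fan (d : V → V → ℕ) (ty : V → Option Bool) (Ch : V → V → V → Prop) : Prop
    extends Met d where
  sy : ∀ {p l w}, Ch p l w → Ch w l p
  tl : ∀ {p l w}, Ch p l w → ty l = none
  tn : ∀ {p l w}, Ch p l w → ∃ b, ty p = some b ∧ ty w = some (!b)
  ad : ∀ {p l w}, Ch p l w → d p l = 1
  bi : ∀ {a b}, d a b = 1 → (ty a = none ↔ ty b ≠ none)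
  c4 : ∀ {p l₁ l₂ w₁ w₂}, Ch p l₁ w₁ → Ch p l₂ w₁ → Ch p l₂ w₂ → Ch p l₁ w₂ → l₁ = l₂ ∨ w₁ = w₂
  c6 : ∀ {p l₁ l₂ l₃ w₁ w₂ w₃}, Ch p l₁ w₁ → Ch p l₂ w₁ → Ch p l₂ w₂ → Ch p l₃ w₂ → Ch p l₃ w₃ →
    Ch p l₁ w₃ → l₁ = l₂ ∨ l₂ = l₃ ∨ l₃ = l₁ ∨ w₁ = w₂ ∨ w₂ = w₃ ∨ w₃ = w₁

/-- a fan whose graph of legs is modular -/
structure FM (d : V → V → ℕ) (ty : V → Option Bool) (Ch : V → V → V → Prop) : Prop
    extends Fan d ty Ch where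
  bip : ∀ o {a b}, d a b = 1 → d o a ≠ d o b
  qc : ∀ o {a b z}, d z a = 1 → d z b = 1 → d o a + 1 = d o z → d o b + 1 = d o z →
    a = b ∨ ∃ c, d o c + 2 = d o z ∧ Sq Ch c a z b

/-- links of D have no 8-cycle -/
def C8 (ty : V → Option Bool) (Ch : V → V → V → Prop) : Prop :=
  ∀ {p l₁ l₂ l₃ l₄ w₁ w₂ w₃ w₄}, ty p = some false → Ch p l₁ w₁ → Ch p l₂ w₁ → Ch p l₂ w₂ →
    Ch p l₃ w₂ → Ch p l₃ w₃ → Ch p l₄ w₃ → Ch p l₄ w₄ → Ch p l₁ w₄ →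
    l₁ = l₂ ∨ l₂ = l₃ ∨ l₃ = l₄ ∨ l₄ = l₁ ∨ w₁ = w₂ ∨ w₂ = w₃ ∨ w₃ = w₄ ∨ w₄ = w₁

/-- an orientation of the links of the vertices of type `b`, out-degrees at most `c` -/
def Ori (ty : V → Option Bool) (Ch : V → V → V → Prop) (b : Bool) (c : ℕ)
    (O : V → V → V → Prop) : Prop :=
  (∀ p q, {v | O p q v}.encard ≤ c) ∧ ∀ p l w, ty p = some b → Ch p l w → O p l w ∨ O p w l

/-- `v` is the only vertex of its type with the property `R` -/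
def Uq (ty : V → Option Bool) (R : V → Prop) (v : V) : Prop :=
  R v ∧ ∀ v', R v' → ty v' = ty v → v' = v

/-- one step of deduction from the root `o` with the orientation `O` -/
def Ru (d : V → V → ℕ) (ty : V → Option Bool) (Ch : V → V → V → Prop) (o : V)
    (O : V → V → V → Prop) (p q v : V) : Prop :=
  Uq ty (fun v => d p v = 1 ∧ d o v + 1 = d o p) v ∨
    Uq ty (fun v => (∃ l, Ch p l v) ∧ d o v + 2 = d o p) v ∨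
      Uq ty (fun v => d p v = 1 ∧ d q v = 1) v ∨ O p q v

/-- the vertices that the pair of roots `a`, `b` knows after `n` steps -/
def Kn (d : V → V → ℕ) (ty : V → Option Bool) (Ch : V → V → V → Prop) (a b : V)
    (A B : V → V → V → Prop) : ℕ → V → Prop
  | 0, v => Uq ty (fun u => d a u + d u b = d a b ∧ d a u = d a v) v
  | n + 1, v => Kn d ty Ch a b A B n v ∨ ∃ p q, Kn d ty Ch a b A B n p ∧ Kn d ty Ch a b A B n q ∧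
      (Ru d ty Ch a A p q v ∨ Ru d ty Ch b B p q v)

end

section
variable {G : Type} [Group G]

/-- no reduced relation with two or three pairs of syllables -/
structure Gi (U W : Subgroup G) : Prop where
  two : ∀ u₁ ∈ U, ∀ w₁ ∈ W, ∀ u₂ ∈ U, ∀ w₂ ∈ W, u₁ * w₁ * u₂ * w₂ = 1 →
    u₁ ∈ W ∨ w₁ ∈ U ∨ u₂ ∈ W ∨ w₂ ∈ U
  three : ∀ u₁ ∈ U, ∀ w₁ ∈ W, ∀ u₂ ∈ U, ∀ w₂ ∈ W, ∀ u₃ ∈ U, ∀ w₃ ∈ W,
    u₁ * w₁ * u₂ * w₂ * u₃ * w₃ = 1 → u₁ ∈ W ∨ w₁ ∈ U ∨ u₂ ∈ W ∨ w₂ ∈ U ∨ u₃ ∈ W ∨ w₃ ∈ U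

/-- no reduced relation with four pairs of syllables -/
def G4 (U W : Subgroup G) : Prop :=
  ∀ u₁ ∈ U, ∀ w₁ ∈ W, ∀ u₂ ∈ U, ∀ w₂ ∈ W, ∀ u₃ ∈ U, ∀ w₃ ∈ W, ∀ u₄ ∈ U, ∀ w₄ ∈ W,
    u₁ * w₁ * u₂ * w₂ * u₃ * w₃ * u₄ * w₄ = 1 →
    u₁ ∈ W ∨ w₁ ∈ U ∨ u₂ ∈ W ∨ w₂ ∈ U ∨ u₃ ∈ W ∨ w₃ ∈ U ∨ u₄ ∈ W ∨ w₄ ∈ U

/-- the coset graph of `U`, `W` has an orientation with out-degrees at most `c` -/
def Sel (c : ℕ) (U W : Subgroup G) : Prop :=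
  ∃ σ : G → Prop, (∀ g, {q : G ⧸ W | ∃ x, g⁻¹ * x ∈ U ∧ σ x ∧ q = x}.encard ≤ c) ∧
    ∀ g, {q : G ⧸ U | ∃ x, g⁻¹ * x ∈ W ∧ ¬ σ x ∧ q = x}.encard ≤ c

variable {ι : Type}

/-- a fan of groups: centre `P l`, leaves `P h` and `P j` -/
structure GF (P : ι → Subgroup G) (l h : ι) : Prop where
  ne : l ≠ h
  gen : ∀ g, g ∈ ⨆ i, P i
  scc : SCC fun i (g : G) => (⟨i, g⟩ : Σ i, G ⧸ P i)
  jj : ∀ j, j ≠ l → j ≠ h → ∃ K : Subgroup G, (∀ i, i ≠ j → i ≠ h → P i ≤ K) ∧ P j ⊓ K ≤ P l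
  gH : ∀ j, j ≠ l → j ≠ h → Gi (P h ⊓ P j) (P h ⊓ P l)
  gD : ∀ j, j ≠ l → j ≠ h → Gi (P j ⊓ P h) (P j ⊓ P l)

variable {P : ι → Subgroup G}

def In (g : G) (v : Σ i, G ⧸ P i) : Prop := (g : G ⧸ P v.1) = v.2

variable (P) (l h : ι)

/-- the graph of legs -/
def leg : SimpleGraph (Σ i, G ⧸ P i) where
  Adj a b := (a.1 = l ↔ b.1 ≠ l) ∧ ∃ g, In g a ∧ In g b
  symm := ⟨fun _ _ h => ⟨by tauto, h.2.imp fun _ h => h.symm⟩⟩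
  loopless := ⟨fun _ h => by tauto⟩

open Classical in
noncomputable def gty (v : Σ i, G ⧸ P i) : Option Bool :=
  if v.1 = l then none else some (decide (v.1 = h))

def gCh (p a w : Σ i, G ⧸ P i) : Prop :=
  a.1 = l ∧ p.1 ≠ l ∧ w.1 ≠ l ∧ (p.1 = h ↔ w.1 ≠ h) ∧ ∃ g, In g p ∧ In g a ∧ In g w

end

/-- no label three at `b`, and recursively for the letters of `F` that do not commute with `b` -/
inductive Good {B : Type} (M : CoxeterMatrix B) : B → Set B → Prop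
  | mk (b : B) (F : Set B) (h0 : b ∉ F) (h1 : ∀ c ∈ F, M b c = 2 ∨ 4 ≤ M b c)
      (h2 : ∀ c ∈ F, M b c ≠ 2 → Good M c {e | e ∈ F ∧ M b e = 2}) : Good M b F

end Pool.Agent.Lib.MP_35cce7_an.K
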