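import Pool.Agent.Lib.MP_35cce7_an.QGDef

namespace Pool.Agent.Lib.MP_35cce7_an.Q

section
variable {B : Type} {M : CoxeterMatrix B}

lemma gn_comm {i j : B} (h : M i j = 2) : Commute (gn M i) (gn M j) := by
  have := braid (M := M) (i := i) (j := j) (by omega)
  rw [h] at this
  simpa [alt, List.range_succ, Commute, SemiconjBy] using this

lemma par_one {i : B} {u : Ar M} (hu : u ∈ par M {i}) : ∃ n : ℤ, gn M i ^ n = u := by
  rwa [par, Set.image_singleton, Subgroup.mem_closure_singleton] at hu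

lemma par_two {i j : B} (h : M i j = 2) {u : Ar M} (hu : u ∈ par M {i, j}) :
    ∃ a b : ℤ, gn M i ^ a * gn M j ^ b = u := by
  have c := gn_comm h
  refine par_ind (Q := fun u => ∃ a b : ℤ, gn M i ^ a * gn M j ^ b = u) ⟨0, 0, by simp⟩ ?_ hu
  rintro k (rfl | rfl) _ ⟨a, b, rfl⟩
  · exact ⟨⟨1 + a, b, by group⟩, ⟨-1 + a, b, by group⟩⟩
  · refine ⟨⟨a, 1 + b, ?_⟩, ⟨a, -1 + b, ?_⟩⟩
    · rw [← mul_assoc, ← (c.zpow_left a).eq]
      group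
    · rw [← mul_assoc, ← (c.zpow_left a).inv_right.eq]
      group

lemma zpow_mem_par {S : Set B} {i : B} (h : i ∈ S) (n : ℤ) : gn M i ^ n ∈ par M S :=
  Subgroup.zpow_mem _ (gn_mem h) n

lemma zpow_eq_zero {S : Set B} {i : B} (h : i ∉ S) {n : ℤ} (hn : gn M i ^ n ∈ par M S) : n = 0 := by
  have h1 := par_mono (T := ∅) (by rintro j ⟨h1, rfl⟩; exact h h1)
    (par_inf hn (zpow_mem_par (S := {i}) rfl n))
  have h2 : gn M i ^ n = 1 := by simpa [par] using h1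
  have h3 := congrArg (deg M) h2
  rw [map_zpow, map_one, deg, alift_gn, ← ofAdd_zsmul] at h3
  simpa using h3

end

variable {M : CoxeterMatrix (Bool × Bool)}

lemma z4_ad {a b : V4 M} : (Z4 M).ad a b ↔ (gr4 M).Adj a b := and_or_left.symm

lemma N4.refl (a : V4 M) : N4 a a := (In4.ex a).imp fun _ h => ⟨h, h⟩

lemma N4.reach {a b : V4 M} (h : N4 a b) : (gr4 M).Reachable a b := by
  obtain ⟨g, h1, h2⟩ := h
  have c : (gr4 M).Reachable a ⟨(b.1.1, a.1.2), g⟩ := by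
    by_cases e : a.1.1 = b.1.1
    · rw [← h1.eq (In4.mk g (b.1.1, a.1.2)) (Prod.ext e rfl)]
    · exact SimpleGraph.Adj.reachable ⟨⟨g, h1, In4.mk g _⟩, Or.inl ⟨e, rfl⟩⟩
  refine c.trans ?_
  by_cases e : a.1.2 = b.1.2
  · rw [(In4.mk g (b.1.1, a.1.2)).eq h2 (Prod.ext rfl e)]
  · exact SimpleGraph.Adj.reachable ⟨⟨g, In4.mk g _, h2⟩, Or.inr ⟨rfl, e⟩⟩

lemma gr4_conn : (gr4 M).Connected := by
  have key : ∀ g : Ar M, (gr4 M).Reachable ⟨(true, true), (1 : Ar M)⟩ ⟨(true, true), g⟩ := fun g => by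
    have : ∀ (x y : Ar M) i, (y = gn M i ∨ y = (gn M i)⁻¹) →
        (gr4 M).Reachable ⟨(true, true), x⟩ ⟨(true, true), (x * y : Ar M)⟩ := fun x y i hy => by
      obtain ⟨j, hj⟩ := exists_ne i
      refine (N4.reach ⟨x, In4.mk x _, In4.mk x j⟩).trans
        (N4.reach ⟨x * y, (In4.mk x j).iff.2 ?_, rfl⟩)
      rcases hy with rfl | rfl <;> simpa using gn_mem (S := {i | i ≠ j}) hj.symm
    refine Subgroup.closure_induction_right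
      (p := fun (g : Ar M) _ => (gr4 M).Reachable ⟨(true, true), (1 : Ar M)⟩ ⟨(true, true), g⟩)
      (.refl _) ?_ ?_ (par_univ g)
    · rintro x - _ ⟨i, -, rfl⟩ h
      exact h.trans (this _ _ i (Or.inl rfl))
    · rintro x - _ ⟨i, -, rfl⟩ h
      exact h.trans (this _ _ i (Or.inr rfl))
  refine (SimpleGraph.connected_iff_exists_forall_reachable _).2
    ⟨⟨(true, true), (1 : Ar M)⟩, fun v => ?_⟩
  obtain ⟨g, hg⟩ := In4.ex v
  exact (key g).trans (N4.reach ⟨g, rfl, hg⟩)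

lemma z4_met : Met (Z4 M).d := met_of_graph _ gr4_conn

lemma z4_one {a b : V4 M} : (Z4 M).d a b = 1 ↔ (Z4 M).ad a b :=
  SimpleGraph.dist_eq_one_iff_adj.trans z4_ad.symm

lemma ad_ty {a b : V4 M} (h : (Z4 M).ad a b) :
    (a.1.1 ≠ b.1.1 ∧ a.1.2 = b.1.2) ∨ (a.1.1 = b.1.1 ∧ a.1.2 ≠ b.1.2) := (z4_ad.1 h).2

lemma ad_n {a b : V4 M} (h : (Z4 M).ad a b) : N4 a b := (z4_ad.1 h).1

/-- two chambers through two points of different types with commuting remaining generators -/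
lemma n4_of_comm {x y : V4 M} (h : M x.1 y.1 = 2) (hne : x.1 ≠ y.1) {g g' : Ar M} (h1 : In4 g x)
    (h2 : In4 g' y) (hu : g⁻¹ * g' ∈ par M {y.1, x.1}) : N4 x y := by
  obtain ⟨a, b, e⟩ := par_two (M.symmetric _ _ ▸ h) hu
  refine ⟨g * gn M y.1 ^ a, h1.iff.2 ?_, h2.iff.2 ?_⟩
  · simpa using zpow_mem_par (S := {i | i ≠ x.1}) hne.symm a
  · have : g'⁻¹ * (g * gn M y.1 ^ a) = gn M x.1 ^ (-b) := by
      rw [← mul_assoc, ← inv_inv (g'⁻¹ * g), mul_inv_rev, inv_inv, ← e]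
      group
    rw [this]
    exact zpow_mem_par (S := {i | i ≠ y.1}) hne _

set_option synthInstance.maxSize 2048 in
theorem z4_zb (h2 : ∀ i j, i.1 ≠ j.1 → i.2 ≠ j.2 → M i j = 2) : (Z4 M).ZB where
  toMet := z4_met
  nrefl := N4.refl
  nsymm := N4.symm
  ninj := fun ⟨_, h1, h2⟩ e => h1.eq h2 e
  dad := z4_one
  jj := fun {w K x y} hK hx hy h3 h4 hne => by
    obtain ⟨g, g1, g2, g3⟩ := N4.tri hK.1 (ad_n hx) h3.symm
    obtain ⟨g', g4, g5, g6⟩ := N4.tri hK.1 (ad_n hy) h4.symm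
    have t1 := ad_ty hx
    have t2 := ad_ty hy
    have t3 : w.1.1 ≠ K.1.1 ∧ w.1.2 ≠ K.1.2 := hK.2
    have t4 : x.1 ≠ y.1 := hne
    have t5 : (x.1.1 ≠ y.1.1 ∧ x.1.2 ≠ y.1.2) ∧ ∀ i, i ≠ w.1 ∧ i ≠ K.1 → i = y.1 ∨ i = x.1 := by
      revert t1 t2 t3 t4
      generalize w.1 = a, K.1 = b, x.1 = c, y.1 = d
      revert a b c d
      decide
    exact n4_of_comm (h2 _ _ t5.1.1 t5.1.2) t4 g3 g6
      (par_mono t5.2 (par_inf (g1.iff.1 g4) (g2.iff.1 g5)))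
  lp := fun {w x y} hx hy h => by
    obtain ⟨g, g1, g2, g3⟩ := N4.tri (ad_n hx) (ad_n hy) h
    exact ⟨⟨(!w.1.1, !w.1.2), g⟩, ⟨⟨g, g1, In4.mk g _⟩, by simp [Z4], by simp [Z4]⟩,
      ⟨g, g2, In4.mk g _⟩, g, g3, In4.mk g _⟩
  rich := fun {w K} hK b => by
    obtain ⟨g, g1, g2⟩ := hK.1
    have t3 : w.1.1 ≠ K.1.1 ∧ w.1.2 ≠ K.1.2 := hK.2
    obtain ⟨t, t0, t1, t2, t4⟩ : ∃ t : Bool × Bool, t.1 = b ∧ t ≠ w.1 ∧ t ≠ K.1 ∧
        ((w.1.1 ≠ t.1 ∧ w.1.2 = t.2) ∨ (w.1.1 = t.1 ∧ w.1.2 ≠ t.2)) := by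
      revert t3
      generalize w.1 = a, K.1 = c
      revert a b c
      decide
    have a1 : In4 (g * gn M t) w := g1.iff.2 (by simpa using gn_mem (S := {i | i ≠ w.1}) t1)
    have a2 : In4 (g * gn M t) K := g2.iff.2 (by simpa using gn_mem (S := {i | i ≠ K.1}) t2)
    refine ⟨⟨t, g⟩, ⟨t, (g * gn M t : Ar M)⟩, fun e => ?_, z4_ad.2 ⟨⟨g, g1, In4.mk g t⟩, t4⟩,
      z4_ad.2 ⟨⟨_, a1, In4.mk _ t⟩, t4⟩, ⟨g, In4.mk g t, g2⟩, ⟨_, In4.mk _ t, a2⟩, rfl, t0⟩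
    have := (In4.mk g t).iff.1 (e ▸ In4.mk (g * gn M t) t)
    exact one_ne_zero (zpow_eq_zero (M := M) (S := {i | i ≠ t}) (i := t) (n := 1) (by simp)
      (by simpa using this))

theorem z4_n (g : Ar M) (a b : V4 M) : (Z4 M).N (g • a) (g • b) ↔ (Z4 M).N a b := by
  refine ⟨fun ⟨x, h1, h2⟩ => ⟨g⁻¹ * x, ?_, ?_⟩, fun ⟨x, h1, h2⟩ => ⟨g * x, h1.smul g, h2.smul g⟩⟩
  · simpa using h1.smul g⁻¹
  · simpa using h2.smul g⁻¹

lemma ad_smul (g : Ar M) {a b : V4 M} (h : (Z4 M).ad a b) : (Z4 M).ad (g • a) (g • b) :=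
  z4_ad.2 ⟨(z4_n g a b).2 (ad_n h), ad_ty (a := a) (b := b) h⟩

theorem z4_d (g : Ar M) (a b : V4 M) : (Z4 M).d (g • a) (g • b) = (Z4 M).d a b := by
  have S := z4_met (M := M)
  have key : ∀ (g : Ar M) n a b, (Z4 M).d a b = n → (Z4 M).d (g • a) (g • b) ≤ n := by
    intro g n
    induction n with
    | zero => intro a b h; simp [S.eq0 h, S.refl]
    | succ n ih =>
      intro a b h
      obtain ⟨c, h1, h2⟩ := S.step h
      have a1 := z4_one.2 (ad_smul g (z4_one.1 h1))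
      have a2 := ih _ _ h2
      have a3 := S.tri (g • a) (g • c) (g • b)
      omega
  refine le_antisymm (key g _ _ _ rfl) ?_
  simpa using key g⁻¹ _ _ _ (rfl : (Z4 M).d (g • a) (g • b) = _)

theorem z4_ball (t : Bool × Bool) (r : ℕ) (x : Ar M) (h : Ball (gn M) r x) :
    (Z4 M).d ⟨t, (1 : Ar M)⟩ (x • ⟨t, (1 : Ar M)⟩) ≤ 2 * r := by
  have S := z4_met (M := M)
  refine h.map (B' := fun r x => (Z4 M).d ⟨t, (1 : Ar M)⟩ (x • ⟨t, (1 : Ar M)⟩) ≤ r)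
    ⟨fun r x h => ?_, fun r s x y h h' => ?_⟩ (by simp [S.refl]) (MonoidHom.id _) fun i => ?_
  · rwa [← z4_d x, smul_inv_smul, S.symm]
  · rw [← z4_d x, ← mul_smul] at h'
    exact (S.tri _ _ _).trans (add_le_add h h')
  · obtain ⟨j, j1, j2, j3⟩ : ∃ j : Bool × Bool, i ≠ j ∧
        ((t.1 ≠ j.1 ∧ t.2 = j.2) ∨ (t.1 = j.1 ∧ t.2 ≠ j.2)) ∧
        ((j.1 ≠ t.1 ∧ j.2 = t.2) ∨ (j.1 = t.1 ∧ j.2 ≠ t.2)) := by
      revert i t
      decide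
    refine (S.tri _ ⟨j, (1 : Ar M)⟩ _).trans (add_le_add (b := 1) (d := 1)
      (z4_one.2 (z4_ad.2 ⟨⟨1, In4.mk 1 t, In4.mk 1 j⟩, j2⟩)).le
      (z4_one.2 (z4_ad.2 ⟨⟨gn M i * 1, (In4.mk 1 j).iff.2 ?_, (In4.mk 1 t).smul _⟩, j3⟩)).le)
    simpa using gn_mem (S := {i | i ≠ j}) j1

end Pool.Agent.Lib.MP_35cce7_an.Q
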