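import Pool.Agent.Lib.MP_35cce7_an.QDefs

/-! Short alternating words in two generators of an Artin group are nontrivial. -/

namespace Pool.Agent.Lib.MP_35cce7_an.Q

open Polynomial Matrix
open scoped MatrixGroups

noncomputable section

namespace Gir

/-- upper unipotent matrices -/
def up : Multiplicative ℤ →* SL(2, ℤ[X]) where
  toFun a := ⟨!![1, C a.toAdd; 0, 1], by simp [det_fin_two]⟩
  map_one' := by ext i j; fin_cases i <;> fin_cases j <;> simp
  map_mul' a b := by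
    ext i j
    fin_cases i <;> fin_cases j <;> simp [mul_apply, Fin.sum_univ_two, add_comm]

/-- lower unipotent matrices -/
def lo : Multiplicative ℤ →* SL(2, ℤ[X]) where
  toFun a := ⟨!![1, 0; -(C a.toAdd * X), 1], by simp [det_fin_two]⟩
  map_one' := by ext i j; fin_cases i <;> fin_cases j <;> simp
  map_mul' a b := by
    refine Subtype.ext ?_
    change (!![1, 0; -(C (a.toAdd + b.toAdd) * X), 1] : Matrix (Fin 2) (Fin 2) ℤ[X]) =
      !![1, 0; -(C a.toAdd * X), 1] * !![1, 0; -(C b.toAdd * X), 1]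
    refine Matrix.ext fun i j => ?_
    fin_cases i <;> fin_cases j <;> simp [mul_apply, Fin.sum_univ_two]
    ring

/-- the underlying matrix -/
def mt (w : SL(2, ℤ[X])) : Matrix (Fin 2) (Fin 2) ℤ[X] := w.1

lemma mt_mul (u v : SL(2, ℤ[X])) : mt (u * v) = mt u * mt v := rfl

lemma mt_one : mt 1 = 1 := rfl

lemma mt_det (w : SL(2, ℤ[X])) : (mt w).det = 1 := w.2

def sA : SL(2, ℤ[X]) := up (.ofAdd 1)

def sB : SL(2, ℤ[X]) := lo (.ofAdd 1)

lemma sA_zpow (a : ℤ) : mt (sA ^ a) = !![1, C a; 0, 1] := by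
  rw [sA, ← map_zpow, ← ofAdd_zsmul, smul_eq_mul, mul_one]
  rfl

lemma sB_zpow (a : ℤ) : mt (sB ^ a) = !![1, 0; -(C a * X), 1] := by
  rw [sB, ← map_zpow, ← ofAdd_zsmul, smul_eq_mul, mul_one]
  rfl

/-- the word of a list of exponents -/
def wd (L : List (ℤ × ℤ)) : SL(2, ℤ[X]) := (L.map fun p => sA ^ p.1 * sB ^ p.2).prod

lemma wd_cons (c : ℤ × ℤ) (L : List (ℤ × ℤ)) : mt (wd (c :: L)) =
    !![mt (wd L) 0 0 - C (c.1 * c.2) * (X * mt (wd L) 0 0) + C c.1 * mt (wd L) 1 0,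
        mt (wd L) 0 1 - C (c.1 * c.2) * (X * mt (wd L) 0 1) + C c.1 * mt (wd L) 1 1;
      mt (wd L) 1 0 - C c.2 * (X * mt (wd L) 0 0), mt (wd L) 1 1 - C c.2 * (X * mt (wd L) 0 1)] := by
  have : wd (c :: L) = sA ^ c.1 * sB ^ c.2 * wd L := by simp [wd]
  rw [this, mt_mul, mt_mul, sA_zpow, sB_zpow]
  ext i j : 1
  fin_cases i <;> fin_cases j <;> simp [mul_apply, Fin.sum_univ_two] <;> ring

/-- degree at most `k` -/
def Le (p : ℤ[X]) (k : ℕ) : Prop := ∀ j, k < j → p.coeff j = 0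

lemma Le.succ {p : ℤ[X]} {k : ℕ} (h : Le p k) : Le p (k + 1) := fun j hj => h j (by omega)

lemma Le.add {p q : ℤ[X]} {k : ℕ} (h : Le p k) (h' : Le q k) : Le (p + q) k := fun j hj => by
  rw [coeff_add, h j hj, h' j hj, add_zero]

lemma Le.sub {p q : ℤ[X]} {k : ℕ} (h : Le p k) (h' : Le q k) : Le (p - q) k := fun j hj => by
  rw [coeff_sub, h j hj, h' j hj, sub_zero]

lemma Le.cmul {p : ℤ[X]} {k : ℕ} (h : Le p k) (c : ℤ) : Le (C c * p) k := fun j hj => by
  rw [coeff_C_mul, h j hj, mul_zero]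

lemma Le.xmul {p : ℤ[X]} {k : ℕ} (h : Le p k) : Le (X * p) (k + 1) := fun j hj => by
  obtain ⟨i, rfl⟩ : ∃ i, j = i + 1 := ⟨j - 1, by omega⟩
  rw [coeff_X_mul, h i (by omega)]

/-- the invariant of the entries -/
structure Inv (w : Matrix (Fin 2) (Fin 2) ℤ[X]) (k : ℕ) : Prop where
  p : Le (w 0 0) k
  top : (w 0 0).coeff k ≠ 0
  q : Le (X * w 0 1) k
  r : Le (w 1 0) k
  s : Le (w 1 1) k
  p0 : (w 0 0).coeff 0 = 1
  r0 : (w 1 0).coeff 0 = 0
  s0 : (w 1 1).coeff 0 = 1

lemma inv_wd (L : List (ℤ × ℤ)) (hL : ∀ p ∈ L, p.1 ≠ 0 ∧ p.2 ≠ 0) : Inv (mt (wd L)) L.length := by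
  induction L with
  | nil =>
    have one : Le 1 0 := fun j hj => by rw [coeff_one, if_neg (by omega)]
    have zero : Le 0 0 := fun j _ => rfl
    constructor <;> simp [wd, one, zero, mt_one]
  | cons c L ih =>
    have h := ih fun p hp => hL p (List.mem_cons_of_mem _ hp)
    have hc := hL c List.mem_cons_self
    rw [wd_cons, List.length_cons]
    refine ⟨(h.p.succ.sub (h.p.xmul.cmul _)).add (h.r.succ.cmul _), ?_, ?_,
      h.r.succ.sub (h.p.xmul.cmul _), (h.s.sub (h.q.cmul _)).succ, ?_, ?_, ?_⟩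
    · simp only [of_apply, cons_val', cons_val_zero, cons_val_fin_one, coeff_add, coeff_sub,
        coeff_C_mul, coeff_X_mul, h.p _ (Nat.lt_succ_self _), h.r _ (Nat.lt_succ_self _)]
      simp [hc.1, hc.2, h.top]
    · have := (h.q.succ.sub (h.q.xmul.cmul (c.1 * c.2))).add (h.s.xmul.cmul c.1)
      convert this using 1
      simp only [of_apply, cons_val', cons_val_zero, cons_val_one, cons_val_fin_one]
      ring
    · simp [h.p0, h.r0]
    · simp [h.r0]
    · simp [h.s0]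

/-- `det (w - 1)` has degree the length of the word and no constant term -/
lemma defect (L : List (ℤ × ℤ)) (h0 : L ≠ []) (hL : ∀ p ∈ L, p.1 ≠ 0 ∧ p.2 ≠ 0) :
    ∃ D : ℤ[X], D ≠ 0 ∧ D.natDegree ≤ L.length ∧ D.coeff 0 = 0 ∧
      D = (mt (wd L) 0 0 - 1) * (mt (wd L) 1 1 - 1) - mt (wd L) 0 1 * mt (wd L) 1 0 := by
  have h := inv_wd L hL
  obtain ⟨c, L, rfl⟩ := List.exists_cons_of_ne_nil h0
  have h' := inv_wd L fun p hp => hL p (List.mem_cons_of_mem _ hp)
  have hs : Le (mt (wd (c :: L)) 1 1) L.length := by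
    rw [wd_cons]
    exact h'.s.sub (h'.q.cmul _)
  have two : ∀ j, (2 : ℤ[X]).coeff (j + 1) = 0 := fun j => coeff_C_succ (r := 2)
  refine ⟨2 - mt (wd (c :: L)) 0 0 - mt (wd (c :: L)) 1 1, fun e => ?_, ?_, ?_, ?_⟩
  · have := congrArg (coeff · (L.length + 1)) e
    simp only [coeff_sub, two, hs _ (Nat.lt_succ_self _), coeff_zero] at this
    exact h.top (by simpa using this)
  · refine natDegree_le_iff_coeff_eq_zero.2 fun j hj => ?_
    obtain ⟨i, rfl⟩ : ∃ i, j = i + 1 := ⟨j - 1, by omega⟩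
    rw [coeff_sub, coeff_sub, two, h.p _ hj, h.s _ hj]
    simp
  · rw [coeff_sub, coeff_sub, h.p0, h.s0]
    simp
  · have := mt_det (wd (c :: L))
    rw [det_fin_two] at this
    linear_combination -this

lemma wd_rep (n : ℕ) : wd (List.replicate n (1, 1)) = (sA * sB) ^ n := by simp [wd]

lemma pows (n : ℕ) : ∃ p q : ℤ[X], mt ((sA * sB) ^ n) = !![p, q; -(X * q), p + X * q] ∧
    mt ((sB * sA) ^ n) = !![p + X * q, q; -(X * q), p] := by
  have a := sA_zpow 1
  have b := sB_zpow 1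
  rw [zpow_one] at a b
  induction n with
  | zero => exact ⟨1, 0, by simp [one_fin_two, mt_one], by simp [one_fin_two, mt_one]⟩
  | succ n ih =>
    obtain ⟨p, q, h1, h2⟩ := ih
    refine ⟨p - X * p - X * q, p + q, ?_, ?_⟩
    · rw [pow_succ, mt_mul, mt_mul, h1, a, b]
      ext i j : 1
      fin_cases i <;> fin_cases j <;> simp [mul_apply, Fin.sum_univ_two] <;> ring
    · rw [pow_succ, mt_mul, mt_mul, h2, a, b]
      ext i j : 1
      fin_cases i <;> fin_cases j <;> simp [mul_apply, Fin.sum_univ_two] <;> ring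

/-- reduction modulo `W` -/
def red (W : ℤ[X]) : SL(2, ℤ[X]) →* SL(2, ℤ[X] ⧸ Ideal.span {W}) :=
  SpecialLinearGroup.map (Ideal.Quotient.mk _)

lemma red_eq {W : ℤ[X]} {u v : SL(2, ℤ[X])} :
    red W u = red W v ↔ ∀ i j, W ∣ mt u i j - mt v i j := by
  refine Subtype.ext_iff.trans (Matrix.ext_iff.symm.trans
    (forall_congr' fun i => forall_congr' fun j => ?_))
  rw [← Ideal.mem_span_singleton, ← Ideal.Quotient.eq]
  rfl

/-- the modulus of the braid relation of length `m` -/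
lemma modulus (m : ℕ) (hm : 2 ≤ m) : ∃ W : ℤ[X], red W (alt m sA sB) = red W (alt m sB sA) ∧
    ∀ E : ℤ[X], W * W * E ≠ 0 → (W * W * E).coeff 0 = 0 → m ≤ (W * W * E).natDegree := by
  have a := sA_zpow 1
  have b := sB_zpow 1
  rw [zpow_one] at a b
  have one : ∀ n, ∀ p ∈ List.replicate n ((1, 1) : ℤ × ℤ), p.1 ≠ 0 ∧ p.2 ≠ 0 := fun n p hp => by
    simp [List.eq_of_mem_replicate hp]
  have dg : ∀ W E : ℤ[X], W * W * E ≠ 0 →
      (W * W * E).natDegree = W.natDegree + W.natDegree + E.natDegree := fun W E h => by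
    have h1 := left_ne_zero_of_mul h
    rw [natDegree_mul h1 (right_ne_zero_of_mul h),
      natDegree_mul (left_ne_zero_of_mul h1) (left_ne_zero_of_mul h1)]
  obtain ⟨n, rfl | rfl⟩ := Nat.even_or_odd' m
  · obtain ⟨p, q, h1, h2⟩ := pows n
    refine ⟨X * q, ?_, fun E h _ => ?_⟩
    · rw [alt_two_mul, alt_two_mul, red_eq, h1, h2]
      intro i j
      fin_cases i <;> fin_cases j <;> simp
    · obtain ⟨k, rfl⟩ : ∃ k, n = k + 1 := ⟨n - 1, by omega⟩
      have i := inv_wd _ (one k)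
      have e := wd_cons (1, 1) (List.replicate k (1, 1))
      rw [← List.replicate_succ, wd_rep, h1] at e
      have e1 := congrArg (fun w : Matrix (Fin 2) (Fin 2) ℤ[X] => (w 1 0).coeff (k + 1)) e
      rw [List.length_replicate] at i
      have t := i.top
      simp only [of_apply, cons_val', cons_val_zero, cons_val_one, cons_val_fin_one, coeff_sub,
        coeff_C_mul, coeff_X_mul _ k, i.r _ (Nat.lt_succ_self _), coeff_neg] at e1
      have : k + 1 ≤ (X * q).natDegree := le_natDegree_of_ne_zero (by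
        rw [coeff_X_mul]
        intro z
        exact t (by linarith))
      rw [dg _ _ h]
      omega
  · obtain ⟨p, q, h1, h2⟩ := pows n
    refine ⟨p, ?_, fun E h h0 => ?_⟩
    · rw [alt_odd, alt_odd, red_eq, mt_mul, mt_mul, h1, h2,
        a, b]
      intro i j
      fin_cases i <;> fin_cases j <;> simp [mul_apply, Fin.sum_univ_two]
      exact ⟨1, by ring⟩
    · have i := inv_wd _ (one n)
      rw [wd_rep, h1, List.length_replicate] at i
      have t : p.coeff n ≠ 0 := i.top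
      have p0 : p.coeff 0 = 1 := i.p0
      have h3 := le_natDegree_of_ne_zero t
      have h4 : E.natDegree ≠ 0 := fun z => by
        rw [mul_coeff_zero, mul_coeff_zero, p0, one_mul, one_mul] at h0
        rw [eq_C_of_natDegree_eq_zero z, h0] at h
        simp at h
      rw [dg _ _ h]
      omega

lemma core {m : ℕ} (hm : 2 ≤ m) : ∃ W : ℤ[X], red W (alt m sA sB) = red W (alt m sB sA) ∧
    ∀ L : List (ℤ × ℤ), L ≠ [] → (∀ p ∈ L, p.1 ≠ 0 ∧ p.2 ≠ 0) → red W (wd L) = 1 →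
      m ≤ L.length := by
  obtain ⟨W, h1, h2⟩ := modulus m hm
  refine ⟨W, h1, fun L h0 hL h => ?_⟩
  rw [← map_one (red W), red_eq] at h
  obtain ⟨D, d0, d1, d2, e⟩ := defect L h0 hL
  obtain ⟨a, ha⟩ := h 0 0
  obtain ⟨b, hb⟩ := h 0 1
  obtain ⟨c, hc⟩ := h 1 0
  obtain ⟨d, hd⟩ := h 1 1
  simp only [mt_one, one_apply_eq, ne_eq, zero_ne_one, not_false_eq_true,
    one_apply_ne, sub_zero, one_ne_zero] at ha hb hc hd
  have e1 : D = W * W * (a * d - b * c) := by rw [e, ha, hb, hc, hd]; ring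
  rw [e1] at d0 d1 d2
  exact (h2 _ d0 d2).trans d1

end Gir

theorem girth {B : Type} {M : CoxeterMatrix B} {s t : B} (L : List (ℤ × ℤ)) (h0 : L ≠ [])
    (hl : L.length < M s t) (hL : ∀ p ∈ L, p.1 ≠ 0 ∧ p.2 ≠ 0) :
    (L.map fun p => gn M s ^ p.1 * gn M t ^ p.2).prod ≠ 1 := by
  intro h1
  have l0 := List.length_pos_iff.2 h0
  have hst : s ≠ t := by
    rintro rfl
    rw [M.diagonal] at hl
    omega
  obtain ⟨W, br, hW⟩ := Gir.core (m := M s t) (by omega)
  rw [map_alt, map_alt] at br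
  let E := subE M fun i => i = s ∨ i = t
  obtain ⟨π, p1, p2⟩ := lift_two (M := sub M fun i => i = s ∨ i = t) (a := ⟨s, Or.inl rfl⟩)
    (b := ⟨t, Or.inr rfl⟩) (fun i => i.2.imp Subtype.ext Subtype.ext)
    (fun e => hst (congrArg Subtype.val e)) _ _ br
  have h2 : (L.map fun p => gn (sub M fun i => i = s ∨ i = t) ⟨s, Or.inl rfl⟩ ^ p.1 *
      gn _ ⟨t, Or.inr rfl⟩ ^ p.2).prod = 1 :=
    E.hom_inj (by
      rw [map_list_prod, List.map_map, map_one, ← h1]
      congr 2
      funext p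
      simp [E, subE])
  have h3 := congrArg π h2
  rw [map_list_prod, List.map_map, map_one] at h3
  refine absurd (hW L h0 hL ?_) (by omega)
  rw [Gir.wd, map_list_prod, List.map_map, ← h3]
  congr 2
  funext p
  simp only [Function.comp, map_mul, map_zpow, p1, p2]

end

end Pool.Agent.Lib.MP_35cce7_an.Q
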