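import Pool.Agent.Lib.MP_35cce7_an.KDefs
import Pool.Agent.Lib.MP_35cce7_an.QGirth
import Pool.Agent.Lib.MP_35cce7_an.QG1

namespace Pool.Agent.Lib.MP_35cce7_an.K

variable {B : Type} {M : CoxeterMatrix B} {b c : B} {E : Set B}

lemma dih_com {S : Set B} (h : ∀ i ∈ S, ∀ e ∈ E, M i e = 2) {x e : Ar M} (hx : x ∈ par M S)
    (he : e ∈ par M E) : Commute x e := by
  refine par_ind (Q := fun x => Commute x e) (.one_left e) (fun i hi y hy => ?_) hx
  have : Commute (gn M i) e := par_ind (Q := fun e => Commute (gn M i) e) (.one_right _)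
    (fun j hj z hz => ⟨(Q.gn_comm (h i hi j hj)).mul_right hz,
      (Q.gn_comm (h i hi j hj)).inv_right.mul_right hz⟩) he
  exact ⟨this.mul_left hy, this.inv_left.mul_left hy⟩

lemma dih_split (h : ∀ e ∈ E, M b e = 2) {u : Ar M} (hu : u ∈ par M (insert b E)) :
    ∃ n : ℤ, ∃ e ∈ par M E, u = gn M b ^ n * e := by
  refine par_ind (Q := fun u => ∃ n : ℤ, ∃ e ∈ par M E, u = gn M b ^ n * e)
    ⟨0, 1, one_mem _, by simp⟩ ?_ hu
  rintro i (rfl | hi) _ ⟨n, e, he, rfl⟩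
  · exact ⟨⟨1 + n, e, he, by rw [zpow_add, zpow_one, mul_assoc]⟩,
      ⟨-1 + n, e, he, by rw [zpow_add, zpow_neg_one, mul_assoc]⟩⟩
  · have k := (Q.gn_comm (h i hi)).zpow_left n
    exact ⟨⟨n, _, mul_mem (gn_mem hi) he, by rw [← mul_assoc, ← k.eq, mul_assoc]⟩,
      ⟨n, _, mul_mem (inv_mem (gn_mem hi)) he, by rw [← mul_assoc, ← k.inv_right.eq, mul_assoc]⟩⟩

lemma dih_list (hb : b ∉ E) (hc : c ∉ E) (h2 : ∀ e ∈ E, M b e = 2 ∧ M c e = 2)
    (L : List (Ar M × Ar M)) (h0 : L ≠ []) (hl : L.length < M b c)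
    (hL : ∀ p ∈ L, (p.1 ∈ par M (insert c E) ∧ p.2 ∈ par M (insert b E)) ∧
      p.1 ∉ par M (insert b E) ∧ p.2 ∉ par M (insert c E)) :
    (L.map fun p => p.1 * p.2).prod ≠ 1 := by
  have hS : ∀ i ∈ ({c, b} : Set B), ∀ e ∈ E, M i e = 2 := by
    rintro i (rfl | rfl) e he
    exacts [(h2 e he).2, (h2 e he).1]
  have key : ∃ L' : List (ℤ × ℤ), L'.length = L.length ∧ (∀ p ∈ L', p.1 ≠ 0 ∧ p.2 ≠ 0) ∧
      (L'.map fun p => gn M c ^ p.1 * gn M b ^ p.2).prod ∈ par M {c, b} ∧ ∃ e ∈ par M E,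
      (L.map fun p => p.1 * p.2).prod = (L'.map fun p => gn M c ^ p.1 * gn M b ^ p.2).prod * e := by
    clear h0 hl
    induction L with
    | nil => exact ⟨[], rfl, by simp, one_mem _, 1, one_mem _, by simp⟩
    | cons p L ih =>
      obtain ⟨L', a1, a2, a3, e, he, a4⟩ := ih fun q hq => hL q (List.mem_cons_of_mem _ hq)
      obtain ⟨⟨k1, k2⟩, k3, k4⟩ := hL p List.mem_cons_self
      obtain ⟨n, e1, m1, r1⟩ := dih_split (fun e he => (h2 e he).2) k1
      obtain ⟨m, e2, m2, r2⟩ := dih_split (fun e he => (h2 e he).1) k2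
      have q1 := Q.zpow_mem_par (M := M) (S := {c, b}) (.inl rfl) n
      have q2 := Q.zpow_mem_par (M := M) (S := {c, b}) (.inr rfl) m
      refine ⟨(n, m) :: L', by simp [a1], List.forall_mem_cons.2 ⟨⟨?_, ?_⟩, a2⟩,
        mul_mem (mul_mem q1 q2) a3, e1 * e2 * e, mul_mem (mul_mem m1 m2) he, ?_⟩
      · rintro rfl
        exact k3 (r1 ▸ by simpa using par_mono (Set.subset_insert _ _) m1)
      · rintro rfl
        exact k4 (r2 ▸ by simpa using par_mono (Set.subset_insert _ _) m2)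
      · simp only [List.map_cons, List.prod_cons, a4, r1, r2, mul_assoc]
        rw [← (dih_com hS q2 m1).left_comm, ← (dih_com hS a3 m2).left_comm,
          ← (dih_com hS a3 m1).left_comm]
  obtain ⟨L', a1, a2, a3, e, he, a4⟩ := key
  intro h1
  refine Q.girth (M := M) (s := c) (t := b) L' (fun k => h0 (List.length_eq_zero_iff.1 (by
    rw [← a1, k]; rfl))) (by rwa [a1, M.symmetric]) a2 ?_
  have := par_mono (T := ∅) (by rintro j ⟨rfl | rfl, k⟩; exacts [hc k, hb k])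
    (par_inf a3 (eq_inv_of_mul_eq_one_left (a4 ▸ h1) ▸ inv_mem he))
  simpa [par] using this

/- an element of par (insert b E) is b^n e with e in par E commuting with b and c; collect the e,
par_inf puts the product of the powers in par ({b,c} ∩ E) = 1; Q.girth. -/
theorem dih_gi (hb : b ∉ E) (hc : c ∉ E) (h2 : ∀ e ∈ E, M b e = 2 ∧ M c e = 2) (h : 4 ≤ M b c) :
    Gi (par M (insert c E)) (par M (insert b E)) := by
  refine ⟨fun u₁ a₁ w₁ b₁ u₂ a₂ w₂ b₂ e => ?_, fun u₁ a₁ w₁ b₁ u₂ a₂ w₂ b₂ u₃ a₃ w₃ b₃ e => ?_⟩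
  · by_contra! k
    exact dih_list hb hc h2 [(u₁, w₁), (u₂, w₂)] (by simp) (by simp; omega) (by simp [*])
      (by simpa [mul_assoc] using e)
  · by_contra! k
    exact dih_list hb hc h2 [(u₁, w₁), (u₂, w₂), (u₃, w₃)] (by simp) (by simp; omega) (by simp [*])
      (by simpa [mul_assoc] using e)

theorem dih_g4 (hb : b ∉ E) (hc : c ∉ E) (h2 : ∀ e ∈ E, M b e = 2 ∧ M c e = 2) (h : 5 ≤ M b c) :
    G4 (par M (insert c E)) (par M (insert b E)) := by
  intro u₁ a₁ w₁ b₁ u₂ a₂ w₂ b₂ u₃ a₃ w₃ b₃ u₄ a₄ w₄ b₄ e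
  by_contra! k
  exact dih_list hb hc h2 [(u₁, w₁), (u₂, w₂), (u₃, w₃), (u₄, w₄)] (by simp) (by simp; omega)
    (by simp [*]) (by simpa [mul_assoc] using e)

end Pool.Agent.Lib.MP_35cce7_an.K
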