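import Pool.Agent.Lib.MP_35cce7_an.QDefs

/-! Layer facts from levels, when both links have girth at least eight. -/

namespace Pool.Agent.Lib.MP_35cce7_an.Q.LA

variable {X P : Type} {k : X → Bool} {inc : X → P → Prop}

/-- collinear points -/
def ad (k : X → Bool) (inc : X → P → Prop) (x y : X) : Prop := k x ≠ k y ∧ cop inc x y

/-- levels from the base point `r` -/
structure Lv (k : X → Bool) (inc : X → P → Prop) (r : X) (l : X → ℕ) : Prop where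
  zero : ∀ {x}, l x = 0 ↔ x = r
  one : ∀ {x}, l x = 1 → cop inc r x
  bp : ∀ {x y K}, k x ≠ k y → inc x K → inc y K → l y = l x + 1 ∨ l x = l y + 1
  qc : ∀ {z a b}, ad k inc z a → ad k inc z b → l a + 1 = l z → l b + 1 = l z → a ≠ b →
    ∃ c K, l c + 2 = l z ∧ k c = k z ∧ inc c K ∧ inc a K ∧ inc z K ∧ inc b K

/-- short cycles in links -/
structure Gh (k : X → Bool) (inc : X → P → Prop) : Prop where
  g2 : ∀ {x a b K K'}, k a ≠ k x → k b ≠ k x → a ≠ b → inc x K → inc a K → inc b K → inc x K' →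
    inc a K' → inc b K' → K = K'
  g3 : ∀ {x a b c K K' K''}, k a ≠ k x → k b ≠ k x → k c ≠ k x → a ≠ b → inc x K → inc a K →
    inc b K → inc x K' → inc b K' → inc c K' → inc x K'' → inc a K'' → inc c K'' → inc c K

theorem Gh.of (g : ∀ b, Gi k inc b 4) : Gh k inc := by
  have g2 : ∀ {x a b K K'}, k a ≠ k x → k b ≠ k x → a ≠ b → inc x K → inc a K → inc b K →
      inc x K' → inc a K' → inc b K' → K = K' := fun {x a b K K'} h1 h2 h3 _ _ _ _ _ _ => by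
    by_contra h
    refine g (k x) 2 (by omega) (by omega) x (fun i => if i = 1 then b else a)
      (fun i => if i = 1 then K' else K) rfl (fun i hi => ?_) rfl rfl
    have h' := Ne.symm h
    have h3' := h3.symm
    interval_cases i <;> simp [*]
  refine ⟨g2, fun {x a b c K K' K''} h1 h2 h3 h4 _ _ _ _ _ _ _ _ _ => ?_⟩
  by_contra h
  have e1 : b ≠ c := fun e => h (e ▸ ‹inc b K›)
  have e2 : c ≠ a := fun e => h (e ▸ ‹inc a K›)
  have e3 : K ≠ K' := fun e => h (e ▸ ‹inc c K'›)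
  have e4 : K'' ≠ K := fun e => h (e ▸ ‹inc c K''›)
  have e5 : K' ≠ K'' := fun e => e3 (g2 h1 h2 h4 ‹_› ‹_› ‹_› ‹_› (e ▸ ‹inc a K''›) ‹_›)
  refine g (k x) 3 (by omega) (by omega) x (fun i => if i = 1 then b else if i = 2 then c else a)
    (fun i => if i = 1 then K' else if i = 2 then K'' else K) rfl (fun i hi => ?_) rfl rfl
  interval_cases i <;> simp [*]

/-- the hypotheses of this file -/
structure Hy (k : X → Bool) (inc : X → P → Prop) : Prop extends Gh k inc where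
  two : ∀ K x, ∃ y z, inc y K ∧ inc z K ∧ k y ≠ k x ∧ k z ≠ k x ∧ y ≠ z
  lv : ∀ r, ∃ l, Lv k inc r l

theorem kk {a b c : Bool} (h : a ≠ c) (h' : b ≠ c) : a = b := by
  revert h h'; cases a <;> cases b <;> cases c <;> simp

theorem cop_symm {x y : X} (h : cop inc x y) : cop inc y x := h.imp fun _ h => h.symm

theorem Lv.base {r : X} {l : X → ℕ} (L : Lv k inc r l) {x} (h : k x ≠ k r) (hc : cop inc r x) :
    l x = 1 := by
  obtain ⟨K, h1, h2⟩ := hc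
  have := L.bp h h2 h1
  have := L.zero.2 rfl
  omega

namespace Hy

variable (H : Hy k inc)
include H

theorem lv2 {r : X} {l : X → ℕ} (L : Lv k inc r l) {x K} (h : r ≠ x) (hk : k r = k x)
    (h1 : inc r K) (h2 : inc x K) : l x = 2 := by
  obtain ⟨y, -, y1, -, y2, -⟩ := H.two K r
  have := L.base y2 ⟨K, h1, y1⟩
  have := L.bp (hk ▸ y2) y1 h2
  have := mt L.zero.1 h.symm
  omega

theorem f1c {x x' y y'} (h1 : x ≠ x') (h2 : y ≠ y') (k1 : k x = k x') (k2 : k y = k y')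
    (k3 : k x ≠ k y) (c1 : cop inc x y) (c2 : cop inc x y') (c3 : cop inc x' y)
    (c4 : cop inc x' y') : ∃ K, inc x K ∧ inc x' K ∧ inc y K ∧ inc y' K := by
  obtain ⟨l, L⟩ := H.lv x
  have a1 := L.base k3.symm c1
  have a2 := L.base (k2 ▸ k3.symm) c2
  have a3 : l x' = 2 := by
    obtain ⟨K, p1, p2⟩ := c3
    have := L.bp (k1 ▸ k3) p1 p2
    have := mt L.zero.1 h1.symm
    omega
  obtain ⟨c, K, b1, -, b2, b3, b4, b5⟩ :=
    L.qc ⟨k1 ▸ k3, c3⟩ ⟨k1 ▸ k2 ▸ k3, c4⟩ (by omega) (by omega) h2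
  exact ⟨K, L.zero.1 (by omega : l c = 0) ▸ b2, b4, b3, b5⟩

theorem f1b {x x' y K} (h : x ≠ x') (k1 : k x = k x') (k2 : k y ≠ k x) (i1 : inc x K)
    (i2 : inc x' K) (c1 : cop inc y x) (c2 : cop inc y x') : inc y K := by
  obtain ⟨z, -, z1, -, z2, -⟩ := H.two K x
  by_cases e : y = z
  · exact e ▸ z1
  obtain ⟨K', b1, b2, b3, b4⟩ := H.f1c h e k1 (kk k2 z2) k2.symm (cop_symm c1) ⟨K, i1, z1⟩
    (cop_symm c2) ⟨K, i2, z1⟩
  exact H.g2 z2.symm (k1 ▸ z2.symm) h z1 i1 i2 b4 b1 b2 ▸ b3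

theorem f1a {x x' K K'} (h : x ≠ x') (k1 : k x = k x') (i1 : inc x K) (i2 : inc x' K)
    (i3 : inc x K') (i4 : inc x' K') : K = K' := by
  obtain ⟨z, -, z1, -, z2, -⟩ := H.two K x
  exact H.g2 z2.symm (k1 ▸ z2.symm) h z1 i1 i2 (H.f1b h k1 z2 i3 i4 ⟨K, z1, i1⟩ ⟨K, z1, i2⟩) i3 i4

/-- two points of one kind and one level in a plane have a common parent in the plane -/
theorem low {r : X} {l : X → ℕ} (L : Lv k inc r l) {a b K} (h : a ≠ b) (hk : k a = k b)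
    (hl : l a = l b) (i1 : inc a K) (i2 : inc b K) : ∃ y, inc y K ∧ k y ≠ k a ∧ l y + 1 = l a := by
  obtain ⟨z, -, z1, -, z2, -⟩ := H.two K a
  rcases L.bp z2 z1 i1 with e | e
  · exact ⟨z, z1, z2, e.symm⟩
  obtain ⟨c, K', b1, b2, b3, b4, -, b5⟩ :=
    L.qc ⟨z2, K, z1, i1⟩ ⟨hk ▸ z2, K, z1, i2⟩ e.symm (hl ▸ e.symm) h
  exact ⟨c, H.f1a h hk i1 i2 b4 b5 ▸ b3, b2 ▸ z2, by omega⟩

/-- the parents of a point lie in one plane -/
theorem par {r : X} {l : X → ℕ} (L : Lv k inc r l) {z a b c K} (ha : ad k inc z a)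
    (hb : ad k inc z b) (hc : ad k inc z c) (la : l a + 1 = l z) (lb : l b + 1 = l z)
    (lc : l c + 1 = l z) (h : a ≠ b) (i0 : inc z K) (i1 : inc a K) (i2 : inc b K) : inc c K := by
  by_cases e1 : a = c
  · exact e1 ▸ i1
  by_cases e2 : b = c
  · exact e2 ▸ i2
  obtain ⟨-, K1, -, -, -, p1, p2, p3⟩ := L.qc ha hc la lc e1
  obtain ⟨-, K2, -, -, -, q1, q2, q3⟩ := L.qc hb hc lb lc e2
  exact H.g3 ha.1.symm hb.1.symm hc.1.symm h i0 i1 i2 q2 q1 q3 p2 p1 p3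

theorem f2 {x y z} (k1 : k x = k y) (k2 : k y = k z) (c1 : cop inc x y) (c2 : cop inc y z)
    (c3 : cop inc x z) : (∃ K, inc x K ∧ inc y K ∧ inc z K) ∨
      ∃ o, k o ≠ k x ∧ cop inc o x ∧ cop inc o y ∧ cop inc o z := by
  obtain ⟨K1, p1, p2⟩ := c1
  obtain ⟨K2, q1, q2⟩ := c2
  obtain ⟨K3, r1, r2⟩ := c3
  by_cases e1 : x = y
  · exact .inl ⟨K2, e1 ▸ q1, q1, q2⟩
  by_cases e2 : x = z
  · exact .inl ⟨K2, e2 ▸ q2, q1, q2⟩
  by_cases e3 : y = z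
  · exact .inl ⟨K1, p1, p2, e3 ▸ p2⟩
  obtain ⟨l, L⟩ := H.lv x
  have a1 := H.lv2 L e1 k1 p1 p2
  have a2 := H.lv2 L e2 (k1.trans k2) r1 r2
  obtain ⟨o, o1, o2, o3⟩ := H.low L e3 k2 (by omega) q1 q2
  exact .inr ⟨o, k1 ▸ o2, cop_symm (L.one (by omega)), ⟨K2, o1, q1⟩, K2, o1, q2⟩

theorem ax_mix {w s e n K K'} (k1 : k w = k s) (k2 : k e = k w) (k3 : k n ≠ k w) (h : w ≠ s)
    (i1 : inc w K) (i2 : inc s K) (c1 : cop inc s e) (c2 : cop inc n w) (i3 : inc e K')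
    (i4 : inc n K') : inc e K ∨ inc n K := by
  obtain ⟨l, L⟩ := H.lv w
  obtain ⟨K2, p1, p2⟩ := c1
  by_cases e1 : e = w
  · exact .inl (e1 ▸ i1)
  by_cases e2 : s = e
  · exact .inl (e2 ▸ i2)
  have a1 := H.lv2 L h k1 i1 i2
  have a2 := L.base k3 (cop_symm c2)
  have a3 := L.bp (k2 ▸ k3) i4 i3
  have a4 := mt L.zero.1 e1
  obtain ⟨y, y1, y2, y3⟩ := H.low L e2 (k1 ▸ k2.symm) (by omega) p1 p2
  have y4 := L.one (by omega : l y = 1)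
  have y5 : k y ≠ k w := k1 ▸ y2
  have y6 := H.f1b h k1 y5 i1 i2 (cop_symm y4) ⟨K2, y1, p1⟩
  by_cases e3 : y = n
  · exact .inr (e3 ▸ y6)
  obtain ⟨K3, b1, b2, b3, -⟩ := H.f1c (Ne.symm e1) e3 k2.symm (kk y5 k3) y5.symm y4 (cop_symm c2)
    ⟨K2, p2, y1⟩ ⟨K', i3, i4⟩
  exact .inl (H.g3 y5.symm y2.symm (k2 ▸ y5.symm) h y6 i1 i2 y1 p1 p2 b3 b1 b2)

theorem ax_oth {w s e n K K'} (k1 : k w = k s) (k2 : k e ≠ k w) (k3 : k n ≠ k w) (h : w ≠ s)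
    (i1 : inc w K) (i2 : inc s K) (c1 : cop inc s e) (c2 : cop inc n w) (i3 : inc e K')
    (i4 : inc n K') : inc e K ∨ inc s K' := by
  obtain ⟨l, L⟩ := H.lv w
  obtain ⟨K2, p1, p2⟩ := c1
  have a1 := H.lv2 L h k1 i1 i2
  have a2 := L.base k3 (cop_symm c2)
  rcases L.bp (k1 ▸ k2) p2 p1 with a3 | a3
  · exact .inl (H.f1b h k1 k2 i1 i2 (cop_symm (L.one (by omega))) ⟨K2, p2, p1⟩)
  obtain ⟨a, b, q1, q2, q3, q4, q5⟩ := H.two K' e
  have k4 := kk k2 k3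
  have := L.bp q3 q1 i3
  have := L.bp q4 q2 i3
  have := L.bp (k4 ▸ q3) q1 i4
  have := L.bp (k4 ▸ q4) q2 i4
  exact .inr (H.par L ⟨q3.symm, K', i3, q1⟩ ⟨q4.symm, K', i3, q2⟩ ⟨k1 ▸ k2, K2, p2, p1⟩
    (by omega) (by omega) (by omega) q5 i3 q1 q2)

theorem ax_same {w s e n K K'} (k1 : k w = k s) (k2 : k e = k w) (k3 : k n = k w) (h : w ≠ s)
    (i1 : inc w K) (i2 : inc s K) (c1 : cop inc s e) (c2 : cop inc n w) (i3 : inc e K')
    (i4 : inc n K') : ∃ x, inc x K ∧ inc x K' := by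
  obtain ⟨K2, p1, p2⟩ := c1
  obtain ⟨K1, r1, r2⟩ := c2
  by_cases e1 : e = w
  · exact ⟨e, e1 ▸ i1, i3⟩
  by_cases e2 : s = e
  · exact ⟨e, e2 ▸ i2, i3⟩
  by_cases e3 : w = n
  · exact ⟨n, e3 ▸ i1, i4⟩
  have k4 : k s = k e := k1 ▸ k2.symm
  by_cases e4 : e = n
  · subst e4
    refine ⟨e, ?_, i3⟩
    rcases H.f2 k1 k4 ⟨K, i1, i2⟩ ⟨K2, p1, p2⟩ ⟨K1, r2, r1⟩ with
      ⟨K0, b1, b2, b3⟩ | ⟨o, o1, o2, o3, o4⟩
    · exact H.f1a h k1 i1 i2 b1 b2 ▸ b3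
    exact H.g3 o1.symm (k1 ▸ o1.symm) (k2 ▸ o1.symm) h (H.f1b h k1 o1 i1 i2 o2 o3) i1 i2
      (H.f1b e2 k4 (k1 ▸ o1) p1 p2 o3 o4) p1 p2 (H.f1b e3 k2.symm o1 r2 r1 o2 o4) r2 r1
  obtain ⟨l, L⟩ := H.lv w
  have a1 := H.lv2 L h k1 i1 i2
  have a2 := H.lv2 L e3 k3.symm r2 r1
  have a4 := mt L.zero.1 e1
  have k5 : k e = k n := k2.trans k3.symm
  obtain ⟨a, b, q1, q2, q3, q4, q5⟩ := H.two K2 e
  have t1 := L.bp q3 q1 p2
  have t2 := L.bp (k4 ▸ q3) q1 p1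
  by_cases a5 : l e = 2
  · obtain ⟨y, y1, y2, y3⟩ := H.low L e2 k4 (by omega) p1 p2
    obtain ⟨z, z1, z2, z3⟩ := H.low L e4 k5 (by omega) i3 i4
    have y4 := L.one (by omega : l y = 1)
    have y5 : k y ≠ k w := k1 ▸ y2
    have y6 := H.f1b h k1 y5 i1 i2 (cop_symm y4) ⟨K2, y1, p1⟩
    by_cases e5 : y = z
    · exact ⟨y, y6, e5 ▸ z1⟩
    obtain ⟨K3, b1, b2, b3, -⟩ := H.f1c (Ne.symm e1) e5 k2.symm (kk y5 (k2 ▸ z2)) y5.symm y4
      (L.one (by omega)) ⟨K2, p2, y1⟩ ⟨K', i3, z1⟩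
    exact ⟨e, H.g3 y5.symm y2.symm (k2 ▸ y5.symm) h y6 i1 i2 y1 p1 p2 b3 b1 b2, i3⟩
  have t3 := L.bp q4 q2 p2
  have t4 := L.bp (k4 ▸ q4) q2 p1
  have key : ∀ c, inc c K' → k c ≠ k e → inc c K2 := fun c c1 c2 => by
    have := L.bp c2 c1 i3
    have := L.bp (k5 ▸ c2) c1 i4
    exact H.par L ⟨q3.symm, K2, p2, q1⟩ ⟨q4.symm, K2, p2, q2⟩ ⟨c2.symm, K', i3, c1⟩
      (by omega) (by omega) (by omega) q5 p2 q1 q2
  obtain ⟨c, d, s1, s2, s3, s4, s5⟩ := H.two K' e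
  exact ⟨s, i2, H.f1a s5 (kk s3 s4) (key c s1 s3) (key d s2 s4) s1 s2 ▸ p1⟩

theorem ax {w s e n K K'} (k1 : k w = k s) (h : w ≠ s) (i1 : inc w K) (i2 : inc s K)
    (c1 : cop inc s e) (c2 : cop inc n w) (i3 : inc e K') (i4 : inc n K') :
    inc e K ∨ inc n K ∨ (k e = k n ∧ ∃ x, inc x K ∧ inc x K') := by
  by_cases k2 : k e = k w <;> by_cases k3 : k n = k w
  · exact .inr (.inr ⟨k2.trans k3.symm, H.ax_same k1 k2 k3 h i1 i2 c1 c2 i3 i4⟩)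
  · exact (H.ax_mix k1 k2 k3 h i1 i2 c1 c2 i3 i4).imp_right .inl
  · exact (H.ax_mix k1.symm (k3.trans k1) (k1 ▸ k2) h.symm i2 i1 (cop_symm c2) (cop_symm c1) i4
      i3).symm.imp_right .inl
  · exact (H.ax_oth k1 k2 k3 h i1 i2 c1 c2 i3 i4).imp_right fun h => .inr ⟨kk k2 k3, s, i2, h⟩

theorem sel_step {r : X} {l : X → ℕ} (L : Lv k inc r l) {K K' x y} (h : K ≠ K') (hk : k x ≠ k y)
    (i1 : inc x K) (i2 : inc y K) (i3 : inc x K') (i4 : inc y K') (hl : l y = l x + 1) :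
    (∀ z, inc z K → l x ≤ l z) ∨ ∀ z, inc z K' → l x ≤ l z := by
  have key : ∀ K, inc x K → inc y K → ¬ (∀ z, inc z K → l x ≤ l z) →
      ∃ z, inc z K ∧ k x ≠ k z ∧ l z + 1 = l x := fun K i1 i2 h => by
    simp only [not_forall, not_le] at h
    obtain ⟨z, z1, z2⟩ := h
    have z3 : k x ≠ k z := fun e => by
      have := L.bp (e ▸ hk) z1 i2
      omega
    have := L.bp z3 i1 z1
    exact ⟨z, z1, z3, by omega⟩
  by_contra hc
  obtain ⟨a, a1, a2, a3⟩ := key K i1 i2 fun h => hc (.inl h)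
  obtain ⟨b, b1, b2, b3⟩ := key K' i3 i4 fun h => hc (.inr h)
  by_cases e : a = b
  · exact h (H.g2 a2.symm hk.symm (fun e => by subst e; omega) i1 a1 i2 i3 (e ▸ b1) i4)
  obtain ⟨c, K0, c1, c2, c3, c4, c5, c6⟩ := L.qc ⟨a2, K, i1, a1⟩ ⟨b2, K', i3, b1⟩ a3 b3 e
  have := L.bp (c2 ▸ hk) c3 (H.g3 a2.symm b2.symm hk.symm e c5 c4 c6 i3 b1 i4 i1 a1 i2)
  omega

theorem lf : LF k inc where
  f1a := H.f1a
  f1b := H.f1b
  f1c := H.f1c
  f2 := H.f2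
  ax3 h1 h2 h3 h4 := H.g3 (by simp [*]) (by simp [*]) (by simp [*])
  ax1 h1 h2 := H.ax (h1.trans h2.symm)
  ax4 h1 h2 _ _ h i1 i2 i3 i4 i5 i6 i7 i8 := by
    rcases H.ax (h1.trans h2.symm) h i1 i2 ⟨_, i3, i4⟩ ⟨_, i7, i8⟩ i5 i6 with a | a | a
    exacts [.inl ⟨_, a, i5⟩, .inl ⟨_, a, i6⟩, .inl a.2]
  sel := by
    rcases isEmpty_or_nonempty X with h | ⟨⟨r⟩⟩
    · exact ⟨fun _ _ => False, by simp, fun {_ _ x} => (h.false x).elim⟩
    obtain ⟨l, L⟩ := H.lv r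
    refine ⟨fun K x => inc x K ∧ ∀ z, inc z K → l x ≤ l z, fun K => le_trans
      (Set.encard_le_one_iff.2 fun a b ha hb => ?_) one_le_two, fun h hk i1 i2 i3 i4 => ?_⟩
    · by_contra e
      have := ha.2 b hb.1
      have := hb.2 a ha.1
      by_cases hk : k a = k b
      · obtain ⟨y, y1, -, y2⟩ := H.low L e hk (by omega) ha.1 hb.1
        have := ha.2 y y1
        omega
      · have := L.bp hk ha.1 hb.1
        omega
    · rcases L.bp hk i1 i2 with e | e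
      · exact (H.sel_step L h hk i1 i2 i3 i4 e).elim (fun a => .inl ⟨i1, a⟩)
          fun a => .inr (.inr (.inl ⟨i3, a⟩))
      · exact (H.sel_step L h hk.symm i2 i1 i4 i3 e).elim (fun a => .inr (.inl ⟨i2, a⟩))
          fun a => .inr (.inr (.inr ⟨i4, a⟩))

end Hy

end Pool.Agent.Lib.MP_35cce7_an.Q.LA
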