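import Pool.Agent.Lib.MP_35cce7_an.QCov
import Pool.Agent.Lib.MP_35cce7_an.QLayA1

/-! The layer facts when all labels are at least four. -/

namespace Pool.Agent.Lib.MP_35cce7_an.Q

variable {X P C : Type} {k : X → Bool} {inc : X → P → Prop} {cx : Bool → C → X} {cp : C → P}

namespace LA

/-- the collinearity graph -/
def gr (k : X → Bool) (inc : X → P → Prop) : SimpleGraph X where
  Adj := ad k inc
  symm := ⟨fun _ _ h => ⟨h.1.symm, cop_symm h.2⟩⟩
  loopless := ⟨fun _ h => h.1 rfl⟩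

/-- four points of a plane -/
def Sq (k : X → Bool) (inc : X → P → Prop) (a b c e : X) : Prop :=
  k a ≠ k b ∧ k a = k c ∧ k b = k e ∧ a ≠ c ∧ b ≠ e ∧ ∃ K, inc a K ∧ inc b K ∧ inc c K ∧ inc e K

theorem d_one {x y : X} : (gr k inc).dist x y = 1 ↔ ad k inc x y :=
  SimpleGraph.dist_eq_one_iff_adj

theorem two (L : Lay k inc cx cp) (K : P) (x : X) :
    ∃ y z, inc y K ∧ inc z K ∧ k y ≠ k x ∧ k z ≠ k x ∧ y ≠ z := by
  obtain ⟨a, b, -, h1, h2, -, h3, h4, -, h5, -⟩ := L.rich K (!k x)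
  exact ⟨a, b, h1, h2, by simp [h3], by simp [h4], h5⟩

theorem cham (L : Lay k inc cx cp) {x y : X} (h : ad k inc x y) :
    ∃ c, cx (k x) c = x ∧ cx (!k x) c = y := by
  obtain ⟨h1, K, h2, h3⟩ := h
  cases hx : k x
  · obtain ⟨c, c1, c2, -⟩ := L.flag h3 h2 (by simpa [hx] using h1) hx
    exact ⟨c, c2, c1⟩
  · obtain ⟨c, c1, c2, -⟩ := L.flag h2 h3 hx (by simpa [hx] using h1)
    exact ⟨c, c1, c2⟩

theorem cham1 (L : Lay k inc cx cp) (x : X) : ∃ c, cx (k x) c = x := by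
  obtain ⟨K, hK⟩ := L.pt x
  obtain ⟨y, -, y1, -, y2, -⟩ := two L K x
  exact (cham L ⟨y2.symm, K, hK, y1⟩).imp fun _ h => h.1

theorem ad_cx (L : Lay k inc cx cp) (b : Bool) {c g : C} (h : cp c = cp g) :
    ad k inc (cx b c) (cx (!b) g) :=
  ⟨by simp [L.ck], cp c, L.ci _ _, h ▸ L.ci _ _⟩

theorem conn (L : Lay k inc cx cp) (r : X) : (gr k inc).Connected := by
  have h0 : ∀ b b' c, (gr k inc).Reachable (cx b c) (cx b' c) := fun b b' c => by
    by_cases e : b' = b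
    · rw [e]
    · rw [Bool.eq_not_of_ne e]
      exact SimpleGraph.Adj.reachable (ad_cx L b rfl)
  have h1 : ∀ b b' c c', (gr k inc).Reachable (cx b c) (cx b' c') := fun b b' c c' => by
    induction L.conn c c' with
    | refl => exact h0 _ _ _
    | tail _ h ih =>
      obtain ⟨a, ha⟩ := h
      exact (ih.trans (h0 b' a _)).trans (ha ▸ h0 a b' _)
  refine (SimpleGraph.connected_iff_exists_forall_reachable _).2 ⟨r, fun v => ?_⟩
  obtain ⟨c, hc⟩ := cham1 L r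
  obtain ⟨c', hc'⟩ := cham1 L v
  exact hc ▸ hc' ▸ h1 _ _ c c'

theorem ql (L : Lay k inc cx cp) (H : Gh k inc) (r : X) : QL (gr k inc).dist (Sq k inc) where
  toMet := met_of_graph _ (conn L r)
  rot := fun ⟨h1, h2, h3, h4, h5, K, a, b, c, e⟩ =>
    ⟨h2 ▸ h1.symm, h3, h2.symm, h5, h4.symm, K, b, c, e, a⟩
  rev := fun ⟨h1, h2, h3, h4, h5, K, a, b, c, e⟩ =>
    ⟨h3 ▸ h1, h2, h3.symm, h4, h5.symm, K, a, e, c, b⟩
  adj := fun ⟨h1, _, _, _, _, K, a, b, _⟩ => d_one.2 ⟨h1, K, a, b⟩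
  ne h := h.2.2.2.1
  cc0 := fun {w p z q r} ⟨h1, h2, h3, h4, _, K, a, b, c, e⟩ ⟨g1, _, g3, _, _, K', a', b', c', e'⟩ => by
    by_cases h : p = r
    · exact .inl h
    exact .inr ⟨h1, h2, h3.trans g3, h4, h, K, a, b, c,
      H.g2 g1 (h2 ▸ g1) h4 e a c b' a' c' ▸ e'⟩
  cc := fun ⟨h1, h2, h3, h4, h5, K, a, b, c, e⟩ ⟨g1, g2, _, g4, _, _, a', b', c', _⟩
      ⟨f1, _, _, _, _, _, a'', b'', c'', _⟩ =>
    .inl ⟨h1, h2, g2, h4, g4, K, a, b, c,
      H.g3 g1 f1 (g2 ▸ g1) h5 c b e b'' a'' c'' b' a' c'⟩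

section cover
variable {U : Type} {f : U → X} {A : U → U → Prop}

theorem path3 (h : QCv (gr k inc).dist (Sq k inc) f A) {p q r t : U} {K : P} (h1 : A p q)
    (h2 : A p r) (h3 : A r t) (i1 : inc (f p) K) (i2 : inc (f q) K) (i3 : inc (f r) K)
    (i4 : inc (f t) K) : A q t := by
  have k1 := (d_one.1 (h.hom h1)).1
  have k2 := (d_one.1 (h.hom h2)).1
  have k3 := (d_one.1 (h.hom h3)).1
  by_cases e1 : f q = f r
  · exact h.inj h1 h2 e1 ▸ h3
  by_cases e2 : f p = f t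
  · exact h.inj (h.symm h2) h3 e2 ▸ h.symm h1
  obtain ⟨s, s1, s2, s3⟩ := h.sq h1 h2
    ⟨k1, kk k2 k3.symm, kk k1.symm k2.symm, e2, e1, K, i1, i2, i4, i3⟩
  exact h.inj s2 h3 s3 ▸ s1

/-- chambers of the cover -/
def Ch (cx : Bool → C → X) (f : U → X) (A : U → U → Prop) :=
  {x : C × (Bool → U) // ∀ b, f (x.2 b) = cx b x.1 ∧ A (x.2 b) (x.2 (!b))}

/-- adjacency of chambers of the cover -/
def rel (cp : C → P) (i : Option Bool) (c c' : Ch cx f A) : Prop :=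
  i.elim (cp c.1.1 = cp c'.1.1 ∧ ∀ b, A (c.1.2 b) (c'.1.2 (!b))) fun b => c.1.2 b = c'.1.2 b

theorem mkc (h : QCv (gr k inc).dist (Sq k inc) f A) (b : Bool) (g : C) {p q : U}
    (h1 : f p = cx b g) (h2 : f q = cx (!b) g) (h3 : A p q) :
    ∃ c : Ch cx f A, c.1.1 = g ∧ c.1.2 b = p ∧ c.1.2 (!b) = q := by
  refine ⟨⟨(g, fun a => if a = b then p else q), fun a => ?_⟩, rfl, by simp, by simp⟩
  have := h.symm h3
  cases a <;> cases b <;> simp_all

theorem exl (L : Lay k inc cx cp) (h : QCv (gr k inc).dist (Sq k inc) f A) (b : Bool) (g : C)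
    {p : U} (h1 : f p = cx b g) : ∃ c : Ch cx f A, c.1.1 = g ∧ c.1.2 b = p := by
  obtain ⟨q, q1, q2⟩ := h.lift (p := p) (h1 ▸ d_one.2 (ad_cx L b (rfl : cp g = cp g)))
  exact (mkc h b g h1 q2 q1).imp fun _ h => ⟨h.1, h.2.1⟩

theorem ch_eq (h : QCv (gr k inc).dist (Sq k inc) f A) {c c' : Ch cx f A} (e : c.1.1 = c'.1.1)
    (h1 : ∀ b, A (c.1.2 b) (c'.1.2 (!b))) : c = c' := by
  refine Subtype.ext (Prod.ext e (funext fun b => ?_))
  have := h.inj (c.2 (!b)).2 (h1 (!b)) (by rw [(c.2 _).1, (c'.2 _).1, e])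
  rwa [Bool.not_not] at this

theorem cross (h : QCv (gr k inc).dist (Sq k inc) f A) {c c' : Ch cx f A} {b : Bool}
    (e : c.1.2 b = c'.1.2 b) (a : Bool) : A (c.1.2 a) (c'.1.2 (!a)) := by
  by_cases ha : a = b
  · rw [ha, e]; exact (c'.2 b).2
  · have := h.symm (c.2 b).2
    rw [Bool.eq_not_of_ne ha, Bool.not_not, ← e]
    exact this

theorem qsc (L : Lay k inc cx cp) : QSC (gr k inc).dist (Sq k inc) := by
  intro U f A h p q hpq e
  have hi : ∀ (c : Ch cx f A) b, inc (f (c.1.2 b)) (cp c.1.1) := fun c b =>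
    (c.2 b).1 ▸ L.ci _ _
  have sy : ∀ {c c' : Ch cx f A}, (∀ b, A (c.1.2 b) (c'.1.2 (!b))) →
      ∀ b, A (c'.1.2 b) (c.1.2 (!b)) := fun h1 b => by
    have := h.symm (h1 (!b))
    rwa [Bool.not_not] at this
  have sc := L.scc (Ch cx f A) (fun c => c.1.1) (rel cp) (fun i => ?_) (fun i c c' hr => ?_)
    (fun i c g hg => ?_) (fun i c c' hr e => ?_) (fun i j c c' hr e => ?_)
  · have hb : ∀ (c : Ch cx f A) b, k (f (c.1.2 b)) = b := fun c b => (c.2 b).1 ▸ L.ck _ _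
    have key : ∀ c c' : Ch cx f A, c.1.2 (k (f p)) = p → c'.1.2 (k (f q)) = q →
        Relation.ReflTransGen (fun c c' => ∃ i, rel cp i c c') c c' := by
      clear e
      induction hpq with
      | refl => exact fun c c' h1 h2 => .single ⟨some _, h1.trans h2.symm⟩
      | @tail s t _ h2 ih =>
        intro c c' h3 h4
        have a1 := d_one.1 (h.hom h2)
        obtain ⟨g, g1, g2⟩ := cham L a1
        obtain ⟨c'', -, c2, c3⟩ := mkc h _ g g1.symm g2.symm h2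
        rw [← Bool.eq_not_of_ne a1.1.symm] at c3
        exact (ih c c'' h3 c2).tail ⟨some _, c3.trans h4.symm⟩
    obtain ⟨g, hg⟩ := cham1 L (f p)
    obtain ⟨c, c1, c2⟩ := exl L h _ g hg.symm
    obtain ⟨c', c3, c4⟩ := exl L h (k (f p)) g (p := q) (e ▸ hg.symm)
    have := sc c c' (key c c' c2 (e ▸ c4)) (c1.trans c3.symm)
    rw [← c2, this, c4]
  · cases i with
    | some b => exact ⟨fun _ => rfl, Eq.symm, Eq.trans⟩
    | none =>
      refine ⟨fun c => ⟨rfl, fun b => (c.2 b).2⟩, fun h1 => ⟨h1.1.symm, sy h1.2⟩,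
        fun {c c' c''} h1 h2 => ⟨h1.1.trans h2.1, fun b => ?_⟩⟩
      exact path3 h (h.symm (h1.2 b)) (h.symm (c'.2 b).2) (h2.2 b) (hi c' _) (h1.1 ▸ hi c _)
        (hi c' _) (h2.1 ▸ hi c'' _)
  · cases i with
    | some b => exact congrArg Sum.inl (by rw [← (c.2 b).1, ← (c'.2 b).1, show _ = _ from hr])
    | none => exact congrArg Sum.inr hr.1
  · cases i with
    | some b =>
      obtain ⟨c', c1, c2⟩ := exl L h b g ((c.2 b).1.trans (Sum.inl.inj hg))
      exact ⟨c', c2.symm, c1⟩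
    | none =>
      have e : cp c.1.1 = cp g := Sum.inr.inj hg
      have lf := fun b => h.lift (p := c.1.2 b) ((c.2 b).1 ▸ d_one.2 (ad_cx L b e))
      obtain ⟨s, s1, s2⟩ := lf true
      obtain ⟨t, t1, t2⟩ := lf false
      obtain ⟨c', c1, c2, c3⟩ := mkc h false g s2 t2 (path3 h s1 (c.2 true).2 t1 (hi c _)
        (s2 ▸ e ▸ L.ci _ _) (hi c _) (t2 ▸ e ▸ L.ci _ _))
      refine ⟨c', ⟨c1 ▸ e, fun b => ?_⟩, c1⟩
      cases b
      exacts [c3 ▸ t1, c2 ▸ s1]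
  · cases i with
    | some b => exact ch_eq h e (cross h hr)
    | none => exact ch_eq h e hr.2
  · have cr : ∀ b, A (c.1.2 b) (c'.1.2 (!b)) := by
      cases i with
      | some b => exact cross h hr
      | none => exact hr.2
    cases j with
    | none => exact ⟨Sum.inr.inj e, cr⟩
    | some b =>
      exact h.inj (h.symm (c.2 b).2) (h.symm (sy cr b))
        (by rw [(c.2 b).1, (c'.2 b).1]; exact Sum.inl.inj e)

end cover

theorem lv (L : Lay k inc cx cp) (H : Gh k inc) (r : X) : Lv k inc r ((gr k inc).dist r) := by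
  have M := (ql L H r).qm (qsc L)
  refine ⟨⟨fun h => (M.eq0 h).symm, fun h => h ▸ M.refl _⟩, fun h => (d_one.1 h).2,
    fun {x y K} h1 h2 h3 => ?_, fun h1 h2 h3 h4 h5 => ?_⟩
  · have a := d_one.2 ⟨h1, K, h2, h3⟩
    have := M.bip r a
    have := M.tri r x y
    have := M.tri r y x
    have := M.symm x y
    omega
  · obtain ⟨c, c1, -, c2, -, -, -, K, c3⟩ :=
      (M.qc r (d_one.2 h1) (d_one.2 h2) h3 h4).resolve_left h5
    exact ⟨c, K, c1, c2, c3⟩

end LA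

theorem Lay.lfA {X P C : Type} {k : X → Bool} {inc : X → P → Prop} {cx : Bool → C → X}
    {cp : C → P} (L : Lay k inc cx cp) (g1 : Gi k inc true 4) (g0 : Gi k inc false 4) :
    LF k inc :=
  have H : LA.Gh k inc := .of fun b => by cases b <;> assumption
  LA.Hy.lf ⟨H, LA.two L, fun r => ⟨_, LA.lv L H r⟩⟩

end Pool.Agent.Lib.MP_35cce7_an.Q
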