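import Pool.Agent.Lib.MP_35cce7_an.QDefs

/-! The layer facts in case B, from levels of points. -/

namespace Pool.Agent.Lib.MP_35cce7_an.Q

variable {X P : Type} {k : X → Bool} {inc : X → P → Prop}

theorem Gi.two {b : Bool} {m : ℕ} (g : Gi k inc b m) (hm : 2 < m) {x y y' : X} {K K' : P}
    (hx : k x = b) (hy : k y ≠ b) (hy' : k y' ≠ b) (ne : y ≠ y') (a1 : inc x K) (a2 : inc y K)
    (a3 : inc y' K) (b1 : inc x K') (b2 : inc y K') (b3 : inc y' K') : K = K' := by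
  by_contra hK
  refine g 2 (by omega) hm x (fun i => if i = 1 then y' else y) (fun i => if i = 1 then K' else K)
    hx ?_ (by simp) (by simp)
  intro i hi
  obtain rfl | rfl : i = 0 ∨ i = 1 := by omega
  · simpa using ⟨hy, a1, a2, a3, ne, hK⟩
  · simpa using ⟨hy', b1, b3, b2, ne.symm, Ne.symm hK⟩

theorem Gi.three {b : Bool} {m : ℕ} (g : Gi k inc b m) (hm : 3 < m) {o x y z : X} {K K' K'' : P}
    (ho : k o = b) (hx : k x ≠ b) (hy : k y ≠ b) (hz : k z ≠ b) (ne : x ≠ y) (a1 : inc o K)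
    (a2 : inc x K) (a3 : inc y K) (b1 : inc o K') (b2 : inc y K') (b3 : inc z K')
    (c1 : inc o K'') (c2 : inc x K'') (c3 : inc z K'') : inc z K := by
  by_contra hz'
  have n1 : K ≠ K' := fun e => hz' (e ▸ b3)
  have n2 : K'' ≠ K := fun e => hz' (e ▸ c3)
  have n3 : K' ≠ K'' := fun e => n1 (g.two (by omega) ho hx hy ne a1 a2 a3 b1 (e ▸ c2) b2)
  have n4 : y ≠ z := fun e => hz' (e ▸ a3)
  have n5 : z ≠ x := fun e => hz' (e ▸ a2)
  refine g 3 (by omega) hm o (fun i => if i = 1 then y else if i = 2 then z else x)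
    (fun i => if i = 1 then K' else if i = 2 then K'' else K) ho ?_ (by simp) (by simp)
  intro i hi
  obtain rfl | rfl | rfl : i = 0 ∨ i = 1 ∨ i = 2 := by omega
  · simpa using ⟨hx, a1, a2, a3, ne, n1⟩
  · simpa using ⟨hy, b1, b2, b3, n4, n3⟩
  · simpa using ⟨hz, c1, c3, c2, n5, n2⟩

theorem cop.symm {x y : X} (h : cop inc x y) : cop inc y x := h.imp fun _ e => e.symm

theorem aj.symm {x y : X} (h : aj k inc x y) : aj k inc y x :=
  ⟨h.1.symm, fun e => h.2.1 e.symm, h.2.2.symm⟩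

theorem ne_oe {o e : X} (ho : k o = true) (he : k e = false) : o ≠ e := fun h => by
  rw [h, he] at ho
  exact Bool.noConfusion ho

theorem aj_even {e x : X} (he : k e = false) (ne : e ≠ x) (c : cop inc e x) : aj k inc e x :=
  ⟨ne, fun h => ne_oe h.1 he rfl, c⟩

theorem aj_eo {e o : X} (he : k e = false) (ho : k o = true) (c : cop inc e o) : aj k inc e o :=
  aj_even he (ne_oe ho he).symm c

theorem aj.even {o x : X} (h : aj k inc o x) (ho : k o = true) : k x = false :=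
  Bool.eq_false_iff.2 fun e => h.2.1 ⟨ho, e⟩

namespace Lev

variable {r : X} {l : X → ℕ} (h : Lev k inc r l)
include h

theorem one_of {x : X} (a : aj k inc r x) : l x = 1 := by
  have h1 := h.lip a
  have h2 := h.zero.2 (rfl : r = r)
  have h3 : l x ≠ 0 := fun e => a.1 (h.zero.1 e).symm
  omega

theorem of_one {x : X} (e : l x = 1) : aj k inc r x := by
  obtain ⟨y, hy, h0⟩ := h.par (n := 0) e
  exact h.zero.1 h0 ▸ hy

theorem two_of (hr : k r = true) {x : X} (hx : k x = true) (ne : r ≠ x) (e : l x ≤ 2) :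
    l x = 2 := by
  have h3 : l x ≠ 0 := fun e => ne (h.zero.1 e).symm
  have h4 : l x ≠ 1 := fun e => ne_oe hx ((h.of_one e).even hr) rfl
  omega

theorem pos_even (hr : k r = true) {x : X} (hx : k x = false) : l x ≠ 0 := fun e =>
  ne_oe hr hx (h.zero.1 e).symm

/-- two different parents, one of them even, are coplanar with the child -/
theorem pc' {x p q : X} {n : ℕ} (a : aj k inc p x) (b : aj k inc q x) (hp : l p = n)
    (hq : l q = n) (hx : l x = n + 1) (ne : p ≠ q) : ∃ K, inc x K ∧ inc p K ∧ inc q K :=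
  ((h.pc a b hp hq hx).resolve_left ne).2

theorem pc_odd {x p q : X} {n : ℕ} (a : aj k inc p x) (b : aj k inc q x) (hp : l p = n)
    (hq : l q = n) (hx : l x = n + 1) (op : k p = true) (oq : k q = true) : p = q :=
  (h.pc a b hp hq hx).resolve_right fun e => e.1 ⟨op, oq⟩

end Lev

/-- the input of case B -/
structure HB (k : X → Bool) (inc : X → P → Prop) : Prop where
  rich : ∀ K b, ∃ x y z, inc x K ∧ inc y K ∧ inc z K ∧ k x = b ∧ k y = b ∧ k z = b ∧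
    x ≠ y ∧ y ≠ z ∧ x ≠ z
  lev : ∀ r, ∃ l, Lev k inc r l
  g1 : Gi k inc true 6
  g0 : Gi k inc false 3

namespace HB

variable (H : HB k inc)
include H

theorem g2 {x y y' : X} {K K' : P} (hy : k y ≠ k x) (hy' : k y' ≠ k x) (ne : y ≠ y')
    (a1 : inc x K) (a2 : inc y K) (a3 : inc y' K) (b1 : inc x K') (b2 : inc y K')
    (b3 : inc y' K') : K = K' := by
  cases hx : k x <;> rw [hx] at hy hy'
  · exact H.g0.two (by omega) hx hy hy' ne a1 a2 a3 b1 b2 b3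
  · exact H.g1.two (by omega) hx hy hy' ne a1 a2 a3 b1 b2 b3

theorem f1c_odd {x x' y y' : X} (nx : x ≠ x') (ny : y ≠ y') (ox : k x = true) (ox' : k x' = true)
    (ey : k y = false) (ey' : k y' = false) (c1 : cop inc x y) (c2 : cop inc x y')
    (c3 : cop inc x' y) (c4 : cop inc x' y') :
    ∃ K, inc x K ∧ inc x' K ∧ inc y K ∧ inc y' K := by
  obtain ⟨l, h⟩ := H.lev x
  have l1 := h.one_of (aj_eo ey ox c1.symm).symm
  have l2 := h.one_of (aj_eo ey' ox c2.symm).symm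
  have a3 := aj_eo ey ox' c3.symm
  have l3 := h.two_of ox ox' nx (by have := h.lip a3; omega)
  obtain ⟨K, i1, i2, i3⟩ := h.pc' a3 (aj_eo ey' ox' c4.symm) l1 l2 l3 ny
  obtain ⟨u, i4, l4⟩ := h.tce (n := 0) ey ey' ny i2 i3 l1 l2
  exact ⟨K, h.zero.1 l4 ▸ i4, i1, i2, i3⟩

theorem f1c {x x' y y' : X} (nx : x ≠ x') (ny : y ≠ y') (kx : k x = k x') (ky : k y = k y')
    (kk : k x ≠ k y) (c1 : cop inc x y) (c2 : cop inc x y') (c3 : cop inc x' y)
    (c4 : cop inc x' y') : ∃ K, inc x K ∧ inc x' K ∧ inc y K ∧ inc y' K := by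
  cases hx : k x <;> cases hy : k y
  · exact absurd (hx.trans hy.symm) kk
  · obtain ⟨K, a, b, c, d⟩ := H.f1c_odd ny nx hy (ky ▸ hy) hx (kx ▸ hx) c1.symm c3.symm c2.symm
      c4.symm
    exact ⟨K, c, d, a, b⟩
  · exact H.f1c_odd nx ny hx (kx ▸ hx) hy (ky ▸ hy) c1 c2 c3 c4
  · exact absurd (hx.trans hy.symm) kk

theorem other (K : P) (b : Bool) (u : X) : ∃ y, inc y K ∧ k y = b ∧ y ≠ u := by
  obtain ⟨x, y, -, a, c, -, d, e, -, ne, -⟩ := H.rich K b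
  by_cases h : x = u
  · exact ⟨y, c, e, fun t => ne (h.trans t.symm)⟩
  · exact ⟨x, a, d, h⟩

theorem f1a {x x' : X} {K K' : P} (nx : x ≠ x') (kx : k x = k x') (a1 : inc x K) (a2 : inc x' K)
    (b1 : inc x K') (b2 : inc x' K') : K = K' := by
  obtain ⟨y, i1, k1, -⟩ := H.other K (!k x) x
  obtain ⟨y', i2, k2, ne⟩ := H.other K' (!k x) y
  have n1 : k x ≠ k y := by rw [k1]; cases k x <;> simp
  have n2 : k x ≠ k y' := by rw [k2]; cases k x <;> simp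
  obtain ⟨K0, c1, c2, c3, c4⟩ := H.f1c nx ne.symm kx (k1.trans k2.symm) n1 ⟨K, a1, i1⟩
    ⟨K', b1, i2⟩ ⟨K, a2, i1⟩ ⟨K', b2, i2⟩
  exact (H.g2 n1 (kx ▸ n1) nx i1 a1 a2 c3 c1 c2).trans
    (H.g2 n2 (kx ▸ n2) nx c4 c1 c2 i2 b1 b2)

theorem f1b {x x' y : X} {K : P} (nx : x ≠ x') (kx : k x = k x') (ky : k y ≠ k x) (a1 : inc x K)
    (a2 : inc x' K) (c1 : cop inc y x) (c2 : cop inc y x') : inc y K := by
  obtain ⟨y', i, k1, ne⟩ := H.other K (k y) y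
  obtain ⟨K0, b1, b2, b3, -⟩ := H.f1c nx ne.symm kx k1.symm ky.symm c1.symm ⟨K, a1, i⟩ c2.symm
    ⟨K, a2, i⟩
  exact H.f1a nx kx b1 b2 a1 a2 ▸ b3

/-- an even point collinear with two odd points of a plane -/
theorem f1o {x x' y : X} {K : P} (nx : x ≠ x') (o1 : k x = true) (o2 : k x' = true)
    (e : k y = false) (a1 : inc x K) (a2 : inc x' K) (c1 : cop inc y x) (c2 : cop inc y x') :
    inc y K :=
  H.f1b nx (o1.trans o2.symm) (by rw [e, o1]; simp) a1 a2 c1 c2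

/-- a point coplanar with two even points of a plane lies in it -/
theorem cl {w s e : X} {K : P} (ew : k w = false) (es : k s = false) (ne : w ≠ s) (a1 : inc w K)
    (a2 : inc s K) (c1 : cop inc e w) (c2 : cop inc e s) : inc e K := by
  cases he : k e
  · by_cases n1 : e = w
    · exact n1 ▸ a1
    by_cases n2 : e = s
    · exact n2 ▸ a2
    obtain ⟨l, h⟩ := H.lev e
    obtain ⟨u, i, l0⟩ := h.tce (n := 0) ew es ne a1 a2 (h.one_of (aj_even he n1 c1))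
      (h.one_of (aj_even he n2 c2))
    exact h.zero.1 l0 ▸ i
  · exact H.f1b ne (ew.trans es.symm) (by rw [he, ew]; simp) a1 a2 c1 c2

theorem lev2 {r x : X} {l : X → ℕ} (h : Lev k inc r l) (hr : k r = true) (hx : k x = true)
    (ne : r ≠ x) (c : cop inc r x) : l x = 2 := by
  obtain ⟨K, a1, a2⟩ := c
  obtain ⟨e, i, ke, -⟩ := H.other K false r
  have l1 := h.one_of (aj_eo ke hr ⟨K, i, a1⟩).symm
  have l2 := h.lip (aj_eo ke hx ⟨K, i, a2⟩)
  exact h.two_of hr hx ne (by omega)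

theorem f2 {x y z : X} (k1 : k x = k y) (k2 : k y = k z) (c1 : cop inc x y) (c2 : cop inc y z)
    (c3 : cop inc x z) : (∃ K, inc x K ∧ inc y K ∧ inc z K) ∨
      ∃ o, k o ≠ k x ∧ cop inc o x ∧ cop inc o y ∧ cop inc o z := by
  obtain ⟨K, b1, b2⟩ := c2
  by_cases n1 : x = y
  · exact Or.inl ⟨K, n1 ▸ b1, b1, b2⟩
  by_cases n2 : x = z
  · exact Or.inl ⟨K, n2 ▸ b2, b1, b2⟩
  by_cases n3 : y = z
  · obtain ⟨K', a1, a2⟩ := c1
    exact Or.inl ⟨K', a1, a2, n3 ▸ a2⟩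
  cases hx : k x
  · exact Or.inl ⟨K, H.cl (k1 ▸ hx) (k2 ▸ k1 ▸ hx) n3 b1 b2 c1 c3, b1, b2⟩
  have oy : k y = true := k1 ▸ hx
  have oz : k z = true := k2 ▸ oy
  obtain ⟨l, h⟩ := H.lev x
  have ly := H.lev2 h hx oy n1 c1
  have lz := H.lev2 h hx oz n2 c3
  have fin : ∀ u, inc u K → l u = 1 → ∃ o, k o ≠ true ∧ cop inc o x ∧ cop inc o y ∧ cop inc o z :=
    fun u i e => ⟨u, by rw [(h.of_one e).even hx]; simp, (h.of_one e).2.2.symm, ⟨K, i, b1⟩,
      ⟨K, i, b2⟩⟩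
  have lv : ∀ u, inc u K → k u = false → l u = 1 ∨ l u = 2 := by
    intro u i e
    have a1 := aj_eo e oy ⟨K, i, b1⟩
    have t1 := h.lip a1
    have t2 := h.lip a1.symm
    have t3 : l u ≠ 3 := fun t =>
      n3 (h.pc_odd a1.symm (aj_eo e oz ⟨K, i, b2⟩).symm ly lz t oy oz)
    omega
  obtain ⟨u, v, -, i1, i2, -, e1, e2, -, ne, -⟩ := H.rich K false
  rcases lv u i1 e1 with t1 | t1
  · exact Or.inr (fin u i1 t1)
  rcases lv v i2 e2 with t2 | t2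
  · exact Or.inr (fin v i2 t2)
  obtain ⟨w, i3, t3⟩ := h.tce (n := 1) e1 e2 ne i1 i2 t1 t2
  exact Or.inr (fin w i3 t3)

theorem ax1 {w s e n : X} {K K' : P} (ew : k w = false) (es : k s = false) (ne : w ≠ s)
    (a1 : inc w K) (a2 : inc s K) (c1 : cop inc s e) (c2 : cop inc n w) (b1 : inc e K')
    (b2 : inc n K') : inc e K ∨ inc n K ∨ (k e = k n ∧ ∃ x, inc x K ∧ inc x K') := by
  by_cases eK : inc e K
  · exact Or.inl eK
  by_cases nK : inc n K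
  · exact Or.inr (Or.inl nK)
  refine Or.inr (Or.inr ?_)
  obtain ⟨l, h⟩ := H.lev w
  have ls := h.one_of (aj_even ew ne ⟨K, a1, a2⟩)
  have ln := h.one_of (aj_even ew (fun t : w = n => nK (t ▸ a1)) c2.symm)
  have se := aj_even es (fun t : s = e => eK (t ▸ a2)) c1
  have le : l e = 2 := by
    have t1 := h.lip se
    have t2 : l e ≠ 0 := fun t => eK (h.zero.1 t ▸ a1)
    have t3 : l e ≠ 1 := fun t => eK (H.cl ew es ne a1 a2 (h.of_one t).2.2.symm c1.symm)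
    omega
  have nne : n ≠ e := fun t => by rw [t] at ln; omega
  have oo : k n = true ∧ k e = true := by
    by_contra t
    obtain ⟨K0, -, i1, i2⟩ := h.pc' se ⟨nne, t, K', b2, b1⟩ ls ln le fun t => nK (t ▸ a2)
    exact nK (H.cl ew es ne a1 a2 c2 ⟨K0, i2, i1⟩)
  refine ⟨oo.2.trans oo.1.symm, ?_⟩
  have fin : ∀ f, inc f K' → k f = false → l f = 1 → ∃ x, inc x K ∧ inc x K' := by
    intro f i ef lf
    by_cases t : s = f
    · exact ⟨s, a2, t ▸ i⟩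
    obtain ⟨K0, -, i1, i2⟩ := h.pc' se (aj_eo ef oo.2 ⟨K', i, b1⟩) ls lf le t
    exact ⟨f, H.cl ew es ne a1 a2 (h.of_one lf).2.2.symm ⟨K0, i2, i1⟩, i⟩
  obtain ⟨f, i, ef, -⟩ := H.other K' false w
  have fn := aj_eo ef oo.1 ⟨K', i, b2⟩
  have t1 := h.lip (aj_eo ef oo.2 ⟨K', i, b1⟩)
  have t2 := h.lip fn.symm
  by_cases lf : l f = 1
  · exact fin f i ef lf
  have lf2 : l f = 2 := by omega
  obtain ⟨K0, a, j1, j2, j3, ea, la⟩ := h.tcl (n := 1) oo.2 ef ⟨K', b1, i⟩ le lf2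
  obtain ⟨K1, -, j4, j5⟩ := h.pc' (aj_even ea (fun t => by rw [t] at la; omega) ⟨K0, j3, j2⟩)
    fn.symm la ln lf2 (ne_oe oo.1 ea).symm
  exact fin a (H.f1o nne oo.1 oo.2 ea b2 b1 ⟨K1, j4, j5⟩ ⟨K0, j3, j1⟩) ea la

/-- two even points at level three in a plane through an odd point of level two -/
theorem far {r s : X} {l : X → ℕ} (h : Lev k inc r l) (hr : k r = true) (os : k s = true)
    (ls : l s = 2) {K : P} (a : inc s K) (no : ∀ f, inc f K → l f ≠ 1) :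
    ∃ f g, f ≠ g ∧ inc f K ∧ inc g K ∧ k f = false ∧ k g = false ∧ l f = 3 ∧ l g = 3 := by
  have lv : ∀ u, inc u K → k u = false → l u = 2 ∨ l u = 3 := by
    intro u i e
    have t1 := h.lip (aj_eo e os ⟨K, i, a⟩).symm
    have t2 := h.pos_even hr e
    have t3 := no u i
    omega
  have tw : ∀ u v, inc u K → inc v K → k u = false → k v = false → u ≠ v → l u = 2 → l v = 2 →
      False := by
    intro u v i1 i2 e1 e2 ne t1 t2
    obtain ⟨w, i3, t3⟩ := h.tce (n := 1) e1 e2 ne i1 i2 t1 t2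
    exact no w i3 t3
  obtain ⟨x, y, z, i1, i2, i3, e1, e2, e3, n1, n2, n3⟩ := H.rich K false
  rcases lv x i1 e1 with t1 | t1 <;> rcases lv y i2 e2 with t2 | t2 <;>
    rcases lv z i3 e3 with t3 | t3
  · exact (tw x y i1 i2 e1 e2 n1 t1 t2).elim
  · exact (tw x y i1 i2 e1 e2 n1 t1 t2).elim
  · exact (tw x z i1 i3 e1 e3 n3 t1 t3).elim
  · exact ⟨y, z, n2, i2, i3, e2, e3, t2, t3⟩
  · exact (tw y z i2 i3 e2 e3 n2 t2 t3).elim
  · exact ⟨x, z, n3, i1, i3, e1, e3, t1, t3⟩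
  · exact ⟨x, y, n1, i1, i2, e1, e2, t1, t2⟩
  · exact ⟨x, y, n1, i1, i2, e1, e2, t1, t2⟩

/-- an even point of level two in the plane of odd points of levels two and three -/
theorem mid {r s e f : X} {l : X → ℕ} (h : Lev k inc r l) (os : k s = true) (oe : k e = true)
    (ef : k f = false) (ls : l s = 2) (le : l e = 3) (lf : l f = 3) {K : P} (a1 : inc s K)
    (a2 : inc e K) (a3 : inc f K) : ∃ a, inc a K ∧ k a = false ∧ l a = 2 := by
  obtain ⟨K0, a, j1, j2, j3, ea, la⟩ := h.tcl (n := 2) oe ef ⟨K, a2, a3⟩ le lf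
  obtain ⟨K1, -, j4, j5⟩ := h.pc' (aj_even ea (fun t => by rw [t] at la; omega) ⟨K0, j3, j2⟩)
    (aj_eo ef os ⟨K, a3, a1⟩).symm la ls lf (ne_oe os ea).symm
  exact ⟨a, H.f1o (fun t => by rw [t] at ls; omega) os oe ea a1 a2 ⟨K1, j4, j5⟩ ⟨K0, j3, j1⟩,
    ea, la⟩

theorem step4 {w s e n : X} {K K' K₁ K₂ : P} (ow : k w = true) (os : k s = true)
    (oe : k e = true) (on : k n = true) (ws : w ≠ s) (wn : w ≠ n) (a1 : inc w K) (a2 : inc s K)
    (b1 : inc s K₂) (b2 : inc e K₂) (c1 : inc e K') (c2 : inc n K') (d1 : inc n K₁)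
    (d2 : inc w K₁) : (∃ x, inc x K ∧ inc x K') ∨
      (∃ x, k x = false ∧ inc x K ∧ (inc x K₁ ∨ inc x K₂)) ∨
      ∃ x, k x = false ∧ inc x K' ∧ inc x K₁ := by
  obtain ⟨l, h⟩ := H.lev w
  have ls := H.lev2 h ow os ws ⟨K, a1, a2⟩
  have ln := H.lev2 h ow on wn ⟨K₁, d2, d1⟩
  have inK : ∀ b, l b = 1 → cop inc b s → inc b K := fun b t c =>
    H.f1o ws ow os ((h.of_one t).even ow) a1 a2 (h.of_one t).2.2.symm c
  have inK1 : ∀ b, l b = 1 → cop inc b n → inc b K₁ := fun b t c =>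
    H.f1o wn ow on ((h.of_one t).even ow) d2 d1 (h.of_one t).2.2.symm c
  by_cases n2 : ∀ f, inc f K₂ → l f ≠ 1
  swap
  · push Not at n2
    obtain ⟨f, i, t⟩ := n2
    exact Or.inr (Or.inl ⟨f, (h.of_one t).even ow, inK f t ⟨K₂, i, b1⟩, Or.inr i⟩)
  by_cases n' : ∀ f, inc f K' → l f ≠ 1
  swap
  · push Not at n'
    obtain ⟨f, i, t⟩ := n'
    exact Or.inr (Or.inr ⟨f, (h.of_one t).even ow, i, inK1 f t ⟨K', i, c2⟩⟩)
  obtain ⟨f1, f2, nf, i1, i2, e1, e2, l1, l2⟩ := H.far h ow os ls b1 n2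
  obtain ⟨g1, g2, ng, j1, j2, e3, e4, l3, l4⟩ := H.far h ow on ln c2 n'
  have fe := aj_eo e1 oe ⟨K₂, i1, b2⟩
  have t1 := h.lip fe
  have t2 := h.lip fe.symm
  obtain le | le | le : l e = 2 ∨ l e = 4 ∨ l e = 3 := by omega
  · exact Or.inl ⟨s, a2, h.pc_odd (aj_eo e1 os ⟨K₂, i1, b1⟩).symm fe.symm ls le l1 os oe ▸ c1⟩
  · have cc : ∀ f g, inc f K₂ → inc g K' → k f = false → k g = false → l f = 3 → l g = 3 →
        cop inc g f := by
      intro f g i j ef eg lf lg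
      by_cases t : f = g
      · exact ⟨K', j, t ▸ j⟩
      obtain ⟨K0, -, u1, u2⟩ := h.pc' (aj_eo ef oe ⟨K₂, i, b2⟩) (aj_eo eg oe ⟨K', j, c1⟩) lf lg le t
      exact ⟨K0, u2, u1⟩
    have u1 := H.cl e1 e2 nf i1 i2 (cc f1 g1 i1 j1 e1 e3 l1 l3) (cc f2 g1 i2 j1 e2 e3 l2 l3)
    have u2 := H.cl e1 e2 nf i1 i2 (cc f1 g2 i1 j2 e1 e4 l1 l4) (cc f2 g2 i2 j2 e2 e4 l2 l4)
    exact Or.inl ⟨s, a2, H.f1a ng (e3.trans e4.symm) u1 u2 j1 j2 ▸ b1⟩
  · obtain ⟨a, ia, ea, la⟩ := H.mid h os oe e1 ls le l1 b1 b2 i1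
    obtain ⟨a', ia', ea', la'⟩ := H.mid h on oe e3 ln le l3 c2 c1 j1
    have aa : a = a' := by
      by_contra t
      obtain ⟨K3, u1, u2, u3⟩ := h.pc' (aj_eo ea oe ⟨K₂, ia, b2⟩) (aj_eo ea' oe ⟨K', ia', c1⟩)
        la la' le t
      obtain ⟨u, u4, lu⟩ := h.tce (n := 1) ea ea' t u2 u3 la la'
      have := h.lip (aj_eo ((h.of_one lu).even ow) oe ⟨K3, u4, u1⟩)
      omega
    subst aa
    obtain ⟨K4, b, p1, p2, p3, eb, lb⟩ := h.tcl (n := 1) os ea ⟨K₂, b1, ia⟩ ls la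
    obtain ⟨K5, b', q1, q2, q3, eb', lb'⟩ := h.tcl (n := 1) on ea ⟨K', c2, ia'⟩ ln la
    refine Or.inr (Or.inl ⟨b', eb', inK b' lb' ?_, Or.inl (inK1 b' lb' ⟨K5, q3, q1⟩)⟩)
    by_cases t : b = b'
    · exact ⟨K4, t ▸ p3, p1⟩
    have nb : b ≠ a := fun t => by rw [t] at lb; omega
    obtain ⟨K6, r1, r2, r3⟩ := h.pc' (aj_even eb nb ⟨K4, p3, p2⟩)
      (aj_even eb' (fun t => by rw [t] at lb'; omega) ⟨K5, q3, q2⟩) lb lb' la t
    exact ⟨K4, H.f1a nb (eb.trans ea.symm) r2 r1 p3 p2 ▸ r3, p1⟩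

theorem ax4 {w s e n : X} {K K' K₁ K₂ : P} (ow : k w = true) (os : k s = true)
    (oe : k e = true) (on : k n = true) (ws : w ≠ s) (a1 : inc w K) (a2 : inc s K)
    (b1 : inc s K₂) (b2 : inc e K₂) (c1 : inc e K') (c2 : inc n K') (d1 : inc n K₁)
    (d2 : inc w K₁) : (∃ x, inc x K ∧ inc x K') ∨
      ∃ x, k x = false ∧ inc x K ∧ (inc x K₁ ∨ inc x K₂) := by
  by_cases wn : w = n
  · exact Or.inl ⟨w, a1, wn ▸ c2⟩
  by_cases se : s = e
  · exact Or.inl ⟨s, a2, se ▸ c1⟩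
  rcases H.step4 ow os oe on ws wn a1 a2 b1 b2 c1 c2 d1 d2 with t | t | ⟨x, ex, x1, x2⟩
  · exact Or.inl t
  · exact Or.inr t
  rcases H.step4 os ow on oe ws.symm se a2 a1 d2 d1 c2 c1 b2 b1 with t | ⟨y, t⟩ | ⟨y, ey, y1, y2⟩
  · exact Or.inl t
  · exact Or.inr ⟨y, t.1, t.2.1, t.2.2.symm⟩
  left
  by_cases xy : x = y
  · exact ⟨x, H.f1o ws ow os ex a1 a2 ⟨K₁, x2, d2⟩ ⟨K₂, xy ▸ y2, b1⟩, x1⟩
  obtain ⟨l, h⟩ := H.lev w
  have ls := H.lev2 h ow os ws ⟨K, a1, a2⟩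
  have lx := h.one_of (aj_eo ex ow ⟨K₁, x2, d2⟩).symm
  have axy := aj_even ex xy ⟨K', x1, y1⟩
  have t1 := h.lip axy
  have t2 := h.pos_even ow ey
  by_cases ly : l y = 1
  · exact ⟨y, H.f1o ws ow os ey a1 a2 (h.of_one ly).2.2.symm ⟨K₂, y2, b1⟩, y1⟩
  have ly2 : l y = 2 := by omega
  obtain ⟨K4, a, p1, p2, p3, ea, la⟩ := h.tcl (n := 1) os ey ⟨K₂, b1, y2⟩ ls ly2
  refine ⟨a, H.f1o ws ow os ea a1 a2 (h.of_one la).2.2.symm ⟨K4, p3, p1⟩, ?_⟩
  by_cases t : a = x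
  · exact t ▸ x1
  obtain ⟨K6, r1, r2, r3⟩ := h.pc' (aj_even ea (fun t => by rw [t] at la; omega) ⟨K4, p3, p2⟩)
    axy la lx ly2 t
  exact H.f1a xy (ex.trans ey.symm) r3 r1 x1 y1 ▸ r2

theorem lf (hs : ∃ σ : P → X → Prop, (∀ K, {x | σ K x}.encard ≤ 2) ∧
    ∀ {K K' x y}, K ≠ K' → k x ≠ k y → inc x K → inc y K → inc x K' → inc y K' →
      σ K x ∨ σ K y ∨ σ K' x ∨ σ K' y) : LF k inc where
  f1a := H.f1a
  f1b := H.f1b
  f1c := H.f1c
  f2 := H.f2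
  ax3 ho hx hy hz := H.g1.three (by omega) ho (by simp [hx]) (by simp [hy]) (by simp [hz])
  ax1 := H.ax1
  ax4 := H.ax4
  sel := hs

end HB

end Pool.Agent.Lib.MP_35cce7_an.Q
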