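import Pool.Agent.Lib.MP_35cce7_an.QLayB1
import Pool.Agent.Lib.MP_35cce7_an.QLayB3

/-! The layer facts in case B. -/

namespace Pool.Agent.Lib.MP_35cce7_an.Q

theorem Lay.lfB {X P C : Type} {k : X → Bool} {inc : X → P → Prop} {cx : Bool → C → X}
    {cp : C → P} (L : Lay k inc cx cp) (g1 : Gi k inc true 6) (g0 : Gi k inc false 3) :
    LF k inc := by
  obtain ⟨hl, hs⟩ := L.lev g1 g0
  exact HB.lf ⟨L.rich, hl, g1, g0⟩ hs

end Pool.Agent.Lib.MP_35cce7_an.Q
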