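import Pool.Agent.Lib.MP_35cce7_an.QZ0

/-! Type bookkeeping for `Zd`, the layer facts unbundled, and the local cube conditions. -/

namespace Pool.Agent.Lib.MP_35cce7_an.Q

/-- types that differ in exactly one coordinate -/
def adT (s t : Bool × Bool) : Prop := (s.1 ≠ t.1 ∧ s.2 = t.2) ∨ (s.1 = t.1 ∧ s.2 ≠ t.2)

/-- types that differ in both coordinates -/
def ptT (s t : Bool × Bool) : Prop := s.1 ≠ t.1 ∧ s.2 ≠ t.2

instance (s t : Bool × Bool) : Decidable (adT s t) := by unfold adT; infer_instance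

instance (s t : Bool × Bool) : Decidable (ptT s t) := by unfold ptT; infer_instance

theorem adT.symm : ∀ {s t}, adT s t → adT t s := by decide

theorem ptT.symm : ∀ {s t}, ptT s t → ptT t s := by decide

theorem adT.ne : ∀ {s t}, adT s t → s ≠ t := by decide

theorem ptT.ne : ∀ {s t}, ptT s t → s ≠ t := by decide

theorem adT.pt_of_ne : ∀ {w s t}, adT w s → adT w t → s ≠ t → ptT s t := by decide

theorem adT.of_pt : ∀ {w s t}, adT w s → ptT w t → adT s t := by decide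

theorem adT.two : ∀ {w s t u}, adT w s → adT w t → adT w u → s ≠ t → u = s ∨ u = t := by decide

theorem adT.fst_iff : ∀ {w s t : Bool × Bool}, adT w s → adT w t →
    (decide (w.1 = s.1) = decide (w.1 = t.1) ↔ s = t) := by decide

namespace Zd

variable {V : Type} {Z : Zd V}

theorem ad_iff {a b : V} : Z.ad a b ↔ Z.N a b ∧ adT (Z.ty a) (Z.ty b) := by
  unfold ad ev od adT
  tauto

theorem pt_iff {a b : V} : Z.pt a b ↔ Z.N a b ∧ ptT (Z.ty a) (Z.ty b) := Iff.rfl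

theorem ad.t {a b : V} (h : Z.ad a b) : adT (Z.ty a) (Z.ty b) := (ad_iff.1 h).2

theorem pt.t {a b : V} (h : Z.pt a b) : ptT (Z.ty a) (Z.ty b) := h.2

/-- a point of a plane of a layer is adjacent to the plane -/
theorem ad.pl {w x K : V} (hx : Z.ad w x) (hK : Z.pt w K) (h : Z.N x K) : Z.ad x K :=
  ad_iff.2 ⟨h, hx.t.of_pt hK.t⟩

/-- two distinct incident points of a layer are opposite -/
theorem ZB.pt_of (S : Z.ZB) {w x y : V} (hx : Z.ad w x) (hy : Z.ad w y) (h : Z.N x y)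
    (hne : x ≠ y) : Z.pt x y :=
  ⟨h, hx.t.pt_of_ne hy.t fun e => hne (S.ninj h e)⟩

theorem kw_eq {w : V} {x y : {x // Z.ad w x}} : Z.kw w x = Z.kw w y ↔ Z.ty x.1 = Z.ty y.1 :=
  x.2.t.fst_iff y.2.t

theorem kw_od {w x : V} (h : Z.od w x) : Z.kw w ⟨x, Or.inr h⟩ = true := decide_eq_true h.2.1

theorem kw_ev {w x : V} (h : Z.ev w x) : Z.kw w ⟨x, Or.inl h⟩ = false := decide_eq_false h.2.1

theorem ev_of_kw {w : V} {x : {x // Z.ad w x}} (h : Z.kw w x = false) : Z.ev w x.1 :=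
  x.2.resolve_right fun e => of_decide_eq_false h e.2.1

theorem cop_iff {w : V} {x y : {x // Z.ad w x}} : cop (Z.iw w) x y ↔ Z.cp w x.1 y.1 :=
  ⟨fun ⟨K, h1, h2⟩ => ⟨K.1, K.2, h1, h2⟩, fun ⟨K, h, h1, h2⟩ => ⟨⟨K, h⟩, h1, h2⟩⟩

theorem ZB.n_of_cp (S : Z.ZB) {w x y : V} (hx : Z.ad w x) (hy : Z.ad w y) (h : Z.cp w x y)
    (hne : Z.ty x ≠ Z.ty y) : Z.N x y :=
  let ⟨_, h0, h1, h2⟩ := h
  S.jj h0 hx hy h1 h2 hne

theorem ZB.zf' (S : Z.ZB) (h : ∀ w, LF (Z.kw w) (Z.iw w)) : Z.ZF where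
  toZB := S
  f1a := fun {w x x' K K'} hK hK' hx hx' ne e a b c d => congrArg Subtype.val
    ((h w).f1a (x := ⟨x, hx⟩) (x' := ⟨x', hx'⟩) (K := ⟨K, hK⟩) (K' := ⟨K', hK'⟩)
      (fun q => ne (congrArg Subtype.val q)) (kw_eq.2 e) a b c d)
  f1b := fun {w x x' y K} hK hx hx' hy ne e e' a b c d =>
    (h w).f1b (x := ⟨x, hx⟩) (x' := ⟨x', hx'⟩) (y := ⟨y, hy⟩) (K := ⟨K, hK⟩)
      (fun q => ne (congrArg Subtype.val q)) (kw_eq.2 e) (fun q => e' (kw_eq.1 q)) a b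
      (cop_iff.2 (S.lp hy hx c)) (cop_iff.2 (S.lp hy hx' d))
  f1c := fun {w x x' y y'} hx hx' hy hy' n1 n2 e1 e2 e3 a b c d => by
    obtain ⟨K, k1, k2, k3, k4⟩ := (h w).f1c (x := ⟨x, hx⟩) (x' := ⟨x', hx'⟩) (y := ⟨y, hy⟩)
      (y' := ⟨y', hy'⟩) (fun q => n1 (congrArg Subtype.val q))
      (fun q => n2 (congrArg Subtype.val q)) (kw_eq.2 e1) (kw_eq.2 e2) (fun q => e3 (kw_eq.1 q))
      (cop_iff.2 (S.lp hx hy a)) (cop_iff.2 (S.lp hx hy' b)) (cop_iff.2 (S.lp hx' hy c))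
      (cop_iff.2 (S.lp hx' hy' d))
    exact ⟨K.1, K.2, k1, k2, k3, k4⟩
  f2 := fun {w x y z} hx hy hz e1 e2 a b c => by
    rcases (h w).f2 (x := ⟨x, hx⟩) (y := ⟨y, hy⟩) (z := ⟨z, hz⟩) (kw_eq.2 e1) (kw_eq.2 e2)
      (cop_iff.2 a) (cop_iff.2 b) (cop_iff.2 c) with ⟨K, k1, k2, k3⟩ | ⟨o, e, k1, k2, k3⟩
    · exact Or.inl ⟨K.1, K.2, k1, k2, k3⟩
    · have e' : Z.ty o.1 ≠ Z.ty x := fun q => e (kw_eq.2 q)
      exact Or.inr ⟨o.1, o.2, e', S.n_of_cp o.2 hx (cop_iff.1 k1) e',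
        S.n_of_cp o.2 hy (cop_iff.1 k2) (e1 ▸ e'), S.n_of_cp o.2 hz (cop_iff.1 k3) (e2 ▸ e1 ▸ e')⟩
  ax3 := fun {w o x y z K K' K''} ho hx hy hz ne hK hK' hK'' a1 a2 a3 a4 a5 a6 a7 a8 a9 =>
    (h w).ax3 (o := ⟨o, Or.inr ho⟩) (x := ⟨x, Or.inl hx⟩) (y := ⟨y, Or.inl hy⟩)
      (z := ⟨z, Or.inl hz⟩) (K := ⟨K, hK⟩) (K' := ⟨K', hK'⟩) (K'' := ⟨K'', hK''⟩) (kw_od ho)
      (kw_ev hx) (kw_ev hy) (kw_ev hz) (fun q => ne (congrArg Subtype.val q))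
      a1 a2 a3 a4 a5 a6 a7 a8 a9
  ax1 := fun {g w s e n K K'} hw hs he hn ne hK hK' a1 a2 a3 a4 a5 a6 => by
    rcases (h g).ax1 (w := ⟨w, Or.inl hw⟩) (s := ⟨s, Or.inl hs⟩) (e := ⟨e, he⟩) (n := ⟨n, hn⟩)
      (K := ⟨K, hK⟩) (K' := ⟨K', hK'⟩) (kw_ev hw) (kw_ev hs)
      (fun q => ne (congrArg Subtype.val q)) a1 a2 (cop_iff.2 a3) (cop_iff.2 a4) a5 a6 with
      k | k | ⟨k, x, k1, k2⟩
    exacts [Or.inl k, Or.inr (Or.inl k), Or.inr (Or.inr ⟨kw_eq.1 k, x.1, x.2, k1, k2⟩)]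
  ax4 := fun {g w s e n K K' K₁ K₂} hw hs he hn ne hK hK' h1 h2 a1 a2 a3 a4 a5 a6 a7 a8 => by
    rcases (h g).ax4 (w := ⟨w, Or.inr hw⟩) (s := ⟨s, Or.inr hs⟩) (e := ⟨e, Or.inr he⟩)
      (n := ⟨n, Or.inr hn⟩) (K := ⟨K, hK⟩) (K' := ⟨K', hK'⟩) (K₁ := ⟨K₁, h1⟩) (K₂ := ⟨K₂, h2⟩)
      (kw_od hw) (kw_od hs) (kw_od he) (kw_od hn) (fun q => ne (congrArg Subtype.val q))
      a1 a2 a3 a4 a5 a6 a7 a8 with ⟨x, k1, k2⟩ | ⟨x, k, k1, k2⟩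
    exacts [Or.inl ⟨x.1, x.2, k1, k2⟩, Or.inr ⟨x.1, ev_of_kw k, k1, k2⟩]
  sel := by
    choose σ h1 h2 using fun w => (h w).sel
    refine ⟨fun m K x => ∃ (hK : Z.pt m K) (hx : Z.ad m x), σ m ⟨K, hK⟩ ⟨x, hx⟩, fun m K => ?_,
      fun m K K' x y hK hK' ne hx hy e a b c d => ?_⟩
    · by_cases hK : Z.pt m K
      · refine le_trans (Set.encard_le_encard ?_)
          ((Set.encard_image_le Subtype.val _).trans (h1 m ⟨K, hK⟩))
        rintro x ⟨_, hx, q⟩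
        exact ⟨⟨x, hx⟩, q, rfl⟩
      · rw [Set.eq_empty_of_forall_notMem (s := {x | ∃ (hK : Z.pt m K) (hx : Z.ad m x),
          σ m ⟨K, hK⟩ ⟨x, hx⟩}) fun x ⟨q, _⟩ => hK q]
        simp
    · rcases h2 m (K := ⟨K, hK⟩) (K' := ⟨K', hK'⟩) (x := ⟨x, hx⟩) (y := ⟨y, hy⟩)
        (fun q => ne (congrArg Subtype.val q)) (fun q => e (kw_eq.1 q)) a b c d with q | q | q | q
      exacts [Or.inl ⟨hK, hx, q⟩, Or.inr (Or.inl ⟨hK, hy, q⟩),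
        Or.inr (Or.inr (Or.inl ⟨hK', hx, q⟩)), Or.inr (Or.inr (Or.inr ⟨hK', hy, q⟩))]

theorem ZB.sq_rot (S : Z.ZB) {a b c e : V} (h : Z.Sq a b c e) : Z.Sq b c e a :=
  let ⟨h1, h2, h3, h4, h5, h6, h7⟩ := h
  ⟨h2, h3, h4, h1, h6, h5.symm, h7.symm.imp id S.nsymm⟩

theorem ZB.sq_rev (S : Z.ZB) {a b c e : V} (h : Z.Sq a b c e) : Z.Sq a e c b :=
  let ⟨h1, h2, h3, h4, h5, h6, h7⟩ := h
  ⟨S.ads h4, S.ads h3, S.ads h2, S.ads h1, h5, h6.symm, h7.imp id S.nsymm⟩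

/-- if `a`, `c` have one type then `e` is a plane of the layer `b` -/
theorem ZB.sq_same (S : Z.ZB) {a b c e : V} (h : Z.Sq a b c e) (t : Z.ty a = Z.ty c) :
    Z.pt b e :=
  let ⟨h1, _, _, h4, h5, h6, h7⟩ := h
  S.pt_of h1 (S.ads h4) (h7.resolve_left fun q => h5 (S.ninj q t)) h6

/-- if `a`, `c` have different types then they are incident -/
theorem ZB.sq_diff (S : Z.ZB) {a b c e : V} (h : Z.Sq a b c e) (t : Z.ty a ≠ Z.ty c) :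
    Z.N a c :=
  let ⟨h1, h2, h3, h4, _, h6, h7⟩ := h
  h7.elim id fun q => S.jj (S.pt_of h1 (S.ads h4) q h6) (S.ads h1) h2 (S.nsymm h4.n) h3.n t

theorem ZF.cc0 (S : Z.ZF) {w p z q r : V} (h : Z.Sq w p z q) (h' : Z.Sq w q z r) :
    p = r ∨ Z.Sq w p z r := by
  by_cases e : p = r
  · exact Or.inl e
  by_cases t : Z.ty w = Z.ty z
  · have B := S.toZB
    exact Or.inl (S.f1a (B.sq_same (B.sq_rev h) t) (B.sq_same h' t) h.2.2.2.1 h'.2.1 h.2.2.2.2.1 t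
      h.1.n (B.nsymm h.2.1.n) (B.nsymm h'.2.2.2.1.n) h'.2.2.1.n)
  · exact Or.inr ⟨h.1, h.2.1, h'.2.2.1, h'.2.2.2.1, h.2.2.2.2.1, e, Or.inl (S.toZB.sq_diff h t)⟩

theorem ZF.cc (S : Z.ZF) {v w w' q z p r : V} (h1 : Z.Sq v w q w') (h2 : Z.Sq w q z p)
    (h3 : Z.Sq w' q z r) : Z.Sq v w q z ∨ Z.Sq v w' q z ∨
      ∃ y, (y = w ∨ Z.Sq v w p y) ∧ (y = w' ∨ Z.Sq v w' r y) ∧ (p = r ∨ Z.Sq y p z r) := by
  have B := S.toZB
  have h1' := B.sq_rot h1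
  obtain ⟨vw, wq, qw', w'v, vq, ww', -⟩ := h1
  obtain ⟨-, qz, zp, pw, wz, -, -⟩ := id h2
  obtain ⟨-, -, zr, rw', w'z, -, -⟩ := id h3
  have qw := B.ads wq
  have o1 : Z.pt q v → Z.N z v → Z.Sq v w q z := fun a b =>
    ⟨vw, wq, qz, qz.pl a b, vq, wz, Or.inl (B.nsymm a.1)⟩
  have o2 : Z.pt q v → Z.N z v → Z.Sq v w' q z := fun a b =>
    ⟨B.ads w'v, B.ads qw', qz, qz.pl a b, vq, w'z, Or.inl (B.nsymm a.1)⟩
  by_cases t : Z.ty w = Z.ty w'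
  · have qv := B.sq_same h1' t
    by_cases t' : Z.ty w = Z.ty z
    · have qp := B.sq_same h2 t'
      have qr := B.sq_same h3 (t.symm.trans t')
      rcases S.f2 qw qw' qz t (t.symm.trans t') ⟨v, qv, B.nsymm vw.n, w'v.n⟩
        ⟨r, qr, B.nsymm rw'.n, zr.n⟩ ⟨p, qp, B.nsymm pw.n, zp.n⟩ with
        ⟨K, k, k1, k2, k3⟩ | ⟨o, qo, e, k1, k2, k3⟩
      · obtain rfl := S.f1a k qv qw qw' ww' t k1 k2 (B.nsymm vw.n) w'v.n
        exact Or.inl (o1 qv k3)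
      · have ov := S.f1b qv qw qw' qo ww' t e (B.nsymm vw.n) w'v.n k1 k2
        have op := S.f1b qp qw qz qo wz t' e (B.nsymm pw.n) zp.n k1 k3
        have or' := S.f1b qr qw' qz qo w'z (t.symm.trans t') (t ▸ e) (B.nsymm rw'.n) zr.n k2 k3
        by_cases e1 : v = p
        · exact Or.inl (o1 qv (e1 ▸ zp.n))
        by_cases e2 : v = r
        · exact Or.inl (o1 qv (e2 ▸ zr.n))
        refine Or.inr (Or.inr ⟨o, Or.inr ⟨vw, B.ads pw, B.ads (qo.pl qp op), qo.pl qv ov, e1,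
          fun q => e (by rw [q]), Or.inr (B.nsymm k1)⟩, Or.inr ⟨B.ads w'v, B.ads rw',
          B.ads (qo.pl qr or'), qo.pl qv ov, e2, fun q => e (by rw [← q, t]),
          Or.inr (B.nsymm k2)⟩, or_iff_not_imp_left.2 fun e3 => ⟨qo.pl qp op, B.ads zp, zr,
          B.ads (qo.pl qr or'), fun q => e (by rw [q, t']), e3, Or.inl k3⟩⟩)
    · exact Or.inl (o1 qv (S.f1b qv qw qw' qz ww' t (Ne.symm t') (B.nsymm vw.n) w'v.n
        (B.nsymm (B.sq_diff h2 t')) (B.nsymm (B.sq_diff h3 (t ▸ t')))))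
  · have n0 := B.sq_diff h1' t
    rcases qw.t.two qw'.t qz.t t with t' | t'
    · have qp := B.sq_same h2 t'.symm
      have n1 := B.sq_diff h3 fun q => t (t'.symm.trans q.symm)
      have a := qw'.pl qp (S.f1b qp qw qz qw' wz t'.symm (Ne.symm t) (B.nsymm pw.n) zp.n
        (B.nsymm n0) n1)
      by_cases e1 : v = p
      · exact Or.inl (o1 (e1 ▸ qp) (e1 ▸ zp.n))
      exact Or.inr (Or.inr ⟨w', Or.inr ⟨vw, B.ads pw, B.ads a, w'v, e1, ww', Or.inr n0⟩,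
        Or.inl rfl, or_iff_not_imp_left.2 fun e3 =>
          ⟨a, B.ads zp, zr, rw', w'z, e3, Or.inl n1⟩⟩)
    · have qr := B.sq_same h3 t'.symm
      have n1 := B.sq_diff h2 fun q => t (q.trans t')
      have a := qw.pl qr (S.f1b qr qw' qz qw w'z t'.symm t (B.nsymm rw'.n) zr.n n0 n1)
      by_cases e1 : v = r
      · exact Or.inr (Or.inl (o2 (e1 ▸ qr) (e1 ▸ zr.n)))
      exact Or.inr (Or.inr ⟨w, Or.inl rfl, Or.inr ⟨B.ads w'v, B.ads rw', B.ads a, B.ads vw, e1,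
        ww'.symm, Or.inr (B.nsymm n0)⟩, or_iff_not_imp_left.2 fun e3 =>
          ⟨B.ads pw, B.ads zp, zr, B.ads a, wz, e3, Or.inl n1⟩⟩)

theorem ZF.ql (S : Z.ZF) : QL Z.d Z.Sq where
  toMet := S.toMet
  rot := S.toZB.sq_rot
  rev := S.toZB.sq_rev
  adj := fun h => S.dad.2 h.1
  ne := fun h => h.2.2.2.2.1
  cc0 := S.cc0
  cc := S.cc

end Zd

end Pool.Agent.Lib.MP_35cce7_an.Q
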