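import Pool.Agent.Lib.MP_35cce7_an.QCov
import Pool.Agent.Lib.MP_35cce7_an.QZ1a

namespace Pool.Agent.Lib.MP_35cce7_an.Q

theorem typ_cases : ∀ s t : Bool × Bool, s = t ∨ adT s t ∨ ptT s t := by decide

theorem ptT.mid : ∀ {s t}, ptT s t → ∃ u, adT s u ∧ adT u t := by decide

theorem adT_not : ∀ i : Bool × Bool, adT i (!i.1, i.2) ∧ adT i (i.1, !i.2) ∧
    adT (!i.1, i.2) (!i.1, !i.2) ∧ adT (!i.1, !i.2) (i.1, !i.2) := by decide

namespace Zd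

variable {V : Type} {Z : Zd V}

theorem ZB.zf (S : Z.ZB) (h : ∀ w, LF (Z.kw w) (Z.iw w)) : Z.ZF := S.zf' h

section
variable {C U : Type} {vx : Bool × Bool → C → V} {f : U → V} {A : U → U → Prop}

/-- a lift of a chamber -/
def Lf (vx : Bool × Bool → C → V) (f : U → V) (A : U → U → Prop) (c : C)
    (L : Bool × Bool → U) : Prop :=
  (∀ t, f (L t) = vx t c) ∧ ∀ t t', adT t t' → A (L t) (L t')

theorem ch_ad (h1 : ∀ t c, Z.ty (vx t c) = t) (h2 : ∀ t t' c, Z.N (vx t c) (vx t' c)) (c : C)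
    {t t' : Bool × Bool} (h : adT t t') : Z.ad (vx t c) (vx t' c) :=
  ad_iff.2 ⟨h2 _ _ _, by rwa [h1, h1]⟩

theorem ZB.lf_ex (S : Z.ZB) (h1 : ∀ t c, Z.ty (vx t c) = t)
    (h2 : ∀ t t' c, Z.N (vx t c) (vx t' c)) (Q : QCv Z.d Z.Sq f A) (c : C) (i : Bool × Bool)
    (u : U) (hu : f u = vx i c) : ∃ L, Lf vx f A c L ∧ L i = u := by
  obtain ⟨a1, a2, a3, a4⟩ := adT_not i
  have ne : ∀ {t t'}, t ≠ t' → vx t c ≠ vx t' c := fun {t t'} h e => h (by rw [← h1 t c, e, h1])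
  obtain ⟨u1, b1, e1⟩ := Q.lift (p := u) (z := vx (!i.1, i.2) c)
    (by rw [hu]; exact S.dad.2 (ch_ad h1 h2 c a1))
  obtain ⟨u2, b2, e2⟩ := Q.lift (p := u) (z := vx (i.1, !i.2) c)
    (by rw [hu]; exact S.dad.2 (ch_ad h1 h2 c a2))
  obtain ⟨s, b3, b4, e3⟩ := Q.sq (z := vx (!i.1, !i.2) c) b1 b2 (by
    rw [hu, e1, e2]
    exact ⟨ch_ad h1 h2 c a1, ch_ad h1 h2 c a3, ch_ad h1 h2 c a4, ch_ad h1 h2 c a2.symm,
      ne (by simp [Prod.ext_iff]), ne (by simp [Prod.ext_iff]), Or.inl (h2 _ _ _)⟩)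
  have c1 := Q.symm b1
  have c2 := Q.symm b2
  have c3 := Q.symm b3
  have c4 := Q.symm b4
  refine ⟨fun t => if t.1 = i.1 then if t.2 = i.2 then u else u2 else if t.2 = i.2 then u1 else s,
    ⟨fun t => ?_, fun t t' h => ?_⟩, by simp⟩
  · rcases i with ⟨_ | _, _ | _⟩ <;> rcases t with ⟨_ | _, _ | _⟩ <;> assumption
  · rcases i with ⟨_ | _, _ | _⟩ <;> rcases t with ⟨_ | _, _ | _⟩ <;>
      rcases t' with ⟨_ | _, _ | _⟩ <;> first | exact absurd h (by decide) | assumption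

theorem lf_eq (h1 : ∀ t c, Z.ty (vx t c) = t) (h2 : ∀ t t' c, Z.N (vx t c) (vx t' c))
    (Q : QCv Z.d Z.Sq f A) {c c' : C} {L L' : Bool × Bool → U} (h : Lf vx f A c L)
    (h' : Lf vx f A c' L') {i j : Bool × Bool} (e : L i = L' i) (ej : vx j c = vx j c') :
    L j = L' j := by
  have st : ∀ {i j}, adT i j → L i = L' i → vx j c = vx j c' → L j = L' j := fun a e ej =>
    Q.inj (h.2 _ _ a) (e ▸ h'.2 _ _ a) (by rw [h.1, h'.1, ej])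
  rcases typ_cases i j with rfl | a | a
  · exact e
  · exact st a e ej
  obtain ⟨t, a1, a2⟩ := a.mid
  by_cases et : vx t c = vx t c'
  · exact st a2 (st a1 e et) ej
  have ei : vx i c = vx i c' := by rw [← h.1, ← h'.1, e]
  obtain ⟨s, b1, b2, es⟩ := Q.sq (z := vx j c) (h.2 _ _ a1) (e ▸ h'.2 _ _ a1) (by
    rw [h.1, h.1, h'.1]
    exact ⟨ch_ad h1 h2 c a1, ch_ad h1 h2 c a2, ej ▸ ch_ad h1 h2 c' a2.symm,
      ei ▸ ch_ad h1 h2 c' a1.symm, fun q => a.ne (by rw [← h1 i c, q, h1]), et,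
      Or.inl (h2 _ _ _)⟩)
  exact (Q.inj (h.2 _ _ a2) b1 (by rw [h.1, es])).trans
    (Q.inj b2 (h'.2 _ _ a2) (by rw [h'.1, es, ej]))

theorem ZB.qsc (S : Z.ZB) (h1 : ∀ t c, Z.ty (vx t c) = t)
    (h2 : ∀ t t' c, Z.N (vx t c) (vx t' c))
    (h3 : ∀ a b, Z.N a b → ∃ c, vx (Z.ty a) c = a ∧ vx (Z.ty b) c = b) (sc : SCC vx) :
    QSC Z.d Z.Sq := by
  intro U f A Q p q hpq e
  have key := sc {x : C × (Bool × Bool → U) // Lf vx f A x.1 x.2} (fun x => x.1.1)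
    (fun t x y => x.1.2 t = y.1.2 t) (fun _ => ⟨fun _ => rfl, Eq.symm, Eq.trans⟩)
    (fun i x y h => by rw [← x.2.1, ← y.2.1, h])
    (fun i x g h => by
      obtain ⟨L, hL, eL⟩ := S.lf_ex h1 h2 Q g i (x.1.2 i) (by rw [x.2.1, h])
      exact ⟨⟨(g, L), hL⟩, eL.symm, rfl⟩)
    (fun i x y h hc => Subtype.ext (Prod.ext hc (funext fun j =>
      lf_eq h1 h2 Q x.2 y.2 h (by rw [show x.1.1 = y.1.1 from hc]))))
    (fun i j x y h hj => lf_eq h1 h2 Q x.2 y.2 h hj)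
  have path : ∀ q, Relation.ReflTransGen A p q →
      ∀ x y : {x : C × (Bool × Bool → U) // Lf vx f A x.1 x.2}, x.1.2 (Z.ty (f p)) = p →
        y.1.2 (Z.ty (f q)) = q →
          Relation.ReflTransGen (fun x y => ∃ t, x.1.2 t = y.1.2 t) x y := by
    intro q h
    induction h with
    | refl => exact fun x y hx hy => .single ⟨_, hx.trans hy.symm⟩
    | @tail a b _ hab ih =>
      intro x y hx hy
      have ad := S.dad.1 (Q.hom hab)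
      obtain ⟨c, c1, c2⟩ := h3 _ _ ad.n
      obtain ⟨L, hL, eL⟩ := S.lf_ex h1 h2 Q c _ a c1.symm
      refine (ih x ⟨(c, L), hL⟩ hx eL).tail ⟨Z.ty (f b), Eq.trans ?_ hy.symm⟩
      exact Q.inj (eL ▸ hL.2 _ _ ad.t) hab (by rw [hL.1, c2])
  obtain ⟨c, c1, -⟩ := h3 _ _ (S.nrefl (f p))
  obtain ⟨L, hL, eL⟩ := S.lf_ex h1 h2 Q c _ p c1.symm
  obtain ⟨L', hL', eL'⟩ := S.lf_ex h1 h2 Q c _ q (e ▸ c1.symm)
  have := key ⟨(c, L), hL⟩ ⟨(c, L'), hL'⟩ (path q hpq _ _ eL (e ▸ eL')) rfl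
  rw [← eL, ← eL', show L = L' from congrArg (fun x => x.1.2) this, e]

end

theorem ZF.zm {C : Type} (S : Z.ZF) (vx : Bool × Bool → C → V) (h1 : ∀ t c, Z.ty (vx t c) = t)
    (h2 : ∀ t t' c, Z.N (vx t c) (vx t' c))
    (h3 : ∀ a b, Z.N a b → ∃ c, vx (Z.ty a) c = a ∧ vx (Z.ty b) c = b) (sc : SCC vx) : Z.ZM :=
  have M := S.ql.qm (S.toZB.qsc h1 h2 h3 sc)
  { toZF := S
    bip := fun o _ _ h => M.bip o (S.dad.2 h)
    qc := fun o _ _ _ ha hb => M.qc o (S.dad.2 ha) (S.dad.2 hb) }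

end Zd

end Pool.Agent.Lib.MP_35cce7_an.Q
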