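import Pool.Agent.Lib.MP_35cce7_an.QDefs

/-! The bound for three short supports from patterns. -/

namespace Pool.Agent.Lib.MP_35cce7_an.Q

open ENNReal Classical

variable {G V T : Type} [Group G] [MulAction G V] [Fintype T]

theorem pat_one {B : ℕ → G → Prop} (hB : IsBall B) (h1 : ∀ r, B r 1)
    (h : GRD V B) (S : G → G → V → Prop)
    (sinv : ∀ g x y m, S x y m → S (g * x) (g * y) (g • m))
    (C : ℕ) (cnt : ∀ r x, B r x → {m | S 1 x m}.encard ≤ (C * (1 + r) : ℕ))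
    (Tr : T → V → V → V → Prop)
    (I : V → V → V → Prop) (iinv : ∀ (g : G) a b m, I a b m → I (g • a) (g • b) (g • m)) (n : ℕ)
    (icnt : ∀ a b, {m | I a b m}.encard ≤ n)
    (hT : ∀ t a b b' c, Tr t a b c → Tr t a b' c →
      (∃ m, I a b m ∧ I b b' m ∧ I a b' m) ∧ ∃ m, I b b' m ∧ I b' c m ∧ I b c m) :
    ∃ D s : ℕ, ∀ (r : ℕ) (f g u : G → ℝ≥0∞), (∀ x, f x ≠ 0 → B r x) → (∀ x, g x ≠ 0 → B r x) →
      (∀ x, u x ≠ 0 → B r x) →
      ∑' p : G × G, (if Pat Tr S 1 p.1 (p.1 * p.2) then f p.1 * g p.2 * u (p.1 * p.2) else 0) ≤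
        D * (1 + r) ^ s * (nrm f * nrm g * nrm u) := by
  obtain ⟨D, s, h⟩ := med_step h
  refine ⟨Fintype.card T * (D * (2 + 1) ^ s) * n ^ 3 * C ^ 3, s + 3, fun r f g u hf hg hu => ?_⟩
  have b1 := fun t => tt hB h1 (T := Tr t) (r := r) (hT t) (fun g a b c =>
    fun ⟨m, h1, h2, h3⟩ => ⟨g • m, iinv _ _ _ _ h1, iinv _ _ _ _ h2, iinv _ _ _ _ h3⟩)
    (h I n (r + r) iinv icnt)
  let cut : (G → ℝ≥0∞) → G × V × V → ℝ≥0∞ := fun φ p =>
    if B r p.1 ∧ S 1 p.1 p.2.1 ∧ S 1 p.1 (p.1 • p.2.2) then φ p.1 else 0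
  set N := C * (1 + r) with hN
  have nc : ∀ φ, nrm (cut φ) ≤ N * nrm φ := fun φ => by
    have := nrm_cut
      (p := fun (x : G) (q : V × V) => B r x ∧ S 1 x q.1 ∧ S 1 x (x • q.2)) (n := N * N)
      (fun x => ?_) φ
    · refine le_of_sq ?_
      rw [mul_pow, sq (N : ℝ≥0∞), ← Nat.cast_mul]
      convert this
    by_cases hx : B r x
    swap
    · simp [hx]
    refine (Set.encard_le_encard_of_injOn (f := fun q : V × V => (q.1, x • q.2))
      (t := {m | S 1 x m} ×ˢ {m | S 1 x m}) (fun q hq => hq.2) ?_).trans ?_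
    · rintro ⟨a, b⟩ - ⟨a', b'⟩ - e
      simpa using e
    · rw [Set.encard_prod, Nat.cast_mul]
      exact mul_le_mul' (cnt _ _ hx) (cnt _ _ hx)
  let φ : G × G → ℝ≥0∞ := fun p =>
    if Pat Tr S 1 p.1 (p.1 * p.2) then f p.1 * g p.2 * u (p.1 * p.2) else 0
  have ex : ∀ p : {p // φ p ≠ 0}, ∃ q : T × V × V × V,
      Tr q.1 q.2.1 (p.1.1 • q.2.2.1) ((p.1.1 * p.1.2) • q.2.2.2) ∧
      φ p = cut f (p.1.1, q.2.1, q.2.2.1) * cut g (p.1.2, q.2.2.1, q.2.2.2) *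
        cut u (p.1.1 * p.1.2, q.2.1, q.2.2.2) := by
    rintro ⟨⟨x, y⟩, hp⟩
    simp only [φ, ne_eq, ite_eq_right_iff, Classical.not_imp, mul_eq_zero, not_or] at hp
    obtain ⟨hp, ⟨e1, e2⟩, e3⟩ := hp
    obtain ⟨t, a, b, c, a0, a1, a2, a3, a4, a5, a6⟩ := id hp
    have a7 := sinv x⁻¹ _ _ _ a4
    have a8 := sinv x⁻¹ _ _ _ a6
    rw [inv_mul_cancel, inv_mul_cancel_left] at a7 a8
    have e : y • (x * y)⁻¹ • c = x⁻¹ • c := by rw [mul_inv_rev, mul_smul, smul_inv_smul]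
    refine ⟨(t, a, x⁻¹ • b, (x * y)⁻¹ • c), by simpa only [smul_inv_smul] using a0, ?_⟩
    simp only [φ, cut, smul_inv_smul, e, hp, hf _ e1, hg _ e2, hu _ e3, a1, a2, a3, a5, a7, a8,
      and_self, if_true]
  choose q hq using ex
  calc ∑' p, φ p ≤ ∑' t, TriT (Tr t) (cut f) (cut g) (cut u) := by
        rw [← tsum_subtype_support φ]
        simp only [TriT]
        rw [← ENNReal.tsum_prod]
        refine tsum_inj (fun p => ((q p).1, p.1, (q p).2))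
          (fun p p' e => Subtype.ext (congrArg (·.2.1) e)) fun p => ?_
        simp only [(hq p).1, (hq p).2, if_true, le_refl]
    _ ≤ ∑' _ : T, D * (1 + (2 * r : ℕ)) ^ s * n ^ 3 *
        (N * nrm f * (N * nrm g) * (N * nrm u)) := by
        refine ENNReal.tsum_le_tsum fun c => (b1 c _ _ _ fun p hp => hf _ fun e => hp ?_).trans ?_
        · simp [cut, e]
        · rw [two_mul]
          exact mul_le_mul_right (mul_le_mul' (mul_le_mul' (nc f) (nc g)) (nc u)) _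
    _ ≤ ∑' _ : T, D * (((2 + 1) ^ s : ℕ) * (1 + r) ^ s) * n ^ 3 *
        (N * nrm f * (N * nrm g) * (N * nrm u)) := by
        gcongr
        exact pw_le 2 r s
    _ = _ := by
        rw [tsum_fintype, Finset.sum_const, Finset.card_univ, nsmul_eq_mul, hN]
        push_cast
        ring

theorem pat_short {B : ℕ → G → Prop} (hB : IsBall B) (h1 : ∀ r, B r 1)
    (h : GRD V B) (S : G → G → V → Prop)
    (sinv : ∀ g x y m, S x y m → S (g * x) (g * y) (g • m))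
    (C : ℕ) (cnt : ∀ r x, B r x → {m | S 1 x m}.encard ≤ (C * (1 + r) : ℕ))
    (Tr : T → V → V → V → Prop)
    (tinv : ∀ (g : G) t a b c, Tr t a b c → Tr t (g • a) (g • b) (g • c))
    (I : V → V → V → Prop) (iinv : ∀ (g : G) a b m, I a b m → I (g • a) (g • b) (g • m)) (n : ℕ)
    (icnt : ∀ a b, {m | I a b m}.encard ≤ n)
    (hT : ∀ t a b b' c, Tr t a b c → Tr t a b' c →
      (∃ m, I a b m ∧ I b b' m ∧ I a b' m) ∧ ∃ m, I b b' m ∧ I b' c m ∧ I b c m)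
    (cov : ∀ x y z, Pat Tr S x y z ∨ Pat Tr S y x z ∨ Pat Tr S x z y) :
    ∃ D s : ℕ, ∀ (r : ℕ) (f g u : G → ℝ≥0∞), (∀ x, f x ≠ 0 → B r x) → (∀ x, g x ≠ 0 → B r x) →
      (∀ x, u x ≠ 0 → B r x) → Tri f g u ≤ D * (1 + r) ^ s * (nrm f * nrm g * nrm u) := by
  obtain ⟨D, s, h⟩ := pat_one hB h1 h S sinv C cnt Tr I iinv n icnt hT
  refine ⟨3 * D, s, fun r f g u hf hg hu => ?_⟩
  have ni : ∀ φ : G → ℝ≥0∞, nrm (fun x => φ x⁻¹) ≤ nrm φ := fun φ =>
    nrm_inj (·⁻¹) inv_injective fun _ => le_rfl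
  have si : ∀ φ : G → ℝ≥0∞, (∀ x, φ x ≠ 0 → B r x) → ∀ x, φ x⁻¹ ≠ 0 → B r x := fun φ hφ x hx =>
    inv_inv x ▸ hB.inv _ _ (hφ _ hx)
  have pinv : ∀ g x y z, Pat Tr S x y z → Pat Tr S (g * x) (g * y) (g * z) :=
    fun g x y z ⟨t, a, b, c, a0, a1, a2, a3, a4, a5, a6⟩ => ⟨t, g • a, g • b, g • c,
      tinv _ _ _ _ _ a0, sinv _ _ _ _ a1, sinv _ _ _ _ a2, sinv _ _ _ _ a3, sinv _ _ _ _ a4,
      sinv _ _ _ _ a5, sinv _ _ _ _ a6⟩
  have c1 := h r f g u hf hg hu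
  have c2 : ∑' p : G × G, (if Pat Tr S p.1 1 (p.1 * p.2) then f p.1 * g p.2 * u (p.1 * p.2)
      else 0) ≤ D * (1 + r) ^ s * (nrm f * nrm g * nrm u) := by
    refine le_trans (tsum_inj (fun p => (p.1⁻¹, p.1 * p.2)) ?_ fun p => ?_)
      ((h r (fun x => f x⁻¹) u g (si f hf) hu hg).trans ?_)
    · rintro ⟨x, y⟩ ⟨x', y'⟩ e
      simp only [Prod.mk.injEq, inv_inj] at e ⊢
      obtain ⟨rfl, e⟩ := e
      simpa using e
    · by_cases e : Pat Tr S p.1 1 (p.1 * p.2)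
      · have := pinv p.1⁻¹ _ _ _ e
        rw [inv_mul_cancel, mul_one, inv_mul_cancel_left] at this
        simp only [e, this, if_true, inv_inv, inv_mul_cancel_left]
        exact le_of_eq (mul_right_comm _ _ _)
      · simp [e]
    · rw [mul_right_comm (nrm f)]
      gcongr
      exact ni f
  have c3 : ∑' p : G × G, (if Pat Tr S 1 (p.1 * p.2) p.1 then f p.1 * g p.2 * u (p.1 * p.2)
      else 0) ≤ D * (1 + r) ^ s * (nrm f * nrm g * nrm u) := by
    refine le_trans (tsum_inj (fun p => (p.1 * p.2, p.2⁻¹)) ?_ fun p => ?_)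
      ((h r u (fun x => g x⁻¹) f hu (si g hg) hf).trans ?_)
    · rintro ⟨x, y⟩ ⟨x', y'⟩ e
      simp only [Prod.mk.injEq, inv_inj] at e ⊢
      obtain ⟨e, rfl⟩ := e
      simpa using e
    · simp only [inv_inv, mul_inv_cancel_right]
      split_ifs
      exacts [le_of_eq (by ring), le_rfl]
    · rw [show nrm f * nrm g * nrm u = nrm u * nrm g * nrm f by ring]
      gcongr
      exact ni g
  refine le_trans ?_ ((add_le_add (add_le_add c1 c2) c3).trans (le_of_eq (by push_cast; ring)))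
  rw [Tri, ← ENNReal.tsum_prod, ← ENNReal.tsum_add, ← ENNReal.tsum_add]
  refine ENNReal.tsum_le_tsum fun p => ?_
  rcases cov 1 p.1 (p.1 * p.2) with e | e | e <;> rw [if_pos e]
  exacts [le_add_right le_self_add, le_add_right le_add_self, le_add_self]

end Pool.Agent.Lib.MP_35cce7_an.Q
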