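import Pool.Agent.Lib.MP_35cce7_an.QAn1
import Pool.Agent.Lib.MP_35cce7_an.QAn2

namespace Pool.Agent.Lib.MP_35cce7_an.Q

open ENNReal

variable {G V T : Type} [Group G]

theorem rd_of_pat [MulAction G V] [Fintype T] {B : ℕ → G → Prop} (hB : IsBall B) (h1 : ∀ r, B r 1)
    (h : GRD V B) (S : G → G → V → Prop)
    (sinv : ∀ g x y m, S x y m → S (g * x) (g * y) (g • m)) (_ssym : ∀ x y m, S x y m → S y x m)
    (C : ℕ) (cnt : ∀ r x, B r x → {m | S 1 x m}.encard ≤ (C * (1 + r) : ℕ))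
    (Tr : T → V → V → V → Prop)
    (tinv : ∀ (g : G) t a b c, Tr t a b c → Tr t (g • a) (g • b) (g • c))
    (I : V → V → V → Prop) (iinv : ∀ (g : G) a b m, I a b m → I (g • a) (g • b) (g • m)) (n : ℕ)
    (icnt : ∀ a b, {m | I a b m}.encard ≤ n)
    (hT : ∀ t a b b' c, Tr t a b c → Tr t a b' c →
      (∃ m, I a b m ∧ I b b' m ∧ I a b' m) ∧ ∃ m, I b b' m ∧ I b' c m ∧ I b c m)
    (cov : ∀ x y z, Pat Tr S x y z ∨ Pat Tr S y x z ∨ Pat Tr S x z y) : RDb B :=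
  rd_of_short hB h1 (pat_short hB h1 h S sinv C cnt Tr tinv I iinv n icnt hT cov)

end Pool.Agent.Lib.MP_35cce7_an.Q
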