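import Pool.Agent.Lib.MP_35cce7_an.QZ4
import Pool.Agent.Lib.MP_35cce7_an.QAn

namespace Pool.Agent.Lib.MP_35cce7_an.Q

namespace Zd

variable {V : Type} {Z : Zd V}

/-- an automorphism of `Z` -/
structure Aut (Z : Zd V) (φ : V → V) : Prop where
  inj : Function.Injective φ
  sur : Function.Surjective φ
  ty : ∀ a, Z.ty (φ a) = Z.ty a
  n : ∀ a b, Z.N (φ a) (φ b) ↔ Z.N a b
  d : ∀ a b, Z.d (φ a) (φ b) = Z.d a b

namespace Aut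

variable {φ : V → V} (A : Z.Aut φ)
include A

theorem od (a b : V) : Z.od (φ a) (φ b) ↔ Z.od a b := by simp only [Zd.od, A.ty, A.n]

theorem ad (a b : V) : Z.ad (φ a) (φ b) ↔ Z.ad a b := by
  simp only [Zd.ad, Zd.ev, Zd.od, A.ty, A.n]

theorem pt (a b : V) : Z.pt (φ a) (φ b) ↔ Z.pt a b := by simp only [Zd.pt, A.ty, A.n]

theorem cp (w a b : V) : Z.cp (φ w) (φ a) (φ b) ↔ Z.cp w a b := by
  unfold Zd.cp
  rw [A.sur.exists]
  simp only [A.pt, A.n]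

theorem dn (u a b : V) : Z.Dn (φ u) (φ a) (φ b) ↔ Z.Dn u a b := by simp only [Zd.Dn, A.ad, A.d]

theorem prt (u a b : V) : Z.Prt (φ u) (φ a) (φ b) ↔ Z.Prt u a b := by
  simp only [Zd.Prt, A.pt, A.d]

theorem small (u a : V) : Z.Small (φ u) (φ a) ↔ Z.Small u a := by
  unfold Zd.Small
  rw [A.sur.forall₂]
  simp only [A.dn, A.ty, A.inj.eq_iff]

theorem side (u p s t : V) : Z.Side (φ u) (φ p) (φ s) (φ t) ↔ Z.Side u p s t := by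
  unfold Zd.Side
  rw [A.sur.forall]
  refine forall_congr' fun x => ?_
  rw [A.sur.exists]
  simp only [A.dn, A.od, A.pt, A.n, A.inj.eq_iff]

theorem can (u v p : V) : Z.Can (φ u) (φ v) (φ p) ↔ Z.Can u v p := by
  unfold Zd.Can Zd.Bad
  rw [A.sur.exists₂]
  simp only [Zd.I, A.d, A.small, A.dn, A.pt, A.side]

theorem ex (μ s t m : V) : Z.Ex (φ μ) (φ s) (φ t) (φ m) ↔ Z.Ex μ s t m := by
  simp only [Zd.Ex, A.pt, A.n, A.cp, A.ad]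

theorem s {u v m : V} {σ τ σ' τ' : V → V → V → Prop}
    (h1 : ∀ a b c, σ a b c → σ' (φ a) (φ b) (φ c)) (h2 : ∀ a b c, τ a b c → τ' (φ a) (φ b) (φ c))
    (h : Z.S u σ v τ m) : Z.S (φ u) σ' (φ v) τ' (φ m) := by
  obtain ⟨μ, c, h⟩ := h
  refine ⟨φ μ, (A.can ..).2 c, h.imp (congrArg φ) (Or.imp ?_ (Or.imp ?_ (Or.imp ?_ (Or.imp ?_ ?_))))⟩
  · exact fun h => ⟨(A.small ..).2 h.1, (A.dn ..).2 h.2⟩
  · exact fun h => ⟨(A.small ..).2 h.1, (A.dn ..).2 h.2⟩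
  · rintro ⟨a, b, s, t, k1, k2, k3, k4⟩
    exact ⟨(A.small ..).2 a, (A.small ..).2 b, φ s, φ t, (A.dn ..).2 k1, (A.dn ..).2 k2,
      by rw [A.ty, A.ty, k3], (A.ex ..).2 k4⟩
  · exact fun ⟨K, a, b⟩ => ⟨φ K, (A.prt ..).2 a, h2 _ _ _ b⟩
  · exact fun ⟨K, a, b⟩ => ⟨φ K, (A.prt ..).2 a, h1 _ _ _ b⟩

theorem tr {t : Bool × Bool} {a b c : V} (h : Z.Tr t a b c) : Z.Tr t (φ a) (φ b) (φ c) := by
  simpa only [Zd.Tr, A.ty, A.pt, A.ad, A.inj.eq_iff] using h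

theorem iv {a b m : V} (h : Z.Iv a b m) : Z.Iv (φ a) (φ b) (φ m) := by
  simpa only [Zd.Iv, A.ty, A.ad, ne_eq, A.inj.eq_iff] using h

theorem sel {σ : V → V → V → Prop} (h : Z.Sel σ) : Z.Sel fun a b c => σ (φ a) (φ b) (φ c) :=
  ⟨fun m K => (Set.encard_le_encard_of_injOn (t := {x | σ (φ m) (φ K) x}) (f := φ)
      (fun _ q => q) A.inj.injOn).trans (h.1 _ _),
    fun _ _ _ _ _ k1 k2 k3 k4 k5 k6 k7 k8 k9 k10 => h.2 _ _ _ _ _ ((A.pt ..).2 k1) ((A.pt ..).2 k2)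
      (A.inj.ne k3) ((A.ad ..).2 k4) ((A.ad ..).2 k5) (by rwa [A.ty, A.ty]) ((A.n ..).2 k7)
      ((A.n ..).2 k8) ((A.n ..).2 k9) ((A.n ..).2 k10)⟩

end Aut

end Zd

theorem rd_of_zm {G V : Type} [Group G] [MulAction G V] {Z : Zd V} (S : Z.ZM)
    (h1 : ∀ (g : G) a, Z.ty (g • a) = Z.ty a) (h2 : ∀ (g : G) a b, Z.N (g • a) (g • b) ↔ Z.N a b)
    (h3 : ∀ (g : G) a b, Z.d (g • a) (g • b) = Z.d a b) {B : ℕ → G → Prop} (hB : IsBall B)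
    (hB1 : ∀ r, B r 1) (o : V) (ho : ∀ r x, B r x → Z.d o (x • o) ≤ 2 * r) (h : GRD V B) :
    RDb B := by
  have A : ∀ g : G, Z.Aut (g • ·) := fun g =>
    ⟨MulAction.injective g, MulAction.surjective g, h1 g, h2 g, h3 g⟩
  obtain ⟨σ₀, h0⟩ := S.sel
  let σ : G → V → V → V → Prop := fun x a b c => σ₀ (x⁻¹ • a) (x⁻¹ • b) (x⁻¹ • c)
  have hσ : ∀ x, Z.Sel (σ x) := fun x => (A x⁻¹).sel h0
  have eqv : ∀ g x a b c, σ x a b c → σ (g * x) (g • a) (g • b) (g • c) := fun g x a b c q => by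
    simpa only [σ, mul_inv_rev, mul_smul, inv_smul_smul] using q
  refine rd_of_pat hB hB1 h (fun x y => Z.S (x • o) (σ x) (y • o) (σ y)) (fun g x y m q => ?_)
    (fun _ _ _ => S.s_symm) (2 * (13 * 12 ^ 10)) (fun r x q => ?_) Z.Tr
    (fun g _ _ _ _ => (A g).tr) Z.Iv (fun g _ _ _ => (A g).iv) 4 S.iv_card
    (fun _ _ _ _ _ => S.tr_iv) (S.triple (· • o) σ hσ)
  · rw [mul_smul, mul_smul]
    exact (A g).s (eqv g x) (eqv g y) q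
  · refine (S.s_card (hσ 1) (hσ x) _ _).trans (Nat.cast_le.2 ?_)
    have := ho r x q
    rw [one_smul, mul_comm 2, mul_assoc _ 2]
    exact Nat.mul_le_mul_left _ (by omega)

end Pool.Agent.Lib.MP_35cce7_an.Q
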