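import Pool.Agent.Lib.MP_35cce7_an.QG2
import Pool.Agent.Lib.MP_35cce7_an.QZ1
import Pool.Agent.Lib.MP_35cce7_an.QZ5
import Pool.Agent.Lib.MP_35cce7_an.QLayA
import Pool.Agent.Lib.MP_35cce7_an.QLayB2
import Pool.Agent.Lib.MP_35cce7_an.BlkMain

namespace Pool.Agent.Lib.MP_35cce7_an.Q

theorem rd_four (M : CoxeterMatrix (Bool × Bool))
    (h2 : ∀ i j, i.1 ≠ j.1 → i.2 ≠ j.2 → M i j = 2) (p q : ℕ)
    (hp : ∀ i j, i ≠ j → i.2 = j.2 → p ≤ M i j) (hq : ∀ i j, i ≠ j → i.1 = j.1 → q ≤ M i j)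
    (h : (p = 4 ∧ q = 4) ∨ (p = 3 ∧ q = 6)) : RDb (Ball (gn M)) := by
  have zb := z4_zb h2
  have zf := zb.zf fun w => by
    obtain ⟨C, cx, cp, L⟩ := z4_lay h2 w
    have g1 := z4_gi h2 w true q (by simpa using hq)
    have g0 := z4_gi h2 w false p (by simpa using hp)
    rcases h with ⟨rfl, rfl⟩ | ⟨rfl, rfl⟩
    exacts [L.lfA g1 g0, L.lfB g1 g0]
  have zm := zf.zm (fun t (g : Ar M) => (⟨t, g⟩ : V4 M)) (fun _ _ => rfl)
    (fun t t' g => ⟨g, In4.mk g t, In4.mk g t'⟩)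
    (fun a b ⟨g, h1, h2⟩ => ⟨g, (In4.mk g _).eq h1 rfl, (In4.mk g _).eq h2 rfl⟩)
    (scc_par M Set.univ (fun t => {i | i ≠ t}) (fun _ => Set.subset_univ _)
      (fun a _ b _ => by
        simp only [Set.mem_ofPred_eq]
        revert a b
        decide) id Function.injective_id (fun c h _ => ⟨c * h, rfl⟩) _ fun t g g' =>
      ⟨fun e => (In4.mk g t).iff.1 (e ▸ In4.mk g' t),
        fun e => ((In4.mk g t).iff.2 e).eq (In4.mk g' t) rfl⟩)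
  refine rd_of_zm zm (fun _ _ => rfl) z4_n z4_d (Ball.isBall _) (Ball.one _)
    ⟨(true, true), (1 : Ar M)⟩ (z4_ball _) (grd_sigma fun t => ?_)
  obtain ⟨ρ, h1, h2⟩ := (subE M (· ≠ t)).retr2
  exact grd_orbit _ ρ h1 h2 (rd_rank3 _ (by simp))

lemma rd_cyc4 {B : Type} (M : CoxeterMatrix B) {a b c d : B} (hB : ∀ i, i = a ∨ i = b ∨ i = c ∨ i = d)
    (h1 : M a c = 2) (h2 : M b d = 2) {p q : ℕ} (h3 : p ≤ M a b) (h4 : p ≤ M c d) (h5 : q ≤ M a d)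
    (h6 : q ≤ M b c) (h : (p = 4 ∧ q = 4) ∨ (p = 3 ∧ q = 6)) : RDb (Ball (gn M)) := by
  let e : Bool × Bool → B := fun t => if t.1 then (if t.2 then c else b) else if t.2 then d else a
  have s := M.symmetric
  have ne : ∀ i j, 2 ≤ M i j → i ≠ j := by
    rintro i _ h rfl
    simp at h
  have n1 := ne a c (by omega)
  have n2 := ne b d (by omega)
  have n3 := ne a b (by omega)
  have n4 := ne c d (by omega)
  have n5 := ne a d (by omega)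
  have n6 := ne b c (by omega)
  have inj : Function.Injective e := by
    rintro ⟨_ | _, _ | _⟩ ⟨_ | _, _ | _⟩ h <;> simp only [e] at h <;> grind
  have sur : Function.Surjective e := fun i => by
    rcases hB i with rfl | rfl | rfl | rfl
    exacts [⟨(false, false), rfl⟩, ⟨(true, false), rfl⟩, ⟨(true, true), rfl⟩, ⟨(false, true), rfl⟩]
  let M' : CoxeterMatrix (Bool × Bool) := ⟨Matrix.of fun i j => M (e i) (e j),
    Matrix.IsSymm.ext fun i j => s _ _, fun i => M.diagonal _,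
    fun i j h => M.off_diagonal _ _ (inj.ne h)⟩
  have hM : ∀ i j, M' i j = M (e i) (e j) := fun _ _ => rfl
  refine Emb.down (M := M') ⟨Function.surjInv sur, Function.injective_surjInv sur, fun i j => ?_⟩
    (rd_four M' ?_ p q ?_ ?_ h)
  · rw [hM, Function.surjInv_eq sur, Function.surjInv_eq sur]
  all_goals
    rintro ⟨_ | _, _ | _⟩ ⟨_ | _, _ | _⟩ h h' <;> simp only [hM, e] <;> grind

lemma lab {m k : ℕ} (hm : m ≠ 0) (hk : k ≠ 0) (h : ¬ (1 : ℚ) < 1 / (2 : ℕ) + 1 / m + 1 / k) :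
    3 ≤ m ∧ (m = 3 → 6 ≤ k) := by
  have h1 : (0 : ℚ) < m := by positivity
  have h2 : (0 : ℚ) < k := by positivity
  have h3 : 2 * (m + k) ≤ m * k := by
    rw [not_lt] at h
    field_simp at h
    exact_mod_cast (by push_cast at h; nlinarith : (2 : ℚ) * (m + k) ≤ m * k)
  refine ⟨by_contra fun hn => ?_, ?_⟩
  · have : m * k ≤ 2 * k := Nat.mul_le_mul_right k (by omega)
    omega
  · rintro rfl
    omega

theorem main3 (n : ℕ) (M : CoxeterMatrix (Fin n)) : HasRD M ↔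
    ∀ T : Finset (Fin n), 4 ≤ T.card → (∀ i ∈ T, ∀ j ∈ T, M i j ≠ 0) →
      (∀ U ⊆ T, U.Nonempty → U ≠ T → ∃ i ∈ U, ∃ j ∈ T \ U, M i j ≠ 2) →
      ((∃ i ∈ T, ∃ j ∈ T, ∃ k ∈ T, M i j = 2 ∧ M j k = 2 ∧ 3 ≤ M i k) ∨
        ∃ U ⊆ T, ∀ i ∈ T, ∀ j ∈ T, i ≠ j → (i ∈ U ↔ j ∈ U) → M i j = 2) →
      (∃ i ∈ T, ∃ j ∈ T, ∃ k ∈ T, i ≠ j ∧ j ≠ k ∧ i ≠ k ∧
        (1 : ℚ) < 1 / M i j + 1 / M j k + 1 / M i k) →
      HasRD (res M T) := by
  rw [main2]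
  refine ⟨fun h T h1 h2 h3 h4 _ => h T h1 h2 h3 h4, fun h T h1 h2 h3 h4 => ?_⟩
  by_cases h5 : ∃ i ∈ T, ∃ j ∈ T, ∃ k ∈ T, i ≠ j ∧ j ≠ k ∧ i ≠ k ∧
    (1 : ℚ) < 1 / M i j + 1 / M j k + 1 / M i k
  · exact h T h1 h2 h3 h4 h5
  have ne : ∀ i j, 2 ≤ M i j → i ≠ j := by
    rintro i _ h rfl
    simp at h
  have key : ∀ i ∈ T, ∀ j ∈ T, ∀ k ∈ T, j ≠ k → i ≠ k → M i j = 2 →
      3 ≤ M j k ∧ (M j k = 3 → 6 ≤ M i k) := fun i hi j hj k hk a1 a2 a3 =>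
    lab (h2 j hj k hk) (h2 i hi k hk) fun e =>
      h5 ⟨i, hi, j, hj, k, hk, ne _ _ a3.ge, a1, a2, a3 ▸ e⟩
  rcases h4 with ⟨i, hi, j, hj, k, hk, a1, a2, a3⟩ | ⟨U, hU, a⟩
  · have := key i hi j hj k hk (ne _ _ a2.ge) (ne _ _ (by omega)) a1
    omega
  have three : ∀ W ⊆ T, (∀ i ∈ W, ∀ j ∈ W, (i ∈ U ↔ j ∈ U)) → W.card ≤ 2 := fun W hW e => by
    by_contra hn
    obtain ⟨x, y, z, hx, hy, hz, xy, xz, yz⟩ := Finset.two_lt_card_iff.1 (not_le.1 hn)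
    have := key x (hW hx) y (hW hy) z (hW hz) yz xz (a _ (hW hx) _ (hW hy) xy (e _ hx _ hy))
    have := a _ (hW hy) _ (hW hz) yz (e _ hy _ hz)
    omega
  have b1 := three U hU fun i hi j hj => by simp [hi, hj]
  have b2 := three (T \ U) Finset.sdiff_subset fun i hi j hj => by
    simp [(Finset.mem_sdiff.1 hi).2, (Finset.mem_sdiff.1 hj).2]
  have b3 := Finset.card_sdiff_add_card_eq_card hU
  obtain ⟨x, y, xy, e1⟩ := Finset.card_eq_two.1 (by omega : U.card = 2)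
  obtain ⟨z, w, zw, e2⟩ := Finset.card_eq_two.1 (by omega : (T \ U).card = 2)
  have hx : x ∈ U := by simp [e1]
  have hy : y ∈ U := by simp [e1]
  obtain ⟨hz, nz⟩ := Finset.mem_sdiff.1 (show z ∈ T \ U by simp [e2])
  obtain ⟨hw, nw⟩ := Finset.mem_sdiff.1 (show w ∈ T \ U by simp [e2])
  have m1 := a x (hU hx) y (hU hy) xy (by simp [hx, hy])
  have m2 := a z hz w hw zw (by simp [nz, nw])
  have s := M.symmetric
  have d : ∀ {i j}, i ∈ U → j ∉ U → i ≠ j := fun h h' e => h' (e ▸ h)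
  have k1 := key x (hU hx) y (hU hy) z hz (d hy nz) (d hx nz) m1
  have k2 := key x (hU hx) y (hU hy) w hw (d hy nw) (d hx nw) m1
  have k3 := key y (hU hy) x (hU hx) z hz (d hx nz) (d hy nz) (s _ _ ▸ m1)
  have k4 := key y (hU hy) x (hU hx) w hw (d hx nw) (d hy nw) (s _ _ ▸ m1)
  have k5 := key z hz w hw x (hU hx) (d hx nw).symm (d hx nz).symm m2
  have k6 := key z hz w hw y (hU hy) (d hy nw).symm (d hy nz).symm m2
  have k7 := key w hw z hz x (hU hx) (d hx nz).symm (d hx nw).symm (s _ _ ▸ m2)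
  have k8 := key w hw z hz y (hU hy) (d hy nz).symm (d hy nw).symm (s _ _ ▸ m2)
  rw [s z x, s w x] at k5 k7
  rw [s z y, s w y] at k6 k8
  have all : ∀ i ∈ T, i = x ∨ i = z ∨ i = y ∨ i = w := fun i hi => by
    by_cases e : i ∈ U
    · rw [e1] at e
      grind
    · have := Finset.mem_sdiff.2 ⟨hi, e⟩
      rw [e2] at this
      grind
  have go : ∀ {z w} (hz : z ∈ T) (hw : w ∈ T), (∀ i ∈ T, i = x ∨ i = z ∨ i = y ∨ i = w) →
      M z w = 2 → ∀ p q, p ≤ M x z → p ≤ M y w → q ≤ M x w → q ≤ M y z →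
      ((p = 4 ∧ q = 4) ∨ (p = 3 ∧ q = 6)) → HasRD (res M T) :=
    fun {z w} hz hw all m2 p q c1 c2 c3 c4 c5 => (rd_iff _).2 (rd_cyc4 (res M T) (a := ⟨x, hU hx⟩)
      (b := ⟨z, hz⟩) (c := ⟨y, hU hy⟩) (d := ⟨w, hw⟩) (fun i => by
        simpa only [Subtype.ext_iff] using all i.1 i.2) m1 m2 c1 c2 c3 ((s _ _ ▸ c4 : q ≤ M z y)) c5)
  by_cases c : M x z = 3 ∨ M y w = 3
  · exact go hz hw all m2 3 6 (by omega) (by omega) (by omega) (by omega) (Or.inr ⟨rfl, rfl⟩)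
  by_cases c' : M x w = 3 ∨ M y z = 3
  · exact go hw hz (fun i hi => by have := all i hi; tauto) (s _ _ ▸ m2) 3 6 (by omega) (by omega)
      (by omega) (by omega) (Or.inr ⟨rfl, rfl⟩)
  · exact go hz hw all m2 4 4 (by omega) (by omega) (by omega) (by omega) (Or.inl ⟨rfl, rfl⟩)

theorem two_dim (n : ℕ) (M : CoxeterMatrix (Fin n))
    (h : ∀ i j k, i ≠ j → j ≠ k → i ≠ k → M i j ≠ 0 → M j k ≠ 0 → M i k ≠ 0 →
      (1 : ℚ) / M i j + 1 / M j k + 1 / M i k ≤ 1) : HasRD M :=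
  (main3 n M).2 fun _ _ h2 _ _ ⟨i, hi, j, hj, k, hk, a1, a2, a3, a4⟩ =>
    (a4.not_ge (h i j k a1 a2 a3 (h2 i hi j hj) (h2 j hj k hk) (h2 i hi k hk))).elim

end Pool.Agent.Lib.MP_35cce7_an.Q
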