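import Pool.Agent.Lib.MP_35cce7_an.KDih
import Pool.Agent.Lib.MP_35cce7_an.Rm.R

/-! Short relations between a generator and a parabolic subgroup, from the girth. -/

namespace Pool.Agent.Lib.MP_35cce7_an.K

variable {B : Type} {M : CoxeterMatrix B} {b c : B} {E F : Set B}

theorem ev_par (hb : b ∉ F) {x : Ar M} (h : x ∈ par M F)
    (h' : x ∈ par M (insert b {e | e ∈ F ∧ M b e = 2})) : x ∈ par M {e | e ∈ F ∧ M b e = 2} :=
  par_mono (by rintro _ ⟨k, rfl | k'⟩; exacts [(hb k).elim, k']) (par_inf h h')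

theorem ev_com {x : Ar M} (h : x ∈ par M {e | e ∈ F ∧ M b e = 2}) : Commute (gn M b) x :=
  dih_com (S := {b}) (by rintro _ rfl e he; exact he.2) (gn_mem rfl) h

theorem rm_n (hb : b ∉ F) (h : Gi (par M F) (par M (insert b {e | e ∈ F ∧ M b e = 2}))) :
    ∀ n m : ℤ, ∀ c ∈ par M F, ∀ d ∈ par M F, gn M b ^ n * c * gn M b ^ m * d = 1 →
      n = 0 ∨ c ∈ par M {c ∈ F | M b c = 2} := by
  intro n m c c1 d d1 e
  have z := fun k : ℤ => zpow_mem (gn_mem (M := M) (Set.mem_insert b {e | e ∈ F ∧ M b e = 2})) k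
  rcases h.two c c1 _ (z m) d d1 _ (z n) (by
    rw [mul_eq_one_comm]; simpa only [mul_assoc] using e) with k | k | k | k
  · exact .inr (ev_par hb c1 k)
  · obtain rfl := Rm.sup hb k
    rw [zpow_zero, mul_one, mul_assoc] at e
    exact .inl (Rm.sup hb (eq_inv_of_mul_eq_one_left e ▸ inv_mem (mul_mem c1 d1)))
  · refine .inr (ev_par hb c1 ?_)
    rw [show c = (gn M b ^ m * d * gn M b ^ n)⁻¹ from eq_inv_of_mul_eq_one_left (by
      rw [← mul_assoc, mul_eq_one_comm]; simpa only [mul_assoc] using e)]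
    exact inv_mem (mul_mem (mul_mem (z m) k) (z n))
  · exact .inl (Rm.sup hb k)

theorem rm_m0 (hb : b ∉ F) (h : Gi (par M F) (par M (insert b {e | e ∈ F ∧ M b e = 2})))
    {k n : ℤ} (hk : k ≠ 0) {r s t : Ar M} (r1 : r ∈ par M F) (s1 : s ∈ par M F) (t1 : t ∈ par M F)
    (e : gn M b ^ (-k) * r * gn M b ^ k * s * gn M b ^ n * t = 1) : n = 0 := by
  have z := fun k : ℤ => zpow_mem (gn_mem (M := M) (Set.mem_insert b {e | e ∈ F ∧ M b e = 2})) k
  have f : ∀ {u v}, u ∈ par M F → v ∈ par M F → u * gn M b ^ n * v = 1 → n = 0 :=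
    fun {u v} a a' y => Rm.sup hb (by
      rw [show gn M b ^ n = u⁻¹ * v⁻¹ by
        rw [eq_inv_mul_iff_mul_eq]; exact eq_inv_of_mul_eq_one_left y]
      exact mul_mem (inv_mem a) (inv_mem a'))
  have g : ∀ {u} (j : ℤ), u ∈ par M {e | e ∈ F ∧ M b e = 2} → ∀ w,
      u * (gn M b ^ j * w) = gn M b ^ j * (u * w) := fun j a w =>
    (((ev_com a).zpow_left j).left_comm w).symm
  rcases h.three r r1 _ (z k) s s1 _ (z n) t t1 _ (z (-k)) (by
    rw [mul_eq_one_comm]; simpa only [mul_assoc] using e) with p | p | p | p | p | p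
  · refine f (mul_mem r1 s1) t1 ?_
    simp only [mul_assoc] at e ⊢
    rw [g k (ev_par hb r1 p)] at e
    simpa using e
  · exact (hk (Rm.sup hb p)).elim
  · have q := ev_par hb s1 p
    simp only [mul_assoc] at e
    rw [← g k q, ← mul_assoc (gn M b ^ k), ← zpow_add, ← mul_assoc r] at e
    obtain y | y := rm_n hb h (-k) (k + n) _ (mul_mem r1 s1) t t1 (by
      simpa only [mul_assoc] using e)
    · omega
    refine f (mul_mem r1 s1) t1 ?_
    rw [zpow_add, mul_assoc (gn M b ^ k), g k y] at e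
    simpa [mul_assoc] using e
  · exact Rm.sup hb p
  · have q := ev_par hb t1 p
    have e' : gn M b ^ k * (s * t) * gn M b ^ (n + -k) * r = 1 := by
      rw [mul_assoc, mul_assoc, mul_assoc, mul_assoc, ← mul_assoc, mul_eq_one_comm,
        ((ev_com q).zpow_left n).eq] at e
      rw [zpow_add]
      simpa only [mul_assoc] using e
    obtain y | y := rm_n hb h k (n + -k) _ (mul_mem s1 t1) r r1 e'
    · omega
    refine f (mul_mem s1 t1) r1 ?_
    rw [mul_assoc, mul_assoc, ← g k y, ← mul_assoc (gn M b ^ k), ← zpow_add] at e'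
    simpa [mul_assoc] using e'
  · exact (hk (by have := Rm.sup hb p; omega)).elim

theorem rm_m (hb : b ∉ F) (h : Gi (par M F) (par M (insert b {e | e ∈ F ∧ M b e = 2}))) :
    ∀ n : ℤ, ∀ r ∈ par M F, ∀ s ∈ par M F, ∀ t ∈ par M F,
      (gn M b)⁻¹ * r * gn M b * s * gn M b ^ n * t = 1 ∨
        gn M b * r * (gn M b)⁻¹ * s * gn M b ^ n * t = 1 → n = 0 := by
  rintro n r r1 s s1 t t1 (e | e)
  · exact rm_m0 hb h (k := 1) one_ne_zero r1 s1 t1 (by simpa using e)
  · exact rm_m0 hb h (k := -1) (by decide) r1 s1 t1 (by simpa using e)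

theorem eva_of (hb : b ∉ F) {p q r s : Ar M} (p1 : p ∈ par M F) (q1 : q ∈ par M F)
    (r1 : r ∈ par M F) (s1 : s ∈ par M F)
    (e : gn M b * p * (gn M b)⁻¹ * q * gn M b * r * (gn M b)⁻¹ * s = 1)
    (h : p ∈ par M (insert b {e | e ∈ F ∧ M b e = 2}) ∨
      q ∈ par M (insert b {e | e ∈ F ∧ M b e = 2}) ∨
      r ∈ par M (insert b {e | e ∈ F ∧ M b e = 2}) ∨
      s ∈ par M (insert b {e | e ∈ F ∧ M b e = 2})) :
    gn M b * p * (gn M b)⁻¹ ∈ par M F ∨ (gn M b)⁻¹ * q * gn M b ∈ par M F := by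
  rcases h with k | k | k | k
  · exact .inl (by rwa [(ev_com (ev_par hb p1 k)).eq, mul_inv_cancel_right])
  · exact .inr (by rwa [mul_assoc, ← (ev_com (ev_par hb q1 k)).eq, inv_mul_cancel_left])
  · left
    rw [show gn M b * p * (gn M b)⁻¹ = (q * (gn M b * r * (gn M b)⁻¹) * s)⁻¹ from
      eq_inv_of_mul_eq_one_left (by simpa only [mul_assoc] using e),
      (ev_com (ev_par hb r1 k)).eq, mul_inv_cancel_right]
    exact inv_mem (mul_mem (mul_mem q1 r1) s1)
  · right
    rw [show (gn M b)⁻¹ * q * gn M b = p⁻¹ * (r * ((gn M b)⁻¹ * (s * gn M b)))⁻¹ by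
      rw [eq_inv_mul_iff_mul_eq]
      refine eq_inv_of_mul_eq_one_left ?_
      rw [← mul_assoc, ← mul_assoc, ← mul_assoc, mul_eq_one_comm]
      simpa only [mul_assoc] using e, ← (ev_com (ev_par hb s1 k)).eq, inv_mul_cancel_left]
    exact mul_mem (inv_mem p1) (inv_mem (mul_mem r1 s1))

theorem dih_eva (hb : b ∉ E) (hc : c ∉ E) (h2 : ∀ e ∈ E, M b e = 2 ∧ M c e = 2) (h : 4 ≤ M b c)
    {p q r s : Ar M} (p1 : p ∈ par M (insert c E)) (q1 : q ∈ par M (insert c E))
    (r1 : r ∈ par M (insert c E)) (s1 : s ∈ par M (insert c E))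
    (e : gn M b * p * (gn M b)⁻¹ * q * gn M b * r * (gn M b)⁻¹ * s = 1) :
    p ∈ par M (insert b E) ∨ q ∈ par M (insert b E) ∨ r ∈ par M (insert b E) ∨
      s ∈ par M (insert b E) := by
  have n : gn M b ∉ par M (insert c E) := Rm.sup1 (by
    rintro (rfl | k)
    · simp at h
    · exact hb k)
  have z := gn_mem (M := M) (Set.mem_insert b E)
  obtain h4 | h5 := h.eq_or_lt
  · have G : Rm.Good M b (insert c E) := Rm.good_of_rem (.mk _ _ (by
        rintro t (rfl | k)
        · rw [← h4]; decide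
        · rw [(h2 t k).1]; decide) (by
      rintro t (rfl | k) y
      · refine .mk _ _ ?_ ?_
        · rintro u ⟨rfl | k, k'⟩
          · omega
          · rw [(h2 u k).2]; decide
        · rintro u ⟨rfl | k, k'⟩ y
          · omega
          · have := (h2 u k).2
            omega
      · have := (h2 t k).1
        omega))
    have w : ∀ {x}, x ∈ par M {u ∈ insert c E | M b u = 2} → x ∈ par M (insert b E) := fun k =>
      par_mono (by
        rintro u ⟨rfl | k, k'⟩
        · omega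
        · exact .inr k) k
    rcases G.a p p1 q q1 r r1 s s1 e with k | k
    · exact .inl (w ((G.n 1 (-1) p p1 _ (inv_mem k) (by simp [mul_assoc])).resolve_left
        one_ne_zero))
    · exact .inr (.inl (w ((G.n (-1) 1 q q1 _ (inv_mem k) (by simp [mul_assoc])).resolve_left
        (by decide))))
  · have := dih_g4 hb hc h2 h5 p p1 _ (inv_mem z) q q1 _ z r r1 _ (inv_mem z) s s1 _ z (by
      rw [mul_eq_one_comm]; simpa only [mul_assoc] using e)
    simp only [inv_mem_iff] at this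
    tauto

end Pool.Agent.Lib.MP_35cce7_an.K
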