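import Pool.Agent.Lib.MP_35cce7_an.KInd
import Pool.Agent.Lib.MP_35cce7_an.KEv0

/-! Alternating relations with four letters in a fan of groups. -/

namespace Pool.Agent.Lib.MP_35cce7_an.K

section
variable {V : Type} {d : V → V → ℕ} {ty : V → Option Bool} {Ch : V → V → V → Prop}

theorem FM.ev_g4 (F : FM d ty Ch) {h₁ h₂ h₃ h₄ a b c e} (t₁ : ty h₁ = some true)
    (t₂ : ty h₂ = some true) (t₃ : ty h₃ = some true) (t₄ : ty h₄ = some true) (e₁ : d h₁ a = 1)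
    (e₂ : d h₂ a = 1) (e₃ : d h₂ b = 1) (e₄ : d h₃ b = 1) (e₅ : d h₃ c = 1) (e₆ : d h₄ c = 1)
    (e₇ : d h₄ e = 1) (e₈ : d h₁ e = 1) :
    (h₁ = h₂ ∨ h₂ = h₃ ∨ h₃ = h₄ ∨ h₄ = h₁ ∨ a = b ∨ b = c ∨ c = e ∨ e = a) ∨
      ∃ Y, Ch Y a h₂ ∧ Ch Y b h₃ ∧ Ch Y c h₄ ∧ Ch Y e h₁ := by
  refine or_iff_not_imp_left.2 fun hn => ?_
  simp only [not_or] at hn
  obtain ⟨n1, n2, n3, n4, n5, n6, n7, n8⟩ := hn
  obtain ⟨h1, h2⟩ := F.fan_three t₁ t₂ e₁ e₂ e₃ n1 n5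
  obtain ⟨h3, h4⟩ := F.fan_three t₁ t₄ e₈ e₇ e₆ (Ne.symm n4) (Ne.symm n7)
  have h5 : d h₁ h₃ = 4 := by
    rcases F.fan_step h₁ e₄ with h | h
    · exact absurd (F.inL (o := h₁) (F.fan_L t₂ e₃) (F.symm _ _ ▸ e₃) (F.symm _ _ ▸ e₄)
        (by omega) h (t₂.trans t₃.symm)) n2
    · omega
  obtain ⟨Y, dY, c1, c2⟩ := (F.inP (o := h₁) (by simp [t₃]) e₄ e₅ (by omega)
    (by omega)).resolve_left n6
  have tY := F.fan_D t₃ c1
  obtain ⟨c3, c4⟩ := F.fan_sq t₁ t₂ e₁ e₂ e₃ n1 n5 tY (F.ad (F.sy c1)) (by omega)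
  obtain ⟨c5, c6⟩ := F.fan_sq t₁ t₄ e₈ e₇ e₆ (Ne.symm n4) (Ne.symm n7) tY (F.ad (F.sy c2))
    (by omega)
  obtain ⟨w, dw, c7, c9⟩ := (F.inP (o := h₁) (by simp [tY]) (F.ad c3) (F.ad c5) (by omega)
    (by omega)).resolve_left fun h => n8 h.symm
  obtain rfl : h₁ = w := F.eq0 (by omega)
  exact ⟨Y, c3, F.sy c1, c6, c9⟩

end

section
variable {G ι : Type} [Group G] {P : ι → Subgroup G} {l h : ι}

theorem ev_ch {Y : Σ i, G ⧸ P i} {g g' z : G} (c : gCh P l h Y (ox P l g) (ox P h g'))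
    (hz : g⁻¹ * z ∈ P l) (hz' : g'⁻¹ * z ∈ P h) : ∃ e ∈ P h, e ∈ P l ∧ In (z * e) Y := by
  obtain ⟨-, -, -, -, y, h1, h2, h3⟩ := c
  exact ⟨z⁻¹ * y, kgrp_tr (kgrp_sy hz') ((ox_in h g').iff.1 h3),
    kgrp_tr (kgrp_sy hz) ((ox_in l g).iff.1 h2), by simpa using h1⟩

theorem GF.eva (F : GF P l h) {x : G} (hh : x ∉ P h) (hj : ∀ j, j ≠ h → x ∈ P j)
    (hc : ∀ e ∈ P h, e ∈ P l → Commute x e)
    (hD : ∀ j, j ≠ l → j ≠ h → ∀ p ∈ P j ⊓ P h, ∀ q ∈ P j ⊓ P h, ∀ r ∈ P j ⊓ P h,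
      ∀ s ∈ P j ⊓ P h, x * p * x⁻¹ * q * x * r * x⁻¹ * s = 1 →
        p ∈ P l ∨ q ∈ P l ∨ r ∈ P l ∨ s ∈ P l)
    {p q r s : G} (p1 : p ∈ P h) (q1 : q ∈ P h) (r1 : r ∈ P h) (s1 : s ∈ P h)
    (e0 : x * p * x⁻¹ * q * x * r * x⁻¹ * s = 1) : p ∈ P l ∨ q ∈ P l ∨ r ∈ P l ∨ s ∈ P l := by
  have t := ox_ty (P := P) F.ne
  have n := F.ne
  have b1 := hj l n
  have b2 := (P l).inv_mem b1
  have hh' : x⁻¹ ∉ P h := fun e => hh ((P h).inv_mem_iff.1 e)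
  have e : 1 * p * x⁻¹ * q * x * r * x⁻¹ * s * x = 1 := by
    rw [mul_eq_one_comm]; simpa only [mul_assoc, one_mul] using e0
  rcases F.fm.ev_g4 (t 1) (t _) (t _) (t _) (ox_u n 1 p1) (ox_w n _ b2) (ox_u n _ q1)
    (ox_w n _ b1) (ox_u n _ r1) (ox_w n _ b2) (ox_u n _ s1) (ox_z n b1 e) with
    (k | k | k | k | k | k | k | k) | ⟨Y, c1, c2, c3, c4⟩
  · exact (hh' (ox_q p1 k)).elim
  · exact (hh (ox_q q1 k)).elim
  · exact (hh' (ox_q r1 k)).elim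
  · exact (hh (ox_q s1 (k.trans (congrArg _ e.symm)))).elim
  · simp [ox_q b2 k]
  · simp [ox_q b1 k]
  · simp [ox_q b2 k]
  · simp [ox_q b1 (y := p) (k.trans (by rw [e]))]
  have nl := c1.2.1
  have nh : Y.1 ≠ h := fun k => c1.2.2.2.1.1 k rfl
  have hx := hj _ nh
  obtain ⟨e2, u2, v2, y2⟩ := ev_ch (z := 1 * p * x⁻¹) c1 (by simpa using b1) (by simp)
  obtain ⟨e4, u4, v4, y4⟩ := ev_ch (z := 1 * p * x⁻¹ * q * x) c2
    (by rwa [inv_mul_cancel_left]) (by rw [inv_mul_cancel]; exact one_mem _)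
  obtain ⟨e6, u6, v6, y6⟩ := ev_ch (z := 1 * p * x⁻¹ * q * x * r * x⁻¹) c3
    (by rwa [inv_mul_cancel_left]) (by rw [inv_mul_cancel]; exact one_mem _)
  obtain ⟨e8, u8, v8, y8⟩ := ev_ch (z := 1 * p * x⁻¹ * q * x * r * x⁻¹ * s * x) c4
    (by rwa [inv_mul_cancel_left]) (by rw [e]; simp)
  have k2 := (hc e2 u2 v2).inv_left.eq
  have k4 := (hc e4 u4 v4).eq
  have k6 := (hc e6 u6 v6).inv_left.eq
  have k8 := (hc e8 u8 v8).eq
  have m2 : e8⁻¹ * p * e2 * x⁻¹ ∈ P Y.1 := by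
    rw [e] at y8
    have := y8.iff.1 y2
    rw [mul_assoc _ x⁻¹, k2] at this
    simpa only [mul_assoc, one_mul] using this
  have m4 : e2⁻¹ * q * e4 * x ∈ P Y.1 := by
    have := y2.iff.1 y4
    rw [mul_assoc _ x, k4] at this
    convert this using 1
    group
  have m6 : e4⁻¹ * r * e6 * x⁻¹ ∈ P Y.1 := by
    have := y4.iff.1 y6
    rw [mul_assoc _ x⁻¹ e6, k6] at this
    convert this using 1
    group
  have m8 : e6⁻¹ * s * e8 * x ∈ P Y.1 := by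
    have := y6.iff.1 y8
    rw [mul_assoc _ x e8, k8] at this
    convert this using 1
    group
  have w : ∀ {a y c : G}, a ∈ P h → y ∈ P h → c ∈ P h → a⁻¹ * y * c ∈ P h := fun a y c =>
    mul_mem (mul_mem (inv_mem a) y) c
  have z : ∀ {a y c : G}, a ∈ P l → c ∈ P l → a⁻¹ * y * c ∈ P l → y ∈ P l := fun a c k => by
    rwa [(P l).mul_mem_cancel_right c, (P l).mul_mem_cancel_left (inv_mem a)] at k
  refine (hD _ nl nh _ ⟨((P _).mul_mem_cancel_right (inv_mem hx)).1 m2, w u8 p1 u2⟩ _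
    ⟨((P _).mul_mem_cancel_right hx).1 m4, w u2 q1 u4⟩ _
    ⟨((P _).mul_mem_cancel_right (inv_mem hx)).1 m6, w u4 r1 u6⟩ _
    ⟨((P _).mul_mem_cancel_right hx).1 m8, w u6 s1 u8⟩ ?_).imp (z v8 v2)
    (Or.imp (z v2 v4) (Or.imp (z v4 v6) (z v6 v8)))
  have j8 := (hc e8 u8 v8).inv_right.eq
  calc _ = (x * e8⁻¹) * p * (e2 * x⁻¹) * e2⁻¹ * q * (e4 * x) * e4⁻¹ * r * (e6 * x⁻¹) * e6⁻¹ * s *
        e8 := by simp only [mul_assoc]
    _ = e8⁻¹ * (x * p * x⁻¹ * q * x * r * x⁻¹ * s) * e8 := by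
      rw [j8, ← k2, ← k4, ← k6]; group
    _ = 1 := by rw [e0]; group

end

variable {B : Type} {M : CoxeterMatrix B}

theorem Good.rm {b : B} {F : Set B} (h : Good M b F) : Rm.Good M b F := by
  have hG := h.out.1
  obtain ⟨b, F, h0, h1, h2⟩ := h
  refine ⟨rm_n h0 hG, fun p p1 q q1 r r1 s s1 e => eva_of h0 p1 q1 r1 s1 e ?_, rm_m h0 hG⟩
  let K := par M (insert b F)
  let P := fun i => (par M (indX M b F i)).subgroupOf K
  have hX : ∀ i, indX M b F i ⊆ insert b F := by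
    rintro (_ | _ | ⟨c, hc⟩) x <;> simp only [indX, Set.mem_insert_iff, Set.mem_ofPred_eq] <;> grind
  have e1 : ∀ c, P (some (some c)) ⊓ P (some none) = (par M (insert c.1
      {e | e ∈ {e | e ∈ F ∧ M b e = 2} ∧ M c.1 e = 2})).subgroupOf K := fun ⟨c, hc⟩ =>
    ind_inf K (by ext x; simp only [indX, Set.mem_inter_iff, Set.mem_insert_iff, Set.mem_ofPred_eq]
                  grind)
  have e2 : ∀ c, P (some (some c)) ⊓ P none = (par M (insert b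
      {e | e ∈ {e | e ∈ F ∧ M b e = 2} ∧ M c.1 e = 2})).subgroupOf K := fun ⟨c, hc⟩ =>
    ind_inf K (by ext x; simp only [indX, Set.mem_inter_iff, Set.mem_insert_iff, Set.mem_ofPred_eq]
                  grind)
  have e3 : P (some none) ⊓ P none = (par M {e | e ∈ F ∧ M b e = 2}).subgroupOf K :=
    ind_inf K (by ext x; simp only [indX, Set.mem_inter_iff, Set.mem_insert_iff, Set.mem_ofPred_eq]
                  grind)
  have d1 : ∀ c : {c // c ∈ F ∧ M b c ≠ 2}, b ∉ {e | e ∈ {e | e ∈ F ∧ M b e = 2} ∧ M c.1 e = 2} :=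
    fun c h => h0 h.1.1
  have d2 : ∀ c : {c // c ∈ F ∧ M b c ≠ 2},
      c.1 ∉ {e | e ∈ {e | e ∈ F ∧ M b e = 2} ∧ M c.1 e = 2} := fun c h => c.2.2 h.1.2
  have d3 : ∀ c : {c // c ∈ F ∧ M b c ≠ 2}, ∀ e ∈ {e | e ∈ {e | e ∈ F ∧ M b e = 2} ∧ M c.1 e = 2},
      M b e = 2 ∧ M c.1 e = 2 := fun c e h => ⟨h.1.2, h.2⟩
  have d4 : ∀ c : {c // c ∈ F ∧ M b c ≠ 2}, 4 ≤ M b c.1 := fun c =>
    (h1 c c.2.1).resolve_left c.2.2
  have hp : ∀ x ∈ insert b F, ∀ y ∈ insert b F, ∃ i, x ∈ indX M b F i ∧ y ∈ indX M b F i := by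
    have : ∀ y ∈ F, ∃ i, b ∈ indX M b F i ∧ y ∈ indX M b F i := fun y hy => by
      by_cases e : M b y = 2
      · exact ⟨none, Or.inl rfl, Or.inr ⟨hy, e⟩⟩
      · exact ⟨some (some ⟨y, hy, e⟩), Or.inl rfl, Or.inr (Or.inl rfl)⟩
    rintro x (rfl | hx) y (rfl | hy)
    · exact ⟨none, Or.inl rfl, Or.inl rfl⟩
    · exact this y hy
    · exact (this x hx).imp fun _ h => h.symm
    · exact ⟨some none, hx, hy⟩
  have hF : GF P none (some none) := by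
    refine ⟨by simp, fun ⟨g, hg⟩ => ?_, Q.scc_par M (insert b F) (indX M b F) hX hp Subtype.val
      Subtype.val_injective (fun (c : K) h hh => ⟨⟨c.1 * h, K.mul_mem c.2 hh⟩, rfl⟩) _
      fun i c c' => ?_,
      ?_, ?_, ?_⟩
    · refine Subgroup.closure_induction (p := fun x hx => (⟨x, hx⟩ : K) ∈ ⨆ i, P i) ?_
        (Subgroup.one_mem _) (fun x y _ _ a1 a2 => Subgroup.mul_mem _ a1 a2)
        (fun x _ a1 => Subgroup.inv_mem _ a1) hg
      rintro _ ⟨x, hx, rfl⟩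
      obtain ⟨i, hi, -⟩ := hp x hx x hx
      exact Subgroup.mem_iSup_of_mem i (gn_mem hi)
    · rw [Sigma.mk.injEq, heq_eq_eq, QuotientGroup.eq]
      exact and_iff_right rfl
    · rintro (_ | _ | ⟨c, hc⟩) n1 n2
      · exact absurd rfl n1
      · exact absurd rfl n2
      refine ⟨(par M (insert b F \ {c})).subgroupOf K, fun i a1 a2 => fun _ h => par_mono ?_ h,
        fun _ h => par_mono ?_ (par_inf h.1 h.2)⟩
      · rcases i with _ | _ | ⟨c', hc'⟩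
        · intro x
          simp only [indX, Set.mem_insert_iff, Set.mem_ofPred_eq, Set.mem_sdiff,
            Set.mem_singleton_iff]
          grind
        · exact absurd rfl a2
        · have : c' ≠ c := fun e => a1 (by subst e; rfl)
          intro x
          simp only [indX, Set.mem_insert_iff, Set.mem_ofPred_eq, Set.mem_sdiff,
            Set.mem_singleton_iff]
          grind
      · intro x
        simp only [indX, Set.mem_inter_iff, Set.mem_insert_iff, Set.mem_ofPred_eq, Set.mem_sdiff,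
          Set.mem_singleton_iff]
        grind
    · rintro (_ | _ | c) n1 n2
      · exact absurd rfl n1
      · exact absurd rfl n2
      rw [inf_comm, e1, e3]
      exact ind_gi_down (ind_symm (h2 c c.2.1 c.2.2).out.1)
    · rintro (_ | _ | c) n1 n2
      · exact absurd rfl n1
      · exact absurd rfl n2
      rw [e1, e2]
      exact ind_gi_down (dih_gi (d1 c) (d2 c) (d3 c) (d4 c))
  have hU : par M F ≤ K := par_mono (hX (some none))
  refine hF.eva (x := ⟨gn M b, gn_mem (Or.inl rfl)⟩) (Rm.sup1 h0) ?_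
    (fun e u v => Subtype.ext (ev_com (ev_par h0 u v)).eq) ?_ (p := ⟨p, hU p1⟩) (q := ⟨q, hU q1⟩)
    (r := ⟨r, hU r1⟩) (s := ⟨s, hU s1⟩) p1 q1 r1 s1 (Subtype.ext e)
  · rintro (_ | _ | c) n
    · exact gn_mem (Or.inl rfl)
    · exact absurd rfl n
    · exact gn_mem (Or.inl rfl)
  · rintro (_ | _ | c) n1 n2
    · exact absurd rfl n1
    · exact absurd rfl n2
    rw [e1]
    intro p p1 q q1 r r1 s s1 e
    have k : ∀ {y : K}, y.1 ∈ par M (insert b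
        {e | e ∈ {e | e ∈ F ∧ M b e = 2} ∧ M c.1 e = 2}) → y ∈ P none := fun h =>
      par_mono (Set.insert_subset_insert fun _ h => h.1) h
    exact (dih_eva (d1 c) (d2 c) (d3 c) (d4 c) p1 q1 r1 s1 (congrArg Subtype.val e)).imp k
      (Or.imp k (Or.imp k k))

end Pool.Agent.Lib.MP_35cce7_an.K
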