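import Pool.Agent.Lib.MP_35cce7_an.KBase

/-! Girth and orientation of the graph of L- and H-vertices of a modular fan. -/

namespace Pool.Agent.Lib.MP_35cce7_an.K

variable {V : Type} {d : V → V → ℕ} {ty : V → Option Bool} {Ch : V → V → V → Prop}

namespace FM

variable (F : FM d ty Ch)
include F

theorem fan_L {h a x} (t : ty h = some x) (e : d h a = 1) : ty a = none := by
  have := F.bi e
  by_contra hn
  rw [this.2 hn] at t
  cases t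

theorem fan_two {p q a x y} (t : ty p = some x) (t' : ty q = some y) (n : p ≠ q) (e : d p a = 1)
    (e' : d q a = 1) : d p q = 2 := by
  have h1 := F.tri p a q
  have h2 := F.symm a q
  have h3 : d p q ≠ 0 := fun h => n (F.eq0 h)
  have h4 : d p q ≠ 1 := fun h => by
    have := F.fan_L t h
    rw [this] at t'
    cases t'
  omega

theorem fan_step (o : V) {a b} (e : d a b = 1) : d o a + 1 = d o b ∨ d o b + 1 = d o a := by
  have h1 := F.bip o e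
  have h2 := F.tri o a b
  have h3 := F.tri o b a
  have h4 := F.symm a b
  omega

theorem fan_D {h l w} (t : ty h = some true) (c : Ch h l w) : ty w = some false := by
  obtain ⟨b, h1, h2⟩ := F.tn c
  rw [t] at h1
  cases h1
  exact h2

theorem fan_D' {h l w} (t : ty h = some true) (c : Ch w l h) : ty w = some false :=
  F.fan_D t (F.sy c)

theorem g2 {h₁ h₂ a b} (t₁ : ty h₁ = some true) (t₂ : ty h₂ = some true) (e₁ : d h₁ a = 1)
    (e₂ : d h₂ a = 1) (e₃ : d h₂ b = 1) (e₄ : d h₁ b = 1) : h₁ = h₂ ∨ a = b := by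
  by_cases n : h₁ = h₂
  · exact Or.inl n
  rcases F.book (by simp [t₁]) n e₁ e₂ e₄ e₃ with h | ⟨h, -⟩
  · exact Or.inr h
  · have := F.fan_D t₁ h
    rw [t₂] at this
    cases this

theorem fan_three {h₁ h₂ a b} (t₁ : ty h₁ = some true) (t₂ : ty h₂ = some true) (e₁ : d h₁ a = 1)
    (e₂ : d h₂ a = 1) (e₃ : d h₂ b = 1) (n : h₁ ≠ h₂) (n' : a ≠ b) :
    d h₁ h₂ = 2 ∧ d h₁ b = 3 := by
  have h1 := F.fan_two t₁ t₂ n e₁ e₂
  refine ⟨h1, ?_⟩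
  rcases F.fan_step h₁ e₃ with h | h
  · omega
  · exact absurd (F.g2 t₁ t₂ e₁ e₂ e₃ (by omega)) (by tauto)

theorem g3 {h₁ h₂ h₃ a b c} (t₁ : ty h₁ = some true) (t₂ : ty h₂ = some true)
    (t₃ : ty h₃ = some true) (e₁ : d h₁ a = 1) (e₂ : d h₂ a = 1) (e₃ : d h₂ b = 1)
    (e₄ : d h₃ b = 1) (e₅ : d h₃ c = 1) (e₆ : d h₁ c = 1) :
    h₁ = h₂ ∨ h₂ = h₃ ∨ h₃ = h₁ ∨ a = b ∨ b = c ∨ c = a := by
  by_contra hn
  simp only [not_or] at hn
  obtain ⟨n1, n2, n3, n4, -, -⟩ := hn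
  obtain ⟨h1, h2⟩ := F.fan_three t₁ t₂ e₁ e₂ e₃ n1 n4
  have h3 := F.fan_two t₁ t₃ (Ne.symm n3) e₆ e₅
  exact n2 (F.inL (o := h₁) (F.fan_L t₂ e₃) (F.symm _ _ ▸ e₃) (F.symm _ _ ▸ e₄) (by omega)
    (by omega) (t₂.trans t₃.symm))

theorem fan_sq {h₁ h₂ a b Y} (t₁ : ty h₁ = some true) (t₂ : ty h₂ = some true) (e₁ : d h₁ a = 1)
    (e₂ : d h₂ a = 1) (e₃ : d h₂ b = 1) (n : h₁ ≠ h₂) (n' : a ≠ b) (tY : ty Y = some false)
    (eY : d Y b = 1) (dY : d h₁ Y = 2) : Ch Y a h₂ ∧ Ch Y b h₂ := by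
  obtain ⟨h1, h2⟩ := F.fan_three t₁ t₂ e₁ e₂ e₃ n n'
  rcases F.qc h₁ (F.symm _ _ ▸ e₃ : d b h₂ = 1) (F.symm _ _ ▸ eY : d b Y = 1) (by omega)
    (by omega) with h | ⟨a', h3, ⟨h4, -⟩ | ⟨h4, h5, -⟩⟩
  · rw [h, tY] at t₂
    cases t₂
  · rw [F.tl h4] at t₂
    cases t₂
  · rcases F.g2 t₁ t₂ e₁ e₂ (F.ad h4) (by omega) with h | rfl
    · exact absurd h n
    · exact ⟨F.sy h4, F.sy h5⟩

theorem g4 (c8 : C8 ty Ch) {h₁ h₂ h₃ h₄ a b c e} (t₁ : ty h₁ = some true) (t₂ : ty h₂ = some true)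
    (t₃ : ty h₃ = some true) (t₄ : ty h₄ = some true) (e₁ : d h₁ a = 1) (e₂ : d h₂ a = 1)
    (e₃ : d h₂ b = 1) (e₄ : d h₃ b = 1) (e₅ : d h₃ c = 1) (e₆ : d h₄ c = 1) (e₇ : d h₄ e = 1)
    (e₈ : d h₁ e = 1) :
    h₁ = h₂ ∨ h₂ = h₃ ∨ h₃ = h₄ ∨ h₄ = h₁ ∨ a = b ∨ b = c ∨ c = e ∨ e = a := by
  by_contra hn
  simp only [not_or] at hn
  obtain ⟨n1, n2, n3, n4, n5, n6, n7, n8⟩ := hn
  obtain ⟨h1, h2⟩ := F.fan_three t₁ t₂ e₁ e₂ e₃ n1 n5
  obtain ⟨h3, h4⟩ := F.fan_three t₁ t₄ e₈ e₇ e₆ (Ne.symm n4) (Ne.symm n7)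
  have h5 : d h₁ h₃ = 4 := by
    rcases F.fan_step h₁ e₄ with h | h
    · exact absurd (F.inL (o := h₁) (F.fan_L t₂ e₃) (F.symm _ _ ▸ e₃) (F.symm _ _ ▸ e₄)
        (by omega) h (t₂.trans t₃.symm)) n2
    · omega
  rcases F.inP (o := h₁) (by simp [t₃]) e₄ e₅ (by omega) (by omega) with h | ⟨Y, dY, c1, c2⟩
  · exact n6 h
  have tY := F.fan_D t₃ c1
  obtain ⟨c3, c4⟩ := F.fan_sq t₁ t₂ e₁ e₂ e₃ n1 n5 tY (F.ad (F.sy c1)) (by omega)
  obtain ⟨c5, c6⟩ := F.fan_sq t₁ t₄ e₈ e₇ e₆ (Ne.symm n4) (Ne.symm n7) tY (F.ad (F.sy c2))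
    (by omega)
  rcases F.inP (o := h₁) (by simp [tY]) (F.ad c3) (F.ad c5) (by omega) (by omega) with
    h | ⟨w, dw, c7, c9⟩
  · exact n8 h.symm
  obtain rfl : h₁ = w := F.eq0 (by omega)
  have := c8 tY c3 c4 (F.sy c1) (F.sy c2) c6 c5 c9 c7
  tauto

theorem sel {c : ℕ} {O : V → V → V → Prop} (hO : Ori ty Ch false c O) (o : V) :
    ∃ s : V → V → Prop,
      (∀ l, {h | ty h = some true ∧ d h l = 1 ∧ s l h}.encard ≤ (c + 1 : ℕ)) ∧
      ∀ h, ty h = some true → {l | d h l = 1 ∧ ¬ s l h}.encard ≤ (c + 1 : ℕ) := by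
  refine ⟨fun l h => d o h < d o l ∨ ∃ Y, Ch Y l h ∧ d o Y < d o l ∧ O Y l h, fun l => ?_,
    fun h t => ?_⟩
  · have hA : {h | ty h = some true ∧ d h l = 1 ∧ d o h < d o l}.encard ≤ 1 :=
      Set.encard_le_one_iff.2 fun a b ⟨t1, e1, l1⟩ ⟨t2, e2, l2⟩ => by
        have := F.fan_step o e1
        have := F.fan_step o e2
        exact F.inL (o := o) (F.fan_L t1 e1) (F.symm _ _ ▸ e1) (F.symm _ _ ▸ e2) (by omega)
          (by omega) (t1.trans t2.symm)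
    have hB : {h | ty h = some true ∧ ∃ Y, Ch Y l h ∧ d o Y < d o l ∧ O Y l h}.encard ≤ c := by
      rcases Set.eq_empty_or_nonempty
        {h | ty h = some true ∧ ∃ Y, Ch Y l h ∧ d o Y < d o l ∧ O Y l h} with h0 | h0
      · rw [h0]; simp
      obtain ⟨h₀, t0, Y₀, c0, l0, -⟩ := h0
      refine le_trans (Set.encard_le_encard ?_) (hO.1 Y₀ l)
      rintro h ⟨t1, Y, c1, l1, o1⟩
      have := F.fan_step o (F.ad c0)
      have := F.fan_step o (F.ad c1)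
      obtain rfl : Y = Y₀ := F.inL (o := o) (F.tl c0) (F.symm _ _ ▸ F.ad c1)
        (F.symm _ _ ▸ F.ad c0) (by omega) (by omega) ((F.fan_D' t1 c1).trans (F.fan_D' t0 c0).symm)
      exact o1
    refine le_trans (Set.encard_le_encard ?_)
      ((Set.encard_union_le _ _).trans ((add_le_add hB hA).trans_eq (by push_cast; rfl)))
    rintro h ⟨t1, e1, s1⟩
    exact s1.symm.imp (fun s1 => ⟨t1, s1⟩) fun s1 => ⟨t1, e1, s1⟩
  · have hl : ∀ l, d h l = 1 → ¬ (d o h < d o l ∨ ∃ Y, Ch Y l h ∧ d o Y < d o l ∧ O Y l h) →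
        d o l + 1 = d o h := fun l e s => by
      have := F.fan_step o e
      have := (not_or.1 s).1
      omega
    by_cases hs : ∀ a b, a ∈ {l | d h l = 1 ∧
        ¬ (d o h < d o l ∨ ∃ Y, Ch Y l h ∧ d o Y < d o l ∧ O Y l h)} → b ∈ {l | d h l = 1 ∧
        ¬ (d o h < d o l ∨ ∃ Y, Ch Y l h ∧ d o Y < d o l ∧ O Y l h)} → a = b
    · exact (Set.encard_le_one_iff.2 hs).trans (by push_cast; exact le_add_self)
    simp only [not_forall] at hs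
    obtain ⟨a, b, h1, h2, n⟩ := hs
    obtain ⟨e1, s1⟩ := h1
    obtain ⟨e2, s2⟩ := h2
    obtain ⟨Y, dY, c1, -⟩ := (F.inP (o := o) (by simp [t]) e1 e2 (hl _ e1 s1)
      (hl _ e2 s2)).resolve_left n
    refine le_trans (le_trans (Set.encard_le_encard ?_) (hO.1 Y h))
      (by push_cast; exact le_self_add)
    rintro l ⟨e, s⟩
    have c2 : Ch h l Y := by
      rcases F.inP (o := o) (by simp [t]) e1 e (hl _ e1 s1) (hl _ e s) with rfl | ⟨Y', dY', -, c3⟩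
      · exact c1
      · rwa [F.par c1 c3 dY dY']
    refine (hO.2 Y l h (F.fan_D t c2) (F.sy c2)).resolve_left fun o1 =>
      s (Or.inr ⟨Y, F.sy c2, ?_, o1⟩)
    have := hl _ e s
    omega

end FM

end Pool.Agent.Lib.MP_35cce7_an.K
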