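import Pool.Agent.Lib.MP_35cce7_an.KMain
import Pool.Agent.Lib.MP_35cce7_an.KEv
import Pool.Agent.Lib.MP_35cce7_an.FDefs

/-! Generators that see no label three do not matter for rapid decay. -/

namespace Pool.Agent.Lib.MP_35cce7_an.K

variable {B : Type} {M : CoxeterMatrix B} {a b : B}

theorem fin_sub {T F : Set B} (h : Good M b F) (hb : b ∈ T) :
    Good (sub M (· ∈ T)) ⟨b, hb⟩ (Subtype.val ⁻¹' F) := by
  induction h with
  | mk b F h0 h1 _ ih => exact ⟨_, _, h0, fun c k => h1 c k, fun c k e => ih c k e c.2⟩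

theorem fin_good {T C : Set B} (hT : ∀ i ∈ T, ∀ j ∈ T, M i j ≠ 0) (h : Far M b C) (hb : b ∈ T)
    (hC : C ⊆ T) (n : b ∉ C) : Good M b C := by
  induction h with
  | mk b C h1 _ ih =>
  refine ⟨_, _, n, fun c k => ?_, fun c k e => ih c k e (hC k) (fun _ p => hC p.1) fun p => e p.2⟩
  have := h1 c k
  have := hT b hb c (hC k)
  have := M.off_diagonal b c fun e => n (e ▸ k)
  omega

/-- the step: a good generator can be removed -/
theorem rd_good [Finite B] (hb : Good M b {b}ᶜ)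
    (hc : ∀ U : Set B, U.Nonempty → U ≠ Set.univ → ∃ i ∈ U, ∃ j ∉ U, M i j ≠ 2)
    (h3 : ∀ x y : B, ∃ z, z ≠ x ∧ z ≠ y)
    (ih : ∀ U : Set B, U ≠ Set.univ → RDb (Ball (gn (sub M (· ∈ U))))) : RDb (Ball (gn M)) := by
  have tri : ∀ a b c : B, Good M b {b}ᶜ → 5 ≤ M a b → c ≠ a → c ≠ b → M b c ≠ 2 →
      RDb (Ball (gn M)) := fun a b c g h5 n1 n2 n3 => rd_tri g h5 fun i => ih _ fun e => by
    rcases i with _ | _ | _
    · exact (e.ge (Set.mem_univ b)) rfl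
    · exact (e.ge (Set.mem_univ c)).elim n1 fun k => k.elim n2 n3
    · exact (e.ge (Set.mem_univ a)) rfl
  obtain ⟨_, _, -, h1, h2⟩ := id hb
  by_cases k : ∃ a, 5 ≤ M a b
  · obtain ⟨a, h5⟩ := k
    have s5 : 5 ≤ M b a := M.symmetric a b ▸ h5
    have d : M b b = 1 := M.diagonal b
    have ab : a ≠ b := by
      rintro rfl
      omega
    by_cases q : ∃ c, c ≠ a ∧ c ≠ b ∧ M b c ≠ 2
    · obtain ⟨c, n1, n2, n3⟩ := q
      exact tri a b c hb h5 n1 n2 n3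
    have q2 : ∀ c, c ≠ a → c ≠ b → M b c = 2 := fun c n1 n2 => by
      by_contra n3
      exact q ⟨c, n1, n2, n3⟩
    obtain ⟨_, _, -, g1, g2⟩ := h2 a ab (by omega)
    obtain ⟨z, z1, z2⟩ := h3 a b
    obtain ⟨i, hi, c, n, e⟩ := hc {a, b} ⟨a, .inl rfl⟩ fun e =>
      (e.ge (Set.mem_univ z)).elim z1 z2
    obtain ⟨n1, n2⟩ : c ≠ a ∧ c ≠ b := not_or.1 n
    obtain rfl : i = a := hi.resolve_right fun e' => e (e' ▸ q2 c n1 n2)
    refine tri b i c ⟨_, _, fun p => p rfl, fun x p => ?_, fun x p e => ?_⟩ s5 n2 n1 e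
    · by_cases u : x = b
      · exact .inr (by rw [u]; omega)
      · exact g1 x ⟨u, q2 x p u⟩
    · by_cases u : x = b
      · subst u
        have w : ∀ y ∈ {e | e ∈ ({i}ᶜ : Set B) ∧ M i e = 2}, M x y = 2 := fun y p =>
          q2 y p.1 fun u => e (u ▸ p.2)
        exact ⟨_, _, fun p => e p.2, fun y p => .inl (w y p), fun y p n => absurd (w y p) n⟩
      · refine (g2 x ⟨u, q2 x p u⟩ e).mono fun y p => ?_
        have : y ≠ b := fun u => by
          have : M i b = 2 := u ▸ p.2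
          omega
        exact ⟨⟨this, q2 y p.1 this⟩, p.2⟩
  · have k' : ∀ t, M b t ≤ 4 := fun t => by
      by_contra n
      exact k ⟨t, by rw [M.symmetric]; omega⟩
    refine Rm.rd_step (a := b) (fun t p => ?_) (fun c p => ?_)
      (ih _ fun e => (e.ge (Set.mem_univ b)) rfl)
    · have := h1 t p
      have := k' t
      exact Nat.even_iff.2 (by omega)
    · have d : M b b = 1 := M.diagonal b
      refine ((h2 c (by rintro rfl; omega) (by omega)).mono fun y q => ⟨?_, q⟩).rm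
      rintro rfl
      have : M y y = 2 := q
      omega

theorem main6 (n : ℕ) (M : CoxeterMatrix (Fin n)) : HasRD M ↔
    ∀ T : Finset (Fin n), 4 ≤ T.card → (∀ i ∈ T, ∀ j ∈ T, M i j ≠ 0) →
      (∀ U ⊆ T, U.Nonempty → U ≠ T → ∃ i ∈ U, ∃ j ∈ T \ U, M i j ≠ 2) →
      ((∃ i ∈ T, ∃ j ∈ T, ∃ k ∈ T, M i j = 2 ∧ M j k = 2 ∧ 3 ≤ M i k) ∨
        ∃ U ⊆ T, ∀ i ∈ T, ∀ j ∈ T, i ≠ j → (i ∈ U ↔ j ∈ U) → M i j = 2) →
      (∃ i ∈ T, ∃ j ∈ T, ∃ k ∈ T, i ≠ j ∧ j ≠ k ∧ i ≠ k ∧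
        (1 : ℚ) < 1 / M i j + 1 / M j k + 1 / M i k) →
      (∀ a ∈ T, ¬ Far M a ((T : Set (Fin n)) \ {a})) → HasRD (res M T) := by
  refine ⟨fun h T h1 h2 h3 h4 h5 _ => (Q.main3 n M).1 h T h1 h2 h3 h4 h5,
    fun h => Rm.all_of_core M fun T ih h1 h2 h3 h4 h5 => ?_⟩
  by_cases k : ∃ a ∈ T, Far M a ((T : Set (Fin n)) \ {a})
  swap
  · exact h T h1 h2 h3 h4 h5 fun a p q => k ⟨a, p, q⟩
  obtain ⟨a, p, q⟩ := k
  have g := fin_sub (T := (T : Set (Fin n))) (fin_good (T := (T : Set (Fin n))) h2 q p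
    Set.sdiff_subset fun y => y.2 rfl) p
  refine (rd_iff _).2 (rd_good (M := sub M (· ∈ (T : Set (Fin n)))) (b := ⟨a, p⟩)
    (g.mono fun y e => ⟨y.2, fun u => e (Subtype.ext u)⟩) (fun U u1 u2 => ?_) (fun x y => ?_)
    fun U u => ?_)
  · classical
    obtain ⟨x, hx⟩ := u1
    obtain ⟨i, hi, j, hj, e⟩ := h3 (T.filter fun i => ∃ p, ⟨i, p⟩ ∈ U) (Finset.filter_subset ..)
      ⟨x, Finset.mem_filter.2 ⟨x.2, x.2, hx⟩⟩ fun e => u2 (Set.eq_univ_of_forall fun y =>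
        (Finset.mem_filter.1 (e.ge y.2)).2.2)
    obtain ⟨-, i1, i2⟩ := Finset.mem_filter.1 hi
    obtain ⟨j1, j2⟩ := Finset.mem_sdiff.1 hj
    exact ⟨_, i2, ⟨j, j1⟩, fun y => j2 (Finset.mem_filter.2 ⟨j1, j1, y⟩), e⟩
  · obtain ⟨z, z1, z2⟩ := Finset.exists_mem_notMem_of_card_lt_card (s := {x.1, y.1}) (t := T)
      (Finset.card_le_two.trans_lt (by omega))
    exact ⟨⟨z, z1⟩, fun e => z2 (by simp [← e]), fun e => z2 (by simp [← e])⟩
  · obtain ⟨x, hx⟩ := (Set.ne_univ_iff_exists_notMem U).1 u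
    refine Emb.down (M := res M (T.erase x)) ⟨fun i => ⟨i.1.1, Finset.mem_erase.2
      ⟨fun e => hx (Subtype.ext e ▸ i.2), i.1.2⟩⟩, fun i j e => ?_, fun _ _ => rfl⟩
      ((rd_iff _).1 (ih _ (Finset.erase_ssubset x.2)))
    exact Subtype.ext (Subtype.ext (Subtype.mk.inj e))

theorem far_all [Finite B] (h : ∀ i j, M i j ≠ 3) (C : Set B) : ∀ a, Far M a C := by
  induction C using WellFoundedLT.induction with | _ C ih => ?_
  exact fun a => ⟨_, _, fun t _ => h a t, fun b p e =>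
    ih _ ((Set.ssubset_iff_of_subset fun _ q => q.1).2 ⟨b, p, fun q => e q.2⟩) b⟩

theorem three_free (n : ℕ) (M : CoxeterMatrix (Fin n)) (h : ∀ i j, M i j ≠ 3) : HasRD M :=
  (main6 n M).2 fun T h1 _ _ _ _ k => by
    obtain ⟨a, p⟩ := Finset.card_pos.1 (by omega : 0 < T.card)
    exact (k a p (far_all h _ a)).elim

end Pool.Agent.Lib.MP_35cce7_an.K
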