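import Pool.Agent.Lib.MP_35cce7_an.KGeo1

namespace Pool.Agent.Lib.MP_35cce7_an.K

variable {V : Type} {d : V → V → ℕ} {ty : V → Option Bool} {Ch : V → V → V → Prop}
  {x y z m p q v h u u' e e' : V} {X Y Z : V → V → V → Prop} {n : ℕ}

/-- some vertex is known to all three pairs -/
def Com (d : V → V → ℕ) (ty : V → Option Bool) (Ch : V → V → V → Prop) (x y z : V)
    (X Y Z : V → V → V → Prop) (n : ℕ) : Prop :=
  ∃ v, Kn d ty Ch x y X Y n v ∧ Kn d ty Ch y z Y Z n v ∧ Kn d ty Ch x z X Z n v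

theorem Com.mk' {a b c : ℕ} (v : V) (h1 : Kn d ty Ch x y X Y a v) (h2 : Kn d ty Ch y z Y Z b v)
    (h3 : Kn d ty Ch x z X Z c v) (ha : a ≤ n) (hb : b ≤ n) (hc : c ≤ n) :
    Com d ty Ch x y z X Y Z n :=
  ⟨v, h1.mono ha, h2.mono hb, h3.mono hc⟩

/-- `X` orients all links -/
def Or3 (Ch : V → V → V → Prop) (X : V → V → V → Prop) : Prop :=
  ∀ p l w, Ch p l w → X p l w ∨ X p w l

/-- a closer neighbour of type H -/
def HX (d : V → V → ℕ) (ty : V → Option Bool) (m x : V) : Prop :=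
  ∃ h, ty h = some true ∧ d m h = 1 ∧ d x h + 1 = d x m

namespace FM

variable (F : FM d ty Ch) (c8 : C8 ty Ch)
include F

theorem c12 (h : Com d ty Ch x y z X Y Z n) : Com d ty Ch y x z Y X Z n :=
  h.imp fun _ h => ⟨F.ksy h.1, h.2.2, h.2.1⟩

theorem c23 (h : Com d ty Ch x y z X Y Z n) : Com d ty Ch x z y X Z Y n :=
  h.imp fun _ h => ⟨h.2.2, F.ksy h.2.1, h.1⟩

theorem nbI (hm : d x m + d m y = d x y) (h1 : d m v = 1) (h2 : d x v + 1 = d x m) :
    d x v + d v y = d x y := by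
  have := F.tri v m y; have := F.tri x v y; have := F.symm m v
  omega

include c8

theorem half (hX : Or3 Ch X) (H : Hg d ty Ch x y m h u u' e e')
    (U : ∀ v, d m v = 1 → d x v + 1 = d x m → v = u) (k : Kn d ty Ch x z X Z n m) :
    Kn d ty Ch x y X Y 3 m ∨ Kn d ty Ch x z X Z (n + 3) h := by
  have k1 := k.nb (F.ad (F.sy H.c1)) H.du fun v a b _ => U v a b
  have k2 := F.kL k1 (F.tl H.c1) ((F.symm _ _).trans (F.ad (F.sy H.c2)))
    (by have := H.du; have := H.de; omega)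
  rcases hX _ _ _ (F.sy H.c2) with o | o
  · exact .inr (k2.ori (.inl k1) o)
  · exact .inl (F.hgU H ((F.hgE c8 H).ori (.inl (F.hgH c8 H)) o))

theorem a1 (hX : Or3 Ch X) (hY : Or3 Ch Y) (H : Hg d ty Ch x y m h u u' e e')
    (U : ∀ v, d m v = 1 → d x v + 1 = d x m → v = u)
    (U' : ∀ v, d m v = 1 → d y v + 1 = d y m → v = u') (k : Kn d ty Ch x z X Z 3 m)
    (k' : Kn d ty Ch y z Y Z 3 m) : Com d ty Ch x y z X Y Z 7 := by
  rcases F.half (Y := Y) c8 hX H U k with a | a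
  · exact .mk' m a k' k
      (by omega) (by omega) (by omega)
  rcases F.half (Y := X) c8 hY (F.hsy H) U' k' with b | b
  · exact .mk' m (F.ksy b) k' k
      (by omega) (by omega) (by omega)
  exact .mk' h (F.hgH c8 H) b a
    (by omega) (by omega) (by omega)

theorem a2 (hX : Or3 Ch X) (hY : Or3 Ch Y) (hZ : Or3 Ch Z) {h₂ u₂ w e₂ f}
    (H : Hg d ty Ch x y m h u u' e e') (U : ∀ v, d m v = 1 → d x v + 1 = d x m → v = u)
    (U' : ∀ v, d m v = 1 → d y v + 1 = d y m → v = u') (H₂ : Hg d ty Ch x z m h₂ u₂ w e₂ f)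
    (W : ∀ v, d m v = 1 → d z v + 1 = d z m → v = w) (hm : d y m + d m z = d y z)
    (k : Kn d ty Ch y z Y Z 2 m) : Com d ty Ch x y z X Y Z 7 := by
  have s := F.symm
  obtain rfl := U u₂ (F.ad (F.sy H₂.c1)) H₂.du
  obtain rfl : e₂ = e := F.inL (o := x) (F.tl H.c1) ((s _ _).trans (F.ad (F.sy H₂.c2)))
    ((s _ _).trans (F.ad (F.sy H.c2))) (by have := H.du; have := H₂.de; omega)
    (by have := H.du; have := H.de; omega)
    (by
      obtain ⟨b, t1, t2⟩ := F.tn H.c2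
      obtain ⟨b', t3, t4⟩ := F.tn H₂.c2
      have := H.th; have := H₂.th; grind)
  have k3 := k.mono (show 2 ≤ 3 by omega)
  have A := fun a => F.c23 (F.a1 c8 hX hZ H₂ U W a (F.ksy k3))
  by_cases hh : h = h₂
  · subst hh
    exact .mk' h (F.hgH c8 H) (F.kH c8 (by have := H.dy; have := H₂.dy; grind) H.th) (F.hgH c8 H₂)
      (by omega) (by omega) (by omega)
  rcases F.half (Y := X) c8 hY (F.hsy H) U' k with a | a
  · exact A (F.ksy a)
  rcases F.half (Y := X) c8 hZ (F.hsy H₂) W (F.ksy k) with b | b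
  · exact F.a1 c8 hX hY H U U' (F.ksy b) k3
  have c := F.kC a (F.ksy b) (F.nl H.c1) (H.th.trans H₂.th.symm) hh (F.ad H.c1) (F.ad H₂.c1)
  rcases hY _ _ _ H.c2 with o | o
  · exact .mk' e₂ (F.hgE c8 H) (Kn.ori (n := 6) (.inl a) c o) (F.hgE c8 H₂)
      (by omega) (by omega) (by omega)
  · exact A (F.hgU H (F.ksy ((F.ksy (Kn.mono (k := 1) (F.hgH c8 H) (by omega))).ori
      (F.ksy (F.hgE c8 H)) o)))

theorem caseA (hX : Or3 Ch X) (hY : Or3 Ch Y) (hZ : Or3 Ch Z) (t : ty m = some false)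
    (m1 : d x m + d m y = d x y) (m2 : d y m + d m z = d y z) (m3 : d x m + d m z = d x z) :
    Com d ty Ch x y z X Y Z 7 := by
  have s := F.symm
  have l : 2 ≤ 3 := by omega
  rcases F.kD (X := X) (Y := Y) c8 m1 t with a | ⟨h, u, u', e, e', H, U, U'⟩ <;>
    rcases F.kD (X := Y) (Y := Z) c8 m2 t with b | ⟨h₃, v, w', e₃, f', H₃, V, W'⟩ <;>
      rcases F.kD (X := X) (Y := Z) c8 m3 t with c | ⟨h₂, u₂, w, e₂, f, H₂, U₂, W⟩
  · exact .mk' m a b c
      (by omega) (by omega) (by omega)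
  · exact F.c23 (F.a1 c8 hX hZ H₂ U₂ W (a.mono l) (F.ksy (b.mono l)))
  · exact F.c12 (F.c23 (F.a1 c8 hY hZ H₃ V W' (F.ksy (a.mono l)) (F.ksy (c.mono l))))
  · exact F.c23 (F.c12 (F.a2 c8 hZ hX hY (F.hsy H₂) W U₂ (F.hsy H₃) V m1 a))
  · exact F.a1 c8 hX hY H U U' (c.mono l) (b.mono l)
  · exact F.a2 c8 hX hY hZ H U U' H₂ W m2 b
  · exact F.c12 (F.a2 c8 hY hX hZ (F.hsy H) U' U H₃ W' m3 c)
  · obtain rfl := U u₂ (F.ad (F.sy H₂.c1)) H₂.du
    obtain rfl := U' v (F.ad (F.sy H₃.c1)) H₃.du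
    obtain rfl := W w' (F.ad (F.sy H₃.c3)) H₃.du'
    have := H.du; have := H.du'; have := H₂.du'; have := H.dx; have := H.dy; have := H₂.dx
    have := H₂.dy; have := H₃.dx; have := H₃.dy
    rcases F.c6 (F.sy H.c3) (F.sy H.c1) (F.sy H₂.c1) (F.sy H₂.c3) (F.sy H₃.c3) (F.sy H₃.c1) with
      rfl | rfl | rfl | rfl | rfl | rfl
    · have := F.tri x v y; grind
    · have := F.tri x u₂ z; grind
    · have := F.tri y w' z; grind
    · exact .mk' h (F.hgH c8 H) (F.kH c8 (by grind) H.th) (F.hgH c8 H₂)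
        (by omega) (by omega) (by omega)
    · exact .mk' h₂ (F.kH c8 (by grind) H₂.th) (F.hgH c8 H₃) (F.hgH c8 H₂)
        (by omega) (by omega) (by omega)
    · exact .mk' h₃ (F.hgH c8 H) (F.hgH c8 H₃) (F.kH c8 (by grind) H.th)
        (by omega) (by omega) (by omega)

theorem noH (hm : d x m + d m y = d x y) (N : ¬ HX d ty m y) (t : ty e = some false)
    (e1 : d m e = 1) (e2 : d y e + 1 = d y m) : Kn d ty Ch x y X Y 2 e := by
  have s := F.symm
  have i := F.nbI (x := y) (y := x) (by grind) e1 e2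
  rcases F.kD (x := x) (y := y) (X := X) (Y := Y) c8 (by grind) t with a | ⟨h, u, u', f, f', H, U, -⟩
  · exact a
  obtain rfl := U m ((s _ _).trans e1) (by grind)
  exact (N ⟨h, H.th, (s _ _).trans (F.ad H.c1), by rw [H.dy, e2]⟩).elim

omit c8 in
theorem exD (t : ty m = none) (hy : ty y ≠ none) (N : ¬ HX d ty m y) :
    ∃ e, ty e = some false ∧ d m e = 1 ∧ d y e + 1 = d y m := by
  have s := F.symm
  rcases k : d m y with _ | k'
  · exact (hy (F.eq0 k ▸ t)).elim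
  obtain ⟨e, e1, e2⟩ := F.step k
  have e3 : d y e + 1 = d y m := by grind
  rcases te : ty e with _ | _ | _
  · exact ((F.bi e1).1 t te).elim
  · exact ⟨e, te, e1, e3⟩
  · exact (N ⟨e, te, e1, e3⟩).elim

theorem bHH (hm : d x m + d m y = d x y) (A : HX d ty m x) (B : HX d ty m y) :
    Kn d ty Ch x y X Y 1 m := by
  have s := F.symm
  obtain ⟨a, a1, a2, a3⟩ := A
  obtain ⟨b, b1, b2, b3⟩ := B
  have i := F.nbI (x := y) (y := x) (by grind) b2 b3
  exact F.kC (F.kH c8 (F.nbI hm a2 a3) a1) (F.kH c8 (by grind) b1) (by simp [a1])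
    (a1.trans b1.symm) (by rintro rfl; grind) ((s _ _).trans a2) ((s _ _).trans b2)

theorem bDD (t : ty m = none) (hx : ty x ≠ none) (hy : ty y ≠ none) (hm : d x m + d m y = d x y)
    (A : ¬ HX d ty m x) (B : ¬ HX d ty m y) : Kn d ty Ch x y X Y 3 m := by
  have s := F.symm
  obtain ⟨a, a1, a2, a3⟩ := F.exD t hx A
  obtain ⟨b, b1, b2, b3⟩ := F.exD t hy B
  exact F.kC (F.ksy (F.noH (x := y) c8 (by grind) A a1 a2 a3)) (F.noH c8 hm B b1 b2 b3)
    (by simp [a1]) (a1.trans b1.symm) (by rintro rfl; have := F.tri x a y; grind)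
    ((s _ _).trans a2) ((s _ _).trans b2)

theorem bHD (hm : d x m + d m y = d x y) (B : ¬ HX d ty m y) (a1 : ty h = some true)
    (a2 : d m h = 1) (a3 : d x h + 1 = d x m) (b1 : ty e = some false) (b2 : d m e = 1)
    (b3 : d y e + 1 = d y m) : Kn d ty Ch x y X Y 3 m ∨ Ch h m e := by
  have s := F.symm
  refine or_iff_not_imp_right.2 fun hn => ?_
  exact Kn.cm ((F.kH c8 (F.nbI hm a2 a3) a1).mono (by omega)) (F.noH c8 hm B b1 b2 b3)
    ((s _ _).trans a2) ((s _ _).trans b2) fun v v1 v2 =>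
      (F.book (by simp [a1]) (by rintro rfl; simp [a1] at b1) v1 v2 ((s _ _).trans a2)
        ((s _ _).trans b2)).resolve_right fun c => hn c.2

theorem b1 (hY : Or3 Ch Y) (hZ : Or3 Ch Z) (t : ty m = none) (hy : ty y ≠ none) (hz : ty z ≠ none)
    (m1 : d x m + d m y = d x y) (m2 : d y m + d m z = d y z) (m3 : d x m + d m z = d x z)
    (A : HX d ty m x) (B : ¬ HX d ty m y) (C : ¬ HX d ty m z) : Com d ty Ch x y z X Y Z 7 := by
  obtain ⟨h, a1, a2, a3⟩ := A
  have s := F.symm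
  have key : ∀ {y z : V} {Y Z : V → V → V → Prop}, Or3 Ch Y → ty y ≠ none → ty z ≠ none →
      d x m + d m y = d x y → d y m + d m z = d y z → ¬ HX d ty m y → ¬ HX d ty m z →
      Kn d ty Ch x y X Y 3 m ∨ Kn d ty Ch y z Y Z 4 h := fun hY hy hz m1 m2 B C => by
    obtain ⟨e, e1, e2, e3⟩ := F.exD t hy B
    refine (F.bHD c8 m1 B a1 a2 a3 e1 e2 e3).elim .inl fun c => ?_
    rcases hY _ _ _ (F.sy c) with o | o
    · exact .inr (Kn.ori (n := 3) (.inl (F.ksy (F.noH c8 (by grind) B e1 e2 e3)))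
        (F.bDD c8 t hy hz m2 B C) o)
    · exact .inl (F.ksy ((F.ksy (F.noH c8 m1 B e1 e2 e3)).ori
        (F.ksy ((F.kH c8 (F.nbI m1 a2 a3) a1).mono (by omega))) o))
  have k1 := F.kH (X := X) (Y := Y) c8 (F.nbI m1 a2 a3) a1
  have k2 := F.kH (X := X) (Y := Z) c8 (F.nbI m3 a2 a3) a1
  rcases key (Z := Z) hY hy hz m1 m2 B C with a | a
  · rcases key (Z := Y) hZ hz hy m3 (by grind) C B with b | b
    · exact .mk' m a (F.bDD c8 t hy hz m2 B C) b
        (by omega) (by omega) (by omega)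
    · exact .mk' h k1 (F.ksy b) k2
        (by omega) (by omega) (by omega)
  · exact .mk' h k1 a k2
      (by omega) (by omega) (by omega)

theorem b2 (hY : Or3 Ch Y) (hZ : Or3 Ch Z) (t : ty m = none) (hx : ty x ≠ none)
    (m1 : d x m + d m y = d x y) (m2 : d y m + d m z = d y z) (m3 : d x m + d m z = d x z)
    (A : ¬ HX d ty m x) (B : HX d ty m y) (C : HX d ty m z) : Com d ty Ch x y z X Y Z 7 := by
  obtain ⟨e, e1, e2, e3⟩ := F.exD t hx A
  have s := F.symm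
  have key : ∀ {y z : V} {Y Z : V → V → V → Prop}, Or3 Ch Y →
      d x m + d m y = d x y → d y m + d m z = d y z → HX d ty m y → HX d ty m z →
      Kn d ty Ch y x Y X 3 m ∨ Kn d ty Ch y z Y Z 2 e := fun {y z Y Z} hY m1 m2 B C => by
    have k := F.bHH (X := Y) (Y := Z) c8 m2 B C
    obtain ⟨h, a1, a2, a3⟩ := B
    have m4 : d y m + d m x = d y x := by grind
    refine (F.bHD c8 m4 A a1 a2 a3 e1 e2 e3).elim .inl fun c => ?_
    rcases hY _ _ _ c with o | o
    · exact .inr (Kn.ori (n := 1) (.inl (F.kH c8 (F.nbI m2 a2 a3) a1)) k o)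
    · exact .inl (((F.kH c8 (F.nbI m4 a2 a3) a1).mono (by omega)).ori (F.noH c8 m4 A e1 e2 e3) o)
  have k1 := F.ksy (F.noH (x := y) (X := Y) (Y := X) c8 (by grind) A e1 e2 e3)
  have k2 := F.ksy (F.noH (x := z) (X := Z) (Y := X) c8 (by grind) A e1 e2 e3)
  rcases key (Z := Z) hY m1 m2 B C with a | a
  · rcases key (Z := Y) hZ m3 (by grind) C B with b | b
    · exact .mk' m (F.ksy a) (F.bHH c8 m2 B C) (F.ksy b)
        (by omega) (by omega) (by omega)
    · exact .mk' e k1 (F.ksy b) k2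
        (by omega) (by omega) (by omega)
  · exact .mk' e k1 a k2
      (by omega) (by omega) (by omega)

end FM

theorem FM.cover (F : FM d ty Ch) (c8 : C8 ty Ch) {x y z : V} (hx : ty x ≠ none)
    (hy : ty y ≠ none) (hz : ty z ≠ none) {X Y Z : V → V → V → Prop}
    (hX : ∀ p l w, Ch p l w → X p l w ∨ X p w l) (hY : ∀ p l w, Ch p l w → Y p l w ∨ Y p w l)
    (hZ : ∀ p l w, Ch p l w → Z p l w ∨ Z p w l) :
    ∃ v, Kn d ty Ch x y X Y 7 v ∧ Kn d ty Ch y z Y Z 7 v ∧ Kn d ty Ch x z X Z 7 v := by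
  obtain ⟨m, m1, m2, m3⟩ := F.med x y z
  have s := F.symm
  have n1 : d y m + d m x = d y x := by grind
  have n2 : d z m + d m y = d z y := by grind
  have n3 : d z m + d m x = d z x := by grind
  change Com d ty Ch x y z X Y Z 7
  rcases t : ty m with _ | _ | _
  · by_cases A : HX d ty m x <;> by_cases B : HX d ty m y <;> by_cases C : HX d ty m z
    · exact .mk' m (F.bHH c8 m1 A B) (F.bHH c8 m2 B C) (F.bHH c8 m3 A C)
        (by omega) (by omega) (by omega)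
    · exact F.c23 (F.c12 (F.b2 c8 hX hY t hz n3 m1 n2 C A B))
    · exact F.c12 (F.b2 c8 hX hZ t hy n1 m3 m2 B A C)
    · exact F.b1 c8 hY hZ t hy hz m1 m2 m3 A B C
    · exact F.b2 c8 hY hZ t hx m1 m2 m3 A B C
    · exact F.c12 (F.b1 c8 hX hZ t hx hz n1 m3 m2 B A C)
    · exact F.c23 (F.c12 (F.b1 c8 hX hY t hx hy n3 m1 n2 C A B))
    · exact .mk' m (F.bDD c8 t hx hy m1 A B) (F.bDD c8 t hy hz m2 B C) (F.bDD c8 t hx hz m3 A C)
        (by omega) (by omega) (by omega)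
  · exact F.caseA c8 hX hY hZ t m1 m2 m3
  · exact .mk' m (F.kH c8 m1 t) (F.kH c8 m2 t) (F.kH c8 m3 t)
      (by omega) (by omega) (by omega)

end Pool.Agent.Lib.MP_35cce7_an.K
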