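import Pool.Agent.Lib.MP_35cce7_an.KBase

namespace Pool.Agent.Lib.MP_35cce7_an.K

variable {V : Type} {d : V → V → ℕ} {ty : V → Option Bool} {Ch : V → V → V → Prop}
  {x y z m p q v h u u' e e' : V} {X Y Z : V → V → V → Prop} {n : ℕ}

theorem Kn.mono {k : ℕ} (h : Kn d ty Ch x y X Y n v) (hk : n ≤ k) : Kn d ty Ch x y X Y k v := by
  induction hk with
  | refl => exact h
  | step _ ih => exact .inl ih

theorem Kn.ori (hp : Kn d ty Ch x y X Y n p) (hq : Kn d ty Ch x y X Y n q) (h : X p q v) :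
    Kn d ty Ch x y X Y (n + 1) v := .inr ⟨p, q, hp, hq, .inl (.inr (.inr (.inr h)))⟩

theorem Kn.nb (hp : Kn d ty Ch x y X Y n p) (h1 : d p v = 1) (h2 : d x v + 1 = d x p)
    (h3 : ∀ v', d p v' = 1 → d x v' + 1 = d x p → ty v' = ty v → v' = v) :
    Kn d ty Ch x y X Y (n + 1) v :=
  .inr ⟨p, p, hp, hp, .inl (.inl ⟨⟨h1, h2⟩, fun v' h => h3 v' h.1 h.2⟩)⟩

theorem Kn.cm (hp : Kn d ty Ch x y X Y n p) (hq : Kn d ty Ch x y X Y n q) (h1 : d p v = 1)
    (h2 : d q v = 1) (h3 : ∀ v', d p v' = 1 → d q v' = 1 → v' = v) :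
    Kn d ty Ch x y X Y (n + 1) v :=
  .inr ⟨p, q, hp, hq, .inl (.inr (.inr (.inl ⟨⟨h1, h2⟩, fun v' h _ => h3 v' h.1 h.2⟩)))⟩

/-- the D-vertex `m` is hinged round the H-vertex `h` of its level -/
structure Hg (d : V → V → ℕ) (ty : V → Option Bool) (Ch : V → V → V → Prop)
    (x y m h u u' e e' : V) : Prop where
  im : d x m + d m y = d x y
  th : ty h = some true
  c1 : Ch h u m
  c2 : Ch h u e
  c3 : Ch h u' m
  c4 : Ch h u' e'
  du : d x u + 1 = d x m
  de : d x e + 2 = d x m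
  du' : d y u' + 1 = d y m
  de' : d y e' + 2 = d y m
  dx : d x h = d x m
  dy : d y h = d y m

namespace FM

variable (F : FM d ty Ch)
include F

theorem ksy (h : Kn d ty Ch x y X Y n v) : Kn d ty Ch y x Y X n v := by
  induction n generalizing v with
  | zero =>
    have s := F.symm
    obtain ⟨h1, h2⟩ := h
    exact ⟨⟨by grind, rfl⟩, fun v' h => h2 v' ⟨by grind, by grind⟩⟩
  | succ n ih =>
    exact h.imp ih fun ⟨p, q, h1, h2, h3⟩ => ⟨p, q, ih h1, ih h2, h3.symm⟩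

theorem kL (hp : Kn d ty Ch x y X Y n p) (t : ty p = none) (h1 : d p v = 1)
    (h2 : d x v + 1 = d x p) : Kn d ty Ch x y X Y (n + 1) v :=
  hp.nb h1 h2 fun _ a b c => F.inL t a h1 b h2 c

theorem kP (hp : Kn d ty Ch x y X Y n p) (h1 : Ch p u v) (h2 : d x v + 2 = d x p) :
    Kn d ty Ch x y X Y (n + 1) v :=
  .inr ⟨p, p, hp, hp, .inl (.inr (.inl ⟨⟨⟨u, h1⟩, h2⟩, fun _ ⟨⟨_, a⟩, b⟩ _ => F.par a h1 b h2⟩))⟩

theorem kC (hp : Kn d ty Ch x y X Y n p) (hq : Kn d ty Ch x y X Y n q) (t : ty p ≠ none)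
    (t' : ty p = ty q) (hn : p ≠ q) (h1 : d p v = 1) (h2 : d q v = 1) :
    Kn d ty Ch x y X Y (n + 1) v :=
  hp.cm hq h1 h2 fun _ a b => (F.book t hn a b h1 h2).resolve_right fun c => F.tne c.1 t'

theorem hsy (H : Hg d ty Ch x y m h u u' e e') : Hg d ty Ch y x m h u' u e' e :=
  ⟨by have := H.im; have s := F.symm; grind, H.th, H.c3, H.c4, H.c1, H.c2, H.du', H.de', H.du,
    H.de, H.dy, H.dx⟩

theorem hinge (c8 : C8 ty Ch) (hp : d x p + d p y = d x y) (hq : d x q + d q y = d x y)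
    (hl : d x p = d x q) (t : ty p ≠ none) (t' : ty p = ty q) (hn : p ≠ q) :
    ty p = some false ∧ ∃ h u u' e e', Hg d ty Ch x y p h u u' e e' := by
  have s := F.symm
  have tr := F.tri
  obtain ⟨c, c1, c2, c3⟩ := F.med x p q
  obtain ⟨c', c4, c5, c6⟩ := F.med y p q
  have n0 : d p q ≠ 0 := fun e => hn (F.eq0 e)
  obtain ⟨k, hk⟩ : ∃ k, d p c = k + 1 := ⟨d p c - 1, by grind⟩
  have hk' : d p c' = k + 1 := by grind
  obtain ⟨a, a1, a2⟩ := F.step hk
  obtain ⟨b, b1, b2⟩ := F.step hk'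
  have a3 : d x a + 1 = d x p ∧ d q a + 1 = d q p := by
    have := tr x c a; have := tr x a p; have := tr q c a; have := tr q a p; grind
  have b3 : d y b + 1 = d y p ∧ d q b + 1 = d q p := by
    have := tr y c' b; have := tr y b p; have := tr q c' b; have := tr q b p; grind
  have ab : a ≠ b := by
    rintro rfl
    have := tr x a y; grind
  obtain ⟨h, h0, h1, h2⟩ := (F.inP (o := q) t a1 b1 a3.2 b3.2).resolve_left ab
  rcases k with _ | k
  · obtain rfl : q = h := F.eq0 (by grind)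
    exact (F.tne h1 t').elim
  have ha := F.ad (F.sy h1)
  have hb := F.ad (F.sy h2)
  have hx : d x h = d x p ∧ d y h = d y p := by
    have := tr x a h; have := tr y b h; have := tr x h y; grind
  obtain ⟨a', a4, a5⟩ := F.step a2
  obtain ⟨b', b4, b5⟩ := F.step b2
  have a6 : d x a' + 2 = d x p ∧ d q a' + 1 = d q a := by
    have := tr x c a'; have := tr x a' a; have := tr q c a'; have := tr q a' a; grind
  have b6 : d y b' + 2 = d y p ∧ d q b' + 1 = d q b := by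
    have := tr y c' b'; have := tr y b' b; have := tr q c' b'; have := tr q b' b; grind
  obtain ⟨g, g0, g1, g2⟩ := (F.inC (o := q) (F.tl h1) a4 ((s _ _).trans ha) a6.2
    (by grind)).resolve_left (by rintro rfl; grind)
  obtain ⟨f, f0, f1, f2⟩ := (F.inC (o := q) (F.tl h2) b4 ((s _ _).trans hb) b6.2
    (by grind)).resolve_left (by rintro rfl; grind)
  have gf : g ≠ f := by
    rintro rfl
    have := F.ad g2; have := F.ad f2
    have := tr x a' g; have := tr y b' g; have := tr x g y; grind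
  obtain ⟨w, w0, w1, w2⟩ := (F.inP (o := q) (F.nl (F.sy h1)) (F.ad (F.sy g2)) (F.ad (F.sy f2))
    (by grind) (by grind)).resolve_left gf
  obtain ⟨β, t1, t2⟩ := F.tn h1
  cases β
  · exact ⟨t1, h, a, b, a', b', hp, t2, F.sy h1, F.sy g1, F.sy h2, F.sy f1, a3.1, a6.1, b3.1, b6.1,
      hx.1, hx.2⟩
  · rcases c8 t2 (F.sy g1) (F.sy g2) w1 w2 (F.sy f2) (F.sy f1) (F.sy h2) (F.sy h1) with
      rfl | rfl | rfl | rfl | rfl | rfl | rfl | rfl <;> grind

theorem kH (c8 : C8 ty Ch) (hv : d x v + d v y = d x y) (t : ty v = some true) :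
    Kn d ty Ch x y X Y 0 v :=
  ⟨⟨hv, rfl⟩, fun v' h t' => by_contra fun e => by
    have := (F.hinge c8 hv h.1 h.2.symm (by simp [t]) t'.symm (Ne.symm e)).1
    simp [t] at this⟩

theorem hgH (c8 : C8 ty Ch) (H : Hg d ty Ch x y m h u u' e e') : Kn d ty Ch x y X Y 0 h :=
  F.kH c8 (by have := H.im; have := H.dx; have := H.dy; have s := F.symm; grind) H.th

theorem hgE (c8 : C8 ty Ch) (H : Hg d ty Ch x y m h u u' e e') : Kn d ty Ch x y X Y 1 e :=
  F.kP (F.hgH c8 H) H.c2 (H.de.trans H.dx.symm)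

theorem hgU (H : Hg d ty Ch x y m h u u' e e') (k : Kn d ty Ch x y X Y n u) :
    Kn d ty Ch x y X Y (n + 1) m := by
  have s := F.symm
  have a := F.ad (F.sy H.c1)
  refine F.ksy (F.kL (F.ksy k) (F.tl H.c1) ((s _ _).trans a) ?_)
  have := F.tri x u y; have := F.tri y m u; have := H.im; have := H.du
  grind

theorem hgN (c8 : C8 ty Ch) (H : Hg d ty Ch x y m h u u' e e') :
    Kn d ty Ch x y X Y 2 m ∨ ∀ v, d m v = 1 → d x v + 1 = d x m → v = u := by
  refine or_iff_not_imp_right.2 fun hn => ?_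
  push Not at hn
  obtain ⟨v, v1, v2, v3⟩ := hn
  obtain ⟨w, w0, -, w2⟩ := (F.inP (F.nl (F.sy H.c1)) v1 (F.ad (F.sy H.c1)) v2 H.du).resolve_left v3
  have t := (F.opp w2 (F.sy H.c1)).trans H.th
  have s := F.symm
  have i : d x w + d w y = d x y := by
    have := F.tri w u m; have := F.tri w m y; have := F.tri x w y; have := H.im
    have := F.ad w2; have := F.ad (F.sy w2); grind
  exact F.hgU H (F.kC (F.kH c8 i t) (F.hgH c8 H) (by simp [t]) (t.trans H.th.symm)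
    (by rintro rfl; have := H.dx; omega) (F.ad (F.sy w2)) (F.ad H.c1))

theorem kD (c8 : C8 ty Ch) (hm : d x m + d m y = d x y) (t : ty m = some false) :
    Kn d ty Ch x y X Y 2 m ∨ ∃ h u u' e e', Hg d ty Ch x y m h u u' e e' ∧
      (∀ v, d m v = 1 → d x v + 1 = d x m → v = u) ∧
      ∀ v, d m v = 1 → d y v + 1 = d y m → v = u' := by
  by_cases k : Kn d ty Ch x y X Y 0 m
  · exact .inl (k.mono (by omega))
  have : ∃ q, (d x q + d q y = d x y ∧ d x q = d x m) ∧ ty q = ty m ∧ q ≠ m := by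
    by_contra hn
    exact k ⟨⟨hm, rfl⟩, fun q a b => by_contra fun c => hn ⟨q, a, b, c⟩⟩
  obtain ⟨q, q1, q2, q3⟩ := this
  obtain ⟨-, h, u, u', e, e', H⟩ := F.hinge c8 hm q1.1 q1.2.symm (by simp [t]) q2.symm q3.symm
  rcases F.hgN (X := X) (Y := Y) c8 H with a | a
  · exact .inl a
  rcases F.hgN (X := Y) (Y := X) c8 (F.hsy H) with b | b
  · exact .inl (F.ksy b)
  exact .inr ⟨h, u, u', e, e', H, a, b⟩

end FM

end Pool.Agent.Lib.MP_35cce7_an.K
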