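import Pool.Agent.Lib.MP_35cce7_an.KBase

namespace Pool.Agent.Lib.MP_35cce7_an.K

open Q

variable {G ι : Type} [Group G] {P : ι → Subgroup G} {l h : ι}

theorem In.iff {g g' : G} {v : Σ i, G ⧸ P i} (e : In g v) : In g' v ↔ g⁻¹ * g' ∈ P v.1 := by
  unfold In at *
  rw [← e, eq_comm, QuotientGroup.eq]

theorem In.ex (v : Σ i, G ⧸ P i) : ∃ g, In g v := by
  exact QuotientGroup.mk_surjective v.2

theorem In.eq {g : G} {a b : Σ i, G ⧸ P i} (e : In g a) (e' : In g b) (t : a.1 = b.1) : a = b := by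
  obtain ⟨i, x⟩ := a
  obtain ⟨j, y⟩ := b
  obtain rfl : i = j := t
  obtain rfl : (g : G ⧸ P i) = x := e
  obtain rfl : (g : G ⧸ P i) = y := e'
  rfl

theorem In.smul {g : G} {a : Σ i, G ⧸ P i} (e : In g a) (x : G) : In (x * g) (x • a) := by
  obtain ⟨i, y⟩ := a
  obtain rfl : (g : G ⧸ P i) = y := e
  rfl

theorem kgrp_mem {g g' : G} {v : Σ i, G ⧸ P i} {i : ι} (e : In g v) (e' : In g' v) (t : v.1 = i) :
    g⁻¹ * g' ∈ P i := t ▸ e.iff.1 e'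

theorem kgrp_eq {g g' : G} {a b : Σ i, G ⧸ P i} {i : ι} (e : In g a) (e' : In g' b) (ta : a.1 = i)
    (tb : b.1 = i) (m : g⁻¹ * g' ∈ P i) : a = b :=
  (e.iff.2 (ta ▸ m)).eq e' (ta.trans tb.symm)

theorem kgrp_tr {K : Subgroup G} {a b c : G} (e : a⁻¹ * b ∈ K) (e' : b⁻¹ * c ∈ K) :
    a⁻¹ * c ∈ K := by
  simpa [mul_assoc] using K.mul_mem e e'

theorem kgrp_sy {K : Subgroup G} {a b : G} (e : a⁻¹ * b ∈ K) : b⁻¹ * a ∈ K := by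
  simpa using K.inv_mem e

theorem kgrp_reach {g : G} {a b : Σ i, G ⧸ P i} (e : In g a) (e' : In g b) (t : a.1 = l) :
    (leg P l).Reachable a b := by
  by_cases t' : b.1 = l
  · rw [e.eq e' (t.trans t'.symm)]
  · exact SimpleGraph.Adj.reachable ⟨⟨fun _ => t', fun _ => t⟩, g, e, e'⟩

/- as nerve_conn in SysArt: g -> g * p, p in P i, goes through the vertex (i, g). -/
theorem GF.conn (F : GF P l h) : (leg P l).Connected := by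
  have key : ∀ x y : G, (leg P l).Reachable ⟨l, (y : G ⧸ P l)⟩ ⟨l, ((y * x : G) : G ⧸ P l)⟩ := by
    intro x
    refine Subgroup.iSup_induction P
      (C := fun x => ∀ y : G,
        (leg P l).Reachable ⟨l, (y : G ⧸ P l)⟩ ⟨l, ((y * x : G) : G ⧸ P l)⟩) (F.gen x) ?_ ?_ ?_
    · intro i x hx y
      have e : In y (⟨i, (y : G ⧸ P i)⟩ : Σ i, G ⧸ P i) := rfl
      have e' : In (y * x) (⟨i, (y : G ⧸ P i)⟩ : Σ i, G ⧸ P i) := e.iff.2 (by simpa using hx)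
      exact (kgrp_reach (g := y) (a := ⟨l, (y : G ⧸ P l)⟩) rfl e rfl).trans
        (kgrp_reach (g := y * x) (a := ⟨l, ((y * x : G) : G ⧸ P l)⟩) rfl e' rfl).symm
    · intro y
      rw [mul_one]
    · intro a b ha hb y
      rw [← mul_assoc]
      exact (ha y).trans (hb _)
  refine (SimpleGraph.connected_iff_exists_forall_reachable _).2
    ⟨⟨l, ((1 : G) : G ⧸ P l)⟩, fun v => ?_⟩
  obtain ⟨g, hg⟩ := In.ex v
  have := key g 1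
  rw [one_mul] at this
  exact this.trans (kgrp_reach (g := g) (a := ⟨l, (g : G ⧸ P l)⟩) rfl hg rfl)

theorem kgrp_adj {a b : Σ i, G ⧸ P i} (x : G) (e : (leg P l).Adj a b) :
    (leg P l).Adj (x • a) (x • b) := by
  obtain ⟨t, g, e, e'⟩ := e
  refine ⟨?_, x * g, e.smul x, e'.smul x⟩
  obtain ⟨i, a⟩ := a
  obtain ⟨j, b⟩ := b
  exact t

theorem GF.d_smul (F : GF P l h) (g : G) (a b : Σ i, G ⧸ P i) :
    (leg P l).dist (g • a) (g • b) = (leg P l).dist a b := by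
  have S := met_of_graph _ F.conn
  have key : ∀ (g : G) n a b, (leg P l).dist a b = n → (leg P l).dist (g • a) (g • b) ≤ n := by
    intro g n
    induction n with
    | zero => intro a b h; simp [S.eq0 h]
    | succ n ih =>
      intro a b h
      obtain ⟨c, h1, h2⟩ := S.step h
      have a1 := SimpleGraph.dist_eq_one_iff_adj.2
        (kgrp_adj g (SimpleGraph.dist_eq_one_iff_adj.1 h1))
      have a2 := ih _ _ h2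
      have a3 := S.tri (g • a) (g • c) (g • b)
      omega
  refine le_antisymm (key g _ _ _ rfl) ?_
  simpa using key g⁻¹ _ _ _ (rfl : (leg P l).dist (g • a) (g • b) = _)

theorem kgrp_none {v : Σ i, G ⧸ P i} : gty P l h v = none ↔ v.1 = l := by
  unfold gty
  split_ifs with e <;> simp [e]

theorem kgrp_c4 {p l₁ l₂ w₁ w₂ : Σ i, G ⧸ P i} {i j : ι} (Y : Gi (P i ⊓ P j) (P i ⊓ P l))
    (tp : p.1 = i) (t1 : w₁.1 = j) (t2 : w₂.1 = j) (c1 : gCh P l h p l₁ w₁)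
    (c2 : gCh P l h p l₂ w₁) (c3 : gCh P l h p l₂ w₂) (c4 : gCh P l h p l₁ w₂) :
    l₁ = l₂ ∨ w₁ = w₂ := by
  obtain ⟨s1, -, -, -, g1, p1, a1, b1⟩ := c1
  obtain ⟨s2, -, -, -, g2, p2, a2, b2⟩ := c2
  obtain ⟨-, -, -, -, g3, p3, a3, b3⟩ := c3
  obtain ⟨-, -, -, -, g4, p4, a4, b4⟩ := c4
  rcases Y.two _ ⟨kgrp_mem p1 p2 tp, kgrp_mem b1 b2 t1⟩ _ ⟨kgrp_mem p2 p3 tp, kgrp_mem a2 a3 s2⟩
    _ ⟨kgrp_mem p3 p4 tp, kgrp_mem b3 b4 t2⟩ _ ⟨kgrp_mem p4 p1 tp, kgrp_mem a4 a1 s1⟩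
    (by group) with e | e | e | e
  · exact .inl (kgrp_eq a1 a2 s1 s2 e.2)
  · exact .inr (kgrp_eq b2 b3 t1 t2 e.2)
  · exact .inl (kgrp_eq a3 a4 s2 s1 e.2).symm
  · exact .inr (kgrp_eq b4 b1 t2 t1 e.2).symm

theorem kgrp_c6 {p l₁ l₂ l₃ w₁ w₂ w₃ : Σ i, G ⧸ P i} {i j : ι} (Y : Gi (P i ⊓ P j) (P i ⊓ P l))
    (tp : p.1 = i) (t1 : w₁.1 = j) (t2 : w₂.1 = j) (t3 : w₃.1 = j) (c1 : gCh P l h p l₁ w₁)
    (c2 : gCh P l h p l₂ w₁) (c3 : gCh P l h p l₂ w₂) (c4 : gCh P l h p l₃ w₂)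
    (c5 : gCh P l h p l₃ w₃) (c6 : gCh P l h p l₁ w₃) :
    l₁ = l₂ ∨ l₂ = l₃ ∨ l₃ = l₁ ∨ w₁ = w₂ ∨ w₂ = w₃ ∨ w₃ = w₁ := by
  obtain ⟨s1, -, -, -, g1, p1, a1, b1⟩ := c1
  obtain ⟨s2, -, -, -, g2, p2, a2, b2⟩ := c2
  obtain ⟨-, -, -, -, g3, p3, a3, b3⟩ := c3
  obtain ⟨s3, -, -, -, g4, p4, a4, b4⟩ := c4
  obtain ⟨-, -, -, -, g5, p5, a5, b5⟩ := c5
  obtain ⟨-, -, -, -, g6, p6, a6, b6⟩ := c6
  rcases Y.three _ ⟨kgrp_mem p1 p2 tp, kgrp_mem b1 b2 t1⟩ _ ⟨kgrp_mem p2 p3 tp, kgrp_mem a2 a3 s2⟩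
    _ ⟨kgrp_mem p3 p4 tp, kgrp_mem b3 b4 t2⟩ _ ⟨kgrp_mem p4 p5 tp, kgrp_mem a4 a5 s3⟩
    _ ⟨kgrp_mem p5 p6 tp, kgrp_mem b5 b6 t3⟩ _ ⟨kgrp_mem p6 p1 tp, kgrp_mem a6 a1 s1⟩
    (by group) with e | e | e | e | e | e
  · exact .inl (kgrp_eq a1 a2 s1 s2 e.2)
  · exact .inr (.inr (.inr (.inl (kgrp_eq b2 b3 t1 t2 e.2))))
  · exact .inr (.inl (kgrp_eq a3 a4 s2 s3 e.2))
  · exact .inr (.inr (.inr (.inr (.inl (kgrp_eq b4 b5 t2 t3 e.2)))))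
  · exact .inr (.inr (.inl (kgrp_eq a5 a6 s3 s1 e.2)))
  · exact .inr (.inr (.inr (.inr (.inr (kgrp_eq b6 b1 t3 t1 e.2)))))

/-- the index of `w₁` occurs once in the cycle -/
theorem kgrp_once (F : GF P l h) {p l₁ l₂ l₃ w₁ w₂ w₃ : Σ i, G ⧸ P i} (tp : p.1 = h)
    (t2 : w₂.1 ≠ w₁.1) (t3 : w₃.1 ≠ w₁.1) (c1 : gCh P l h p l₁ w₁)
    (c2 : gCh P l h p l₂ w₁) (c3 : gCh P l h p l₂ w₂) (c4 : gCh P l h p l₃ w₂)
    (c5 : gCh P l h p l₃ w₃) (c6 : gCh P l h p l₁ w₃) : l₁ = l₂ := by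
  obtain ⟨s1, -, n1, m1, g1, p1, a1, b1⟩ := c1
  obtain ⟨s2, -, -, -, g2, p2, a2, b2⟩ := c2
  obtain ⟨-, -, -, m2, g3, p3, a3, b3⟩ := c3
  obtain ⟨s3, -, -, -, g4, p4, a4, b4⟩ := c4
  obtain ⟨-, -, -, m3, g5, p5, a5, b5⟩ := c5
  obtain ⟨-, -, -, -, g6, p6, a6, b6⟩ := c6
  obtain ⟨K, k1, k2⟩ := F.jj _ n1 (m1.1 tp)
  have kl := k1 l n1.symm F.ne
  have k3 := k1 _ t2 (m2.1 tp)
  have k4 := k1 _ t3 (m3.1 tp)
  refine kgrp_eq a1 a2 s1 s2 (k2 ⟨kgrp_mem b1 b2 rfl, kgrp_sy ?_⟩)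
  exact kgrp_tr (kl (kgrp_mem a2 a3 s2)) (kgrp_tr (k3 (kgrp_mem b3 b4 rfl))
    (kgrp_tr (kl (kgrp_mem a4 a5 s3)) (kgrp_tr (k4 (kgrp_mem b5 b6 rfl))
      (kl (kgrp_mem a6 a1 s1)))))

theorem kgrp_h {p a w : Σ i, G ⧸ P i} (c : gCh P l h p a w) (tp : p.1 ≠ h) : w.1 = h :=
  by_contra fun e => tp (c.2.2.2.1.2 e)

/- met_of_graph; c4, c6: chambers a, b, c, .. of the cycle at p give a⁻¹b in P p ⊓ P w1,
b⁻¹c in P p ⊓ P l, ..., product 1. p of index j: gD. p of index h: if all w have one index j, gH;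
else some index j occurs once and its syllable lies in P j ⊓ K <= P l (jj). -/
theorem GF.fan (F : GF P l h) : Fan (leg P l).dist (gty P l h) (gCh P l h) := by
  refine { met_of_graph _ F.conn with
    sy := ?_, tl := ?_, tn := ?_, ad := ?_, bi := ?_, c4 := ?_, c6 := ?_ }
  · rintro p a w ⟨h1, h2, h3, h4, g, e1, e2, e3⟩
    exact ⟨h1, h3, h2, by tauto, g, e3, e2, e1⟩
  · exact fun c => kgrp_none.2 c.1
  · rintro p a w ⟨h1, h2, h3, h4, -⟩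
    by_cases e : p.1 = h
    · exact ⟨true, by simp [gty, e, F.ne.symm], by simp [gty, h3, h4.1 e]⟩
    · have e' : w.1 = h := by_contra fun e' => e (h4.2 e')
      exact ⟨false, by simp [gty, e, h2], by simp [gty, e', F.ne.symm]⟩
  · rintro p a w ⟨h1, h2, h3, h4, g, e1, e2, e3⟩
    exact SimpleGraph.dist_eq_one_iff_adj.2 ⟨by tauto, g, e1, e2⟩
  · intro a b e
    rw [Ne, kgrp_none, kgrp_none]
    exact (SimpleGraph.dist_eq_one_iff_adj.1 e).1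
  · intro p l₁ l₂ w₁ w₂ c1 c2 c3 c4
    by_cases e : p.1 = h
    · by_cases t : w₂.1 = w₁.1
      · exact kgrp_c4 (F.gH _ c1.2.2.1 (c1.2.2.2.1.1 e)) e rfl t c1 c2 c3 c4
      · exact .inl (kgrp_once F e t t c1 c2 c3 c3 c3 c4)
    · exact kgrp_c4 (F.gD _ c1.2.1 e) rfl (kgrp_h c1 e) (kgrp_h c3 e) c1 c2 c3 c4
  · intro p l₁ l₂ l₃ w₁ w₂ w₃ c1 c2 c3 c4 c5 c6
    by_cases e : p.1 = h
    · by_cases t : w₂.1 = w₁.1 <;> by_cases t' : w₃.1 = w₁.1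
      · exact kgrp_c6 (F.gH _ c1.2.2.1 (c1.2.2.2.1.1 e)) e rfl t t' c1 c2 c3 c4 c5 c6
      · exact .inr (.inr (.inl (kgrp_once F e (Ne.symm t') (fun x => t' (x.symm.trans t))
          c5 c6 c1 c2 c3 c4)))
      · exact .inr (.inl (kgrp_once F e (fun x => t (x.symm.trans t')) (Ne.symm t)
          c3 c4 c5 c6 c1 c2))
      · exact .inl (kgrp_once F e t t' c1 c2 c3 c4 c5 c6)
    · exact kgrp_c6 (F.gD _ c1.2.1 e) rfl (kgrp_h c1 e) (kgrp_h c3 e) (kgrp_h c5 e)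
        c1 c2 c3 c4 c5 c6

theorem GF.c8 (F : GF P l h) (h4 : ∀ j, j ≠ l → j ≠ h → G4 (P j ⊓ P h) (P j ⊓ P l)) :
    C8 (gty P l h) (gCh P l h) := by
  intro p l₁ l₂ l₃ l₄ w₁ w₂ w₃ w₄ tp c1 c2 c3 c4 c5 c6 c7 c8
  have e : p.1 ≠ h := fun e => by simp [gty, e, F.ne.symm] at tp
  have Y := h4 _ c1.2.1 e
  have t1 := kgrp_h c1 e
  have t2 := kgrp_h c3 e
  have t3 := kgrp_h c5 e
  have t4 := kgrp_h c7 e
  obtain ⟨s1, -, -, -, g1, p1, a1, b1⟩ := c1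
  obtain ⟨s2, -, -, -, g2, p2, a2, b2⟩ := c2
  obtain ⟨-, -, -, -, g3, p3, a3, b3⟩ := c3
  obtain ⟨s3, -, -, -, g4, p4, a4, b4⟩ := c4
  obtain ⟨-, -, -, -, g5, p5, a5, b5⟩ := c5
  obtain ⟨s4, -, -, -, g6, p6, a6, b6⟩ := c6
  obtain ⟨-, -, -, -, g7, p7, a7, b7⟩ := c7
  obtain ⟨-, -, -, -, g8, p8, a8, b8⟩ := c8
  rcases Y _ ⟨kgrp_mem p1 p2 rfl, kgrp_mem b1 b2 t1⟩ _ ⟨kgrp_mem p2 p3 rfl, kgrp_mem a2 a3 s2⟩
    _ ⟨kgrp_mem p3 p4 rfl, kgrp_mem b3 b4 t2⟩ _ ⟨kgrp_mem p4 p5 rfl, kgrp_mem a4 a5 s3⟩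
    _ ⟨kgrp_mem p5 p6 rfl, kgrp_mem b5 b6 t3⟩ _ ⟨kgrp_mem p6 p7 rfl, kgrp_mem a6 a7 s4⟩
    _ ⟨kgrp_mem p7 p8 rfl, kgrp_mem b7 b8 t4⟩ _ ⟨kgrp_mem p8 p1 rfl, kgrp_mem a8 a1 s1⟩
    (by group) with e | e | e | e | e | e | e | e
  · exact .inl (kgrp_eq a1 a2 s1 s2 e.2)
  · exact .inr (.inr (.inr (.inr (.inl (kgrp_eq b2 b3 t1 t2 e.2)))))
  · exact .inr (.inl (kgrp_eq a3 a4 s2 s3 e.2))
  · exact .inr (.inr (.inr (.inr (.inr (.inl (kgrp_eq b4 b5 t2 t3 e.2))))))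
  · exact .inr (.inr (.inl (kgrp_eq a5 a6 s3 s4 e.2)))
  · exact .inr (.inr (.inr (.inr (.inr (.inr (.inl (kgrp_eq b6 b7 t3 t4 e.2)))))))
  · exact .inr (.inr (.inr (.inl (kgrp_eq a7 a8 s4 s1 e.2))))
  · exact .inr (.inr (.inr (.inr (.inr (.inr (.inr (kgrp_eq b8 b1 t4 t1 e.2)))))))

end Pool.Agent.Lib.MP_35cce7_an.K
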