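import Pool.Agent.Lib.MP_35cce7_an.KDefs
import Pool.Agent.Lib.MP_35cce7_an.QG1

/-! The coset graph of a dihedral Artin group has an orientation with out-degree at most 2. -/

namespace Pool.Agent.Lib.MP_35cce7_an.K

noncomputable section

open Classical

lemma sel_low {X : Type} (a : Equiv.Perm X) {U D : X → Prop}
    (h : ∀ x, U x → U (a x) ∧ ¬ D (a x)) (x : X) (e : ℤ) :
    {n : ℤ | (U ((a ^ n) x) ∧ D ((a ^ n) x)) ∨ U ((a ^ (n + e)) x) ∧ D ((a ^ (n + e)) x)}.encard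
      ≤ 2 := by
  have up : ∀ (n : ℤ) (k : ℕ), U ((a ^ n) x) →
      U ((a ^ (n + k + 1)) x) ∧ ¬ D ((a ^ (n + k + 1)) x) := fun n k hn => by
    induction k with
    | zero => simpa [add_comm n, zpow_one_add] using h _ hn
    | succ k ih =>
      rw [show n + (k + 1 : ℕ) + 1 = 1 + (n + k + 1) by push_cast; ring, zpow_one_add]
      exact h _ ih.1
  have one : ∀ f : ℤ, {n : ℤ | U ((a ^ (n + f)) x) ∧ D ((a ^ (n + f)) x)}.encard ≤ 1 := fun f => by
    refine Set.encard_le_one_iff.2 fun n n' h1 h2 => ?_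
    by_contra hne
    wlog hl : n < n' generalizing n n'
    · exact this n' n h2 h1 (Ne.symm hne) (by omega)
    obtain ⟨k, hk⟩ := Int.le.dest (show n + 1 ≤ n' from hl)
    exact (up _ k h1.1).2 (by rw [show n + f + k + 1 = n' + f by omega]; exact h2.2)
  have := one 0
  simp only [add_zero] at this
  exact (Set.encard_union_le _ _).trans ((add_le_add this (one e)).trans_eq one_add_one_eq_two)

variable {A : Type}

/-- reduced words -/
abbrev Rw (A : Type) := {l : List A // l.IsChain (· ≠ ·)}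

/-- multiplication of a reduced word by a letter -/
def tg (i : A) (l : Rw A) : Rw A :=
  if h : l.1.head? = some i then ⟨l.1.tail, l.2.tail⟩
  else ⟨i :: l.1, l.2.cons fun _ hy e => h (e ▸ hy)⟩

lemma tg_up {i : A} {l : Rw A} (h : l.1.head? ≠ some i) : (tg i l).1.head? = some i := by
  rw [tg, dif_neg h]
  rfl

lemma tg_down {i : A} {l : Rw A} (h : l.1.head? = some i) : (tg i l).1.head? ≠ some i := by
  rw [tg, dif_pos h]
  obtain ⟨_ | ⟨j, _ | ⟨k, l⟩⟩, hl⟩ := l <;> simp at h ⊢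
  exact fun e => (List.isChain_cons_cons.1 hl).1 (h.trans e.symm)

lemma tg_tg (i : A) (l : Rw A) : tg i (tg i l) = l := by
  by_cases h : l.1.head? = some i
  · rw [tg, dif_neg (tg_down h)]
    simp only [tg, dif_pos h]
    exact Subtype.ext (List.cons_head?_tail h)
  · rw [tg, dif_pos (tg_up h)]
    simp only [tg, dif_neg h]
    rfl

lemma sel_model (m : ℕ) (hm : 3 ≤ m) : ∃ (X : Type) (a b : Equiv.Perm X) (P : X → Prop) (_ : X),
    alt m a b = alt m b a ∧ (∀ x, {n : ℤ | P ((a ^ n) x)}.encard ≤ 2) ∧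
      ∀ x, {n : ℤ | ¬ P ((b ^ n) x)}.encard ≤ 2 := by
  have two : (2 : ZMod m) ≠ 0 := fun e => by
    have := Nat.le_of_dvd two_pos ((ZMod.natCast_eq_zero_iff 2 m).1 (by exact_mod_cast e))
    omega
  have : Fact (1 < m) := ⟨by omega⟩
  have one : (1 : ZMod m) ≠ 0 := one_ne_zero
  let c : ZMod m → Equiv.Perm (Rw (ZMod m) × ZMod m) := fun j =>
    ⟨fun p => (tg (p.2 - j) p.1, p.2 + 1), fun p => (tg (p.2 - 1 - j) p.1, p.2 - 1),
      fun p => by simp [tg_tg], fun p => by simp [tg_tg]⟩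
  let U : ZMod m → Rw (ZMod m) × ZMod m → Prop := fun j p => p.1.1.head? ≠ some (p.2 - j)
  have hU : ∀ j x, U j x → U j (c j x) ∧ ¬ U (j + 1) (c j x) := fun j x h => by
    have := tg_up h
    simp only [U, c, Equiv.coe_fn_mk, this, ne_eq, Option.some.injEq, not_not]
    exact ⟨fun e => one (by linear_combination -e), by ring⟩
  have hp : ∀ k : ℕ, ∀ p, ((c 1 * c 0) ^ k) p = (p.1, p.2 + (2 * k : ℕ)) := fun k p => by
    induction k with
    | zero => simp
    | succ k ih =>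
      rw [pow_succ', Equiv.Perm.mul_apply, ih]
      simp [c, tg_tg]
      ring
  refine ⟨_, c 0, c 1, fun x => (U 0 x ∧ U (0 + 1) x) ∨ U 0 ((c 0)⁻¹ x) ∧ U (0 + 1) ((c 0)⁻¹ x),
    (⟨[], .nil⟩, 0), ?_, fun x => ?_, fun x => ?_⟩
  · obtain ⟨k, e | e⟩ := Nat.even_or_odd' m
    · have : (c 1 * c 0) ^ k = 1 := Equiv.ext fun p => by rw [hp, ← e]; simp
      rw [congrArg (alt · (c 0) (c 1)) e, congrArg (alt · (c 1) (c 0)) e, alt_two_mul, alt_two_mul,
        this, ← mul_left_inj (c 0), mul_pow_mul, this, mul_one, one_mul]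
    · rw [congrArg (alt · (c 0) (c 1)) e, congrArg (alt · (c 1) (c 0)) e, alt_odd, alt_odd]
      have z : ((2 * k : ℕ) : ZMod m) = -1 := by
        rw [eq_neg_iff_add_eq_zero, ← Nat.cast_succ, Nat.succ_eq_add_one, ← e, ZMod.natCast_self]
      rw [mul_pow_mul]
      refine Equiv.ext fun p => ?_
      rw [Equiv.Perm.mul_apply, Equiv.Perm.mul_apply, hp, hp, z]
      simp [c, sub_eq_add_neg]
  · refine le_of_eq_of_le ?_ (sel_low (c 0) (hU 0) x (-1))
    simp only [add_comm _ (-1 : ℤ), zpow_add, zpow_neg_one, Equiv.Perm.mul_apply]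
  · refine (Set.encard_le_encard fun n hn => ?_).trans (sel_low (c 1) (hU 1) x 1)
    simp only [Set.mem_ofPred_eq, add_comm _ (1 : ℤ), zpow_one_add, Equiv.Perm.mul_apply] at hn ⊢
    generalize ((c 1) ^ n) x = y at hn ⊢
    obtain ⟨l, k⟩ := y
    simp only [U, c, Equiv.Perm.inv_def, Equiv.coe_fn_symm_mk, Equiv.coe_fn_mk, sub_zero, zero_add,
      not_or, not_and, not_not, add_sub_cancel_right] at hn ⊢
    by_cases h : l.1.head? = some (k - 1)
    · have := hn.2 (tg_down h)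
      refine Or.inr ?_
      rw [this]
      exact ⟨fun e => two (by linear_combination -Option.some.inj e),
        fun e => one (by linear_combination -Option.some.inj e)⟩
    · have : l.1.head? = some k := by_contra fun e => h (hn.1 e)
      refine Or.inl ⟨h, ?_⟩
      rw [this]
      exact fun e => two (by linear_combination Option.some.inj e)

variable {B : Type} {M : CoxeterMatrix B} {b c : B} {E : Set B}

lemma sel_dec (h2 : ∀ e ∈ E, M c e = 2) {u : Ar M} (hu : u ∈ par M (insert c E)) :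
    ∃ n : ℤ, (gn M c ^ n)⁻¹ * u ∈ par M E := by
  refine par_ind (Q := fun u => ∃ n : ℤ, (gn M c ^ n)⁻¹ * u ∈ par M E)
    ⟨0, by simp⟩ ?_ hu
  rintro i (rfl | hi) x ⟨n, hn⟩
  · exact ⟨⟨1 + n, by convert hn using 1; group⟩, ⟨-1 + n, by convert hn using 1; group⟩⟩
  · have k := ((Q.gn_comm (h2 i hi)).zpow_left n).inv_left
    refine ⟨⟨n, ?_⟩, n, ?_⟩
    · rw [← mul_assoc, k.eq, mul_assoc]
      exact mul_mem (gn_mem hi) hn
    · rw [← mul_assoc, k.inv_right.eq, mul_assoc]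
      exact mul_mem (inv_mem (gn_mem hi)) hn

theorem dih_sel (hb : b ∉ E) (hc : c ∉ E) (h2 : ∀ e ∈ E, M b e = 2 ∧ M c e = 2) (h : 3 ≤ M b c) :
    Sel 3 (par M (insert c E)) (par M (insert b E)) := by
  have hbc : b ≠ c := by
    rintro rfl
    simp at h
  obtain ⟨X, α, β, P, o, br, ha, hβ⟩ := sel_model _ h
  let F := subE M fun i => i = b ∨ i = c ∨ i ∈ E
  have a2 : ∀ x : Equiv.Perm X, alt 2 x 1 = alt 2 1 x := fun x => by
    rw [alt_two_mul 1, alt_two_mul 1, mul_one, one_mul]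
  have a1 : ∀ i ∈ E, i ≠ c ∧ i ≠ b := fun i hi => ⟨fun e => hc (e ▸ hi), fun e => hb (e ▸ hi)⟩
  let π : Ar (sub M fun i => i = b ∨ i = c ∨ i ∈ E) →* Equiv.Perm X :=
    alift (fun i => if i.1 = c then α else if i.1 = b then β else 1) (by
      rintro ⟨i, rfl | rfl | hi⟩ ⟨j, rfl | rfl | hj⟩ hij - <;> change alt (M _ _) _ _ = alt (M _ _) _ _
      · exact (hij rfl).elim
      · simpa [hbc] using br.symm
      · simpa [hbc, a1 j hj, (h2 j hj).1] using a2 β
      · simpa [hbc, M.symmetric i] using br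
      · exact (hij rfl).elim
      · simpa [a1 j hj, (h2 j hj).2] using a2 α
      · simpa [hbc, a1 i hi, M.symmetric i, (h2 i hi).1] using (a2 β).symm
      · simpa [a1 i hi, M.symmetric i, (h2 i hi).2] using (a2 α).symm
      · simp [a1 i hi, a1 j hj])
  obtain ⟨ρ, hρ, -⟩ := F.retr2
  have hE : ∀ e ∈ par M E, ∃ a, F.hom a = e ∧ π a = 1 := fun e he => by
    refine par_ind (Q := fun e => ∃ a, F.hom a = e ∧ π a = 1) ⟨1, by simp⟩ ?_ he
    rintro i hi _ ⟨a, rfl, h⟩
    exact ⟨⟨gn _ ⟨i, .inr (.inr hi)⟩ * a, by simp [F, subE], by simp [π, h, a1 i hi]⟩,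
      (gn _ ⟨i, .inr (.inr hi)⟩)⁻¹ * a, by simp [F, subE], by simp [π, h, a1 i hi]⟩
  have key : ∀ (i) (j : B) (R : X → Prop), (∀ e ∈ E, M i.1 e = 2) →
      (∀ x, {n : ℤ | R ((π (gn _ i) ^ n) x)}.encard ≤ 2) →
      ∀ g, {q : Ar M ⧸ par M (insert j E) | ∃ x, g⁻¹ * x ∈ par M (insert i.1 E) ∧
        R ((π (ρ x))⁻¹ o) ∧ q = x}.encard ≤ (3 : ℕ) := fun i j R hi hR g => by
    refine (Set.encard_le_encard ?_).trans ((Set.encard_image_le
      (fun n : ℤ => ((g * gn M i.1 ^ (-n) : Ar M) : Ar M ⧸ par M (insert j E))) _).trans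
        ((hR ((π (ρ g))⁻¹ o)).trans (by norm_num)))
    rintro _ ⟨x, h1, h3, rfl⟩
    obtain ⟨n, hn⟩ := sel_dec hi h1
    obtain ⟨a, e1, e2⟩ := hE _ hn
    have e : x = g * F.hom (gn _ i ^ n * a) := by
      rw [map_mul, e1, map_zpow, F.hom_gn]
      simp [F, subE]
    refine ⟨-n, ?_, QuotientGroup.eq.2 ?_⟩
    · rw [e, hρ] at h3
      simpa [e2] using h3
    · simpa [mul_assoc] using par_mono (Set.subset_insert j E) hn
  exact ⟨fun g => P ((π (ρ g))⁻¹ o),
    key ⟨c, .inr (.inl rfl)⟩ b P (fun e he => (h2 e he).2) (by simpa [π] using ha),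
    key ⟨b, .inl rfl⟩ c (¬ P ·) (fun e he => (h2 e he).1) (by simpa [π, hbc] using hβ)⟩

end

end Pool.Agent.Lib.MP_35cce7_an.K
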