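import Pool.Agent.Lib.MP_35cce7_an.QDefs

namespace Pool.Agent.Lib.MP_35cce7_an.Q

theorem scc_par {B ι C Y : Type} (M : CoxeterMatrix B) (S₀ : Set B) (S : ι → Set B)
    (hS : ∀ i, S i ⊆ S₀) (hp : ∀ a ∈ S₀, ∀ b ∈ S₀, ∃ i, a ∈ S i ∧ b ∈ S i) (e : C → Ar M)
    (he : Function.Injective e) (hc : ∀ c, ∀ h ∈ par M S₀, ∃ c', e c' = e c * h)
    (vx : ι → C → Y) (hv : ∀ i c c', vx i c = vx i c' ↔ (e c)⁻¹ * e c' ∈ par M (S i)) :
    SCC vx := by
  intro Ch π r h1 h2 h3 h4 h5 c₀ c₁ hr hπ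
  have ex : ∀ (h : Ar M) (c : Ch), ∃ c' : Ch, ∀ i, h⁻¹ ∈ par M (S i) →
      e (π c') = e (π c) * h⁻¹ ∧ r i c c' := fun h c => by
    by_cases hh : ∃ i, h⁻¹ ∈ par M (S i)
    · obtain ⟨i, hi⟩ := hh
      obtain ⟨g, hg⟩ := hc (π c) _ (par_mono (hS i) hi)
      obtain ⟨c', a1, rfl⟩ := h3 i c g ((hv _ _ _).2 (by simpa [hg] using hi))
      exact ⟨c', fun j hj => ⟨hg, h5 i j c c' a1 ((hv _ _ _).2 (by simpa [hg] using hj))⟩⟩
    · exact ⟨c, fun i hi => (hh ⟨i, hi⟩).elim⟩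
  choose T hT using ex
  let τ : ∀ i, par M (S i) →* Equiv.Perm Ch := fun i => MonoidHom.toHomPerm
    { toFun := fun h => T h
      map_one' := funext fun c => by
        obtain ⟨a1, a2⟩ := hT 1 c i (by simp)
        exact (h4 i _ _ a2 (he (by simpa using a1.symm))).symm
      map_mul' := fun x y => funext fun c => by
        obtain ⟨a1, a2⟩ := hT (x * y) c i (Subgroup.inv_mem _ (x * y).2)
        obtain ⟨a3, a4⟩ := hT y c i (Subgroup.inv_mem _ y.2)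
        obtain ⟨a5, a6⟩ := hT x (T y c) i (Subgroup.inv_mem _ x.2)
        exact h4 i _ _ ((h1 i).trans ((h1 i).symm a2) ((h1 i).trans a4 a6))
          (he (a1.trans (by rw [mul_inv_rev, ← mul_assoc, ← a3]; exact a5.symm))) }
  choose ε hε using fun a : {a // a ∈ S₀} => hp a a.2 a a.2
  have t1 : ∀ (a : {a // a ∈ S₀}) i (hi : a.1 ∈ S i),
      τ (ε a) ⟨_, gn_mem (hε a).1⟩ = τ i ⟨_, gn_mem hi⟩ := fun a i hi => Equiv.ext fun c => rfl
  let E := subE M (· ∈ S₀)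
  let Φ : Ar (sub M (· ∈ S₀)) →* Equiv.Perm Ch :=
    alift (fun a => τ (ε a) ⟨_, gn_mem (hε a).1⟩) fun a b _ h0 => by
      obtain ⟨i, a1, a2⟩ := hp a a.2 b b.2
      rw [t1 a i a1, t1 b i a2, ← map_alt, ← map_alt]
      refine congrArg _ ((par M (S i)).subtype_injective ?_)
      rw [map_alt, map_alt]
      exact braid (M := M) h0
  have f1 : ∀ i y (hy : y ∈ par M (S i)), ∃ x, E.hom x = y ∧ Φ x = τ i ⟨y, hy⟩ := fun i y hy => by
    refine Subgroup.closure_induction (p := fun y hy => ∃ x, E.hom x = y ∧ Φ x = τ i ⟨y, hy⟩)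
      ?_ ⟨1, map_one _, (map_one _).trans (map_one (τ i)).symm⟩ ?_ ?_ hy
    · rintro _ ⟨a, ha, rfl⟩
      exact ⟨gn _ ⟨a, hS i ha⟩, E.hom_gn _, (alift_gn _ _ _).trans (t1 ⟨a, hS i ha⟩ i ha)⟩
    · rintro y z hy hz ⟨x, a1, a2⟩ ⟨x', a3, a4⟩
      exact ⟨x * x', by rw [map_mul, a1, a3], by rw [map_mul, a2, a4, ← map_mul]; rfl⟩
    · rintro y hy ⟨x, a1, a2⟩
      exact ⟨x⁻¹, by rw [map_inv, a1], by rw [map_inv, a2, ← map_inv]; rfl⟩
  have f2 : ∀ x c, e (π (Φ x c)) = e (π c) * (E.hom x)⁻¹ := fun x =>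
    PresentedGroup.generated_by _
      { carrier := {x | ∀ c, e (π (Φ x c)) = e (π c) * (E.hom x)⁻¹}
        one_mem' := by simp
        mul_mem' := fun {a b} h h' c => by
          rw [map_mul, Equiv.Perm.mul_apply, h, h', map_mul, mul_inv_rev, mul_assoc]
        inv_mem' := fun {a} h c => by
          have := h (Φ a⁻¹ c)
          rw [← Equiv.Perm.mul_apply, ← map_mul, mul_inv_cancel, map_one, Equiv.Perm.one_apply]
            at this
          rw [this, map_inv E.hom, inv_inv, inv_mul_cancel_right] }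
      (fun a c => by
        have a1 : Φ (gn _ a) = _ := alift_gn _ _ a
        have a2 : E.hom (gn _ a) = _ := E.hom_gn a
        change e (π (Φ (gn _ a) c)) = e (π c) * (E.hom (gn _ a))⁻¹
        rw [a1, a2]
        exact (hT _ c (ε a) (Subgroup.inv_mem _ (gn_mem (hε a).1))).1) x
  have f4 : ∀ c, Relation.ReflTransGen (fun c c' => ∃ i, r i c c') c₀ c → ∃ x, c = Φ x c₀ :=
    fun c h => by
      induction h with
      | refl => exact ⟨1, by simp⟩
      | @tail p q _ h ih =>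
        obtain ⟨x, rfl⟩ := ih
        obtain ⟨i, hi⟩ := h
        have a1 := (hv _ _ _).1 (h2 i _ _ hi)
        obtain ⟨x', -, a2⟩ := f1 i _ (Subgroup.inv_mem _ a1)
        obtain ⟨a3, a4⟩ := hT ((e (π (Φ x c₀)))⁻¹ * e (π q))⁻¹ (Φ x c₀) i (by simpa using a1)
        refine ⟨x' * x, ?_⟩
        rw [map_mul, Equiv.Perm.mul_apply, a2]
        exact h4 i _ _ ((h1 i).trans ((h1 i).symm hi) a4) (he ((by simp : e (π q) = _).trans a3.symm))
  obtain ⟨x, rfl⟩ := f4 c₁ hr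
  have a1 := f2 x c₀
  rw [← hπ] at a1
  obtain rfl : x = 1 := E.hom_inj (by simpa using a1)
  simp

end Pool.Agent.Lib.MP_35cce7_an.Q
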