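import Pool.Agent.Lib.MP_35cce7_an.KOut
import Pool.Agent.Lib.MP_35cce7_an.KDih
import Pool.Agent.Lib.MP_35cce7_an.KSel
import Pool.Agent.Lib.MP_35cce7_an.QScc

/-! Girth and orientation for good pairs, by induction on the rank. -/

namespace Pool.Agent.Lib.MP_35cce7_an.K

section
variable {G G' : Type} [Group G] [Group G'] {U W K : Subgroup G} {U' W' : Subgroup G'} {c : ℕ}

theorem ind_symm (h : Gi U W) : Gi W U := by
  refine ⟨fun w₁ a₁ u₁ b₁ w₂ a₂ u₂ b₂ e => ?_, fun w₁ a₁ u₁ b₁ w₂ a₂ u₂ b₂ w₃ a₃ u₃ b₃ e => ?_⟩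
  · have := h.two u₁ b₁ w₂ a₂ u₂ b₂ w₁ a₁ (by
      rw [mul_eq_one_comm]; simpa only [mul_assoc] using e)
    tauto
  · have := h.three u₁ b₁ w₂ a₂ u₂ b₂ w₃ a₃ u₃ b₃ w₁ a₁ (by
      rw [mul_eq_one_comm]; simpa only [mul_assoc] using e)
    tauto

theorem ind_gi_down (h : Gi U W) : Gi (U.subgroupOf K) (W.subgroupOf K) :=
  ⟨fun u₁ a₁ w₁ b₁ u₂ a₂ w₂ b₂ e => h.two u₁ a₁ w₁ b₁ u₂ a₂ w₂ b₂ (congrArg Subtype.val e),
    fun u₁ a₁ w₁ b₁ u₂ a₂ w₂ b₂ u₃ a₃ w₃ b₃ e =>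
      h.three u₁ a₁ w₁ b₁ u₂ a₂ w₂ b₂ u₃ a₃ w₃ b₃ (congrArg Subtype.val e)⟩

theorem ind_g4_down (h : G4 U W) : G4 (U.subgroupOf K) (W.subgroupOf K) :=
  fun u₁ a₁ w₁ b₁ u₂ a₂ w₂ b₂ u₃ a₃ w₃ b₃ u₄ a₄ w₄ b₄ e =>
    h u₁ a₁ w₁ b₁ u₂ a₂ w₂ b₂ u₃ a₃ w₃ b₃ u₄ a₄ w₄ b₄ (congrArg Subtype.val e)

theorem ind_gi_up (hU : U ≤ K) (hW : W ≤ K) (h : Gi (U.subgroupOf K) (W.subgroupOf K)) :
    Gi U W :=
  ⟨fun u₁ a₁ w₁ b₁ u₂ a₂ w₂ b₂ e =>
    h.two ⟨u₁, hU a₁⟩ a₁ ⟨w₁, hW b₁⟩ b₁ ⟨u₂, hU a₂⟩ a₂ ⟨w₂, hW b₂⟩ b₂ (Subtype.ext e),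
    fun u₁ a₁ w₁ b₁ u₂ a₂ w₂ b₂ u₃ a₃ w₃ b₃ e =>
      h.three ⟨u₁, hU a₁⟩ a₁ ⟨w₁, hW b₁⟩ b₁ ⟨u₂, hU a₂⟩ a₂ ⟨w₂, hW b₂⟩ b₂ ⟨u₃, hU a₃⟩ a₃
        ⟨w₃, hW b₃⟩ b₃ (Subtype.ext e)⟩

theorem ind_g4_up (hU : U ≤ K) (hW : W ≤ K) (h : G4 (U.subgroupOf K) (W.subgroupOf K)) :
    G4 U W :=
  fun u₁ a₁ w₁ b₁ u₂ a₂ w₂ b₂ u₃ a₃ w₃ b₃ u₄ a₄ w₄ b₄ e =>
    h ⟨u₁, hU a₁⟩ a₁ ⟨w₁, hW b₁⟩ b₁ ⟨u₂, hU a₂⟩ a₂ ⟨w₂, hW b₂⟩ b₂ ⟨u₃, hU a₃⟩ a₃
      ⟨w₃, hW b₃⟩ b₃ ⟨u₄, hU a₄⟩ a₄ ⟨w₄, hW b₄⟩ b₄ (Subtype.ext e)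

theorem ind_half (f : G → G') (hU : ∀ x y, x⁻¹ * y ∈ U → (f x)⁻¹ * f y ∈ U')
    (hW : ∀ x y, x⁻¹ * y ∈ W → (f x)⁻¹ * f y ∈ W')
    (h1 : ∀ x y, x⁻¹ * y ∈ U → (f x)⁻¹ * f y ∈ W' → x⁻¹ * y ∈ W) (σ : G' → Prop) (g : G) :
    {q : G ⧸ W | ∃ x, g⁻¹ * x ∈ U ∧ σ (f x) ∧ q = x}.encard ≤
      {q : G' ⧸ W' | ∃ x, (f g)⁻¹ * x ∈ U' ∧ σ x ∧ q = x}.encard := by
  refine Set.encard_le_encard_of_injOn (f := Quotient.map' f fun x y h =>
    QuotientGroup.leftRel_apply.2 (hW x y (QuotientGroup.leftRel_apply.1 h))) ?_ ?_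
  · rintro _ ⟨x, a1, a2, rfl⟩
    exact ⟨f x, hU _ _ a1, a2, rfl⟩
  · rintro _ ⟨x, a1, -, rfl⟩ _ ⟨y, a2, -, rfl⟩ e
    refine QuotientGroup.eq.2 (h1 x y ?_ (QuotientGroup.eq.1 e))
    simpa [mul_assoc] using U.mul_mem (U.inv_mem a1) a2

theorem ind_sel (f : G → G') (hU : ∀ x y, x⁻¹ * y ∈ U → (f x)⁻¹ * f y ∈ U')
    (hW : ∀ x y, x⁻¹ * y ∈ W → (f x)⁻¹ * f y ∈ W')
    (h1 : ∀ x y, x⁻¹ * y ∈ U → (f x)⁻¹ * f y ∈ W' → x⁻¹ * y ∈ W)
    (h2 : ∀ x y, x⁻¹ * y ∈ W → (f x)⁻¹ * f y ∈ U' → x⁻¹ * y ∈ U) (h : Sel c U' W') :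
    Sel c U W := by
  obtain ⟨σ, a1, a2⟩ := h
  exact ⟨fun x => σ (f x), fun g => (ind_half f hU hW h1 σ g).trans (a1 _),
    fun g => (ind_half f hW hU h2 (fun x => ¬ σ x) g).trans (a2 _)⟩

theorem ind_sel_down (h : Sel c U W) : Sel c (U.subgroupOf K) (W.subgroupOf K) :=
  ind_sel Subtype.val (fun _ _ h => h) (fun _ _ h => h) (fun _ _ _ h => h) (fun _ _ _ h => h) h

theorem ind_sel_up (hU : U ≤ K) (hW : W ≤ K) (h : Sel c (U.subgroupOf K) (W.subgroupOf K)) :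
    Sel c U W := by
  let f : G → K := fun x => ⟨((x : G ⧸ K).out)⁻¹ * x, QuotientGroup.eq.1 (Quotient.out_eq _)⟩
  have hf : ∀ x y, x⁻¹ * y ∈ K → (((f x)⁻¹ * f y : K) : G) = x⁻¹ * y := fun x y e => by
    simp [f, QuotientGroup.eq.2 e, mul_assoc]
  refine ind_sel f (fun x y e => ?_) (fun x y e => ?_) (fun x y e e' => ?_) (fun x y e e' => ?_) h
  · rwa [Subgroup.mem_subgroupOf, hf x y (hU e)]
  · rwa [Subgroup.mem_subgroupOf, hf x y (hW e)]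
  · rwa [Subgroup.mem_subgroupOf, hf x y (hU e)] at e'
  · rwa [Subgroup.mem_subgroupOf, hf x y (hW e)] at e'

end

variable {B : Type} {M : CoxeterMatrix B}

theorem ind_inf {S T R : Set B} (K : Subgroup (Ar M)) (h : S ∩ T = R) :
    (par M S).subgroupOf K ⊓ (par M T).subgroupOf K = (par M R).subgroupOf K := by
  subst h
  exact le_antisymm (fun _ h => par_inf h.1 h.2) fun _ h =>
    ⟨par_mono Set.inter_subset_left h, par_mono Set.inter_subset_right h⟩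

/-- the generating sets of the fan at `b` -/
def indX (M : CoxeterMatrix B) (b : B) (F : Set B) :
    Option (Option {c // c ∈ F ∧ M b c ≠ 2}) → Set B
  | none => insert b {e | e ∈ F ∧ M b e = 2}
  | some none => F
  | some (some c) => insert b (insert c.1 {e | e ∈ {e | e ∈ F ∧ M b e = 2} ∧ M c.1 e = 2})

theorem Good.out {b : B} {F : Set B} (h : Good M b F) :
    Gi (par M F) (par M (insert b {e | e ∈ F ∧ M b e = 2})) ∧
    Sel 4 (par M F) (par M (insert b {e | e ∈ F ∧ M b e = 2})) ∧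
    ((∀ c ∈ F, M b c ≠ 4) → G4 (par M F) (par M (insert b {e | e ∈ F ∧ M b e = 2}))) := by
  induction h with
  | mk b F h0 h1 h2 ih =>
  let K := par M (insert b F)
  let P := fun i => (par M (indX M b F i)).subgroupOf K
  have hX : ∀ i, indX M b F i ⊆ insert b F := by
    rintro (_ | _ | ⟨c, hc⟩) x <;> simp only [indX, Set.mem_insert_iff, Set.mem_ofPred_eq] <;> grind
  have e1 : ∀ c, P (some (some c)) ⊓ P (some none) = (par M (insert c.1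
      {e | e ∈ {e | e ∈ F ∧ M b e = 2} ∧ M c.1 e = 2})).subgroupOf K := fun ⟨c, hc⟩ =>
    ind_inf K (by ext x; simp only [indX, Set.mem_inter_iff, Set.mem_insert_iff, Set.mem_ofPred_eq]
                  grind)
  have e2 : ∀ c, P (some (some c)) ⊓ P none = (par M (insert b
      {e | e ∈ {e | e ∈ F ∧ M b e = 2} ∧ M c.1 e = 2})).subgroupOf K := fun ⟨c, hc⟩ =>
    ind_inf K (by ext x; simp only [indX, Set.mem_inter_iff, Set.mem_insert_iff, Set.mem_ofPred_eq]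
                  grind)
  have e3 : P (some none) ⊓ P none = (par M {e | e ∈ F ∧ M b e = 2}).subgroupOf K :=
    ind_inf K (by ext x; simp only [indX, Set.mem_inter_iff, Set.mem_insert_iff, Set.mem_ofPred_eq]
                  grind)
  have d1 : ∀ c : {c // c ∈ F ∧ M b c ≠ 2}, b ∉ {e | e ∈ {e | e ∈ F ∧ M b e = 2} ∧ M c.1 e = 2} :=
    fun c h => h0 h.1.1
  have d2 : ∀ c : {c // c ∈ F ∧ M b c ≠ 2},
      c.1 ∉ {e | e ∈ {e | e ∈ F ∧ M b e = 2} ∧ M c.1 e = 2} := fun c h => c.2.2 h.1.2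
  have d3 : ∀ c : {c // c ∈ F ∧ M b c ≠ 2}, ∀ e ∈ {e | e ∈ {e | e ∈ F ∧ M b e = 2} ∧ M c.1 e = 2},
      M b e = 2 ∧ M c.1 e = 2 := fun c e h => ⟨h.1.2, h.2⟩
  have d4 : ∀ c : {c // c ∈ F ∧ M b c ≠ 2}, 4 ≤ M b c.1 := fun c =>
    (h1 c c.2.1).resolve_left c.2.2
  have hp : ∀ x ∈ insert b F, ∀ y ∈ insert b F, ∃ i, x ∈ indX M b F i ∧ y ∈ indX M b F i := by
    have : ∀ y ∈ F, ∃ i, b ∈ indX M b F i ∧ y ∈ indX M b F i := fun y hy => by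
      by_cases e : M b y = 2
      · exact ⟨none, Or.inl rfl, Or.inr ⟨hy, e⟩⟩
      · exact ⟨some (some ⟨y, hy, e⟩), Or.inl rfl, Or.inr (Or.inl rfl)⟩
    rintro x (rfl | hx) y (rfl | hy)
    · exact ⟨none, Or.inl rfl, Or.inl rfl⟩
    · exact this y hy
    · exact (this x hx).imp fun _ h => h.symm
    · exact ⟨some none, hx, hy⟩
  have hF : GF P none (some none) := by
    refine ⟨by simp, fun ⟨g, hg⟩ => ?_, Q.scc_par M (insert b F) (indX M b F) hX hp Subtype.val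
      Subtype.val_injective (fun (c : K) h hh => ⟨⟨c.1 * h, K.mul_mem c.2 hh⟩, rfl⟩) _
      fun i c c' => ?_,
      ?_, ?_, ?_⟩
    · refine Subgroup.closure_induction (p := fun x hx => (⟨x, hx⟩ : K) ∈ ⨆ i, P i) ?_
        (Subgroup.one_mem _) (fun x y _ _ a1 a2 => Subgroup.mul_mem _ a1 a2)
        (fun x _ a1 => Subgroup.inv_mem _ a1) hg
      rintro _ ⟨x, hx, rfl⟩
      obtain ⟨i, hi, -⟩ := hp x hx x hx
      exact Subgroup.mem_iSup_of_mem i (gn_mem hi)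
    · rw [Sigma.mk.injEq, heq_eq_eq, QuotientGroup.eq]
      exact and_iff_right rfl
    · rintro (_ | _ | ⟨c, hc⟩) n1 n2
      · exact absurd rfl n1
      · exact absurd rfl n2
      refine ⟨(par M (insert b F \ {c})).subgroupOf K, fun i a1 a2 => fun _ h => par_mono ?_ h,
        fun _ h => par_mono ?_ (par_inf h.1 h.2)⟩
      · rcases i with _ | _ | ⟨c', hc'⟩
        · intro x
          simp only [indX, Set.mem_insert_iff, Set.mem_ofPred_eq, Set.mem_sdiff,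
            Set.mem_singleton_iff]
          grind
        · exact absurd rfl a2
        · have : c' ≠ c := fun e => a1 (by subst e; rfl)
          intro x
          simp only [indX, Set.mem_insert_iff, Set.mem_ofPred_eq, Set.mem_sdiff,
            Set.mem_singleton_iff]
          grind
      · intro x
        simp only [indX, Set.mem_inter_iff, Set.mem_insert_iff, Set.mem_ofPred_eq, Set.mem_sdiff,
          Set.mem_singleton_iff]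
        grind
    · rintro (_ | _ | c) n1 n2
      · exact absurd rfl n1
      · exact absurd rfl n2
      rw [inf_comm, e1, e3]
      exact ind_gi_down (ind_symm (ih c c.2.1 c.2.2).1)
    · rintro (_ | _ | c) n1 n2
      · exact absurd rfl n1
      · exact absurd rfl n2
      rw [e1, e2]
      exact ind_gi_down (dih_gi (d1 c) (d2 c) (d3 c) (d4 c))
  have hU : par M F ≤ K := par_mono (hX (some none))
  have hW : par M (insert b {e | e ∈ F ∧ M b e = 2}) ≤ K := par_mono (hX none)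
  refine ⟨ind_gi_up hU hW hF.gi, ind_sel_up hU hW (hF.sel (c := 3) ?_),
    fun h4 => ind_g4_up hU hW (hF.g4 ?_)⟩
  · rintro (_ | _ | c) n1 n2
    · exact absurd rfl n1
    · exact absurd rfl n2
    rw [e1, e2]
    exact ind_sel_down (dih_sel (d1 c) (d2 c) (d3 c) (by have := d4 c; omega))
  · rintro (_ | _ | c) n1 n2
    · exact absurd rfl n1
    · exact absurd rfl n2
    rw [e1, e2]
    exact ind_g4_down (dih_g4 (d1 c) (d2 c) (d3 c) (by have := d4 c; have := h4 c c.2.1; omega))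

end Pool.Agent.Lib.MP_35cce7_an.K
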