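import Pool.Agent.Lib.MP_35cce7_an.SysGeo

namespace Pool.Agent.Lib.MP_35cce7_an

variable {V : Type}

/-- the layer at distance `k` from `o` of the interval between `o` and `z` -/
def Ly (d : V → V → ℕ) (o z : V) (k : ℕ) (x : V) : Prop := d o x = k ∧ k + d x z = d o z

namespace Sys

variable {d : V → V → ℕ} {κ : V → V → Option Bool} (S : Sys d κ) {o z : V} {k : ℕ}
include S

lemma ly_conv {x y m} (hx : Ly d o z k x) (hy : Ly d o z k y) (hm : d x m + d m y = d x y) :
    Ly d o z k m := by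
  have s := S.symm
  have a1 := S.conv (v := o) hm hx.1.le hy.1.le
  have a2 := S.conv (v := z) (k := d x z) hm (by grind) (by have := hx.2; have := hy.2; grind)
  have a3 := S.tri o m z
  have := hx.2
  constructor <;> grind

lemma ly_par {x y} (hx : Ly d o z k x) (hy : Ly d o z k y) (h : d x y = 1) :
    ∃ p, d p x = 1 ∧ d p y = 1 ∧ d o p + 1 = k := by
  cases k with
  | zero =>
    have := S.eq0 hx.1
    have := S.eq0 hy.1
    have := S.refl o
    grind
  | succ k =>
    obtain ⟨p, h1, h2, h3⟩ := S.tc hx.1 hy.1 h.le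
    exact ⟨p, h1, h2, by omega⟩

lemma ly_no {x h h' y} (hx : Ly d o z k x) (h1 : Ly d o z k h) (h2 : Ly d o z k h')
    (a1 : d x h = 1) (a2 : d x h' = 1) (a3 : 2 ≤ d h h') (b1 : d x y = 1) (b2 : d h y ≤ 1)
    (b3 : d h' y ≤ 1) : False := by
  have s := S.symm
  obtain ⟨p, p1, p2, p3⟩ := S.ly_par hx h1 a1
  obtain ⟨q, q1, q2, q3⟩ := S.ly_par hx h2 a2
  have c1 := S.pc (o := o) (z := x) (a := p) (b := q) (by grind) (by grind) rfl (by omega)
    (by have := hx.1; omega)
  have key : ∀ c, d c h ≤ 1 → d c h' ≤ 1 → d o c = k := fun c e1 e2 =>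
    (S.ly_conv h1 h2 (by have := S.tri h c h'; grind)).1
  have c2 := key p
  have c3 := key q
  exact Loc.P4.no S.toLoc (w := x) (e := h) (a := p) (c := q) (f := h')
    (by constructor <;> grind) b1 b2 b3

lemma three {w a b c x y u} (ha : d w a = 1) (hb : d w b = 1) (hc : d w c = 1) (hx : d w x = 1)
    (hy : d w y = 1) (hu : d w u = 1) (ab : d a b ≤ 1) (bc : d b c ≤ 1) (ac : d a c ≤ 1)
    (ax : d a x ≤ 1) (bx : 2 ≤ d b x) (cx : 2 ≤ d c x) (ay : 2 ≤ d a y) (hby : d b y ≤ 1)
    (cy : 2 ≤ d c y) (au : 2 ≤ d a u) (cu : d c u ≤ 1) : False := by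
  have s := S.symm
  obtain ⟨i, k1⟩ := S.kind ha hb hx ab ax bx
  obtain ⟨j, k2⟩ := S.kind hb ha hy (by grind) hby ay
  obtain ⟨l, k3⟩ := S.kind hc ha hu (by grind) cu au
  have a1 := S.kne k1 k2 ha hb hx ab ax bx
  have a2 := S.kne k1 k3 ha hc hx ac ax cx
  have a3 := S.kne k2 k3 hb hc hy bc hby cy
  revert a1 a2 a3
  cases i <;> cases j <;> cases l <;> simp

lemma ly_two {x a b c} (hx : Ly d o z k x) (ha : Ly d o z k a) (hb : Ly d o z k b)
    (hc : Ly d o z k c) (xa : d x a = 1) (xb : d x b = 1) (xc : d x c = 1) (ab : 2 ≤ d a b)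
    (ac : 2 ≤ d a c) : d b c ≤ 1 := by
  by_contra bc
  have s := S.symm
  obtain ⟨p, p1, p2, p3⟩ := S.ly_par hx ha xa
  obtain ⟨q, q1, q2, q3⟩ := S.ly_par hx hb xb
  obtain ⟨r, r1, r2, r3⟩ := S.ly_par hx hc xc
  have := hx.1
  have c1 := S.pc (o := o) (z := x) (a := p) (b := q) (by grind) (by grind) rfl (by omega)
    (by omega)
  have c2 := S.pc (o := o) (z := x) (a := q) (b := r) (by grind) (by grind) rfl (by omega)
    (by omega)
  have c3 := S.pc (o := o) (z := x) (a := p) (b := r) (by grind) (by grind) rfl (by omega)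
    (by omega)
  have e1 := fun y => S.ly_no (y := y) hx ha hb xa xb ab
  have e2 := fun y => S.ly_no (y := y) hx ha hc xa xc ac
  have e3 := fun y => S.ly_no (y := y) hx hb hc xb xc (by omega)
  have f1 := e1 p
  have f2 := e1 q
  have f3 := e2 p
  have f4 := e2 r
  have f5 := e3 q
  have f6 := e3 r
  clear e1 e2 e3
  exact S.three (w := x) (a := p) (b := q) (c := r) (x := a) (y := b) (u := c) (by grind)
    (by grind) (by grind) xa xb xc c1 c2 c3 (by grind) (by grind) (by grind) (by grind) (by grind)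
    (by grind) (by grind) (by grind)

lemma ly_tripod {a b c x y u} (ha : Ly d o z k a) (hb : Ly d o z k b) (hc : Ly d o z k c)
    (hx : Ly d o z k x) (hy : Ly d o z k y) (hu : Ly d o z k u) (ab : d a b = 1) (bc : d b c = 1)
    (ac : d a c = 1) (ax : d a x = 1) (bx : 2 ≤ d b x) (cx : 2 ≤ d c x) (ay : 2 ≤ d a y)
    (hby : d b y = 1) (cy : 2 ≤ d c y) (au : 2 ≤ d a u) (bu : 2 ≤ d b u) (cu : d c u = 1) :
    False := by
  have s := S.symm
  have a1 := ha.1
  have a2 := hb.1
  have a3 := hc.1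
  have pc : ∀ {x p q}, d o x = k → d p x = 1 → d q x = 1 → d o p + 1 = k → d o q + 1 = k →
      d p q ≤ 1 := fun {x p q} h1 h2 h3 h4 h5 =>
    S.pc (o := o) (z := x) (by grind) (by grind) rfl (by omega) (by omega)
  obtain ⟨p, p1, p2, p3, p4⟩ : ∃ p, d p a = 1 ∧ d p b = 1 ∧ d p c = 1 ∧ d o p + 1 = k := by
    obtain ⟨p, p1, p2, p3⟩ := S.ly_par ha hb ab
    obtain ⟨q, q1, q2, q3⟩ := S.ly_par ha hc ac
    have c1 := pc a1 p1 q1 p3 q3
    have c2 := @S.eq0 p c
    have c3 := @S.eq0 q b
    rcases S.l4 (w := a) (a := b) (b := p) (c := q) (e := c) ab (by grind) (by grind) ac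
      (by grind) c1 q2.le (by grind) with h | h
    · exact ⟨q, q1, by grind, q2, q3⟩
    · exact ⟨p, p1, p2, by grind, p3⟩
  have key : ∀ {a b c x}, Ly d o z k a → Ly d o z k b → Ly d o z k c → Ly d o z k x → d a b = 1 →
      d a c = 1 → d a x = 1 → 2 ≤ d b x → 2 ≤ d c x → d p a = 1 → d p b = 1 →
      ∃ q, d p q = 1 ∧ d a q ≤ 1 ∧ 2 ≤ d b q ∧ 2 ≤ d c q := by
    intro a b c x ha hb hc hx ab ac ax bx cx p1 p2
    obtain ⟨q, q1, q2, q3⟩ := S.ly_par ha hx ax
    have c1 := pc ha.1 p1 q1 p4 q3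
    have c2 := S.ly_no (y := q) ha hb hx ab ax bx (by grind)
    have c3 := S.ly_no (y := q) ha hc hx ac ax cx (by grind)
    have c4 := @S.eq0 p q
    exact ⟨q, by grind, by grind, by grind, by grind⟩
  obtain ⟨q1, b1, b2, b3, b4⟩ := key ha hb hc hx ab ac ax bx cx p1 p2
  obtain ⟨q2, b5, b6, b7, b8⟩ := key hb ha hc hy (by grind) bc hby ay cy p2 p1
  obtain ⟨q3, b9, b10, b11, b12⟩ := key hc ha hb hu (by grind) (by grind) cu au bu p3 p1
  exact S.three p1 p2 p3 b1 b5 b9 ab.le bc.le ac.le b2 b3 b4 b7 b6 b8 b11 b10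

lemma ly_upar {x y a b j} (hx : Ly d o z k x) (hy : Ly d o z k y) (h : d x y = j + 1)
    (a1 : d y a = 1) (a2 : d x a = j) (b1 : d y b = 1) (b2 : d x b = j) : a = b := by
  by_contra hn
  have s := S.symm
  have c1 := S.pc a1 b1 a2 b2 h
  have c2 := @S.eq0 a b
  cases j with
  | zero => exact hn ((S.eq0 a2).symm.trans (S.eq0 b2))
  | succ j =>
    obtain ⟨c, c3, c4, c5⟩ := S.tc a2 b2 c1
    have ha := S.ly_conv (m := a) hx hy (by grind)
    have hc := S.ly_conv (m := c) hx ha (by grind)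
    have := S.tri x c y
    exact S.ly_no (y := b) ha hc hy (by grind) (by grind) (by omega) (by grind) c4.le b1.le

lemma ly_near {x f y y' j} (hx : Ly d o z k x) (hy : Ly d o z k y) (hy' : Ly d o z k y')
    (hf : d x f = 1) (h1 : d x y = j + 1) (h2 : d x y' = j + 1) (h3 : d f y = j)
    (h4 : d f y' = j) : d y y' ≤ 1 := by
  have s := S.symm
  have t := S.tri
  induction j generalizing y y' with
  | zero => rw [← S.eq0 h3, ← S.eq0 h4, S.refl]; omega
  | succ j ih =>
    obtain ⟨a, a1, a2⟩ := S.step (a := y) (b := f) (n := j) (by grind)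
    obtain ⟨b, b1, b2⟩ := S.step (a := y') (b := f) (n := j) (by grind)
    have a3 : d x a = j + 1 := by have := t x f a; have := t x a y; grind
    have b3 : d x b = j + 1 := by have := t x f b; have := t x b y'; grind
    have ha := S.ly_conv (m := a) hx hy (by grind)
    have hb := S.ly_conv (m := b) hx hy' (by grind)
    have ab := ih ha hb a3 b3 (by grind) (by grind)
    obtain ⟨c, c1, c2, c3⟩ := S.tc a3 b3 ab
    have hc := S.ly_conv (m := c) hx ha (by grind)
    have c4 := t x c y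
    have c5 := t x c y'
    by_cases e : a = b
    · subst e
      exact S.ly_two ha hc hy hy' (by grind) (by grind) (by grind) (by omega) (by omega)
    · exfalso
      cases j with
      | zero => exact e ((S.eq0 a2).trans (S.eq0 b2).symm)
      | succ j =>
        obtain ⟨u, u1, u2⟩ := S.step (a := c) (b := x) (n := j) (by grind)
        have hu := S.ly_conv (m := u) hx hc (by grind)
        have d1 := t x u a
        have d2 := t x u b
        have d3 := @S.eq0 a b
        have d4 := S.ly_upar (a := a) (b := b) hx hy h1 a1 a3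
        have d5 := S.ly_upar (a := b) (b := a) hx hy' h2 b1 b3
        have d6 := t x b y
        have d7 := t x a y'
        exact S.ly_tripod ha hb hc hy hy' hu (by grind) (by grind) (by grind) (by grind) (by grind)
          (by omega) (by grind) (by grind) (by omega) (by grind) (by grind) u1

lemma count {T : Type} [Fintype T] {ty : V → T} (hty : ∀ a b, d a b ≤ 1 → ty a = ty b → a = b)
    (N : ℕ) (o z : V) : {m | d o m + d m z = d o z ∧ d o m ≤ N}.encard ≤
      ((N + 1) * ((2 * N + 1) * (Fintype.card T * (Fintype.card T * 2))) : ℕ) := by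
  classical
  have s := S.symm
  have e1 : ∀ k, ∃ x, (∃ y, Ly d o z k y) → Ly d o z k x := fun k => by
    by_cases h : ∃ y, Ly d o z k y
    exacts [h.imp fun _ h _ => h, ⟨o, fun h' => (h h').elim⟩]
  have e2 : ∀ k x, ∃ h, (∃ y, Ly d o z k y ∧ d x y = 1) → Ly d o z k h ∧ d x h = 1 := fun k x => by
    by_cases h : ∃ y, Ly d o z k y ∧ d x y = 1
    exacts [h.imp fun _ h _ => h, ⟨o, fun h' => (h h').elim⟩]
  have e3 : ∀ x m, ∃ f, d x m ≠ 0 → d x f = 1 ∧ d f m + 1 = d x m := fun x m => by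
    cases h : d x m with
    | zero => exact ⟨x, by simp⟩
    | succ n => exact (S.step h).imp fun f h _ => ⟨h.1, by omega⟩
  choose X hX using e1
  choose H hH using e2
  choose F hF using e3
  let φ : V → ℕ × ℕ × T × T × Bool := fun m => (d o m, d (X (d o m)) m, ty m, ty (F (X (d o m)) m),
    decide (d (H (d o m) (X (d o m))) (F (X (d o m)) m) ≤ 1))
  have ly : ∀ m, d o m + d m z = d o z → Ly d o z (d o m) m := fun m h => ⟨rfl, h⟩
  refine (Set.encard_le_encard_of_injOn (f := φ) (t := ((Finset.range (N + 1) ×ˢ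
    (Finset.range (2 * N + 1) ×ˢ Finset.univ) : Finset (ℕ × ℕ × T × T × Bool)) : Set _)) ?_
    ?_).trans ?_
  · intro m hm
    have a1 := (hX _ ⟨m, ly m hm.1⟩).1
    have a2 := S.tri (X (d o m)) o m
    have a3 := hm.2
    simp only [φ, Finset.coe_product, Set.mem_prod, Finset.coe_range, Set.mem_Iio, Finset.coe_univ,
      Set.mem_univ, and_true]
    grind
  · intro m hm m' hm' e
    simp only [φ, Prod.mk.injEq, decide_eq_decide] at e
    obtain ⟨e1, e2, e3, e4, e5⟩ := e
    have l := ly m hm.1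
    have l' := ly m' hm'.1
    rw [← e1] at l' e2 e4 e5
    have lx := hX _ ⟨m, l⟩
    generalize d o m = k at *
    generalize X k = x at *
    by_cases h0 : d x m = 0
    · exact (S.eq0 h0).symm.trans (S.eq0 (by omega))
    obtain ⟨f1, f2⟩ := hF x m h0
    obtain ⟨f3, f4⟩ := hF x m' (by omega)
    have lf := S.ly_conv (m := F x m) lx l (by omega)
    have lf' := S.ly_conv (m := F x m') lx l' (by omega)
    obtain ⟨h1, h2⟩ := hH k x ⟨_, lf, f1⟩
    have : F x m = F x m' := by
      refine hty _ _ (by_contra fun hn => ?_) e4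
      by_cases c : d (H k x) (F x m) ≤ 1
      · exact S.ly_no (y := H k x) lx lf lf' f1 f3 (by omega) h2 (by grind) (by grind)
      · exact hn (S.ly_two lx h1 lf lf' h2 f1 f3 (by omega) (by omega))
    rw [← this] at f4
    exact hty _ _ (S.ly_near (j := d x m - 1) lx l l' f1 (by omega) (by omega) (by omega)
      (by omega)) e3
  · simp [Set.encard_coe_eq_coe_finsetCard, -Finset.coe_product]

end Sys

end Pool.Agent.Lib.MP_35cce7_an
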