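import Pool.Agent.Lib.MP_35cce7_an.SysGeo

namespace Pool.Agent.Lib.MP_35cce7_an

variable {V : Type}

structure Geo (d : V → V → ℕ) (u w : V) (n : ℕ) (b : ℕ → V) : Prop where
  z : b 0 = u
  e : b n = w
  adj : ∀ i < n, d (b i) (b (i + 1)) = 1
  l : ∀ i ≤ n, d u (b i) = i
  r : ∀ i ≤ n, d (b i) w + i = n

def Row (d : V → V → ℕ) (v : V) (n : ℕ) (b a : ℕ → V) : Prop :=
  ∀ i < n, d (a i) (b i) = 1 ∧ d (a i) (b (i + 1)) = 1 ∧ d v (a i) + 1 = n

lemma Met.geo {d : V → V → ℕ} (S : Met d) {u w n} (h : d u w = n) : ∃ b, Geo d u w n b := by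
  induction n generalizing u with
  | zero =>
    obtain rfl := S.eq0 h
    exact ⟨fun _ => u, rfl, rfl, by simp, by simp [h], by simp [h]⟩
  | succ n ih =>
    obtain ⟨c, h1, h2⟩ := S.step h
    obtain ⟨b, g⟩ := ih h2
    refine ⟨fun i => Nat.casesOn i u b, rfl, g.e, ?_, ?_, ?_⟩
    · rintro (_ | i) hi
      · simpa [g.z] using h1
      · exact g.adj i (by omega)
    · rintro (_ | i) hi
      · exact S.refl u
      · have a1 := g.l i (by omega)
        have a2 := g.r i (by omega)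
        have a3 := S.tri u c (b i)
        have a4 := S.tri u (b i) w
        change d u (b i) = i + 1
        omega
    · rintro (_ | i) hi
      · exact h
      · have a2 := g.r i (by omega)
        change d (b i) w + (i + 1) = n + 1
        omega

namespace Sys

variable {d : V → V → ℕ} {κ : V → V → Option Bool} (S : Sys d κ)
include S

lemma straight {a : ℕ → V} {m : ℕ} (h1 : ∀ i < m, d (a i) (a (i + 1)) = 1)
    (h2 : ∀ i, i + 2 ≤ m → 2 ≤ d (a i) (a (i + 2)) ∧
      ∀ x, d (a (i + 1)) x = 1 → d (a i) x ≤ 1 → d (a (i + 2)) x ≤ 1 → False) :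
    ∀ i < m, d (a 0) (a (i + 1)) = i + 1 ∧ d (a 0) (a i) = i ∧
      ∀ y, d (a (i + 1)) y = 1 → d (a 0) y = i → y = a i := by
  have s := S.symm
  intro i hi
  induction i with
  | zero => exact ⟨h1 0 hi, S.refl _, fun y _ h => (S.eq0 h).symm⟩
  | succ i ih =>
    obtain ⟨a1, a2, a3⟩ := ih (by omega)
    obtain ⟨b1, b2⟩ := h2 i (by omega)
    have b3 := h1 (i + 1) hi
    have b4 := h1 i (by omega)
    have c1 := S.tri (a 0) (a (i + 1)) (a (i + 1 + 1))
    have c2 := S.tri (a 0) (a (i + 1 + 1)) (a (i + 1))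
    have c3 : d (a 0) (a (i + 1 + 1)) ≠ i := fun e => by
      have := a3 _ b3 e
      have := S.refl (a i)
      grind
    have c4 : d (a 0) (a (i + 1 + 1)) ≠ i + 1 := fun e => by
      obtain ⟨c, e1, e2, e3⟩ := S.tc a1 e b3.le
      have := a3 c (by grind) e3
      grind
    have c5 : d (a 0) (a (i + 1 + 1)) = i + 1 + 1 := by grind
    refine ⟨c5, a1, fun y hy hy' => by_contra fun hn => ?_⟩
    have d1 := S.pc (o := a 0) hy (by grind : d (a (i + 1 + 1)) (a (i + 1)) = 1) hy' a1 c5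
    obtain ⟨c, e1, e2, e3⟩ := S.tc hy' a1 d1
    have := a3 c (by grind) e3
    have := @S.eq0 y (a (i + 1))
    exact b2 y (by grind) (by grind) hy.le

lemma straight_mem {a : ℕ → V} {m : ℕ} (h1 : ∀ i < m, d (a i) (a (i + 1)) = 1)
    (h2 : ∀ i, i + 2 ≤ m → 2 ≤ d (a i) (a (i + 2)) ∧
      ∀ x, d (a (i + 1)) x = 1 → d (a i) x ≤ 1 → d (a (i + 2)) x ≤ 1 → False) :
    d (a 0) (a m) = m ∧ ∀ x, d (a 0) x + d x (a m) = m → ∃ i ≤ m, x = a i := by
  have h := S.straight h1 h2
  have e : d (a 0) (a m) = m := by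
    cases m with
    | zero => exact S.refl _
    | succ m => exact (h m (by omega)).1
  refine ⟨e, fun x hx => ⟨d (a 0) x, by omega, ?_⟩⟩
  generalize hj : d x (a m) = j at hx
  induction j generalizing x with
  | zero => rw [show d (a 0) x = m by omega]; exact S.eq0 hj
  | succ j ih =>
    obtain ⟨y, e1, e2⟩ := S.step hj
    have a1 := S.tri (a 0) x y
    have a2 := S.tri (a 0) y (a m)
    have a3 := ih y e2 (by omega)
    rw [show d (a 0) y = d (a 0) x + 1 by omega] at a3
    exact (h _ (by omega)).2.2 x (by rw [← a3, S.symm]; exact e1) rfl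

lemma _root_.Pool.Agent.Lib.MP_35cce7_an.Fl.symm {v u w n} (h : Fl d v u w n) : Fl d v w u n := by
  have s := S.symm
  exact ⟨by rw [s]; exact h.1, fun x hx => h.2 x (by grind)⟩

lemma _root_.Pool.Agent.Lib.MP_35cce7_an.Fl.l {v u w n} (h : Fl d v u w n) : d v u = n :=
  h.2 u (by simp [S.refl])

lemma _root_.Pool.Agent.Lib.MP_35cce7_an.Fl.r {v u w n} (h : Fl d v u w n) : d v w = n :=
  h.2 w (by simp [S.refl])

lemma row {v u w n b} (h : Fl d v u w n) (g : Geo d u w n b) : ∃ a, Row d v n b a := by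
  have : ∀ i, ∃ a, i < n → d a (b i) = 1 ∧ d a (b (i + 1)) = 1 ∧ d v a + 1 = n := fun i => by
    by_cases hi : i < n
    · have a1 := h.2 (b i) (by have := g.l i hi.le; have := g.r i hi.le; have := h.1; omega)
      have a2 := h.2 (b (i + 1)) (by have := g.l (i + 1) hi; have := g.r (i + 1) hi; have := h.1; omega)
      obtain ⟨c, h1, h2, h3⟩ := S.tc (k := n - 1) (o := v) (by omega) (by omega) (g.adj i hi).le
      exact ⟨c, fun _ => ⟨h1, h2, by omega⟩⟩
    · exact ⟨v, fun h => (hi h).elim⟩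
  choose a ha using this
  exact ⟨a, ha⟩

lemma row_p4 {v u w n b a} (h : Fl d v u w n) (g : Geo d u w n b) (r : Row d v n b a) {i}
    (hi : i + 2 ≤ n) : Loc.P4 d (b (i + 1)) (b i) (a i) (a (i + 1)) (b (i + 2)) ∧
      d (a i) (a (i + 1)) = 1 := by
  have s := S.symm
  have t := S.tri
  obtain ⟨a1, a2, a3⟩ := r i (by omega)
  obtain ⟨a4, a5, a6⟩ := r (i + 1) (by omega)
  have b1 := g.l i (by omega)
  have b2 := g.r (i + 2) hi
  have b3 := g.adj i (by omega)
  have b4 := g.adj (i + 1) (by omega)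
  have b5 := h.1
  have b6 := h.2 (b (i + 1)) (by have := g.l (i + 1) (by omega); have := g.r (i + 1) (by omega); omega)
  have key : ∀ x, d (b i) x ≤ 1 → d x (b (i + 2)) ≤ 1 → d v x = n := fun x h1 h2 => h.2 x (by
    have := t u (b i) x
    have := t x (b (i + 2)) w
    have := t u x w
    omega)
  have c1 := key (a i)
  have c2 := key (a (i + 1))
  have c3 := S.pc (o := v) (z := b (i + 1)) (a := a i) (b := a (i + 1)) (by grind) (by grind) rfl
    (by omega) (by omega)
  have c4 := t u (b i) w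
  have c5 := t (b i) (b (i + 2)) w
  have c6 := @S.eq0 (a i) (a (i + 1))
  refine ⟨⟨?_, ?_, ?_, ?_, ?_, ?_, ?_, ?_, ?_, ?_⟩, ?_⟩ <;> grind

lemma row_p4' {v u w n b a} (h : Fl d v u w n) (g : Geo d u w n b) (r : Row d v n b a) {i}
    (hi : i + 3 ≤ n) : Loc.P4 d (a (i + 1)) (a i) (b (i + 1)) (b (i + 2)) (a (i + 2)) := by
  have s := S.symm
  have t := S.tri
  obtain ⟨p1, p2⟩ := S.row_p4 h g r (i := i) (by omega)
  obtain ⟨p3, p4⟩ := S.row_p4 h g r (i := i + 1) (by omega)
  obtain ⟨a1, a2, a3⟩ := r i (by omega)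
  obtain ⟨a4, a5, a6⟩ := r (i + 1) (by omega)
  obtain ⟨a7, a8, a9⟩ := r (i + 2) (by omega)
  have b1 := g.l i (by omega)
  have b2 := g.r (i + 2 + 1) hi
  have b4 := g.adj (i + 1) (by omega)
  have c1 := p1.af
  have c2 := p3.ec
  have c3 : 2 ≤ d (a i) (a (i + 2)) := by
    by_contra hn
    have := h.2 (a i) (by
      have := t u (b i) (a i)
      have := t (a i) (a (i + 2)) w
      have := t (a (i + 2)) (b (i + 2 + 1)) w
      have := t u (a i) w
      have := h.1
      grind)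
    omega
  constructor <;> grind

lemma row_fl {v u w n b a} (h : Fl d v u w (n + 1)) (g : Geo d u w (n + 1) b)
    (r : Row d v (n + 1) b a) : Fl d v (a 0) (a n) n := by
  obtain ⟨h1, h2⟩ := S.straight_mem (a := a) (m := n)
    (fun i hi => (S.row_p4 h g r (by omega)).2) fun i hi =>
      ⟨(S.row_p4' h g r (by omega)).ef, fun x => (S.row_p4' h g r (by omega)).no S.toLoc⟩
  refine ⟨h1, fun x hx => ?_⟩
  obtain ⟨i, hi, rfl⟩ := h2 x (by omega)
  have := (r i (by omega)).2.2
  omega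

lemma upar {v u w n p p'} (h : Fl d v u w (n + 1)) (h1 : d u p = 1) (h2 : d v p = n)
    (h3 : d u p' = 1) (h4 : d v p' = n) : p = p' := by
  have s := S.symm
  induction n generalizing u w p p' with
  | zero => rw [← S.eq0 h2, ← S.eq0 h4]
  | succ n ih =>
    obtain ⟨b, g⟩ := S.geo h.1
    obtain ⟨a, r⟩ := S.row h g
    have f := S.row_fl h g r
    obtain ⟨p1, p2⟩ := S.row_p4 h g r (i := 0) (by omega)
    obtain ⟨a1, a2, a3⟩ := r 0 (by omega)
    obtain ⟨a4, a5, a6⟩ := r 1 (by omega)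
    have z := g.z
    have hu := h.l S
    have hb := h.2 (b 1) (by have := g.l 1 (by omega); have := g.r 1 (by omega); have := h.1; omega)
    obtain ⟨e, e1, e2, e3⟩ := S.tc (o := v) (a := a 0) (b := a 1) (k := n) (by omega) (by omega)
      p2.le
    have q : Loc.P4 d (a 0) u (b 1) (a 1) e := by
      have := p1.ec
      have := g.adj 0 (by omega)
      have := S.tri v e u
      have := S.tri v e (b 1)
      constructor <;> grind
    have key : ∀ p, d u p = 1 → d v p = n + 1 → p = a 0 := fun p h1 h2 => by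
      by_contra hn
      have c1 := S.pc (o := v) h1 (by grind : d u (a 0) = 1) h2 (by omega) hu
      obtain ⟨c, c2, c3, c4⟩ := S.tc (o := v) h2 (by omega : d v (a 0) = n + 1) c1
      have := ih f (p := c) (p' := e) (by grind) c4 (by grind) e3
      have := @S.eq0 p (a 0)
      exact q.no S.toLoc (x := p) (by grind) h1.le (by grind)
    rw [key p h1 h2, key p' h3 h4]

lemma slide {v u w n p q} (h : Fl d v u w (n + 1)) (h1 : d u p = 1) (h2 : d v p = n)
    (h3 : d w q = 1) (h4 : d v q = n) : Fl d v p q n := by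
  have s := S.symm
  obtain ⟨b, g⟩ := S.geo h.1
  obtain ⟨a, r⟩ := S.row h g
  obtain ⟨a1, a2, a3⟩ := r 0 (by omega)
  obtain ⟨a4, a5, a6⟩ := r n (by omega)
  have z := g.z
  have e := g.e
  rw [S.upar h h1 h2 (p' := a 0) (by grind) (by omega),
    S.upar (h.symm S) h3 h4 (p' := a n) (by grind) (by omega)]
  exact S.row_fl h g r

lemma top {v u w n} (h : Fl d v u w (n + 1)) :
    ∃ y y', d v y = 1 ∧ d v y' = 1 ∧ d y y' = 1 ∧ d y u = n ∧ d y' w = n := by
  have s := S.symm
  induction n generalizing u w with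
  | zero => exact ⟨u, w, h.l S, h.r S, h.1, S.refl _, S.refl _⟩
  | succ n ih =>
    have hu := h.l S
    have hw := h.r S
    obtain ⟨p, p1, p2⟩ := S.step (a := u) (b := v) (n := n + 1) (by grind)
    obtain ⟨q, q1, q2⟩ := S.step (a := w) (b := v) (n := n + 1) (by grind)
    obtain ⟨y, y', a1, a2, a3, a4, a5⟩ := ih (S.slide h p1 (by grind) q1 (by grind))
    have := S.tri y p u
    have := S.tri y' q w
    have := S.tri v y u
    have := S.tri v y' w
    exact ⟨y, y', a1, a2, a3, by grind, by grind⟩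

lemma two {v v' u w n p p' q q'} (h : Fl d v u w (n + 2)) (h' : Fl d v' u w (n + 2))
    (p1 : d u p = 1) (p2 : d v p = n + 1) (p3 : d u p' = 1) (p4 : d v' p' = n + 1)
    (q1 : d w q = 1) (q2 : d v q = n + 1) (q3 : d w q' = 1) (q4 : d v' q' = n + 1)
    (hp : d p p' ≤ 1) : d q q' ≤ 1 ∧ (n ≠ 0 → p = p') := by
  have s := S.symm
  obtain ⟨b, g⟩ := S.geo h.1
  obtain ⟨a, r⟩ := S.row h g
  obtain ⟨a', r'⟩ := S.row h' g
  have z := g.z
  have e := g.e
  have e1 : p = a 0 := by
    obtain ⟨a1, a2, a3⟩ := r 0 (by omega)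
    exact S.upar h p1 p2 (by grind) (by omega)
  have e2 : p' = a' 0 := by
    obtain ⟨a1, a2, a3⟩ := r' 0 (by omega)
    exact S.upar h' p3 p4 (by grind) (by omega)
  have e3 : q = a (n + 1) := by
    obtain ⟨a1, a2, a3⟩ := r (n + 1) (by omega)
    exact S.upar (h.symm S) q1 q2 (by grind) (by omega)
  have e4 : q' = a' (n + 1) := by
    obtain ⟨a1, a2, a3⟩ := r' (n + 1) (by omega)
    exact S.upar (h'.symm S) q3 q4 (by grind) (by omega)
  subst e1 e2 e3 e4
  have pr : ∀ i ≤ n + 1, d (a i) (a' i) ≤ 1 := fun i hi => by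
    induction i with
    | zero => exact hp
    | succ i ih =>
      exact ((S.row_p4 h g r (by omega)).1.two S.toLoc (S.row_p4 h' g r' (by omega)).1
        (ih (by omega))).2.2
  refine ⟨pr _ le_rfl, fun hn => ?_⟩
  obtain ⟨x1, x2⟩ := S.row_p4 h g r (i := 0) (by omega)
  obtain ⟨x3, x4⟩ := S.row_p4 h' g r' (i := 0) (by omega)
  obtain ⟨x5, x6⟩ := S.row_p4 h g r (i := 1) (by omega)
  obtain ⟨x7, x8⟩ := S.row_p4 h' g r' (i := 1) (by omega)
  obtain ⟨y1, y2, y3⟩ := x1.two S.toLoc x3 hp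
  obtain ⟨y4, -, -⟩ := x5.two S.toLoc x7 y3
  obtain ⟨i, k1, k2⟩ := x1.kinds S.toLoc
  obtain ⟨j, k3, -⟩ := x5.kinds S.toLoc
  have c1 := x1.af
  have c2 := x3.af
  have c3 := x1.ha
  have c4 := x3.ha
  have e1 : a 1 = a' 1 := S.uniq (x := a 0) k2 (y2 ▸ k2) k3 (y4 ▸ k3) x1.hc x3.hc x5.ha x7.ha
    x1.hf.le y3 (by grind) c3.le (by grind)
  have lv : ∀ {v a}, Fl d v u w (n + 2) → Row d v (n + 2) b a → d (a 0) (a 1) = 1 →
      2 ≤ d (a 0) (b 2) → d (b 1) (a 0) = 1 →
      ∃ l m, κ (a 1) (a 0) = some l ∧ κ (a 1) (b 1) = some m ∧ m ≠ l := by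
    intro v a h r x2 c1 c3
    obtain ⟨a1, a2, a3⟩ := r 0 (by omega)
    obtain ⟨a4, a5, a6⟩ := r 1 (by omega)
    have hb := h.2 (b 1) (by have := g.l 1 (by omega); have := g.r 1 (by omega); have := h.1; omega)
    obtain ⟨e, e1, e2, e3⟩ := S.tc (o := v) (a := a 0) (b := a 1) (k := n) (by omega) (by omega)
      x2.le
    have := S.tri v e (b 1)
    have hb2 : d (b 1) (b 2) = 1 := g.adj 1 (by omega)
    obtain ⟨l, hl⟩ := S.kind (w := a 1) (a := a 0) (b := e) (c := b 1) (by grind) (by grind) a4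
      (by grind) a2.le (by omega)
    obtain ⟨m, hm⟩ := S.kind (w := a 1) (a := b 1) (b := a 0) (c := b 2) a4 (by grind) a5
      c3.le hb2.le c1
    exact ⟨l, m, hl, hm, S.kne hm hl a4 (by grind) a5 c3.le hb2.le c1⟩
  obtain ⟨l, m, l1, l2, l3⟩ := lv h r x2 c1 c3
  obtain ⟨l', m', l4, l5, l6⟩ := lv h' r' x4 c2 c4
  rw [← e1] at l4 l5
  have e2 : l' = l := by
    have : m = m' := by simpa [l2] using l5
    subst this
    revert l3 l6
    cases l <;> cases l' <;> cases m <;> simp
  subst e2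
  have := x1.ea
  have := x1.ec
  have := x1.he
  have := (r 0 (by omega)).1
  exact S.uniq (x := b 0) k1 (y1 ▸ k1) l1 l4 c3 c4 (by grind) (by grind) x1.hc.le hp (by grind)
    (by grind) (by grind)

lemma med {T : Type} {ty : V → T} (hty : ∀ a b, d a b ≤ 1 → ty a = ty b → a = b) {n : ℕ}
    {u w v v' P Q P' Q' : V} (h : Fl d v u w n) (h' : Fl d v' u w n) (t1 : ty v = ty v')
    (t2 : ty P = ty P') (t3 : ty Q = ty Q')
    (c : n ≠ 0 → d v P = 1 ∧ d P u + 1 = n ∧ d v Q = 1 ∧ d Q w + 1 = n)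
    (c' : n ≠ 0 → d v' P' = 1 ∧ d P' u + 1 = n ∧ d v' Q' = 1 ∧ d Q' w + 1 = n) :
    ∃ m, d u m + d m v = d u v ∧ d u m + d m v' = d u v' ∧ d v m + d m v' = d v v' := by
  have s := S.symm
  have t := S.tri
  have r := S.refl
  induction n using Nat.twoStepInduction generalizing u w with
  | zero =>
    have a1 := S.eq0 (h.l S)
    have a2 := S.eq0 (h'.l S)
    exact ⟨u, by simp [r, a1, a2]⟩
  | one =>
    have a1 := h.l S
    have a2 := h'.l S
    by_cases e : d v v' ≤ 1
    · obtain rfl := hty _ _ e t1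
      exact ⟨v, by simp [r]⟩
    · have := t v u v'
      exact ⟨u, by simp [r], by simp [r], by grind⟩
  | more n _ ih =>
    have a1 := h.l S
    have a2 := h'.l S
    have a3 := h.r S
    have a4 := h'.r S
    obtain ⟨p, p1, p2⟩ := S.step (a := u) (b := v) (n := n + 1) (by grind)
    obtain ⟨p', p3, p4⟩ := S.step (a := u) (b := v') (n := n + 1) (by grind)
    obtain ⟨q, q1, q2⟩ := S.step (a := w) (b := v) (n := n + 1) (by grind)
    obtain ⟨q', q3, q4⟩ := S.step (a := w) (b := v') (n := n + 1) (by grind)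
    rw [s] at p2 p4 q2 q4
    obtain ⟨c1, c2, c3, c4⟩ := c (by omega)
    obtain ⟨c5, c6, c7, c8⟩ := c' (by omega)
    have st : ∀ {v u w P p}, Fl d v u w (n + 2) → d u p = 1 → d v p = n + 1 → d v P = 1 →
        d P u + 1 = n + 2 → d P p = n := by
      intro v u w P p h p1 p2 c1 c2
      obtain ⟨y, y1, y2⟩ := S.step (a := u) (b := P) (n := n) (by grind)
      have := h.l S
      have := t v P y
      have := t v y u
      rw [← S.upar h y1 (by grind) p1 p2, s, y2]
    have s1 := st h p1 p2 c1 c2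
    have s2 := st h' p3 p4 c5 c6
    have s3 := st (h.symm S) q1 q2 c3 c4
    have s4 := st (h'.symm S) q3 q4 c7 c8
    by_cases e : d p p' ≤ 1
    · obtain ⟨b1, b2⟩ := S.two h h' p1 p2 p3 p4 q1 q2 q3 q4 e
      obtain ⟨-, b3⟩ := S.two (h.symm S) (h'.symm S) q1 q2 q3 q4 p1 p2 p3 p4 b1
      have : p = p' ∧ q = q' := by
        by_cases hn : n = 0
        · subst hn
          obtain rfl := S.eq0 s1
          obtain rfl := S.eq0 s2
          obtain rfl := S.eq0 s3
          obtain rfl := S.eq0 s4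
          exact ⟨hty _ _ e t2, hty _ _ b1 t3⟩
        · exact ⟨b2 hn, b3 hn⟩
      obtain ⟨rfl, rfl⟩ := this
      obtain ⟨m, m1, m2, m3⟩ := ih (S.slide h p1 p2 q1 q2) (S.slide h' p3 p4 q3 q4)
        (fun _ => ⟨c1, by omega, c3, by omega⟩) fun _ => ⟨c5, by omega, c7, by omega⟩
      have := t u p m
      have := t u m v
      have := t u m v'
      exact ⟨m, by grind, by grind, m3⟩
    · obtain ⟨x, u', x', k, f, d1, d2, d3⟩ := S.qm v u v'
      have f1 := f.l S
      have f2 := f.r S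
      have key : ∀ y y', d u y = 1 → d u y' = 1 → d y y' ≤ 1 → d v y ≤ n + 1 → d v' y' ≤ n + 1 →
          False := fun y y' y1 y2 y3 y4 y5 => by
        have := t v y u
        have := t v' y' u
        rw [S.upar h y1 (by grind) p1 p2, S.upar h' y2 (by grind) p3 p4] at y3
        exact e y3
      have e1 : u = u' := by
        refine S.eq0 (by_contra fun hn => ?_)
        obtain ⟨y, y1, y2⟩ := S.step (a := u) (b := u') (n := d u u' - 1) (by omega)
        have := t v x y
        have := t x u' y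
        have := t v' x' y
        have := t x' u' y
        exact key y y y1 y1 (by simp [r]) (by grind) (by grind)
      subst e1
      cases k with
      | zero => exact ⟨u, by simp [r], by simp [r], by grind⟩
      | succ k =>
        obtain ⟨y, y', y1, y2, y3, y4, y5⟩ := S.top f
        have := t v x y
        have := t v' x' y'
        exact (key y y' y1 y2 y3.le (by grind) (by grind)).elim

end Sys

end Pool.Agent.Lib.MP_35cce7_an
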