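import Pool.Agent.Lib.MP_35cce7_an.RD
import Pool.Agent.Lib.MP_35cce7_an.SysTri
import Pool.Agent.Lib.MP_35cce7_an.SysCnt

namespace Pool.Agent.Lib.MP_35cce7_an

noncomputable section

open ENNReal Classical

variable {α β G K V : Type}

lemma tsum_inj {φ : α → ℝ≥0∞} {ψ : β → ℝ≥0∞} (ι : α → β) (hι : Function.Injective ι)
    (h : ∀ a, φ a ≤ ψ (ι a)) : ∑' a, φ a ≤ ∑' b, ψ b :=
  (ENNReal.tsum_le_tsum h).trans (ENNReal.tsum_comp_le_tsum_of_injective hι ψ)

lemma nrm_inj {φ : α → ℝ≥0∞} {ψ : β → ℝ≥0∞} (ι : α → β) (hι : Function.Injective ι)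
    (h : ∀ a, φ a ≤ ψ (ι a)) : nrm φ ≤ nrm ψ :=
  nrm_le (by rw [nrm_sq]; exact tsum_inj ι hι fun a => pow_le_pow_left' (h a) 2)

lemma nrm_prod (φ : α × β → ℝ≥0∞) : nrm (fun a => nrm fun b => φ (a, b)) = nrm φ := by
  rw [nrm, nrm, ENNReal.tsum_prod']
  simp only [nrm_sq]

lemma dual {A : α → ℝ≥0∞} {c : ℝ≥0∞} (h : ∀ φ, ∑' q, φ q * A q ≤ c * nrm φ) : nrm A ≤ c := by
  by_cases hc : c = ⊤
  · simp [hc]
  have fin : ∀ q, A q ≠ ⊤ := fun q => by
    have a1 := h fun p => if p = q then 1 else 0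
    have a2 : nrm (fun p => if p = q then 1 else 0) ≤ 1 := nrm_le (by simp)
    have a3 := a1.trans (mul_le_mul_right a2 c)
    simp only [ite_mul, one_mul, zero_mul, mul_one, tsum_ite_eq] at a3
    exact ne_top_of_le_ne_top hc a3
  refine nrm_le ?_
  rw [ENNReal.tsum_eq_iSup_sum]
  refine iSup_le fun s => ?_
  have e : nrm (fun p => if p ∈ s then A p else 0) ^ 2 = ∑ p ∈ s, A p ^ 2 := by
    rw [nrm_sq, tsum_eq_sum (s := s) fun p hp => by simp [hp]]
    exact Finset.sum_congr rfl fun p hp => by simp [hp]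
  have a1 := h fun p => if p ∈ s then A p else 0
  have a2 : ∑' q, (if q ∈ s then A q else 0) * A q = ∑ p ∈ s, A p ^ 2 := by
    rw [tsum_eq_sum (s := s) fun p hp => by simp [hp]]
    exact Finset.sum_congr rfl fun p hp => by simp [hp, sq]
  rw [a2, ← e] at a1
  rw [← e]
  refine pow_le_pow_left' ?_ 2
  generalize nrm (fun p => if p ∈ s then A p else 0) = b at e a1
  have a3 : b ≠ ⊤ := by
    rintro rfl
    have := ENNReal.sum_ne_top.2 fun p (_ : p ∈ s) => pow_ne_top (n := 2) (fin p)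
    simp [← e] at this
  by_cases h0 : b = 0
  · simp [h0]
  · rwa [sq, ENNReal.mul_le_mul_iff_left h0 a3] at a1

lemma nrm_cut {p : α → β → Prop} {n : ℕ} (h : ∀ a, {b | p a b}.encard ≤ n) (φ : α → ℝ≥0∞) :
    nrm (fun q : α × β => if p q.1 q.2 then φ q.1 else 0) ^ 2 ≤ n * nrm φ ^ 2 := by
  rw [nrm_sq, nrm_sq, ENNReal.tsum_prod', ← ENNReal.tsum_mul_left]
  refine ENNReal.tsum_le_tsum fun a => ?_
  simp only [ite_pow, ne_eq, OfNat.ofNat_ne_zero, not_false_eq_true, zero_pow]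
  exact tsum_ind (h a) _

lemma nrm_cut' {p : α → β → Prop} {n : ℕ} (h : ∀ a, {b | p a b}.encard ≤ n) (φ : α → ℝ≥0∞) :
    nrm (fun q : α × β => if p q.1 q.2 then φ q.1 else 0) ≤ n * nrm φ :=
  le_of_sq ((nrm_cut h φ).trans (by
    rw [mul_pow]
    exact mul_le_mul_left (by exact_mod_cast Nat.le_self_pow two_ne_zero _) _))

variable [Group G] [Group K]

/-- rapid decay for the action groupoid -/
def GRD (V : Type) [MulAction G V] (Bl : ℕ → G → Prop) : Prop :=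
  ∃ C s : ℕ, ∀ (r : ℕ) (F E H : V × G → ℝ≥0∞), (∀ p, F p ≠ 0 → Bl r p.2) →
    ∑' p : V × G × G, F (p.1, p.2.1) * E (p.2.1⁻¹ • p.1, p.2.2) * H (p.1, p.2.1 * p.2.2) ≤
      C * (1 + r) ^ s * (nrm F * nrm E * nrm H)

lemma grd_orbit {B : ℕ → G → Prop} {B' : ℕ → K → Prop} (φ : K →* G) (ρ : G → K)
    (h1 : ∀ g a, ρ (g * φ a) = ρ g * a) (h2 : ∀ r x g, B r x → ρ g = 1 → B' r (ρ (x * g)))
    (h : RDb B') : GRD (G ⧸ φ.range) B := by
  obtain ⟨C, s, h⟩ := h
  refine ⟨C, s, fun r F E H hF => ?_⟩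
  let rep : G ⧸ φ.range → G := fun a => a.out * φ (ρ a.out)⁻¹
  have r1 : ∀ a, ρ (rep a) = 1 := fun a => by simp only [rep, h1, mul_inv_cancel]
  have r2 : ∀ a, (rep a : G ⧸ φ.range) = a := fun a =>
    (QuotientGroup.mk_mul_of_mem _ (MonoidHom.mem_range.2 ⟨_, rfl⟩)).trans a.out_eq
  have r3 : ∀ a t, ρ (rep a * φ t) = t := fun a t => by rw [h1, r1, one_mul]
  have r4 : ∀ (x : G) a, rep a * φ (ρ (x * rep (x⁻¹ • a))) * (rep (x⁻¹ • a))⁻¹ = x := fun x a => by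
    have : ((rep a : G) : G ⧸ φ.range) = (x * rep (x⁻¹ • a) : G) := by
      rw [r2, ← smul_eq_mul, ← MulAction.Quotient.smul_mk, r2, smul_inv_smul]
    obtain ⟨t, ht⟩ := QuotientGroup.eq.1 this
    have e : x * rep (x⁻¹ • a) = rep a * φ t := by rw [ht, mul_inv_cancel_left]
    rw [e, r3, ← e, mul_inv_cancel_right]
  have r5 : ∀ a b t, (rep a * φ t * (rep b)⁻¹)⁻¹ • a = b := fun a b t => by
    rw [inv_smul_eq_iff]
    nth_rw 2 [← r2 b]
    rw [MulAction.Quotient.smul_mk, smul_eq_mul, inv_mul_cancel_right,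
      QuotientGroup.mk_mul_of_mem _ (MonoidHom.mem_range.2 ⟨_, rfl⟩), r2]
  let cut : ((G ⧸ φ.range) × G → ℝ≥0∞) → G ⧸ φ.range → G ⧸ φ.range → K → ℝ≥0∞ :=
    fun F a b t => F (a, rep a * φ t * (rep b)⁻¹)
  have nc : ∀ F, nrm (fun p : _ × _ => nrm (cut F p.1 p.2)) ≤ nrm F := fun F => by
    rw [nrm_prod fun p : (_ × _) × K => cut F p.1.1 p.1.2 p.2]
    refine nrm_inj (fun p => (p.1.1, rep p.1.1 * φ p.2 * (rep p.1.2)⁻¹)) ?_ fun _ => le_rfl
    rintro ⟨⟨a, b⟩, t⟩ ⟨⟨a', b'⟩, t'⟩ e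
    obtain ⟨rfl, e⟩ := Prod.mk.inj e
    obtain rfl : b = b' := by rw [← r5 a b t, e, r5]
    rw [← r3 a t, mul_right_cancel e, r3]
  calc _ ≤ ∑' p : (G ⧸ φ.range) × (G ⧸ φ.range) × (G ⧸ φ.range) × K × K,
        cut F p.1 p.2.1 p.2.2.2.1 * cut E p.2.1 p.2.2.1 p.2.2.2.2 *
          cut H p.1 p.2.2.1 (p.2.2.2.1 * p.2.2.2.2) := by
        refine tsum_inj (fun p => (p.1, p.2.1⁻¹ • p.1, p.2.2⁻¹ • p.2.1⁻¹ • p.1,
          ρ (p.2.1 * rep (p.2.1⁻¹ • p.1)), ρ (p.2.2 * rep (p.2.2⁻¹ • p.2.1⁻¹ • p.1)))) ?_ ?_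
        · rintro ⟨a, x, y⟩ ⟨a', x', y'⟩ e
          simp only [Prod.mk.injEq] at e
          obtain ⟨rfl, e1, e2, e3, e4⟩ := e
          obtain rfl : x = x' := by rw [← r4 x a, e3, e1, r4]
          obtain rfl : y = y' := by rw [← r4 y (x⁻¹ • a), e4, e2, r4]
          rfl
        · rintro ⟨a, x, y⟩
          have : rep a * φ (ρ (x * rep (x⁻¹ • a)) * ρ (y * rep (y⁻¹ • x⁻¹ • a))) *
              (rep (y⁻¹ • x⁻¹ • a))⁻¹ = x * y := by
            refine Eq.trans ?_ (congrArg₂ (· * ·) (r4 x a) (r4 y (x⁻¹ • a)))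
            simp only [map_mul, mul_assoc, inv_mul_cancel_left]
          simp only [cut, r4, this, le_refl]
    _ ≤ ∑' a, ∑' b, ∑' c, C * (1 + r) ^ s *
        (nrm (cut F a b) * nrm (cut E b c) * nrm (cut H a c)) := by
        simp only [ENNReal.tsum_prod']
        refine ENNReal.tsum_le_tsum fun a => ENNReal.tsum_le_tsum fun b =>
          ENNReal.tsum_le_tsum fun c => h _ _ _ _ fun t ht => ?_
        have := h2 r _ _ (hF _ ht) (r1 b)
        rwa [inv_mul_cancel_right, r3] at this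
    _ ≤ _ := by
        simp only [ENNReal.tsum_mul_left]
        exact mul_le_mul_right ((trace _ _ _).trans
          (mul_le_mul' (mul_le_mul' (nc F) (nc E)) (nc H))) _

lemma grd_sigma {T : Type} [Fintype T] {X : T → Type} [∀ t, MulAction G (X t)]
    {B : ℕ → G → Prop} (h : ∀ t, GRD (X t) B) : GRD (Σ t, X t) B := by
  choose C s h using h
  refine ⟨∑ t, C t, ∑ t, s t, fun r F E H hF => ?_⟩
  have n : ∀ (F : (Σ t, X t) × G → ℝ≥0∞) t, nrm (fun p : X t × G => F (⟨t, p.1⟩, p.2)) ≤ nrm F :=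
    fun F t => nrm_inj (fun p => (⟨t, p.1⟩, p.2)) (fun p q e => by
      simp only [Prod.mk.injEq, Sigma.mk.injEq, heq_eq_eq, true_and] at e
      exact Prod.ext e.1 e.2) fun _ => le_rfl
  rw [ENNReal.tsum_prod', ENNReal.tsum_sigma', tsum_fintype, Nat.cast_sum, Finset.sum_mul,
    Finset.sum_mul]
  refine Finset.sum_le_sum fun t _ => ?_
  have := h t r (fun p => F (⟨t, p.1⟩, p.2)) (fun p => E (⟨t, p.1⟩, p.2))
    (fun p => H (⟨t, p.1⟩, p.2)) fun p hp => hF _ hp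
  rw [ENNReal.tsum_prod'] at this
  refine this.trans (mul_le_mul' (mul_le_mul_right (pow_le_pow_right' le_self_add ?_) _)
    (mul_le_mul' (mul_le_mul' (n F t) (n E t)) (n H t)))
  exact Finset.single_le_sum (fun _ _ => Nat.zero_le _) (Finset.mem_univ t)

variable [MulAction G V]

def TriT (T : V → V → V → Prop) (F E H : G × V × V → ℝ≥0∞) : ℝ≥0∞ :=
  ∑' p : (G × G) × V × V × V, if T p.2.1 (p.1.1 • p.2.2.1) ((p.1.1 * p.1.2) • p.2.2.2) then
    F (p.1.1, p.2.1, p.2.2.1) * E (p.1.2, p.2.2.1, p.2.2.2) * H (p.1.1 * p.1.2, p.2.1, p.2.2.2)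
    else 0

lemma med_step {B : ℕ → G → Prop} (h : GRD V B) : ∃ C s : ℕ, ∀ (I : V → V → V → Prop) (n r : ℕ),
    (∀ (g : G) a b m, I a b m → I (g • a) (g • b) (g • m)) → (∀ a b, {m | I a b m}.encard ≤ n) →
    ∀ F E H : G × V × V → ℝ≥0∞, (∀ p, F p ≠ 0 → B r p.1) →
    TriT (fun a b c => ∃ m, I a b m ∧ I b c m ∧ I a c m) F E H ≤
      C * (1 + r) ^ s * n ^ 3 * (nrm F * nrm E * nrm H) := by
  obtain ⟨C, s, h⟩ := h
  refine ⟨C, s, fun I n r hI hn F E H hF => ?_⟩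
  let cut : (G × V × V → ℝ≥0∞) → V × G → V → V → ℝ≥0∞ := fun F p a b =>
    if I a (p.2 • b) p.1 then F (p.2, a, b) else 0
  let N : (G × V × V → ℝ≥0∞) → V × G → ℝ≥0∞ := fun F p => nrm fun q : V × V => cut F p q.1 q.2
  have nc : ∀ F, nrm (N F) ≤ n * nrm F := fun F => by
    rw [nrm_prod fun p : (V × G) × V × V => cut F p.1 p.2.1 p.2.2]
    refine le_trans (nrm_inj (fun p => ((p.1.2, p.2), p.1.1)) ?_ fun _ => le_rfl)
      (nrm_cut' (p := fun (q : G × V × V) m => I q.2.1 (q.1 • q.2.2) m) (fun _ => hn _ _) F)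
    rintro ⟨⟨a, b⟩, c⟩ ⟨⟨a', b'⟩, c'⟩ e
    simp only [Prod.mk.injEq] at e ⊢
    tauto
  have ex : ∀ a b c, ∃ m, (∃ m, I a b m ∧ I b c m ∧ I a c m) → I a b m ∧ I b c m ∧ I a c m :=
    fun a b c => by
      by_cases e : ∃ m, I a b m ∧ I b c m ∧ I a c m
      exacts [e.imp fun _ h _ => h, ⟨a, fun h => (e h).elim⟩]
  choose μ hμ using ex
  calc _ ≤ ∑' p : (V × G × G) × V × V × V, cut F (p.1.1, p.1.2.1) p.2.1 p.2.2.1 *
        cut E (p.1.2.1⁻¹ • p.1.1, p.1.2.2) p.2.2.1 p.2.2.2 *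
          cut H (p.1.1, p.1.2.1 * p.1.2.2) p.2.1 p.2.2.2 := by
        refine tsum_inj (fun p => ((μ p.2.1 (p.1.1 • p.2.2.1) ((p.1.1 * p.1.2) • p.2.2.2), p.1),
          p.2)) (fun p q e => Prod.ext (congrArg (·.1.2) e) (congrArg (·.2) e)) ?_
        rintro ⟨⟨x, y⟩, a, b, c⟩
        split_ifs with e
        · obtain ⟨h1, h2, h3⟩ := hμ _ _ _ e
          have h4 := hI x⁻¹ _ _ _ h2
          rw [inv_smul_smul, mul_smul, inv_smul_smul, ← mul_smul] at h4
          simp only [cut, h1, h3, h4, if_true, le_refl]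
        · exact zero_le
    _ ≤ ∑' p : V × G × G, N F (p.1, p.2.1) * N E (p.2.1⁻¹ • p.1, p.2.2) *
        N H (p.1, p.2.1 * p.2.2) := by
        rw [ENNReal.tsum_prod']
        refine ENNReal.tsum_le_tsum fun p => le_trans (le_of_eq ?_) (trace _ _ _)
        simp only [ENNReal.tsum_prod']
    _ ≤ C * (1 + r) ^ s * (n * nrm F * (n * nrm E) * (n * nrm H)) := by
        refine (h r _ _ _ fun p hp => by_contra fun e => hp ?_).trans (mul_le_mul_right
          (mul_le_mul' (mul_le_mul' (nc F) (nc E)) (nc H)) _)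
        refine le_antisymm (nrm_le (le_of_eq ?_)) zero_le
        have : ∀ a b, F (p.2, a, b) = 0 := fun a b => by_contra fun e' => e (hF _ e')
        simp [cut, this]
    _ = _ := by ring

lemma tt {B : ℕ → G → Prop} (hB : IsBall B) (h1 : ∀ r, B r 1) {T T' : V → V → V → Prop}
    (hT : ∀ a b b' c, T a b c → T a b' c → T' a b b' ∧ T' b b' c)
    (hI : ∀ (g : G) a b c, T' a b c → T' (g • a) (g • b) (g • c)) {r : ℕ} {c : ℝ≥0∞}
    (h : ∀ F E H : G × V × V → ℝ≥0∞, (∀ p, F p ≠ 0 → B (r + r) p.1) →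
      TriT T' F E H ≤ c * (nrm F * nrm E * nrm H)) (F E H : G × V × V → ℝ≥0∞)
    (hF : ∀ p, F p ≠ 0 → B r p.1) : TriT T F E H ≤ c * (nrm F * nrm E * nrm H) := by
  let k : G × V × V → G × V → ℝ≥0∞ := fun q p => if T q.2.1 (p.1 • p.2) (q.1 • q.2.2) then
    F (p.1, q.2.1, p.2) * E (p.1⁻¹ * q.1, p.2, q.2.2) else 0
  let a : G × V × V → G × V → ℝ≥0∞ := fun q p =>
    if T' p.2 (p.1 • q.2.1) ((p.1 * q.1) • q.2.2) then
      F (p.1, p.2, q.2.1) * F (p.1 * q.1, p.2, q.2.2) else 0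
  have s1 : TriT T F E H ≤ ∑' q, (∑' p, k q p) * H q := by
    simp only [← ENNReal.tsum_mul_right]
    rw [← ENNReal.tsum_prod]
    refine tsum_inj (fun p => ((p.1.1 * p.1.2, p.2.1, p.2.2.2), (p.1.1, p.2.2.1))) ?_ ?_
    · rintro ⟨⟨x, y⟩, a, b, c⟩ ⟨⟨x', y'⟩, a', b', c'⟩ e
      simp only [Prod.mk.injEq] at e ⊢
      obtain ⟨⟨e1, rfl, rfl⟩, rfl, rfl⟩ := e
      simpa using e1
    · rintro ⟨⟨x, y⟩, a, b, c⟩
      simp [k]
  have s2 : nrm (fun q => ∑' p, a q p) ≤ c * (nrm F * nrm F) := dual fun φ => by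
    have := h F φ F fun p hp => by simpa using hB.mul _ _ _ _ (hF p hp) (h1 r)
    refine le_trans ?_ (this.trans (le_of_eq (by ring)))
    simp only [← ENNReal.tsum_mul_left]
    rw [← ENNReal.tsum_prod]
    refine tsum_inj (fun p => ((p.2.1, p.1.1), p.2.2, p.1.2)) ?_ ?_
    · rintro ⟨⟨x, a, b⟩, y, c⟩ ⟨⟨x', a', b'⟩, y', c'⟩ e
      simp only [Prod.mk.injEq] at e ⊢
      tauto
    · rintro ⟨⟨x, u, v⟩, y, w⟩
      simp only [a]
      split_ifs
      exacts [le_of_eq (by ring), by simp]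
  have s3 : nrm (fun q => ∑' p, k q p) ^ 2 ≤ TriT T' (fun q => ∑' p, a q p) E E := by
    rw [nrm_sq]
    simp only [sq, ← ENNReal.tsum_mul_left, ← ENNReal.tsum_mul_right]
    calc _ = ∑' p : (G × V × V) × (G × V) × G × V, k p.1 p.2.2 * k p.1 p.2.1 := by
          simp only [ENNReal.tsum_prod' (β := (G × V) × G × V), ENNReal.tsum_prod' (α := G × V)]
      _ ≤ ∑' p : ((G × G) × V × V × V) × G × V,
          if T' p.1.2.1 (p.1.1.1 • p.1.2.2.1) ((p.1.1.1 * p.1.1.2) • p.1.2.2.2) then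
            a (p.1.1.1, p.1.2.1, p.1.2.2.1) p.2 * E (p.1.1.2, p.1.2.2.1, p.1.2.2.2) *
              E (p.1.1.1 * p.1.1.2, p.1.2.1, p.1.2.2.2) else 0 := by
          refine tsum_inj (fun p => (((p.2.1.1⁻¹ * p.2.2.1, p.2.2.1⁻¹ * p.1.1), p.2.1.2, p.2.2.2,
            p.1.2.2), p.2.1.1, p.1.2.1)) ?_ ?_
          · rintro ⟨⟨z, u, w⟩, ⟨x, v⟩, y, t⟩ ⟨⟨z', u', w'⟩, ⟨x', v'⟩, y', t'⟩ e
            simp only [Prod.mk.injEq] at e ⊢
            obtain ⟨⟨⟨e1, e2⟩, rfl, rfl, rfl⟩, rfl, rfl⟩ := e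
            obtain rfl := mul_left_cancel e1
            simpa using e2
          · rintro ⟨⟨z, u, w⟩, ⟨x, v⟩, y, t⟩
            simp only [k, a]
            by_cases e1 : T u (y • t) (z • w)
            · by_cases e2 : T u (x • v) (z • w)
              · obtain ⟨e3, e4⟩ := hT _ _ _ _ e2 e1
                have e5 := hI x⁻¹ _ _ _ e4
                rw [inv_smul_smul, ← mul_smul, ← mul_smul] at e5
                simp only [e1, e2, if_true, mul_inv_cancel_left, mul_assoc x⁻¹, e3, e5]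
                exact le_of_eq (by ring)
              · simp [e2]
            · simp [e1]
      _ = _ := by
          rw [ENNReal.tsum_prod', TriT]
          refine tsum_congr fun p => ?_
          split_ifs
          · simp only [ENNReal.tsum_mul_right]
          · simp
  have s4 := h (fun q => ∑' p, a q p) E E fun q hq => by
    obtain ⟨p, hp⟩ : ∃ p, a q p ≠ 0 := by
      by_contra e
      push Not at e
      simp [e] at hq
    simp only [a, ne_eq, ite_eq_right_iff, Classical.not_imp, mul_eq_zero, not_or] at hp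
    simpa using hB.mul _ _ _ _ (hB.inv _ _ (hF _ hp.2.1)) (hF _ hp.2.2)
  refine s1.trans ((cs _ _).trans ?_)
  rw [← mul_assoc]
  refine mul_le_mul_left (le_of_sq ((s3.trans s4).trans ?_)) _
  calc _ ≤ c * (c * (nrm F * nrm F) * nrm E * nrm E) := by gcongr
    _ = _ := by ring

theorem rd_of_sys {d : V → V → ℕ} {κ : V → V → Option Bool} (S : Sys d κ) {T : Type} [Fintype T]
    {ty : V → T} (hty : ∀ a b, d a b ≤ 1 → ty a = ty b → a = b)
    (hd : ∀ (g : G) a b, d (g • a) (g • b) = d a b) {B : ℕ → G → Prop} (hB : IsBall B)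
    (h1 : ∀ r, B r 1) (o : V) (ho : ∀ r x, B r x → d o (x • o) ≤ 2 * r) (h : GRD V B) : RDb B := by
  obtain ⟨C, s, h⟩ := med_step h
  set D := Fintype.card T
  refine ⟨2 * D ^ 3 * (C * (2 + 1) ^ s) * (16 * D ^ 2) ^ 6, s + 13, fun r f g u hf => ?_⟩
  have sy := S.symm
  let I : V → V → V → Prop := fun a b m => d a m + d m b = d a b ∧ d a m ≤ 2 * r
  set n := (2 * r + 1) * ((2 * (2 * r) + 1) * (D * (D * 2))) with hn
  have cnt : ∀ a b, {m | I a b m}.encard ≤ n := S.count hty (2 * r)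
  have inv : ∀ (g : G) a b m, I a b m → I (g • a) (g • b) (g • m) := fun g a b m h => by
    simpa only [I, hd] using h
  let Tc : Fin (2 * r + 1) × T × T × T → V → V → V → Prop := fun c u v w =>
    Fl d v u w c.1 ∧ ty v = c.2.1 ∧ ∃ P Q, ty P = c.2.2.1 ∧ ty Q = c.2.2.2 ∧
      ((c.1 : ℕ) ≠ 0 → d v P = 1 ∧ d P u + 1 = c.1 ∧ d v Q = 1 ∧ d Q w + 1 = c.1)
  have b1 := fun c => tt hB h1 (T := Tc c) (r := r) (fun u v v' w => ?_) (fun g a b c =>
    fun ⟨m, h1, h2, h3⟩ => ⟨g • m, inv _ _ _ _ h1, inv _ _ _ _ h2, inv _ _ _ _ h3⟩)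
    (h I n (r + r) inv cnt)
  swap
  · rintro ⟨a1, a2, P, Q, a3, a4, a5⟩ ⟨b1, b2, P', Q', b3, b4, b5⟩
    obtain ⟨m, m1, m2, m3⟩ := S.med hty a1 b1 (a2.trans b2.symm) (a3.trans b3.symm)
      (a4.trans b4.symm) a5 b5
    obtain ⟨k, k1, k2, k3⟩ := S.med hty (a1.symm S) (b1.symm S) (a2.trans b2.symm)
      (a4.trans b4.symm) (a3.trans b3.symm) (fun h => by have := a5 h; tauto)
      fun h => by have := b5 h; tauto
    have c1 := a1.l S
    have c2 := a1.r S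
    have c3 := b1.l S
    have c4 := b1.r S
    have c5 := c.1.2
    exact ⟨⟨m, ⟨m1, by grind⟩, ⟨m3, by grind⟩, m2, by grind⟩,
      k, ⟨k3, by grind⟩, ⟨by grind, by grind⟩, by grind, by grind⟩
  let cut : (G → ℝ≥0∞) → G × V × V → ℝ≥0∞ := fun φ p =>
    if I o (p.1 • o) p.2.1 ∧ I o (p.1 • o) (p.1 • p.2.2) then φ p.1 else 0
  have nc : ∀ φ, nrm (cut φ) ≤ n * nrm φ := fun φ => by
    have := nrm_cut
      (p := fun (x : G) (q : V × V) => I o (x • o) q.1 ∧ I o (x • o) (x • q.2)) (n := n * n)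
      (fun x => ?_) φ
    · refine le_of_sq ?_
      rw [mul_pow, sq (n : ℝ≥0∞), ← Nat.cast_mul]
      convert this
    refine (Set.encard_le_encard_of_injOn (f := fun q : V × V => (q.1, x • q.2))
      (t := {m | I o (x • o) m} ×ˢ {m | I o (x • o) m}) (fun q hq => hq) ?_).trans ?_
    · rintro ⟨a, b⟩ - ⟨a', b'⟩ - e
      simpa using e
    · rw [Set.encard_prod]
      push_cast
      exact mul_le_mul' (cnt _ _) (cnt _ _)
  have ex : ∀ p : G × G, ∃ q : (Fin (2 * r + 1) × T × T × T) × V × V × V, f p.1 ≠ 0 →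
      Tc q.1 q.2.1 (p.1 • q.2.2.1) ((p.1 * p.2) • q.2.2.2) ∧
      cut f (p.1, q.2.1, q.2.2.1) = f p.1 ∧ cut g (p.2, q.2.2.1, q.2.2.2) = g p.2 ∧
      cut u (p.1 * p.2, q.2.1, q.2.2.2) = u (p.1 * p.2) := by
    rintro ⟨x, y⟩
    by_cases e : f x = 0
    · exact ⟨((0, ty o, ty o, ty o), o, o, o), fun h => (h e).elim⟩
    have a0 := ho _ _ (hf x e)
    obtain ⟨a, b, c, k, a1, a2, a3, a4⟩ := S.qm o (x • o) ((x * y) • o)
    have c1 := a1.l S
    have c2 := a1.r S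
    have c3 := a1.1
    have st : ∀ a, d b a = k → ∃ P, k ≠ 0 → d b P = 1 ∧ d P a + 1 = k := fun a h => by
      cases k with
      | zero => exact ⟨a, by simp⟩
      | succ k => exact (S.step h).imp fun P h _ => ⟨h.1, by omega⟩
    obtain ⟨P, hP⟩ := st a c1
    obtain ⟨Q, hQ⟩ := st c c2
    refine ⟨((⟨k, by omega⟩, ty b, ty P, ty Q), a, x⁻¹ • b, (x * y)⁻¹ • c), fun _ => ?_⟩
    simp only [smul_inv_smul]
    have t := S.tri
    refine ⟨⟨a1, rfl, P, Q, rfl, rfl, fun h => by have := hP h; have := hQ h; tauto⟩,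
      if_pos ?_, if_pos ?_, if_pos ?_⟩
    · simp only [I, smul_inv_smul]
      have := t a b (x • o)
      have := t o a b
      have := t o a (x • o)
      have := t o b (x • o)
      grind
    · simp only [I]
      rw [← hd x o, ← hd x o, ← hd x o, ← hd x (x⁻¹ • b), ← hd x (y • _)]
      simp only [← mul_smul, ← mul_assoc, mul_inv_cancel, one_smul]
      have := t b c ((x * y) • o)
      have := t (x • o) b c
      have := t (x • o) b ((x * y) • o)
      have := t (x • o) c ((x * y) • o)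
      grind
    · simp only [I, smul_inv_smul]
      have := t a c ((x * y) • o)
      have := t o a c
      have := t o a ((x * y) • o)
      have := t o c ((x * y) • o)
      grind
  choose q hq using ex
  have hn' : (n : ℝ≥0∞) ≤ 16 * D ^ 2 * (1 + r) ^ 2 := by
    have : n ≤ 16 * D ^ 2 * (1 + r) ^ 2 := by
      rw [hn]
      have : (2 * r + 1) * (2 * (2 * r) + 1) ≤ 8 * (1 + r) ^ 2 := by nlinarith
      nlinarith [Nat.mul_le_mul_right (D ^ 2) this]
    exact_mod_cast this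
  calc _ ≤ ∑' c, TriT (Tc c) (cut f) (cut g) (cut u) := by
        rw [Tri, ← ENNReal.tsum_prod]
        simp only [TriT]
        rw [← ENNReal.tsum_prod]
        refine tsum_inj (fun p => ((q p).1, p, (q p).2)) (fun p p' e => congrArg (·.2.1) e)
          fun p => ?_
        by_cases e : f p.1 = 0
        · simp [e]
        · obtain ⟨a1, a2, a3, a4⟩ := hq p e
          simp only [a1, a2, a3, a4, if_true, le_refl]
    _ ≤ ∑' _ : Fin (2 * r + 1) × T × T × T, C * (1 + (2 * r : ℕ)) ^ s * n ^ 3 *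
        (n * nrm f * (n * nrm g) * (n * nrm u)) := by
        refine ENNReal.tsum_le_tsum fun c => (b1 c _ _ _ fun p hp => hf _ fun e => hp ?_).trans ?_
        · simp [cut, e]
        · rw [two_mul]
          exact mul_le_mul_right (mul_le_mul' (mul_le_mul' (nc f) (nc g)) (nc u)) _
    _ = (2 * r + 1 : ℕ) * D ^ 3 * (C * (1 + (2 * r : ℕ)) ^ s) * n ^ 6 *
        (nrm f * nrm g * nrm u) := by
        rw [tsum_fintype, Finset.sum_const, Finset.card_univ, nsmul_eq_mul]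
        simp only [Fintype.card_prod, Fintype.card_fin]
        push_cast
        ring
    _ ≤ (2 * (1 + r)) * D ^ 3 * (C * (((2 + 1) ^ s : ℕ) * (1 + r) ^ s)) *
        (16 * D ^ 2 * (1 + r) ^ 2) ^ 6 * (nrm f * nrm g * nrm u) := by
        gcongr
        · exact_mod_cast (by omega : 2 * r + 1 ≤ 2 * (1 + r))
        · exact pw_le 2 r s
    _ = _ := by
        push_cast
        ring

end

end Pool.Agent.Lib.MP_35cce7_an
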