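import Pool.Agent.Lib.MP_35cce7_an.KInd
import Pool.Agent.Lib.MP_35cce7_an.SysRD

/-! Rapid decay passes from three parabolic subgroups to the group along a label at least five. -/

namespace Pool.Agent.Lib.MP_35cce7_an.K

section
variable {G : Type} [Group G] {U W : Subgroup G} {c : ℕ}

theorem mn_g4 (h : G4 U W) : G4 W U := fun w₁ a₁ u₁ b₁ w₂ a₂ u₂ b₂ w₃ a₃ u₃ b₃ w₄ a₄ u₄ b₄ e => by
  have := h u₁ b₁ w₂ a₂ u₂ b₂ w₃ a₃ u₃ b₃ w₄ a₄ u₄ b₄ w₁ a₁ (by
    rw [mul_eq_one_comm]; simpa only [mul_assoc] using e)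
  tauto

theorem mn_sel (h : Sel c U W) : Sel c W U := by
  obtain ⟨σ, a1, a2⟩ := h
  exact ⟨fun x => ¬ σ x, a2, by simpa only [not_not] using a1⟩

end

variable {B : Type} {M : CoxeterMatrix B} {a b : B}

theorem Good.mono {F F' : Set B} (h : Good M b F) (s : F' ⊆ F) : Good M b F' := by
  induction h generalizing F' with
  | mk b F h0 h1 _ ih =>
  exact ⟨_, _, fun k => h0 (s k), fun c k => h1 c (s k),
    fun c k e => ih c (s k) e fun _ p => ⟨s p.1, p.2⟩⟩

theorem mn_inf {S T R : Set B} (h : S ∩ T = R) : par M S ⊓ par M T = par M R := by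
  subst h
  exact le_antisymm (fun _ h => par_inf h.1 h.2) fun _ h =>
    ⟨par_mono Set.inter_subset_left h, par_mono Set.inter_subset_right h⟩

/-- the generating sets of the triangle at the edge `a`, `b` -/
def mnX (M : CoxeterMatrix B) (a b : B) : Option Bool → Set B
  | none => {b}ᶜ
  | some true => {a}ᶜ
  | some false => insert a (insert b {e | M b e = 2})

theorem rd_tri [Finite B] (hb : Good M b {b}ᶜ) (h5 : 5 ≤ M a b)
    (h : ∀ i, RDb (Ball (gn (sub M (· ∈ mnX M a b i))))) : RDb (Ball (gn M)) := by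
  have s5 : 5 ≤ M b a := M.symmetric a b ▸ h5
  have d : M b b = 1 := M.diagonal b
  have ab : a ≠ b := by
    rintro rfl
    omega
  let P := fun i => par M (mnX M a b i)
  have e1 : P (some false) ⊓ P (some true) = par M (insert b {e | M b e = 2}) :=
    mn_inf (by ext x; simp only [mnX, Set.mem_inter_iff, Set.mem_insert_iff, Set.mem_ofPred_eq,
                 Set.mem_compl_iff, Set.mem_singleton_iff]
               grind)
  have e2 : P (some false) ⊓ P none = par M (insert a {e | M b e = 2}) :=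
    mn_inf (by ext x; simp only [mnX, Set.mem_inter_iff, Set.mem_insert_iff, Set.mem_ofPred_eq,
                 Set.mem_compl_iff, Set.mem_singleton_iff]
               grind)
  have e3 : P (some true) ⊓ P none = par M ({a}ᶜ ∩ {b}ᶜ) := mn_inf rfl
  have o1 := (hb.mono (F' := {a}ᶜ ∩ {b}ᶜ) Set.inter_subset_right).out
  have o2 := (hb.mono (F' := insert a {e | M b e = 2}) (by
    intro x
    simp only [Set.mem_insert_iff, Set.mem_ofPred_eq, Set.mem_compl_iff, Set.mem_singleton_iff]
    grind)).out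
  rw [show {e | e ∈ ({a}ᶜ ∩ {b}ᶜ : Set B) ∧ M b e = 2} = {e | M b e = 2} by
    ext x
    simp only [Set.mem_inter_iff, Set.mem_ofPred_eq, Set.mem_compl_iff, Set.mem_singleton_iff]
    grind] at o1
  rw [show {e | e ∈ insert a {e | M b e = 2} ∧ M b e = 2} = {e | M b e = 2} by
    ext x
    simp only [Set.mem_insert_iff, Set.mem_ofPred_eq]
    grind] at o2
  have hp : ∀ x ∈ (Set.univ : Set B), ∀ y ∈ (Set.univ : Set B),
      ∃ i, x ∈ mnX M a b i ∧ y ∈ mnX M a b i := fun x _ y _ => by
    by_cases p : x ≠ b ∧ y ≠ b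
    · exact ⟨none, p⟩
    by_cases q : x ≠ a ∧ y ≠ a
    · exact ⟨some true, q⟩
    refine ⟨some false, ?_⟩
    simp only [mnX, Set.mem_insert_iff]
    grind
  have hF : GF P none (some true) := by
    refine ⟨by simp, fun g => ?_, Q.scc_par M Set.univ (mnX M a b) (fun _ => Set.subset_univ _) hp
      id Function.injective_id (fun c h _ => ⟨c * h, rfl⟩) _ fun i c c' => ?_, ?_, ?_, ?_⟩
    · refine (Subgroup.closure_le _).2 ?_ (par_univ (M := M) g)
      rintro _ ⟨x, hx, rfl⟩
      obtain ⟨i, hi, -⟩ := hp x hx x hx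
      exact Subgroup.mem_iSup_of_mem i (gn_mem hi)
    · rw [Sigma.mk.injEq, heq_eq_eq, QuotientGroup.eq]
      exact and_iff_right rfl
    · rintro (_ | _ | _) n1 n2
      · exact absurd rfl n1
      · refine ⟨P none, ?_, inf_le_right⟩
        rintro (_ | _ | _) m1 m2
        exacts [le_rfl, absurd rfl m1, absurd rfl m2]
      · exact absurd rfl n2
    · rintro (_ | _ | _) n1 n2
      · exact absurd rfl n1
      · rw [inf_comm, e1, e3]
        exact ind_symm o1.1
      · exact absurd rfl n2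
    · rintro (_ | _ | _) n1 n2
      · exact absurd rfl n1
      · rw [e1, e2]
        exact ind_symm o2.1
      · exact absurd rfl n2
  refine hF.rd (c := 4) (j := some false) (by rintro (_ | _ | _) <;> simp) (by simp) (by simp)
    ?_ ?_ ?_ _ (fun x => (hp x trivial x trivial).imp fun i p => gn_mem p.1)
    (grd_sigma fun i => ?_)
  · rw [e1, e2]
    refine mn_g4 (o2.2.2 ?_)
    rintro c (rfl | k)
    · omega
    · exact fun e => absurd (e.symm.trans k) (by decide)
  · rw [e1, e2]
    exact mn_sel o2.2.1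
  · rw [inf_comm, e1, e3]
    exact mn_sel o1.2.1
  · obtain ⟨ρ, r1, r2⟩ := (subE M (· ∈ mnX M a b i)).retr2
    have := grd_orbit _ ρ r1 r2 (h i)
    rwa [Emb.range_hom, show Set.range (subE M (· ∈ mnX M a b i)).e = mnX M a b i from
      Subtype.range_coe] at this

end Pool.Agent.Lib.MP_35cce7_an.K
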