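import Pool.Agent.Lib.MP_35cce7_an.QDefs

/-! Rapid decay follows from the bound with all three supports in balls. -/

namespace Pool.Agent.Lib.MP_35cce7_an.Q

open ENNReal Classical

variable {G : Type} [Group G]

namespace An

/-- convolution -/
noncomputable def cv (f g : G → ℝ≥0∞) (z : G) : ℝ≥0∞ := ∑' x, f x * g (x⁻¹ * z)

lemma tri_eq (f g u : G → ℝ≥0∞) : Tri f g u = ∑' z, cv f g z * u z := by
  simp only [Tri, cv, ← ENNReal.tsum_mul_right]
  rw [ENNReal.tsum_comm (f := fun z x => f x * g (x⁻¹ * z) * u z)]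
  refine tsum_congr fun x => ?_
  rw [← (Equiv.mulLeft x).tsum_eq fun z => f x * g (x⁻¹ * z) * u z]
  simp

lemma tri_adj (f g u : G → ℝ≥0∞) : Tri f g u = ∑' w, cv (fun x => f x⁻¹) u w * g w := by
  simp only [Tri, cv, ← ENNReal.tsum_mul_right]
  rw [ENNReal.tsum_comm]
  refine tsum_congr fun w => ?_
  rw [← (Equiv.inv G).tsum_eq fun x => f x⁻¹ * u (x⁻¹ * w) * g w]
  simp [mul_right_comm]

lemma cv_assoc (a b c : G → ℝ≥0∞) : cv (cv a b) c = cv a (cv b c) := by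
  funext w
  simp only [cv, ← ENNReal.tsum_mul_right, ← ENNReal.tsum_mul_left]
  rw [ENNReal.tsum_comm]
  refine tsum_congr fun x => ?_
  rw [← (Equiv.mulLeft x).tsum_eq fun t => a x * b (x⁻¹ * t) * c (t⁻¹ * w)]
  simp [mul_assoc]

lemma nrm_inv (f : G → ℝ≥0∞) : nrm (fun x => f x⁻¹) = nrm f := by
  rw [nrm, nrm, ← (Equiv.inv G).tsum_eq fun x => f x ^ 2]
  rfl

lemma sq_le (f g : G → ℝ≥0∞) :
    nrm (cv f g) ^ 2 ≤ nrm (cv (cv (fun x => f x⁻¹) f) g) * nrm g := by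
  rw [nrm_sq]
  simp only [sq]
  rw [← tri_eq, tri_adj, cv_assoc]
  exact cs _ _

lemma young (f g : G → ℝ≥0∞) : nrm (cv f g) ≤ nrm f * ∑' y, g y := by
  refine dual fun φ => ?_
  simp only [mul_comm (φ _)]
  rw [← tri_eq, Tri, ENNReal.tsum_comm, mul_right_comm, ← ENNReal.tsum_mul_left]
  refine ENNReal.tsum_le_tsum fun y => ?_
  simp only [mul_right_comm _ (g y), ENNReal.tsum_mul_right]
  refine mul_le_mul_left ((cs _ _).trans (le_of_eq ?_)) _
  rw [nrm, nrm, nrm, ← (Equiv.mulRight y).tsum_eq fun y => φ y ^ 2]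
  rfl

lemma lim {x D n S : ℝ≥0∞} (hn : n ≠ 0) (hS : S ≠ ⊤)
    (h : ∀ k : ℕ, x ^ 2 ^ k * n ≤ D ^ 2 ^ k * S) : x ≤ D := by
  by_contra e
  rw [not_le] at e
  have d1 : D ≠ ⊤ := e.ne_top
  by_cases d0 : D = 0
  · have := h 0
    simp [d0, hn] at this
    simp [this] at e
  have a : 1 < x / D := by
    rwa [ENNReal.lt_div_iff_mul_lt (Or.inl d0) (Or.inl d1), one_mul]
  have t := (ENNReal.tendsto_pow_atTop_nhds_top_iff.2 a).comp
    (tendsto_pow_atTop_atTop_of_one_lt (one_lt_two (α := ℕ)))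
  refine (ENNReal.div_lt_top hS hn).not_ge (le_of_tendsto' t fun k => ?_)
  rw [Function.comp, ENNReal.le_div_iff_mul_le (Or.inl hn) (Or.inr hS), div_eq_mul_inv, mul_pow,
    ← ENNReal.inv_pow, mul_right_comm, ← div_eq_mul_inv,
    ENNReal.div_le_iff_le_mul (Or.inl (pow_ne_zero _ d0)) (Or.inl (pow_ne_top d1)), mul_comm S]
  exact h k

/-- the doubling sequence -/
noncomputable def db (f : G → ℝ≥0∞) : ℕ → G → ℝ≥0∞
  | 0 => f
  | k + 1 => cv (fun x => db f k x⁻¹) (db f k)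

omit [Group G] in
lemma le_nrm (f : G → ℝ≥0∞) (x : G) : f x ≤ nrm f :=
  le_of_sq (by rw [nrm_sq]; exact ENNReal.le_tsum x)

variable {B : ℕ → G → Prop} {C s r : ℕ} {f : G → ℝ≥0∞}

lemma db_supp (hB : IsBall B) (hf : ∀ x, f x ≠ 0 → B r x) (k : ℕ) :
    ∀ x, db f k x ≠ 0 → B (2 ^ k * r) x := by
  induction k with
  | zero => simpa [db] using hf
  | succ k ih =>
    intro z hz
    simp only [db, cv, ne_eq, ENNReal.tsum_eq_zero, not_forall, mul_eq_zero, not_or] at hz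
    obtain ⟨x, h, h'⟩ := hz
    have := hB.mul _ _ _ _ (hB.inv _ _ (ih _ h)) (ih _ h')
    rwa [inv_inv, mul_inv_cancel_left, ← two_mul, ← mul_assoc, ← pow_succ'] at this

lemma db_nrm (hB : IsBall B) (h1 : ∀ r, B r 1)
    (h : ∀ (r : ℕ) (f g u : G → ℝ≥0∞), (∀ x, f x ≠ 0 → B r x) → (∀ x, g x ≠ 0 → B r x) →
      (∀ x, u x ≠ 0 → B r x) → Tri f g u ≤ C * (1 + r) ^ s * (nrm f * nrm g * nrm u))
    (hf : ∀ x, f x ≠ 0 → B r x) (k : ℕ) :
    nrm (db f (k + 1)) ≤ (C + 1) * (1 + r) ^ s * 2 ^ (s * (k + 1)) * nrm (db f k) ^ 2 := by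
  have up : ∀ x, db f k x ≠ 0 → B (2 ^ (k + 1) * r) x := fun x hx => by
    have := hB.mul _ _ _ _ (db_supp hB hf k x hx) (h1 (2 ^ k * r))
    rwa [mul_one, ← two_mul, ← mul_assoc, ← pow_succ'] at this
  refine dual fun φ => ?_
  have a := h (2 ^ (k + 1) * r) (fun x => db f k x⁻¹) (db f k)
    (fun x => if B (2 ^ (k + 1) * r) x then φ x else 0)
    (fun x hx => by simpa using hB.inv _ _ (up _ hx)) up fun x hx => by
      by_contra e
      exact hx (if_neg e)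
  rw [tri_eq, nrm_inv] at a
  refine le_trans (ENNReal.tsum_le_tsum fun x => ?_) (a.trans ?_)
  · by_cases e : db f (k + 1) x = 0
    · simp [e]
    · rw [if_pos (db_supp hB hf _ x e), mul_comm]
      rfl
  · rw [← sq, ← mul_assoc, mul_assoc (C + 1 : ℝ≥0∞), mul_comm s, pow_mul, ← mul_pow]
    refine mul_le_mul' (mul_le_mul_left (mul_le_mul' le_self_add (pow_le_pow_left' ?_ s)) _)
      (nrm_inj id Function.injective_id fun x => by split_ifs <;> simp)
    have : 1 + 2 ^ (k + 1) * r ≤ (1 + r) * 2 ^ (k + 1) := by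
      have := Nat.one_le_two_pow (n := k + 1)
      nlinarith
    exact_mod_cast this

lemma cv_le (hB : IsBall B) (h1 : ∀ r, B r 1)
    (h : ∀ (r : ℕ) (f g u : G → ℝ≥0∞), (∀ x, f x ≠ 0 → B r x) → (∀ x, g x ≠ 0 → B r x) →
      (∀ x, u x ≠ 0 → B r x) → Tri f g u ≤ C * (1 + r) ^ s * (nrm f * nrm g * nrm u))
    (hf : ∀ x, f x ≠ 0 → B r x) {g : G → ℝ≥0∞} (hg : ∑' y, g y ≠ ⊤) :
    nrm (cv f g) ≤ (C + 1) * (1 + r) ^ s * 2 ^ (s * 2) * nrm f * nrm g := by
  by_cases g0 : nrm g = 0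
  · have : ∀ y, g y = 0 := fun y => le_antisymm (g0 ▸ le_nrm g y) zero_le
    exact (young f g).trans (by simp [this])
  have hP : (1 : ℝ≥0∞) ≤ (C + 1) * (1 + r) ^ s :=
    one_le_mul_of_one_le_of_one_le le_add_self (one_le_pow_of_one_le' le_self_add s)
  have st := db_nrm hB h1 h hf
  generalize ((C + 1) * (1 + r) ^ s : ℝ≥0∞) = P at hP st ⊢
  have b : ∀ k, P * 2 ^ (s * (k + 2)) * nrm (db f k) ≤ (P * 2 ^ (s * 2) * nrm f) ^ 2 ^ k := by
    intro k
    induction k with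
    | zero => simp [db]
    | succ k ih =>
      rw [pow_succ 2 k, pow_mul _ (2 ^ k)]
      refine le_trans ?_ (pow_le_pow_left' ih 2)
      refine (mul_le_mul_right (st k) _).trans (le_of_eq ?_)
      ring
  have n : ∀ k, ∃ e, e + 1 = 2 ^ k ∧ nrm (cv f g) ^ (e + 1) ≤ nrm (cv (db f k) g) * nrm g ^ e := by
    intro k
    induction k with
    | zero => exact ⟨0, rfl, by simp [db]⟩
    | succ k ih =>
      obtain ⟨e, e1, e2⟩ := ih
      refine ⟨2 * e + 1, by omega, ?_⟩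
      rw [show 2 * e + 1 + 1 = (e + 1) * 2 by ring, pow_mul]
      refine (pow_le_pow_left' e2 2).trans ?_
      rw [mul_pow]
      refine (mul_le_mul_left (sq_le _ _) _).trans (le_of_eq ?_)
      rw [db]
      ring
  refine lim g0 hg fun k => ?_
  obtain ⟨e, e1, e2⟩ := n k
  have a : nrm (db f k) ≤ (P * 2 ^ (s * 2) * nrm f) ^ 2 ^ k :=
    le_trans (le_mul_of_one_le_left' (one_le_mul_of_one_le_of_one_le hP
      (one_le_pow_of_one_le' one_le_two _))) (b k)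
  rw [mul_pow _ (nrm g)]
  generalize (P * 2 ^ (s * 2) * nrm f) ^ 2 ^ k = D at a
  rw [← e1]
  refine (mul_le_mul_left (e2.trans (mul_le_mul_left ((young _ _).trans
    (mul_le_mul_left a _)) _)) _).trans (le_of_eq ?_)
  ring

end An

open An in
theorem rd_of_short {B : ℕ → G → Prop} (hB : IsBall B) (h1 : ∀ r, B r 1)
    (h : ∃ C s : ℕ, ∀ (r : ℕ) (f g u : G → ℝ≥0∞), (∀ x, f x ≠ 0 → B r x) → (∀ x, g x ≠ 0 → B r x) →
      (∀ x, u x ≠ 0 → B r x) → Tri f g u ≤ C * (1 + r) ^ s * (nrm f * nrm g * nrm u)) :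
    RDb B := by
  obtain ⟨C, s, h⟩ := h
  refine ⟨(C + 1) * 2 ^ (s * 2), s, fun r f g u hf => ?_⟩
  by_cases f0 : nrm f = 0
  · have : ∀ y, f y = 0 := fun y => le_antisymm (f0 ▸ le_nrm f y) zero_le
    simp [Tri, this]
  by_cases u0 : nrm u = 0
  · have : ∀ y, u y = 0 := fun y => le_antisymm (u0 ▸ le_nrm u y) zero_le
    simp [Tri, this]
  by_cases g1 : nrm g = ⊤
  · rw [g1, mul_top f0, top_mul u0, mul_top (by simp)]
    exact le_top
  rw [Tri, ENNReal.tsum_comm, ENNReal.tsum_eq_iSup_sum]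
  refine iSup_le fun t => ?_
  have e : ∑ y ∈ t, ∑' x, f x * g y * u (x * y) =
      Tri f (fun y => if y ∈ t then g y else 0) u := by
    rw [Tri, ENNReal.tsum_comm, tsum_eq_sum (s := t) fun y hy => by simp [hy]]
    exact Finset.sum_congr rfl fun y hy => by simp [hy]
  have a := cv_le hB h1 h hf (g := fun y => if y ∈ t then g y else 0) (by
    rw [tsum_eq_sum (s := t) fun y hy => by simp [hy]]
    exact ENNReal.sum_ne_top.2 fun y hy => by
      rw [if_pos hy]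
      exact ne_top_of_le_ne_top g1 (le_nrm g y))
  rw [e, tri_eq]
  refine ((cs _ _).trans (mul_le_mul_left (a.trans (mul_le_mul_right (nrm_inj (ψ := g) id
    Function.injective_id fun x => by split_ifs <;> simp) _)) _)).trans (le_of_eq ?_)
  push_cast
  ring

end Pool.Agent.Lib.MP_35cce7_an.Q
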