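import Pool.Agent.Lib.MP_35cce7_an.QZ2

namespace Pool.Agent.Lib.MP_35cce7_an.Q

lemma card_bi {α β : Type} {A : Set α} {f : α → β → Prop} {a b : ℕ} (hA : A.encard ≤ a)
    (hf : ∀ x ∈ A, {y | f x y}.encard ≤ b) : {y | ∃ x ∈ A, f x y}.encard ≤ (a * b : ℕ) := by
  have fin := Set.finite_of_encard_le_coe hA
  induction A, fin using Set.Finite.induction_on generalizing a with
  | empty => simp
  | @insert x A hx _ ih =>
    rw [Set.encard_insert_of_notMem hx] at hA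
    cases a with
    | zero => simp at hA
    | succ a =>
      have h1 : A.encard ≤ a := by
        push_cast at hA
        exact (ENat.add_le_add_iff_right (by simp)).1 hA
      have e : {y | ∃ z ∈ insert x A, f z y} = {y | f x y} ∪ {y | ∃ z ∈ A, f z y} := by
        ext y
        simp
      rw [e]
      refine (Set.encard_union_le _ _).trans ((add_le_add (hf x (by simp))
        (ih h1 fun z hz => hf z (by simp [hz]))).trans (le_of_eq ?_))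
      push_cast
      ring

lemma card_or {α : Type} {p q : α → Prop} {a b : ℕ} (hp : {x | p x}.encard ≤ a)
    (hq : {x | q x}.encard ≤ b) : {x | p x ∨ q x}.encard ≤ (a + b : ℕ) :=
  (Set.encard_union_le {x | p x} {x | q x}).trans ((add_le_add hp hq).trans (by simp))

lemma card_one {α : Type} {p : α → Prop} (h : ∀ x y, p x → p y → x = y) :
    {x | p x}.encard ≤ (1 : ℕ) := by
  simpa using (Set.encard_le_one_iff (s := {x | p x})).2 h

lemma card_imp {α : Type} {p q : α → Prop} {a : ℕ∞} (hq : {x | q x}.encard ≤ a)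
    (h : ∀ x, p x → q x) : {x | p x}.encard ≤ a := (Set.encard_le_encard h).trans hq

namespace Zd

variable {V : Type} {Z : Zd V}

lemma ZF.t1 (S : Z.ZF) {g w s e K : V} (hw : Z.ev g w) (hs : Z.ev g s) (he : Z.ad g e)
    (n : w ≠ s) (hK : Z.pt g K) (h1 : Z.N w K) (h2 : Z.N s K) (c1 : Z.cp g w e)
    (c2 : Z.cp g s e) : Z.N e K := by
  have t := ev_ty hw hs
  have aw : Z.ad g w := Or.inl hw
  have as : Z.ad g s := Or.inl hs
  by_cases t' : Z.ty e = Z.ty w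
  swap
  · exact S.f1b hK aw as he n t t' h1 h2 (S.nsymm (S.cp_n c1 aw he (Ne.symm t')))
      (S.nsymm (S.cp_n c2 as he (t ▸ Ne.symm t')))
  rcases S.f2 aw as he t (t ▸ t'.symm) ⟨K, hK, h1, h2⟩ c2 c1 with ⟨K', k1, k2, k3, k4⟩ |
    ⟨o, o1, o2, o3, o4, o5⟩
  · exact S.f1a hK k1 aw as n t h1 h2 k2 k3 ▸ k4
  by_cases e1 : w = e
  · exact e1 ▸ h1
  by_cases e2 : s = e
  · exact e2 ▸ h2
  obtain ⟨K1, a1, a2, a3⟩ := c1
  obtain ⟨K2, b1, b2, b3⟩ := c2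
  exact S.ax3 (od_of_ne hw o1 o2.symm) hw hs (ev_of_ty hw he t'.symm) n hK b1 a1
    (S.f1b hK aw as o1 n t o2 h1 h2 o3 o4) h1 h2
    (S.f1b b1 as he o1 e2 (t ▸ t'.symm) (t ▸ o2) b2 b3 o4 o5) b2 b3
    (S.f1b a1 aw he o1 e1 t'.symm o2 a2 a3 o3 o5) a2 a3

theorem ZM.sp (S : Z.ZM) {u s t : V} (h : Z.Prt u t s) :
    {p | Z.ad p s ∧ Z.ad p t ∧ ¬ (Z.Small u p ∧ Z.Side u p s t)}.encard ≤ 4 := by
  have ht := S.pts h.1
  have l := h.2
  have ny : ∀ {y}, Z.Dn u s y → ¬ Z.N y t := fun {y} hy e => by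
    have := S.lip u (ad_of_pt hy.1 ht e)
    have := hy.2
    omega
  have two : ∀ {y y'}, Z.Dn u s y → Z.Dn u s y' → Z.ty y = Z.ty y' → y ≠ y' → ∃ K, Z.pt s K ∧
      Z.N y K ∧ Z.N y' K ∧ ∀ x, Z.ad s x → Z.N x K → ¬ Z.N x t := fun {y y'} hy hy' e n => by
    obtain ⟨K, k⟩ := S.prt_of fun hs : Z.Small u s => n (hs _ _ hy hy' e)
    exact ⟨K, k.1, ((S.dn_iff k).1 hy).2, ((S.dn_iff k).1 hy').2,
      fun x x1 x2 => ny (S.dn_of k x1 x2)⟩
  have c1 : ∀ T, {p | Z.ev s p ∧ Z.N p t ∧ ∃ y, Z.Dn u s y ∧ Z.cp s p y ∧ Z.ty y = T}.encard ≤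
      (1 : ℕ) := fun T => card_one fun p p' ⟨a1, a2, y, a3, a4, a5⟩ ⟨b1, b2, y', b3, b4, b5⟩ => by
    by_contra n
    by_cases e : y = y'
    · exact ny a3 (S.t1 a1 b1 a3.1 n ht a2 b2 a4 (e ▸ b4))
    obtain ⟨K, k1, k2, k3, k4⟩ := two a3 b3 (a5.trans b5.symm) e
    rcases S.ax1 a1 b1 b3.1 a3.1 n ht k1 a2 b2 b4 (ZB.cps a4) k3 k2 with h | h | ⟨-, x, x1, x2, x3⟩
    exacts [ny b3 h, ny a3 h, k4 x x1 x3 x2]
  have c3 : {p | Z.od s p ∧ Z.N p t ∧ ∃ y, Z.Dn u s y ∧ Z.cp s p y ∧ Z.ev s y}.encard ≤ (1 : ℕ) :=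
    card_one fun p p' ⟨a1, a2, y, a3, a4, a5⟩ ⟨b1, b2, y', b3, b4, b5⟩ => by
      by_contra n
      by_cases e : y = y'
      · subst e
        exact ny a3 (S.f1b ht (Or.inr a1) (Or.inr b1) a3.1 n (od_ty a1 b1) (eo_ty a5 a1) a2 b2
          (S.cp_n (ZB.cps a4) a3.1 (Or.inr a1) (eo_ty a5 a1))
          (S.cp_n (ZB.cps b4) a3.1 (Or.inr b1) (eo_ty a5 b1)))
      obtain ⟨K, k1, k2, k3, k4⟩ := two a3 b3 (ev_ty a5 b5) e
      rcases S.ax1 a5 b5 (Or.inr b1) (Or.inr a1) e k1 ht k2 k3 (ZB.cps b4) a4 b2 a2 with h | h |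
        ⟨-, x, x1, x2, x3⟩
      exacts [k4 _ (Or.inr b1) h b2, k4 _ (Or.inr a1) h a2, k4 x x1 x2 x3]
  have c4 : {p | Z.od s p ∧ Z.N p t ∧ ∃ y x, Z.Dn u s y ∧ Z.od s y ∧ Z.pt s x ∧ Z.N p x ∧ Z.N y x ∧
      ¬ ∃ o, Z.ev s o ∧ Z.N o t ∧ Z.N o x}.encard ≤ (1 : ℕ) :=
    card_one fun p p' ⟨a1, a2, y, x, a3, a4, a5, a6, a7, a8⟩
      ⟨b1, b2, y', x', b3, b4, b5, b6, b7, b8⟩ => by
      by_contra n
      by_cases e : y = y'
      · subst e
        rcases S.f2 (Or.inr a1) (Or.inr b1) a3.1 (od_ty a1 b1) (od_ty b1 a4) ⟨t, ht, a2, b2⟩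
          ⟨x', b5, b6, b7⟩ ⟨x, a5, a6, a7⟩ with ⟨K, k1, k2, k3, k4⟩ | ⟨o, o1, o2, o3, o4, o5⟩
        · exact ny a3 (S.f1a ht k1 (Or.inr a1) (Or.inr b1) n (od_ty a1 b1) a2 b2 k2 k3 ▸ k4)
        · exact a8 ⟨o, ev_of_ne a1 o1 o2.symm,
            S.f1b ht (Or.inr a1) (Or.inr b1) o1 n (od_ty a1 b1) o2 a2 b2 o3 o4,
            S.f1b a5 (Or.inr a1) a3.1 o1 (fun e => ny a3 (e ▸ a2)) (od_ty a1 a4) o2 a6 a7 o3 o5⟩
      obtain ⟨K, k1, k2, k3, k4⟩ := two a3 b3 (od_ty a4 b4) e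
      rcases S.ax4 a1 b1 b4 a4 n ht k1 a5 b5 a2 b2 b6 b7 k3 k2 a7 a6 with ⟨z, z1, z2, z3⟩ |
        ⟨o, o1, o2, o3 | o3⟩
      exacts [k4 z z1 z3 z2, a8 ⟨o, o1, o2, o3⟩, b8 ⟨o, o1, o2, o3⟩]
  obtain ⟨e0, -, -, f0, -, -, -, -, g0⟩ := S.rich ht true
  obtain ⟨e1, -, -, f1, -, -, -, -, g1⟩ := S.rich ht false
  refine card_imp (card_or (card_or (c1 (Z.ty e0)) (c1 (Z.ty e1))) (card_or c3 c4)) ?_
  rintro p ⟨p1, p2, p3⟩
  have ps := S.ads p1
  have d1 : Z.Dn u p s := ⟨p1, ((S.dn_of h (S.ads p2) p1.n).2 ▸ l :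
    Z.d u s + 2 = Z.d u p + 1) |> fun e => by omega⟩
  obtain ⟨x', x1, x2⟩ : ∃ x', Z.Dn u p x' ∧ x' ≠ s := by
    by_contra hn
    push Not at hn
    exact p3 ⟨fun x x' h h' _ => (hn x h).trans (hn x' h').symm, fun x h => Or.inl (hn x h)⟩
  obtain ⟨y, y1, y2⟩ := (S.qc u p1 x1.1 d1.2 x1.2).resolve_left x2.symm
  have y3 : Z.Dn u s y := ⟨S.ads y2.1, by have := d1.2; omega⟩
  have y4 := S.sq_cp (S.rot y2)
  rcases ps with o | o
  · left
    rcases ty_two f0 f1 y3.1 (fun e => by simp [e, g1] at g0) with e | e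
    exacts [Or.inl ⟨o, p2.n, y, y3, y4, e⟩, Or.inr ⟨o, p2.n, y, y3, y4, e⟩]
  right
  by_cases e : ∃ y, Z.Dn u s y ∧ Z.cp s p y ∧ Z.ev s y
  · exact Or.inl ⟨o, p2.n, e⟩
  have y5 := y3.1.resolve_left fun h => e ⟨y, y3, y4, h⟩
  obtain ⟨x, a1, a2, a3⟩ := y4
  refine Or.inr ⟨o, p2.n, y, x, y3, y5, a1, a2, a3, fun ⟨w, w1, w2, w3⟩ => p3 ?_⟩
  have sm : Z.Small u p := by
    by_contra hn
    obtain ⟨K, k⟩ := S.prt_of hn
    have k1 := ad_of_pt p1 k.1 ((S.dn_iff k).1 d1).2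
    exact e ⟨K, ⟨k1, by have := d1.2; have := k.2; omega⟩, S.lp (Or.inr o) k1 k.1.1,
      ev_of_ne o k1 k.1.ty_ne⟩
  have d2 : Z.Dn u p x := by
    have b1 := ad_of_pt (Or.inr o) a1 a2
    have := S.lip u (ad_of_pt y3.1 a1 a3)
    have := S.lip u (S.ads b1)
    have := d1.2
    have := y3.2
    exact ⟨b1, by omega⟩
  refine ⟨sm, fun z hz => ?_⟩
  rcases ty_two p1 d2.1 hz.1 a1.ty_ne with e | e
  · exact Or.inl (sm _ _ hz d1 e)
  · obtain rfl := sm _ _ hz d2 e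
    have t := (eo_ty w1 o).symm
    exact Or.inr ⟨S.ods o, w, pt_of_ad (Or.inr o) (Or.inl w1)
      (S.jj ht (Or.inr o) (Or.inl w1) p2.n w2 t) t, S.nsymm w1.1, w3, w2⟩

lemma Bad.symm (S : Z.ZB) {u v p : V} (h : Z.Bad u v p) : Z.Bad v u p := by
  obtain ⟨h1, h2, s, t, h3, h4, h5, h6, h7⟩ := h
  exact ⟨h2, h1, t, s, h4, h3, S.pts h5, h7, h6⟩

lemma I.symm (S : Z.ZB) {u v p : V} (h : Z.I u v p) : Z.I v u p := by
  have := S.symm
  simp only [I] at *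
  grind

lemma Bad.id {u v p K z : V} (h : Z.Bad u v p) (hK : Z.Dn u p K) (hz : Z.Dn v p z)
    (e : Z.pt K z) : Z.Side u p K z ∧ Z.Side v p z K := by
  obtain ⟨h1, h2, s, t, h3, h4, h5, h6, h7⟩ := h
  rcases ty_two h3.1 h4.1 hK.1 h5.ty_ne with a | a
  · obtain rfl := h1 _ _ hK h3 a
    obtain rfl := h2 _ _ hz h4 (pt_ty e h5)
    exact ⟨h6, h7⟩
  · have b1 := ((h6 K hK).resolve_left fun e => h5.ty_ne (e ▸ a)).1
    have b2 := ((h7 z hz).resolve_left fun e' => e.ty_ne (e' ▸ a)).1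
    exact (h5.ty_ne (od_ty b1 b2)).elim

/-- one step towards `u` with bounded branching -/
def Stp (Z : Zd V) (u v z x : V) : Prop := (Z.Small u z ∧ Z.Dn u z x) ∨ Z.Prt u z x ∨
  ∃ K, Z.Prt u z K ∧ Z.ad x K ∧ Z.ad x z ∧ ¬ Z.Bad u v x

def Rch (Z : Zd V) (u v : V) : ℕ → V → V → Prop
  | 0, z, x => x = z
  | n + 1, z, x => x = z ∨ ∃ y, Z.Stp u v z y ∧ Rch Z u v n y x

lemma Rch.refl {u v z : V} : ∀ n, Z.Rch u v n z z
  | 0 => rfl
  | _ + 1 => Or.inl rfl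

lemma Rch.tail {u v y x : V} (h' : Z.Stp u v y x) :
    ∀ {n z}, Z.Rch u v n z y → Z.Rch u v (n + 1) z x
  | 0, _, h => Or.inr ⟨x, h ▸ h', rfl⟩
  | _ + 1, _, h => Or.inr (h.elim (fun h => ⟨x, h ▸ h', Rch.refl _⟩) fun ⟨w, h1, h2⟩ =>
      ⟨w, h1, h2.tail h'⟩)

lemma ZM.i_down (S : Z.ZM) {u v z x : V} (h : Z.I u v z) {k : ℕ} (h1 : Z.d x z ≤ k)
    (h2 : Z.d u x + k = Z.d u z) : Z.I u v x ∧ Z.d v x = Z.d v z + k := by
  have := S.symm
  have := S.tri x z v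
  have := S.tri u x v
  simp only [I] at *
  grind

lemma ZM.d_two (S : Z.ZM) {z K : V} (h : Z.pt z K) : Z.d K z ≤ 2 := by
  obtain ⟨e, -, -, h2, -, h4, -⟩ := S.rich h true
  have := S.lip K (S.ads h2)
  have := S.dad.2 (S.ads (ad_of_pt h2 h h4))
  omega

lemma ZM.stp_i (S : Z.ZM) {u v z x : V} (h : Z.I u v z) (h' : Z.Stp u v z x) : Z.I u v x := by
  have : ∀ {x}, Z.Dn u z x → Z.I u v x := fun hx =>
    (S.i_down h (S.dad.2 (S.ads hx.1)).le hx.2).1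
  rcases h' with h' | h' | ⟨K, k1, k2, k3, -⟩
  exacts [this h'.2, (S.i_down h (S.d_two h'.1) h'.2).1, this (S.dn_of k1 (S.ads k3) k2.n)]

lemma ZM.page (S : Z.ZM) {u v z K x : V} (h : Z.I u v z) (k : Z.Prt u z K) (h1 : Z.ad x K)
    (h2 : Z.ad x z) : Z.Dn u x K ∧ Z.Dn v x z := by
  have a := S.dn_of k (S.ads h2) h1.n
  have := (S.i_down h (S.dad.2 h2).le a.2).2
  have := a.2
  have := k.2
  exact ⟨⟨h1, by omega⟩, h2, by omega⟩

lemma ZM.stp_card (S : Z.ZM) {u v z : V} (h : Z.I u v z) :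
    {x | Z.Stp u v z x}.encard ≤ (11 : ℕ) := by
  refine card_or (a := 2) (b := 9) ?_ (card_or (a := 1) (b := 8)
    (card_one fun _ _ => S.prt_uniq) ?_)
  · by_cases e : Z.Small u z
    · exact card_imp (small_card e) fun _ h => h.2
    · simp [e]
  by_cases e : ∃ K, Z.Prt u z K
  swap
  · exact card_imp (q := fun _ => False) (by simp) fun x ⟨K, k, _⟩ => e ⟨K, k⟩
  obtain ⟨K, k⟩ := e
  have k' : Z.Prt v K z := ⟨S.pts k.1, (S.i_down h (S.d_two k.1) k.2).2.symm⟩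
  refine card_imp (card_or (a := 4) (b := 4) (S.sp k) (S.sp k')) ?_
  rintro x ⟨K', a1, a2, a3, a4⟩
  obtain rfl := S.prt_uniq k a1
  obtain ⟨b1, b2⟩ := S.page h k a2 a3
  by_contra hn
  simp only [not_or, a2, a3, true_and, not_not] at hn
  exact a4 ⟨hn.1.1, hn.2.1, K, z, b1, b2, S.pts k.1, hn.1.2, hn.2.2⟩

lemma ZM.rch_card (S : Z.ZM) {u v : V} (n : ℕ) : ∀ {z}, Z.I u v z →
    {x | Z.Rch u v n z x}.encard ≤ (12 ^ n : ℕ) := by
  induction n with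
  | zero => exact fun _ => card_one fun _ _ h h' => h.trans h'.symm
  | succ n ih =>
    intro z h
    refine (card_or (card_one fun _ _ h h' => h.trans h'.symm)
      (card_bi (S.stp_card h) fun y hy => ih (S.stp_i h hy))).trans ?_
    have : 1 ≤ 12 ^ n := Nat.one_le_pow _ _ (by omega)
    exact_mod_cast (by omega : 1 + 11 * 12 ^ n ≤ 12 ^ (n + 1))

lemma ZM.rch_i (S : Z.ZM) {u v x : V} : ∀ {n z}, Z.I u v z → Z.Rch u v n z x → Z.I u v x
  | 0, _, h, h' => h' ▸ h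
  | _ + 1, _, h, h' => h'.elim (fun e => e ▸ h) fun ⟨_, h1, h2⟩ => S.rch_i (S.stp_i h h1) h2

lemma ZM.reach (S : Z.ZM) {u v w : V} (n : ℕ) : ∀ {z}, Z.I u v z → Z.d w z ≤ n →
    Z.d u w + Z.d w z = Z.d u z → Z.Rch u v n z w ∨
      ∃ t K, Z.Rch u v n z t ∧ Z.Prt u t K ∧ Z.Dn u w K ∧ Z.Bad u v w := by
  have s := S.symm
  induction n with
  | zero => exact fun _ h _ => Or.inl (S.eq0 (Nat.le_zero.1 h))
  | succ n ih =>
    intro z h h1 h2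
    have go : ∀ y, Z.Stp u v z y → Z.d w y ≤ n → Z.d u w + Z.d w y ≤ Z.d u y →
        Z.Rch u v (n + 1) z w ∨
          ∃ t K, Z.Rch u v (n + 1) z t ∧ Z.Prt u t K ∧ Z.Dn u w K ∧ Z.Bad u v w :=
      fun y a1 a2 a3 => (ih (S.stp_i h a1) a2 (le_antisymm a3 (S.tri _ _ _))).imp
        (fun b => Or.inr ⟨y, a1, b⟩) fun ⟨t, K, b, b'⟩ => ⟨t, K, Or.inr ⟨y, a1, b⟩, b'⟩
    have dn : ∀ z j, Z.d z w = j + 1 → Z.d u w + Z.d w z = Z.d u z →
        ∃ y, Z.Dn u z y ∧ Z.d y w = j := fun z j a1 a2 => by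
      obtain ⟨y, y1, y2⟩ := S.stp a1
      have := S.tri u w y
      have := S.lip u (S.ads y1)
      exact ⟨y, ⟨y1, by grind⟩, y2⟩
    cases e : Z.d z w with
    | zero => exact Or.inl (Or.inl (S.eq0 e).symm)
    | succ j =>
      obtain ⟨y, y1, y2⟩ := dn z j e h2
      have y3 := y1.2
      by_cases sm : Z.Small u z
      · exact go y (Or.inl ⟨sm, y1⟩) (by grind) (by grind)
      obtain ⟨K, k⟩ := S.prt_of sm
      have k2 := k.2
      have yK := ad_of_pt y1.1 k.1 ((S.dn_iff k).1 y1).2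
      by_cases b : Z.Bad u v y
      swap
      · exact go y (Or.inr (Or.inr ⟨K, k, yK, S.ads y1.1, b⟩)) (by grind) (by grind)
      obtain ⟨p1, p2⟩ := S.page h k yK (S.ads y1.1)
      cases j with
      | zero =>
        obtain rfl := S.eq0 y2
        exact Or.inr ⟨z, K, Rch.refl _, k, p1, b⟩
      | succ j =>
        obtain ⟨x, x1, x2⟩ := dn y j y2 (by grind)
        have x3 := x1.2
        by_cases xK : x = K
        · subst xK
          exact go x (Or.inr (Or.inl k)) (by grind) (by grind)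
        obtain ⟨o1, o, o2, o3, o4, o5⟩ :=
          ((b.id p1 p2 (S.pts k.1)).1 x x1).resolve_left xK
        have oK := S.ads (ad_of_pt yK o2 (S.nsymm o3))
        have ox := S.ads (ad_of_pt x1.1 o2 (S.nsymm o4))
        have oz := S.ads (ad_of_pt p2.1 o2 (S.nsymm o5))
        obtain ⟨q1, q2⟩ := S.page h k oK oz
        have q3 := q1.2
        have := S.lip w (S.ads ox)
        refine go o (Or.inr (Or.inr ⟨K, k, oK, oz, fun b' => ?_⟩)) (by grind) (by grind)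
        have := (((b'.id q1 q2 (S.pts k.1)).1 x ⟨ox, by omega⟩).resolve_left xK).1
        exact o2.ty_ne (od_ty (S.ods o1) (S.ods this))

theorem ZM.can_card (S : Z.ZM) (u v : V) :
    {m | Z.Can u v m}.encard ≤ (12 ^ 10 * (Z.d u v + 1) : ℕ) := by
  have s := S.symm
  have mono : ∀ {u v n z x}, Z.Rch u v n z x → Z.Rch u v (n + 1) z x := by
    intro u v n
    induction n with
    | zero => exact fun h => Or.inl h
    | succ n ih => exact fun h => h.imp_right fun ⟨y, h1, h2⟩ => ⟨y, h1, ih h2⟩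
  have lv : ∀ k, {m | Z.Can u v m ∧ Z.d u m = k}.encard ≤ (12 ^ 5 * 12 ^ 5 : ℕ) := fun k => by
    by_cases e : ∃ a, Z.Can u v a ∧ Z.d u a = k
    swap
    · exact card_imp (q := fun _ => False) (by simp) fun x h => e ⟨x, h⟩
    obtain ⟨a, ⟨a1, -⟩, a2⟩ := e
    refine card_imp (card_bi (S.rch_card 5 a1) fun x hx =>
      S.rch_card 5 (I.symm S.toZB (S.rch_i a1 hx))) ?_
    rintro m ⟨⟨m1, m2⟩, m3⟩
    have g := S.grid a1 m1 (a2.trans m3.symm)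
    obtain ⟨w, w1, w2, w3⟩ := S.med u a m
    have up : ∀ x, Z.Rch u v 5 a x → Z.d m x ≤ 5 → Z.d u x + Z.d m x ≤ Z.d u m →
        ∃ x ∈ {x | Z.Rch u v 5 a x}, Z.Rch v u 5 x m := fun x x1 x2 x3 => by
      have x4 := S.rch_i a1 x1
      have := S.tri v m x
      refine ⟨x, x1, (S.reach 5 (I.symm S.toZB x4) x2 ?_).resolve_right
        fun ⟨_, _, _, _, _, b⟩ => m2 (b.symm S.toZB)⟩
      simp only [I] at m1 x4
      grind
    simp only [I] at w1 w2 w3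
    rcases S.reach (w := w) 4 a1 (by grind) w1 with r | ⟨t, K, r1, r2, r3, -⟩
    · exact up w (mono r) (by grind) (by grind)
    · have := S.lip m r3.1
      have := r3.2
      exact up K (r1.tail (Or.inr (Or.inl r2))) (by grind) (by grind)
  refine (card_imp (card_bi (A := Set.Iio (Z.d u v + 1)) (a := Z.d u v + 1) ?_
    fun k _ => lv k) fun m hm => ⟨Z.d u m, ?_, hm, rfl⟩).trans (le_of_eq ?_)
  · rw [← Finset.coe_range, Set.encard_coe_eq_coe_finsetCard, Finset.card_range]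
  · have := hm.1
    simp only [I] at this
    exact Set.mem_Iio.2 (by omega)
  · congr 1
    ring

end Zd

end Pool.Agent.Lib.MP_35cce7_an.Q
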