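import Pool.Agent.Lib.MP_35cce7_an.KDefs
import Pool.Agent.Lib.MP_35cce7_an.QAn1
import Pool.Agent.Lib.MP_35cce7_an.QZ3

/-! Property RD from one vertex known to the three pairs of a triple. -/

namespace Pool.Agent.Lib.MP_35cce7_an.K

open Q ENNReal Classical

variable {G V : Type} [Group G] [MulAction G V]

/-- the orientation rooted at `x` -/
def tr (O : V → V → V → Prop) (x : G) (p q v : V) : Prop := O (x⁻¹ • p) (x⁻¹ • q) (x⁻¹ • v)

variable {d : V → V → ℕ} {ty : V → Option Bool} {Ch : V → V → V → Prop}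

lemma rd_uq (R : V → Prop) : {v | Uq ty R v}.encard ≤ (3 : ℕ) :=
  (Set.encard_le_encard_of_injOn (f := ty) (t := Set.univ) (fun _ _ => trivial)
    fun _ hx _ hy e => hy.2 _ hx.1 e).trans (by rw [Set.encard_univ]; simp)

lemma rd_ru {O : V → V → V → Prop} {c : ℕ} (hO : ∀ p q, {v | O p q v}.encard ≤ c) (o p q : V) :
    {v | Ru d ty Ch o O p q v}.encard ≤ (3 + (3 + (3 + c)) : ℕ) :=
  card_or (rd_uq _) (card_or (rd_uq _) (card_or (rd_uq _) (hO p q)))

lemma rd_cnt (c k n : ℕ) : ∃ C s : ℕ, ∀ (r : ℕ) (a b : V) (A B : V → V → V → Prop),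
    d a b ≤ k * r → (∀ p q, {v | A p q v}.encard ≤ c) → (∀ p q, {v | B p q v}.encard ≤ c) →
    {v | Kn d ty Ch a b A B n v}.encard ≤ (C * (1 + r) ^ s : ℕ) := by
  induction n with
  | zero =>
    refine ⟨(k + 1) * 3, 1, fun r a b A B h _ _ => ?_⟩
    refine (card_imp (card_bi (A := Set.Iic (k * r)) (a := k * r + 1)
      (f := fun j v => Uq ty (fun u => d a u + d u b = d a b ∧ d a u = j) v) ?_ fun _ _ => rd_uq _)
      fun v hv => ⟨d a v, ?_, hv⟩).trans (Nat.cast_le.2 (by nlinarith))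
    · rw [← Finset.coe_Iic, Set.encard_coe_eq_coe_finsetCard, Nat.card_Iic]
    · have := hv.1.1
      simp only [Set.mem_Iic]
      omega
  | succ n ih =>
    obtain ⟨C, s, ih⟩ := ih
    refine ⟨C + C * (C * (2 * (9 + c))), s + s, fun r a b A B h hA hB => ?_⟩
    have i := ih r a b A B h hA hB
    refine (card_imp (card_or i (card_bi i fun p _ => card_bi i fun q _ =>
      card_or (rd_ru (d := d) (ty := ty) (Ch := Ch) hA a p q)
        (rd_ru (d := d) (ty := ty) (Ch := Ch) hB b p q))) fun v hv =>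
      hv.imp_right fun ⟨p, q, h1, h2, h3⟩ => ⟨p, h1, q, h2, h3⟩).trans (Nat.cast_le.2 ?_)
    have : (1 + r) ^ s ≤ (1 + r) ^ (s + s) := Nat.pow_le_pow_right (by omega) (by omega)
    rw [add_mul]
    exact add_le_add (Nat.mul_le_mul_left _ this) (le_of_eq (by ring))

lemma rd_uq_smul (hty : ∀ (g : G) a, ty (g • a) = ty a) (g : G) {R R' : V → Prop}
    (h : ∀ u, R' (g • u) ↔ R u) {v : V} (hv : Uq ty R v) : Uq ty R' (g • v) :=
  ⟨(h v).2 hv.1, fun v' h1 h2 => by
    obtain ⟨u, rfl⟩ := MulAction.surjective g v'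
    rw [hv.2 u ((h u).1 h1) (by rwa [hty, hty] at h2)]⟩

lemma rd_kn_smul (hd : ∀ (g : G) a b, d (g • a) (g • b) = d a b)
    (hty : ∀ (g : G) a, ty (g • a) = ty a)
    (hCh : ∀ (g : G) p l w, Ch p l w → Ch (g • p) (g • l) (g • w)) (O : V → V → V → Prop) (o : V)
    (g x y : G) (n : ℕ) (v : V) (h : Kn d ty Ch (x • o) (y • o) (tr O x) (tr O y) n v) :
    Kn d ty Ch ((g * x) • o) ((g * y) • o) (tr O (g * x)) (tr O (g * y)) n (g • v) := by
  have ru : ∀ (x : G) p q v, Ru d ty Ch (x • o) (tr O x) p q v →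
      Ru d ty Ch ((g * x) • o) (tr O (g * x)) (g • p) (g • q) (g • v) := fun x p q v h => by
    refine h.imp (rd_uq_smul hty g fun u => ?_) (Or.imp (rd_uq_smul hty g fun u => ?_)
      (Or.imp (rd_uq_smul hty g fun u => ?_) fun h => ?_))
    · simp only [mul_smul, hd]
    · simp only [mul_smul, hd]
      refine and_congr_left' ⟨fun ⟨l, h⟩ => ⟨g⁻¹ • l, ?_⟩, fun ⟨l, h⟩ => ⟨_, hCh g _ _ _ h⟩⟩
      simpa using hCh g⁻¹ _ _ _ h
    · simp only [hd]
    · simpa only [tr, mul_inv_rev, mul_smul, inv_smul_smul] using h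
  induction n generalizing v with
  | zero => exact rd_uq_smul hty g (fun u => by simp only [mul_smul, hd]) h
  | succ n ih =>
    exact h.imp (ih v) fun ⟨p, q, h1, h2, h3⟩ =>
      ⟨_, _, ih p h1, ih q h2, h3.imp (ru x p q v) (ru y p q v)⟩

theorem rd_of_kn {d : V → V → ℕ} {ty : V → Option Bool} {Ch : V → V → V → Prop}
    (hd : ∀ (g : G) a b, d (g • a) (g • b) = d a b) (hty : ∀ (g : G) a, ty (g • a) = ty a)
    (hCh : ∀ (g : G) p l w, Ch p l w → Ch (g • p) (g • l) (g • w)) (O : V → V → V → Prop) (c : ℕ)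
    (hO : ∀ p q, {v | O p q v}.encard ≤ c) {B : ℕ → G → Prop} (hB : IsBall B) (h1 : ∀ r, B r 1)
    (o : V) (k : ℕ) (ho : ∀ r x, B r x → d o (x • o) ≤ k * r) (h : GRD V B) (N : ℕ)
    (cov : ∀ x y z : G, ∃ v, Kn d ty Ch (x • o) (y • o) (tr O x) (tr O y) N v ∧
      Kn d ty Ch (y • o) (z • o) (tr O y) (tr O z) N v ∧
      Kn d ty Ch (x • o) (z • o) (tr O x) (tr O z) N v) : RDb B := by
  obtain ⟨D, s, h⟩ := h
  obtain ⟨C, t, cnt⟩ := rd_cnt (d := d) (ty := ty) (Ch := Ch) c k N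
  refine rd_of_short hB h1 ⟨D * C ^ 3, s + t * 3, fun r f g u hf hg hu => ?_⟩
  let S : G → V → Prop := fun x m =>
    B r x ∧ Kn d ty Ch ((1 : G) • o) (x • o) (tr O (1 : G)) (tr O x) N m
  let cut : (G → ℝ≥0∞) → V × G → ℝ≥0∞ := fun φ p => if S p.2 p.1 then φ p.2 else 0
  have hO' : ∀ (x : G) p q, {v | tr O x p q v}.encard ≤ c := fun x p q =>
    (Set.encard_le_encard_of_injOn (f := fun v => x⁻¹ • v) (fun _ h => h)
      (MulAction.injective _).injOn).trans (hO (x⁻¹ • p) (x⁻¹ • q))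
  have nc : ∀ φ, nrm (cut φ) ≤ (C * (1 + r) ^ t : ℕ) * nrm φ := fun φ => by
    refine le_trans (nrm_inj Prod.swap Prod.swap_injective fun _ =>
      by simp only [cut]; split_ifs <;> simp_all) (nrm_cut' (p := S) (fun x => ?_) φ)
    by_cases hx : B r x
    · exact card_imp (cnt r _ _ _ _ (by simpa using ho r x hx) (hO' 1) (hO' x)) fun _ h => h.2
    · simp [S, hx]
  choose μ m1 m2 m3 using cov 1
  calc Tri f g u ≤ ∑' p : V × G × G, cut f (p.1, p.2.1) * cut g (p.2.1⁻¹ • p.1, p.2.2) *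
        cut u (p.1, p.2.1 * p.2.2) := by
        rw [Tri, ← ENNReal.tsum_prod]
        refine tsum_inj (fun p => (μ p.1 (p.1 * p.2), p)) (fun p q e => congrArg (·.2) e) ?_
        rintro ⟨x, y⟩
        by_cases e : f x * g y * u (x * y) = 0
        · exact e.trans_le zero_le
        simp only [mul_eq_zero, not_or] at e
        have := rd_kn_smul hd hty hCh O o x⁻¹ _ _ _ _ (m2 x (x * y))
        rw [inv_mul_cancel, inv_mul_cancel_left] at this
        simp only [cut, S, hf _ e.1.1, hg _ e.1.2, hu _ e.2, m1, m3, this, and_self, if_true,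
          le_refl]
    _ ≤ D * (1 + r) ^ s * ((C * (1 + r) ^ t : ℕ) * nrm f * ((C * (1 + r) ^ t : ℕ) * nrm g) *
        ((C * (1 + r) ^ t : ℕ) * nrm u)) :=
        (h r _ _ _ fun p hp => hf _ fun e => hp (by simp [cut, e])).trans
          (mul_le_mul_right (mul_le_mul' (mul_le_mul' (nc f) (nc g)) (nc u)) _)
    _ = _ := by push_cast; ring

end Pool.Agent.Lib.MP_35cce7_an.K
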