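import Pool.Agent.Lib.MP_35cce7_an.KQsc
import Pool.Agent.Lib.MP_35cce7_an.KFan
import Pool.Agent.Lib.MP_35cce7_an.KGeo
import Pool.Agent.Lib.MP_35cce7_an.KRD

namespace Pool.Agent.Lib.MP_35cce7_an.K

variable {G ι : Type} [Group G] {P : ι → Subgroup G} {l h : ι}

/-- the vertex of index `i` through `g` -/
abbrev ox (P : ι → Subgroup G) (i : ι) (g : G) : Σ i, G ⧸ P i := ⟨i, g⟩

lemma ox_in (i : ι) (g : G) : In g (ox P i g) := rfl

lemma ox_mul {i : ι} (g : G) {x : G} (hx : x ∈ P i) : ox P i (g * x) = ox P i g :=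
  congrArg (Sigma.mk i) (QuotientGroup.mk_mul_of_mem g hx)

lemma ox_d {i : ι} (n : l ≠ i) (g : G) : (leg P l).dist (ox P i g) (ox P l g) = 1 :=
  SimpleGraph.dist_eq_one_iff_adj.2 ⟨⟨fun e => (n e.symm).elim, fun e => (e rfl).elim⟩, g, rfl, rfl⟩

lemma ox_u (n : l ≠ h) (g : G) {u : G} (hu : u ∈ P h) :
    (leg P l).dist (ox P h g) (ox P l (g * u)) = 1 := ox_mul g hu ▸ ox_d n _

lemma ox_w (n : l ≠ h) (g : G) {w : G} (hw : w ∈ P l) :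
    (leg P l).dist (ox P h (g * w)) (ox P l g) = 1 := ox_mul g hw ▸ ox_d n _

lemma ox_q {i : ι} {g x y : G} (hx : x ∈ P i) (e : ox P i g = ox P i (g * x * y)) : y ∈ P i := by
  have := QuotientGroup.eq.1 (eq_of_heq (Sigma.mk.inj e).2)
  rwa [mul_assoc g, inv_mul_cancel_left, (P i).mul_mem_cancel_left hx] at this

lemma ox_z (n : l ≠ h) {g w z : G} (hw : w ∈ P l) (e : g * w = z) :
    (leg P l).dist (ox P h z) (ox P l g) = 1 := e ▸ ox_w n g hw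

lemma ox_ty (n : l ≠ h) (g : G) : gty P l h (ox P h g) = some true := by
  simp [gty, n.symm]

theorem GF.gi (F : GF P l h) : Gi (P h) (P l) := by
  have t := ox_ty (P := P) F.ne
  have n := F.ne
  refine ⟨fun u₁ a₁ w₁ b₁ u₂ a₂ w₂ b₂ e => ?_, fun u₁ a₁ w₁ b₁ u₂ a₂ w₂ b₂ u₃ a₃ w₃ b₃ e => ?_⟩
  · rw [← one_mul u₁] at e
    rcases F.fm.g2 (t 1) (t _) (ox_u n 1 a₁) (ox_w n _ b₁) (ox_u n _ a₂) (ox_z n b₂ e) with
      q | q
    · exact .inr (.inl (ox_q a₁ q))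
    · exact .inr (.inr (.inl (ox_q b₁ q)))
  · rw [← one_mul u₁] at e
    rcases F.fm.g3 (t 1) (t _) (t _) (ox_u n 1 a₁) (ox_w n _ b₁) (ox_u n _ a₂) (ox_w n _ b₂)
      (ox_u n _ a₃) (ox_z n b₃ e) with q | q | q | q | q | q
    · simp [ox_q a₁ q]
    · simp [ox_q a₂ q]
    · simp [ox_q a₃ (q.trans (congrArg _ e.symm))]
    · simp [ox_q b₁ q]
    · simp [ox_q b₂ q]
    · simp [ox_q b₃ (y := u₁) (q.trans (by rw [e]))]

theorem GF.g4 (F : GF P l h) (h4 : ∀ j, j ≠ l → j ≠ h → G4 (P j ⊓ P h) (P j ⊓ P l)) :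
    G4 (P h) (P l) := by
  have t := ox_ty (P := P) F.ne
  have n := F.ne
  intro u₁ a₁ w₁ b₁ u₂ a₂ w₂ b₂ u₃ a₃ w₃ b₃ u₄ a₄ w₄ b₄ e
  rw [← one_mul u₁] at e
  rcases F.fm.g4 (F.c8 h4) (t 1) (t _) (t _) (t _) (ox_u n 1 a₁) (ox_w n _ b₁) (ox_u n _ a₂)
    (ox_w n _ b₂) (ox_u n _ a₃) (ox_w n _ b₃) (ox_u n _ a₄) (ox_z n b₄ e) with
    q | q | q | q | q | q | q | q
  · simp [ox_q a₁ q]
  · simp [ox_q a₂ q]
  · simp [ox_q a₃ q]
  · simp [ox_q a₄ (q.trans (congrArg _ e.symm))]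
  · simp [ox_q b₁ q]
  · simp [ox_q b₂ q]
  · simp [ox_q b₃ q]
  · simp [ox_q b₄ (y := u₁) (q.trans (by rw [e]))]

lemma ox_cnt {U W : Subgroup G} {τ : G → Prop} {c : ℕ}
    (hc : ∀ g, {q : G ⧸ U | ∃ x, g⁻¹ * x ∈ W ∧ τ x ∧ q = x}.encard ≤ c) (p a : Σ i, G ⧸ P i)
    {i : ι} (hW : P p.1 ⊓ P a.1 ≤ W) (hU : U ≤ P i) :
    {v : Σ i, G ⧸ P i | ∃ g, In g p ∧ In g a ∧ In g v ∧ v.1 = i ∧ τ g}.encard ≤ c := by
  rcases Set.eq_empty_or_nonempty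
    {v : Σ i, G ⧸ P i | ∃ g, In g p ∧ In g a ∧ In g v ∧ v.1 = i ∧ τ g} with e | ⟨_, g₀, p₀, a₀, -⟩
  · simp [e]
  refine (Set.encard_le_encard ?_).trans
    ((Set.encard_image_le (fun q : G ⧸ U => ox P i q.out) _).trans (hc g₀))
  rintro v ⟨g, h1, h2, h3, h4, h5⟩
  refine ⟨g, ⟨g, hW ⟨p₀.iff.1 h1, a₀.iff.1 h2⟩, h5, rfl⟩, In.eq (g := g) ?_ h3 h4.symm⟩
  exact (ox_in i _).iff.2 (hU (QuotientGroup.eq.1 (Quotient.out_eq _)))

lemma ox_ori {c : ℕ} (k : ι) (T : ι → Prop) (hk : ∀ i, T i → k ≠ l)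
    (hs : ∀ i, T i → Sel c (P i ⊓ P k) (P i ⊓ P l)) :
    ∃ O : (Σ i, G ⧸ P i) → (Σ i, G ⧸ P i) → (Σ i, G ⧸ P i) → Prop,
      (∀ p q, {v | O p q v}.encard ≤ c) ∧
      ∀ p a w, T p.1 → w.1 = k → gCh P l h p a w → O p a w ∨ O p w a := by
  choose σ s1 s2 using hs
  refine ⟨fun p a w => ∃ t : T p.1, ∃ g, In g p ∧ In g a ∧ In g w ∧
    (a.1 = l ∧ w.1 = k ∧ ¬ σ _ t g ∨ a.1 = k ∧ w.1 = l ∧ σ _ t g), fun p a => ?_, ?_⟩
  · by_cases t : T p.1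
    · by_cases e : a.1 = l
      · refine (Set.encard_le_encard ?_).trans (ox_cnt (s2 _ t) p a (e ▸ le_rfl) inf_le_right)
        rintro v ⟨_, g, h1, h2, h3, q | q⟩
        exacts [⟨g, h1, h2, h3, q.2⟩, (hk _ t (q.1.symm.trans e)).elim]
      by_cases e' : a.1 = k
      · refine (Set.encard_le_encard ?_).trans (ox_cnt (s1 _ t) p a (e' ▸ le_rfl) inf_le_right)
        rintro v ⟨_, g, h1, h2, h3, q | q⟩
        exacts [(e q.1).elim, ⟨g, h1, h2, h3, q.2⟩]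
      · simp [e, e']
    · simp [t]
  · rintro p a w t e ⟨h0, -, -, -, g, h1, h2, h3⟩
    by_cases q : σ _ t g
    exacts [.inr ⟨t, g, h1, h3, h2, .inr ⟨e, h0, q⟩⟩, .inl ⟨t, g, h1, h2, h3, .inl ⟨h0, e, q⟩⟩]

theorem GF.oriD (F : GF P l h) {c : ℕ}
    (hs : ∀ j, j ≠ l → j ≠ h → Sel c (P j ⊓ P h) (P j ⊓ P l)) :
    ∃ O, Ori (gty P l h) (gCh P l h) false c O := by
  obtain ⟨O, h1, h2⟩ := ox_ori (h := h) h (fun i => i ≠ l ∧ i ≠ h) (fun _ _ => F.ne.symm)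
    fun i t => hs i t.1 t.2
  refine ⟨O, h1, fun p a w t q => ?_⟩
  have : p.1 ≠ h := by simpa [gty, q.2.1] using t
  exact h2 p a w ⟨q.2.1, this⟩ (not_not.1 fun e => this (q.2.2.2.1.2 e)) q

theorem GF.oriH (_F : GF P l h) {c : ℕ} {j : ι} (hj : ∀ i, i = l ∨ i = h ∨ i = j)
    (hs : Sel c (P h ⊓ P j) (P h ⊓ P l)) : ∃ O, Ori (gty P l h) (gCh P l h) true c O := by
  obtain ⟨O, h1, h2⟩ := ox_ori (h := h) j (fun i => i = h ∧ j ≠ l) (fun _ t => t.2)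
    fun i t => t.1 ▸ hs
  refine ⟨O, h1, fun p a w t q => ?_⟩
  have e : p.1 = h := by simpa [gty, q.2.1] using t
  have e' : w.1 = j := ((hj w.1).resolve_left q.2.2.1).resolve_left (q.2.2.2.1.1 e)
  exact h2 p a w ⟨e, e' ▸ q.2.2.1⟩ e' q

theorem GF.sel (F : GF P l h) {c : ℕ}
    (hs : ∀ j, j ≠ l → j ≠ h → Sel c (P j ⊓ P h) (P j ⊓ P l)) : Sel (c + 1) (P h) (P l) := by
  obtain ⟨O, hO⟩ := F.oriD hs
  obtain ⟨s, s1, s2⟩ := F.fm.sel hO (ox P h 1)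
  refine ⟨fun g => ¬ s (ox P l g) (ox P h g), fun g => ?_, fun g => ?_⟩
  · refine (Set.encard_le_encard_of_injOn (f := fun q => (⟨l, q⟩ : Σ i, G ⧸ P i)) ?_
      (sigma_mk_injective (β := fun i => G ⧸ P i)).injOn).trans (s2 _ (ox_ty F.ne g))
    rintro _ ⟨x, h1, h2, rfl⟩
    rw [← ox_mul g h1, mul_inv_cancel_left]
    exact ⟨ox_d F.ne x, h2⟩
  · refine (Set.encard_le_encard_of_injOn (f := fun q => (⟨h, q⟩ : Σ i, G ⧸ P i)) ?_
      (sigma_mk_injective (β := fun i => G ⧸ P i)).injOn).trans (s1 (ox P l g))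
    rintro _ ⟨x, h1, h2, rfl⟩
    rw [← ox_mul g h1, mul_inv_cancel_left]
    exact ⟨ox_ty F.ne x, ox_d F.ne x, not_not.1 h2⟩

lemma ox_fst (g : G) (a : Σ i, G ⧸ P i) : (g • a).1 = a.1 := by
  cases a
  rfl

lemma GF.ox_four (F : GF P l h) {i : ι} {x : G} (hx : x ∈ P i) :
    (leg P l).dist (ox P h 1) (ox P h x) ≤ 4 := by
  have S := F.fan.toMet
  have t1 := S.tri (ox P h 1) (ox P l 1) (ox P h x)
  have t2 := S.tri (ox P l 1) (ox P l x) (ox P h x)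
  rw [ox_d F.ne] at t1
  rw [S.symm (ox P l x), ox_d F.ne] at t2
  have e : ox P i x = ox P i 1 := by rw [← ox_mul 1 hx, one_mul]
  by_cases n : l = i
  · subst n
    rw [e, S.refl] at t2
    omega
  · have t3 := S.tri (ox P l 1) (ox P i 1) (ox P l x)
    rw [S.symm _ (ox P i 1), ox_d n, ← e, ox_d n] at t3
    omega

theorem GF.rd (F : GF P l h) {c : ℕ} {j : ι} (hj : ∀ i, i = l ∨ i = h ∨ i = j) (_jl : j ≠ l)
    (_jh : j ≠ h) (h4 : G4 (P j ⊓ P h) (P j ⊓ P l)) (s1 : Sel c (P j ⊓ P h) (P j ⊓ P l))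
    (s2 : Sel c (P h ⊓ P j) (P h ⊓ P l)) {κ : Type} (σ : κ → G) (hσ : ∀ a, ∃ i, σ a ∈ P i)
    (hG : GRD (Σ i, G ⧸ P i) (Ball σ)) : RDb (Ball σ) := by
  have ej : ∀ i, i ≠ l → i ≠ h → i = j := fun i a b => ((hj i).resolve_left a).resolve_left b
  obtain ⟨A, a1, a2⟩ := F.oriD fun i a b => ej i a b ▸ s1
  obtain ⟨B, b1, b2⟩ := F.oriH hj s2
  have hty : ∀ (g : G) a, gty P l h (g • a) = gty P l h a := fun g a => by
    cases a
    rfl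
  have hCh : ∀ (g : G) p a w, gCh P l h p a w → gCh P l h (g • p) (g • a) (g • w) := by
    rintro g p a w ⟨h0, h1, h2, h3, x, h4, h5, h6⟩
    simp only [gCh, ox_fst]
    exact ⟨h0, h1, h2, h3, g * x, h4.smul g, h5.smul g, h6.smul g⟩
  have hO : ∀ (x : G) p a w, gCh P l h p a w → tr (fun p q v => A p q v ∨ B p q v) x p a w ∨
      tr (fun p q v => A p q v ∨ B p q v) x p w a := fun x p a w q => by
    have q' := hCh x⁻¹ _ _ _ q
    obtain ⟨_ | _, t, -⟩ := F.fan.tn q'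
    exacts [(a2 _ _ _ t q').imp .inl .inl, (b2 _ _ _ t q').imp .inr .inr]
  have ho : ∀ x : G, gty P l h (x • ox P h 1) ≠ none := fun x => by
    rw [hty, ox_ty F.ne]
    simp
  refine rd_of_kn F.d_smul hty hCh (fun p q v => A p q v ∨ B p q v) (c + c) (fun p q => ?_)
    (Ball.isBall σ) (Ball.one σ) (ox P h 1) 4 ?_ hG 7 fun x y z =>
    F.fm.cover (F.c8 fun i a b => ej i a b ▸ h4) (ho x) (ho y) (ho z) (hO x) (hO y) (hO z)
  · rw [Nat.cast_add]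
    exact (Set.encard_union_le _ _).trans (add_le_add (a1 p q) (b1 p q))
  · rintro r _ ⟨L, rfl, h2, h3⟩
    have S := F.fan.toMet
    induction L generalizing r with
    | nil => simp
    | cons y L ih =>
      have i1 := ih L.length le_rfl fun z hz => h3 z (by simp [hz])
      have i2 : (leg P l).dist (ox P h 1) (y • ox P h 1) ≤ 4 := by
        obtain ⟨a, e⟩ := h3 y (by simp)
        obtain ⟨i, hi⟩ := hσ a
        have : y * 1 ∈ P i := by rcases e with rfl | rfl <;> simpa using hi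
        exact F.ox_four this
      have i3 := S.tri (ox P h 1) (y • ox P h 1) ((y * L.prod) • ox P h 1)
      rw [mul_smul, F.d_smul, ← mul_smul] at i3
      rw [List.length_cons] at h2
      rw [List.prod_cons]
      omega

end Pool.Agent.Lib.MP_35cce7_an.K
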