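import Pool.Agent.Lib.MP_35cce7_an.KGrp

namespace Pool.Agent.Lib.MP_35cce7_an.K

open Q

variable {G ι : Type} [Group G] {P : ι → Subgroup G} {l h : ι}

theorem qsc_in (g : G) (i : ι) : In g (⟨i, g⟩ : Σ i, G ⧸ P i) := rfl

theorem qsc_ad {i : ι} (hi : i ≠ l) (g : G) :
    (leg P l).dist ⟨l, g⟩ ⟨i, g⟩ = 1 :=
  SimpleGraph.dist_eq_one_iff_adj.2 ⟨by simpa using hi, g, qsc_in g l, qsc_in g i⟩

theorem GF.qsc (F : GF P l h) : QSC (leg P l).dist (Sq (gCh P l h)) := by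
  intro U f A Q p q hpq e
  have up : ∀ (x : {x : G × U // f x.2 = ⟨l, x.1⟩}) (i : ι), ∃ u, f u = ⟨i, x.1.1⟩ ∧
      (i = l → u = x.1.2) ∧ (i ≠ l → A x.1.2 u) := fun x i => by
    by_cases hi : i = l
    · exact ⟨x.1.2, hi ▸ x.2, fun _ => rfl, fun e => (e hi).elim⟩
    · obtain ⟨u, a, b⟩ := Q.lift (p := x.1.2) (z := ⟨i, x.1.1⟩) (by rw [x.2]; exact qsc_ad hi _)
      exact ⟨u, b, fun e => (hi e).elim, fun _ => a⟩
  choose L L1 L2 L3 using up
  have ex : ∀ (g : G) i u, f u = ⟨i, g⟩ → ∃ x, x.1.1 = g ∧ L x i = u := fun g i u hu => by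
    by_cases hi : i = l
    · exact ⟨⟨(g, u), hi ▸ hu⟩, rfl, L2 _ _ hi⟩
    · obtain ⟨v, a, b⟩ := Q.lift (p := u) (z := ⟨l, g⟩)
        (by rw [hu, SimpleGraph.dist_comm]; exact qsc_ad hi _)
      exact ⟨⟨(g, v), b⟩, rfl, Q.inj (L3 _ _ hi) (Q.symm a) ((L1 _ _).trans hu.symm)⟩
  have dn : ∀ x y i, L x i = L y i → f x.1.2 = f y.1.2 → x.1.2 = y.1.2 := fun x y i e e' => by
    by_cases hi : i = l
    · rw [← L2 x i hi, e, L2 y i hi]
    · exact Q.inj (Q.symm (L3 x i hi)) (e ▸ Q.symm (L3 y i hi)) e'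
  have key := F.scc {x : G × U // f x.2 = ⟨l, x.1⟩} (fun x => x.1.1)
    (fun i x y => L x i = L y i) (fun _ => ⟨fun _ => rfl, Eq.symm, Eq.trans⟩)
    (fun i x y e => (L1 x i).symm.trans ((congrArg f e).trans (L1 y i)))
    (fun i x g e => (ex g i (L x i) ((L1 _ _).trans e)).imp fun y k => ⟨k.2.symm, k.1⟩)
    (fun i x y e k => Subtype.ext (Prod.ext k (dn x y i e (by
      rw [x.2, y.2, show x.1.1 = y.1.1 from k]))))
    (fun i j x y e k => by
      have k' : f (L x j) = f (L y j) := by rw [L1, L1]; exact k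
      by_cases c : f x.1.2 = f y.1.2
      · have c' := dn x y i e c
        by_cases hj : j = l
        · rw [L2 x j hj, L2 y j hj, c']
        · exact Q.inj (L3 x j hj) (c' ▸ L3 y j hj) k'
      have hi : i ≠ l := fun hi => c (by rw [← L2 x i hi, e, L2 y i hi])
      have hj : j ≠ l := fun hj => c (by rw [← L2 x j hj, k', L2 y j hj])
      by_cases ij : i = j
      · exact ij ▸ e
      have ei : In y.1.1 (⟨i, x.1.1⟩ : Σ i, G ⧸ P i) := by
        rw [← L1, e, L1]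
        exact qsc_in _ _
      have ej : In y.1.1 (⟨j, x.1.1⟩ : Σ i, G ⧸ P i) := by
        rw [← L1, k', L1]
        exact qsc_in _ _
      have t : i = h ↔ j ≠ h := by
        refine ⟨fun a b => ij (a.trans b.symm), fun a => by_contra fun b => c ?_⟩
        obtain ⟨K, k1, k2⟩ := F.jj j hj a
        rw [x.2, y.2]
        exact ((qsc_in _ l).iff.2 (k2 ⟨(qsc_in _ j).iff.1 ej,
          k1 i ij b ((qsc_in _ i).iff.1 ei)⟩)).eq (qsc_in _ l) rfl
      obtain ⟨s, s1, s2, s3⟩ := Q.sq (z := ⟨j, x.1.1⟩) (Q.symm (L3 x i hi))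
        (e ▸ Q.symm (L3 y i hi)) (.inl ⟨by
          rw [L1, x.2]
          exact ⟨rfl, hi, hj, t, _, qsc_in _ _, qsc_in _ _, qsc_in _ _⟩, by
          rw [L1, y.2]
          exact ⟨rfl, hi, hj, t, _, ei, qsc_in _ _, ej⟩, c⟩)
      exact (Q.inj (L3 x j hj) s1 ((L1 _ _).trans s3.symm)).trans
        (Q.inj s2 (L3 y j hj) (s3.trans ((L1 _ _).symm.trans k'))))
  have path : ∀ q, Relation.ReflTransGen A p q → ∀ x y, L x (f p).1 = p → L y (f q).1 = q →
      Relation.ReflTransGen (fun x y => ∃ i, L x i = L y i) x y := by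
    intro q k
    induction k with
    | refl => exact fun x y hx hy => .single ⟨_, hx.trans hy.symm⟩
    | @tail a b _ hab ih =>
      intro x y hx hy
      obtain ⟨t, g, ga, gb⟩ := SimpleGraph.dist_eq_one_iff_adj.1 (Q.hom hab)
      have ea : f a = ⟨(f a).1, g⟩ := ga.eq (qsc_in _ _) rfl
      have eb : f b = ⟨(f b).1, g⟩ := gb.eq (qsc_in _ _) rfl
      have : ∃ z, L z (f a).1 = a ∧ L z (f b).1 = b := by
        by_cases c : (f a).1 = l
        · obtain ⟨z, z1, z2⟩ := ex g _ a ea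
          exact ⟨z, z2, Q.inj (L3 z _ (t.1 c)) (L2 z _ c ▸ z2.symm ▸ hab)
            (by rw [L1, z1, ← eb])⟩
        · have c' : (f b).1 = l := by_contra fun e => c (t.2 e)
          obtain ⟨z, z1, z2⟩ := ex g _ b eb
          exact ⟨z, Q.inj (L3 z _ c) (L2 z _ c' ▸ z2.symm ▸ Q.symm hab)
            (by rw [L1, z1, ← ea]), z2⟩
      obtain ⟨z, z1, z2⟩ := this
      exact (ih x z hx z1).tail ⟨_, z2.trans hy.symm⟩
  obtain ⟨g, hg⟩ := In.ex (f p)
  have ep : f p = ⟨(f p).1, g⟩ := hg.eq (qsc_in _ _) rfl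
  obtain ⟨x, x1, x2⟩ := ex g _ p ep
  obtain ⟨y, y1, y2⟩ := ex g _ q (e.symm.trans ep)
  exact x2.symm.trans (key x y (path q hpq x y x2 (e ▸ y2)) (x1.trans y1.symm) ▸ y2)

theorem GF.fm (F : GF P l h) : FM (leg P l).dist (gty P l h) (gCh P l h) := F.fan.fm F.qsc

end Pool.Agent.Lib.MP_35cce7_an.K
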