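import Pool.Agent.Lib.MP_35cce7_an.Retr

namespace Pool.Agent.Lib.MP_35cce7_an

noncomputable section

open Classical ENNReal

variable {G K B ι : Type} [Group G] [Group K]

/-! ### comparison with the complex form of the inequality -/

lemma tri_eq (f g h : G → ℝ≥0∞) : Tri f g h = ∑' z, (∑' x, f x * g (x⁻¹ * z)) * h z := by
  simp only [← ENNReal.tsum_mul_right]
  rw [ENNReal.tsum_comm, Tri]
  refine tsum_congr fun x => ?_
  rw [← (Equiv.mulLeft x).tsum_eq fun z => f x * g (x⁻¹ * z) * h z]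
  simp

lemma of_sq {u : G → ℂ} (h : (Function.support u).Finite) :
    nrm (fun x => ‖u x‖ₑ) ^ 2 = ENNReal.ofReal (∑' x, ‖u x‖ ^ 2) := by
  rw [nrm_sq, ENNReal.ofReal_tsum_of_nonneg (fun _ => by positivity)
    (summable_of_hasFiniteSupport (h.subset fun x hx => by simpa using hx))]
  simp [ENNReal.ofReal_pow]

lemma of_sq' (f : G →₀ ℂ) :
    nrm (fun x => ‖f x‖ₑ) ^ 2 = ENNReal.ofReal (∑ x ∈ f.support, ‖f x‖ ^ 2) := by
  rw [of_sq f.hasFiniteSupport, tsum_eq_sum (s := f.support) fun x hx => by simpa using hx]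

lemma conv_fin (f g : G →₀ ℂ) :
    (Function.support fun z => ∑ y ∈ f.support, f y * g (y⁻¹ * z)).Finite := by
  refine (Finset.image₂ (· * ·) f.support g.support).finite_toSet.subset fun z hz => ?_
  obtain ⟨y, hy, h⟩ := Finset.exists_ne_zero_of_sum_ne_zero hz
  exact Finset.mem_coe.2 (Finset.mem_image₂.2 ⟨y, hy, y⁻¹ * z,
    Finsupp.mem_support_iff.2 (right_ne_zero_of_mul h), by simp⟩)

theorem rd_iff (Bl : ℕ → G → Prop) : (∃ (C : ℝ) (s : ℕ), ∀ (r : ℕ) (f g : G →₀ ℂ),
    (∀ x ∈ f.support, Bl r x) → (∑' x, ‖∑ y ∈ f.support, f y * g (y⁻¹ * x)‖ ^ 2) ≤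
      C * (1 + (r : ℝ)) ^ s * (∑ x ∈ f.support, ‖f x‖ ^ 2) * (∑ x ∈ g.support, ‖g x‖ ^ 2)) ↔
    RDb Bl := by
  constructor
  · rintro ⟨C, s, H⟩
    refine ⟨⌈C⌉₊ + 1, s, fun r f g h hf => ?_⟩
    have z : ∀ f : G → ℝ≥0∞, nrm f = 0 → ∀ x, f x = 0 := fun f h => by
      simpa [h] using (nrm_sq f).symm
    by_cases h0 : nrm f = 0 ∨ nrm g = 0 ∨ nrm h = 0
    · rcases h0 with h0 | h0 | h0 <;> simp [Tri, z _ h0]
    push Not at h0
    by_cases h1 : nrm f = ⊤ ∨ nrm g = ⊤
    · rcases h1 with h1 | h1 <;> simp [h1, h0, ENNReal.mul_eq_top]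
    push Not at h1
    have fin : ∀ f : G → ℝ≥0∞, nrm f ≠ ⊤ → ∀ A : Finset G, ∃ F : G →₀ ℂ,
        (∀ x, F x = (if x ∈ A then f x else 0).toReal) ∧
        (∀ x, ‖F x‖ₑ = if x ∈ A then f x else 0) ∧ nrm (fun x => ‖F x‖ₑ) ≤ nrm f := by
      intro f hf A
      have : ∀ x, f x ≠ ⊤ := fun x e => hf (by
        have := ENNReal.le_tsum (f := fun x => f x ^ 2) x
        rw [← nrm_sq] at this
        exact top_le_iff.1 (e ▸ le_of_sq this))
      have e : ∀ x, ‖((if x ∈ A then f x else 0).toReal : ℂ)‖ₑ = if x ∈ A then f x else 0 := by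
        intro x
        rw [← ofReal_norm, Complex.norm_real, Real.norm_of_nonneg toReal_nonneg,
          ofReal_toReal]
        split_ifs
        exacts [this x, zero_ne_top]
      refine ⟨Finsupp.onFinset A (fun x => (if x ∈ A then f x else 0).toReal)
        fun x hx => by_contra fun e => hx (by simp [e]), fun _ => rfl, e, nrm_le ?_⟩
      rw [nrm_sq]
      refine ENNReal.tsum_le_tsum fun x => pow_le_pow_left' ((e x).le.trans ?_) 2
      split_ifs <;> simp
    have tp : ∀ f g : G → ℝ≥0∞, Tri f g h = ∑' p : G × G, f p.1 * g p.2 * h (p.1 * p.2) :=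
      fun f g => by rw [ENNReal.tsum_prod', Tri]
    rw [tp, ENNReal.tsum_eq_iSup_sum]
    refine iSup_le fun A => ?_
    obtain ⟨F, f1, f2, f3⟩ := fin f h1.1 (A.image Prod.fst)
    obtain ⟨E, g1, g2, g3⟩ := fin g h1.2 (A.image Prod.snd)
    have a1 : ∑ p ∈ A, f p.1 * g p.2 * h (p.1 * p.2) ≤
        Tri (fun x => ‖F x‖ₑ) (fun x => ‖E x‖ₑ) h := by
      rw [tp]
      refine le_trans (le_of_eq (Finset.sum_congr rfl fun p hp => ?_)) (ENNReal.sum_le_tsum A)
      rw [f2, g2, if_pos (Finset.mem_image_of_mem _ hp), if_pos (Finset.mem_image_of_mem _ hp)]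
    have a2 : ∀ z, ∑' x, ‖F x‖ₑ * ‖E (x⁻¹ * z)‖ₑ = ‖∑ y ∈ F.support, F y * E (y⁻¹ * z)‖ₑ := by
      intro z
      rw [tsum_eq_sum (s := F.support) fun x hx => by simp [Finsupp.notMem_support_iff.1 hx]]
      simp only [← ofReal_norm]
      simp only [f1, g1, ← Complex.ofReal_mul, ← Complex.ofReal_sum, Complex.norm_real,
        Real.norm_of_nonneg toReal_nonneg]
      rw [Real.norm_of_nonneg (Finset.sum_nonneg fun _ _ => by positivity),
        ENNReal.ofReal_sum_of_nonneg fun _ _ => by positivity]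
      exact Finset.sum_congr rfl fun _ _ => (ENNReal.ofReal_mul toReal_nonneg).symm
    have a3 := H r F E fun x hx => hf x fun e => Finsupp.mem_support_iff.1 hx (by simp [f1, e])
    refine a1.trans ?_
    rw [tri_eq, ← mul_assoc]
    simp only [a2]
    refine (cs _ _).trans (mul_le_mul_left (le_of_sq ?_) _)
    rw [of_sq (conv_fin F E)]
    refine (ofReal_le_ofReal (a3.trans (mul_le_mul_of_nonneg_right (mul_le_mul_of_nonneg_right
      (mul_le_mul_of_nonneg_right (Nat.le_ceil C) (by positivity)) (by positivity))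
      (by positivity)))).trans ?_
    rw [ENNReal.ofReal_mul (by positivity), ENNReal.ofReal_mul (by positivity), ← of_sq', ← of_sq',
      mul_pow, mul_pow (nrm f), mul_assoc]
    refine mul_le_mul' ?_ (by gcongr)
    have : (⌈C⌉₊ * (1 + r : ℝ) ^ s) = (⌈C⌉₊ * (1 + r) ^ s : ℕ) := by push_cast; rfl
    rw [this, ENNReal.ofReal_natCast]
    exact_mod_cast (Nat.mul_le_mul_right _ (Nat.le_succ _)).trans (Nat.le_self_pow two_ne_zero _)
  · rintro ⟨C, s, H⟩
    refine ⟨C ^ 2, 2 * s, fun r f g hf => ?_⟩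
    set u := fun z => ∑ y ∈ f.support, f y * g (y⁻¹ * z) with hu
    have a1 := H r (fun x => ‖f x‖ₑ) (fun x => ‖g x‖ₑ) (fun x => ‖u x‖ₑ) fun x hx =>
      hf x (by simpa using hx)
    have a2 : nrm (fun x => ‖u x‖ₑ) ^ 2 ≤
        Tri (fun x => ‖f x‖ₑ) (fun x => ‖g x‖ₑ) fun x => ‖u x‖ₑ := by
      rw [tri_eq, nrm_sq]
      refine ENNReal.tsum_le_tsum fun z => ?_
      rw [sq]
      refine mul_le_mul_left ((enorm_sum_le _ _).trans ?_) _
      simp only [enorm_mul]
      exact ENNReal.sum_le_tsum _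
    have a3 : nrm (fun x => ‖u x‖ₑ) ≠ ⊤ := fun e => by
      have := of_sq (u := u) (conv_fin f g)
      rw [e] at this
      simp at this
    have a4 : nrm (fun x => ‖u x‖ₑ) ≤
        C * (1 + r) ^ s * (nrm (fun x => ‖f x‖ₑ) * nrm fun x => ‖g x‖ₑ) := by
      by_cases e : nrm (fun x => ‖u x‖ₑ) = 0
      · simp [e]
      · have := a2.trans a1
        rwa [sq, ← mul_assoc, ENNReal.mul_le_mul_iff_left e a3] at this
    have a5 := pow_le_pow_left' a4 2
    rw [of_sq (conv_fin f g), mul_pow, mul_pow (nrm _), of_sq', of_sq'] at a5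
    rw [← ENNReal.ofReal_le_ofReal_iff (by positivity), mul_assoc,
      ENNReal.ofReal_mul (by positivity), ENNReal.ofReal_mul (Finset.sum_nonneg fun _ _ => by
        positivity)]
    refine a5.trans (le_of_eq ?_)
    congr 1
    have : ((C : ℝ) ^ 2 * (1 + r : ℝ) ^ (2 * s)) = ((C * (1 + r) ^ s) ^ 2 : ℕ) := by
      push_cast; ring
    rw [this, ENNReal.ofReal_natCast]
    push_cast
    rfl

/-! ### balls -/

lemma Ball.mono {σ : ι → G} {r s x} (h : Ball σ r x) (hs : r ≤ s) : Ball σ s x :=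
  h.imp fun _ h => ⟨h.1, h.2.1.trans hs, h.2.2⟩

lemma Ball.gen (σ : ι → G) (i : ι) : Ball σ 1 (σ i) :=
  ⟨[σ i], by simp, le_rfl, by simpa using ⟨i, Or.inl rfl⟩⟩

lemma Ball.one (σ : ι → G) (r : ℕ) : Ball σ r 1 := ⟨[], rfl, by simp, by simp⟩

lemma Ball.map {σ : ι → G} {B' : ℕ → K → Prop} (hB : IsBall B') (h1 : ∀ r, B' r 1) (φ : G →* K)
    {k : ℕ} (hk : ∀ i, B' k (φ (σ i))) {r x} (h : Ball σ r x) : B' (k * r) (φ x) := by
  obtain ⟨L, rfl, h2, h3⟩ := h
  induction L generalizing r with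
  | nil => simpa using h1 _
  | cons y L ih =>
    obtain ⟨r, rfl⟩ : ∃ r', r = r' + 1 := ⟨r - 1, by simp at h2; omega⟩
    rw [List.prod_cons, map_mul, mul_add, mul_one, add_comm]
    refine hB.mul _ _ _ _ ?_ (ih (by simpa using h2) fun z hz => h3 z (by simp [hz]))
    obtain ⟨i, rfl | rfl⟩ := h3 y (by simp)
    · exact hk i
    · rw [map_inv]
      exact hB.inv _ _ (hk i)

def BS (σ : ι → G) : Subgroup G where
  carrier := {x | ∃ r, Ball σ r x}
  one_mem' := ⟨0, Ball.one _ _⟩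
  mul_mem' := fun ⟨_, h⟩ ⟨_, h'⟩ => ⟨_, (Ball.isBall _).mul _ _ _ _ h h'⟩
  inv_mem' := fun ⟨_, h⟩ => ⟨_, (Ball.isBall _).inv _ _ h⟩

lemma rd_of_homs [Finite ι] (σ : ι → G) (φ : K →* G) (d e : G →* Multiplicative ℤ)
    (inj : ∀ x, d (φ x) = 1 → e (φ x) = 1 → x = 1) : RDb fun r x => Ball σ r (φ x) := by
  have bd : ∀ d : G →* Multiplicative ℤ, ∃ k : ℕ, ∀ r x, Ball σ r x →
      (d x).toAdd ∈ Finset.Icc (-(k * r : ℕ) : ℤ) (k * r : ℕ) := by
    intro d
    obtain ⟨k, hk⟩ := (Set.finite_range fun i => (d (σ i)).toAdd.natAbs).bddAbove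
    refine ⟨k, fun r x hx => ?_⟩
    have := hx.map (B' := fun r (z : Multiplicative ℤ) => z.toAdd.natAbs ≤ r)
      ⟨fun r x h => by simpa using h, fun r s x y h h' => by
        rw [toAdd_mul]; exact (Int.natAbs_add_le _ _).trans (add_le_add h h')⟩
      (by simp) d fun i => hk ⟨i, rfl⟩
    rw [Finset.mem_Icc]
    omega
  obtain ⟨k, hk⟩ := bd d
  obtain ⟨l, hl⟩ := bd e
  refine RDb.of_growth ((2 * k + 1) * (2 * l + 1)) 2 fun r => ?_
  have h1 : Set.InjOn (fun x => ((d (φ x)).toAdd, (e (φ x)).toAdd)) {x | Ball σ r (φ x)} :=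
    fun x _ y _ h => by
      simp only [Prod.mk.injEq, EmbeddingLike.apply_eq_iff_eq] at h
      rw [← mul_inv_eq_one]
      exact inj _ (by simp [h.1]) (by simp [h.2])
  rw [← h1.encard_image]
  refine (Set.encard_le_encard (t := (Finset.Icc (-(k * r : ℕ) : ℤ) (k * r : ℕ) ×ˢ
    Finset.Icc (-(l * r : ℕ) : ℤ) (l * r : ℕ) : Finset (ℤ × ℤ))) ?_).trans ?_
  · rintro _ ⟨x, hx, rfl⟩
    exact Finset.mem_coe.2 (Finset.mem_product.2 ⟨hk _ _ hx, hl _ _ hx⟩)
  · rw [Set.encard_coe_eq_coe_finsetCard, Nat.cast_le, Finset.card_product, Int.card_Icc,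
      Int.card_Icc, sq, mul_mul_mul_comm]
    refine Nat.mul_le_mul ?_ ?_ <;> rw [Int.toNat_le] <;> push_cast <;> nlinarith

lemma ext_cl {S : Set G} (π : G →* K) (f : Subgroup.closure S →* K)
    (h : ∀ s (hs : s ∈ S), π s = f ⟨s, Subgroup.subset_closure hs⟩) (x : Subgroup.closure S) :
    π x = f x :=
  DFunLike.congr_fun (MonoidHom.eq_of_eqOn_dense (f := π.comp (Subgroup.subtype _)) (g := f)
    Subgroup.closure_closure_coe_preimage fun s hs => h s hs) x

lemma alt_two_mul (k : ℕ) (a b : G) : alt (2 * k) a b = (a * b) ^ k := by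
  induction k with
  | zero => simp [alt]
  | succ k ih =>
    rw [mul_add, mul_one, alt_succ, alt_succ, ih, pow_succ]
    simp [Nat.even_add_one, mul_assoc]

lemma alt_odd (k : ℕ) (a b : G) : alt (2 * k + 1) a b = (a * b) ^ k * a := by
  rw [alt_succ, alt_two_mul]
  simp

lemma inv_conj_pow_aux (a y : G) (k : ℕ) : (a⁻¹ * y * a) ^ k = a⁻¹ * y ^ k * a := by
  simpa using conj_pow (a := a⁻¹) (b := y) (i := k)

variable {M : CoxeterMatrix B}

def deg (M : CoxeterMatrix B) : Ar M →* Multiplicative ℤ :=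
  alift (fun _ => Multiplicative.ofAdd 1) fun _ _ _ _ => rfl

lemma change [Finite B] (σ : ι → Ar M) (h : ∀ i, gn M i ∈ BS σ) (H : RDb (Ball σ)) :
    RDb (Ball (gn M)) := by
  choose r hr using h
  obtain ⟨k, hk⟩ := (Set.finite_range r).bddAbove
  exact H.comap (MonoidHom.id _) Function.injective_id k fun _ _ hx =>
    hx.map (Ball.isBall σ) (Ball.one σ) (MonoidHom.id _) fun i => (hr i).mono (hk ⟨i, rfl⟩)

lemma rd_cyc [Finite ι] (σ : ι → Ar M) {y : Ar M} (hy : deg M y ≠ 1) :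
    RDb fun r (x : Subgroup.closure {y}) => Ball σ r x :=
  rd_of_homs σ (Subgroup.subtype _) (deg M) (deg M) fun x h _ => by
    obtain ⟨n, hn⟩ := Subgroup.mem_closure_singleton.1 x.2
    rw [Subgroup.subtype_apply, ← hn, map_zpow] at h
    have := congrArg Multiplicative.toAdd h
    simp only [toAdd_zpow, smul_eq_mul, toAdd_one, mul_eq_zero, toAdd_eq_zero, hy,
      or_false] at this
    exact Subtype.ext (by simp [← hn, this])

lemma lift_two {a b : B} (hB : ∀ i, i = a ∨ i = b) (hab : a ≠ b) (x y : K)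
    (h : alt (M a b) x y = alt (M a b) y x) : ∃ π : Ar M →* K, π (gn M a) = x ∧ π (gn M b) = y :=
  ⟨alift (fun i => if i = a then x else y) fun i j hij _ => by
    rcases hB i with rfl | rfl <;> rcases hB j with rfl | rfl
    · exact (hij rfl).elim
    · simpa [hij.symm] using h
    · simpa [hij, M.symmetric i] using h.symm
    · exact (hij rfl).elim, by simp, by simp [hab.symm]⟩

theorem rd_dih [Finite B] {a b : B} (hB : ∀ i, i = a ∨ i = b) (hab : a ≠ b) (h0 : M a b ≠ 0) :
    RDb (Ball (gn M)) := by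
  have br := braid h0
  have dy : deg M (gn M a * gn M b) ≠ 1 := by
    simp only [deg, map_mul, alift_gn]
    decide
  obtain ⟨k, hk | hk⟩ := Nat.even_or_odd' (M a b)
  · rw [hk, alt_two_mul, alt_two_mul] at br
    have cm : gn M a * (gn M a * gn M b) ^ k = (gn M a * gn M b) ^ k * gn M a := by
      rw [mul_pow_mul, br]
    let H : Bool → Subgroup (Ar M) := fun i => Subgroup.closure
      (i.rec {gn M a * gn M b} {gn M a, (gn M a * gn M b) ^ k})
    have m1 : gn M a * gn M b ∈ H false := Subgroup.subset_closure rfl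
    have m2 : gn M a ∈ H true := Subgroup.subset_closure (Or.inl rfl)
    have m3 : (gn M a * gn M b) ^ k ∈ H true := Subgroup.subset_closure (Or.inr rfl)
    have hC : ∀ i, Subgroup.closure {(gn M a * gn M b) ^ k} ≤ H i := by
      rintro (_ | _) <;> rw [Subgroup.closure_le, Set.singleton_subset_iff]
      exacts [Subgroup.pow_mem _ m1 _, m3]
    let σ : Bool → Ar M := fun i => i.rec (gn M a * gn M b) (gn M a)
    have hσ : ∀ i, gn M i ∈ BS σ := fun i => by
      have h1 : gn M a ∈ BS σ := ⟨_, Ball.gen σ true⟩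
      have h2 : gn M a * gn M b ∈ BS σ := ⟨_, Ball.gen σ false⟩
      rcases hB i with rfl | rfl
      exacts [h1, ((BS σ).mul_mem_cancel_left h1).1 h2]
    refine change σ hσ (amalg hC (nf_of_univ H _ hC fun K _ f hf => ?_) σ
      (fun i => ⟨i, by cases i; exacts [m1, m2]⟩) (PresentedGroup.generated_by _ (BS σ) hσ) ?_)
    · have e1 : f true ⟨_, m3⟩ = f false ⟨_, m1⟩ ^ k :=
        (hf _ (Subgroup.subset_closure rfl)).trans (by rw [← map_pow]; rfl)
      have e2 : f true ⟨_, m2⟩ * f true ⟨_, m3⟩ = f true ⟨_, m3⟩ * f true ⟨_, m2⟩ := by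
        rw [← map_mul, ← map_mul]
        exact congrArg _ (Subtype.ext cm)
      obtain ⟨π, p1, p2⟩ := lift_two (M := M) hB hab (f true ⟨_, m2⟩)
        ((f true ⟨_, m2⟩)⁻¹ * f false ⟨_, m1⟩) (by
          rw [hk, alt_two_mul, alt_two_mul, mul_inv_cancel_left, inv_conj_pow_aux, ← e1,
            mul_assoc, ← e2, inv_mul_cancel_left])
      have p3 : π (gn M a * gn M b) = f false ⟨_, m1⟩ := by simp [p1, p2]
      refine ⟨π, ?_⟩
      rintro (_ | _)
      · exact ext_cl π _ (by rintro _ rfl; exact p3)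
      · exact ext_cl π _ (by rintro _ (rfl | rfl); exacts [p1, by rw [map_pow, p3, ← e1]])
    · rintro (_ | _)
      · exact rd_cyc σ dy
      obtain ⟨d, d1, d2⟩ := lift_two (M := M) hB hab (Multiplicative.ofAdd (1 : ℤ)) 1
        (by rw [hk, alt_two_mul, alt_two_mul, mul_comm])
      obtain ⟨e, e1, e2⟩ := lift_two (M := M) hB hab 1 (Multiplicative.ofAdd (1 : ℤ))
        (by rw [hk, alt_two_mul, alt_two_mul, mul_comm])
      refine rd_of_homs σ (Subgroup.subtype _) d e fun x h1 h2 => ?_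
      have c : Commute (gn M a) ((gn M a * gn M b) ^ k) := cm
      have : ∃ i j : ℤ, x.1 = gn M a ^ i * ((gn M a * gn M b) ^ k) ^ j := by
        refine Subgroup.closure_induction (p := fun x _ =>
          ∃ i j : ℤ, x = gn M a ^ i * ((gn M a * gn M b) ^ k) ^ j) ?_ ⟨0, 0, by simp⟩ ?_ ?_ x.2
        · rintro _ (rfl | rfl)
          exacts [⟨1, 0, by simp⟩, ⟨0, 1, by simp⟩]
        · rintro _ _ _ _ ⟨i, j, rfl⟩ ⟨i', j', rfl⟩
          exact ⟨i + i', j + j', by
            rw [zpow_add, zpow_add, (c.zpow_zpow i' j).mul_mul_mul_comm]⟩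
        · rintro _ _ ⟨i, j, rfl⟩
          exact ⟨-i, -j, by rw [(c.zpow_zpow i j).mul_inv, zpow_neg, zpow_neg]⟩
      obtain ⟨i, j, hx⟩ := this
      rw [Subgroup.subtype_apply, hx] at h1 h2
      have h3 := congrArg Multiplicative.toAdd h1
      have h4 := congrArg Multiplicative.toAdd h2
      simp [d1, d2, e1, e2] at h3 h4
      have hj : j = 0 := h4.resolve_right (by omega)
      have hi : i = 0 := by simpa [hj] using h3
      exact Subtype.ext (by simp [hx, hi, hj])
  · rw [hk, alt_odd, alt_odd] at br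
    have sq : ((gn M a * gn M b) ^ k * gn M a) ^ 2 = (gn M a * gn M b) ^ (2 * k + 1) := by
      rw [sq]
      nth_rw 2 [br]
      rw [mul_assoc, ← mul_assoc (gn M a), ← mul_pow_mul, two_mul, pow_succ, pow_add]
      simp only [mul_assoc]
    let σ : Bool → Ar M := fun i => i.rec (gn M a * gn M b) ((gn M a * gn M b) ^ k * gn M a)
    let H : Bool → Subgroup (Ar M) := fun i => Subgroup.closure {σ i}
    have m : ∀ i, σ i ∈ H i := fun i => Subgroup.subset_closure rfl
    have hC : ∀ i, Subgroup.closure {(gn M a * gn M b) ^ (2 * k + 1)} ≤ H i := by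
      rintro (_ | _) <;> rw [Subgroup.closure_le, Set.singleton_subset_iff]
      exacts [Subgroup.pow_mem _ (m false) _, sq ▸ Subgroup.pow_mem _ (m true) _]
    have hσ : ∀ i, gn M i ∈ BS σ := fun i => by
      have h2 : gn M a * gn M b ∈ BS σ := ⟨_, Ball.gen σ false⟩
      have h1 : gn M a ∈ BS σ :=
        ((BS σ).mul_mem_cancel_left (Subgroup.pow_mem _ h2 k)).1 ⟨_, Ball.gen σ true⟩
      rcases hB i with rfl | rfl
      exacts [h1, ((BS σ).mul_mem_cancel_left h1).1 h2]
    refine change σ hσ (amalg hC (nf_of_univ H _ hC fun K _ f hf => ?_) σ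
      (fun i => ⟨i, m i⟩) (PresentedGroup.generated_by _ (BS σ) hσ) ?_)
    · have e1 : f true ⟨_, m true⟩ ^ 2 = f false ⟨_, m false⟩ ^ (2 * k + 1) := by
        rw [← map_pow, ← map_pow]
        exact (congrArg _ (Subtype.ext sq)).trans (hf _ (Subgroup.subset_closure rfl))
      generalize hD : f true ⟨_, m true⟩ = D at e1
      generalize hY : f false ⟨_, m false⟩ = Y at e1
      have e2 : (Y ^ k)⁻¹ * D * (D⁻¹ * Y ^ (k + 1)) = Y := by group
      obtain ⟨π, p1, p2⟩ := lift_two (M := M) hB hab ((Y ^ k)⁻¹ * D) (D⁻¹ * Y ^ (k + 1)) (by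
        rw [hk, alt_odd, alt_odd, mul_pow_mul (D⁻¹ * _), e2, mul_assoc D⁻¹, ← pow_add,
          show k + 1 + k = 2 * k + 1 by ring, ← e1]
        group)
      have p3 : π (gn M a * gn M b) = Y := by rw [map_mul, p1, p2, e2]
      refine ⟨π, ?_⟩
      rintro (_ | _)
      · exact ext_cl π _ (by rintro _ rfl; exact p3.trans hY.symm)
      · exact ext_cl π _ (by
          rintro _ rfl
          refine Eq.trans ?_ hD.symm
          simp only [σ]
          rw [map_mul, map_pow, p3, p1, mul_inv_cancel_left])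
    · rintro (_ | _)
      · exact rd_cyc σ dy
      · refine rd_cyc σ fun e => ?_
        have := congrArg Multiplicative.toAdd e
        simp [σ, deg] at this
        omega

theorem rd_small [Finite B] [Subsingleton B] : RDb (Ball (gn M)) :=
  rd_of_homs (gn M) (MonoidHom.id _) (deg M) (deg M) fun x h _ => by
    have : ∃ n : ℤ, deg M x = Multiplicative.ofAdd n ∧ ∀ i, x = gn M i ^ n :=
      PresentedGroup.generated_by _
        { carrier := {x | ∃ n : ℤ, deg M x = Multiplicative.ofAdd n ∧ ∀ i, x = gn M i ^ n}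
          one_mem' := ⟨0, by simp⟩
          mul_mem' := fun ⟨n, h, h'⟩ ⟨m, k, k'⟩ => ⟨n + m, by simp [h, k], fun i => by
            rw [zpow_add, ← h', ← k']⟩
          inv_mem' := fun ⟨n, h, h'⟩ => ⟨-n, by simp [h], fun i => by rw [zpow_neg, ← h']⟩ }
        (fun j => ⟨1, by simp [deg], fun i => by simp [Subsingleton.elim i j]⟩) x
    obtain ⟨n, h1, h2⟩ := this
    have hn : n = 0 := by simpa [h1] using h
    cases isEmpty_or_nonempty B with
    | inl => exact PresentedGroup.generated_by _ ⊥ (fun j => isEmptyElim j) x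
    | inr k => simpa [hn] using h2 k.some

def sub (M : CoxeterMatrix B) (p : B → Prop) : CoxeterMatrix {i // p i} where
  M := Matrix.of fun i j => M i j
  isSymm := Matrix.IsSymm.ext fun i j => M.symmetric j i
  diagonal i := M.diagonal i
  off_diagonal i j h := M.off_diagonal i j fun e => h (Subtype.ext e)

def subE (M : CoxeterMatrix B) (p : B → Prop) : Emb (sub M p) M :=
  ⟨Subtype.val, Subtype.val_injective, fun _ _ => rfl⟩

theorem rd_join (p : B → Prop) (h : ∀ i j, p i → ¬ p j → M i j = 2)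
    (h1 : RDb (Ball (gn (sub M p)))) (h2 : RDb (Ball (gn (sub M fun i => ¬ p i)))) :
    RDb (Ball (gn M)) := by
  have a2 : ∀ {G : Type} [Group G] (x y : G), alt 2 x y = x * y := fun x y => by
    simpa using alt_two_mul 1 x y
  let φ : Ar M →* Ar (sub M p) × Ar (sub M fun i => ¬ p i) := alift
    (fun i => if e : p i then (gn _ ⟨i, e⟩, 1) else (1, gn _ ⟨i, e⟩)) fun i j _ h0 => by
      by_cases a : p i <;> by_cases b : p j <;> simp only [a, b, dif_pos, dif_neg, not_false_iff]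
      · have := congrArg (MonoidHom.inl _ (Ar (sub M fun i => ¬ p i))) (braid (M := sub M p)
          (i := ⟨i, a⟩) (j := ⟨j, b⟩) h0)
        rwa [map_alt, map_alt] at this
      · simp [h i j a b, a2]
      · simp [M.symmetric i, h j i b a, a2]
      · have := congrArg (MonoidHom.inr (Ar (sub M p)) _)
          (braid (M := sub M fun i => ¬ p i) (i := ⟨i, a⟩) (j := ⟨j, b⟩) h0)
        rwa [map_alt, map_alt] at this
  have cm : ∀ x y, Commute ((subE M p).hom x) ((subE M fun i => ¬ p i).hom y) := fun x y =>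
    PresentedGroup.generated_by _ ((Subgroup.centralizer {_}).comap (subE M p).hom) (fun i =>
      Subgroup.mem_centralizer_singleton_iff.2 (Eq.symm (Subgroup.mem_centralizer_singleton_iff.1
      (PresentedGroup.generated_by _ ((Subgroup.centralizer {_}).comap (subE M fun i => ¬ p i).hom)
        (fun j => Subgroup.mem_centralizer_singleton_iff.2 (by
          have := braid (M := M) (i := i) (j := j) (by simp [h _ _ i.2 j.2])
          rw [h _ _ i.2 j.2, a2, a2] at this
          simpa [subE] using this.symm)) y)))) x |> Subgroup.mem_centralizer_singleton_iff.1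
  have li : (MonoidHom.noncommCoprod _ _ cm).comp φ = MonoidHom.id _ :=
    PresentedGroup.ext fun i => by
      by_cases a : p i <;> simp [φ, a, subE]
  refine (h1.prod h2).comap φ (Function.LeftInverse.injective
    (g := MonoidHom.noncommCoprod _ _ cm) (DFunLike.congr_fun li)) 1
    fun r x hx => hx.map (B' := fun r (x : _ × _) => Ball _ r x.1 ∧ Ball _ r x.2)
      ⟨fun r x h => ⟨(Ball.isBall _).inv _ _ h.1, (Ball.isBall _).inv _ _ h.2⟩,
        fun r s x y h h' => ⟨(Ball.isBall _).mul _ _ _ _ h.1 h'.1,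
          (Ball.isBall _).mul _ _ _ _ h.2 h'.2⟩⟩ (fun r => ⟨Ball.one _ _, Ball.one _ _⟩) φ
      fun i => ?_
  by_cases a : p i <;> simp [φ, a, Ball.one, Ball.gen]

theorem rd_amalg (c : Bool → B) (h0 : M (c true) (c false) = 0)
    (h : ∀ i, RDb (Ball (gn (sub M (· ≠ c i))))) : RDb (Ball (gn M)) := by
  have hc : c true ≠ c false := fun e => by simp [e, M.diagonal] at h0
  let H : Bool → Subgroup (Ar M) := fun i => (subE M (· ≠ c i)).hom.range
  have m : ∀ i u, u ≠ c i → gn M u ∈ H i := fun i u hu => ⟨gn _ ⟨u, hu⟩, by simp [subE]⟩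
  have hC : ∀ i, Subgroup.closure (gn M '' {u | ∀ i, u ≠ c i}) ≤ H i := fun i => by
    rw [Subgroup.closure_le]
    rintro _ ⟨u, hu, rfl⟩
    exact m i u (hu i)
  refine amalg hC (nf_of_univ H _ hC fun K _ f hf => ?_) _ (fun u => ?_) gen
    fun i => (subE M _).up (h i)
  · let v : B → K := fun u =>
      if e : u = c true then f false ⟨_, m _ u (e ▸ hc)⟩ else f true ⟨_, m _ u e⟩
    have hv : ∀ i u (hu : u ≠ c i), v u = f i ⟨_, m i u hu⟩ := by
      rintro (_ | _) u hu
      · by_cases e : u = c true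
        · exact dif_pos e
        · exact (dif_neg e).trans (hf _ (Subgroup.subset_closure
            ⟨u, by rintro (_ | _) <;> assumption, rfl⟩))
      · exact dif_neg hu
    have hb : ∀ u w, u ≠ w → M u w ≠ 0 → alt (M u w) (v u) (v w) = alt (M u w) (v w) (v u) := by
      intro u w huw h1
      obtain ⟨i, a, b⟩ : ∃ i, u ≠ c i ∧ w ≠ c i := by
        by_contra hn
        push Not at hn
        by_cases a : u = c true
        · exact h1 (by rw [hn false (a ▸ hc), a, h0])
        · have b := hn true a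
          by_cases a' : u = c false
          · exact h1 (by rw [a', b, M.symmetric, h0])
          · exact hc (b.symm.trans (hn false a'))
      rw [hv i u a, hv i w b, ← map_alt, ← map_alt]
      refine congrArg _ ((H i).subtype_injective ?_)
      rw [map_alt, map_alt]
      exact braid h1
    refine ⟨alift v hb, ?_⟩
    rintro i ⟨_, a, rfl⟩
    exact DFunLike.congr_fun (PresentedGroup.ext (φ := (alift v hb).comp (subE M (· ≠ c i)).hom)
      (ψ := (f i).comp (subE M (· ≠ c i)).hom.rangeRestrict) fun u => by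
        simp only [MonoidHom.comp_apply, Emb.hom_gn, alift_gn]
        refine (hv i u u.2).trans (congrArg (f i) (Subtype.ext ?_))
        exact ((subE M (· ≠ c i)).hom_gn u).symm) a
  · by_cases e : u = c true
    exacts [⟨false, m _ u (e ▸ hc)⟩, ⟨true, m _ u e⟩]

def Hyp (M : CoxeterMatrix B) : Prop :=
  ∀ (B' : Type) [Fintype B'] (M' : CoxeterMatrix B'), Emb M' M → 3 ≤ Fintype.card B' →
    (∀ i j, M' i j ≠ 0) → (∀ p : B' → Prop, (∃ i, p i) → (∃ j, ¬ p j) →
      ∃ i j, p i ∧ ¬ p j ∧ M' i j ≠ 2) → RDb (Ball (gn M'))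

theorem rd_of_hyp (n : ℕ) : ∀ (B : Type) [Fintype B] (M : CoxeterMatrix B),
    Fintype.card B = n → Hyp M → RDb (Ball (gn M)) := by
  induction n using Nat.strong_induction_on with
  | _ n ih =>
    intro B _ M hn H
    have sb : ∀ (p : B → Prop) j, ¬ p j → RDb (Ball (gn (sub M p))) := fun p j hj =>
      ih _ (hn ▸ Fintype.card_subtype_lt hj) _ _ rfl fun B' _ M' E =>
        H B' M' ⟨fun i => (E.e i).1, Subtype.val_injective.comp E.inj, E.eq⟩
    by_cases h1 : ∃ i j, M i j = 0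
    · obtain ⟨i, j, h1⟩ := h1
      exact rd_amalg (fun b => b.rec j i) h1 fun b => sb _ _ (not_not.2 rfl)
    push Not at h1
    by_cases h2 : ∃ p : B → Prop, (∃ i, p i) ∧ (∃ j, ¬ p j) ∧ ∀ i j, p i → ¬ p j → M i j = 2
    · obtain ⟨p, ⟨i, hi⟩, ⟨j, hj⟩, h2⟩ := h2
      exact rd_join p h2 (sb _ _ hj) (sb _ _ (not_not.2 hi))
    push Not at h2
    by_cases h3 : 3 ≤ Fintype.card B
    · exact H B M ⟨id, Function.injective_id, fun _ _ => rfl⟩ h3 h1 h2
    by_cases h4 : Fintype.card B ≤ 1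
    · have := Fintype.card_le_one_iff_subsingleton.1 h4
      exact rd_small
    obtain ⟨a, b, hab, h5⟩ := Finset.card_eq_two.1 (show (Finset.univ : Finset B).card = 2 by
      rw [Finset.card_univ]; omega)
    exact rd_dih (fun i => by simpa [h5] using Finset.mem_univ i) hab (h1 a b)

theorem main (n : ℕ) (M : CoxeterMatrix (Fin n)) : HasRD M ↔
    ∀ T : Finset (Fin n), 3 ≤ T.card → (∀ i ∈ T, ∀ j ∈ T, M i j ≠ 0) →
      (∀ U ⊆ T, U.Nonempty → U ≠ T → ∃ i ∈ U, ∃ j ∈ T \ U, M i j ≠ 2) → HasRD (res M T) := by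
  have e : ∀ {B : Type} (M : CoxeterMatrix B), HasRD M ↔ RDb (Ball (gn M)) := fun M => rd_iff _
  simp only [e]
  refine ⟨fun h T _ _ _ => Emb.down ⟨Subtype.val, Subtype.val_injective, fun _ _ => rfl⟩ h,
    fun h => rd_of_hyp _ _ M rfl fun B' _ M' E h1 h2 h3 => ?_⟩
  refine Emb.down (M := res M (Finset.univ.image E.e)) ⟨fun i => ⟨E.e i, by simp⟩,
    fun i j e => E.inj (congrArg Subtype.val e), E.eq⟩ (h _ ?_ ?_ fun U hU ⟨u, hu⟩ hne => ?_)
  · rwa [Finset.card_image_of_injective _ E.inj]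
  · simp only [Finset.mem_image, Finset.mem_univ, true_and]
    rintro _ ⟨i, rfl⟩ _ ⟨j, rfl⟩
    exact E.eq i j ▸ h2 i j
  · obtain ⟨i, -, rfl⟩ := Finset.mem_image.1 (hU hu)
    obtain ⟨w, h4, h5⟩ := Finset.exists_of_ssubset (hU.ssubset_of_ne hne)
    obtain ⟨j, -, rfl⟩ := Finset.mem_image.1 h4
    obtain ⟨a, b, c1, c2, c3⟩ := h3 (fun i => E.e i ∈ U) ⟨i, hu⟩ ⟨j, h5⟩
    exact ⟨_, c1, E.e b, by simp [c2], E.eq a b ▸ c3⟩

end

end Pool.Agent.Lib.MP_35cce7_an
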