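import Pool.Agent.Lib.MP_35cce7_an.SysArt

/-! Definitions for the last 2-dimensional case (Coxeter diagram a 4-cycle). -/

namespace Pool.Agent.Lib.MP_35cce7_an.Q

section
variable {V : Type}

/-- a graph with designated squares and the local cube conditions -/
structure QL (d : V → V → ℕ) (Sq : V → V → V → V → Prop) : Prop extends Met d where
  rot : ∀ {a b c e}, Sq a b c e → Sq b c e a
  rev : ∀ {a b c e}, Sq a b c e → Sq a e c b
  adj : ∀ {a b c e}, Sq a b c e → d a b = 1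
  ne : ∀ {a b c e}, Sq a b c e → a ≠ c
  cc0 : ∀ {w p z q r}, Sq w p z q → Sq w q z r → p = r ∨ Sq w p z r
  cc : ∀ {v w w' q z p r}, Sq v w q w' → Sq w q z p → Sq w' q z r →
    Sq v w q z ∨ Sq v w' q z ∨
      ∃ y, (y = w ∨ Sq v w p y) ∧ (y = w' ∨ Sq v w' r y) ∧ (p = r ∨ Sq y p z r)

/-- a covering of the square complex -/
structure QCv (d : V → V → ℕ) (Sq : V → V → V → V → Prop) {U : Type} (f : U → V)
    (A : U → U → Prop) : Prop where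
  symm : ∀ {p q}, A p q → A q p
  hom : ∀ {p q}, A p q → d (f p) (f q) = 1
  inj : ∀ {p q r}, A p q → A p r → f q = f r → q = r
  lift : ∀ {p z}, d (f p) z = 1 → ∃ q, A p q ∧ f q = z
  sq : ∀ {p q r z}, A p q → A p r → Sq (f p) (f q) z (f r) → ∃ s, A q s ∧ A r s ∧ f s = z

/-- connected coverings of the square complex are trivial -/
def QSC (d : V → V → ℕ) (Sq : V → V → V → V → Prop) : Prop :=
  ∀ (U : Type) (f : U → V) (A : U → U → Prop), QCv d Sq f A →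
    ∀ p q, Relation.ReflTransGen A p q → f p = f q → p = q

/-- modular graph whose quadrangle condition is met by designated squares -/
structure QM (d : V → V → ℕ) (Sq : V → V → V → V → Prop) : Prop extends QL d Sq where
  bip : ∀ o {a b}, d a b = 1 → d o a ≠ d o b
  qc : ∀ o {a b z}, d z a = 1 → d z b = 1 → d o a + 1 = d o z → d o b + 1 = d o z →
    a = b ∨ ∃ c, d o c + 2 = d o z ∧ Sq c a z b

/-- links have no induced 4-cycles and 5-cycles -/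
structure Lg (d : V → V → ℕ) : Prop extends Met d where
  l4 : ∀ {w a b c e}, d w a = 1 → d w b = 1 → d w c = 1 → d w e = 1 → d a b ≤ 1 → d b c ≤ 1 →
    d c e ≤ 1 → d e a ≤ 1 → d a c ≤ 1 ∨ d b e ≤ 1
  l5 : ∀ {w a b c e f}, d w a = 1 → d w b = 1 → d w c = 1 → d w e = 1 → d w f = 1 →
    d a b ≤ 1 → d b c ≤ 1 → d c e ≤ 1 → d e f ≤ 1 → d f a ≤ 1 →
    d a c ≤ 1 ∨ d b e ≤ 1 ∨ d c f ≤ 1 ∨ d e a ≤ 1 ∨ d f b ≤ 1

/-- connected coverings of the clique complex are trivial (coverings with unique lifts) -/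
def SC1 (d : V → V → ℕ) : Prop := ∀ (U : Type) (f : U → V) (N : U → U → Prop), Cov d f N →
  (∀ p q, N p q → f p = f q → p = q) → ∀ p q, Relation.ReflTransGen N p q → f p = f q → p = q

/-- triangle condition and parent cliques -/
structure SM (d : V → V → ℕ) : Prop extends Met d where
  tc : ∀ o {a b k}, d o a = k + 1 → d o b = k + 1 → d a b ≤ 1 →
    ∃ c, d c a = 1 ∧ d c b = 1 ∧ d o c = k
  pc : ∀ o {a b z k}, d z a = 1 → d z b = 1 → d o a = k → d o b = k → d o z = k + 1 → d a b ≤ 1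

end

/-- simple connectivity of a chamber system given by its vertex maps -/
def SCC {ι C Y : Type} (vx : ι → C → Y) : Prop :=
  ∀ (Ch : Type) (π : Ch → C) (r : ι → Ch → Ch → Prop), (∀ i, Equivalence (r i)) →
    (∀ i c c', r i c c' → vx i (π c) = vx i (π c')) →
    (∀ i c g, vx i (π c) = vx i g → ∃ c', r i c c' ∧ π c' = g) →
    (∀ i c c', r i c c' → π c = π c' → c = c') →
    (∀ i j c c', r i c c' → vx j (π c) = vx j (π c') → r j c c') →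
    ∀ c c', Relation.ReflTransGen (fun c c' => ∃ i, r i c c') c c' → π c = π c' → c = c'

section
variable {X P C : Type}

/-- coplanar points -/
def cop (inc : X → P → Prop) (x y : X) : Prop := ∃ K, inc x K ∧ inc y K

/-- a layer: points of two kinds (`true` = odd), planes, chambers -/
structure Lay (k : X → Bool) (inc : X → P → Prop) (cx : Bool → C → X) (cp : C → P) : Prop where
  ck : ∀ b c, k (cx b c) = b
  ci : ∀ b c, inc (cx b c) (cp c)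
  flag : ∀ {x y K}, inc x K → inc y K → k x = true → k y = false →
    ∃ c, cx true c = x ∧ cx false c = y ∧ cp c = K
  pt : ∀ x, ∃ K, inc x K
  rich : ∀ K b, ∃ x y z, inc x K ∧ inc y K ∧ inc z K ∧ k x = b ∧ k y = b ∧ k z = b ∧
    x ≠ y ∧ y ≠ z ∧ x ≠ z
  conn : ∀ c c', Relation.ReflTransGen (fun c c' => ∃ b, cx b c = cx b c') c c'
  scc : SCC fun (i : Option Bool) c => (i.elim (Sum.inr (cp c)) fun b => Sum.inl (cx b c) : X ⊕ P)

/-- the link of a point of kind `b` has no cycle with fewer than `m` planes -/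
def Gi (k : X → Bool) (inc : X → P → Prop) (b : Bool) (m : ℕ) : Prop :=
  ∀ n, 0 < n → n < m → ∀ (x : X) (y : ℕ → X) (K : ℕ → P), k x = b →
    (∀ i < n, k (y i) ≠ b ∧ inc x (K i) ∧ inc (y i) (K i) ∧ inc (y (i + 1)) (K i) ∧
      y i ≠ y (i + 1) ∧ K i ≠ K (i + 1)) → y n = y 0 → K n = K 0 → False

/-- the facts on a layer that the geometry of `Z` uses -/
structure LF (k : X → Bool) (inc : X → P → Prop) : Prop where
  f1a : ∀ {x x' K K'}, x ≠ x' → k x = k x' → inc x K → inc x' K → inc x K' → inc x' K' → K = K'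
  f1b : ∀ {x x' y K}, x ≠ x' → k x = k x' → k y ≠ k x → inc x K → inc x' K → cop inc y x →
    cop inc y x' → inc y K
  f1c : ∀ {x x' y y'}, x ≠ x' → y ≠ y' → k x = k x' → k y = k y' → k x ≠ k y → cop inc x y →
    cop inc x y' → cop inc x' y → cop inc x' y' → ∃ K, inc x K ∧ inc x' K ∧ inc y K ∧ inc y' K
  f2 : ∀ {x y z}, k x = k y → k y = k z → cop inc x y → cop inc y z → cop inc x z →
    (∃ K, inc x K ∧ inc y K ∧ inc z K) ∨
      ∃ o, k o ≠ k x ∧ cop inc o x ∧ cop inc o y ∧ cop inc o z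
  ax3 : ∀ {o x y z K K' K''}, k o = true → k x = false → k y = false → k z = false → x ≠ y →
    inc o K → inc x K → inc y K → inc o K' → inc y K' → inc z K' → inc o K'' → inc x K'' →
    inc z K'' → inc z K
  ax1 : ∀ {w s e n K K'}, k w = false → k s = false → w ≠ s → inc w K → inc s K → cop inc s e →
    cop inc n w → inc e K' → inc n K' →
    inc e K ∨ inc n K ∨ (k e = k n ∧ ∃ x, inc x K ∧ inc x K')
  ax4 : ∀ {w s e n K K' K₁ K₂}, k w = true → k s = true → k e = true → k n = true → w ≠ s →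
    inc w K → inc s K → inc s K₂ → inc e K₂ → inc e K' → inc n K' → inc n K₁ → inc w K₁ →
    (∃ x, inc x K ∧ inc x K') ∨ ∃ x, k x = false ∧ inc x K ∧ (inc x K₁ ∨ inc x K₂)
  sel : ∃ σ : P → X → Prop, (∀ K, {x | σ K x}.encard ≤ 2) ∧ ∀ {K K' x y}, K ≠ K' → k x ≠ k y →
    inc x K → inc y K → inc x K' → inc y K' → σ K x ∨ σ K y ∨ σ K' x ∨ σ K' y

/-- adjacency of points in case B: collinear, or distinct coplanar even points -/
def aj (k : X → Bool) (inc : X → P → Prop) (x y : X) : Prop :=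
  x ≠ y ∧ ¬ (k x = true ∧ k y = true) ∧ cop inc x y

/-- levels of points from the base point `r` in case B -/
structure Lev (k : X → Bool) (inc : X → P → Prop) (r : X) (l : X → ℕ) : Prop where
  zero : ∀ {x}, l x = 0 ↔ x = r
  lip : ∀ {x y}, aj k inc x y → l y ≤ l x + 1
  par : ∀ {x n}, l x = n + 1 → ∃ y, aj k inc y x ∧ l y = n
  tcl : ∀ {o e n}, k o = true → k e = false → cop inc o e → l o = n + 1 → l e = n + 1 →
    ∃ K e', inc o K ∧ inc e K ∧ inc e' K ∧ k e' = false ∧ l e' = n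
  tce : ∀ {e e' K n}, k e = false → k e' = false → e ≠ e' → inc e K → inc e' K → l e = n + 1 →
    l e' = n + 1 → ∃ x, inc x K ∧ l x = n
  pc : ∀ {x p q n}, aj k inc p x → aj k inc q x → l p = n → l q = n → l x = n + 1 →
    p = q ∨ (¬ (k p = true ∧ k q = true) ∧ ∃ K, inc x K ∧ inc p K ∧ inc q K)

end

/-- a set with four types and the relation equal or incident -/
structure Zd (V : Type) where
  ty : V → Bool × Bool
  N : V → V → Prop
  d : V → V → ℕ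

namespace Zd

variable {V : Type} (Z : Zd V)

def ev (a b : V) : Prop := Z.N a b ∧ (Z.ty a).1 ≠ (Z.ty b).1 ∧ (Z.ty a).2 = (Z.ty b).2

def od (a b : V) : Prop := Z.N a b ∧ (Z.ty a).1 = (Z.ty b).1 ∧ (Z.ty a).2 ≠ (Z.ty b).2

def ad (a b : V) : Prop := Z.ev a b ∨ Z.od a b

def pt (a b : V) : Prop := Z.N a b ∧ (Z.ty a).1 ≠ (Z.ty b).1 ∧ (Z.ty a).2 ≠ (Z.ty b).2

/-- coplanar in the layer `w` -/
def cp (w x y : V) : Prop := ∃ K, Z.pt w K ∧ Z.N x K ∧ Z.N y K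

def Sq (a b c e : V) : Prop :=
  Z.ad a b ∧ Z.ad b c ∧ Z.ad c e ∧ Z.ad e a ∧ a ≠ c ∧ b ≠ e ∧ (Z.N a c ∨ Z.N b e)

def Sel (σ : V → V → V → Prop) : Prop :=
  (∀ m K, {x | σ m K x}.encard ≤ 2) ∧ ∀ m K K' x y, Z.pt m K → Z.pt m K' → K ≠ K' → Z.ad m x →
    Z.ad m y → Z.ty x ≠ Z.ty y → Z.N x K → Z.N y K → Z.N x K' → Z.N y K' →
    σ m K x ∨ σ m K y ∨ σ m K' x ∨ σ m K' y

/-- the basic axioms -/
structure ZB : Prop extends Met Z.d where
  nrefl : ∀ a, Z.N a a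
  nsymm : ∀ {a b}, Z.N a b → Z.N b a
  ninj : ∀ {a b}, Z.N a b → Z.ty a = Z.ty b → a = b
  dad : ∀ {a b}, Z.d a b = 1 ↔ Z.ad a b
  jj : ∀ {w K x y}, Z.pt w K → Z.ad w x → Z.ad w y → Z.N x K → Z.N y K → Z.ty x ≠ Z.ty y →
    Z.N x y
  lp : ∀ {w x y}, Z.ad w x → Z.ad w y → Z.N x y → Z.cp w x y
  rich : ∀ {w K}, Z.pt w K → ∀ b, ∃ x y, x ≠ y ∧ Z.ad w x ∧ Z.ad w y ∧ Z.N x K ∧ Z.N y K ∧
    Z.ty x = Z.ty y ∧ (Z.ty x).1 = b

/-- the layer facts, for all layers -/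
structure ZF : Prop extends Z.ZB where
  f1a : ∀ {w x x' K K'}, Z.pt w K → Z.pt w K' → Z.ad w x → Z.ad w x' → x ≠ x' →
    Z.ty x = Z.ty x' → Z.N x K → Z.N x' K → Z.N x K' → Z.N x' K' → K = K'
  f1b : ∀ {w x x' y K}, Z.pt w K → Z.ad w x → Z.ad w x' → Z.ad w y → x ≠ x' → Z.ty x = Z.ty x' →
    Z.ty y ≠ Z.ty x → Z.N x K → Z.N x' K → Z.N y x → Z.N y x' → Z.N y K
  f1c : ∀ {w x x' y y'}, Z.ad w x → Z.ad w x' → Z.ad w y → Z.ad w y' → x ≠ x' → y ≠ y' →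
    Z.ty x = Z.ty x' → Z.ty y = Z.ty y' → Z.ty x ≠ Z.ty y → Z.N x y → Z.N x y' → Z.N x' y →
    Z.N x' y' → ∃ K, Z.pt w K ∧ Z.N x K ∧ Z.N x' K ∧ Z.N y K ∧ Z.N y' K
  f2 : ∀ {w x y z}, Z.ad w x → Z.ad w y → Z.ad w z → Z.ty x = Z.ty y → Z.ty y = Z.ty z →
    Z.cp w x y → Z.cp w y z → Z.cp w x z → (∃ K, Z.pt w K ∧ Z.N x K ∧ Z.N y K ∧ Z.N z K) ∨
      ∃ o, Z.ad w o ∧ Z.ty o ≠ Z.ty x ∧ Z.N o x ∧ Z.N o y ∧ Z.N o z
  ax3 : ∀ {w o x y z K K' K''}, Z.od w o → Z.ev w x → Z.ev w y → Z.ev w z → x ≠ y → Z.pt w K →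
    Z.pt w K' → Z.pt w K'' → Z.N o K → Z.N x K → Z.N y K → Z.N o K' → Z.N y K' → Z.N z K' →
    Z.N o K'' → Z.N x K'' → Z.N z K'' → Z.N z K
  ax1 : ∀ {g w s e n K K'}, Z.ev g w → Z.ev g s → Z.ad g e → Z.ad g n → w ≠ s → Z.pt g K →
    Z.pt g K' → Z.N w K → Z.N s K → Z.cp g s e → Z.cp g n w → Z.N e K' → Z.N n K' →
    Z.N e K ∨ Z.N n K ∨ (Z.ty e = Z.ty n ∧ ∃ x, Z.ad g x ∧ Z.N x K ∧ Z.N x K')
  ax4 : ∀ {g w s e n K K' K₁ K₂}, Z.od g w → Z.od g s → Z.od g e → Z.od g n → w ≠ s → Z.pt g K →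
    Z.pt g K' → Z.pt g K₁ → Z.pt g K₂ → Z.N w K → Z.N s K → Z.N s K₂ → Z.N e K₂ → Z.N e K' →
    Z.N n K' → Z.N n K₁ → Z.N w K₁ →
    (∃ x, Z.ad g x ∧ Z.N x K ∧ Z.N x K') ∨ ∃ x, Z.ev g x ∧ Z.N x K ∧ (Z.N x K₁ ∨ Z.N x K₂)
  sel : ∃ σ, Z.Sel σ

/-- the layer facts and modularity -/
structure ZM : Prop extends Z.ZF where
  bip : ∀ o {a b}, Z.ad a b → Z.d o a ≠ Z.d o b
  qc : ∀ o {a b z}, Z.ad z a → Z.ad z b → Z.d o a + 1 = Z.d o z → Z.d o b + 1 = Z.d o z →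
    a = b ∨ ∃ c, Z.d o c + 2 = Z.d o z ∧ Z.Sq c a z b

/-- kind of a point of the layer `w` -/
def kw (w : V) (x : {x // Z.ad w x}) : Bool := decide ((Z.ty w).1 = (Z.ty x.1).1)

/-- incidence in the layer `w` -/
def iw (w : V) (x : {x // Z.ad w x}) (K : {K // Z.pt w K}) : Prop := Z.N x.1 K.1

/-- interval -/
def I (u v z : V) : Prop := Z.d u z + Z.d z v = Z.d u v

/-- parent towards `u` -/
def Dn (u z x : V) : Prop := Z.ad z x ∧ Z.d u x + 1 = Z.d u z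

def Small (u z : V) : Prop := ∀ x x', Z.Dn u z x → Z.Dn u z x' → Z.ty x = Z.ty x' → x = x'

/-- partner two levels down -/
def Prt (u z K : V) : Prop := Z.pt z K ∧ Z.d u K + 2 = Z.d u z

def Side (u p s t : V) : Prop :=
  ∀ x, Z.Dn u p x → x = s ∨ (Z.od p s ∧ ∃ o, Z.pt p o ∧ Z.N o s ∧ Z.N o x ∧ Z.N o t)

def Bad (u v p : V) : Prop := Z.Small u p ∧ Z.Small v p ∧
  ∃ s t, Z.Dn u p s ∧ Z.Dn v p t ∧ Z.pt s t ∧ Z.Side u p s t ∧ Z.Side v p t s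

def Can (u v p : V) : Prop := Z.I u v p ∧ ¬ Z.Bad u v p

def Ex (μ s t m : V) : Prop := (Z.pt μ m ∧ Z.N s m ∧ Z.N t m) ∨
  (¬ Z.cp μ s t ∧ Z.ad μ m ∧ Z.pt m s ∧ Z.pt m t)

def S (u : V) (σ : V → V → V → Prop) (v : V) (τ : V → V → V → Prop) (m : V) : Prop :=
  ∃ μ, Z.Can u v μ ∧ (m = μ ∨ (Z.Small u μ ∧ Z.Dn u μ m) ∨ (Z.Small v μ ∧ Z.Dn v μ m) ∨
    (Z.Small u μ ∧ Z.Small v μ ∧ ∃ s t, Z.Dn u μ s ∧ Z.Dn v μ t ∧ Z.ty s = Z.ty t ∧ Z.Ex μ s t m) ∨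
    (∃ K, Z.Prt u μ K ∧ τ μ K m) ∨ ∃ K, Z.Prt v μ K ∧ σ μ K m)

/-- centre, or spine `a`, `c` with page `b` -/
def Tr (t : Bool × Bool) (a b c : V) : Prop :=
  Z.ty b = t ∧ ((a = b ∧ b = c) ∨ (Z.pt a c ∧ Z.ad a b ∧ Z.ad c b))

def Iv (a b m : V) : Prop := m = a ∨ m = b ∨ (a ≠ b ∧ Z.ty a = Z.ty b ∧ Z.ad a m ∧ Z.ad b m)

end Zd

/-- the pattern of a triple with the doubled vertex at the middle place -/
def Pat {A V T : Type} (Tr : T → V → V → V → Prop) (S : A → A → V → Prop) (x y z : A) : Prop :=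
  ∃ t a b c, Tr t a b c ∧ S x y a ∧ S x z a ∧ S x y b ∧ S y z b ∧ S x z c ∧ S y z c

end Pool.Agent.Lib.MP_35cce7_an.Q
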