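import Pool.Agent.Lib.MP_35cce7_an.QG1
import Pool.Agent.Lib.MP_35cce7_an.QScc
import Pool.Agent.Lib.MP_35cce7_an.QGirth

namespace Pool.Agent.Lib.MP_35cce7_an.Q

variable {M : CoxeterMatrix (Bool × Bool)}

/-- type of the points of kind `b` in a layer of type `t` -/
def tk (t : Bool × Bool) : Bool → Bool × Bool
  | true => (t.1, !t.2)
  | false => (!t.1, t.2)

/-- type of the planes in a layer of type `t` -/
def tp (t : Bool × Bool) : Bool × Bool := (!t.1, !t.2)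

lemma ty_kw {w : V4 M} (x : {x // (Z4 M).ad w x}) : x.1.1 = tk w.1 ((Z4 M).kw w x) := by
  have h := ad_ty x.2
  change x.1.1 = tk w.1 (decide (w.1.1 = x.1.1.1))
  revert h
  generalize w.1 = a, x.1.1 = c
  revert a c
  decide

lemma ty_pt {w : V4 M} (K : {K // (Z4 M).pt w K}) : K.1.1 = tp w.1 := by
  have h : w.1.1 ≠ K.1.1.1 ∧ w.1.2 ≠ K.1.1.2 := K.2.2
  revert h
  generalize w.1 = a, K.1.1 = c
  revert a c
  decide

/-- the point of kind `b` of a chamber -/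
def cx4 (w : V4 M) (b : Bool) (c : {g // In4 g w}) : {x // (Z4 M).ad w x} :=
  ⟨⟨tk w.1 b, c.1⟩, z4_ad.2 ⟨⟨c.1, c.2, In4.mk _ _⟩, by cases b <;> simp [tk]⟩⟩

/-- the plane of a chamber -/
def cp4 (w : V4 M) (c : {g // In4 g w}) : {K // (Z4 M).pt w K} :=
  ⟨⟨tp w.1, c.1⟩, ⟨c.1, c.2, In4.mk _ _⟩, by simp [Z4, tp], by simp [Z4, tp]⟩

lemma kw_cx4 (w : V4 M) (b : Bool) (c : {g // In4 g w}) : (Z4 M).kw w (cx4 w b c) = b := by
  change decide (w.1.1 = (tk w.1 b).1) = b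
  cases b <;> simp [tk]

lemma cx4_eq {w : V4 M} {b : Bool} {c c' : {g // In4 g w}} :
    cx4 w b c = cx4 w b c' ↔ c.1⁻¹ * c'.1 ∈ par M {i | i ≠ tk w.1 b} :=
  ⟨fun e => (In4.mk c.1 (tk w.1 b)).iff.1 (by
      have h : In4 c'.1 (cx4 w b c').1 := In4.mk _ _
      rwa [← e] at h),
    fun e => Subtype.ext (((In4.mk c.1 _).iff.2 e).eq (In4.mk c'.1 _) rfl)⟩

lemma cp4_eq {w : V4 M} {c c' : {g // In4 g w}} :
    cp4 w c = cp4 w c' ↔ c.1⁻¹ * c'.1 ∈ par M {i | i ≠ tp w.1} :=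
  ⟨fun e => (In4.mk c.1 (tp w.1)).iff.1 (by
      have h : In4 c'.1 (cp4 w c').1 := In4.mk _ _
      rwa [← e] at h),
    fun e => Subtype.ext (((In4.mk c.1 _).iff.2 e).eq (In4.mk c'.1 _) rfl)⟩

/-- a chamber through two points of different kinds of a plane -/
lemma flag4 (h2 : ∀ i j, i.1 ≠ j.1 → i.2 ≠ j.2 → M i j = 2) {w : V4 M}
    {x y : {x // (Z4 M).ad w x}} {K : {K // (Z4 M).pt w K}} (h3 : (Z4 M).iw w x K)
    (h4 : (Z4 M).iw w y K) (hk : (Z4 M).kw w x ≠ (Z4 M).kw w y) :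
    ∃ g, In4 g w ∧ In4 g x.1 ∧ In4 g y.1 ∧ In4 g K.1 := by
  refine N4.four (ad_n x.2) (ad_n y.2) K.2.1 ((z4_zb h2).jj K.2 x.2 y.2 h3 h4 ?_) h3 h4
  change x.1.1 ≠ y.1.1
  rw [ty_kw, ty_kw]
  revert hk
  generalize w.1 = a, (Z4 M).kw w x = c, (Z4 M).kw w y = d
  revert a c d
  decide

theorem z4_lay (h2 : ∀ i j, i.1 ≠ j.1 → i.2 ≠ j.2 → M i j = 2) (w : V4 M) :
    ∃ (C : Type) (cx : Bool → C → _) (cp : C → _), Lay ((Z4 M).kw w) ((Z4 M).iw w) cx cp := by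
  refine ⟨{g // In4 g w}, cx4 w, cp4 w, kw_cx4 w, fun b c => ⟨c.1, In4.mk _ _, In4.mk _ _⟩,
    fun {x y K} h3 h4 kx ky => ?_, fun x => ?_, fun K b => ?_, fun c c' => ?_, ?_⟩
  · obtain ⟨g, g1, g2, g3, g4⟩ := flag4 h2 h3 h4 (by simp [kx, ky])
    exact ⟨⟨g, g1⟩, Subtype.ext ((In4.mk g _).eq g2 (by rw [ty_kw x, kx])),
      Subtype.ext ((In4.mk g _).eq g3 (by rw [ty_kw y, ky])),
      Subtype.ext ((In4.mk g _).eq g4 (ty_pt K).symm)⟩
  · obtain ⟨g, g1, g2⟩ := ad_n x.2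
    exact ⟨cp4 w ⟨g, g1⟩, g, g2, In4.mk _ _⟩
  · obtain ⟨g, g1, g2⟩ := K.2.1
    have t1 : tk w.1 b ≠ w.1 ∧ tk w.1 b ≠ tp w.1 := by
      generalize w.1 = a
      revert a b
      decide
    have a1 : ∀ n : ℤ, In4 (g * gn M (tk w.1 b) ^ n) w := fun n =>
      g1.iff.2 (by simpa using zpow_mem_par (S := {i | i ≠ w.1}) t1.1 n)
    have a2 : ∀ n : ℤ, (Z4 M).iw w (cx4 w b ⟨_, a1 n⟩) K := fun n => ⟨_, In4.mk _ _,
      g2.iff.2 (by simpa using zpow_mem_par (S := {i | i ≠ K.1.1}) (ty_pt K ▸ t1.2) n)⟩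
    have a3 : ∀ n n' : ℤ, n ≠ n' → cx4 w b ⟨_, a1 n⟩ ≠ cx4 w b ⟨_, a1 n'⟩ := fun n n' h e => by
      have := zpow_eq_zero (M := M) (S := {i | i ≠ tk w.1 b}) (i := tk w.1 b) (n := -n + n')
        (by simp) (by simpa [zpow_add, mul_assoc] using cx4_eq.1 e)
      omega
    exact ⟨_, _, _, a2 0, a2 1, a2 2, kw_cx4 _ _ _, kw_cx4 _ _ _, kw_cx4 _ _ _,
      a3 _ _ (by omega), a3 _ _ (by omega), a3 _ _ (by omega)⟩
  · have key : ∀ u ∈ par M {i | i ≠ w.1}, ∀ c' : {g // In4 g w}, c'.1 = c.1 * u →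
        Relation.ReflTransGen (fun c c' => ∃ b, cx4 w b c = cx4 w b c') c c' := fun u hu => by
      have st : ∀ x ∈ par M {i | i ≠ w.1}, ∀ y i, (y = gn M i ∨ y = (gn M i)⁻¹) →
          (∀ c' : {g // In4 g w}, c'.1 = c.1 * x →
            Relation.ReflTransGen (fun c c' => ∃ b, cx4 w b c = cx4 w b c') c c') →
          ∀ c' : {g // In4 g w}, c'.1 = c.1 * (x * y) →
            Relation.ReflTransGen (fun c c' => ∃ b, cx4 w b c = cx4 w b c') c c' := by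
        intro x hx y i hy h c' e
        obtain ⟨b, hb⟩ := (by decide : ∀ i a : Bool × Bool, ∃ b, i ≠ tk a b) i w.1
        refine (h ⟨c.1 * x, c.2.iff.2 (by simpa using hx)⟩ rfl).tail ⟨b, cx4_eq.2 ?_⟩
        rw [e]
        rcases hy with rfl | rfl <;>
          simpa [mul_assoc] using gn_mem (S := {i | i ≠ tk w.1 b}) hb
      refine Subgroup.closure_induction_right (p := fun u _ => ∀ c' : {g // In4 g w},
        c'.1 = c.1 * u → Relation.ReflTransGen (fun c c' => ∃ b, cx4 w b c = cx4 w b c') c c')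
        (fun c' e => ?_) ?_ ?_ hu
      · rw [show c' = c from Subtype.ext (by simpa using e)]
      · rintro x hx _ ⟨i, -, rfl⟩ h
        exact st x hx _ i (Or.inl rfl) h
      · rintro x hx _ ⟨i, -, rfl⟩ h
        exact st x hx _ i (Or.inr rfl) h
    exact key _ (c.2.iff.1 c'.2) c' (by simp)
  · refine scc_par M {i | i ≠ w.1}
      (fun o : Option Bool => {i | i ≠ w.1} ∩ {i | i ≠ o.elim (tp w.1) (tk w.1)})
      (fun _ => Set.inter_subset_left) ?_ Subtype.val Subtype.val_injective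
      (fun c h hh => ⟨⟨c.1 * h, c.2.iff.2 (by simpa using hh)⟩, rfl⟩) _ fun o c c' => ?_
    · simp only [Set.mem_inter_iff, Set.mem_ofPred_eq]
      generalize w.1 = a
      revert a
      decide
    · have e : ∀ t, c.1⁻¹ * c'.1 ∈ par M {i | i ≠ t} ↔
          c.1⁻¹ * c'.1 ∈ par M ({i | i ≠ w.1} ∩ {i | i ≠ t}) := fun t =>
        ⟨par_inf (c.2.iff.1 c'.2), fun h => par_mono Set.inter_subset_right h⟩
      cases o with
      | none => exact Sum.inr_injective.eq_iff.trans (cp4_eq.trans (e _))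
      | some b => exact Sum.inl_injective.eq_iff.trans (cx4_eq.trans (e _))

theorem z4_gi (h2 : ∀ i j, i.1 ≠ j.1 → i.2 ≠ j.2 → M i j = 2) (w : V4 M) (b : Bool) (m : ℕ)
    (h : ∀ i j, i ≠ j → (if b then i.1 = j.1 else i.2 = j.2) → m ≤ M i j) :
    Gi ((Z4 M).kw w) ((Z4 M).iw w) b m := by
  intro n n0 nm x y K kx H e1 e2
  have ex : ∀ (y : {x // (Z4 M).ad w x}) (K : {K // (Z4 M).pt w K}), ∃ g,
      (Z4 M).kw w y ≠ b → (Z4 M).iw w x K → (Z4 M).iw w y K →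
        In4 g w ∧ In4 g x.1 ∧ In4 g y.1 ∧ In4 g K.1 := fun y K => by
    by_cases c : (Z4 M).kw w y ≠ b ∧ (Z4 M).iw w x K ∧ (Z4 M).iw w y K
    · obtain ⟨g, hg⟩ := flag4 h2 c.2.1 c.2.2 (kx ▸ c.1.symm)
      exact ⟨g, fun _ _ _ => hg⟩
    · exact ⟨1, fun a1 a2 a3 => (c ⟨a1, a2, a3⟩).elim⟩
  choose G hG using ex
  have H' : ∀ i ≤ n, (Z4 M).kw w (y i) ≠ b ∧ (Z4 M).iw w x (K i) ∧ (Z4 M).iw w (y i) (K i) :=
    fun i hi => by
      rcases hi.eq_or_lt with rfl | hi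
      · rw [e1, e2]
        exact ⟨(H 0 n0).1, (H 0 n0).2.1, (H 0 n0).2.2.1⟩
      · exact ⟨(H i hi).1, (H i hi).2.1, (H i hi).2.2.1⟩
  have tx : x.1.1 = tk w.1 b := by rw [ty_kw, kx]
  have ty : ∀ i ≤ n, (y i).1.1 = tk w.1 (!b) := fun i hi => by
    rw [ty_kw, Bool.eq_not_iff.2 (H' i hi).1]
  have t1 : (∀ i, (i ≠ w.1 ∧ i ≠ tk w.1 b) ∧ i ≠ tp w.1 → i = tk w.1 (!b)) ∧
      (∀ i, (i ≠ w.1 ∧ i ≠ tk w.1 b) ∧ i ≠ tk w.1 (!b) → i = tp w.1) := by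
    generalize w.1 = a, b = c
    constructor <;> revert a c <;> decide
  have st : ∀ i, ∃ p : ℤ × ℤ, i < n → (p.1 ≠ 0 ∧ p.2 ≠ 0) ∧
      gn M (tk w.1 (!b)) ^ p.1 * gn M (tp w.1) ^ p.2 =
        (G (y i) (K i))⁻¹ * G (y (i + 1)) (K (i + 1)) := fun i => by
    by_cases hi : i < n
    swap
    · exact ⟨0, fun c => (hi c).elim⟩
    obtain ⟨k1, k2, k3, k4, k5, k6⟩ := H i hi
    obtain ⟨l1, l2, l3⟩ := H' (i + 1) hi
    obtain ⟨a1, a2, a3, a4⟩ := hG _ _ k1 k2 k3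
    obtain ⟨b1, b2, b3, b4⟩ := hG _ _ l1 k2 k4
    obtain ⟨c1, c2, c3, c4⟩ := hG _ _ l1 l2 l3
    have u1 := par_inf (par_inf (a1.iff.1 b1) (a2.iff.1 b2)) (a4.iff.1 b4)
    have u2 := par_inf (par_inf (b1.iff.1 c1) (b2.iff.1 c2)) (b3.iff.1 c3)
    rw [tx, ty_pt] at u1
    rw [tx, ty (i + 1) hi] at u2
    obtain ⟨p, hp⟩ := par_one (par_mono t1.1 u1)
    obtain ⟨q, hq⟩ := par_one (par_mono t1.2 u2)
    refine ⟨(p, q), fun _ => ⟨⟨?_, ?_⟩, by simp only [hp, hq]; group⟩⟩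
    · rintro (rfl : p = 0)
      rw [zpow_zero, eq_comm, inv_mul_eq_one] at hp
      exact k5 (Subtype.ext (a3.eq (hp ▸ b3) ((ty i hi.le).trans (ty (i + 1) hi).symm)))
    · rintro (rfl : q = 0)
      rw [zpow_zero, eq_comm, inv_mul_eq_one] at hq
      exact k6 (Subtype.ext (b4.eq (hq ▸ c4) ((ty_pt _).trans (ty_pt _).symm)))
  choose p hp using st
  have pr : ∀ k ≤ n, (((List.range k).map p).map
      fun p => gn M (tk w.1 (!b)) ^ p.1 * gn M (tp w.1) ^ p.2).prod =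
        (G (y 0) (K 0))⁻¹ * G (y k) (K k) := fun k hk => by
    induction k with
    | zero => simp
    | succ k ih =>
      rw [List.range_succ, List.map_append, List.map_append, List.prod_append, ih (by omega)]
      simp only [List.map_cons, List.map_nil, List.prod_cons, List.prod_nil, mul_one, (hp k hk).2]
      group
  refine girth (M := M) (s := tk w.1 (!b)) (t := tp w.1) ((List.range n).map p) (by simp; omega)
    ?_ ?_ (by rw [pr n le_rfl, e1, e2, inv_mul_cancel])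
  · rw [List.length_map, List.length_range]
    refine nm.trans_le (h _ _ ?_ ?_) <;> cases b <;> simp [tk, tp]
  · simp only [List.mem_map, List.mem_range]
    rintro _ ⟨i, hi, rfl⟩
    exact (hp i hi).1

end Pool.Agent.Lib.MP_35cce7_an.Q
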