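import Pool.Agent.Lib.MP_35cce7_an.QDefs

namespace Pool.Agent.Lib.MP_35cce7_an.Q

noncomputable section

variable (M : CoxeterMatrix (Bool × Bool))

def H4 (t : Bool × Bool) : Subgroup (Ar M) := (subE M (· ≠ t)).hom.range

abbrev V4 := Σ t : Bool × Bool, Ar M ⧸ H4 M t

variable {M}

lemma H4_eq (t : Bool × Bool) : H4 M t = par M {i | i ≠ t} :=
  (Emb.range_hom _).trans (congrArg _ Subtype.range_coe)

def In4 (g : Ar M) (v : V4 M) : Prop := (g : Ar M ⧸ H4 M v.1) = v.2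

def N4 (a b : V4 M) : Prop := ∃ g, In4 g a ∧ In4 g b

lemma In4.iff {g g' : Ar M} {v : V4 M} (h : In4 g v) :
    In4 g' v ↔ g⁻¹ * g' ∈ par M {i | i ≠ v.1} := by
  rw [In4, ← h, eq_comm, QuotientGroup.eq, H4_eq]

lemma In4.mk (g : Ar M) (t : Bool × Bool) : In4 g ⟨t, g⟩ := rfl

lemma In4.ex (v : V4 M) : ∃ g, In4 g v := ⟨v.2.out, v.2.out_eq⟩

lemma In4.eq {g : Ar M} {a b : V4 M} (h : In4 g a) (h' : In4 g b) (e : a.1 = b.1) : a = b := by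
  obtain ⟨e1, a⟩ := a
  obtain ⟨e2, b⟩ := b
  obtain rfl : e1 = e2 := e
  exact congrArg _ (Eq.trans (Eq.symm h) h')

lemma In4.smul {g : Ar M} {a : V4 M} (h : In4 g a) (x : Ar M) : In4 (x * g) (x • a) := by
  obtain ⟨e, a⟩ := a
  obtain rfl : (g : Ar M ⧸ H4 M e) = a := h
  rfl

lemma N4.symm {a b : V4 M} (h : N4 a b) : N4 b a := h.imp fun _ h => h.symm

lemma N4.tri {w a b : V4 M} (h1 : N4 w a) (h2 : N4 w b) (h3 : N4 a b) :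
    ∃ g, In4 g w ∧ In4 g a ∧ In4 g b := by
  obtain ⟨x, x1, x2⟩ := h1
  obtain ⟨y, y1, y2⟩ := h2
  obtain ⟨z, z1, z2⟩ := h3
  obtain ⟨u, u1, u2⟩ := par_tri (S := {i | i ≠ w.1}) (x2.iff.1 z1) (z2.iff.1 y2)
    (by simpa [mul_assoc] using x1.iff.1 y1)
  refine ⟨x * u, x1.iff.2 ?_, x2.iff.2 ?_, y2.iff.2 ?_⟩
  · simpa using par_mono Set.inter_subset_left u1
  · simpa using par_mono Set.inter_subset_right u1
  · simpa [mul_assoc] using Subgroup.inv_mem _ (par_mono Set.inter_subset_right u2)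

lemma N4.four {w a b c : V4 M} (h1 : N4 w a) (h2 : N4 w b) (h3 : N4 w c) (h4 : N4 a b)
    (h5 : N4 a c) (h6 : N4 b c) : ∃ g, In4 g w ∧ In4 g a ∧ In4 g b ∧ In4 g c := by
  obtain ⟨x, x1, x2, x3⟩ := h1.tri h2 h4
  obtain ⟨y, y1, y2, y3⟩ := h2.tri h3 h6
  obtain ⟨z, z1, z2, z3⟩ := h1.tri h3 h5
  obtain ⟨u, u1, u2⟩ := par_tri (S := {i | i ≠ w.1} ∩ {i | i ≠ a.1})
    (par_inf (x1.iff.1 y1) (x3.iff.1 y2)) (par_inf (y1.iff.1 z1) (y3.iff.1 z3))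
    (by simpa [mul_assoc] using par_inf (x1.iff.1 z1) (x2.iff.1 z2))
  refine ⟨x * u, x1.iff.2 ?_, x2.iff.2 ?_, x3.iff.2 ?_, z3.iff.2 ?_⟩
  · simpa using par_mono (fun _ h => h.1.1) u1
  · simpa using par_mono (fun _ h => h.1.2) u1
  · simpa using par_mono (fun _ h => h.2.2) u1
  · simpa [mul_assoc] using Subgroup.inv_mem _ (par_mono (fun _ h => h.2.2) u2)

variable (M)

def gr4 : SimpleGraph (V4 M) where
  Adj a b := N4 a b ∧ ((a.1.1 ≠ b.1.1 ∧ a.1.2 = b.1.2) ∨ (a.1.1 = b.1.1 ∧ a.1.2 ≠ b.1.2))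
  symm := ⟨fun _ _ h => ⟨h.1.symm, h.2.imp (fun h => ⟨h.1.symm, h.2.symm⟩)
    fun h => ⟨h.1.symm, h.2.symm⟩⟩⟩
  loopless := ⟨fun _ h => h.2.elim (fun h => h.1 rfl) fun h => h.2 rfl⟩

def Z4 : Zd (V4 M) := ⟨fun v => v.1, N4, (gr4 M).dist⟩

end

end Pool.Agent.Lib.MP_35cce7_an.Q
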