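import Pool.Agent.Lib.MP_35cce7_an.QLayC

/-! Levels and selectors for a layer in case B. -/

namespace Pool.Agent.Lib.MP_35cce7_an.Q

open Wv

variable {X P C : Type} {k : X → Bool} {inc : X → P → Prop} {cx : Bool → C → X} {cp : C → P}
  {d : Wv k inc → Wv k inc → ℕ}

/-- what the level of a vertex says about lower points -/
def WP (l : Wv k inc → ℕ) (n : ℕ) : Wv k inc → Prop
  | pt _ => n % 2 = 0
  | ln o e _ => (n % 2 = 1 → l (pt o) + 1 = n ∨ l (pt e) + 1 = n) ∧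
      (n % 2 = 0 → ∃ K e', inc o K ∧ inc e K ∧ inc e' K ∧ k e' = false ∧ l (pt e') + 2 = n)
  | pl K => (n % 2 = 1 → ∃ e, inc e K ∧ k e = false ∧ l (pt e) + 1 = n) ∧
      (n % 2 = 0 → ∃ o, inc o K ∧ k o = true ∧ l (pt o) + 2 = n)

theorem WD.lip (D : WD d) (r : Wv k inc) {a b} (h : WA a b) :
    d r b ≤ d r a + 1 ∧ d r a ≤ d r b + 1 :=
  ⟨D.one.2 h ▸ D.tri r a b, D.one.2 h.symm ▸ D.tri r b a⟩

theorem WD.mid_l (D : WD d) (r : Wv k inc) {o e K} (ho : k o = true) (he : k e = false)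
    (h1 : inc o K) (h2 : inc e K) :
    d r (pt o) ≤ d r (pt e) + 2 ∧ d r (pt e) ≤ d r (pt o) + 2 := by
  have a := D.lip r (a := pt o) (b := ln o e ⟨ho, he, K, h1, h2⟩) (Or.inl rfl)
  have b := D.lip r (a := pt e) (b := ln o e ⟨ho, he, K, h1, h2⟩) (Or.inr rfl)
  omega

theorem WD.mid_p (D : WD d) (r : Wv k inc) {e e' K} (he : k e = false) (he' : k e' = false)
    (h1 : inc e K) (h2 : inc e' K) : d r (pt e) ≤ d r (pt e') + 2 := by
  have a := D.lip r (a := pt e) (b := pl K) ⟨he, h1⟩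
  have b := D.lip r (a := pt e') (b := pl K) ⟨he', h2⟩
  omega

theorem WD.par (D : WD d) {r w : Wv k inc} {n} (h : d r w = n + 1) : ∃ u, WA w u ∧ d r u = n := by
  obtain ⟨u, h1, h2⟩ := D.step ((D.symm w r).trans h)
  exact ⟨u, D.one.1 h1, (D.symm r u).trans h2⟩

theorem WD.wp (D : WD d) (r : X) (n : ℕ) : ∀ w, d (pt r) w = n → WP (d (pt r)) n w := by
  induction n with
  | zero =>
    intro w h
    obtain rfl := D.eq0 h
    rfl
  | succ n ih =>
    intro w h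
    obtain ⟨u, a, hu⟩ := D.par h
    have i := ih u hu
    cases w with
    | pt x =>
      change (n + 1) % 2 = 0
      by_contra hn
      cases u with
      | pt y => exact a
      | ln o e t =>
        obtain ⟨K, e', b1, b2, b3, b4, b5⟩ := i.2 (by omega)
        have c1 := D.mid_l (pt r) t.1 b4 b1 b3
        have c2 := D.mid_p (pt r) t.2.1 b4 b2 b3
        rcases a with rfl | rfl <;> omega
      | pl K =>
        obtain ⟨o, b1, b2, b3⟩ := i.2 (by omega)
        have c1 := D.mid_l (pt r) b2 a.1 b1 a.2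
        omega
    | ln o e t =>
      have l1 := D.lip (pt r) (a := pt o) (b := ln o e t) (Or.inl rfl)
      have l2 := D.lip (pt r) (a := pt e) (b := ln o e t) (Or.inr rfl)
      cases u with
      | pt y =>
        have i' : n % 2 = 0 := i
        refine ⟨fun _ => ?_, fun _ => by omega⟩
        rcases a with rfl | rfl <;> omega
      | ln o' e' t' =>
        obtain ⟨rfl, -, K, a1, a2, a3⟩ := a
        refine ⟨fun _ => ?_, fun _ => ?_⟩
        · obtain ⟨K', e'', b1, b2, b3, b4, b5⟩ := i.2 (by omega)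
          have c1 := D.mid_l (pt r) t.1 b4 b1 b3
          omega
        · have := i.1 (by omega)
          exact ⟨K, e', a1, a2, a3, t'.2.1, by omega⟩
      | pl K =>
        refine ⟨fun _ => ?_, fun _ => ?_⟩
        · obtain ⟨o', b1, b2, b3⟩ := i.2 (by omega)
          have c1 := D.mid_l (pt r) b2 t.2.1 b1 a.2
          omega
        · obtain ⟨e', b1, b2, b3⟩ := i.1 (by omega)
          exact ⟨K, e', a.1, a.2, b1, b2, by omega⟩
    | pl K =>
      cases u with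
      | pt y =>
        have i' : n % 2 = 0 := i
        exact ⟨fun _ => ⟨y, a.2, a.1, by omega⟩, fun _ => by omega⟩
      | ln o e t =>
        have l2 := D.lip (pt r) (a := pt e) (b := pl K) ⟨t.2.1, a.2⟩
        refine ⟨fun _ => ?_, fun _ => ?_⟩
        · obtain ⟨K', e', b1, b2, b3, b4, b5⟩ := i.2 (by omega)
          have c2 := D.mid_p (pt r) t.2.1 b4 b2 b3
          exact ⟨e, a.2, t.2.1, by omega⟩
        · have := i.1 (by omega)
          exact ⟨o, a.1, t.1, by omega⟩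
      | pl K' => exact a.elim

/-- the midpoint of two adjacent points -/
theorem aj_mid {x y : X} (h : aj k inc x y) : ∃ u : Wv k inc, WA (pt x) u ∧ WA (pt y) u ∧
    ((∃ t, u = ln x y t) ∨ (∃ t, u = ln y x t) ∨
      ∃ K, u = pl K ∧ k x = false ∧ k y = false ∧ inc x K ∧ inc y K) := by
  obtain ⟨-, h2, K, a, b⟩ := h
  rcases Bool.eq_false_or_eq_true (k x) with hx | hx <;>
    rcases Bool.eq_false_or_eq_true (k y) with hy | hy
  · exact (h2 ⟨hx, hy⟩).elim
  · exact ⟨ln x y ⟨hx, hy, K, a, b⟩, Or.inl rfl, Or.inr rfl, Or.inl ⟨_, rfl⟩⟩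
  · exact ⟨ln y x ⟨hy, hx, K, b, a⟩, Or.inr rfl, Or.inl rfl, Or.inr (Or.inl ⟨_, rfl⟩)⟩
  · exact ⟨pl K, ⟨hx, a⟩, ⟨hy, b⟩, Or.inr (Or.inr ⟨K, rfl, hx, hy, a, b⟩)⟩

theorem WD.pc (D : WD d) (S : SM d) (r : Wv k inc) {z a b} (ha : WA z a) (hb : WA z b)
    (h1 : d r a + 1 = d r z) (h2 : d r b + 1 = d r z) : WN a b :=
  D.le.1 (S.pc r (D.one.2 ha) (D.one.2 hb) rfl (by omega) h1.symm)

theorem WD.lev (D : WD d) (S : SM d) (r : X) : Lev k inc r fun x => d (pt r) (pt x) / 2 := by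
  have ev : ∀ x, d (pt r) (pt x) % 2 = 0 := fun x => D.wp r _ (pt x) rfl
  refine ⟨fun {x} => ⟨fun h => ?_, fun h => by simp [h, D.refl]⟩, fun {x y} h => ?_,
    fun {x n} h => ?_, fun {o e n} ho he c h1 h2 => ?_, fun {e e' K n} he he' ne a b h1 h2 => ?_,
    fun {x p q n} ap aq h1 h2 h3 => ?_⟩
  · have := ev x
    have h0 : d (pt r) (pt x) = 0 := by omega
    exact (pt.inj (D.eq0 h0)).symm
  · obtain ⟨u, h1, h2, -⟩ := aj_mid h
    have := D.lip (pt r) h1
    have := D.lip (pt r) h2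
    omega
  · have := ev x
    obtain ⟨u, a, hu⟩ := D.par (r := pt r) (w := pt x) (n := 2 * n + 1) (by omega)
    have i := D.wp r _ u hu
    cases u with
    | pt y => exact a.elim
    | ln o e t =>
      have i1 := i.1 (by omega)
      have oe : o ≠ e := fun s => by simpa [← s, t.1] using t.2.1
      obtain ⟨K, b1, b2⟩ := t.2.2
      rcases a with rfl | rfl
      · exact ⟨e, ⟨oe.symm, by simp [t.2.1], K, b2, b1⟩, by omega⟩
      · exact ⟨o, ⟨oe, by simp [t.2.1], K, b1, b2⟩, by omega⟩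
    | pl K =>
      obtain ⟨e, b1, b2, b3⟩ := i.1 (by omega)
      exact ⟨e, ⟨fun s => by subst s; omega, by simp [b2], K, b1, a.2⟩, by omega⟩
  · have e1 := ev o
    have e2 := ev e
    have a1 : WA (ln o e ⟨ho, he, c⟩ : Wv k inc) (pt o) := Or.inl rfl
    have a2 : WA (ln o e ⟨ho, he, c⟩ : Wv k inc) (pt e) := Or.inr rfl
    have l1 := D.lip (pt r) a1
    have i := D.wp r _ (ln o e ⟨ho, he, c⟩) rfl
    have oe : o ≠ e := fun s => by simp [← s, ho] at he
    have hp : d (pt r) (pt o) + 1 ≠ d (pt r) (ln o e ⟨ho, he, c⟩) := fun s =>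
      oe (WN.pt_pt.1 (D.pc S (pt r) a1 a2 s (by omega)))
    have i1 := i.1
    obtain ⟨K, e', b1, b2, b3, b4, b5⟩ := i.2 (by omega)
    exact ⟨K, e', b1, b2, b3, b4, by omega⟩
  · have e1 := ev e
    have e2 := ev e'
    have a1 : WA (pl K : Wv k inc) (pt e) := ⟨he, a⟩
    have a2 : WA (pl K : Wv k inc) (pt e') := ⟨he', b⟩
    have l1 := D.lip (pt r) a1
    have i := D.wp r _ (pl K) rfl
    have hp : d (pt r) (pt e) + 1 ≠ d (pt r) (pl K) := fun s =>
      ne (WN.pt_pt.1 (D.pc S (pt r) a1 a2 s (by omega)))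
    by_cases hK : d (pt r) (pl K) % 2 = 0
    · obtain ⟨x, b1, -, b3⟩ := i.2 hK
      exact ⟨x, b1, by omega⟩
    · obtain ⟨x, b1, -, b3⟩ := i.1 (by omega)
      exact ⟨x, b1, by omega⟩
  · have e1 := ev x
    have e2 := ev p
    have e3 := ev q
    obtain ⟨u, u1, u2, hu⟩ := aj_mid ap
    obtain ⟨v, v1, v2, hv⟩ := aj_mid aq
    have := D.lip (pt r) u1
    have := D.lip (pt r) u2
    have := D.lip (pt r) v1
    have := D.lip (pt r) v2
    have t := D.pc S (pt r) u2 v2 (by omega) (by omega)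
    rcases hu with ⟨s, rfl⟩ | ⟨s, rfl⟩ | ⟨K, rfl, b1, b2, b3, b4⟩ <;>
      rcases hv with ⟨s', rfl⟩ | ⟨s', rfl⟩ | ⟨K', rfl, c1, c2, c3, c4⟩
    · exact Or.inl (WN.ln_ln.1 t).1
    · simpa [s.2.1] using s'.1
    · exact Or.inr ⟨by simp [c1], K', c4, (t.resolve_left (by simp)).1, c3⟩
    · simpa [s'.2.1] using s.1
    · exact Or.inr ⟨by simp [s.2.1], (WN.ln_ln.1 t).2⟩
    · simpa [c2] using s.1
    · exact Or.inr ⟨by simp [b1], K, b4, b3, (t.resolve_left (by simp)).1⟩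
    · simpa [b2] using s'.1
    · obtain rfl := WN.pl_pl.1 t
      exact Or.inr ⟨by simp [b1], K, b4, b3, c3⟩

/-- the selector: even parent, or odd point of a parent line -/
def wσ (d : Wv k inc → Wv k inc → ℕ) (r : X) (K : P) (x : X) : Prop :=
  (WA (pl K : Wv k inc) (pt x) ∧ d (pt r) (pt x) + 1 = d (pt r) (pl K)) ∨
    ∃ e t, WA (pl K) (ln x e t) ∧ d (pt r) (ln x e t) + 1 = d (pt r) (pl K)

theorem WD.sel_card (D : WD d) (S : SM d) (r : X) (K : P) : {x | wσ d r K x}.encard ≤ 2 := by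
  unfold wσ
  rw [Set.ofPred_or, ← one_add_one_eq_two]
  refine (Set.encard_union_le _ _).trans (add_le_add ?_ ?_)
  · exact Set.encard_le_one_iff.2 fun a b ha hb => WN.pt_pt.1 (D.pc S _ ha.1 hb.1 ha.2 hb.2)
  · exact Set.encard_le_one_iff.2 fun a b ⟨_, _, a1, a2⟩ ⟨_, _, b1, b2⟩ =>
      (WN.ln_ln.1 (D.pc S _ a1 b1 a2 b2)).1

theorem WD.sel_one (D : WD d) (S : SM d) (r : X) {K o e t} (a : WA (pl K) (ln o e t : Wv k inc)) :
    wσ d r K o ∨ wσ d r K e ∨ d (pt r) (pl K) + 1 = d (pt r) (ln o e t) := by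
  have l := D.lip (pt r) a
  by_cases h1 : d (pt r) (ln o e t) + 1 = d (pt r) (pl K)
  · exact Or.inl (Or.inr ⟨e, t, a, h1⟩)
  by_cases h2 : d (pt r) (pl K) + 1 = d (pt r) (ln o e t)
  · exact Or.inr (Or.inr h2)
  have h0 : d (pt r) (pl K) ≠ 0 := fun h => by simpa using D.eq0 h
  obtain ⟨n, hn⟩ := Nat.exists_eq_succ_of_ne_zero h0
  obtain ⟨c, c1, c2, c3⟩ := S.tc (pt r) hn (b := ln o e t) (by omega) (D.one.2 a).le
  rw [D.one] at c1 c2
  cases c with
  | pt x =>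
    rcases c2 with rfl | rfl
    · simpa [t.1] using c1.1
    · exact Or.inr (Or.inl (Or.inl ⟨c1.symm, by omega⟩))
  | ln o' e' t' =>
    obtain ⟨rfl, -⟩ := c2
    exact Or.inl (Or.inr ⟨e', t', c1.symm, by omega⟩)
  | pl K' => exact c1.elim

theorem WD.sel (D : WD d) (S : SM d) (r : X) {K K' o e} (hK : K ≠ K') (ho : k o = true)
    (he : k e = false) (a1 : inc o K) (a2 : inc e K) (b1 : inc o K') (b2 : inc e K') :
    wσ d r K o ∨ wσ d r K e ∨ wσ d r K' o ∨ wσ d r K' e := by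
  have a : WA (pl K) (ln o e ⟨ho, he, K, a1, a2⟩ : Wv k inc) := ⟨a1, a2⟩
  have b : WA (pl K') (ln o e ⟨ho, he, K, a1, a2⟩ : Wv k inc) := ⟨b1, b2⟩
  rcases D.sel_one S r a with h | h | h
  · exact Or.inl h
  · exact Or.inr (Or.inl h)
  rcases D.sel_one S r b with h' | h' | h'
  · exact Or.inr (Or.inr (Or.inl h'))
  · exact Or.inr (Or.inr (Or.inr h'))
  exact (hK (WN.pl_pl.1 (D.pc S _ a.symm b.symm h h'))).elim

theorem Lay.lev {X P C : Type} {k : X → Bool} {inc : X → P → Prop} {cx : Bool → C → X}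
    {cp : C → P} (L : Lay k inc cx cp) (g1 : Gi k inc true 6) (g0 : Gi k inc false 3) :
    (∀ r, ∃ l, Lev k inc r l) ∧ ∃ σ : P → X → Prop, (∀ K, {x | σ K x}.encard ≤ 2) ∧
      ∀ {K K' x y}, K ≠ K' → k x ≠ k y → inc x K → inc y K → inc x K' → inc y K' →
        σ K x ∨ σ K y ∨ σ K' x ∨ σ K' y := by
  have D : X → WD (wG k inc).dist := fun r =>
    ⟨met_of_graph _ (L.wconn r), SimpleGraph.dist_eq_one_iff_adj⟩
  have S : X → SM (wG k inc).dist := fun r => ((D r).lg g1 g0).sm (L.wsc (D r))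
  refine ⟨fun r => ⟨_, (D r).lev (S r) r⟩, ?_⟩
  rcases isEmpty_or_nonempty X with hX | ⟨⟨r⟩⟩
  · exact ⟨fun _ _ => False, fun _ => by simp, fun {_ _ x} => hX.elim x⟩
  refine ⟨wσ (wG k inc).dist r, (D r).sel_card (S r) r, fun {K K' x y} hK h a1 a2 b1 b2 => ?_⟩
  cases hx : k x <;> cases hy : k y
  · simp [hx, hy] at h
  · have := (D r).sel (S r) r hK hy hx a2 a1 b2 b1
    tauto
  · exact (D r).sel (S r) r hK hx hy a1 a2 b1 b2
  · simp [hx, hy] at h

end Pool.Agent.Lib.MP_35cce7_an.Q
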