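import Pool.Agent.Lib.MP_35cce7_an.QLayW

/-! The graph of a layer in case B is connected and simply connected. -/

namespace Pool.Agent.Lib.MP_35cce7_an.Q

open Wv

variable {X P C : Type} {k : X → Bool} {inc : X → P → Prop} {cx : Bool → C → X} {cp : C → P}

/-- the graph on points, lines and planes -/
def wG (k : X → Bool) (inc : X → P → Prop) : SimpleGraph (Wv k inc) where
  Adj := WA
  symm := ⟨fun _ _ h => h.symm⟩
  loopless := ⟨fun _ h => h.irr⟩

/-- the line of a chamber -/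
def Lay.wl (L : Lay k inc cx cp) (c : C) : Wv k inc :=
  ln (cx true c) (cx false c) ⟨L.ck _ _, L.ck _ _, cp c, L.ci _ _, L.ci _ _⟩

/-- points and planes as vertices -/
def wE : X ⊕ P → Wv k inc := Sum.elim pt pl

/-- the vertices of a chamber -/
def wx (cx : Bool → C → X) (cp : C → P) (i : Option Bool) (c : C) : X ⊕ P :=
  i.elim (Sum.inr (cp c)) fun b => Sum.inl (cx b c)

theorem Lay.wl_adj (L : Lay k inc cx cp) (i : Option Bool) (c : C) :
    WA (L.wl c) (wE (wx cx cp i c)) := by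
  rcases i with _ | _ | _
  · exact ⟨L.ci _ _, L.ci _ _⟩
  · exact Or.inr rfl
  · exact Or.inl rfl

theorem Lay.wch (L : Lay k inc cx cp) {o e K} (h : k o = true ∧ k e = false ∧ cop inc o e)
    (h1 : inc o K) (h2 : inc e K) : ∃ c, L.wl c = ln o e h ∧
      wE (wx cx cp (some true) c) = (Wv.pt o : Wv k inc) ∧
      wE (wx cx cp (some false) c) = (Wv.pt e : Wv k inc) ∧
      wE (wx cx cp none c) = (pl K : Wv k inc) := by
  obtain ⟨c, rfl, rfl, rfl⟩ := L.flag h1 h2 h.1 h.2.1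
  exact ⟨c, rfl, rfl, rfl, rfl⟩

/-- `w` is the line or a vertex of the chamber `c` -/
def Lay.wAt (L : Lay k inc cx cp) (w : Wv k inc) (c : C) : Prop :=
  w = L.wl c ∨ ∃ i, w = wE (wx cx cp i c)

theorem Lay.wAt_n (L : Lay k inc cx cp) {w c} (h : L.wAt w c) : WN w (L.wl c) := by
  rcases h with rfl | ⟨i, rfl⟩
  · exact Or.inl rfl
  · exact Or.inr (L.wl_adj i c).symm

theorem Lay.wAt_ex (L : Lay k inc cx cp) (w : Wv k inc) : ∃ c, L.wAt w c := by
  cases w with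
  | pt x =>
    obtain ⟨K, hK⟩ := L.pt x
    obtain ⟨y, -, -, hy, -, -, ky, -⟩ := L.rich K (!k x)
    cases hx : k x with
    | true =>
      obtain ⟨c, -, h, -⟩ := L.wch ⟨hx, by simpa [hx] using ky, K, hK, hy⟩ hK hy
      exact ⟨c, Or.inr ⟨_, h.symm⟩⟩
    | false =>
      obtain ⟨c, -, -, h, -⟩ := L.wch ⟨by simpa [hx] using ky, hx, K, hy, hK⟩ hy hK
      exact ⟨c, Or.inr ⟨_, h.symm⟩⟩
  | ln o e h =>
    obtain ⟨K, h1, h2⟩ := h.2.2
    obtain ⟨c, h, -⟩ := L.wch h h1 h2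
    exact ⟨c, Or.inl h.symm⟩
  | pl K =>
    obtain ⟨x, -, -, hx, -, -, kx, -⟩ := L.rich K true
    obtain ⟨y, -, -, hy, -, -, ky, -⟩ := L.rich K false
    obtain ⟨c, -, -, -, h⟩ := L.wch ⟨kx, ky, K, hx, hy⟩ hx hy
    exact ⟨c, Or.inr ⟨_, h.symm⟩⟩

theorem WN.reach {a b : Wv k inc} (h : WN a b) : (wG k inc).Reachable a b := by
  rcases h with rfl | h
  · rfl
  · exact SimpleGraph.Adj.reachable h

theorem Lay.wconn (L : Lay k inc cx cp) (r : X) : (wG k inc).Connected := by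
  have : Nonempty (Wv k inc) := ⟨Wv.pt r⟩
  refine ⟨fun a b => ?_⟩
  obtain ⟨c, hc⟩ := L.wAt_ex a
  obtain ⟨c', hc'⟩ := L.wAt_ex b
  refine (L.wAt_n hc).reach.trans (SimpleGraph.Reachable.trans ?_ (L.wAt_n hc').reach.symm)
  clear hc'
  induction L.conn c c' with
  | refl => rfl
  | @tail x y _ h ih =>
    obtain ⟨b, h⟩ := h
    have h1 := L.wl_adj (some b) x
    have h2 := L.wl_adj (some b) y
    simp only [wx, Option.elim, h] at h1 h2
    exact ih.trans ((WN.reach (Or.inr h1)).trans (WN.reach (Or.inr h2)).symm)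

/-- a metric whose edges are the adjacent pairs -/
structure WD (d : Wv k inc → Wv k inc → ℕ) : Prop extends Met d where
  one : ∀ {a b}, d a b = 1 ↔ WA a b

variable {d : Wv k inc → Wv k inc → ℕ}

theorem WD.le (D : WD d) {a b} : d a b ≤ 1 ↔ WN a b := by
  constructor
  · intro h
    rcases Nat.le_one_iff_eq_zero_or_eq_one.1 h with h | h
    · exact Or.inl (D.eq0 h)
    · exact Or.inr (D.one.1 h)
  · rintro (rfl | h)
    · simp [D.refl]
    · exact (D.one.2 h).le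

theorem WD.lg (D : WD d) (g1 : Gi k inc true 6) (g0 : Gi k inc false 3) : Lg d where
  toMet := D.toMet
  l4 := by simp only [D.one, D.le]; exact wl4 g1 g0
  l5 := by simp only [D.one, D.le]; exact wl5 g1

theorem Lay.wshare (L : Lay k inc cx cp) {i j c c'} (hi : wx cx cp i c = wx cx cp i c')
    (hj : wx cx cp j c = wx cx cp j c') :
    WN (L.wl c) (L.wl c') ∨ WN (wE (wx cx cp i c) : Wv k inc) (wE (wx cx cp j c)) := by
  have a := fun b => L.ci b c
  have a' := fun b => L.ci b c'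
  have ev : WA (Wv.pt (cx false c) : Wv k inc) (pl (cp c)) := ⟨L.ck _ _, a _⟩
  rcases i with _ | _ | _ <;> rcases j with _ | _ | _ <;>
    simp only [wx, Option.elim, Sum.inl.injEq, Sum.inr.injEq] at hi hj
  · exact Or.inr (Or.inl rfl)
  · exact Or.inr (Or.inr ev.symm)
  · exact Or.inl (WN.ln_ln.2 ⟨hj, cp c, a _, a _, hi ▸ a' _⟩)
  · exact Or.inr (Or.inr ev)
  · exact Or.inr (Or.inl rfl)
  · exact Or.inl (WN.ln_ln.2 ⟨hj, cp c, a _, a _, hi ▸ a _⟩)
  · exact Or.inl (WN.ln_ln.2 ⟨hi, cp c, a _, a _, hj ▸ a' _⟩)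
  · exact Or.inl (WN.ln_ln.2 ⟨hi, cp c, a _, a _, hj ▸ a _⟩)
  · exact Or.inr (Or.inl rfl)

theorem wE_inj {a b : X ⊕ P} (h : (wE a : Wv k inc) = wE b) : a = b := by
  rcases a with a | a <;> rcases b with b | b <;> simp_all [wE]

theorem Lay.wsc (L : Lay k inc cx cp) (D : WD d) : SC1 d := by
  intro U f N cv un p0 q0 hpq e0
  let Ch := {z : C × U // f z.2 = L.wl z.1}
  let r : Option Bool → Ch → Ch → Prop := fun i z z' => wx cx cp i z.1.1 = wx cx cp i z'.1.1 ∧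
    ∃ u, f u = wE (wx cx cp i z.1.1) ∧ N u z.1.2 ∧ N u z'.1.2
  have up : ∀ i (z : Ch), ∃ u, f u = wE (wx cx cp i z.1.1) ∧ N u z.1.2 := fun i z => by
    obtain ⟨u, h1, h2⟩ := cv.lift (p := z.1.2) (z := wE (wx cx cp i z.1.1))
      (by rw [z.2]; exact D.le.2 (Or.inr (L.wl_adj i _)))
    exact ⟨u, h2, cv.symm h1⟩
  have uq : ∀ {u a b}, N u a → N u b → f a = f b → a = b := fun h1 h2 e =>
    un _ _ (cv.loc h1 h2 (by rw [e, D.refl]; omega)) e
  have key := L.scc Ch (fun z => z.1.1) r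
    (fun i => ⟨fun z => by
        obtain ⟨u, h1, h2⟩ := up i z
        exact ⟨rfl, u, h1, h2, h2⟩,
      fun ⟨h, u, h1, h2, h3⟩ => ⟨h.symm, u, h1.trans (congrArg _ h), h3, h2⟩,
      fun ⟨h, u, h1, h2, h3⟩ ⟨h', u', h1', h2', h3'⟩ => by
        obtain rfl : u = u' := uq (cv.symm h3) (cv.symm h2') (by rw [h1, h1', h])
        exact ⟨h.trans h', u, h1, h2, h3'⟩⟩)
    (fun i z z' h => h.1)
    (fun i z g h => by
      obtain ⟨u, h1, h2⟩ := up i z
      have h' : wx cx cp i z.1.1 = wx cx cp i g := h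
      obtain ⟨q, h3, h4⟩ := cv.lift (p := u) (z := L.wl g)
        (by rw [h1, h']; exact D.le.2 (Or.inr (L.wl_adj i g).symm))
      exact ⟨⟨(g, q), h4⟩, ⟨h', u, h1, h2, h3⟩, rfl⟩)
    (fun i z z' ⟨_, u, _, h2, h3⟩ e => by
      have e' : z.1.1 = z'.1.1 := e
      exact Subtype.ext (Prod.ext e' (uq h2 h3 (by rw [z.2, z'.2, e']))))
    (fun i j z z' ⟨h, u, h1, h2, h3⟩ e => by
      have e' : wx cx cp j z.1.1 = wx cx cp j z'.1.1 := e
      obtain ⟨v, h4, h5⟩ := up j z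
      have hv : d (f v) (f z'.1.2) ≤ 1 := by
        rw [h4, e', z'.2]
        exact D.le.2 (Or.inr (L.wl_adj j _).symm)
      refine ⟨e', v, h4, h5, ?_⟩
      rcases L.wshare h e' with t | t
      · exact cv.loc (cv.symm h5) (cv.loc h2 h3 (by rw [z.2, z'.2]; exact D.le.2 t)) hv
      · exact cv.loc (cv.loc (cv.symm h2) (cv.symm h5) (by rw [h1, h4]; exact D.le.2 t)) h3 hv)
  let At : U → Ch → Prop := fun p z => N p z.1.2 ∧ L.wAt (f p) z.1.1
  have mk : ∀ p c, L.wAt (f p) c → ∃ q h, At p ⟨(c, q), h⟩ := fun p c h => by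
    obtain ⟨q, h1, h2⟩ := cv.lift (p := p) (D.le.2 (L.wAt_n h))
    exact ⟨q, h2, h1, h⟩
  have same : ∀ p z z', At p z → At p z' → ∃ i, r i z z' := by
    rintro p z z' ⟨h1, h2⟩ ⟨h3, h4⟩
    have nl : ∀ c i c', L.wl c ≠ wE (wx cx cp i c') := fun c i c' => by
      rcases i with _ | _ <;> simp [Lay.wl, wE, wx]
    rcases h2 with h2 | ⟨i, h2⟩ <;> rcases h4 with h4 | ⟨j, h4⟩
    · have e : L.wl z.1.1 = L.wl z'.1.1 := h2.symm.trans h4
      obtain ⟨u, h5, h6⟩ := up (some true) z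
      refine ⟨some true, ?_, u, h5, h6, ?_⟩
      · simp only [Lay.wl, ln.injEq] at e
        exact congrArg Sum.inl e.1
      · rwa [← uq h1 h3 (by rw [z.2, z'.2, e])]
    · exact (nl _ _ _ (h2.symm.trans h4)).elim
    · exact (nl _ _ _ (h4.symm.trans h2)).elim
    · have e := wE_inj (h2.symm.trans h4)
      obtain rfl : i = j := by
        rcases i with _ | i <;> rcases j with _ | j <;> simp only [wx, Option.elim] at e
        · rfl
        · cases e
        · cases e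
        · rw [← L.ck i z.1.1, ← L.ck j z'.1.1, Sum.inl.inj e]
      exact ⟨i, e, p, h2, h1, h3⟩
  have both : ∀ p p' c, N p p' → L.wAt (f p) c → L.wAt (f p') c → ∃ z, At p z ∧ At p' z :=
    fun p p' c h h1 h2 => by
      obtain ⟨q, hq, h3⟩ := mk p c h1
      exact ⟨_, h3, cv.loc h h3.1 (by rw [hq]; exact D.le.2 (L.wAt_n h2)), h2⟩
  have edge : ∀ p p', N p p' → ∃ z z', At p z ∧ At p' z' ∧ ∃ i, r i z z' := by
    intro p p' h
    have fin : ∀ c, L.wAt (f p) c → L.wAt (f p') c →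
        ∃ z z', At p z ∧ At p' z' ∧ ∃ i, r i z z' := fun c h1 h2 => by
      obtain ⟨z, a, b⟩ := both p p' c h h1 h2
      exact ⟨z, z, a, b, same p z z a a⟩
    rcases D.le.1 (cv.hom h) with t | t
    · obtain ⟨c, hc⟩ := L.wAt_ex (f p)
      exact fin c hc (t ▸ hc)
    cases hp : f p <;> cases hp' : f p' <;> rw [hp, hp'] at t fin
    · exact t.elim
    · rename_i x o e w
      obtain ⟨K, h1, h2⟩ := w.2.2
      obtain ⟨c, a1, a2, a3, -⟩ := L.wch w h1 h2
      refine fin c ?_ (Or.inl a1.symm)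
      rcases t with rfl | rfl
      exacts [Or.inr ⟨_, a2.symm⟩, Or.inr ⟨_, a3.symm⟩]
    · rename_i x K
      obtain ⟨o, -, -, h1, -, -, ko, -⟩ := L.rich K true
      obtain ⟨c, -, -, a3, a4⟩ := L.wch ⟨ko, t.1, K, h1, t.2⟩ h1 t.2
      exact fin c (Or.inr ⟨_, a3.symm⟩) (Or.inr ⟨_, a4.symm⟩)
    · rename_i o e w x
      obtain ⟨K, h1, h2⟩ := w.2.2
      obtain ⟨c, a1, a2, a3, -⟩ := L.wch w h1 h2
      refine fin c (Or.inl a1.symm) ?_
      rcases t with rfl | rfl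
      exacts [Or.inr ⟨_, a2.symm⟩, Or.inr ⟨_, a3.symm⟩]
    · rename_i o e w o' e' w'
      obtain ⟨rfl, -, K, h1, h2, h3⟩ := t
      obtain ⟨c, a1, a2, -⟩ := L.wch w h1 h2
      obtain ⟨c', b1, b2, -⟩ := L.wch w' h1 h3
      obtain ⟨u, u1, u2⟩ := up (some true) ⟨(c, p), hp.trans a1.symm⟩
      refine ⟨⟨(c, p), hp.trans a1.symm⟩, ⟨(c', p'), hp'.trans b1.symm⟩,
        ⟨cv.refl _, Or.inl (hp.trans a1.symm)⟩, ⟨cv.refl _, Or.inl (hp'.trans b1.symm)⟩,
        some true, wE_inj (a2.trans b2.symm), u, u1, u2, cv.loc (cv.symm u2) h ?_⟩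
      rw [u1, hp', a2]
      exact D.le.2 (Or.inr (Or.inl rfl))
    · rename_i o e w K
      obtain ⟨c, a1, -, -, a4⟩ := L.wch w t.1 t.2
      exact fin c (Or.inl a1.symm) (Or.inr ⟨_, a4.symm⟩)
    · rename_i K x
      obtain ⟨o, -, -, h1, -, -, ko, -⟩ := L.rich K true
      obtain ⟨c, -, -, a3, a4⟩ := L.wch ⟨ko, t.1, K, h1, t.2⟩ h1 t.2
      exact fin c (Or.inr ⟨_, a4.symm⟩) (Or.inr ⟨_, a3.symm⟩)
    · rename_i K o e w
      obtain ⟨c, a1, -, -, a4⟩ := L.wch w t.1 t.2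
      exact fin c (Or.inr ⟨_, a4.symm⟩) (Or.inl a1.symm)
    · exact t.elim
  obtain ⟨c, hc⟩ := L.wAt_ex (f p0)
  obtain ⟨q, hq, a0⟩ := mk p0 c hc
  have chain : ∀ p, Relation.ReflTransGen N p0 p → ∀ z, At p z →
      Relation.ReflTransGen (fun z z' => ∃ i, r i z z') ⟨(c, q), hq⟩ z := by
    intro p h
    induction h with
    | refl => exact fun z hz => .single (same _ _ _ a0 hz)
    | tail _ h ih =>
      intro z hz
      obtain ⟨z1, z2, b1, b2, b3⟩ := edge _ _ h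
      exact ((ih z1 b1).tail b3).tail (same _ _ _ b2 hz)
  obtain ⟨q', hq', a1⟩ := mk q0 c (e0 ▸ hc)
  have e := key _ _ (chain q0 hpq _ a1) rfl
  obtain rfl : q = q' := congrArg (fun z : Ch => z.1.2) e
  exact uq (cv.symm a0.1) (cv.symm a1.1) e0

end Pool.Agent.Lib.MP_35cce7_an.Q
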