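import Pool.Agent.Lib.MP_35cce7_an.QSys

/-! The graph on points, lines and planes of a layer in case B is locally 6-large. -/

namespace Pool.Agent.Lib.MP_35cce7_an.Q

variable {X P : Type} {k : X → Bool} {inc : X → P → Prop}

theorem Gi.w2 {b m} (g : Gi k inc b m) (hm : 2 < m) {x y z K K'} (hx : k x = b) (hy : k y ≠ b)
    (hz : k z ≠ b) (h1 : inc x K) (h2 : inc y K) (h3 : inc z K) (h4 : inc x K') (h5 : inc y K')
    (h6 : inc z K') : y = z ∨ K = K' := by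
  by_contra h
  push Not at h
  refine g 2 (by omega) hm x (fun i => [y, z].getD i y) (fun i => [K, K'].getD i K) hx
    (fun i hi => ?_) rfl rfl
  have := h.1.symm
  have := h.2.symm
  interval_cases i <;> simp [*]

/-- coplanar with the point `o` -/
def c3 (inc : X → P → Prop) (o a b : X) : Prop := ∃ K, inc o K ∧ inc a K ∧ inc b K

theorem Gi.w3 (g : Gi k inc true 6) {o a b c K K'} (ho : k o = true) (ha : k a = false)
    (hb : k b = false) (hc : k c = false) (ab : a ≠ b) (ac : a ≠ c) (o1 : inc o K) (a1 : inc a K)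
    (b1 : inc b K) (o2 : inc o K') (a2 : inc a K') (c2 : inc c K') (h : c3 inc o b c) :
    K = K' := by
  obtain ⟨T, o3, b3, c3⟩ := h
  by_contra hK
  have bc : b ≠ c := fun e => by
    subst e
    exact (g.w2 (by omega) ho (by simp [ha]) (by simp [hb]) o1 a1 b1 o2 a2 c2).elim ab hK
  have h1 : K ≠ T := fun e => by
    subst e
    exact (g.w2 (by omega) ho (by simp [ha]) (by simp [hc]) o1 a1 c3 o2 a2 c2).elim ac hK
  have h2 : T ≠ K' := fun e => by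
    subst e
    exact (g.w2 (by omega) ho (by simp [ha]) (by simp [hb]) o1 a1 b1 o2 a2 b3).elim ab hK
  refine g 3 (by omega) (by omega) o (fun i => [a, b, c].getD i a) (fun i => [K, T, K'].getD i K) ho
    (fun i hi => ?_) rfl rfl
  have := ac.symm
  have := Ne.symm hK
  interval_cases i <;> simp [*]

theorem Gi.w4 (g : Gi k inc true 6) {o a b c e} (ho : k o = true) (ha : k a = false)
    (hb : k b = false) (hc : k c = false) (he : k e = false) (h1 : c3 inc o a b)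
    (h2 : c3 inc o b c) (h3 : c3 inc o c e) (h4 : c3 inc o e a) : c3 inc o a c ∨ c3 inc o b e := by
  obtain ⟨K1, o1, a1, b1⟩ := h1
  obtain ⟨K2, o2, b2, c2⟩ := h2
  obtain ⟨K3, o3, c3', e3⟩ := h3
  obtain ⟨K4, o4, e4, a4⟩ := h4
  by_contra h
  simp only [c3, not_or, not_exists, not_and] at h
  obtain ⟨p, q⟩ := h
  have n1 : a ≠ b := fun t => p K2 o2 (t ▸ b2) c2
  have n2 : b ≠ c := fun t => p K1 o1 a1 (t ▸ b1)
  have n3 : c ≠ e := fun t => p K4 o4 a4 (t ▸ e4)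
  have n4 : e ≠ a := fun t => p K3 o3 (t ▸ e3) c3'
  have m1 : K1 ≠ K2 := fun t => p K1 o1 a1 (t ▸ c2)
  have m2 : K2 ≠ K3 := fun t => q K2 o2 b2 (t ▸ e3)
  have m3 : K3 ≠ K4 := fun t => p K4 o4 a4 (t ▸ c3')
  have m4 : K4 ≠ K1 := fun t => q K1 o1 b1 (t ▸ e4)
  refine g 4 (by omega) (by omega) o (fun i => [a, b, c, e].getD i a)
    (fun i => [K1, K2, K3, K4].getD i K1) ho (fun i hi => ?_) rfl rfl
  interval_cases i <;> simp [*]

theorem Gi.w5 (g : Gi k inc true 6) {o a b c e f} (ho : k o = true) (ha : k a = false)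
    (hb : k b = false) (hc : k c = false) (he : k e = false) (hf : k f = false)
    (h1 : c3 inc o a b) (h2 : c3 inc o b c) (h3 : c3 inc o c e) (h4 : c3 inc o e f)
    (h5 : c3 inc o f a) :
    c3 inc o a c ∨ c3 inc o b e ∨ c3 inc o c f ∨ c3 inc o e a ∨ c3 inc o f b := by
  obtain ⟨K1, o1, a1, b1⟩ := h1
  obtain ⟨K2, o2, b2, c2⟩ := h2
  obtain ⟨K3, o3, c3', e3⟩ := h3
  obtain ⟨K4, o4, e4, f4⟩ := h4
  obtain ⟨K5, o5, f5, a5⟩ := h5
  by_contra h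
  simp only [c3, not_or, not_exists, not_and] at h
  obtain ⟨p, q, r, s, u⟩ := h
  have n1 : a ≠ b := fun t => p K2 o2 (t ▸ b2) c2
  have n2 : b ≠ c := fun t => p K1 o1 a1 (t ▸ b1)
  have n3 : c ≠ e := fun t => q K2 o2 b2 (t ▸ c2)
  have n4 : e ≠ f := fun t => r K3 o3 c3' (t ▸ e3)
  have n5 : f ≠ a := fun t => s K4 o4 e4 (t ▸ f4)
  have m1 : K1 ≠ K2 := fun t => p K1 o1 a1 (t ▸ c2)
  have m2 : K2 ≠ K3 := fun t => q K2 o2 b2 (t ▸ e3)
  have m3 : K3 ≠ K4 := fun t => r K3 o3 c3' (t ▸ f4)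
  have m4 : K4 ≠ K5 := fun t => s K4 o4 e4 (t ▸ a5)
  have m5 : K5 ≠ K1 := fun t => u K5 o5 f5 (t ▸ b1)
  refine g 5 (by omega) (by omega) o (fun i => [a, b, c, e, f].getD i a)
    (fun i => [K1, K2, K3, K4, K5].getD i K1) ho (fun i hi => ?_) rfl rfl
  interval_cases i <;> simp [*]

/-- points, lines and planes -/
inductive Wv (k : X → Bool) (inc : X → P → Prop) : Type
  | pt (x : X) : Wv k inc
  | ln (o e : X) (h : k o = true ∧ k e = false ∧ cop inc o e) : Wv k inc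
  | pl (K : P) : Wv k inc

open Wv

/-- adjacency -/
def WA : Wv k inc → Wv k inc → Prop
  | pt _, pt _ => False
  | pt x, ln o e _ => x = o ∨ x = e
  | pt x, pl K => k x = false ∧ inc x K
  | ln o e _, pt x => x = o ∨ x = e
  | ln o e _, ln o' e' _ => o = o' ∧ e ≠ e' ∧ c3 inc o e e'
  | ln o e _, pl K => inc o K ∧ inc e K
  | pl K, pt x => k x = false ∧ inc x K
  | pl K, ln o e _ => inc o K ∧ inc e K
  | pl _, pl _ => False

/-- equal or adjacent -/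
def WN (a b : Wv k inc) : Prop := a = b ∨ WA a b

theorem WA.symm {a b : Wv k inc} (h : WA a b) : WA b a := by
  cases a <;> cases b <;> try exact h
  obtain ⟨rfl, h2, K, h3, h4, h5⟩ := h
  exact ⟨rfl, h2.symm, K, h3, h5, h4⟩

theorem WA.irr {a : Wv k inc} (h : WA a a) : False := by
  cases a
  · exact h
  · exact h.2.1 rfl
  · exact h

theorem WN.pt_pt {x y : X} : WN (pt x : Wv k inc) (pt y) ↔ x = y := by simp [WN, WA]

theorem WN.pl_pl {K K' : P} : WN (pl K : Wv k inc) (pl K') ↔ K = K' := by simp [WN, WA]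

theorem WN.ln_ln {o e o' e' h h'} :
    WN (ln o e h : Wv k inc) (ln o' e' h') ↔ o = o' ∧ c3 inc o e e' := by
  constructor
  · rintro (t | t)
    · cases t
      obtain ⟨K, h1, h2⟩ := h.2.2
      exact ⟨rfl, K, h1, h2, h2⟩
    · exact ⟨t.1, t.2.2⟩
  · rintro ⟨rfl, t⟩
    by_cases he : e = e'
    · subst he
      exact Or.inl rfl
    · exact Or.inr ⟨rfl, he, t⟩

/-- link of a line: position and plane -/
def RL (i : ℕ) (K : P) (j : ℕ) (K' : P) : Prop :=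
  i ≤ j + 1 ∧ j ≤ i + 1 ∧ (0 < i → i < 3 → 0 < j → j < 3 → K = K')

/-- link of a plane -/
def RP (i : Bool) (o e : X) (j : Bool) (o' e' : X) : Prop :=
  (i = true → j = true → o = o') ∧ (i = false ∨ j = false → e = e')

/-- link of an even point -/
def RE (I : X → P → Prop) (i : Bool) (o : X) (K : P) (j : Bool) (o' : X) (K' : P) : Prop :=
  (i = true → j = true → o = o') ∧ (i = false → j = false → K = K') ∧
    (i = true → j = false → I o K') ∧ (i = false → j = true → I o' K)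

theorem link_ln (g1 : Gi k inc true 6) {o e h} : ∃ D : Wv k inc → ℕ → P → Prop,
    (∀ a, WA (ln o e h) a → ∃ i K, i ≤ 3 ∧ D a i K) ∧
      ∀ a i K b j K', D a i K → D b j K' → (WN a b ↔ RL i K j K') := by
  have oe : o ≠ e := fun t => by simpa [← t, h.1] using h.2.1
  refine ⟨fun a i K => (a = pt o ∧ i = 0) ∨ (∃ e' h', a = ln o e' h' ∧ e ≠ e' ∧ inc o K ∧ inc e K ∧
    inc e' K ∧ i = 1) ∨ (a = pl K ∧ inc o K ∧ inc e K ∧ i = 2) ∨ (a = pt e ∧ i = 3),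
    fun a ha => ?_, ?_⟩
  · obtain ⟨T, -⟩ := h.2.2
    cases a with
    | pt x =>
      rcases ha with rfl | rfl
      · exact ⟨0, T, by omega, Or.inl ⟨rfl, rfl⟩⟩
      · exact ⟨3, T, by omega, Or.inr (Or.inr (Or.inr ⟨rfl, rfl⟩))⟩
    | ln o' e' h' =>
      obtain ⟨rfl, h2, K, h3, h4, h5⟩ := ha
      exact ⟨1, K, by omega, Or.inr (Or.inl ⟨e', h', rfl, h2, h3, h4, h5, rfl⟩)⟩
    | pl K => exact ⟨2, K, by omega, Or.inr (Or.inr (Or.inl ⟨rfl, ha.1, ha.2, rfl⟩))⟩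
  · have mix : ∀ {e' K K'}, k e' = false → e ≠ e' → inc o K → inc e K → inc e' K → inc o K' →
        inc e K' → (inc e' K' ↔ K = K') := fun he' ne a1 a2 a3 b1 b2 =>
      ⟨fun b3 => (g1.w2 (by omega) h.1 (by simp [h.2.1]) (by simp [he']) a1 a2 a3 b1 b2
        b3).resolve_left ne, fun t => t ▸ a3⟩
    have ho := h.1
    have he := h.2.1
    have eo := oe.symm
    rintro a i K b j K'
      (⟨rfl, rfl⟩ | ⟨e', h', rfl, n1, a1, a2, a3, rfl⟩ | ⟨rfl, a1, a2, rfl⟩ | ⟨rfl, rfl⟩)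
      (⟨rfl, rfl⟩ | ⟨e'', h'', rfl, n2, b1, b2, b3, rfl⟩ | ⟨rfl, b1, b2, rfl⟩ | ⟨rfl, rfl⟩)
    case inr.inl.inr.inl =>
      rw [WN.ln_ln]
      simp only [RL, true_and]
      exact ⟨fun t => ⟨by omega, by omega, fun _ _ _ _ =>
        g1.w3 ho he h'.2.1 h''.2.1 n1 n2 a1 a2 a3 b1 b2 b3 t⟩,
        fun t => ⟨K, a1, a3, t.2.2 (by omega) (by omega) (by omega) (by omega) ▸ b3⟩⟩
    case inr.inl.inr.inr.inl => simp [WN, WA, RL, b1, mix h'.2.1 n1 a1 a2 a3 b1 b2]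
    case inr.inr.inl.inr.inl => simp [WN, WA, RL, a1, mix h''.2.1 n2 b1 b2 b3 a1 a2, eq_comm]
    all_goals simp [WN, WA, RL, *]

theorem link_pl {K : P} : ∃ D : Wv k inc → Bool → X → X → Prop,
    (∀ a, WA (pl K) a → ∃ i o e, D a i o e) ∧
      ∀ a i o e b j o' e', D a i o e → D b j o' e' → (WN a b ↔ RP i o e j o' e') := by
  refine ⟨fun a i o e => (a = pt e ∧ k e = false ∧ i = false) ∨
    ∃ h, a = ln o e h ∧ inc o K ∧ inc e K ∧ i = true, fun a ha => ?_, ?_⟩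
  · cases a with
    | pt x => exact ⟨false, x, x, Or.inl ⟨rfl, ha.1, rfl⟩⟩
    | ln o e h => exact ⟨true, o, e, Or.inr ⟨h, rfl, ha.1, ha.2, rfl⟩⟩
    | pl K' => exact ha.elim
  · rintro a i o e b j o' e' (⟨rfl, a1, rfl⟩ | ⟨h, rfl, a1, a2, rfl⟩)
      (⟨rfl, b1, rfl⟩ | ⟨h', rfl, b1, b2, rfl⟩)
    · simp [WN, WA, RP]
    · have : e ≠ o' := fun t => by simpa [← t, a1] using h'.1
      simp [WN, WA, RP, this]
    · have : e' ≠ o := fun t => by simpa [← t, b1] using h.1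
      simp [WN, WA, RP, this, eq_comm]
    · rw [WN.ln_ln]
      simpa [RP] using fun _ => ⟨K, a1, a2, b2⟩

theorem link_ev {e : X} (he : k e = false) : ∃ D : Wv k inc → Bool → X → P → Prop,
    (∀ a, WA (pt e) a → ∃ i o K, D a i o K) ∧
      ∀ a i o K b j o' K', D a i o K → D b j o' K' →
        (WN a b ↔ RE (fun o K => k o = true ∧ inc e K ∧ inc o K) i o K j o' K') := by
  refine ⟨fun a i o K => (∃ h, a = ln o e h ∧ i = true) ∨ (a = pl K ∧ inc e K ∧ i = false),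
    fun a ha => ?_, ?_⟩
  · cases a with
    | pt x => exact ha.elim
    | ln o e' h =>
      rcases ha with rfl | rfl
      · simpa [he] using h.1
      · obtain ⟨T, -⟩ := h.2.2
        exact ⟨true, o, T, Or.inl ⟨h, rfl, rfl⟩⟩
    | pl K => exact ⟨false, e, K, Or.inr ⟨rfl, ha.2, rfl⟩⟩
  · rintro a i o K b j o' K' (⟨h, rfl, rfl⟩ | ⟨rfl, a1, rfl⟩) (⟨h', rfl, rfl⟩ | ⟨rfl, b1, rfl⟩)
    · simp [WN, WA, RE]
    · simp [WN, WA, RE, h.1, b1]
    · simp [WN, WA, RE, h'.1, a1]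
    · simp [WN, WA, RE]

theorem link_od {o : X} (ho : k o = true) {a : Wv k inc} (ha : WA (pt o) a) :
    ∃ e h, a = ln o e h := by
  cases a with
  | pt x => exact ha.elim
  | ln o' e h =>
    rcases ha with rfl | rfl
    · exact ⟨e, h, rfl⟩
    · simpa [ho] using h.2.1
  | pl K => simpa [ho] using ha.1

theorem wl4 (g1 : Gi k inc true 6) (g0 : Gi k inc false 3) {w a b c e : Wv k inc} (ha : WA w a)
    (hb : WA w b) (hc : WA w c) (he : WA w e) (h1 : WN a b) (h2 : WN b c) (h3 : WN c e)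
    (h4 : WN e a) : WN a c ∨ WN b e := by
  cases w with
  | pt x =>
    cases hx : k x with
    | true =>
      obtain ⟨a, ka, rfl⟩ := link_od hx ha
      obtain ⟨b, kb, rfl⟩ := link_od hx hb
      obtain ⟨c, kc, rfl⟩ := link_od hx hc
      obtain ⟨e, ke, rfl⟩ := link_od hx he
      simp only [WN.ln_ln, true_and] at h1 h2 h3 h4 ⊢
      exact g1.w4 hx ka.2.1 kb.2.1 kc.2.1 ke.2.1 h1 h2 h3 h4
    | false =>
      obtain ⟨D, d1, d2⟩ := link_ev (inc := inc) hx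
      obtain ⟨i1, o1, K1, a'⟩ := d1 a ha
      obtain ⟨i2, o2, K2, b'⟩ := d1 b hb
      obtain ⟨i3, o3, K3, c'⟩ := d1 c hc
      obtain ⟨i4, o4, K4, e'⟩ := d1 e he
      rw [d2 _ _ _ _ _ _ _ _ a' b'] at h1
      rw [d2 _ _ _ _ _ _ _ _ b' c'] at h2
      rw [d2 _ _ _ _ _ _ _ _ c' e'] at h3
      rw [d2 _ _ _ _ _ _ _ _ e' a'] at h4
      rw [d2 _ _ _ _ _ _ _ _ a' c', d2 _ _ _ _ _ _ _ _ b' e']
      have G : ∀ o o' K K', k o = true ∧ inc x K ∧ inc o K → k o' = true ∧ inc x K ∧ inc o' K →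
          k o = true ∧ inc x K' ∧ inc o K' → k o' = true ∧ inc x K' ∧ inc o' K' →
          o = o' ∨ K = K' := fun o o' K K' p q r s =>
        g0.w2 (by omega) hx (by simp [p.1]) (by simp [q.1]) p.2.1 p.2.2 q.2.2 r.2.1 r.2.2 s.2.2
      have G1 := G o1 o3 K2 K4
      have G2 := G o2 o4 K1 K3
      clear d1 d2 G a' b' c' e'
      unfold RE at *
      cases i1 <;> cases i2 <;> cases i3 <;> cases i4 <;> grind
  | ln o x h =>
    obtain ⟨D, d1, d2⟩ := link_ln g1 (h := h)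
    obtain ⟨i1, K1, l1, a'⟩ := d1 a ha
    obtain ⟨i2, K2, l2, b'⟩ := d1 b hb
    obtain ⟨i3, K3, l3, c'⟩ := d1 c hc
    obtain ⟨i4, K4, l4, e'⟩ := d1 e he
    rw [d2 _ _ _ _ _ _ a' b'] at h1
    rw [d2 _ _ _ _ _ _ b' c'] at h2
    rw [d2 _ _ _ _ _ _ c' e'] at h3
    rw [d2 _ _ _ _ _ _ e' a'] at h4
    rw [d2 _ _ _ _ _ _ a' c', d2 _ _ _ _ _ _ b' e']
    clear d1 d2 a' b' c' e'
    unfold RL at *
    grind
  | pl K =>
    obtain ⟨D, d1, d2⟩ := link_pl (k := k) (inc := inc) (K := K)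
    obtain ⟨i1, o1, K1, a'⟩ := d1 a ha
    obtain ⟨i2, o2, K2, b'⟩ := d1 b hb
    obtain ⟨i3, o3, K3, c'⟩ := d1 c hc
    obtain ⟨i4, o4, K4, e'⟩ := d1 e he
    rw [d2 _ _ _ _ _ _ _ _ a' b'] at h1
    rw [d2 _ _ _ _ _ _ _ _ b' c'] at h2
    rw [d2 _ _ _ _ _ _ _ _ c' e'] at h3
    rw [d2 _ _ _ _ _ _ _ _ e' a'] at h4
    rw [d2 _ _ _ _ _ _ _ _ a' c', d2 _ _ _ _ _ _ _ _ b' e']
    clear d1 d2 a' b' c' e'
    unfold RP at *
    grind

theorem wl5 (g1 : Gi k inc true 6) {w a b c e f : Wv k inc} (ha : WA w a)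
    (hb : WA w b) (hc : WA w c) (he : WA w e) (hf : WA w f) (h1 : WN a b) (h2 : WN b c)
    (h3 : WN c e) (h4 : WN e f) (h5 : WN f a) :
    WN a c ∨ WN b e ∨ WN c f ∨ WN e a ∨ WN f b := by
  cases w with
  | pt x =>
    cases hx : k x with
    | true =>
      obtain ⟨a, ka, rfl⟩ := link_od hx ha
      obtain ⟨b, kb, rfl⟩ := link_od hx hb
      obtain ⟨c, kc, rfl⟩ := link_od hx hc
      obtain ⟨e, ke, rfl⟩ := link_od hx he
      obtain ⟨f, kf, rfl⟩ := link_od hx hf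
      simp only [WN.ln_ln, true_and] at h1 h2 h3 h4 h5 ⊢
      exact g1.w5 hx ka.2.1 kb.2.1 kc.2.1 ke.2.1 kf.2.1 h1 h2 h3 h4 h5
    | false =>
      obtain ⟨D, d1, d2⟩ := link_ev (inc := inc) hx
      obtain ⟨i1, o1, K1, a'⟩ := d1 a ha
      obtain ⟨i2, o2, K2, b'⟩ := d1 b hb
      obtain ⟨i3, o3, K3, c'⟩ := d1 c hc
      obtain ⟨i4, o4, K4, e'⟩ := d1 e he
      obtain ⟨i5, o5, K5, f'⟩ := d1 f hf
      rw [d2 _ _ _ _ _ _ _ _ a' b'] at h1
      rw [d2 _ _ _ _ _ _ _ _ b' c'] at h2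
      rw [d2 _ _ _ _ _ _ _ _ c' e'] at h3
      rw [d2 _ _ _ _ _ _ _ _ e' f'] at h4
      rw [d2 _ _ _ _ _ _ _ _ f' a'] at h5
      rw [d2 _ _ _ _ _ _ _ _ a' c', d2 _ _ _ _ _ _ _ _ b' e', d2 _ _ _ _ _ _ _ _ c' f',
        d2 _ _ _ _ _ _ _ _ e' a', d2 _ _ _ _ _ _ _ _ f' b']
      clear d1 d2 a' b' c' e' f'
      generalize (fun o K => k o = true ∧ inc x K ∧ inc o K) = I at *
      unfold RE at *
      cases i1 <;> cases i2 <;> cases i3 <;> cases i4 <;> cases i5 <;> grind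
  | ln o x h =>
    obtain ⟨D, d1, d2⟩ := link_ln g1 (h := h)
    obtain ⟨i1, K1, l1, a'⟩ := d1 a ha
    obtain ⟨i2, K2, l2, b'⟩ := d1 b hb
    obtain ⟨i3, K3, l3, c'⟩ := d1 c hc
    obtain ⟨i4, K4, l4, e'⟩ := d1 e he
    obtain ⟨i5, K5, l5, f'⟩ := d1 f hf
    rw [d2 _ _ _ _ _ _ a' b'] at h1
    rw [d2 _ _ _ _ _ _ b' c'] at h2
    rw [d2 _ _ _ _ _ _ c' e'] at h3
    rw [d2 _ _ _ _ _ _ e' f'] at h4
    rw [d2 _ _ _ _ _ _ f' a'] at h5
    rw [d2 _ _ _ _ _ _ a' c', d2 _ _ _ _ _ _ b' e', d2 _ _ _ _ _ _ c' f', d2 _ _ _ _ _ _ e' a',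
      d2 _ _ _ _ _ _ f' b']
    clear d1 d2 a' b' c' e' f'
    unfold RL at *
    grind (splits := 40)
  | pl K =>
    obtain ⟨D, d1, d2⟩ := link_pl (k := k) (inc := inc) (K := K)
    obtain ⟨i1, o1, K1, a'⟩ := d1 a ha
    obtain ⟨i2, o2, K2, b'⟩ := d1 b hb
    obtain ⟨i3, o3, K3, c'⟩ := d1 c hc
    obtain ⟨i4, o4, K4, e'⟩ := d1 e he
    obtain ⟨i5, o5, K5, f'⟩ := d1 f hf
    rw [d2 _ _ _ _ _ _ _ _ a' b'] at h1
    rw [d2 _ _ _ _ _ _ _ _ b' c'] at h2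
    rw [d2 _ _ _ _ _ _ _ _ c' e'] at h3
    rw [d2 _ _ _ _ _ _ _ _ e' f'] at h4
    rw [d2 _ _ _ _ _ _ _ _ f' a'] at h5
    rw [d2 _ _ _ _ _ _ _ _ a' c', d2 _ _ _ _ _ _ _ _ b' e', d2 _ _ _ _ _ _ _ _ c' f',
      d2 _ _ _ _ _ _ _ _ e' a', d2 _ _ _ _ _ _ _ _ f' b']
    clear d1 d2 a' b' c' e' f'
    unfold RP at *
    cases i1 <;> cases i2 <;> cases i3 <;> cases i4 <;> cases i5 <;> simp_all

end Pool.Agent.Lib.MP_35cce7_an.Q
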