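import Pool.Agent.Lib.MP_35cce7_an.QDefs

namespace Pool.Agent.Lib.MP_35cce7_an.Q

namespace Zd

variable {V : Type} {Z : Zd V}

lemma ty_iff {a b : V} : Z.ty a = Z.ty b ↔ (Z.ty a).1 = (Z.ty b).1 ∧ (Z.ty a).2 = (Z.ty b).2 :=
  Prod.ext_iff

lemma b1 {a b : V} : (Z.ty a).1 = (Z.ty b).1 ↔ ((Z.ty a).1 = true ↔ (Z.ty b).1 = true) :=
  Bool.eq_iff_iff

lemma b2 {a b : V} : (Z.ty a).2 = (Z.ty b).2 ↔ ((Z.ty a).2 = true ↔ (Z.ty b).2 = true) :=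
  Bool.eq_iff_iff

lemma ad.n {a b : V} (h : Z.ad a b) : Z.N a b := h.elim (·.1) (·.1)

lemma ad.ty_ne {a b : V} (h : Z.ad a b) : Z.ty a ≠ Z.ty b := by
  simp only [ad, ev, od, pt, ne_eq, ty_iff, b1, b2] at *
  grind

lemma ad.ne {a b : V} (h : Z.ad a b) : a ≠ b := fun e => h.ty_ne (e ▸ rfl)

lemma pt.ty_ne {a b : V} (h : Z.pt a b) : Z.ty a ≠ Z.ty b := fun e => h.2.1 (e ▸ rfl)

lemma pt.ne {a b : V} (h : Z.pt a b) : a ≠ b := fun e => h.ty_ne (e ▸ rfl)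

lemma ad_of_pt {w x K : V} (h : Z.ad w x) (h' : Z.pt w K) (e : Z.N x K) : Z.ad x K := by
  simp only [ad, ev, od, pt, ne_eq, ty_iff, b1, b2] at *
  grind

lemma pt_of_ad {w x y : V} (h : Z.ad w x) (h' : Z.ad w y) (e : Z.N x y) (n : Z.ty x ≠ Z.ty y) :
    Z.pt x y := by
  simp only [ad, ev, od, pt, ne_eq, ty_iff, b1, b2] at *
  grind

lemma ty_two {w x y z : V} (hx : Z.ad w x) (hy : Z.ad w y) (hz : Z.ad w z)
    (n : Z.ty x ≠ Z.ty y) : Z.ty z = Z.ty x ∨ Z.ty z = Z.ty y := by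
  simp only [ad, ev, od, pt, ne_eq, ty_iff, b1, b2] at *
  grind

lemma ev_ty {w x y : V} (hx : Z.ev w x) (hy : Z.ev w y) : Z.ty x = Z.ty y := by
  simp only [ad, ev, od, pt, ne_eq, ty_iff, b1, b2] at *
  grind

lemma od_ty {w x y : V} (hx : Z.od w x) (hy : Z.od w y) : Z.ty x = Z.ty y := by
  simp only [ad, ev, od, pt, ne_eq, ty_iff, b1, b2] at *
  grind

lemma eo_ty {w x y : V} (hx : Z.ev w x) (hy : Z.od w y) : Z.ty x ≠ Z.ty y := by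
  simp only [ad, ev, od, pt, ne_eq, ty_iff, b1, b2] at *
  grind

lemma ev_of_ty {w x y : V} (hx : Z.ev w x) (hy : Z.ad w y) (e : Z.ty x = Z.ty y) : Z.ev w y := by
  simp only [ad, ev, od, pt, ne_eq, ty_iff, b1, b2] at *
  grind

lemma od_of_ty {w x y : V} (hx : Z.od w x) (hy : Z.ad w y) (e : Z.ty x = Z.ty y) : Z.od w y := by
  simp only [ad, ev, od, pt, ne_eq, ty_iff, b1, b2] at *
  grind

lemma ev_of_ne {w x y : V} (hx : Z.od w x) (hy : Z.ad w y) (e : Z.ty x ≠ Z.ty y) : Z.ev w y := by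
  simp only [ad, ev, od, pt, ne_eq, ty_iff, b1, b2] at *
  grind

lemma od_of_ne {w x y : V} (hx : Z.ev w x) (hy : Z.ad w y) (e : Z.ty x ≠ Z.ty y) : Z.od w y := by
  simp only [ad, ev, od, pt, ne_eq, ty_iff, b1, b2] at *
  grind

lemma pt_ty {w x y : V} (hx : Z.pt w x) (hy : Z.pt w y) : Z.ty x = Z.ty y := by
  simp only [ad, ev, od, pt, ne_eq, ty_iff, b1, b2] at *
  grind

namespace ZB

variable (S : Z.ZB)
include S

lemma evs {a b : V} (h : Z.ev a b) : Z.ev b a := ⟨S.nsymm h.1, h.2.1.symm, h.2.2.symm⟩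

lemma ods {a b : V} (h : Z.od a b) : Z.od b a := ⟨S.nsymm h.1, h.2.1.symm, h.2.2.symm⟩

lemma ads {a b : V} (h : Z.ad a b) : Z.ad b a := h.imp S.evs S.ods

lemma pts {a b : V} (h : Z.pt a b) : Z.pt b a := ⟨S.nsymm h.1, h.2.1.symm, h.2.2.symm⟩

omit S in
lemma cps {w a b : V} (h : Z.cp w a b) : Z.cp w b a := h.imp fun _ h => ⟨h.1, h.2.2, h.2.1⟩

lemma lip (o : V) {a b : V} (h : Z.ad a b) : Z.d o b ≤ Z.d o a + 1 := by
  have := S.tri o a b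
  rwa [S.dad.2 h] at this

lemma pt_of_ne {w x y : V} (h : Z.ad w x) (h' : Z.ad w y) (e : Z.N x y) (n : x ≠ y) : Z.pt x y :=
  pt_of_ad h h' e fun t => n (S.ninj e t)

lemma rot {a b c e : V} (h : Z.Sq a b c e) : Z.Sq b c e a :=
  ⟨h.2.1, h.2.2.1, h.2.2.2.1, h.1, h.2.2.2.2.2.1, h.2.2.2.2.1.symm,
    h.2.2.2.2.2.2.symm.imp_right S.nsymm⟩

lemma rev {a b c e : V} (h : Z.Sq a b c e) : Z.Sq a e c b :=
  ⟨S.ads h.2.2.2.1, S.ads h.2.2.1, S.ads h.2.1, S.ads h.1, h.2.2.2.2.1, h.2.2.2.2.2.1.symm,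
    h.2.2.2.2.2.2.imp_right S.nsymm⟩

lemma sq_pt {a b c e : V} (h : Z.Sq a b c e) (t : Z.ty b = Z.ty e) : Z.pt a c := by
  obtain ⟨h1, h2, h3, h4, h5, h6, h7⟩ := h
  exact S.pt_of_ne (S.ads h1) h2 (h7.resolve_right fun n => h6 (S.ninj n t)) h5

lemma sq_n {a b c e : V} (h : Z.Sq a b c e) (t : Z.ty b ≠ Z.ty e) : Z.N b e := by
  obtain ⟨h1, h2, h3, h4, h5, h6, h7 | h7⟩ := h
  · exact S.jj (S.pt_of_ne (S.ads h1) h2 h7 h5) h1 (S.ads h4) h2.n (S.ads h3).n t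
  · exact h7

lemma sq_cp {a b c e : V} (h : Z.Sq a b c e) : Z.cp a b e := by
  by_cases t : Z.ty b = Z.ty e
  · exact ⟨c, S.sq_pt h t, h.2.1.n, (S.ads h.2.2.1).n⟩
  · exact S.lp h.1 (S.ads h.2.2.2.1) (S.sq_n h t)

lemma cp_n {w x y : V} (h : Z.cp w x y) (hx : Z.ad w x) (hy : Z.ad w y) (t : Z.ty x ≠ Z.ty y) :
    Z.N x y := h.elim fun _ h => S.jj h.1 hx hy h.2.1 h.2.2 t

lemma stp {a b : V} {n : ℕ} (h : Z.d a b = n + 1) : ∃ c, Z.ad a c ∧ Z.d c b = n :=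
  (S.step h).imp fun _ h => ⟨S.dad.1 h.1, h.2⟩

end ZB

lemma ZM.lv (S : Z.ZM) (o : V) {a b : V} (h : Z.ad a b) :
    Z.d o b = Z.d o a + 1 ∨ Z.d o a = Z.d o b + 1 := by
  have := S.lip o h
  have := S.lip o (S.ads h)
  have := S.bip o h
  omega

end Zd

end Pool.Agent.Lib.MP_35cce7_an.Q
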