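import Pool.Agent.Lib.MP_35cce7_an.QZ0

namespace Pool.Agent.Lib.MP_35cce7_an.Q

namespace Zd

variable {V : Type} {Z : Zd V}

theorem ZM.med (S : Z.ZM) (a b c : V) : ∃ m, Z.I a b m ∧ Z.I b c m ∧ Z.I a c m := by
  have s := S.symm
  have t := S.tri
  have key : ∀ n b, Z.d b c = n → ∃ m, Z.I a b m ∧ Z.I b c m ∧ Z.I a c m := by
    intro n
    induction n with
    | zero =>
      intro b h
      obtain rfl := S.eq0 h
      exact ⟨b, by simp [I, S.refl]⟩
    | succ n ih =>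
      intro b h
      have low : ∀ e, Z.ad b e → Z.d e c = n → Z.d a b = Z.d a e + 1 →
          ∃ m, Z.I a b m ∧ Z.I b c m ∧ Z.I a c m := fun e h1 h2 h3 => by
        obtain ⟨m, m1, m2, m3⟩ := ih e h2
        have := S.lip m (S.ads h1)
        have := t a m b
        have := t b m c
        refine ⟨m, ?_, ?_, m3⟩ <;> simp only [I] at * <;> grind
      obtain ⟨e, e1, e2⟩ := S.stp h
      rcases S.lv a e1 with l | l
      swap
      · exact low e e1 e2 l
      obtain ⟨m, m1, m2, m3⟩ := ih e e2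
      simp only [I] at m1 m2 m3
      cases k : Z.d e m with
      | zero =>
        obtain rfl := S.eq0 k
        refine ⟨b, ?_, ?_, ?_⟩ <;> simp only [I, S.refl] <;> omega
      | succ k' =>
        obtain ⟨e', f1, f2⟩ := S.stp k
        have := t a m e'
        have := t e' m c
        have := S.lip a (S.ads f1)
        rcases S.qc a (S.ads e1) f1 (by omega) (by grind) with rfl | ⟨x, x1, x2⟩
        · omega
        · have := S.lip c x2.2.2.2.1
          have := S.lip c x2.1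
          exact low x (S.ads x2.1) (by grind) (by omega)
  exact key _ b rfl

theorem ZM.prt_of (S : Z.ZM) {u z : V} (h : ¬ Z.Small u z) : ∃ K, Z.Prt u z K := by
  simp only [Small, not_forall] at h
  obtain ⟨x, x', h1, h2, h3, h4⟩ := h
  obtain ⟨c, c1, c2⟩ := (S.qc u h1.1 h2.1 h1.2 h2.2).resolve_left h4
  exact ⟨c, S.pts (S.sq_pt c2 h3), c1⟩

lemma ZM.dn_of (S : Z.ZM) {u z K x : V} (h : Z.Prt u z K) (h1 : Z.ad z x) (h2 : Z.N x K) :
    Z.Dn u z x := by
  have := S.lip u (S.ads (ad_of_pt h1 h.1 h2))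
  have := S.lip u (S.ads h1)
  have := h.2
  exact ⟨h1, by omega⟩

lemma ZM.dn_n (S : Z.ZM) {u z x y : V} (h : Z.Dn u z x) (h' : Z.Dn u z y) (t : Z.ty x ≠ Z.ty y) :
    Z.N x y := by
  rcases S.qc u h.1 h'.1 h.2 h'.2 with rfl | ⟨c, -, h⟩
  exacts [S.nrefl _, S.sq_n h t]

theorem ZM.dn_iff (S : Z.ZM) {u z K x : V} (h : Z.Prt u z K) :
    Z.Dn u z x ↔ Z.ad z x ∧ Z.N x K := by
  refine ⟨fun hx => ⟨hx.1, ?_⟩, fun hx => S.dn_of h hx.1 hx.2⟩
  obtain ⟨e, e', h1, h2, h3, h4, h5, h6, h7⟩ := S.rich h.1 (!(Z.ty x).1)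
  have t : Z.ty x ≠ Z.ty e := fun t => by simp [← t] at h7
  exact S.f1b h.1 h2 h3 hx.1 h1 h6 t h4 h5 (S.dn_n hx (S.dn_of h h2 h4) t)
    (S.dn_n hx (S.dn_of h h3 h5) (h6 ▸ t))

theorem ZM.prt_uniq (S : Z.ZM) {u z K K' : V} (h : Z.Prt u z K) (h' : Z.Prt u z K') : K = K' := by
  obtain ⟨e, e', h1, h2, h3, h4, h5, h6, -⟩ := S.rich h.1 true
  exact S.f1a h.1 h'.1 h2 h3 h1 h6 h4 h5 ((S.dn_iff h').1 (S.dn_of h h2 h4)).2
    ((S.dn_iff h').1 (S.dn_of h h3 h5)).2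

theorem ZM.not_small (S : Z.ZM) {u z K : V} (h : Z.Prt u z K) : ¬ Z.Small u z := fun hs => by
  obtain ⟨e, e', h1, h2, h3, h4, h5, h6, -⟩ := S.rich h.1 true
  exact h1 (hs _ _ (S.dn_of h h2 h4) (S.dn_of h h3 h5) h6)

lemma card_two {α : Type} {A : Set α} (f : α → Bool) (h : ∀ x ∈ A, ∀ y ∈ A, f x = f y → x = y) :
    A.encard ≤ 2 :=
  (Set.encard_le_encard_of_injOn (f := f) (t := Set.univ) (fun _ _ => trivial)
    fun x hx y hy e => h x hx y hy e).trans (by rw [Set.encard_univ]; simp)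

theorem small_card {u z : V} (h : Z.Small u z) : {x | Z.Dn u z x}.encard ≤ 2 :=
  card_two (fun x => (Z.ty x).1) fun x hx y hy e => h x y hx hy (by
    have h1 := hx.1
    have h2 := hy.1
    clear hx hy h
    simp only [ad, ev, od, pt, ne_eq, ty_iff, b1, b2] at *
    grind)

/-- four squares around `g` in an isometric grid -/
structure St (Z : Zd V) (g a b c e p q r s : V) : Prop where
  sp : Z.Sq g a p b
  sq : Z.Sq g b q c
  sr : Z.Sq g c r e
  ss : Z.Sq g e s a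
  pc : ¬ Z.ad p c
  pe : ¬ Z.ad p e
  qe : ¬ Z.ad q e
  qa : ¬ Z.ad q a
  ra : ¬ Z.ad r a
  rb : ¬ Z.ad r b
  sb : ¬ Z.ad s b
  sc : ¬ Z.ad s c
  pr : ∀ x, Z.ad p x → ¬ Z.ad r x
  qs : ∀ x, Z.ad q x → ¬ Z.ad s x

lemma St.rot {g a b c e p q r s : V} (h : St Z g a b c e p q r s) : St Z g b c e a q r s p :=
  ⟨h.sq, h.sr, h.ss, h.sp, h.qe, h.qa, h.ra, h.rb, h.sb, h.sc, h.pc, h.pe, h.qs,
    fun x h1 h2 => h.pr x h2 h1⟩

lemma ZM.noev (S : Z.ZM) {g a b c e p q r s : V} (h : St Z g a b c e p q r s) (ha : Z.ev g a)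
    (hb : Z.ev g b) : False := by
  have hp := S.sq_pt h.sp (ev_ty ha hb)
  have hc := h.sr.1
  have he := h.ss.1
  have key : ∃ K, Z.pt g K ∧ Z.N c K ∧ Z.N e K ∧ (Z.ty c = Z.ty e → K = r) := by
    by_cases t : Z.ty c = Z.ty e
    · exact ⟨r, S.sq_pt h.sr t, h.sr.2.1.n, (S.ads h.sr.2.2.1).n, fun _ => rfl⟩
    · exact (S.sq_cp h.sr).imp fun K h => ⟨h.1, h.2.1, h.2.2, fun e => (t e).elim⟩
  obtain ⟨K, k1, k2, k3, k4⟩ := key
  rcases S.ax1 ha hb hc he h.sp.2.2.2.2.2.1 hp k1 h.sp.2.1.n (S.ads h.sp.2.2.1).n (S.sq_cp h.sq)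
    (S.sq_cp h.ss) k2 k3 with h1 | h1 | ⟨h1, x, x1, x2, x3⟩
  · exact h.pc (S.ads (ad_of_pt hc hp h1))
  · exact h.pe (S.ads (ad_of_pt he hp h1))
  · obtain rfl := k4 h1
    exact h.pr x (S.ads (ad_of_pt x1 hp x2)) (S.ads (ad_of_pt x1 k1 x3))

lemma ZM.chamber (S : Z.ZM) {a b c e : V} (h : Z.Sq a b c e) (h1 : ¬ (Z.ev a b ∧ Z.ev a e))
    (h2 : ¬ (Z.ev c b ∧ Z.ev c e)) : Z.ty b ≠ Z.ty e := fun t => by
  have hp := S.sq_pt h t
  have a1 := h.1
  have a2 := S.ads h.2.2.2.1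
  have a3 := S.ads h.2.1
  have a4 := h.2.2.1
  clear h S
  simp only [ad, ev, od, pt, ne_eq, ty_iff, b1, b2] at *
  grind

lemma ZM.two (S : Z.ZM) {g a b c e p q r s b' p' q' : V} (h : St Z g a b c e p q r s)
    (h' : St Z b q g p b' c a p' q') (o : Z.od g b) (t1 : Z.ty a ≠ Z.ty b) (t2 : Z.ty b ≠ Z.ty c)
    (t3 : Z.ty c ≠ Z.ty e) (t4 : Z.ty e ≠ Z.ty a) (t5 : Z.ty g ≠ Z.ty p) (t6 : Z.ty g ≠ Z.ty q)
    (t7 : Z.ty p ≠ Z.ty b') (t8 : Z.ty b' ≠ Z.ty q) : False := by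
  have ha := h.sp.1
  have hb := h.sq.1
  have hc := h.sr.1
  have he := h.ss.1
  have ea := ev_of_ne o ha t1.symm
  have ec := ev_of_ne o hc t2
  have hp := S.pt_of_ne (S.ads ha) h.sp.2.1 (S.nsymm (S.sq_n (S.rot h.sp) t5.symm))
    h.sp.2.2.2.2.1
  have hq := S.pt_of_ne (S.ads hb) h.sq.2.1 (S.nsymm (S.sq_n (S.rot h.sq) t6.symm))
    h.sq.2.2.2.2.1
  obtain ⟨K, k1, k2, k3, k4, -⟩ := S.f1c ha hc hb he (fun e => h.pc (e ▸ S.ads h.sp.2.1))
    (fun e => h.pe (e ▸ h.sp.2.2.1)) (ev_ty ea ec) ((ty_two ha hb he t1).resolve_left t4).symm t1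
    (S.sq_n h.sp t1) (S.nsymm (S.sq_n h.ss t4)) (S.nsymm (S.sq_n h.sq t2)) (S.sq_n h.sr t3)
  have b1 := h'.sp.1
  have b2 := h'.sq.1
  have b3 := h'.sr.1
  have b4 := h'.ss.1
  obtain ⟨O, o1, o2, o3, o4, -⟩ := S.f1c b3 b1 b2 b4 (fun e => h.pc (e ▸ h.sq.2.2.1))
    (fun e => h'.pe (e ▸ S.ads hc)) (pt_ty hp hq) ((ty_two b2 b3 b4 t5).resolve_right t7.symm).symm
    t5.symm (S.nsymm hp.1) (S.sq_n h'.sr t7) (S.nsymm hq.1) (S.nsymm (S.sq_n h'.ss t8))
  have g1 := ad_of_pt b2 o1 o4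
  have g2 : Z.ev g O := ev_of_ne o g1 o1.ty_ne
  have := S.ax3 o ea g2 ec (fun e => h.qa (e ▸ ad_of_pt b1 o1 o3)) hp hq k1
    (S.ads h.sp.2.2.1).n h.sp.2.1.n (S.nsymm o2) h.sq.2.1.n (S.nsymm o3) (S.ads h.sq.2.2.1).n k4
    k2 k3
  exact h.pc (S.ads (ad_of_pt hc hp this))

lemma ZM.nogrid (S : Z.ZM) (g : ℕ → ℕ → V) (v a : V) (L j : ℕ)
    (h : ∀ i < 5, ∀ k < 5, Z.Sq (g i k) (g (i + 1) k) (g (i + 1) (k + 1)) (g i (k + 1)))
    (h1 : ∀ i ≤ 5, ∀ k ≤ 5, Z.d v (g i k) + i + k = L)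
    (h2 : ∀ i ≤ 5, ∀ k ≤ 5, Z.d a (g i k) + i = j + k) : False := by
  have na : ∀ i k i' k', i ≤ 5 → k ≤ 5 → i' ≤ 5 → k' ≤ 5 → ∀ x, (x = g i k ∨ Z.ad (g i k) x) →
      Z.ad (g i' k') x → i + k ≤ i' + k' + 2 ∧ i' + k' ≤ i + k + 2 ∧ i + k' ≤ i' + k + 2 ∧
        i' + k ≤ i + k' + 2 := by
    intro i k i' k' a1 a2 a3 a4 x hx hx'
    have := h1 i a1 k a2
    have := h1 i' a3 k' a4
    have := h2 i a1 k a2
    have := h2 i' a3 k' a4
    have := S.lv v hx'
    have := S.lv a hx'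
    rcases hx with rfl | hx
    · omega
    · have := S.lv v hx
      have := S.lv a hx
      omega
  have st : ∀ i k, i < 4 → k < 4 → St Z (g (i + 1) (k + 1)) (g i (k + 1)) (g (i + 1) k)
      (g (i + 2) (k + 1)) (g (i + 1) (k + 2)) (g i k) (g (i + 2) k) (g (i + 2) (k + 2))
      (g i (k + 2)) := fun i k hi hk => by
    refine ⟨S.rot (S.rot (h i (by omega) k (by omega))),
      S.rot (S.rot (S.rot (h (i + 1) (by omega) k (by omega)))),
      h (i + 1) (by omega) (k + 1) (by omega), S.rot (h i (by omega) (k + 1) (by omega)),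
      ?_, ?_, ?_, ?_, ?_, ?_, ?_, ?_, fun x hx hx' => ?_, fun x hx hx' => ?_⟩
    iterate 8
      intro e
      have := na _ _ _ _ (by omega) (by omega) (by omega) (by omega) _ (Or.inl rfl) e
      omega
    all_goals
      have := na _ _ _ _ (by omega) (by omega) (by omega) (by omega) _ (Or.inr hx) hx'
      omega
  have ne : ∀ i k, i < 4 → k < 4 →
      ¬ (Z.ev (g (i + 1) (k + 1)) (g i (k + 1)) ∧ Z.ev (g (i + 1) (k + 1)) (g (i + 1) k)) ∧
      ¬ (Z.ev (g (i + 1) (k + 1)) (g (i + 1) k) ∧ Z.ev (g (i + 1) (k + 1)) (g (i + 2) (k + 1))) ∧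
      ¬ (Z.ev (g (i + 1) (k + 1)) (g (i + 2) (k + 1)) ∧
        Z.ev (g (i + 1) (k + 1)) (g (i + 1) (k + 2))) ∧
      ¬ (Z.ev (g (i + 1) (k + 1)) (g (i + 1) (k + 2)) ∧ Z.ev (g (i + 1) (k + 1)) (g i (k + 1))) :=
    fun i k hi hk => ⟨fun e => S.noev (st i k hi hk) e.1 e.2,
      fun e => S.noev (st i k hi hk).rot e.1 e.2, fun e => S.noev (st i k hi hk).rot.rot e.1 e.2,
      fun e => S.noev (st i k hi hk).rot.rot.rot e.1 e.2⟩
  have ch : ∀ i k, i < 3 → k < 3 → Z.ty (g (i + 2) (k + 1)) ≠ Z.ty (g (i + 1) (k + 2)) ∧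
      Z.ty (g (i + 2) (k + 2)) ≠ Z.ty (g (i + 1) (k + 1)) := fun i k hi hk => by
    have q := h (i + 1) (by omega) (k + 1) (by omega)
    exact ⟨S.chamber q (ne i k (by omega) (by omega)).2.2.1
      fun e => (ne (i + 1) (k + 1) (by omega) (by omega)).1 e.symm,
      S.chamber (S.rot q) (ne (i + 1) k (by omega) (by omega)).2.2.2
      fun e => (ne i (k + 1) (by omega) (by omega)).2.1 e.symm⟩
  have c := fun i k hi hk => (ch i k hi hk).1
  have c' := fun i k hi hk => (ch i k hi hk).2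
  have q := h 2 (by omega) 2 (by omega)
  by_cases o : Z.od (g 2 2) (g 3 2)
  · exact S.two (st 1 1 (by omega) (by omega)).rot (st 2 1 (by omega) (by omega)).rot.rot.rot o
      (c' 1 0 (by omega) (by omega)).symm (c 1 1 (by omega) (by omega))
      (c' 0 1 (by omega) (by omega)) (c 0 0 (by omega) (by omega)).symm
      (c 1 0 (by omega) (by omega)).symm (c' 1 1 (by omega) (by omega)).symm
      (c' 2 0 (by omega) (by omega)).symm (c 2 1 (by omega) (by omega))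
  · have o' := od_of_ne (q.1.resolve_right o) (S.ads q.2.2.2.1) (c 1 1 (by omega) (by omega))
    exact S.two (st 1 1 (by omega) (by omega)).rot.rot (st 1 2 (by omega) (by omega)) o'
      (c 1 1 (by omega) (by omega)) (c' 0 1 (by omega) (by omega))
      (c 0 0 (by omega) (by omega)).symm (c' 1 0 (by omega) (by omega)).symm
      (c' 1 1 (by omega) (by omega)).symm (c 0 1 (by omega) (by omega))
      (c 1 2 (by omega) (by omega)) (c' 0 2 (by omega) (by omega))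

lemma ZM.geo (S : Z.ZM) (n : ℕ) : ∀ {w a : V} {j : ℕ}, Z.d w a = j → n ≤ j → ∃ p : ℕ → V, p 0 = w ∧
    (∀ i < n, Z.ad (p i) (p (i + 1))) ∧ ∀ i ≤ n, Z.d (p i) a + i = j := by
  induction n with
  | zero => exact fun {w a j} h _ => ⟨fun _ => w, rfl, by simp, by simpa using h⟩
  | succ n ih =>
    intro w a j h hn
    obtain ⟨j, rfl⟩ : ∃ j', j = j' + 1 := ⟨j - 1, by omega⟩
    obtain ⟨c, c1, c2⟩ := S.stp h
    obtain ⟨p, p1, p2, p3⟩ := ih c2 (by omega)
    refine ⟨fun i => Nat.casesOn i w p, rfl, ?_, ?_⟩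
    · rintro (_ | i) hi
      exacts [show Z.ad w (p 0) from p1 ▸ c1, p2 i (by omega)]
    · rintro (_ | i) hi
      · exact h
      · have := p3 i (by omega)
        dsimp only
        omega

theorem ZM.grid (S : Z.ZM) {u v a b : V} (ha : Z.I u v a) (hb : Z.I u v b)
    (h : Z.d u a = Z.d u b) : Z.d a b ≤ 8 := by
  by_contra hn
  have s := S.symm
  have t := S.tri
  obtain ⟨w, w1, w2, w3⟩ := S.med u a b
  simp only [I] at ha hb w1 w2 w3
  obtain ⟨j, hj⟩ : ∃ j, Z.d w a = j := ⟨_, rfl⟩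
  have hj' : Z.d w b = j := by omega
  have hab : Z.d a b = 2 * j := by grind
  obtain ⟨p, p1, p2, p3⟩ := S.geo 5 hj (by omega)
  obtain ⟨q, q1, q2, q3⟩ := S.geo 5 hj' (by omega)
  have nx : ∀ x z y, ∃ c, Z.Dn v z x → Z.Dn v z y → x ≠ y →
      Z.d v c + 2 = Z.d v z ∧ Z.Sq c x z y := fun x z y => by
    by_cases e : Z.Dn v z x ∧ Z.Dn v z y ∧ x ≠ y
    · exact ((S.qc v e.1.1 e.2.1.1 e.1.2 e.2.1.2).resolve_left e.2.2).imp fun c h _ _ _ => h
    · exact ⟨x, fun h1 h2 h3 => (e ⟨h1, h2, h3⟩).elim⟩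
  choose nx hnx using nx
  let g : ℕ → ℕ → V := fun i => Nat.rec q
    (fun i r k => Nat.rec (p (i + 1)) (fun k c => nx c (r k) (r (k + 1))) k) i
  have g0 : ∀ i, g i 0 = p i := by
    rintro (_ | i)
    exacts [q1.trans p1.symm, rfl]
  have dw : ∀ (p : ℕ → V), p 0 = w → (∀ i < 5, Z.ad (p i) (p (i + 1))) → ∀ i ≤ 5,
      Z.d w (p i) ≤ i := fun p p1 p2 i => by
    induction i with
    | zero => simp [p1, S.refl]
    | succ i ih => exact fun hi => (S.lip w (p2 i (by omega))).trans (by have := ih (by omega); omega)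
  have hv : Z.d v w = j + Z.d a v := by
    have := t u w v
    have := t w a v
    grind
  let P : ℕ → ℕ → Prop := fun i k => Z.d v (g i k) + i + k = Z.d v w ∧
    Z.d a (g i k) + i = j + k ∧ Z.d b (g i k) + k = j + i
  have pp : ∀ i ≤ 5, P i 0 := fun i hi => by
    have := p3 i hi
    have := dw p p1 p2 i hi
    have := t v a (p i)
    have := t v (p i) w
    have := t b w (p i)
    have := t a (p i) b
    simp only [P, g0]
    grind
  have row : ∀ i ≤ 5, (∀ k ≤ 5, P i k) ∧ (∀ k < 5, Z.ad (g i k) (g i (k + 1))) ∧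
      ∀ i', i = i' + 1 → ∀ k < 5,
        Z.Sq (g i' k) (g (i' + 1) k) (g (i' + 1) (k + 1)) (g i' (k + 1)) := by
    intro i
    induction i with
    | zero =>
      refine fun _ => ⟨fun k hk => ?_, q2, by simp⟩
      have := q3 k hk
      have := dw q q1 q2 k hk
      have := t v b (q k)
      have := t v (q k) w
      have := t a w (q k)
      have := t a (q k) b
      have e : g 0 k = q k := rfl
      simp only [P, e]
      grind
    | succ i ih =>
      intro hi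
      obtain ⟨r1, r2, -⟩ := ih (by omega)
      have col : ∀ k ≤ 5, P (i + 1) k ∧ Z.ad (g i k) (g (i + 1) k) ∧ ∀ k', k = k' + 1 →
          Z.Sq (g i k') (g (i + 1) k') (g (i + 1) (k' + 1)) (g i (k' + 1)) := by
        intro k
        induction k with
        | zero => exact fun _ => ⟨pp _ hi, by rw [g0 i, g0 (i + 1)]; exact p2 i (by omega), by simp⟩
        | succ k ih =>
          intro hk
          obtain ⟨c1, c2, -⟩ := ih (by omega)
          have a1 := r1 k (by omega)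
          have a2 := r1 (k + 1) hk
          simp only [P] at c1 a1 a2
          obtain ⟨n1, n2⟩ := hnx (g (i + 1) k) (g i k) (g i (k + 1)) ⟨c2, by omega⟩
            ⟨r2 k (by omega), by omega⟩ fun e => by rw [e] at c1; omega
          change Z.d v (g (i + 1) (k + 1)) + 2 = _ at n1
          change Z.Sq (g (i + 1) (k + 1)) _ _ _ at n2
          have := S.lip a (S.ads n2.1)
          have := S.lip b n2.2.2.2.1
          have := t a (g (i + 1) (k + 1)) b
          refine ⟨by simp only [P]; grind, n2.2.2.2.1, fun k' e => ?_⟩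
          obtain rfl : k = k' := by omega
          exact S.rev (S.rot (S.rot n2))
      refine ⟨fun k hk => (col k hk).1, fun k hk => ((col (k + 1) hk).2.2 k rfl).2.1,
        fun i' e k hk => ?_⟩
      obtain rfl : i = i' := by omega
      exact (col (k + 1) hk).2.2 k rfl
  exact S.nogrid g v a (Z.d v w) j (fun i hi k hk => (row (i + 1) hi).2.2 i rfl k hk)
    (fun i hi k hk => ((row i hi).1 k hk).1) fun i hi k hk => ((row i hi).1 k hk).2.1

end Zd

end Pool.Agent.Lib.MP_35cce7_an.Q
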