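import Pool.Agent.Lib.MP_35cce7_an.QZ3

namespace Pool.Agent.Lib.MP_35cce7_an.Q

namespace Zd

variable {V : Type} {Z : Zd V}

namespace Z4

lemma c_rel {α β : Type} (n : ℕ) (R : α → β → Prop) (hR : ∀ a, {b | R a b}.encard ≤ n)
    (k : ℕ) (A : Set α) (hA : A.encard ≤ k) :
    {b | ∃ a ∈ A, R a b}.encard ≤ (n * k : ℕ) := by
  have fin := Set.finite_of_encard_le_coe hA
  induction A, fin using Set.Finite.induction_on generalizing k with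
  | empty => simp
  | @insert a s ha hs ih =>
    rw [Set.encard_insert_of_notMem ha] at hA
    obtain _ | k := k
    · simp at hA
    · have h1 : s.encard ≤ k := by
        rw [Nat.cast_add, Nat.cast_one] at hA
        exact (ENat.add_le_add_iff_right (by simp)).1 hA
      have h2 : {b | ∃ x ∈ insert a s, R x b} ⊆ {b | R a b} ∪ {b | ∃ x ∈ s, R x b} := by
        rintro b ⟨x, rfl | hx, hb⟩
        · exact Or.inl hb
        · exact Or.inr ⟨x, hx, hb⟩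
      refine (Set.encard_le_encard h2).trans ((Set.encard_union_le _ _).trans ?_)
      refine (add_le_add (hR a) (ih k h1)).trans (le_of_eq ?_)
      push_cast
      ring

lemma c_or {α : Type} {p q : α → Prop} {a b : ℕ∞} (hp : {x | p x}.encard ≤ a)
    (hq : {x | q x}.encard ≤ b) : {x | p x ∨ q x}.encard ≤ a + b :=
  (Set.encard_union_le {x | p x} {x | q x}).trans (add_le_add hp hq)

lemma c_one {α : Type} {p : α → Prop} (h : ∀ x y, p x → p y → x = y) :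
    {x | p x}.encard ≤ 1 :=
  Set.encard_le_one_iff.2 fun x y hx hy => h x y hx hy

lemma ty_ad {w x y : V} (hx : Z.ad w x) (hy : Z.ad w y) (e : (Z.ty x).1 = (Z.ty y).1) :
    Z.ty x = Z.ty y := by
  simp only [ad, ev, od, ne_eq, ty_iff, b1, b2] at *
  grind

lemma ty_pt {s m s' : V} (h : Z.pt s m) (h' : Z.pt s' m) : Z.ty s = Z.ty s' := by
  simp only [pt, ne_eq, ty_iff, b1, b2] at *
  grind

lemma i_symm (S : Z.ZM) {u v m : V} (h : Z.I u v m) : Z.I v u m := by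
  unfold I at h ⊢
  rw [S.symm v m, S.symm m u, S.symm v u]
  omega

lemma bad_symm (S : Z.ZM) {u v p : V} (h : Z.Bad u v p) : Z.Bad v u p := by
  obtain ⟨h1, h2, s, t, h3, h4, h5, h6, h7⟩ := h
  exact ⟨h2, h1, t, s, h4, h3, S.pts h5, h7, h6⟩

lemma can_symm (S : Z.ZM) {u v p : V} (h : Z.Can u v p) : Z.Can v u p :=
  ⟨i_symm S h.1, fun b => h.2 (bad_symm S b)⟩

lemma ex_symm {μ s t m : V} (h : Z.Ex μ s t m) : Z.Ex μ t s m :=
  h.imp (fun h => ⟨h.1, h.2.2, h.2.1⟩) fun h => ⟨fun c => h.1 (ZB.cps c), h.2.1, h.2.2.2, h.2.2.1⟩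

lemma up (S : Z.ZM) {u v μ s : V} (h : Z.I u v μ) (hs : Z.Dn u μ s) :
    Z.d v s = Z.d v μ + 1 ∧ Z.I u v s := by
  have h1 := S.lip v hs.1
  have h2 := S.tri u s v
  have h3 := hs.2
  have h4 := S.symm s v
  have h5 := S.symm μ v
  unfold I at h ⊢
  omega

lemma dn_ne (S : Z.ZM) {u v μ s t : V} (h : Z.I u v μ) (hs : Z.Dn u μ s) (ht : Z.Dn v μ t) :
    s ≠ t := by
  rintro rfl
  have := (up S h hs).1
  have := ht.2
  omega

/-- the ends of the spine of a book -/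
lemma spine (S : Z.ZM) {u v μ s t : V} (h : Z.I u v μ) (hs : Z.Dn u μ s) (ht : Z.Dn v μ t)
    (hp : Z.pt s t) : Z.Prt v s t ∧ Z.Can u v s := by
  obtain ⟨h1, h2⟩ := up S h hs
  have h3 : Z.Prt v s t := ⟨hp, by have := ht.2; omega⟩
  exact ⟨h3, h2, fun b => S.not_small h3 b.2.1⟩

lemma same (S : Z.ZM) {u p m m' s s' : V} (hu : Z.Small u p) (hm : Z.Dn u p m) (hm' : Z.Dn u p m')
    (h : Z.Side u p m s) (h' : Z.Side u p m' s') : m = m' := by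
  rcases h m' hm' with e | e
  · exact e.symm
  rcases h' m hm with e' | e'
  · exact e'
  exact hu _ _ hm hm' (od_ty e.1 e'.1)

lemma ex_uniq (S : Z.ZM) {μ s t m m' : V} (hs : Z.ad μ s) (ht : Z.ad μ t) (n : s ≠ t)
    (e : Z.ty s = Z.ty t) (h : Z.Ex μ s t m) (h' : Z.Ex μ s t m') : m = m' := by
  rcases h with h | h <;> rcases h' with h' | h'
  · exact S.f1a h.1 h'.1 hs ht n e h.2.1 h.2.2 h'.2.1 h'.2.2
  · exact absurd ⟨m, h⟩ h'.1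
  · exact absurd ⟨m', h'⟩ h.1
  · by_contra c
    obtain ⟨K, k1, k2, k3, -⟩ := S.f1c hs ht h.2.1 h'.2.1 n c e (ty_pt h.2.2.1 h'.2.2.1)
      (S.pts h.2.2.1).ty_ne (S.nsymm h.2.2.1.1) (S.nsymm h'.2.2.1.1) (S.nsymm h.2.2.2.1)
      (S.nsymm h'.2.2.2.1)
    exact h.1 ⟨K, k1, k2, k3⟩

lemma dn_card {u μ : V} : {m | Z.Small u μ ∧ Z.Dn u μ m}.encard ≤ 2 := by
  by_cases h : Z.Small u μ
  · exact (Set.encard_le_encard fun m hm => hm.2).trans (small_card h)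
  · simp [h]

lemma prt_card (S : Z.ZM) {τ} (hτ : Z.Sel τ) {u μ : V} :
    {m | ∃ K, Z.Prt u μ K ∧ τ μ K m}.encard ≤ 2 := by
  by_cases h : ∃ K, Z.Prt u μ K
  · obtain ⟨K, hK⟩ := h
    refine (Set.encard_le_encard ?_).trans (hτ.1 μ K)
    rintro m ⟨K', h1, h2⟩
    rwa [S.prt_uniq h1 hK] at h2
  · refine (Set.encard_le_encard (t := ∅) ?_).trans (by simp)
    rintro m ⟨K', h1, -⟩
    exact h ⟨K', h1⟩

lemma ex_card (S : Z.ZM) {u v μ : V} (h : Z.I u v μ) :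
    {m | Z.Small u μ ∧ Z.Small v μ ∧ ∃ s t, Z.Dn u μ s ∧ Z.Dn v μ t ∧ Z.ty s = Z.ty t ∧
      Z.Ex μ s t m}.encard ≤ 2 := by
  have h1 := c_rel 1 (fun s m => Z.Small v μ ∧ Z.Dn u μ s ∧ ∃ t, Z.Dn v μ t ∧ Z.ty s = Z.ty t ∧
    Z.Ex μ s t m) (fun s => c_one (by
      rintro m m' ⟨a1, a2, t, a3, a4, a5⟩ ⟨-, -, t', b3, b4, b5⟩
      obtain rfl := a1 t t' a3 b3 (a4.symm.trans b4)
      exact ex_uniq S a2.1 a3.1 (dn_ne S h a2 a3) a4 a5 b5)) 2 _ (dn_card (Z := Z) (u := u) (μ := μ))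
  refine (Set.encard_le_encard ?_).trans (h1.trans (by norm_num))
  rintro m ⟨a1, a2, s, t, a3, a4, a5, a6⟩
  exact ⟨s, ⟨a1, a3⟩, a2, a3, t, a4, a5, a6⟩

end Z4

open Z4

theorem ZM.s_symm (S : Z.ZM) {u σ v τ m} (h : Z.S u σ v τ m) : Z.S v τ u σ m := by
  obtain ⟨μ, h1, h⟩ := h
  refine ⟨μ, can_symm S h1, ?_⟩
  rcases h with h | h | h | ⟨a1, a2, s, t, a3, a4, a5, a6⟩ | h | h
  · exact .inl h
  · exact .inr (.inr (.inl h))
  · exact .inr (.inl h)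
  · exact .inr (.inr (.inr (.inl ⟨a2, a1, t, s, a4, a3, a5.symm, ex_symm a6⟩)))
  · exact .inr (.inr (.inr (.inr (.inr h))))
  · exact .inr (.inr (.inr (.inr (.inl h))))

theorem ZM.s_card (S : Z.ZM) {σ τ} (hσ : Z.Sel σ) (hτ : Z.Sel τ) (u v : V) :
    {m | Z.S u σ v τ m}.encard ≤ (13 * 12 ^ 10 * (Z.d u v + 1) : ℕ) := by
  have h1 := c_rel 13 (fun μ m => Z.I u v μ ∧ (m = μ ∨ (Z.Small u μ ∧ Z.Dn u μ m) ∨
    (Z.Small v μ ∧ Z.Dn v μ m) ∨ (Z.Small u μ ∧ Z.Small v μ ∧ ∃ s t, Z.Dn u μ s ∧ Z.Dn v μ t ∧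
      Z.ty s = Z.ty t ∧ Z.Ex μ s t m) ∨ (∃ K, Z.Prt u μ K ∧ τ μ K m) ∨
      ∃ K, Z.Prt v μ K ∧ σ μ K m)) (fun μ => by
    by_cases h : Z.I u v μ
    · refine (Set.encard_le_encard fun m hm => hm.2).trans ((c_or (c_one (p := fun m => m = μ)
        fun x y hx hy => hx.trans hy.symm) (c_or dn_card (c_or dn_card (c_or (ex_card S h)
        (c_or (prt_card S hτ) (prt_card S hσ)))))).trans (by norm_num))
    · simp [h]) _ _ (S.can_card u v)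
  refine (Set.encard_le_encard ?_).trans (h1.trans (by rw [mul_assoc]))
  rintro m ⟨μ, a1, a2⟩
  exact ⟨μ, a1, a1.1, a2⟩

theorem ZM.iv_card (S : Z.ZM) (a b : V) : {m | Z.Iv a b m}.encard ≤ (4 : ℕ) := by
  have h3 : {m | a ≠ b ∧ Z.ty a = Z.ty b ∧ Z.ad a m ∧ Z.ad b m}.encard ≤ 2 := by
    refine card_two (fun x => (Z.ty x).1) ?_
    rintro x ⟨n, t, x1, x2⟩ y ⟨-, -, y1, y2⟩ e
    have e' := ty_ad x1 y1 e
    have d1 := S.dad.2 x1
    have d2 := S.dad.2 y1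
    have d3 : Z.d a b = 2 := by
      have := S.lip a (S.ads x2)
      have h0 : Z.d a b ≠ 0 := fun c => n (S.eq0 c)
      have h1 : Z.d a b ≠ 1 := fun c => (S.dad.1 c).ty_ne t
      omega
    rcases S.qc a x2 y2 (by omega) (by omega) with q | ⟨c, c1, c2⟩
    · exact q
    · obtain rfl : a = c := S.eq0 (by omega)
      rcases c2.2.2.2.2.2.2 with q | q
      · exact absurd (S.ninj q t) n
      · exact S.ninj q e'
  exact (c_or (c_one (p := fun m => m = a) fun x y hx hy => hx.trans hy.symm)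
    (c_or (c_one (p := fun m => m = b) fun x y hx hy => hx.trans hy.symm) h3)).trans
    (by norm_num)

theorem ZM.tr_iv (S : Z.ZM) {t a b b' c} (h : Z.Tr t a b c) (h' : Z.Tr t a b' c) :
    (∃ m, Z.Iv a b m ∧ Z.Iv b b' m ∧ Z.Iv a b' m) ∧
      ∃ m, Z.Iv b b' m ∧ Z.Iv b' c m ∧ Z.Iv b c m := by
  by_cases e : b = b'
  · subst e
    exact ⟨⟨b, .inr (.inl rfl), .inl rfl, .inr (.inl rfl)⟩, b, .inl rfl, .inl rfl, .inl rfl⟩
  have ht := h.1.trans h'.1.symm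
  rcases h.2 with ⟨rfl, rfl⟩ | p <;> rcases h'.2 with ⟨q1, q2⟩ | q
  · exact absurd q1 e
  · exact absurd rfl q.1.ne
  · exact absurd (q1.trans q2) p.1.ne
  · exact ⟨⟨a, .inl rfl, .inr (.inr ⟨e, ht, S.ads p.2.1, S.ads q.2.1⟩), .inl rfl⟩,
      c, .inr (.inr ⟨e, ht, S.ads p.2.2, S.ads q.2.2⟩), .inr (.inl rfl), .inr (.inl rfl)⟩

namespace Z4

lemma s_can {u σ v τ m} (h : Z.Can u v m) : Z.S u σ v τ m := ⟨m, h, .inl rfl⟩

lemma s_dn {u σ v τ μ m} (h : Z.Can u v μ) (h1 : Z.Small u μ) (h2 : Z.Dn u μ m) :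
    Z.S u σ v τ m := ⟨μ, h, .inr (.inl ⟨h1, h2⟩)⟩

lemma s_ex {u σ v τ μ s t m} (h : Z.Can u v μ) (h1 : Z.Small u μ) (h2 : Z.Small v μ)
    (hs : Z.Dn u μ s) (ht : Z.Dn v μ t) (e : Z.ty s = Z.ty t) (hx : Z.Ex μ s t m) :
    Z.S u σ v τ m := ⟨μ, h, .inr (.inr (.inr (.inl ⟨h1, h2, s, t, hs, ht, e, hx⟩)))⟩

lemma s_prt {u σ v τ μ K m} (h : Z.Can u v μ) (h1 : Z.Prt u μ K) (h2 : τ μ K m) :
    Z.S u σ v τ m := ⟨μ, h, .inr (.inr (.inr (.inr (.inl ⟨K, h1, h2⟩))))⟩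

variable {A : Type} {u : A → V} {σ : A → V → V → V → Prop}

lemma pat_rev (S : Z.ZM) {x y z : A}
    (h : Pat Z.Tr (fun x y => Z.S (u x) (σ x) (u y) (σ y)) x y z) :
    Pat Z.Tr (fun x y => Z.S (u x) (σ x) (u y) (σ y)) z y x := by
  obtain ⟨t, a, b, c, h0, h1, h2, h3, h4, h5, h6⟩ := h
  refine ⟨t, c, b, a, ⟨h0.1, h0.2.imp (fun h => ⟨h.2.symm, h.1.symm⟩)
    fun h => ⟨S.pts h.1, h.2.2, h.2.1⟩⟩, S.s_symm h6, S.s_symm h5, S.s_symm h4, S.s_symm h3,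
    S.s_symm h2, S.s_symm h1⟩

/-- exactly the pair `x`, `z` is bad -/
lemma one_bad (S : Z.ZM) {x y z : A} {μ : V} (hxy : Z.Can (u x) (u y) μ)
    (hyz : Z.Can (u y) (u z) μ) (hxz : Z.I (u x) (u z) μ) (b : Z.Bad (u x) (u z) μ) :
    Pat Z.Tr (fun x y => Z.S (u x) (σ x) (u y) (σ y)) x y z := by
  obtain ⟨h1, h2, s, t, h3, h4, h5, -, -⟩ := b
  exact ⟨_, s, μ, t, ⟨rfl, .inr ⟨h5, S.ads h3.1, S.ads h4.1⟩⟩, s_dn hxy h1 h3,
    s_can (spine S hxz h3 h4 h5).2, s_can hxy, s_can hyz,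
    s_can (can_symm S (spine S (i_symm S hxz) h4 h3 (S.pts h5)).2),
    S.s_symm (s_dn (can_symm S hyz) h2 h4)⟩

/-- a selected page of the book of `x` -/
lemma page (S : Z.ZM) {x y z : A} {μ s s' m ν : V} (hxy : Z.Can (u x) (u y) μ)
    (hxz : Z.I (u x) (u z) μ) (hyz : Z.I (u y) (u z) μ) (sy : Z.Small (u y) μ)
    (hs : Z.Dn (u x) μ s) (hs' : Z.Dn (u y) μ s') (hm : Z.Dn (u z) μ m) (p : Z.pt s m)
    (p' : Z.pt s' m) (h1 : Z.ad s' ν) (h2 : Z.ad m ν) (h3 : σ z m s ν)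
    (h4 : Z.S (u x) (σ x) (u y) (σ y) ν) :
    Pat Z.Tr (fun x y => Z.S (u x) (σ x) (u y) (σ y)) y x z := by
  obtain ⟨a1, a2⟩ := spine S (i_symm S hxz) hm hs (S.pts p)
  exact ⟨_, s', ν, m, ⟨rfl, .inr ⟨p', h1, h2⟩⟩, s_dn (can_symm S hxy) sy hs',
    s_can (spine S hyz hs' hm p').2, S.s_symm h4, s_prt (can_symm S a2) a1 h3,
    s_can (can_symm S (spine S (i_symm S hyz) hm hs' (S.pts p')).2), s_can (can_symm S a2)⟩

/-- the pairs `x`, `z` and `y`, `z` are bad -/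
lemma two_bad (S : Z.ZM) (hσ : ∀ x, Z.Sel (σ x)) {x y z : A} {μ : V} (hxy : Z.I (u x) (u y) μ)
    (hxz : Z.I (u x) (u z) μ) (hyz : Z.I (u y) (u z) μ) (b : Z.Bad (u x) (u z) μ)
    (b' : Z.Bad (u y) (u z) μ) :
    Pat Z.Tr (fun x y => Z.S (u x) (σ x) (u y) (σ y)) y x z ∨
      Pat Z.Tr (fun x y => Z.S (u x) (σ x) (u y) (σ y)) x y z := by
  obtain ⟨sx, sz, s, m, hs, hm, p, d1, d2⟩ := b
  obtain ⟨sy, -, s', m', hs', hm', p', d1', d2'⟩ := b'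
  obtain rfl := same S sz hm hm' d2 d2'
  have e := ty_pt p p'
  have n := dn_ne S hxy hs hs'
  have c : Z.Can (u x) (u y) μ := by
    refine ⟨hxy, ?_⟩
    rintro ⟨-, -, r, r', hr, hr', q, f, f'⟩
    obtain rfl := same S sx hs hr d1 f
    obtain rfl := same S sy hs' hr' d1' f'
    exact q.ty_ne e
  by_cases cp : Z.cp μ s s'
  · obtain ⟨K, k1, k2, k3⟩ := cp
    have k4 : Z.N m K := S.f1b k1 hs.1 hs'.1 hm.1 n e (S.pts p).ty_ne k2 k3 (S.nsymm p.1)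
      (S.nsymm p'.1)
    have m1 := S.ads hm.1
    have m2 := ad_of_pt hm.1 k1 k4
    have x1 : Z.S (u x) (σ x) (u y) (σ y) K := s_ex c sx sy hs hs' e (.inl ⟨k1, k2, k3⟩)
    rcases (hσ z).2 m s s' μ K (S.pts p) (S.pts p') n m1 m2 k1.ty_ne hs.1.n (S.nsymm k2) hs'.1.n
      (S.nsymm k3) with q | q | q | q
    · exact .inl (page S c hxz hyz sy hs hs' hm p p' (S.ads hs'.1) m1 q (s_can c))
    · exact .inl (page S c hxz hyz sy hs hs' hm p p' (ad_of_pt hs'.1 k1 k3) m2 q x1)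
    · exact .inr (page S (can_symm S c) hyz hxz sx hs' hs hm p' p (S.ads hs.1) m1 q
        (s_can (can_symm S c)))
    · exact .inr (page S (can_symm S c) hyz hxz sx hs' hs hm p' p (ad_of_pt hs.1 k1 k2) m2 q
        (S.s_symm x1))
  · have x1 : Z.S (u x) (σ x) (u y) (σ y) m :=
      s_ex c sx sy hs hs' e (.inr ⟨cp, hm.1, S.pts p, S.pts p'⟩)
    have x2 : Z.S (u x) (σ x) (u z) (σ z) m :=
      s_can (can_symm S (spine S (i_symm S hxz) hm hs (S.pts p)).2)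
    have x3 : Z.S (u y) (σ y) (u z) (σ z) m :=
      s_can (can_symm S (spine S (i_symm S hyz) hm hs' (S.pts p')).2)
    exact .inr ⟨_, m, m, m, ⟨rfl, .inl ⟨rfl, rfl⟩⟩, x1, x2, x1, x3, x2, x3⟩

end Z4

theorem ZM.triple (S : Z.ZM) {A : Type} (u : A → V) (σ : A → V → V → V → Prop)
    (hσ : ∀ x, Z.Sel (σ x)) (x y z : A) :
    let T := fun x y => Z.S (u x) (σ x) (u y) (σ y)
    Pat Z.Tr T x y z ∨ Pat Z.Tr T y x z ∨ Pat Z.Tr T x z y := by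
  intro T
  obtain ⟨μ, hxy, hyz, hxz⟩ := S.med (u x) (u y) (u z)
  by_cases b1 : Z.Bad (u x) (u y) μ <;> by_cases b2 : Z.Bad (u y) (u z) μ <;>
    by_cases b3 : Z.Bad (u x) (u z) μ
  · exact (two_bad S hσ hxy hxz hyz b3 b2).elim (fun h => .inr (.inl h)) .inl
  · rcases two_bad S hσ hxz hxy (i_symm S hyz) b1 (bad_symm S b2) with h | h
    · exact .inr (.inl (pat_rev S h))
    · exact .inr (.inr h)
  · rcases two_bad S hσ hyz (i_symm S hxy) (i_symm S hxz) (bad_symm S b1) (bad_symm S b3) with h | h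
    · exact .inl (pat_rev S h)
    · exact .inr (.inr (pat_rev S h))
  · exact .inr (.inr (one_bad S ⟨hxz, b3⟩ (can_symm S ⟨hyz, b2⟩) hxy b1))
  · exact (two_bad S hσ hxy hxz hyz b3 b2).elim (fun h => .inr (.inl h)) .inl
  · exact .inr (.inl (one_bad S (can_symm S ⟨hxy, b1⟩) ⟨hxz, b3⟩ hyz b2))
  · exact .inl (one_bad S ⟨hxy, b1⟩ ⟨hyz, b2⟩ hxz b3)
  · exact .inl ⟨_, μ, μ, μ, ⟨rfl, .inl ⟨rfl, rfl⟩⟩, s_can ⟨hxy, b1⟩, s_can ⟨hxz, b3⟩,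
      s_can ⟨hxy, b1⟩, s_can ⟨hyz, b2⟩, s_can ⟨hxz, b3⟩, s_can ⟨hyz, b2⟩⟩

end Zd

end Pool.Agent.Lib.MP_35cce7_an.Q
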