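import Pool.Agent.Lib.MP_35cce7_an.QDefs

/-! The squares of `Z` satisfy the local cube conditions. -/

namespace Pool.Agent.Lib.MP_35cce7_an.Q

namespace Zd

variable {V : Type} {Z : Zd V}

/-- types that differ in exactly one coordinate -/
def one (s t : Bool × Bool) : Prop := (s.1 ≠ t.1 ∧ s.2 = t.2) ∨ (s.1 = t.1 ∧ s.2 ≠ t.2)

/-- types that differ in both coordinates -/
def two (s t : Bool × Bool) : Prop := s.1 ≠ t.1 ∧ s.2 ≠ t.2

instance (s t : Bool × Bool) : Decidable (one s t) := by unfold one; infer_instance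

instance (s t : Bool × Bool) : Decidable (two s t) := by unfold two; infer_instance

theorem ad_iff {a b : V} : Z.ad a b ↔ Z.N a b ∧ one (Z.ty a) (Z.ty b) := by
  unfold ad ev od one; tauto

theorem pt_iff {a b : V} : Z.pt a b ↔ Z.N a b ∧ two (Z.ty a) (Z.ty b) := Iff.rfl

theorem one_symm : ∀ s t, one s t → one t s := by decide

theorem two_symm : ∀ s t, two s t → two t s := by decide

theorem one_of_two : ∀ s t u, two s t → one s u → one u t := by decide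

theorem two_of_one : ∀ s t u, one s t → one t u → s ≠ u → two s u := by decide

theorem eq_of_two : ∀ s t u, two s t → two s u → t = u := by decide

theorem kinds : ∀ s t u v, one s t → one s u → one s v → t ≠ u → t ≠ v → u = v := by decide

theorem ad.N {a b : V} (h : Z.ad a b) : Z.N a b := (ad_iff.1 h).1

theorem ad.one {a b : V} (h : Z.ad a b) : one (Z.ty a) (Z.ty b) := (ad_iff.1 h).2

theorem ZB.ad_symm (h : Z.ZB) {a b : V} (e : Z.ad a b) : Z.ad b a :=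
  ad_iff.2 ⟨h.nsymm e.N, one_symm _ _ e.one⟩

theorem ZB.pt_symm (h : Z.ZB) {a b : V} (e : Z.pt a b) : Z.pt b a :=
  ⟨h.nsymm e.1, two_symm _ _ e.2⟩

/-- a point of a plane is adjacent to it -/
theorem ad_of_pt {w K x : V} (hK : Z.pt w K) (hx : Z.ad w x) (e : Z.N x K) : Z.ad x K :=
  ad_iff.2 ⟨e, one_of_two _ _ _ hK.2 hx.one⟩

theorem ZB.pt_of_N (h : Z.ZB) {a b c : V} (h1 : Z.ad a b) (h2 : Z.ad b c) (hne : a ≠ c)
    (e : Z.N a c) : Z.pt a c :=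
  ⟨e, two_of_one _ _ _ h1.one h2.one fun t => hne (h.ninj e t)⟩

theorem ZB.sq_rot (h : Z.ZB) {a b c e : V} (s : Z.Sq a b c e) : Z.Sq b c e a :=
  ⟨s.2.1, s.2.2.1, s.2.2.2.1, s.1, s.2.2.2.2.2.1, s.2.2.2.2.1.symm,
    s.2.2.2.2.2.2.symm.imp id h.nsymm⟩

theorem ZB.sq_rev (h : Z.ZB) {a b c e : V} (s : Z.Sq a b c e) : Z.Sq a e c b :=
  ⟨h.ad_symm s.2.2.2.1, h.ad_symm s.2.2.1, h.ad_symm s.2.1, h.ad_symm s.1, s.2.2.2.2.1,
    s.2.2.2.2.2.1.symm, s.2.2.2.2.2.2.imp id h.nsymm⟩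

/-- equal types on one diagonal: the other diagonal is a spine -/
theorem ZB.sq_same (h : Z.ZB) {a q c e : V} (s : Z.Sq a q c e) (t : Z.ty a = Z.ty c) :
    Z.pt q e := by
  obtain ⟨-, h2, h3, -, h5, h6, h7⟩ := s
  exact h.pt_of_N h2 h3 h6 (h7.resolve_left fun n => h5 (h.ninj n t))

/-- different types on a diagonal: its ends are incident -/
theorem ZB.sq_diff (h : Z.ZB) {a q c e : V} (s : Z.Sq a q c e) (t : Z.ty a ≠ Z.ty c) :
    Z.N a c := by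
  obtain ⟨h1, h2, h3, h4, -, h6, h7⟩ := s
  exact h7.elim id fun n =>
    h.jj (h.pt_of_N h2 h3 h6 n) (h.ad_symm h1) h2 (h.nsymm h4.N) h3.N t

theorem ZF.cc0 (h : Z.ZF) {w p z q r : V} (s1 : Z.Sq w p z q) (s2 : Z.Sq w q z r) :
    p = r ∨ Z.Sq w p z r := by
  have b := h.toZB
  by_cases t : Z.ty w = Z.ty z
  · exact Or.inl (h.f1a (b.pt_symm (b.sq_same s1 t)) (b.sq_same s2 t) (b.ad_symm s2.1) s2.2.1
      s1.2.2.2.2.1 t s1.1.N (b.nsymm s1.2.1.N) (b.nsymm s2.2.2.2.1.N) s2.2.2.1.N)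
  · by_cases e : p = r
    · exact Or.inl e
    · exact Or.inr ⟨s1.1, s1.2.1, s2.2.2.1, s2.2.2.2.1, s1.2.2.2.2.1, e, Or.inl (b.sq_diff s1 t)⟩

theorem ZF.cc (h : Z.ZF) {v w w' q z p r : V} (s0 : Z.Sq v w q w') (s1 : Z.Sq w q z p)
    (s2 : Z.Sq w' q z r) : Z.Sq v w q z ∨ Z.Sq v w' q z ∨
      ∃ y, (y = w ∨ Z.Sq v w p y) ∧ (y = w' ∨ Z.Sq v w' r y) ∧ (p = r ∨ Z.Sq y p z r) := by
  have b := h.toZB
  have s3 := b.sq_rot s0
  obtain ⟨vw, wq, qw', w'v, vq, ww', -⟩ := s0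
  have qw := b.ad_symm wq
  have qz := s1.2.1
  have zp := s1.2.2.1
  have pw := s1.2.2.2.1
  have wz := s1.2.2.2.2.1
  have zr := s2.2.2.1
  have rw' := s2.2.2.2.1
  have w'z := s2.2.2.2.2.1
  have first : Z.pt q v → Z.N z v → Z.Sq v w q z := fun hv n =>
    ⟨vw, wq, qz, ad_of_pt hv qz n, vq, wz, Or.inl (b.nsymm hv.1)⟩
  by_cases t0 : Z.ty w = Z.ty w'
  · have hv := b.sq_same s3 t0
    by_cases zv : Z.N z v
    · exact Or.inl (first hv zv)
    by_cases t1 : Z.ty w = Z.ty z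
    · have t2 : Z.ty w' = Z.ty z := t0.symm.trans t1
      have hp := b.sq_same s1 t1
      have hr := b.sq_same s2 t2
      have vp : v ≠ p := fun e => zv (e ▸ zp.N)
      have vr : v ≠ r := fun e => zv (e ▸ zr.N)
      rcases h.f2 qw qw' qz t0 t2 ⟨v, hv, b.nsymm vw.N, w'v.N⟩ ⟨r, hr, b.nsymm rw'.N, zr.N⟩
        ⟨p, hp, b.nsymm pw.N, zp.N⟩ with ⟨K, hK, a1, a2, a3⟩ | ⟨o, qo, tn, ow, ow', oz⟩
      · exact absurd (h.f1a hK hv qw qw' ww' t0 a1 a2 (b.nsymm vw.N) w'v.N ▸ a3) zv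
      · have ov := ad_of_pt hv qo (h.f1b hv qw qw' qo ww' t0 tn (b.nsymm vw.N) w'v.N ow ow')
        have op := ad_of_pt hp qo (h.f1b hp qw qz qo wz t1 tn (b.nsymm pw.N) zp.N ow oz)
        have or' := ad_of_pt hr qo
          (h.f1b hr qw' qz qo w'z t2 (t0 ▸ tn) (b.nsymm rw'.N) zr.N ow' oz)
        refine Or.inr (Or.inr ⟨o, Or.inr ⟨vw, b.ad_symm pw, b.ad_symm op, ov, vp,
          fun e => tn (e ▸ rfl), Or.inr (b.nsymm ow)⟩, Or.inr ⟨b.ad_symm w'v, b.ad_symm rw',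
          b.ad_symm or', ov, vr, fun e => tn (e ▸ t0.symm), Or.inr (b.nsymm ow')⟩, ?_⟩)
        by_cases e : p = r
        · exact Or.inl e
        · exact Or.inr ⟨op, b.ad_symm zp, zr, b.ad_symm or', fun e => tn (e ▸ t1.symm), e,
            Or.inl oz⟩
    · exact absurd (h.f1b hv qw qw' qz ww' t0 (Ne.symm t1) (b.nsymm vw.N) w'v.N
        (b.nsymm (b.sq_diff s1 t1)) (b.nsymm (b.sq_diff s2 (t0 ▸ t1)))) zv
  · have nww' := b.sq_diff s3 t0
    by_cases t1 : Z.ty w = Z.ty z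
    · have hp := b.sq_same s1 t1
      have nw'z := b.sq_diff s2 fun e => t0 (t1.trans e.symm)
      have w'p := ad_of_pt hp qw'
        (h.f1b hp qw qz qw' wz t1 (Ne.symm t0) (b.nsymm pw.N) zp.N (b.nsymm nww') nw'z)
      by_cases vp : v = p
      · exact Or.inl (first (vp ▸ hp) (vp ▸ zp.N))
      refine Or.inr (Or.inr ⟨w', Or.inr ⟨vw, b.ad_symm pw, b.ad_symm w'p, w'v, vp, ww',
        Or.inr nww'⟩, Or.inl rfl, ?_⟩)
      by_cases e : p = r
      · exact Or.inl e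
      · exact Or.inr ⟨w'p, b.ad_symm zp, zr, rw', w'z, e, Or.inl nw'z⟩
    · have t2 : Z.ty w' = Z.ty z := kinds _ _ _ _ qw.one qw'.one qz.one t0 t1
      have hr := b.sq_same s2 t2
      have nwz := b.sq_diff s1 t1
      have wr := ad_of_pt hr qw (h.f1b hr qw' qz qw w'z t2 t0 (b.nsymm rw'.N) zr.N nww' nwz)
      by_cases vr : v = r
      · exact Or.inr (Or.inl ⟨b.ad_symm w'v, b.ad_symm qw', qz, vr ▸ zr, vq, w'z,
          Or.inl (b.nsymm (vr ▸ hr.1))⟩)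
      refine Or.inr (Or.inr ⟨w, Or.inl rfl, Or.inr ⟨b.ad_symm w'v, b.ad_symm rw', b.ad_symm wr,
        b.ad_symm vw, vr, ww'.symm, Or.inr (b.nsymm nww')⟩, ?_⟩)
      by_cases e : p = r
      · exact Or.inl e
      · exact Or.inr ⟨b.ad_symm pw, b.ad_symm zp, zr, b.ad_symm wr, wz, e, Or.inl nwz⟩

theorem ZF.ql (h : Z.ZF) : QL Z.d Z.Sq where
  toMet := h.toMet
  rot := h.toZB.sq_rot
  rev := h.toZB.sq_rev
  adj s := h.dad.2 s.1
  ne s := s.2.2.2.2.1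
  cc0 := h.cc0
  cc := h.cc

end Zd

end Pool.Agent.Lib.MP_35cce7_an.Q
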