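import Mathlib

namespace Pool.Agent.Lib.MP_35cce7_an

noncomputable section

open ENNReal Classical

variable {α β γ G K : Type}

def nrm (f : α → ℝ≥0∞) : ℝ≥0∞ := (∑' x, f x ^ 2) ^ (1 / 2 : ℝ)

lemma nrm_sq (f : α → ℝ≥0∞) : nrm f ^ 2 = ∑' x, f x ^ 2 := by
  rw [nrm, ← rpow_natCast, ← rpow_mul]
  norm_num

lemma le_of_sq {a b : ℝ≥0∞} (h : a ^ 2 ≤ b ^ 2) : a ≤ b :=
  (ENNReal.pow_le_pow_left_iff two_ne_zero).1 h

lemma nrm_le {f : α → ℝ≥0∞} {c : ℝ≥0∞} (h : ∑' x, f x ^ 2 ≤ c ^ 2) : nrm f ≤ c :=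
  le_of_sq (by rwa [nrm_sq])

lemma cs (f g : α → ℝ≥0∞) : ∑' x, f x * g x ≤ nrm f * nrm g := by
  letI : MeasurableSpace α := ⊤
  have := ENNReal.lintegral_mul_le_Lp_mul_Lq MeasureTheory.Measure.count
    Real.HolderConjugate.two_two (f := f) (g := g) measurable_from_top.aemeasurable
    measurable_from_top.aemeasurable
  simpa [MeasureTheory.lintegral_count, nrm] using this

lemma trace (F : α → β → ℝ≥0∞) (G : β → γ → ℝ≥0∞) (H : α → γ → ℝ≥0∞) :
    ∑' a, ∑' b, ∑' c, F a b * G b c * H a c ≤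
      nrm (fun p : α × β => F p.1 p.2) * nrm (fun p : β × γ => G p.1 p.2) *
        nrm fun p : α × γ => H p.1 p.2 := by
  have e : ∑' a, ∑' b, ∑' c, F a b * G b c * H a c =
      ∑' p : α × γ, (∑' b, F p.1 b * G b p.2) * H p.1 p.2 := by
    rw [ENNReal.tsum_prod']
    refine tsum_congr fun a => ?_
    rw [ENNReal.tsum_comm]
    simp only [ENNReal.tsum_mul_right]
  rw [e]
  refine (cs _ _).trans (mul_le_mul_left (nrm_le ?_) _)
  rw [mul_pow, nrm_sq, nrm_sq, ENNReal.tsum_prod', ENNReal.tsum_prod', ENNReal.tsum_prod',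
    ENNReal.tsum_comm (f := fun b c => G b c ^ 2), ← ENNReal.tsum_mul_right]
  refine ENNReal.tsum_le_tsum fun a => ?_
  rw [← ENNReal.tsum_mul_left]
  refine ENNReal.tsum_le_tsum fun c => ?_
  rw [← nrm_sq, ← nrm_sq, ← mul_pow]
  exact pow_le_pow_left' (cs _ _) 2

variable [Group G] [Group K]

def Tri (f g h : G → ℝ≥0∞) : ℝ≥0∞ := ∑' x, ∑' y, f x * g y * h (x * y)

def RDb (Bl : ℕ → G → Prop) : Prop :=
  ∃ C s : ℕ, ∀ (r : ℕ) (f g h : G → ℝ≥0∞), (∀ x, f x ≠ 0 → Bl r x) →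
    Tri f g h ≤ C * (1 + r) ^ s * (nrm f * nrm g * nrm h)

lemma pw_le (k r s : ℕ) : (1 + (k * r : ℕ) : ℝ≥0∞) ^ s ≤ ((k + 1) ^ s : ℕ) * (1 + r) ^ s := by
  push_cast
  rw [← mul_pow]
  refine pow_le_pow_left' ?_ s
  exact_mod_cast (by nlinarith : 1 + k * r ≤ (k + 1) * (1 + r))

lemma RDb.comap {B : ℕ → G → Prop} {B' : ℕ → K → Prop} (h : RDb B') (φ : G →* K)
    (hφ : Function.Injective φ) (k : ℕ) (hk : ∀ r x, B r x → B' (k * r) (φ x)) : RDb B := by
  obtain ⟨C, s, h⟩ := h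
  refine ⟨C * (k + 1) ^ s, s, fun r f g u hf => ?_⟩
  let E : (G → ℝ≥0∞) → K → ℝ≥0∞ := fun f => Function.extend φ f 0
  have e1 : ∀ f x, E f (φ x) = f x := fun f x => hφ.extend_apply _ _ _
  have e2 : ∀ f y, E f y ≠ 0 → y ∈ Set.range φ := fun f y hy => by
    by_contra e
    exact hy (Function.extend_apply' _ _ _ e)
  have e3 : ∀ f, nrm (E f) = nrm f := fun f => by
    rw [nrm, ← hφ.tsum_eq fun y hy => e2 f y (by simpa using hy)]
    simp only [e1, nrm]
  have e4 : Tri f g u ≤ Tri (E f) (E g) (E u) := by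
    refine le_trans (ENNReal.tsum_le_tsum fun x => ?_) (ENNReal.tsum_comp_le_tsum_of_injective hφ _)
    refine le_trans (le_of_eq ?_) (ENNReal.tsum_comp_le_tsum_of_injective hφ _)
    simp only [← map_mul, e1]
  have := h (k * r) (E f) (E g) (E u) fun y hy => by
    obtain ⟨x, rfl⟩ := e2 f y hy
    exact hk _ _ (hf x (by rwa [e1] at hy))
  rw [e3, e3, e3] at this
  refine (e4.trans this).trans (mul_le_mul_left ?_ _)
  rw [Nat.cast_mul C, mul_assoc]
  exact mul_le_mul_right (pw_le k r s) _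

lemma tsum_ind {p : α → Prop} [DecidablePred p] {n : ℕ} (h : {x | p x}.encard ≤ n) (c : ℝ≥0∞) :
    ∑' x, (if p x then c else 0) ≤ n * c := by
  have fin := Set.finite_of_encard_le_coe h
  rw [tsum_eq_sum (s := fin.toFinset) fun x hx => if_neg (by simpa using hx)]
  refine (Finset.sum_le_card_nsmul _ _ c fun x _ => by split_ifs <;> simp).trans ?_
  rw [fin.encard_eq_coe_toFinset_card, Nat.cast_le] at h
  rw [nsmul_eq_mul]
  gcongr

lemma RDb.of_growth {B : ℕ → G → Prop} (C s : ℕ)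
    (h : ∀ r, {x | B r x}.encard ≤ (C * (1 + r) ^ s : ℕ)) : RDb B := by
  refine ⟨C, s, fun r f g u hf => ?_⟩
  have h1 : Tri f g u ≤ (∑' x, f x) * (nrm g * nrm u) := by
    rw [← ENNReal.tsum_mul_right]
    refine ENNReal.tsum_le_tsum fun x => ?_
    simp only [mul_assoc, ENNReal.tsum_mul_left]
    refine mul_le_mul_right ((cs _ _).trans (le_of_eq ?_)) _
    rw [nrm, nrm, nrm, ← (Equiv.mulLeft x).tsum_eq fun y => u y ^ 2]
    rfl
  have h2 : ∑' x, f x ≤ (C * (1 + r) ^ s : ℕ) * nrm f := by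
    refine le_trans (ENNReal.tsum_le_tsum fun x => ?_) ((cs (fun x => if B r x then 1 else 0)
      f).trans (mul_le_mul_left (nrm_le ?_) _))
    · by_cases e : f x = 0
      · simp [e]
      · simp [hf x e]
    · simp only [ite_pow, one_pow, ne_eq, OfNat.ofNat_ne_zero, not_false_eq_true, zero_pow]
      refine (tsum_ind (h r) 1).trans ?_
      rw [mul_one]
      exact_mod_cast Nat.le_self_pow two_ne_zero _
  refine h1.trans ((mul_le_mul_left h2 _).trans (le_of_eq ?_))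
  push_cast
  ring

lemma RDb.prod {B : ℕ → G → Prop} {B' : ℕ → K → Prop} (h : RDb B) (h' : RDb B') :
    RDb fun r (x : G × K) => B r x.1 ∧ B' r x.2 := by
  obtain ⟨C, s, h⟩ := h
  obtain ⟨C', s', h'⟩ := h'
  refine ⟨C' * C, s' + s, fun r f g u hf => ?_⟩
  let N : (G × K → ℝ≥0∞) → G → ℝ≥0∞ := fun f x => nrm fun y => f (x, y)
  have e1 : ∀ f, nrm (N f) = nrm f := fun f => by
    rw [nrm, nrm, ENNReal.tsum_prod']
    simp only [N, nrm_sq]
  have e2 : Tri f g u = ∑' x, ∑' y, Tri (fun z => f (x, z)) (fun z => g (y, z))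
      fun z => u (x * y, z) := by
    simp only [Tri, ENNReal.tsum_prod']
    exact tsum_congr fun x => ENNReal.tsum_comm
  have e3 := h r (N f) (N g) (N u) fun x hx => by
    by_contra e
    refine hx (le_antisymm (nrm_le (le_of_eq ?_)) zero_le)
    simpa using fun y => by_contra fun e' => e (hf _ e').1
  rw [e1, e1, e1] at e3
  rw [e2]
  refine (ENNReal.tsum_le_tsum fun x => ENNReal.tsum_le_tsum fun y =>
    h' r _ _ _ fun z hz => (hf _ hz).2).trans ?_
  simp only [ENNReal.tsum_mul_left]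
  refine (mul_le_mul_right e3 _).trans (le_of_eq ?_)
  push_cast
  ring

structure IsBall (B : ℕ → G → Prop) : Prop where
  inv : ∀ r x, B r x → B r x⁻¹
  mul : ∀ r s x y, B r x → B s y → B (r + s) (x * y)

def cosEquiv (H : Subgroup G) (rep : G ⧸ H → G) (hrep : ∀ b, (rep b : G ⧸ H) = b) (a : G) :
    (G ⧸ H) × H ≃ G where
  toFun p := a * p.2 * (rep p.1)⁻¹
  invFun x := ((x⁻¹ * a : G), ⟨a⁻¹ * x * rep (x⁻¹ * a : G), by
    simpa using QuotientGroup.eq.1 (hrep (x⁻¹ * a : G)).symm⟩)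
  left_inv p := by
    have : (((a * p.2 * (rep p.1)⁻¹)⁻¹ * a : G) : G ⧸ H) = p.1 := by
      rw [← hrep p.1, QuotientGroup.eq, hrep]
      simp [mul_assoc]
    refine Prod.ext this (Subtype.ext ?_)
    simp only [this]
    group
  right_inv x := by simp [mul_assoc]

lemma crit {B : ℕ → G → Prop} (hB : IsBall B) (H : Subgroup G) (hH : RDb fun r (x : H) => B r x)
    (Bt : G → G ⧸ H → Prop) (sym : ∀ x a, Bt x a → Bt x⁻¹ (x⁻¹ • a))
    (near : ∀ r x a, Bt x a → B r x → ∃ g, B r g ∧ (g : G ⧸ H) = a)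
    (count : ∀ r x, {a | Bt x a ∧ ∃ g, B r g ∧ (g : G ⧸ H) = a}.encard ≤ (r + 3 : ℕ)) :
    ∃ C s : ℕ, ∀ (r : ℕ) (f g h : G → ℝ≥0∞), (∀ x, f x ≠ 0 → B r x) →
      ∑' a, ∑' x, ∑' y, (if Bt x a ∧ Bt (x * y) a ∧ Bt y (x⁻¹ • a) then f x * g y * h (x * y)
        else 0) ≤ C * (1 + r) ^ s * (nrm f * nrm g * nrm h) := by
  obtain ⟨C, s, hH⟩ := hH
  refine ⟨C * (3 + 1) ^ s * 8, s + 3, fun r f g h hf => ?_⟩
  have : ∀ a : G ⧸ H, ∃ g : G, (g : G ⧸ H) = a ∧ ∀ g', B r g' → (g' : G ⧸ H) = a → B r g := by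
    intro a
    by_cases e : ∃ g, B r g ∧ (g : G ⧸ H) = a
    · obtain ⟨g, h1, h2⟩ := e
      exact ⟨g, h2, fun _ _ _ => h1⟩
    · exact ⟨a.out, a.out_eq, fun g' h1 h2 => (e ⟨g', h1, h2⟩).elim⟩
  choose rep hrep hmin using this
  have re : ∀ (a : G) (φ : G → ℝ≥0∞), ∑' x, φ x = ∑' b, ∑' s : H, φ (a * s * (rep b)⁻¹) :=
    fun a φ => by
      rw [← (cosEquiv H rep hrep a).tsum_eq, ENNReal.tsum_prod']
      rfl
  have nr : ∀ x a, Bt x a → B r x → B r (rep a) := fun x a h1 h2 =>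
    (near r x a h1 h2).elim fun g hg => hmin a g hg.1 hg.2
  have sm : ∀ (a b) (s : H), (rep a * s * (rep b)⁻¹)⁻¹ • a = b := fun a b s => by
    have : (((rep a * s * (rep b)⁻¹)⁻¹ * rep a : G) : G ⧸ H) = (rep b : G) := by
      rw [QuotientGroup.eq]
      simp [mul_assoc]
    rw [hrep] at this
    rw [← this, ← congrArg (HSMul.hSMul _) (hrep a), this]
    exact this
  let cut : (G → ℝ≥0∞) → G ⧸ H → G ⧸ H → H → ℝ≥0∞ := fun φ a b s =>
    if Bt (rep a * s * (rep b)⁻¹) a ∧ B r (rep a) then φ (rep a * s * (rep b)⁻¹) else 0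
  have nc : ∀ φ, nrm (fun p : (G ⧸ H) × (G ⧸ H) => nrm (cut φ p.1 p.2)) ≤
      2 * (1 + r) * nrm φ := fun φ => by
    refine nrm_le ?_
    simp only [nrm_sq, ENNReal.tsum_prod', cut]
    have := fun a => re (rep a) fun x => (if Bt x a ∧ B r (rep a) then φ x else 0) ^ 2
    simp only [← this]
    rw [ENNReal.tsum_comm, mul_pow, nrm_sq, ← ENNReal.tsum_mul_left]
    refine ENNReal.tsum_le_tsum fun x => ?_
    simp only [ite_pow, ne_eq, OfNat.ofNat_ne_zero, not_false_eq_true, zero_pow]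
    refine (tsum_ind (n := r + 3) (le_trans (Set.encard_le_encard fun a ha => ?_)
      (count r x)) _).trans (mul_le_mul_left ?_ _)
    · exact ⟨ha.1, _, ha.2, hrep a⟩
    exact_mod_cast (by nlinarith : r + 3 ≤ (2 * (1 + r)) ^ 2)
  calc _ ≤ ∑' a, ∑' b, ∑' c, Tri (cut f a b) (cut g b c) (cut h a c) := by
        refine ENNReal.tsum_le_tsum fun a => ?_
        rw [re (rep a)]
        refine ENNReal.tsum_le_tsum fun b => ?_
        simp only [Tri]
        rw [ENNReal.tsum_comm (f := fun c (s : H) => ∑' t : H, _)]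
        refine ENNReal.tsum_le_tsum fun s => ?_
        rw [re (rep b)]
        refine ENNReal.tsum_le_tsum fun c => ENNReal.tsum_le_tsum fun t => ?_
        split_ifs with e
        · by_cases e0 : f (rep a * s * (rep b)⁻¹) = 0
          · simp [e0]
          have h1 := nr _ _ e.1 (hf _ e0)
          have h2 := nr _ _ (sym _ _ e.1) (hB.inv _ _ (hf _ e0))
          have e1 : rep a * s * (rep b)⁻¹ * (rep b * t * (rep c)⁻¹) =
            rep a * (s * t : H) * (rep c)⁻¹ := by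
            push_cast
            group
          rw [sm] at e h2
          rw [e1] at e ⊢
          simp only [cut, e.1, e.2.1, e.2.2, h1, h2, and_self, if_true, le_refl]
        · exact zero_le
    _ ≤ ∑' a, ∑' b, ∑' c, C * (1 + (3 * r : ℕ)) ^ s *
        (nrm (cut f a b) * nrm (cut g b c) * nrm (cut h a c)) := by
        refine ENNReal.tsum_le_tsum fun a => ENNReal.tsum_le_tsum fun b =>
          ENNReal.tsum_le_tsum fun c => hH _ _ _ _ fun s hs => ?_
        simp only [cut, ne_eq, ite_eq_right_iff, Classical.not_imp] at hs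
        have h1 := hf _ hs.2
        have h2 := nr _ _ (sym _ _ hs.1.1) (hB.inv _ _ h1)
        rw [sm] at h2
        have := hB.mul _ _ _ _ (hB.mul _ _ _ _ (hB.inv _ _ hs.1.2) h1) h2
        rw [show r + r + r = 3 * r by ring] at this
        simpa [mul_assoc] using this
    _ ≤ C * (((3 + 1) ^ s : ℕ) * (1 + r) ^ s) * (2 * (1 + r) * nrm f * (2 * (1 + r) * nrm g) *
        (2 * (1 + r) * nrm h)) := by
        simp only [ENNReal.tsum_mul_left]
        exact mul_le_mul' (mul_le_mul_right (pw_le 3 r s) _) ((trace _ _ _).trans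
          (mul_le_mul' (mul_le_mul' (nc f) (nc g)) (nc h)))
    _ = _ := by
        push_cast
        ring

end

end Pool.Agent.Lib.MP_35cce7_an
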