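import Pool.Agent.Lib.MP_35cce7_an.RD

namespace Pool.Agent.Lib.MP_35cce7_an

noncomputable section

open ENNReal Classical

variable {G B : Type} [Group G]

def Ball (σ : B → G) (r : ℕ) (x : G) : Prop :=
  ∃ L : List G, L.prod = x ∧ L.length ≤ r ∧ ∀ y ∈ L, ∃ i, y = σ i ∨ y = (σ i)⁻¹

lemma Ball.isBall (σ : B → G) : IsBall (Ball σ) where
  inv := by
    rintro r _ ⟨L, rfl, h1, h2⟩
    refine ⟨(L.map (·⁻¹)).reverse, (List.prod_inv_reverse L).symm, by simpa using h1, ?_⟩
    simp only [List.mem_reverse, List.mem_map]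
    rintro _ ⟨y, hy, rfl⟩
    obtain ⟨i, rfl | rfl⟩ := h2 y hy
    exacts [⟨i, Or.inr rfl⟩, ⟨i, Or.inl (inv_inv _)⟩]
  mul := by
    rintro r s _ _ ⟨L, rfl, h1, h2⟩ ⟨L', rfl, h3, h4⟩
    exact ⟨L ++ L', List.prod_append, by simp; omega,
      fun y hy => (List.mem_append.1 hy).elim (h2 y) (h4 y)⟩

section
variable (H : Bool → Subgroup G) (C : Subgroup G)

def Red : ℕ → Bool → G → Prop
  | 0, _, g => g ∈ C
  | n + 1, i, g => ∃ h ∈ H i, h ∉ C ∧ Red n (!i) (h⁻¹ * g)

def Stp (p q : G) : Prop := ∃ j, p⁻¹ * q ∈ H j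

def Conn {i : Bool} (a : G ⧸ H i) (u v : G) : Prop :=
  (u : G ⧸ H i) ≠ a ∧ Relation.ReflTransGen
    (fun p q : G => (p : G ⧸ H i) ≠ a ∧ (q : G ⧸ H i) ≠ a ∧ Stp H p q) u v

variable {H C}

lemma Conn.right {i : Bool} {a : G ⧸ H i} {u v : G} (h : Conn H a u v) : (v : G ⧸ H i) ≠ a := by
  obtain ⟨h1, h2⟩ := h
  induction h2 with
  | refl => exact h1
  | tail _ h _ => exact h.2.1

lemma Conn.symm {i : Bool} {a : G ⧸ H i} {u v : G} (h : Conn H a u v) : Conn H a v u :=
  ⟨h.right, (Relation.reflTransGen_swap.2 h.2).lift id fun p q h =>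
    ⟨h.2.1, h.1, h.2.2.imp fun j hj => by simpa using (H j).inv_mem hj⟩⟩

lemma Conn.smul {i : Bool} {a : G ⧸ H i} {u v : G} (h : Conn H a u v) (g : G) :
    Conn H (g • a) (g * u) (g * v) := by
  have k : ∀ p : G, (p : G ⧸ H i) ≠ a → ((g * p : G) : G ⧸ H i) ≠ g • a := fun p hp e =>
    hp (MulAction.injective g e)
  exact ⟨k u h.1, h.2.lift (g * ·) fun p q h => ⟨k p h.1, k q h.2.1, by
    simpa [Stp, mul_assoc] using h.2.2⟩⟩

lemma Conn.of_smul {i : Bool} {a : G ⧸ H i} {u v g : G} (h : Conn H (g • a) u v) :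
    Conn H a (g⁻¹ * u) (g⁻¹ * v) := by simpa using h.smul g⁻¹

lemma Conn.head {i : Bool} {a : G ⧸ H i} {u v w : G} (h : Conn H a v w) (hu : (u : G ⧸ H i) ≠ a)
    (h' : Stp H u v) : Conn H a u w := ⟨hu, h.2.head ⟨hu, h.1, h'⟩⟩

variable (hC : ∀ i, C ≤ H i)
include hC

omit hC in
lemma Red.cl {n i g c} (h : Red H C n i g) (hc : c ∈ C) (hC : ∀ i, C ≤ H i) :
    Red H C n i (c * g) := by
  cases n with
  | zero => exact C.mul_mem hc h
  | succ n =>
    obtain ⟨k, h1, h2, h3⟩ := h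
    exact ⟨c * k, (H i).mul_mem (hC i hc) h1, fun e => h2 ((C.mul_mem_cancel_left hc).1 e),
      by simpa [mul_assoc] using h3⟩

lemma Red.one {j g} (h : g ∈ H j) : Red H C 0 j g ∨ Red H C 1 j g := by
  by_cases e : g ∈ C
  exacts [Or.inl e, Or.inr ⟨g, h, e, by simp [Red]⟩]

lemma Red.mul_right {n i j g l} (h : Red H C (n + 1) i g) (hl : l ∈ H j) :
    ∃ m, n ≤ m ∧ m ≤ n + 2 ∧ Red H C m i (g * l) := by
  induction n generalizing i g with
  | zero =>
    obtain ⟨k, h1, h2, h3⟩ := h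
    obtain rfl | rfl : j = i ∨ j = !i := by cases i <;> cases j <;> simp
    · have : g * l ∈ H j := by
        simpa using (H j).mul_mem ((H j).mul_mem h1 (hC j h3)) hl
      exact (Red.one hC this).elim (fun h => ⟨0, by omega, by omega, h⟩)
        fun h => ⟨1, by omega, by omega, h⟩
    · have : k⁻¹ * (g * l) ∈ H (!i) := by
        simpa [mul_assoc] using (H _).mul_mem (hC _ h3) hl
      exact (Red.one hC this).elim (fun h => ⟨1, by omega, by omega, k, h1, h2, h⟩)
        fun h => ⟨2, by omega, by omega, k, h1, h2, h⟩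
  | succ n ih =>
    obtain ⟨k, h1, h2, h3⟩ := h
    obtain ⟨m, h4, h5, h6⟩ := ih h3
    exact ⟨m + 1, by omega, by omega, k, h1, h2, by rwa [← mul_assoc]⟩

lemma Red.ex (L : List G) (hL : ∀ y ∈ L, ∃ j, y ∈ H j) :
    ∃ n ≤ L.length, ∃ i, Red H C n i L.prod := by
  induction L using List.reverseRecOn with
  | nil => exact ⟨0, le_rfl, true, C.one_mem⟩
  | append_singleton L l ih =>
    obtain ⟨n, h1, i, h2⟩ := ih fun y hy => hL y (by simp [hy])
    obtain ⟨j, hj⟩ := hL l (by simp)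
    rw [List.prod_append, List.prod_singleton, List.length_append, List.length_singleton]
    cases n with
    | zero =>
      exact (Red.one hC ((H j).mul_mem (hC j h2) hj)).elim (fun h => ⟨0, by omega, j, h⟩)
        fun h => ⟨1, by omega, j, h⟩
    | succ n =>
      obtain ⟨m, -, h3, h4⟩ := h2.mul_right hC hj
      exact ⟨m, by omega, i, h4⟩

lemma Red.inv_mul {n i k g g'} (h : Red H C (n + 1) i g) (h' : Red H C k (!i) g') :
    ∃ m j, Red H C (m + 1) j (g⁻¹ * g') := by
  induction n generalizing i k g g' with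
  | zero =>
    obtain ⟨x, h1, h2, h3⟩ := h
    have : Red H C (k + 1) i (x⁻¹ * g') :=
      ⟨x⁻¹, (H i).inv_mem h1, by simpa using h2, by simpa using h'⟩
    exact ⟨k, i, by simpa [mul_assoc] using this.cl (C.inv_mem h3) hC⟩
  | succ n ih =>
    obtain ⟨x, h1, h2, h3⟩ := h
    have : Red H C (k + 1) (!!i) (x⁻¹ * g') := by
      rw [Bool.not_not]
      exact ⟨x⁻¹, (H i).inv_mem h1, by simpa using h2, by simpa using h'⟩
    simpa [mul_assoc] using ih h3 this

omit hC in
lemma Red.seq {n i x} (h : Red H C n i x) (hC : ∀ i, C ≤ H i) : ∃ p : ℕ → G, p 0 = 1 ∧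
    (∀ k, Stp H (p k) (p (k + 1))) ∧ (∀ k ≤ n, Red H C k i (p k)) ∧ ∀ k, n < k → p k = x := by
  induction n generalizing i x with
  | zero =>
    refine ⟨fun k => if k = 0 then 1 else x, rfl, fun k => ⟨true, ?_⟩, fun k hk => ?_,
      fun k hk => if_neg (by omega)⟩
    · by_cases e : k = 0
      · simpa [e] using hC true h
      · simp [e]
    · obtain rfl : k = 0 := by omega
      exact C.one_mem
  | succ n ih =>
    obtain ⟨y, h1, h2, h3⟩ := h
    obtain ⟨p, p0, p1, p2, p3⟩ := ih h3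
    refine ⟨fun k => k.casesOn 1 fun k => y * p k, rfl, ?_, ?_, ?_⟩
    · rintro (_ | k)
      · exact ⟨i, by simpa [p0] using h1⟩
      · simpa [Stp, mul_assoc] using p1 k
    · rintro (_ | k) hk
      · exact C.one_mem
      · exact ⟨y, h1, h2, by simpa using p2 k (by omega)⟩
    · rintro (_ | k) hk
      · omega
      · simp [p3 k (by omega)]

variable (NF : ∀ n i g, Red H C (n + 1) i g → g ∉ C)
include NF

lemma Red.disj {n i k g} (h : Red H C (n + 1) i g) (h' : Red H C k (!i) g) : False := by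
  obtain ⟨m, j, h⟩ := h.inv_mul hC h'
  exact NF _ _ _ h (by simp)

lemma Red.uniq {n i m j g} (h : Red H C n i g) (h' : Red H C m j g) : n = m := by
  induction n generalizing i m j g with
  | zero =>
    cases m with
    | zero => rfl
    | succ m => exact (NF _ _ _ h' h).elim
  | succ n ih =>
    cases m with
    | zero => exact (NF _ _ _ h h').elim
    | succ m =>
      obtain rfl | rfl : j = i ∨ j = !i := by cases i <;> cases j <;> simp
      · obtain ⟨x, h1, h2, h3⟩ := h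
        obtain ⟨y, h4, h5, h6⟩ := h'
        by_cases e : y⁻¹ * x ∈ C
        · rw [ih (by simpa [mul_assoc] using h3.cl e hC) h6]
        · exact (Red.disj hC NF ⟨y⁻¹ * x, (H j).mul_mem ((H j).inv_mem h4) h1, e,
            by simpa [mul_assoc] using h3⟩ h6).elim
      · exact (h.disj hC NF h').elim

omit NF in
lemma Conn.start {j x z h} (hh : h ∈ H j) (k : Conn H ((1 : G) : G ⧸ H j) x z)
    (hx : ∃ m, Red H C (m + 1) (!j) (h⁻¹ * x)) : ∃ m, Red H C (m + 1) (!j) (h⁻¹ * z) := by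
  obtain ⟨-, k⟩ := k
  induction k with
  | refl => exact hx
  | @tail p q _ k ih =>
    obtain ⟨m, ih⟩ := ih
    obtain ⟨-, h1, l, h2⟩ := k
    obtain ⟨n, -, -, h3⟩ := ih.mul_right hC h2
    rw [mul_assoc, mul_inv_cancel_left] at h3
    cases n with
    | zero =>
      refine (h1 (QuotientGroup.eq.2 ?_)).elim
      simpa using (H j).mul_mem hh (hC j h3)
    | succ n => exact ⟨n, h3⟩

lemma Conn.back {i j m w h} {a : G ⧸ H i} (hh : h ∈ H j) (h' : h ∉ C)
    (hw : Red H C (m + 1) (!j) w) (k : Conn H a h⁻¹ w) : Conn H a 1 w := by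
  by_cases e : ((1 : G) : G ⧸ H i) = a
  · subst e
    obtain rfl | rfl : i = j ∨ i = !j := by cases i <;> cases j <;> simp
    · exact (k.1 (QuotientGroup.eq.2 (by simpa using hh))).elim
    · obtain ⟨n, hn⟩ := k.start hC (H _).one_mem ⟨0, h⁻¹, by simpa using hh,
        by simpa using h', by simp [Red]⟩
      exact (hw.disj hC NF (by simpa using hn)).elim
  · exact k.head e ⟨j, by simpa using hh⟩

lemma centre {n j x} (h : Red H C n j x) (z : G) :
    ∃ (i : Bool) (a : G ⧸ H i), ¬ Conn H a 1 x ∧ ¬ Conn H a 1 z ∧ ¬ Conn H a x z := by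
  induction n generalizing j x z with
  | zero => exact ⟨j, (1 : G), fun k => k.1 rfl, fun k => k.1 rfl,
      fun k => k.1 (QuotientGroup.eq.2 (by simpa using hC j h))⟩
  | succ n ih =>
    obtain ⟨y, h1, h2, h3⟩ := h
    by_cases k : Conn H ((1 : G) : G ⧸ H j) x z
    · cases n with
      | zero => exact (k.1 (QuotientGroup.eq.2
          (by simpa using (H j).mul_mem h1 (hC j h3)))).elim
      | succ n =>
        obtain ⟨m, hm⟩ := k.start hC h1 ⟨n, h3⟩
        obtain ⟨i, a, a1, a2, a3⟩ := ih h3 (y⁻¹ * z)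
        exact ⟨i, y • a, fun k => a1 (Conn.back hC NF h1 h2 h3 (by simpa using k.of_smul)),
          fun k => a2 (Conn.back hC NF h1 h2 hm (by simpa using k.of_smul)),
          fun k => a3 k.of_smul⟩
    · exact ⟨j, (1 : G), fun k => k.1 rfl, fun k => k.1 rfl, k⟩

theorem amalg (σ : B → G) (hσ : ∀ b, ∃ j, σ b ∈ H j) (gen : ∀ x, ∃ r, Ball σ r x)
    (hH : ∀ i, RDb fun r (x : H i) => Ball σ r x) : RDb (Ball σ) := by
  have red : ∀ r x, Ball σ r x → ∃ n ≤ r, ∃ i, Red H C n i x := by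
    rintro r _ ⟨L, rfl, h1, h2⟩
    obtain ⟨n, h3, h4⟩ := Red.ex hC L fun y hy => by
      obtain ⟨b, rfl | rfl⟩ := h2 y hy
      exacts [hσ b, (hσ b).imp fun j => (H j).inv_mem]
    exact ⟨n, by omega, h4⟩
  have key := fun i => crit (Ball.isBall σ) (H i) (hH i) (fun x a => ¬ Conn H a 1 x)
    (fun x a h k => h (by simpa using k.of_smul.symm)) (by
      rintro r _ a h ⟨L, rfl, h1, h2⟩
      by_contra hn
      apply h
      have : ∀ (L' : List G) (u : G), (∀ y ∈ L', ∃ b, y = σ b ∨ y = (σ b)⁻¹) →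
          ∀ k, Ball σ k u → k + L'.length ≤ r → Conn H a u (u * L'.prod) := by
        intro L'
        have ne : ∀ u k, Ball σ k u → k ≤ r → (u : G ⧸ H i) ≠ a := by
          rintro _ k ⟨L, rfl, h1, h2⟩ hk e
          exact hn ⟨_, ⟨L, rfl, by omega, h2⟩, e⟩
        induction L' with
        | nil => exact fun u _ k h1 h2 => ⟨ne u k h1 (by omega), by simpa using .refl⟩
        | cons y L' ih =>
          intro u h1 k h2 h3
          rw [List.length_cons] at h3
          rw [List.prod_cons, ← mul_assoc]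
          refine (ih (u * y) (fun z hz => h1 z (by simp [hz])) (k + 1) ((Ball.isBall σ).mul _ _ _ _
            h2 ⟨[y], by simp, by simp, by simpa using h1 y (by simp)⟩) (by omega)).head
            (ne u k h2 (by omega)) ?_
          obtain ⟨b, rfl | rfl⟩ := h1 y (by simp)
          · simpa [Stp] using hσ b
          · simpa [Stp] using hσ b
      simpa using this L 1 h2 0 ⟨[], rfl, le_rfl, by simp⟩ (by omega)) (by
      intro r x
      obtain ⟨_, hx⟩ := gen x
      obtain ⟨n, -, j, hx⟩ := red _ _ hx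
      obtain ⟨p, p0, p1, p2, p3⟩ := hx.seq hC
      refine le_trans (Set.encard_le_encard (t := (fun k => (p k : G ⧸ H i)) ''
        (Finset.range (r + 3) : Set ℕ)) ?_) ((Set.encard_image_le _ _).trans (by
          rw [Set.encard_coe_eq_coe_finsetCard, Finset.card_range]))
      rintro a ⟨h1, g, h2, rfl⟩
      obtain ⟨m, h3, l, h4⟩ := red _ _ h2
      have bd : ∀ k y, Red H C k j y → (y : G ⧸ H i) = g → k ≤ r + 1 := by
        rintro (_ | k) y h5 h6
        · omega
        · obtain ⟨s, h7, -, h8⟩ := h5.mul_right hC (QuotientGroup.eq.1 h6)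
          rw [mul_inv_cancel_left] at h8
          have := h8.uniq hC NF h4
          omega
      by_contra hn
      have ne : ∀ k, (p k : G ⧸ H i) ≠ g := fun k e => by
        by_cases hk : k ≤ n
        · exact hn ⟨k, by have := bd k _ (p2 k hk) e; simp; omega, e⟩
        · rw [p3 k (by omega)] at e
          exact hn ⟨n + 1, by have := bd n _ hx e; simp; omega, by simp [p3, e]⟩
      have : ∀ k, Conn H (g : G ⧸ H i) 1 (p k) := fun k => by
        induction k with
        | zero => exact p0 ▸ ⟨ne 0, .refl⟩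
        | succ k ih => exact ⟨ih.1, ih.2.tail ⟨ne _, ne _, p1 k⟩⟩
      exact h1 (p3 (n + 1) (by omega) ▸ this (n + 1)))
  obtain ⟨C1, s1, k1⟩ := key true
  obtain ⟨C2, s2, k2⟩ := key false
  refine ⟨C1 + C2, s1 + s2, fun r f g h hf => le_trans ?_ ((add_le_add (k1 r f g h hf)
    (k2 r f g h hf)).trans ?_)⟩
  · rw [ENNReal.tsum_comm, ENNReal.tsum_comm (α := G ⧸ H false), ← ENNReal.tsum_add]
    refine ENNReal.tsum_le_tsum fun x => ?_
    rw [ENNReal.tsum_comm, ENNReal.tsum_comm (α := G ⧸ H false), ← ENNReal.tsum_add]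
    refine ENNReal.tsum_le_tsum fun y => ?_
    obtain ⟨_, hx⟩ := gen x
    obtain ⟨n, -, j, hx⟩ := red _ _ hx
    obtain ⟨i, a, a1, a2, a3⟩ := centre hC NF hx (x * y)
    have a4 : ¬ Conn H (x⁻¹ • a) 1 y := fun k => a3 (by simpa using k.of_smul)
    cases i
    · exact le_add_left (le_trans (by rw [if_pos ⟨a1, a2, a4⟩]) (ENNReal.le_tsum a))
    · exact le_add_right (le_trans (by rw [if_pos ⟨a1, a2, a4⟩]) (ENNReal.le_tsum a))
  · rw [← add_mul, Nat.cast_add, add_mul (C1 : ℝ≥0∞)]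
    gcongr <;> simp

end

open Monoid in
lemma nf_of_univ (H : Bool → Subgroup G) (C : Subgroup G) (hC : ∀ i, C ≤ H i)
    (U : ∀ (K : Type) [Group K] (f : ∀ i, H i →* K),
      (∀ c (hc : c ∈ C), f true ⟨c, hC _ hc⟩ = f false ⟨c, hC _ hc⟩) →
      ∃ π : G →* K, ∀ i (h : H i), π h = f i h) :
    ∀ n i g, Red H C (n + 1) i g → g ∉ C := by
  let φ : ∀ i, C →* H i := fun i => Subgroup.inclusion (hC i)
  obtain ⟨π, hπ⟩ := U (PushoutI φ) (fun i => PushoutI.of (φ := φ) i) fun c hc =>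
    (PushoutI.of_apply_eq_base φ true ⟨c, hc⟩).trans
      (PushoutI.of_apply_eq_base φ false ⟨c, hc⟩).symm
  have hb : ∀ c (hc : c ∈ C), π c = PushoutI.base φ ⟨c, hc⟩ := fun c hc =>
    (hπ true ⟨c, hC _ hc⟩).trans (PushoutI.of_apply_eq_base φ true ⟨c, hc⟩)
  have key : ∀ n i g, Red H C n i g → ∃ w : CoprodI.Word fun i => H i, PushoutI.Reduced φ w ∧
      w.toList.length = n ∧ w.fstIdx ≠ some (!i) ∧
      ∃ c, π g = PushoutI.ofCoprodI w.prod * PushoutI.base φ c := by
    intro n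
    induction n with
    | zero => exact fun i g h => ⟨.empty, by simp [PushoutI.Reduced], rfl,
        by simp [CoprodI.Word.fstIdx], ⟨g, h⟩, by simp [hb g h]⟩
    | succ n ih =>
      rintro i g ⟨y, h1, h2, h3⟩
      obtain ⟨w, w1, w2, w3, c, w4⟩ := ih _ _ h3
      refine ⟨CoprodI.Word.cons (i := i) ⟨y, h1⟩ w (by simpa using w3) fun e => h2 ?_, ?_,
        by simp [w2], by simp, c, ?_⟩
      · rw [(Subgroup.mk_eq_one _).1 e]
        exact C.one_mem
      · intro a ha
        rcases List.mem_cons.1 ha with rfl | ha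
        · rintro ⟨c, hc⟩
          have : (c : G) = y := congrArg Subtype.val hc
          exact h2 (this ▸ c.2)
        · exact w1 a ha
      · rw [CoprodI.Word.prod_cons, map_mul, PushoutI.ofCoprodI_of, mul_assoc, ← w4, ← hπ,
          ← map_mul, mul_inv_cancel_left]
  intro n i g h hg
  obtain ⟨w, w1, w2, -, c, w4⟩ := key _ _ _ h
  have := w1.eq_empty_of_mem_range (fun i => Subgroup.inclusion_injective _)
    ⟨⟨g, hg⟩ * c⁻¹, by rw [map_mul, map_inv, ← hb, w4, mul_inv_cancel_right]⟩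
  simp [this] at w2

end

end Pool.Agent.Lib.MP_35cce7_an
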