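import Pool.Agent.Lib.MP_35cce7_an.Defs
import Pool.Agent.Lib.MP_35cce7_an.Cox
import Pool.Agent.Lib.MP_35cce7_an.Tree

namespace Pool.Agent.Lib.MP_35cce7_an

noncomputable section

open Classical CoxeterSystem

section
variable {G K : Type} [Monoid G] [Monoid K]

def alt (n : ℕ) (a b : G) : G := ((List.range n).map fun k => if Even k then a else b).prod

def ra : ℕ → G → G → G
  | 0, _, _ => 1
  | n + 1, a, b => ra n b a * a

lemma map_alt {F : Type} [FunLike F G K] [MonoidHomClass F G K] (φ : F) (n : ℕ) (a b : G) :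
    φ (alt n a b) = alt n (φ a) (φ b) := by
  simp only [alt, map_list_prod, List.map_map]
  congr 2
  funext k
  exact apply_ite φ _ _ _

lemma ra_succ (n : ℕ) (a b : G) : ra (n + 1) a b = (if Even n then a else b) * ra n a b := by
  induction n generalizing a b with
  | zero => simp [ra]
  | succ n ih =>
    rw [ra, ih, ra, mul_assoc]
    by_cases h : Even n <;> simp [h, Nat.even_add_one]

lemma alt_succ (n : ℕ) (a b : G) : alt (n + 1) a b = alt n a b * if Even n then a else b := by
  simp [alt, List.range_succ]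

lemma alt_eq (n : ℕ) (a b : G) : alt n a b = if Even n then ra n b a else ra n a b := by
  induction n with
  | zero => simp [alt, ra]
  | succ n ih =>
    rw [alt_succ, ih]
    by_cases h : Even n <;> simp [h, Nat.even_add_one, ra]

lemma alt_iff (n : ℕ) (a b : G) : alt n a b = alt n b a ↔ ra n a b = ra n b a := by
  rw [alt_eq, alt_eq]
  split_ifs
  exacts [eq_comm, Iff.rfl]

end

section
variable {G : Type} [Group G] {s t : G}

lemma ra_inv (hs : s * s = 1) (ht : t * t = 1) (n : ℕ) :
    (ra n t s)⁻¹ * ra n s t = (t * s) ^ n := by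
  induction n generalizing s t with
  | zero => simp [ra]
  | succ n ih =>
    rw [ra, ra, mul_inv_rev, mul_assoc, ← mul_assoc _ _ s, ih ht hs, inv_eq_of_mul_eq_one_right ht,
      ← mul_assoc, ← mul_pow_mul, pow_succ, mul_assoc]

lemma ra_conj (hs : s * s = 1) (ht : t * t = 1) (n : ℕ) :
    (if Even n then s else t) * ra n s t = ra n s t * ((s * t) ^ n * s) := by
  induction n generalizing s t with
  | zero => simp [ra]
  | succ n ih =>
    have e : (if Even (n + 1) then s else t) = if Even n then t else s := by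
      by_cases h : Even n <;> simp [h, Nat.even_add_one]
    rw [e, ra, ← mul_assoc, ih ht hs, pow_succ']
    simp only [mul_assoc]
    rw [← mul_assoc s s, hs, one_mul, ← mul_assoc t, ← mul_pow_mul, mul_assoc]

end

variable {B B' : Type} {M : CoxeterMatrix B} {M' : CoxeterMatrix B'}

abbrev Ar (M : CoxeterMatrix B) := PresentedGroup (rels M)

abbrev gn (M : CoxeterMatrix B) : B → Ar M := PresentedGroup.of

def alift {K : Type} [Group K] (f : B → K)
    (hf : ∀ i j, i ≠ j → M i j ≠ 0 → alt (M i j) (f i) (f j) = alt (M i j) (f j) (f i)) :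
    Ar M →* K :=
  PresentedGroup.toGroup (f := f) (by
    rintro _ ⟨i, j, h, rfl⟩
    have := map_alt (FreeGroup.lift f) (M i j)
    simp only [alt] at this
    rw [map_mul, map_inv, this, this, mul_inv_eq_one]
    simp only [FreeGroup.lift_apply_of]
    by_cases e : i = j
    · rw [e]
    · exact hf i j e h)

@[simp] lemma alift_gn {K : Type} [Group K] (f : B → K) (hf) (i : B) :
    alift (M := M) f hf (gn M i) = f i := PresentedGroup.toGroup.of _

lemma braid {i j : B} (h : M i j ≠ 0) :
    alt (M i j) (gn M i) (gn M j) = alt (M i j) (gn M j) (gn M i) := by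
  have := PresentedGroup.one_of_mem (rels := rels M) ⟨i, j, h, rfl⟩
  rw [map_mul, map_inv, mul_inv_eq_one] at this
  exact (map_alt (PresentedGroup.mk _) _ _ _).symm.trans (this.trans (map_alt _ _ _ _))

lemma gen (x : Ar M) : ∃ r, Ball (gn M) r x :=
  PresentedGroup.generated_by _
    { carrier := {x | ∃ r, Ball (gn M) r x}
      one_mem' := ⟨0, [], rfl, le_rfl, by simp⟩
      mul_mem' := fun ⟨_, h⟩ ⟨_, h'⟩ => ⟨_, (Ball.isBall _).mul _ _ _ _ h h'⟩
      inv_mem' := fun ⟨_, h⟩ => ⟨_, (Ball.isBall _).inv _ _ h⟩ }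
    (fun j => ⟨1, [gn M j], by simp, le_rfl, by simpa using ⟨j, Or.inl rfl⟩⟩) x

structure Emb (M' : CoxeterMatrix B') (M : CoxeterMatrix B) where
  e : B' → B
  inj : Function.Injective e
  eq : ∀ i j, M' i j = M (e i) (e j)

namespace Emb

variable (E : Emb M' M)

def hom : Ar M' →* Ar M := alift (fun i => gn M (E.e i)) fun i j _ h => by
  rw [E.eq] at h ⊢
  exact braid h

@[simp] lemma hom_gn (i : B') : E.hom (gn M' i) = gn M (E.e i) := alift_gn _ _ _

variable {W : Type} [Group W] (cs : CoxeterSystem M W)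

abbrev St := {w : W // IsMinC cs (Set.range E.e) w} × Ar M'

def Bo (τ w : W) : Prop := ∃ i, τ * w = w * cs.simple (E.e i)

variable {E cs}

lemma _root_.Pool.Agent.Lib.MP_35cce7_an.simple_inj {i j : B} (h : cs.simple i = cs.simple j) :
    i = j := by
  by_contra e
  have := (order cs e 1).1 (by simp [h])
  exact M.off_diagonal i j e (Nat.dvd_one.1 this)

lemma min_step {w : W} (hw : IsMinC cs (Set.range E.e) w) {b : B}
    (h : ¬ E.Bo cs (cs.simple b) w) : IsMinC cs (Set.range E.e) (cs.simple b * w) := by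
  rcases lt_or_gt_of_ne (cs.length_simple_mul_ne w b) with h1 | h1
  · exact hw.down h1
  · refine (hw.up h1).resolve_right ?_
    rintro ⟨_, ⟨i, rfl⟩, h2⟩
    exact h ⟨i, h2⟩

lemma bo_iff {b : B} {w : W} :
    E.Bo cs (cs.simple b) (cs.simple b * w) ↔ E.Bo cs (cs.simple b) w :=
  exists_congr fun i => by rw [mul_assoc, mul_right_inj]

variable (E cs) in
def stp (b : B) (f : Ar M' → Ar M') (p : E.St cs) : E.St cs :=
  if h : E.Bo cs (cs.simple b) p.1 then (p.1, f (gn M' h.choose) * p.2)
  else (⟨_, min_step p.1.2 h⟩, p.2)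

lemma stp_pos {b f i} {p : E.St cs} (h : cs.simple b * p.1 = p.1 * cs.simple (E.e i)) :
    E.stp cs b f p = (p.1, f (gn M' i) * p.2) := by
  have h' : E.Bo cs (cs.simple b) p.1 := ⟨i, h⟩
  rw [stp, dif_pos h', E.inj (simple_inj (mul_left_cancel (h'.choose_spec.symm.trans h)))]

lemma stp_neg {b f} {p : E.St cs} (h : ¬ E.Bo cs (cs.simple b) p.1) :
    E.stp cs b f p = (⟨_, min_step p.1.2 h⟩, p.2) := dif_neg h

lemma stp_stp {b f g} (hfg : ∀ x, g x * f x = 1) (p : E.St cs) :
    E.stp cs b g (E.stp cs b f p) = p := by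
  by_cases h : E.Bo cs (cs.simple b) p.1
  · obtain ⟨i, h⟩ := h
    rw [stp_pos h, stp_pos (i := i) (by exact h), ← mul_assoc, hfg, one_mul]
  · rw [stp_neg h, stp_neg (by exact fun h' => h (bo_iff.1 h'))]
    exact Prod.ext (Subtype.ext (cs.simple_mul_simple_cancel_left b)) rfl

variable (E cs) in
def step (b : B) : Equiv.Perm (E.St cs) :=
  ⟨E.stp cs b id, E.stp cs b (·⁻¹), stp_stp (by simp), stp_stp (by simp)⟩

lemma bo_conj {r u τ w : W} (h : r * u = u * τ) : E.Bo cs r (u * w) ↔ E.Bo cs τ w :=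
  exists_congr fun i => by rw [← mul_assoc, h, mul_assoc, mul_assoc, mul_right_inj]

lemma ra_step (n : ℕ) (i j : B) (p : E.St cs) : ra (n + 1) (E.step cs i) (E.step cs j) p =
    E.stp cs (if Even n then i else j) id (ra n (E.step cs i) (E.step cs j) p) := by
  rw [ra_succ, ← apply_ite (E.step cs)]
  rfl

lemma ra_cj (n : ℕ) (i j : B) : cs.simple (if Even n then i else j) *
    ra n (cs.simple i) (cs.simple j) = ra n (cs.simple i) (cs.simple j) *
      ((cs.simple i * cs.simple j) ^ n * cs.simple i) := by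
  rw [apply_ite cs.simple]
  exact ra_conj (cs.simple_mul_simple_self i) (cs.simple_mul_simple_self j) n

lemma run0 (i j : B) (p : E.St cs) (n : ℕ)
    (h : ∀ k < n, ¬ E.Bo cs ((cs.simple i * cs.simple j) ^ k * cs.simple i) p.1) :
    (ra n (E.step cs i) (E.step cs j) p).1.1 = ra n (cs.simple i) (cs.simple j) * p.1 ∧
      (ra n (E.step cs i) (E.step cs j) p).2 = p.2 := by
  induction n with
  | zero => simp [ra]
  | succ n ih =>
    obtain ⟨h1, h2⟩ := ih fun k hk => h k (by omega)
    rw [ra_step, stp_neg (by rw [h1, bo_conj (ra_cj n i j)]; exact h n (by omega))]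
    exact ⟨by simp only [h1, ra_succ, mul_assoc, apply_ite cs.simple], h2⟩

lemma run1 (i j : B) (p : E.St cs) (k : ℕ) {τ : W} {x : B'}
    (hτ : (cs.simple i * cs.simple j) ^ k * cs.simple i = τ) (hτ2 : τ * τ = 1)
    (hx : τ * p.1 = p.1 * cs.simple (E.e x))
    (h : ∀ l < k, ¬ E.Bo cs ((cs.simple i * cs.simple j) ^ l * cs.simple i) p.1) (n : ℕ)
    (h' : ∀ l, k < l → l ≤ k + n →
      ¬ E.Bo cs (τ * ((cs.simple i * cs.simple j) ^ l * cs.simple i) * τ) p.1) :
    (ra (k + n + 1) (E.step cs i) (E.step cs j) p).1.1 =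
      ra (k + n + 1) (cs.simple i) (cs.simple j) * τ * p.1 ∧
      (ra (k + n + 1) (E.step cs i) (E.step cs j) p).2 = gn M' x * p.2 := by
  induction n with
  | zero =>
    obtain ⟨h1, h2⟩ := run0 i j p k h
    rw [add_zero, ra_step, stp_pos (i := x) (by
      rw [h1, ← mul_assoc, ra_cj, hτ, mul_assoc, hx, mul_assoc])]
    refine ⟨?_, by simp [h2]⟩
    rw [h1, ra_succ, ← apply_ite cs.simple, ra_cj, hτ, mul_assoc _ τ τ, hτ2, mul_one]
  | succ n ih =>
    obtain ⟨h1, h2⟩ := ih fun l a b => h' l a (by omega)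
    rw [← add_assoc, ra_step, stp_neg (by
      rw [h1, bo_conj (τ := τ * ((cs.simple i * cs.simple j) ^ (k + n + 1) * cs.simple i) * τ)]
      · exact h' _ (by omega) (by omega)
      · rw [← mul_assoc, ra_cj]
        simp only [mul_assoc]
        rw [← mul_assoc τ τ, hτ2, one_mul])]
    exact ⟨by simp only [h1, ra_succ (k + n + 1), mul_assoc, apply_ite cs.simple], h2⟩

lemma run2 (i j : B) (p : E.St cs) {x y : B'}
    (hx : cs.simple i * p.1 = p.1 * cs.simple (E.e x))
    (hy : cs.simple j * p.1 = p.1 * cs.simple (E.e y)) (n : ℕ) :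
    ra n (E.step cs i) (E.step cs j) p = (p.1, ra n (gn M' x) (gn M' y) * p.2) := by
  induction n with
  | zero => simp [ra]
  | succ n ih =>
    rw [ra_step, ih, ra_succ]
    split_ifs
    · rw [stp_pos (i := x) (by exact hx), mul_assoc, id]
    · rw [stp_pos (i := y) (by exact hy), mul_assoc, id]

lemma both {i j : B} {w τ τ' : W} (hw : IsMinC cs (Set.range E.e) w) (h1 : InP cs {i, j} τ)
    (h2 : InP cs {i, j} τ') (hne : τ ≠ τ') (b1 : E.Bo cs τ w) (b2 : E.Bo cs τ' w) :
    E.Bo cs (cs.simple i) w ∧ E.Bo cs (cs.simple j) w := by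
  have ex : ∃ n, ∃ d, InP cs {i, j} d ∧ cs.length (w⁻¹ * d) = n := ⟨_, 1, InP.one _, rfl⟩
  obtain ⟨d, hd, hn⟩ := Nat.find_spec ex
  have hm : IsMinC cs {i, j} (w⁻¹ * d) := fun u hu =>
    hn ▸ Nat.find_min' ex ⟨d * u, hd.mul hu, by rw [mul_assoc]⟩
  have key : ∀ τ, InP cs {i, j} τ → E.Bo cs τ w → ∃ r ∈ ({i, j} : Set B),
      d⁻¹ * τ * d = cs.simple r := by
    rintro τ h ⟨x, hx⟩
    have h3 := (hd.inv.mul h).mul hd
    have h4 := hm.length_mul h3.inv
    have h5 : w⁻¹ * d * (d⁻¹ * τ * d)⁻¹ = cs.simple (E.e x) * (w⁻¹ * d) := by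
      rw [← cs.inv_simple, ← mul_assoc, ← mul_inv_rev, ← hx]
      group
    have h6 := cs.length_simple_mul (w⁻¹ * d) (E.e x)
    rw [h5, length_inv] at h4
    obtain ⟨ω, a1, a2, a3⟩ := h3.exists_reduced
    rw [a3, a2.eq] at h4
    match ω, a1, a3, h4 with
    | [], _, _, h4 => simp at h4; omega
    | [r], a1, a3, _ => exact ⟨r, a1 r (by simp), by simpa using a3⟩
    | _ :: _ :: _, _, _, h4 => simp at h4; omega
  have bo : ∀ τ r, E.Bo cs τ w → d⁻¹ * τ * d = cs.simple r →
      E.Bo cs (cs.simple r) (d⁻¹ * w) := fun τ r h e =>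
    (bo_conj (by rw [← e]; group)).2 h
  obtain ⟨r, hr, e1⟩ := key τ h1 b1
  obtain ⟨r', hr', e2⟩ := key τ' h2 b2
  have hrr : r ≠ r' := by
    rintro rfl
    exact hne (by simpa using e1.trans e2.symm)
  have c1 := bo _ _ b1 e1
  have c2 := bo _ _ b2 e2
  have all : ∀ q ∈ ({i, j} : Set B), E.Bo cs (cs.simple q) (d⁻¹ * w) := by
    rintro q (rfl | rfl) <;> rcases hr with rfl | rfl <;> rcases hr' with rfl | rfl <;>
      first | assumption | exact (hrr rfl).elim
  obtain ⟨ω, a1, a2, rfl⟩ := hd.exists_reduced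
  induction ω using List.reverseRecOn with
  | nil => simpa using And.intro (all i (by simp)) (all j (by simp))
  | append_singleton ω q _ =>
    obtain ⟨x, hx⟩ := all q (a1 q (by simp))
    have h3 := hw _ (InP.simple (cs := cs) ⟨x, rfl⟩)
    have h4 := hm.length_mul hd.inv
    have hω : InP cs {i, j} (cs.wordProd ω) := ⟨ω, fun l hl => a1 l (by simp [hl]), rfl⟩
    have h5 := hm.length_mul hω.inv
    have h6 : w⁻¹ * cs.wordProd (ω ++ [q]) * (cs.wordProd ω)⁻¹ = (w * cs.simple (E.e x))⁻¹ := by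
      have : w * cs.simple (E.e x) = cs.wordProd (ω ++ [q]) *
          (cs.simple q * ((cs.wordProd (ω ++ [q]))⁻¹ * w)) := by rw [hx]; group
      rw [this, wordProd_append, wordProd_singleton]
      simp [mul_assoc]
    have h7 := cs.length_wordProd_le ω
    rw [h6, length_inv, length_inv] at h5
    rw [mul_inv_cancel_right, length_inv, length_inv, a2.eq] at h4
    simp at h4
    omega

lemma inP_pow (i j : B) (k : ℕ) :
    InP cs {i, j} ((cs.simple i * cs.simple j) ^ k * cs.simple i) := by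
  induction k with
  | zero => simpa using InP.simple (by simp)
  | succ k ih =>
    rw [pow_succ', mul_assoc]
    exact ((InP.simple (by simp)).mul (InP.simple (by simp))).mul ih

lemma run_one {i j : B} (hij : i ≠ j) (p : E.St cs) {k : ℕ} (hk : k < M i j) {τ : W} {x : B'}
    (hτ : (cs.simple i * cs.simple j) ^ k * cs.simple i = τ)
    (hx : τ * p.1 = p.1 * cs.simple (E.e x))
    (hb : ¬ (E.Bo cs (cs.simple i) p.1 ∧ E.Bo cs (cs.simple j) p.1)) :
    (ra (M i j) (E.step cs i) (E.step cs j) p).1.1 =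
      ra (M i j) (cs.simple i) (cs.simple j) * τ * p.1 ∧
      (ra (M i j) (E.step cs i) (E.step cs j) p).2 = gn M' x * p.2 := by
  have hτ2 : τ * τ = 1 := by
    have : τ = p.1 * cs.simple (E.e x) * p.1.1⁻¹ := by rw [← hx]; group
    rw [this]
    simp [mul_assoc]
  have h0 : InP cs {i, j} τ := hτ ▸ inP_pow i j k
  have ne : ∀ l < M i j, l ≠ k → (cs.simple i * cs.simple j) ^ l * cs.simple i ≠ τ := by
    intro l hl hlk e
    have e' := mul_right_cancel (e.trans hτ.symm)
    rcases lt_or_gt_of_ne hlk with h | h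
    · have := (order cs hij (k - l)).1 (by rw [pow_sub _ h.le, e', mul_inv_cancel])
      exact absurd (Nat.le_of_dvd (by omega) this) (by omega)
    · have := (order cs hij (l - k)).1 (by rw [pow_sub _ h.le, e', mul_inv_cancel])
      exact absurd (Nat.le_of_dvd (by omega) this) (by omega)
  have := run1 i j p k hτ hτ2 hx (fun l hl h => hb (both p.1.2 (inP_pow i j l) h0
    (ne l (by omega) hl.ne) h ⟨x, hx⟩)) (M i j - k - 1) fun l h1 h2 h =>
      hb (both p.1.2 ((h0.mul (inP_pow i j l)).mul h0) h0 (fun e => ne l (by omega) h1.ne' (by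
        have := congrArg (fun z => τ * z * τ) e
        simpa [mul_assoc, hτ2, ← mul_assoc τ τ] using this)) h ⟨x, hx⟩)
  rwa [show k + (M i j - k - 1) + 1 = M i j by omega] at this

lemma step_braid {i j : B} (hij : i ≠ j) (h0 : M i j ≠ 0) :
    alt (M i j) (E.step cs i) (E.step cs j) = alt (M i j) (E.step cs j) (E.step cs i) := by
  rw [alt_iff]
  refine Equiv.ext fun p => ?_
  have hW : ra (M i j) (cs.simple i) (cs.simple j) = ra (M i j) (cs.simple j) (cs.simple i) := by
    rw [← inv_mul_eq_one, ra_inv (cs.simple_mul_simple_self j) (cs.simple_mul_simple_self i),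
      simple_mul_simple_pow]
  have rv : ∀ k l, k + l + 1 = M i j → (cs.simple j * cs.simple i) ^ l * cs.simple j =
      (cs.simple i * cs.simple j) ^ k * cs.simple i := fun k l h => by
    have h1 := cs.simple_mul_simple_pow i j
    rw [← h, add_assoc, pow_add, mul_eq_one_iff_eq_inv, ← inv_pow, mul_inv_rev, inv_simple,
      inv_simple] at h1
    rw [h1, pow_succ]
    simp [mul_assoc]
  by_cases hb : E.Bo cs (cs.simple i) p.1 ∧ E.Bo cs (cs.simple j) p.1
  · obtain ⟨⟨x, hx⟩, y, hy⟩ := hb
    have hxy : E.e x ≠ E.e y := fun e => hij (simple_inj (cs := cs)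
      (mul_right_cancel (hx.trans (e ▸ hy.symm))))
    have cj : ∀ k, (cs.simple i * cs.simple j) ^ k = 1 ↔
        (cs.simple (E.e x) * cs.simple (E.e y)) ^ k = 1 := fun k => by
      have : cs.simple i * cs.simple j =
          p.1 * (cs.simple (E.e x) * cs.simple (E.e y)) * p.1.1⁻¹ := by
        rw [← mul_assoc, ← hx, mul_assoc (cs.simple i), ← hy]
        group
      rw [this, conj_pow, conj_eq_one_iff]
    have e : M i j = M' x y := by
      rw [E.eq]
      exact Nat.dvd_antisymm ((order cs hij _).1 ((cj _).2 (simple_mul_simple_pow ..)))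
        ((order cs hxy _).1 ((cj _).1 (simple_mul_simple_pow ..)))
    rw [run2 i j p hx hy, run2 j i p hy hx, e, (alt_iff _ _ _).1 (braid (e ▸ h0))]
  by_cases h1 : ∃ k < M i j, E.Bo cs ((cs.simple i * cs.simple j) ^ k * cs.simple i) p.1
  · obtain ⟨k, hk, x, hx⟩ := h1
    obtain ⟨a1, a2⟩ := run_one hij p hk rfl hx hb
    obtain ⟨a3, a4⟩ := run_one hij.symm p (k := M i j - k - 1) (by rw [M.symmetric j i]; omega)
      (rv k _ (by omega)) hx (fun h => hb h.symm)
    rw [M.symmetric j i] at a3 a4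
    exact Prod.ext (Subtype.ext (by rw [a1, a3, hW])) (a2.trans a4.symm)
  · obtain ⟨a1, a2⟩ := run0 i j p (M i j) fun k hk h => h1 ⟨k, hk, h⟩
    obtain ⟨a3, a4⟩ := run0 j i p (M i j) fun k hk h =>
      h1 ⟨M i j - k - 1, by omega, by rwa [← rv _ k (by omega)]⟩
    exact Prod.ext (Subtype.ext (by rw [a1, a3, hW])) (a2.trans a4.symm)

variable (E)

theorem retr : ∃ ρ : Ar M → Ar M', (∀ a, ρ (E.hom a) = a) ∧
    ∀ r g, Ball (gn M) r g → Ball (gn M') r (ρ g) := by
  let cs := M.toCoxeterSystem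
  let Φ : Ar M →* Equiv.Perm (E.St cs) := alift (E.step cs) fun i j => step_braid
  let o : {w // IsMinC cs (Set.range E.e) w} := ⟨1, IsMinC.one _⟩
  refine ⟨fun g => (Φ g (o, 1)).2, fun a => ?_, ?_⟩
  · have : ∀ α, Φ (E.hom a) (o, α) = (o, a * α) :=
      PresentedGroup.generated_by _
        { carrier := {a | ∀ α, Φ (E.hom a) (o, α) = (o, a * α)}
          one_mem' := by simp
          mul_mem' := fun {a b} h h' α => by simp [h' α, h (b * α), mul_assoc]
          inv_mem' := fun {a} h α => by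
            rw [map_inv, map_inv, Equiv.Perm.inv_eq_iff_eq, h, mul_inv_cancel_left] }
        (fun j α => by
          rw [hom_gn, alift_gn]
          exact stp_pos (by simp [o])) a
    simp [this]
  · rintro r _ ⟨L, rfl, h1, h2⟩
    induction L generalizing r with
    | nil => exact ⟨[], rfl, h1, by simp⟩
    | cons y L ih =>
      obtain ⟨L', a1, a2, a3⟩ := ih L.length le_rfl fun z hz => h2 z (by simp [hz])
      have key : ∀ b (f : Ar M' → Ar M'), (∀ x, f x = x ∨ f x = x⁻¹) →
          Ball (gn M') r (E.stp cs b f (Φ L.prod (o, 1))).2 := by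
        intro b f hf
        rw [List.length_cons] at h1
        by_cases h : E.Bo cs (cs.simple b) (Φ L.prod (o, 1)).1
        · obtain ⟨i, h⟩ := h
          rw [stp_pos h]
          refine ⟨f (gn M' i) :: L', by simp [a1], by simp; omega, fun z hz => ?_⟩
          rcases List.mem_cons.1 hz with rfl | hz
          exacts [⟨i, hf _⟩, a3 z hz]
        · rw [stp_neg h]
          exact ⟨L', a1, by omega, a3⟩
      simp only [List.prod_cons, map_mul, Equiv.Perm.mul_apply]
      obtain ⟨b, rfl | rfl⟩ := h2 y (by simp)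
      · rw [alift_gn]
        exact key b id fun _ => Or.inl rfl
      · rw [map_inv, alift_gn]
        exact key b (·⁻¹) fun _ => Or.inr rfl

lemma hom_inj : Function.Injective E.hom := by
  obtain ⟨ρ, h, -⟩ := E.retr
  exact Function.LeftInverse.injective h

include E in
lemma down (h : RDb (Ball (gn M))) : RDb (Ball (gn M')) :=
  h.comap E.hom E.hom_inj 1 (by
    rintro r _ ⟨L, rfl, h1, h2⟩
    refine ⟨L.map E.hom, (map_list_prod _ _).symm, by simpa using h1, ?_⟩
    simp only [List.mem_map]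
    rintro _ ⟨y, hy, rfl⟩
    obtain ⟨i, rfl | rfl⟩ := h2 y hy
    exacts [⟨E.e i, Or.inl (by simp)⟩, ⟨E.e i, Or.inr (by simp)⟩])

lemma up (h : RDb (Ball (gn M'))) : RDb fun r (x : E.hom.range) => Ball (gn M) r x :=
  h.comap (MonoidHom.ofInjective E.hom_inj).symm.toMonoidHom (MulEquiv.injective _) 1
    fun r x hx => by
      obtain ⟨ρ, h1, h2⟩ := E.retr
      have := h2 r x hx
      rwa [← MonoidHom.apply_ofInjective_symm E.hom_inj x, h1, ← one_mul r] at this

end Emb

end

end Pool.Agent.Lib.MP_35cce7_an
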