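import Pool.Agent.Lib.MP_35cce7_an.SysGeo

namespace Pool.Agent.Lib.MP_35cce7_an

variable {V : Type}

/-- a covering of the clique complex; `N` means equal or adjacent -/
structure Cov (d : V → V → ℕ) {U : Type} (f : U → V) (N : U → U → Prop) : Prop where
  refl : ∀ p, N p p
  symm : ∀ {p q}, N p q → N q p
  hom : ∀ {p q}, N p q → d (f p) (f q) ≤ 1
  loc : ∀ {p q r}, N p q → N p r → d (f q) (f r) ≤ 1 → N q r
  lift : ∀ {p z}, d (f p) z ≤ 1 → ∃ q, N p q ∧ f q = z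

/-- connected coverings are trivial -/
def SC (d : V → V → ℕ) : Prop := ∀ (U : Type) (f : U → V) (N : U → U → Prop), Cov d f N →
  ∀ p q, Relation.ReflTransGen N p q → f p = f q → N p q

section
variable (d : V → V → ℕ) (o : V)

def lev : ℕ → (List V → List V → Prop) × (List V → List V → Prop)
  | 0 => (fun p q => p = [] ∧ q = [], fun _ _ => False)
  | i + 1 =>
    let D : List V → List V → Prop := fun r p => ∃ z q, p = z :: q ∧ (lev i).1 r q ∧
      d (q.headD o) z ≤ 1 ∧ (¬ ∃ t, ((lev i).1 q t ∨ (lev i).2 t q) ∧ t.headD o = z) ∧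
        d (r.headD o) z ≤ 1
    (fun p p' => d (p.headD o) (p'.headD o) ≤ 1 ∧ ∃ r, D r p ∧ D r p', D)

def cH (i : ℕ) := (lev d o i).1

def cD (i : ℕ) := (lev d o i).2

def hd (p : List V) : V := p.headD o

variable {d o}

lemma cH_zero {p q} : cH d o 0 p q ↔ p = [] ∧ q = [] := Iff.rfl

lemma cD_zero {p q} : ¬ cD d o 0 p q := id

lemma cH_succ {i p q} : cH d o (i + 1) p q ↔
    d (hd o p) (hd o q) ≤ 1 ∧ ∃ r, cD d o (i + 1) r p ∧ cD d o (i + 1) r q := Iff.rfl

lemma cD_succ {i r p} : cD d o (i + 1) r p ↔ ∃ z q, p = z :: q ∧ cH d o i r q ∧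
    d (hd o q) z ≤ 1 ∧ (¬ ∃ t, (cH d o i q t ∨ cD d o i t q) ∧ hd o t = z) ∧
      d (hd o r) z ≤ 1 := Iff.rfl

end

structure Inv (d : V → V → ℕ) (o : V) (i : ℕ) : Prop where
  t1 : ∀ {p a b}, cH d o i p a → cH d o i p b → d (hd o a) (hd o b) ≤ 1 → cH d o i a b
  t2 : ∀ {p a r}, cH d o i p a → cD d o i r p → d (hd o r) (hd o a) ≤ 1 → cD d o i r a
  r3 : ∀ {p a r}, cD d o (i + 1) p a → cD d o i r p → 2 ≤ d (hd o r) (hd o a)
  tr : ∀ {p c a b}, cD d o (i + 1) p c → cH d o i p a → cH d o i p b →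
    d (hd o a) (hd o c) ≤ 1 → d (hd o b) (hd o c) ≤ 1 → cH d o i a b

namespace Loc

variable {d : V → V → ℕ} {κ : V → V → Option Bool} (S : Loc d κ) {o : V} {i : ℕ}
include S

lemma h_symm {p q} (h : cH d o i p q) : cH d o i q p := by
  cases i with
  | zero => exact h.symm
  | succ i => exact ⟨by rw [S.symm]; exact h.1, h.2.imp fun _ h => h.symm⟩

lemma h_le {p q} (h : cH d o i p q) : d (hd o p) (hd o q) ≤ 1 := by
  cases i with
  | zero => rw [h.1, h.2, S.refl]; omega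
  | succ i => exact h.1

lemma h_refl {p q} (h : cH d o i p q) : cH d o i p p := by
  cases i with
  | zero => exact ⟨h.1, h.1⟩
  | succ i => exact cH_succ.2 ⟨by rw [S.refl]; omega, h.2.imp fun _ h => ⟨h.1, h.1⟩⟩

omit S in
lemma d_le {p q} (h : cD d o i p q) : d (hd o p) (hd o q) ≤ 1 := by
  cases i with
  | zero => exact h.elim
  | succ i =>
    obtain ⟨z, q, rfl, -, -, -, h⟩ := h
    exact h

lemma d_refl {p q} (h : cD d o (i + 1) p q) : cH d o i p p := by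
  obtain ⟨z, q, rfl, h, -⟩ := h
  exact S.h_refl h

omit S in
lemma c_lift {p z} (h : cH d o i p p) (hz : d (hd o p) z ≤ 1) :
    ∃ t, (cH d o i p t ∨ cD d o i t p ∨ cD d o (i + 1) p t) ∧ hd o t = z := by
  by_cases e : ∃ t, (cH d o i p t ∨ cD d o i t p) ∧ hd o t = z
  · exact e.imp fun t h => ⟨h.1.imp_right Or.inl, h.2⟩
  · exact ⟨z :: p, Or.inr (Or.inr ⟨z, p, rfl, h, hz, e, hz⟩), rfl⟩

lemma new (t1 : ∀ {p a b}, cH d o i p a → cH d o i p b → d (hd o a) (hd o b) ≤ 1 → cH d o i a b)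
    (t2 : ∀ {p a r}, cH d o i p a → cD d o i r p → d (hd o r) (hd o a) ≤ 1 → cD d o i r a)
    {p a t} (h : cD d o (i + 1) p a) (ht : cH d o i p t ∨ cD d o i t p) : hd o t ≠ hd o a := by
  obtain ⟨z, q, rfl, h1, h2, h3, h4⟩ := h
  intro e
  change hd o t = z at e
  refine h3 ⟨t, ht.imp (fun h => t1 h1 h (by rwa [e])) fun h => t2 h1 h ?_, e⟩
  rwa [e, S.symm]

omit S in
lemma r2 (I : Inv d o i) {p a b} (h : cD d o (i + 1) p a) (hb : cH d o i p b)
    (e : d (hd o b) (hd o a) ≤ 1) : cD d o (i + 1) b a := by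
  have h' := h
  obtain ⟨z, q, rfl, h1, h2, h3, h4⟩ := h'
  exact ⟨z, q, rfl, I.tr h hb h1 e h2, h2, h3, e⟩

lemma cpc (I : Inv d o i) {p r r'} (h : cD d o (i + 1) r p) (h' : cD d o (i + 1) r' p) :
    cH d o i r r' := by
  obtain ⟨z, q, rfl, h1, h2, h3, h4⟩ := h
  obtain ⟨z', q', e, h5, -, -, h6⟩ := h'
  obtain ⟨rfl, rfl⟩ := List.cons.inj e
  exact I.tr (c := z :: q) ⟨z, q, rfl, S.h_refl (S.h_symm h1), h2, h3, h2⟩ (S.h_symm h1)
    (S.h_symm h5) h4 h6

lemma inv (o : V) (i : ℕ) : Inv d o i := by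
  have s := S.symm
  induction i with
  | zero => exact ⟨fun h h' _ => ⟨h.2, h'.2⟩, fun _ h => h.elim, fun _ h => h.elim,
      fun _ h h' _ _ => ⟨h.2, h'.2⟩⟩
  | succ i I =>
    have one : ∀ {r p}, cD d o (i + 1) r p → d (hd o p) (hd o r) = 1 := fun {r p} h => by
      have a1 := S.new I.t1 I.t2 h (Or.inl (S.d_refl h))
      have a2 := d_le h
      have a3 := @S.eq0 (hd o r) (hd o p)
      grind
    have t1 : ∀ {p a b}, cH d o (i + 1) p a → cH d o (i + 1) p b → d (hd o a) (hd o b) ≤ 1 →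
        cH d o (i + 1) a b := by
      intro p a b ha hb e
      obtain ⟨a1, w, a2, a3⟩ := cH_succ.1 ha
      obtain ⟨b1, w', b2, b3⟩ := cH_succ.1 hb
      have c1 := S.cpc I a2 b2
      have c2 := S.h_le c1
      have c3 := one a2
      have c4 := one b2
      have c5 := d_le a3
      have c6 := d_le b3
      have : d (hd o w') (hd o a) ≤ 1 ∨ d (hd o w) (hd o b) ≤ 1 := by
        have a4 := @S.eq0 (hd o p) (hd o a)
        have a5 := @S.eq0 (hd o p) (hd o b)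
        have a6 := fun h h' => S.l4 (w := hd o p) (a := hd o a) (e := hd o b) h c3 c4 h'
          (by grind) c2 c6 (by grind)
        grind
      rcases this with h | h
      · exact ⟨e, w', r2 I a3 c1 h, b3⟩
      · exact ⟨e, w, a3, r2 I b3 (S.h_symm c1) h⟩
    have t2 : ∀ {p a r}, cH d o (i + 1) p a → cD d o (i + 1) r p → d (hd o r) (hd o a) ≤ 1 →
        cD d o (i + 1) r a := by
      rintro p a r ⟨-, w, a2, a3⟩ h e
      exact r2 I a3 (S.cpc I a2 h) e
    have r3 : ∀ {p a r}, cD d o (i + 1 + 1) p a → cD d o (i + 1) r p →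
        2 ≤ d (hd o r) (hd o a) := by
      intro p a r h h'
      by_contra hn
      obtain ⟨t, ht, e⟩ := c_lift (S.d_refl h') (z := hd o a) (by omega)
      have a1 := d_le h
      rw [← e, s] at a1
      rcases ht with ht | ht | ht
      · exact S.new t1 t2 h (Or.inr (r2 I h' ht a1)) e
      · have := I.r3 h' ht
        omega
      · exact S.new t1 t2 h (Or.inl ⟨by rwa [s], r, h', ht⟩) e
    refine ⟨t1, t2, r3, ?_⟩
    intro p c a b h ha hb e1 e2
    refine t1 ha hb (by_contra fun hn => ?_)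
    have a0 := S.new t1 t2 h (Or.inl (S.h_refl ha))
    have a1 := S.h_le ha
    have b1 := S.h_le hb
    obtain ⟨-, w, a2, a3⟩ := cH_succ.1 ha
    obtain ⟨-, w', b2, b3⟩ := cH_succ.1 hb
    have c2 := S.h_le (S.cpc I a2 b2)
    have c3 := one a2
    have c4 := one b2
    have c5 := d_le a3
    have c6 := d_le b3
    have c7 := r3 h a2
    have c8 := r3 h b2
    have c9 := d_le h
    have a4 := @S.eq0 (hd o p) (hd o a)
    have a5 := @S.eq0 (hd o p) (hd o b)
    have a6 := @S.eq0 (hd o p) (hd o c)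
    have d1 : d (hd o p) (hd o a) = 1 := by grind
    have d2 : d (hd o p) (hd o b) = 1 := by grind
    have d3 : d (hd o p) (hd o c) = 1 := by grind
    have d4 := S.l5 d3 d1 c3 c4 d2 (by grind) (by grind) c2 c6 e2
    have d5 := fun h => S.l4 d3 d1 c4 d2 (by grind) h c6 e2
    have d6 := fun h => S.l4 d3 d1 c3 d2 (by grind) (by grind) h e2
    grind

theorem sys (sc : SC d) : Sys d κ := by
  have s := S.symm
  suffices h : ∀ o, (∀ {a b k}, d o a = k + 1 → d o b = k + 1 → d a b ≤ 1 →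
      ∃ c, d c a = 1 ∧ d c b = 1 ∧ d o c = k) ∧ ∀ {a b z k}, d z a = 1 → d z b = 1 → d o a = k →
        d o b = k → d o z = k + 1 → d a b ≤ 1 from
    { S with tc := fun {o} => (h o).1, pc := fun {o} => (h o).2 }
  intro o
  have I := S.inv o
  let U := {x : ℕ × List V // cH d o x.1 x.2 x.2}
  let f : U → V := fun x => hd o x.1.2
  let N : U → U → Prop := fun x y => (y.1.1 = x.1.1 ∧ cH d o x.1.1 x.1.2 y.1.2) ∨
    (y.1.1 = x.1.1 + 1 ∧ cD d o y.1.1 x.1.2 y.1.2) ∨ (x.1.1 = y.1.1 + 1 ∧ cD d o x.1.1 y.1.2 x.1.2)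
  have up : ∀ {i r p}, cD d o (i + 1) r p → cH d o (i + 1) p p := fun h =>
    cH_succ.2 ⟨by rw [S.refl]; omega, _, h, h⟩
  have C : Cov d f N := by
    refine ⟨fun p => Or.inl ⟨rfl, p.2⟩, ?_, ?_, ?_, ?_⟩
    · rintro ⟨⟨i, p⟩, hp⟩ ⟨⟨j, q⟩, hq⟩ (⟨rfl, h⟩ | h | h)
      exacts [Or.inl ⟨rfl, S.h_symm h⟩, Or.inr (Or.inr h), Or.inr (Or.inl h)]
    · rintro p q (h | h | h)
      exacts [S.h_le h.2, d_le h.2, by rw [s]; exact d_le h.2]
    · rintro ⟨⟨i, p⟩, hp⟩ ⟨⟨j, q⟩, hq⟩ ⟨⟨k, r⟩, hr⟩ h h' e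
      have key : ∀ i j k, ((j = i ∧ cH d o i p q) ∨ (j = i + 1 ∧ cD d o j p q) ∨
          (i = j + 1 ∧ cD d o i q p)) → ((k = i ∧ cH d o i p r) ∨ (k = i + 1 ∧ cD d o k p r) ∨
          (i = k + 1 ∧ cD d o i r p)) → d (hd o q) (hd o r) ≤ 1 → (k = j ∧ cH d o j q r) ∨
          (k = j + 1 ∧ cD d o k q r) ∨ (j = k + 1 ∧ cD d o j r q) := by
        rintro i j k (⟨rfl, h⟩ | ⟨rfl, h⟩ | ⟨rfl, h⟩) (⟨e', h'⟩ | ⟨e', h'⟩ | ⟨e', h'⟩) e
        · exact Or.inl ⟨e', (I _).t1 h h' e⟩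
        · subst e'
          exact Or.inr (Or.inl ⟨rfl, r2 (I _) h' h e⟩)
        · exact Or.inr (Or.inr ⟨e', (I _).t2 h h' (by rwa [s])⟩)
        · subst e'
          exact Or.inr (Or.inr ⟨rfl, r2 (I _) h h' (by rwa [s])⟩)
        · subst e'
          exact Or.inl ⟨rfl, e, p, h, h'⟩
        · have := (I _).r3 h h'
          grind
        · exact Or.inr (Or.inl ⟨e', e' ▸ (I _).t2 h' h e⟩)
        · subst e'
          have := (I _).r3 h' h
          omega
        · obtain rfl : j = k := by omega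
          exact Or.inl ⟨rfl, S.cpc (I _) h h'⟩
      exact key i j k h h' e
    · rintro ⟨⟨i, p⟩, hp⟩ z hz
      obtain ⟨t, ht | ht | ht, e⟩ := c_lift hp hz
      · exact ⟨⟨(i, t), S.h_refl (S.h_symm ht)⟩, Or.inl ⟨rfl, ht⟩, e⟩
      · cases i with
        | zero => exact ht.elim
        | succ i => exact ⟨⟨(i, t), S.d_refl ht⟩, Or.inr (Or.inr ⟨rfl, ht⟩), e⟩
      · exact ⟨⟨(i + 1, t), up ht⟩, Or.inr (Or.inl ⟨rfl, ht⟩), e⟩
  let u : U := ⟨(0, []), rfl, rfl⟩
  have cn : ∀ i p h, Relation.ReflTransGen N u ⟨(i, p), h⟩ ∧ d o (hd o p) ≤ i := by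
    intro i
    induction i with
    | zero =>
      intro p hp
      obtain rfl := hp.1
      exact ⟨.refl, (S.refl o).le⟩
    | succ i ih =>
      intro p hp
      obtain ⟨-, r, h, -⟩ := (cH_succ (p := p) (q := p)).1 hp
      obtain ⟨a1, a2⟩ := ih r (S.d_refl h)
      have := S.tri o (hd o r) (hd o p)
      have := d_le h
      exact ⟨a1.tail (Or.inr (Or.inl ⟨rfl, h⟩)), by omega⟩
  have inj : ∀ p q, d (f p) (f q) ≤ 1 → N p q := fun p q h => by
    obtain ⟨r, r1, r2⟩ := C.lift h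
    have := sc U f N C r q (.trans (Relation.ReflTransGen.mono (fun _ _ h => C.symm h) _ _
      (Relation.reflTransGen_swap.2 (cn _ _ r.2).1)) (cn _ _ q.2).1) r2
    exact C.loc (C.symm r1) this h
  have lv : ∀ n v, d o v = n → ∃ p : U, f p = v ∧ p.1.1 = n := by
    intro n
    induction n with
    | zero => exact fun v h => ⟨u, S.eq0 h, rfl⟩
    | succ n ih =>
      intro v h
      obtain ⟨c, c1, c2⟩ := S.step (a := v) (b := o) (n := n) (by rwa [s])
      obtain ⟨q, rfl, q2⟩ := ih c (by rwa [s])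
      obtain ⟨p, p1, rfl⟩ := C.lift (p := q) (z := v) (by grind)
      have : d o (f p) ≤ p.1.1 := (cn _ _ p.2).2
      refine ⟨p, rfl, ?_⟩
      rcases p1 with p1 | p1 | p1 <;> omega
  refine ⟨fun {a b k} ha hb e => ?_, fun {a b z k} h1 h2 ha hb hz => ?_⟩
  · obtain ⟨⟨⟨i, p⟩, hp⟩, rfl, rfl : i = _⟩ := lv _ _ ha
    obtain ⟨⟨⟨j, q⟩, hq⟩, rfl, rfl : j = _⟩ := lv _ _ hb
    rcases inj _ _ e with h | h | h
    · obtain ⟨-, r, h, h'⟩ := cH_succ.1 h.2
      dsimp only at h h'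
      have a1 := (cn _ _ (S.d_refl h)).2
      have a2 := d_le h
      have a3 := d_le h'
      have a4 := S.tri o (hd o r) (hd o p)
      have a5 := S.tri o (hd o r) (hd o q)
      change d o (hd o p) = _ at ha
      change d o (hd o q) = _ at hb
      refine ⟨hd o r, ?_, ?_, by omega⟩
      · change d (hd o r) (hd o p) = 1
        omega
      · change d (hd o r) (hd o q) = 1
        omega
    · simp at h
    · simp at h
  · obtain ⟨⟨⟨i, p⟩, hp⟩, rfl, rfl : i = _⟩ := lv _ _ ha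
    obtain ⟨⟨⟨j, q⟩, hq⟩, rfl, rfl : j = _⟩ := lv _ _ hb
    obtain ⟨⟨⟨l, r⟩, hr⟩, rfl, rfl : l = _⟩ := lv _ _ hz
    rcases inj _ _ h1.le with h | h | h
    · simp at h
    · have := h.1
      dsimp only at this
      omega
    rcases inj _ _ h2.le with h' | h' | h'
    · simp at h'
    · have := h'.1
      dsimp only at this
      omega
    exact S.h_le (S.cpc (I _) h.2 h'.2)

end Loc

end Pool.Agent.Lib.MP_35cce7_an
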