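import Pool.Agent.Lib.MP_35cce7_an.SysPar
import Pool.Agent.Lib.MP_35cce7_an.SysCov
import Pool.Agent.Lib.MP_35cce7_an.SysRD

namespace Pool.Agent.Lib.MP_35cce7_an

noncomputable section

open Classical

lemma met_of_graph {V : Type} (X : SimpleGraph V) (h : X.Connected) : Met X.dist where
  refl _ := SimpleGraph.dist_self
  eq0 e := h.dist_eq_zero_iff.1 e
  symm _ _ := SimpleGraph.dist_comm
  tri _ _ _ := h.dist_triangle
  step {a b n} e := by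
    obtain ⟨p, hp⟩ := h.exists_walk_length_eq_dist a b
    cases p with
    | nil => simp at e
    | @cons _ c _ h1 p =>
      have a1 := SimpleGraph.dist_eq_one_iff_adj.2 h1
      have a2 := SimpleGraph.dist_le p
      have a3 := h.dist_triangle (u := a) (v := c) (w := b)
      rw [SimpleGraph.Walk.length_cons] at hp
      exact ⟨c, a1, by omega⟩

variable {B : Type} [LinearOrder B] (M : CoxeterMatrix B)

abbrev Pr (B : Type) [LinearOrder B] := {p : B × B // p.1 < p.2}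

def Pr.s (e : Pr B) : Set B := {i | i = e.1.1 ∨ i = e.1.2}

def Pr.H (e : Pr B) : Subgroup (Ar M) := (subE M (· ∈ e.s)).hom.range

abbrev Vx := Σ e : Pr B, Ar M ⧸ e.H M

variable {M}

lemma Pr.H_eq (e : Pr B) : e.H M = par M e.s :=
  (Emb.range_hom _).trans (congrArg _ Subtype.range_coe)

lemma Pr.ext' {e e' : Pr B} (h : e.s ⊆ e'.s) : e = e' := by
  obtain ⟨⟨a, b⟩, h1⟩ := e
  obtain ⟨⟨c, d⟩, h2⟩ := e'
  have a1 : a = c ∨ a = d := h (Or.inl rfl)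
  have a2 : b = c ∨ b = d := h (Or.inr rfl)
  simp only [Subtype.mk.injEq, Prod.mk.injEq]
  dsimp only at h1 h2
  rcases a1 with rfl | rfl <;> rcases a2 with rfl | rfl
  · exact (lt_irrefl _ h1).elim
  · exact ⟨rfl, rfl⟩
  · exact (lt_asymm h1 h2).elim
  · exact (lt_irrefl _ h1).elim

lemma Pr.ex {i j : B} (h : i ≠ j) : ∃ e : Pr B, i ∈ e.s ∧ j ∈ e.s := by
  rcases lt_or_gt_of_ne h with h | h
  exacts [⟨⟨(i, j), h⟩, Or.inl rfl, Or.inr rfl⟩, ⟨⟨(j, i), h⟩, Or.inr rfl, Or.inl rfl⟩]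

def In (g : Ar M) (v : Vx M) : Prop := (g : Ar M ⧸ v.1.H M) = v.2

def Nr (a b : Vx M) : Prop := ∃ g, In g a ∧ In g b

lemma In.iff {g g' : Ar M} {v : Vx M} (h : In g v) : In g' v ↔ g⁻¹ * g' ∈ par M v.1.s := by
  rw [In, ← h, eq_comm, QuotientGroup.eq, Pr.H_eq]

lemma In.mk (g : Ar M) (e : Pr B) : In g ⟨e, g⟩ := rfl

lemma In.ex (v : Vx M) : ∃ g, In g v := ⟨v.2.out, v.2.out_eq⟩

lemma In.eq {g : Ar M} {a b : Vx M} (h : In g a) (h' : In g b) (e : a.1 = b.1) : a = b := by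
  obtain ⟨e1, a⟩ := a
  obtain ⟨e2, b⟩ := b
  obtain rfl : e1 = e2 := e
  exact congrArg _ (Eq.trans (Eq.symm h) h')

lemma In.smul {g : Ar M} {a : Vx M} (h : In g a) (x : Ar M) : In (x * g) (x • a) := by
  obtain ⟨e, a⟩ := a
  obtain rfl : (g : Ar M ⧸ e.H M) = a := h
  rfl

lemma Nr.symm {a b : Vx M} (h : Nr a b) : Nr b a := h.imp fun _ h => h.symm

lemma Nr.tri {w a b : Vx M} (h1 : Nr w a) (h2 : Nr w b) (h3 : Nr a b) :
    ∃ g, In g w ∧ In g a ∧ In g b := by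
  obtain ⟨x, x1, x2⟩ := h1
  obtain ⟨y, y1, y2⟩ := h2
  obtain ⟨z, z1, z2⟩ := h3
  obtain ⟨u, u1, u2⟩ := par_tri (S := w.1.s) (x2.iff.1 z1) (z2.iff.1 y2)
    (by simpa [mul_assoc] using x1.iff.1 y1)
  refine ⟨x * u, x1.iff.2 ?_, x2.iff.2 ?_, y2.iff.2 ?_⟩
  · simpa using par_mono Set.inter_subset_left u1
  · simpa using par_mono Set.inter_subset_right u1
  · simpa [mul_assoc] using Subgroup.inv_mem _ (par_mono Set.inter_subset_right u2)

variable (M) in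
def nerve : SimpleGraph (Vx M) where
  Adj a b := a ≠ b ∧ Nr a b
  symm := ⟨fun _ _ h => ⟨h.1.symm, h.2.symm⟩⟩
  loopless := ⟨fun _ h => h.1 rfl⟩

def kd (w a : Vx M) : Option Bool :=
  if w.1.1.1 ∈ a.1.s then some true else if w.1.1.2 ∈ a.1.s then some false else none

lemma Nr.reach {a b : Vx M} (h : Nr a b) : (nerve M).Reachable a b := by
  by_cases e : a = b
  exacts [e ▸ .refl _, SimpleGraph.Adj.reachable ⟨e, h⟩]

lemma nerve_conn [Nontrivial B] : (nerve M).Connected := by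
  obtain ⟨i, j, h⟩ := exists_pair_ne B
  obtain ⟨e, -⟩ := Pr.ex h
  have key : ∀ g : Ar M, (nerve M).Reachable ⟨e, (1 : Ar M)⟩ ⟨e, g⟩ := fun g => by
    have : ∀ (x y : Ar M) i, (y = gn M i ∨ y = (gn M i)⁻¹) →
        (nerve M).Reachable ⟨e, x⟩ ⟨e, (x * y : Ar M)⟩ := fun x y i hy => by
      obtain ⟨j, hj⟩ := exists_ne i
      obtain ⟨e', h1, -⟩ := Pr.ex hj.symm
      refine (Nr.reach ⟨x, In.mk x e, In.mk x e'⟩).trans
        (Nr.reach ⟨x * y, (In.mk x e').iff.2 ?_, rfl⟩)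
      rcases hy with rfl | rfl <;> simpa using gn_mem h1
    refine Subgroup.closure_induction_right
      (p := fun (g : Ar M) _ => (nerve M).Reachable ⟨e, (1 : Ar M)⟩ ⟨e, g⟩) (.refl _) ?_ ?_ (par_univ g)
    · rintro x - _ ⟨i, -, rfl⟩ h
      exact h.trans (this _ _ i (Or.inl rfl))
    · rintro x - _ ⟨i, -, rfl⟩ h
      exact h.trans (this _ _ i (Or.inr rfl))
  refine (SimpleGraph.connected_iff_exists_forall_reachable _).2 ⟨⟨e, (1 : Ar M)⟩, fun v => ?_⟩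
  obtain ⟨g, hg⟩ := In.ex v
  exact (key g).trans (Nr.reach ⟨g, rfl, hg⟩)

variable [Nontrivial B]

omit [Nontrivial B] in
lemma d_one {a b : Vx M} : (nerve M).dist a b = 1 ↔ a ≠ b ∧ Nr a b :=
  SimpleGraph.dist_eq_one_iff_adj

lemma d_le {a b : Vx M} : (nerve M).dist a b ≤ 1 ↔ Nr a b := by
  refine ⟨fun h => ?_, fun h => ?_⟩
  · by_cases e : (nerve M).dist a b = 0
    · obtain rfl := nerve_conn.dist_eq_zero_iff.1 e
      exact (In.ex a).imp fun _ h => ⟨h, h⟩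
    · exact (d_one.1 (by omega)).2
  · by_cases e : a = b
    · simp [e]
    · exact (d_one.2 ⟨e, h⟩).le

lemma d_ty (a b : Vx M) (h : (nerve M).dist a b ≤ 1) (e : a.1 = b.1) : a = b :=
  (d_le.1 h).elim fun _ h => h.1.eq h.2 e

lemma d_ne {a b : Vx M} (h : (nerve M).dist a b = 1) : ¬ a.1.s ⊆ b.1.s := fun e =>
  (d_one.1 h).1 (d_ty a b h.le (Pr.ext' e))

lemma d_smul (g : Ar M) (a b : Vx M) : (nerve M).dist (g • a) (g • b) = (nerve M).dist a b := by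
  have S := met_of_graph _ (nerve_conn (M := M))
  have key : ∀ (g : Ar M) n a b, (nerve M).dist a b = n → (nerve M).dist (g • a) (g • b) ≤ n := by
    intro g n
    induction n with
    | zero => intro a b h; simp [S.eq0 h]
    | succ n ih =>
      intro a b h
      obtain ⟨c, h1, h2⟩ := S.step h
      obtain ⟨x, h3, h4⟩ := d_le.1 h1.le
      have a1 := d_le.2 ⟨_, h3.smul g, h4.smul g⟩
      have a2 := ih _ _ h2
      have a3 := S.tri (g • a) (g • c) (g • b)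
      omega
  refine le_antisymm (key g _ _ _ rfl) ?_
  simpa using key g⁻¹ _ _ _ (rfl : (nerve M).dist (g • a) (g • b) = _)

lemma share {w a b c : Vx M} (ha : (nerve M).dist w a = 1) (hb : (nerve M).dist w b = 1)
    (hc : (nerve M).dist w c = 1) (ab : (nerve M).dist a b ≤ 1) (ac : (nerve M).dist a c ≤ 1)
    (h : w.1.s ∩ a.1.s ⊆ b.1.s) : (nerve M).dist b c ≤ 1 := by
  obtain ⟨x, x1, x2, x3⟩ := (d_le.1 ha.le).tri (d_le.1 hb.le) (d_le.1 ab)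
  obtain ⟨y, y1, y2, y3⟩ := (d_le.1 ha.le).tri (d_le.1 hc.le) (d_le.1 ac)
  exact d_le.2 ⟨y, x3.iff.2 (par_mono h (par_inf (x1.iff.1 y1) (x2.iff.1 y2))), y3⟩

lemma pw_of {w a : Vx M} (ha : (nerve M).dist w a = 1) {x y : Ar M} (x1 : In x w) (x2 : In x a)
    (y1 : In y w) (y2 : In y a) :
    x = y ∨ ∃ i, ∃ n : ℤ, i ∈ w.1.s ∧ i ∈ a.1.s ∧ n ≠ 0 ∧ x⁻¹ * y = gn M i ^ n := by
  have h := par_inf (x1.iff.1 y1) (x2.iff.1 y2)
  by_cases e : x = y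
  · exact Or.inl e
  right
  by_cases e1 : ∃ i, i ∈ w.1.s ∧ i ∈ a.1.s
  · obtain ⟨i, h1, h2⟩ := e1
    have : w.1.s ∩ a.1.s ⊆ {i} := fun j hj => by
      by_contra hn
      refine d_ne ha fun k hk => ?_
      have h3 := hj.1
      have h4 := hj.2
      simp only [Pr.s, Set.mem_ofPred_eq, Set.mem_singleton_iff] at *
      grind
    have h3 := par_mono this h
    rw [par, Set.image_singleton, Subgroup.mem_closure_singleton] at h3
    obtain ⟨n, hn⟩ := h3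
    refine ⟨i, n, h1, h2, ?_, hn.symm⟩
    rintro rfl
    exact e (inv_mul_eq_one.1 (by simpa using hn.symm))
  · have h3 := par_mono (T := ∅) (fun j hj => e1 ⟨j, hj⟩) h
    exact (e (inv_mul_eq_one.1 (by simpa [par] using h3))).elim

theorem nerve_loc (hM : ∀ i j, i ≠ j → 3 ≤ M i j) : Loc (nerve M).dist kd where
  toMet := met_of_graph _ nerve_conn
  k0 {w a b c} k ha hb hc ab ac := share ha hb hc ab ac fun i hi => by
    have h1 := hi.1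
    have h2 := hi.2
    simp only [kd, Pr.s, Set.mem_ofPred_eq] at *
    grind
  k1 {w a b c i} ka kb ha hb hc ab ac := share ha hb hc ab ac fun i hi => by
    have h1 := hi.1
    have h2 := hi.2
    have h3 := d_ne ha
    simp only [kd, Pr.s, Set.mem_ofPred_eq, Set.ofPred_subset_ofPred] at *
    grind
  k2 {b a a' i} ka kb ha hb hc := by
    have h1 := d_ne (SimpleGraph.dist_comm.trans ha)
    have h2 := d_ne hc
    simp only [kd, Pr.s, Set.mem_ofPred_eq, Set.ofPred_subset_ofPred] at *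
    by_cases h : a.1.1.1 = a'.1.1.1 ∨ a.1.1.1 = a'.1.1.2
    · exact ⟨true, by grind⟩
    · exact ⟨false, by grind⟩
  l4 {w a b c e} ha hb hc he ab bc ce ea := by
    obtain ⟨x, x1, x2, x3⟩ := (d_le.1 ha.le).tri (d_le.1 hb.le) (d_le.1 ab)
    obtain ⟨y, y1, y2, y3⟩ := (d_le.1 hb.le).tri (d_le.1 hc.le) (d_le.1 bc)
    obtain ⟨z, z1, z2, z3⟩ := (d_le.1 hc.le).tri (d_le.1 he.le) (d_le.1 ce)
    obtain ⟨u, u1, u2, u3⟩ := (d_le.1 he.le).tri (d_le.1 ha.le) (d_le.1 ea)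
    rw [d_le, d_le]
    rcases pw_of hb x1 x3 y1 y2 with rfl | ⟨i, n, i1, i2, i3, i4⟩
    · exact Or.inl ⟨_, x2, y3⟩
    rcases pw_of hc y1 y3 z1 z2 with rfl | ⟨j, m, j1, j2, j3, j4⟩
    · exact Or.inr ⟨_, y2, z3⟩
    rcases pw_of he z1 z3 u1 u2 with rfl | ⟨k, p, k1, k2, k3, k4⟩
    · exact Or.inl ⟨_, u3, z2⟩
    rcases pw_of ha u1 u3 x1 x2 with rfl | ⟨l, q, l1, l2, l3, l4⟩
    · exact Or.inr ⟨_, x3, u2⟩
    by_cases e1 : l = i
    · exact Or.inl ⟨y, x2.iff.2 (i4 ▸ Subgroup.zpow_mem _ (gn_mem (e1 ▸ l2)) _), y3⟩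
    by_cases e2 : i = j
    · exact Or.inr ⟨z, y2.iff.2 (j4 ▸ Subgroup.zpow_mem _ (gn_mem (e2 ▸ i2)) _), z3⟩
    by_cases e3 : j = k
    · exact Or.inl ⟨u, u3, z2.iff.2 (k4 ▸ Subgroup.zpow_mem _ (gn_mem (e3 ▸ j2)) _)⟩
    have e4 : k = i ∧ l = j := by
      simp only [Pr.s, Set.mem_ofPred_eq] at i1 j1 k1 l1
      grind
    obtain ⟨rfl, rfl⟩ := e4
    have := no_four (hM _ _ e2) (a := n) (b := m) (c := -q) (e := -p) (by
      rw [zpow_neg, zpow_neg, ← i4, ← j4, ← k4, ← l4]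
      group)
    tauto

theorem nerve_sc : SC (nerve M).dist := by
  intro U f N C p₀ q₀ hpq hf
  let A : Ar M → U → Set U := fun g p => {u | In g (f u) ∧ N p u}
  have hA : ∀ g p q, In g (f p) → q ∈ A g p → A g q = A g p := fun g p q h1 h2 =>
    Set.ext fun u => and_congr_right fun hu => ⟨fun h => C.loc (C.symm h2.2) h (d_le.2 ⟨g, h1, hu⟩),
      fun h => C.loc h2.2 h (d_le.2 ⟨g, h2.1, hu⟩)⟩
  let Ch := {c : Ar M × Set U // ∃ p, In c.1 (f p) ∧ c.2 = A c.1 p}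
  have c1 : ∀ (c : Ch) q, q ∈ c.1.2 → In c.1.1 (f q) ∧ c.1.2 = A c.1.1 q := by
    intro c q hq
    obtain ⟨p, h1, h2⟩ := c.2
    rw [h2] at hq ⊢
    exact ⟨hq.1, (hA _ _ _ h1 hq).symm⟩
  have c2 : ∀ (c : Ch) e, ∃ q ∈ c.1.2, (f q).1 = e := by
    intro c e
    obtain ⟨p, h1, h4⟩ := c.2
    obtain ⟨q, h2, h3⟩ := C.lift (d_le.2 ⟨_, h1, In.mk c.1.1 e⟩)
    exact ⟨q, h4 ▸ ⟨h3 ▸ In.mk c.1.1 e, h2⟩, by rw [h3]⟩
  have c3 : ∀ (c c' : Ch) q, c.1.1 = c'.1.1 → q ∈ c.1.2 → q ∈ c'.1.2 → c = c' :=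
    fun c c' q e h h' => Subtype.ext (Prod.ext e (by rw [(c1 _ _ h).2, (c1 _ _ h').2, e]))
  have ex : ∀ (h : Ar M) (c : Ch), ∃ c' : Ch, ∀ q ∈ c.1.2, h⁻¹ ∈ par M (f q).1.s →
      c'.1.1 = c.1.1 * h⁻¹ ∧ q ∈ c'.1.2 := fun h c => by
    by_cases e : ∃ q ∈ c.1.2, h⁻¹ ∈ par M (f q).1.s
    · obtain ⟨q, h1, h2⟩ := e
      refine ⟨⟨(c.1.1 * h⁻¹, A (c.1.1 * h⁻¹) q), q, (c1 _ _ h1).1.iff.2 (by simpa using h2), rfl⟩,
        fun u h3 h4 => ⟨rfl, (c1 _ _ h3).1.iff.2 (by simpa using h4), ?_⟩⟩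
      rw [(c1 _ _ h1).2] at h3
      exact h3.2
    · exact ⟨c, fun q h1 h2 => (e ⟨q, h1, h2⟩).elim⟩
  choose T hT using ex
  let τ : ∀ e : Pr B, par M e.s →* Equiv.Perm Ch := fun e => MonoidHom.toHomPerm
    { toFun := fun h => T h
      map_one' := funext fun c => by
        obtain ⟨q, h1, -⟩ := c2 c e
        obtain ⟨h2, h3⟩ := hT 1 c q h1 (by simp)
        exact c3 _ c q (by simpa using h2) h3 h1
      map_mul' := fun x y => funext fun c => by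
        obtain ⟨q, h1, rfl⟩ := c2 c e
        obtain ⟨h2, h3⟩ := hT (x * y) c q h1 (Subgroup.inv_mem _ (x * y).2)
        obtain ⟨h4, h5⟩ := hT y c q h1 (Subgroup.inv_mem _ y.2)
        obtain ⟨h6, h7⟩ := hT x _ q h5 (Subgroup.inv_mem _ x.2)
        exact c3 _ _ q (h2.trans (by rw [mul_inv_rev, ← mul_assoc, ← h4]; exact h6.symm)) h3 h7 }
  have ee : ∀ i : B, ∃ e : Pr B, i ∈ e.s := fun i =>
    (exists_ne i).elim fun j hj => (Pr.ex hj).imp fun _ h => h.2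
  choose ε hε using ee
  have t1 : ∀ i (e : Pr B) (hi : i ∈ e.s), τ (ε i) ⟨_, gn_mem (hε i)⟩ = τ e ⟨_, gn_mem hi⟩ :=
    fun i e hi => Equiv.ext fun c => rfl
  let Φ : Ar M →* Equiv.Perm Ch := alift (fun i => τ (ε i) ⟨_, gn_mem (hε i)⟩) fun i j hij h0 => by
    obtain ⟨e, h1, h2⟩ := Pr.ex hij
    rw [t1 i e h1, t1 j e h2, ← map_alt, ← map_alt]
    refine congrArg _ ((par M e.s).subtype_injective ?_)
    rw [map_alt, map_alt]
    exact braid h0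
  have f1 : ∀ (e : Pr B) (x : par M e.s) c, Φ x c = T x c := fun e x c => by
    rw [ext_cl Φ (τ e) (by rintro _ ⟨i, hi, rfl⟩; exact (alift_gn _ _ i).trans (t1 i e hi)) x]
    rfl
  have f2 : ∀ g (c : Ch), (Φ g c).1.1 = c.1.1 * g⁻¹ := fun g => by
    refine par_ind (Q := fun g => ∀ c : Ch, (Φ g c).1.1 = c.1.1 * g⁻¹) (by simp)
      (fun i _ x hx => ?_) (par_univ g)
    have : ∀ y ∈ par M (ε i).s, ∀ c : Ch, (Φ (y * x) c).1.1 = c.1.1 * (y * x)⁻¹ := fun y hy c => by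
      obtain ⟨q, h1, h2⟩ := c2 (Φ x c) (ε i)
      rw [map_mul, Equiv.Perm.mul_apply, f1 _ ⟨y, hy⟩,
        (hT y _ q h1 (h2 ▸ Subgroup.inv_mem _ hy)).1, hx, mul_inv_rev, mul_assoc]
    exact ⟨this _ (gn_mem (hε i)), this _ (Subgroup.inv_mem _ (gn_mem (hε i)))⟩
  have f3 : ∀ g (c : Ch) q, q ∈ c.1.2 → In (c.1.1 * g⁻¹) (f q) → q ∈ (Φ g c).1.2 :=
    fun g c q h1 h2 => by
      have h3 : g⁻¹ ∈ par M (f q).1.s := by simpa using (c1 _ _ h1).1.iff.1 h2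
      rw [f1 _ ⟨g, (Subgroup.inv_mem_iff _).1 h3⟩]
      exact (hT g c q h1 h3).2
  obtain ⟨g₀, hg⟩ := In.ex (f p₀)
  let c₀ : Ch := ⟨(g₀, A g₀ p₀), p₀, hg, rfl⟩
  have f4 : ∀ q, Relation.ReflTransGen N p₀ q → ∃ g, q ∈ (Φ g c₀).1.2 := fun q h => by
    induction h with
    | refl => exact ⟨1, by simpa using ⟨hg, C.refl _⟩⟩
    | @tail p q _ h ih =>
      obtain ⟨g, h1⟩ := ih
      obtain ⟨x, x1, x2⟩ := d_le.1 (C.hom h)
      have h2 := f3 (x⁻¹ * (Φ g c₀).1.1) _ p h1 (by simpa using x1)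
      refine ⟨x⁻¹ * (Φ g c₀).1.1 * g, ?_⟩
      rw [map_mul, Equiv.Perm.mul_apply, (c1 _ _ h2).2, f2]
      exact ⟨by simpa using x2, h⟩
  obtain ⟨g, h1⟩ := f4 q₀ hpq
  have h2 := f3 g c₀ p₀ ⟨hg, C.refl _⟩ (by rw [hf, ← f2]; exact (c1 _ _ h1).1)
  rw [(c1 _ _ h2).2] at h1
  exact h1.2

theorem rd_large [Fintype B] (hM : ∀ i j, i ≠ j → 3 ≤ M i j) : RDb (Ball (gn M)) := by
  have h0 : ∀ i j, M i j ≠ 0 := fun i j => by
    by_cases e : i = j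
    · simp [e]
    · have := hM i j e
      omega
  have S := (nerve_loc hM).sys nerve_sc
  obtain ⟨i, j, h⟩ := exists_pair_ne B
  obtain ⟨e, -⟩ := Pr.ex h
  refine rd_of_sys S (ty := fun v => v.1) d_ty d_smul (Ball.isBall _) (Ball.one _)
    ⟨e, (1 : Ar M)⟩ (fun r x hx => ?_) (grd_sigma fun e => ?_)
  · refine hx.map (B' := fun r x => (nerve M).dist ⟨e, (1 : Ar M)⟩ (x • ⟨e, (1 : Ar M)⟩) ≤ r)
      ⟨fun r x h => ?_, fun r s x y h h' => ?_⟩ (by simp) (MonoidHom.id _) fun i => ?_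
    · rwa [← d_smul x, smul_inv_smul, S.symm]
    · rw [← d_smul x, ← mul_smul] at h'
      exact (S.tri _ _ _).trans (add_le_add h h')
    · obtain ⟨j, hj⟩ := exists_ne i
      obtain ⟨e', -, h1⟩ := Pr.ex hj
      refine (S.tri _ ⟨e', (1 : Ar M)⟩ _).trans (add_le_add (d_le.2 ⟨1, In.mk 1 e, In.mk 1 e'⟩)
        (d_le.2 ⟨gn M i * 1, (In.mk 1 e').iff.2 ?_, (In.mk 1 e).smul _⟩))
      simpa using gn_mem h1
  · obtain ⟨ρ, h1, h2⟩ := (subE M (· ∈ e.s)).retr2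
    exact grd_orbit _ ρ h1 h2 (rd_dih (a := ⟨e.1.1, Or.inl rfl⟩) (b := ⟨e.1.2, Or.inr rfl⟩)
      (fun i => i.2.imp Subtype.ext Subtype.ext) (fun h => e.2.ne (congrArg Subtype.val h))
      (h0 _ _))

end

theorem rd_suff (n : ℕ) (M : CoxeterMatrix (Fin n))
    (h : ∀ i j k, i ≠ k → j ≠ k → M i j = 2 → M i k ≠ 0 → M j k ≠ 0 → M i k = 2 ∨ M j k = 2) :
    HasRD M := by
  refine (rd_iff _).2 (rd_of_hyp _ _ M rfl fun B _ M' E h1 h2 h3 => ?_)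
  let _ : LinearOrder B := LinearOrder.lift' _ E.inj
  have := Fintype.one_lt_card_iff_nontrivial.1 (by omega : 1 < Fintype.card B)
  refine rd_large fun i j hij => by_contra fun hn => ?_
  have e : M' i j = 2 := by
    have := h2 i j
    have := M'.off_diagonal i j hij
    omega
  obtain ⟨a, b, ha, hb, hab⟩ := h3 (fun k => k = i ∨ M' i k ≠ 2) ⟨i, Or.inl rfl⟩
    ⟨j, by simp [hij.symm, e]⟩
  simp only [not_or, not_not] at hb
  rcases eq_or_ne a i with rfl | hai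
  · exact hab hb.2
  have ha := ha.resolve_left hai
  have := h (E.e i) (E.e b) (E.e a) (E.inj.ne hai.symm) (E.inj.ne fun e => ha (e ▸ hb.2))
    (E.eq _ _ ▸ hb.2) (E.eq _ _ ▸ h2 _ _) (E.eq _ _ ▸ h2 _ _)
  rw [← E.eq, ← E.eq, M'.symmetric b] at this
  tauto

end Pool.Agent.Lib.MP_35cce7_an
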