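import Mathlib

namespace Pool.Agent.Lib.MP_35cce7_an

variable {V : Type}

/-- `d` is the path metric of a connected graph. -/
structure Met (d : V → V → ℕ) : Prop where
  refl : ∀ a, d a a = 0
  eq0 : ∀ {a b}, d a b = 0 → a = b
  symm : ∀ a b, d a b = d b a
  tri : ∀ a b c, d a c ≤ d a b + d b c
  step : ∀ {a b n}, d a b = n + 1 → ∃ c, d a c = 1 ∧ d c b = n

/-- local structure of the links -/
structure Loc (d : V → V → ℕ) (κ : V → V → Option Bool) : Prop extends Met d where
  k0 : ∀ {w a b c}, κ w a = none → d w a = 1 → d w b = 1 → d w c = 1 → d a b ≤ 1 → d a c ≤ 1 →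
    d b c ≤ 1
  k1 : ∀ {w a b c i}, κ w a = some i → κ w b = some i → d w a = 1 → d w b = 1 → d w c = 1 →
    d a b ≤ 1 → d a c ≤ 1 → d b c ≤ 1
  k2 : ∀ {b a a' i}, κ b a = some i → κ b a' = some i → d b a = 1 → d b a' = 1 → d a a' = 1 →
    ∃ l, κ a a' = some l ∧ κ a b = some l
  l4 : ∀ {w a b c e}, d w a = 1 → d w b = 1 → d w c = 1 → d w e = 1 → d a b ≤ 1 → d b c ≤ 1 →
    d c e ≤ 1 → d e a ≤ 1 → d a c ≤ 1 ∨ d b e ≤ 1

namespace Loc

variable {d : V → V → ℕ} {κ : V → V → Option Bool} (S : Loc d κ)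
include S

lemma kind {w a b c} (ha : d w a = 1) (hb : d w b = 1) (hc : d w c = 1) (h1 : d a b ≤ 1)
    (h2 : d a c ≤ 1) (h3 : 2 ≤ d b c) : ∃ i, κ w a = some i := by
  cases h : κ w a with
  | none => have := S.k0 h ha hb hc h1 h2; omega
  | some i => exact ⟨i, rfl⟩

lemma kne {w a b c i j} (ka : κ w a = some i) (kb : κ w b = some j) (ha : d w a = 1)
    (hb : d w b = 1) (hc : d w c = 1) (h1 : d a b ≤ 1) (h2 : d a c ≤ 1) (h3 : 2 ≤ d b c) :
    i ≠ j := by
  rintro rfl
  have := S.k1 ka kb ha hb hc h1 h2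
  omega

lemma l5 {w a b c e f} (ha : d w a = 1) (hb : d w b = 1) (hc : d w c = 1) (he : d w e = 1)
    (hf : d w f = 1) (h1 : d a b ≤ 1) (h2 : d b c ≤ 1) (h3 : d c e ≤ 1) (h4 : d e f ≤ 1)
    (h5 : d f a ≤ 1) : d a c ≤ 1 ∨ d b e ≤ 1 ∨ d c f ≤ 1 ∨ d e a ≤ 1 ∨ d f b ≤ 1 := by
  by_contra hn
  have s := S.symm
  obtain ⟨i1, k1⟩ := S.kind ha hb hf h1 (by grind) (by grind)
  obtain ⟨i2, k2⟩ := S.kind hb ha hc (by grind) h2 (by grind)
  obtain ⟨i3, k3⟩ := S.kind hc hb he (by grind) h3 (by grind)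
  obtain ⟨i4, k4⟩ := S.kind he hc hf (by grind) h4 (by grind)
  obtain ⟨i5, k5⟩ := S.kind hf he ha (by grind) h5 (by grind)
  have a1 := S.kne k1 k2 ha hb hf h1 (by grind) (by grind)
  have a2 := S.kne k2 k3 hb hc ha h2 (by grind) (by grind)
  have a3 := S.kne k3 k4 hc he hb h3 (by grind) (by grind)
  have a4 := S.kne k4 k5 he hf hc h4 (by grind) (by grind)
  have a5 := S.kne k5 k1 hf ha he h5 (by grind) (by grind)
  revert a1 a2 a3 a4 a5
  cases i1 <;> cases i2 <;> cases i3 <;> cases i4 <;> cases i5 <;> simp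

/-- an induced path `e a c f` in the link of `w` -/
structure P4 (d : V → V → ℕ) (w e a c f : V) : Prop where
  he : d w e = 1
  ha : d w a = 1
  hc : d w c = 1
  hf : d w f = 1
  ea : d e a ≤ 1
  ac : d a c ≤ 1
  cf : d c f ≤ 1
  ec : 2 ≤ d e c
  af : 2 ≤ d a f
  ef : 2 ≤ d e f

lemma P4.rev {w e a c f} (h : P4 d w e a c f) : P4 d w f c a e := by
  have s := S.symm
  obtain ⟨h1, h2, h3, h4, h5, h6, h7, h8, h9, h10⟩ := h
  constructor <;> grind

lemma P4.kinds {w e a c f} (h : P4 d w e a c f) :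
    ∃ i, κ w a = some i ∧ κ w c = some (!i) := by
  have s := S.symm
  obtain ⟨h1, h2, h3, h4, h5, h6, h7, h8, h9, h10⟩ := h
  obtain ⟨i, k1⟩ := S.kind h2 h1 h3 (by grind) h6 h8
  obtain ⟨j, k2⟩ := S.kind h3 h2 h4 (by grind) h7 h9
  have := S.kne k1 k2 h2 h3 h1 h6 (by grind) (by grind)
  refine ⟨i, k1, ?_⟩
  rw [k2]
  revert this
  cases i <;> cases j <;> simp

lemma P4.no {w e a c f x} (h : P4 d w e a c f) (hx : d w x = 1) (h1 : d e x ≤ 1)
    (h2 : d f x ≤ 1) : False := by
  have s := S.symm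
  obtain ⟨i, k1, k2⟩ := h.kinds S
  obtain ⟨he, ha, hc, hf, ea, ac, cf, ec, af, ef⟩ := h
  obtain ⟨l, k3⟩ := S.kind hx he hf (by grind) (by grind) ef
  have a1 := S.l5 he ha hc hf hx ea ac cf h2 (by grind)
  have a2 := fun h => S.l4 hx ha hc hf h ac cf h2
  have a3 := fun h => S.l4 he ha hc hx ea ac h (by grind)
  have a4 : d x a ≤ 1 ∧ d x c ≤ 1 := by grind
  have a5 := S.kne k3 k1 hx ha hf a4.1 (by grind) af
  have a6 := S.kne k3 k2 hx hc he a4.2 (by grind) (by grind)
  revert a5 a6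
  cases i <;> cases l <;> simp

lemma P4.two {w e a c f a' c'} (h : P4 d w e a c f) (h' : P4 d w e a' c' f) (h1 : d a a' ≤ 1) :
    κ w a = κ w a' ∧ κ w c = κ w c' ∧ d c c' ≤ 1 := by
  have s := S.symm
  obtain ⟨i, k1, k2⟩ := h.kinds S
  obtain ⟨j, k3, k4⟩ := h'.kinds S
  obtain ⟨he, ha, hc, hf, ea, ac, cf, ec, af, ef⟩ := h
  obtain ⟨-, ha', hc', -, ea', ac', cf', ec', af', -⟩ := h'
  by_cases hij : i = j
  · subst hij
    refine ⟨k1.trans k3.symm, k2.trans k4.symm, ?_⟩
    have a1 := S.k1 k3 k1 ha' ha hc' (by grind) ac'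
    have a2 := S.l4 ha hc hf hc' ac cf (by grind) (by grind)
    omega
  · exfalso
    have hj : j = !i := by revert hij; cases i <;> cases j <;> simp
    subst hj
    rw [Bool.not_not] at k4
    have a1 := fun h => S.k1 k3 k2 ha' hc he h (by grind)
    have a2 := fun h => S.k1 k1 k4 ha hc' he h (by grind)
    have a3 := fun h => S.l4 ha hc hc' ha' ac h (by grind) (by grind)
    have a4 := S.l5 ha hc hf hc' ha' ac cf (by grind) (by grind) (by grind)
    grind

lemma uniq {a a' b c x i j} (h1 : κ b a = some i) (h2 : κ b a' = some i) (h3 : κ c a = some j)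
    (h4 : κ c a' = some j) (ba : d b a = 1) (ba' : d b a' = 1) (ca : d c a = 1) (ca' : d c a' = 1)
    (bc : d b c ≤ 1) (aa : d a a' ≤ 1) (ax : d a x = 1) (bx : d b x ≤ 1) (cx : 2 ≤ d c x) :
    a = a' := by
  by_contra hn
  have s := S.symm
  have : d a a' = 1 := by have := @S.eq0 a a'; grind
  obtain ⟨l, k1, k2⟩ := S.k2 h1 h2 ba ba' this
  obtain ⟨l', k3, k4⟩ := S.k2 h3 h4 ca ca' this
  have e : l = l' := by simpa [k1] using k3
  subst e
  have := S.k1 k2 k4 (by grind) (by grind) ax bc bx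
  omega

end Loc

structure Sys (d : V → V → ℕ) (κ : V → V → Option Bool) : Prop extends Loc d κ where
  tc : ∀ {o a b k}, d o a = k + 1 → d o b = k + 1 → d a b ≤ 1 →
    ∃ c, d c a = 1 ∧ d c b = 1 ∧ d o c = k
  pc : ∀ {o a b z k}, d z a = 1 → d z b = 1 → d o a = k → d o b = k → d o z = k + 1 → d a b ≤ 1

namespace Sys

variable {d : V → V → ℕ} {κ : V → V → Option Bool} (S : Sys d κ)
include S

lemma desc {v x y} (h : d v y < d v x) :
    ∃ x', d x x' = 1 ∧ d x' y + 1 = d x y ∧ d v x' + 1 = d v x := by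
  have s := S.symm
  have t := S.tri
  generalize hn : d x y = n
  induction n generalizing x with
  | zero => have := S.eq0 hn; grind
  | succ n ih =>
    obtain ⟨z, h1, h2⟩ := S.step hn
    by_cases e : d v z + 1 = d v x
    · exact ⟨z, h1, by omega, e⟩
    have a1 := t v z x
    have a2 := t v x z
    obtain ⟨u, h3, h4, h5⟩ := ih (x := z) (by grind) h2
    have a3 := t x u y
    by_cases e' : d v z = d v x
    · obtain ⟨c, h6, h7, h8⟩ := S.tc (o := v) (a := x) (b := z) (k := d v u) (by omega) (by omega)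
        h1.le
      have := S.pc (o := v) (z := z) (a := c) (b := u) (by grind) h3 h8 rfl (by omega)
      have a4 := t c u y
      have a5 := t x c y
      exact ⟨c, by grind, by grind, by omega⟩
    · have := S.pc (o := v) (z := z) (a := x) (b := u) (k := d v x) (by grind) h3 rfl (by grind)
        (by grind)
      omega

lemma conv {v u w x k} (hx : d u x + d x w = d u w) (hu : d v u ≤ k) (hw : d v w ≤ k) :
    d v x ≤ k := by
  by_contra hn
  have s := S.symm
  obtain ⟨a, h1, h2, h3⟩ := S.desc (v := v) (x := x) (y := u) (by omega)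
  obtain ⟨b, h4, h5, h6⟩ := S.desc (v := v) (x := x) (y := w) (by omega)
  have := S.pc (o := v) h1 h4 rfl (by omega) (by omega)
  have a1 := S.tri u a w
  have a2 := S.tri a b w
  grind

end Sys

/-- `u, w` span a horizontal side of length `n` at distance `n` from the apex `v` -/
def Fl (d : V → V → ℕ) (v u w : V) (n : ℕ) : Prop :=
  d u w = n ∧ ∀ x, d u x + d x w = d u w → d v x = n

namespace Sys

variable {d : V → V → ℕ} {κ : V → V → Option Bool} (S : Sys d κ)
include S

lemma qm (x y z : V) : ∃ u v w n, Fl d v u w n ∧ d x y = d x u + n + d v y ∧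
    d y z = d y v + n + d w z ∧ d x z = d x u + n + d w z := by
  have s := S.symm
  have t := S.tri
  generalize hn : d x y + d y z + d x z = N
  induction N using Nat.strong_induction_on generalizing x y z with
  | _ N ih =>
    by_cases e1 : ∃ a, d x a = 1 ∧ d a y + 1 = d x y ∧ d a z + 1 = d x z
    · obtain ⟨a, h1, h2, h3⟩ := e1
      obtain ⟨u, v, w, n, h4, h5, h6, h7⟩ := ih _ (by omega) a y z rfl
      have h8 := (h4.2 u (by simp [S.refl])).le
      have a1 := t x a u
      have a2 := t x u y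
      have a3 := t u v y
      exact ⟨u, v, w, n, h4, by grind, h6, by grind⟩
    by_cases e2 : ∃ a, d y a = 1 ∧ d a x + 1 = d y x ∧ d a z + 1 = d y z
    · obtain ⟨a, h1, h2, h3⟩ := e2
      obtain ⟨u, v, w, n, h4, h5, h6, h7⟩ := ih _ (by grind) x a z rfl
      have h8 := (h4.2 u (by simp [S.refl])).le
      have a1 := t y a v
      have a2 := t x u y
      have a3 := t u v y
      exact ⟨u, v, w, n, h4, by grind, by grind, h7⟩
    by_cases e3 : ∃ a, d z a = 1 ∧ d a x + 1 = d z x ∧ d a y + 1 = d z y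
    · obtain ⟨a, h1, h2, h3⟩ := e3
      obtain ⟨u, v, w, n, h4, h5, h6, h7⟩ := ih _ (by grind) x y a rfl
      have a1 := t z a w
      have a2 := t x u z
      have a3 := t u w z
      have a4 := h4.1
      exact ⟨u, v, w, n, h4, h5, by grind, by grind⟩
    have key : ∀ p q r : V, (¬ ∃ a, d p a = 1 ∧ d a q + 1 = d p q ∧ d a r + 1 = d p r) →
        ∀ m, d p m + d m r = d p r → d q p ≤ d q m := fun p q r h m hm => by
      by_contra hn
      obtain ⟨a, h1, h2, h3⟩ := S.desc (v := q) (x := p) (y := m) (by omega)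
      have a1 := t a m r
      have a2 := t p a r
      exact h ⟨a, h1, by grind, by omega⟩
    have r := S.refl
    have b1 := key x y z e1 z (by simp [r])
    have b2 := key x z y (by grind) y (by simp [r])
    have b3 := key y x z e2 z (by simp [r])
    have b4 := key y z x (by grind) x (by simp [r])
    have b5 := key z x y e3 y (by simp [r])
    have b6 := key z y x (by grind) x (by simp [r])
    refine ⟨x, y, z, d x z, ⟨rfl, fun m hm => ?_⟩, by grind, by grind, by simp [r]⟩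
    have b7 := key x y z e1 m hm
    have b8 := S.conv (v := y) hm le_rfl (by grind)
    grind

end Sys

end Pool.Agent.Lib.MP_35cce7_an
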